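import Pool.Agent.MP_dd09c0_an.Defs

/-!
# Cutoff functions (power and logarithmic)
-/

open MeasureTheory Metric Set Filter Topology
open scoped ENNReal NNReal ContDiff RealInnerProductSpace

namespace Pool.Agent.MP_dd09c0_an

variable {n : ℕ}

namespace CutoffAux

/-- the derivative of the smooth transition is bounded -/
theorem exists_bound : ∃ S : ℝ, 1 ≤ S ∧ ∀ x, |deriv Real.smoothTransition x| ≤ S := by
  have hc : Continuous (deriv Real.smoothTransition) :=
    (Real.smoothTransition.contDiff (n := 1)).continuous_deriv (by simp)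
  obtain ⟨S, hS⟩ := isCompact_Icc.exists_bound_of_continuousOn (s := Icc (0 : ℝ) 1) hc.continuousOn
  refine ⟨max 1 S, le_max_left _ _, fun x => ?_⟩
  by_cases hx : x ∈ Icc (0 : ℝ) 1
  · have := hS x hx
    rw [Real.norm_eq_abs] at this
    exact this.trans (le_max_right _ _)
  · have h0 : deriv Real.smoothTransition x = 0 := by
      rw [mem_Icc, not_and_or, not_le, not_le] at hx
      rcases hx with hx | hx
      · have : Real.smoothTransition =ᶠ[𝓝 x] fun _ => (0 : ℝ) := by
          filter_upwards [Iio_mem_nhds hx] with y hy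
          exact Real.smoothTransition.zero_of_nonpos (le_of_lt hy)
        rw [this.deriv_eq, deriv_const]
      · have : Real.smoothTransition =ᶠ[𝓝 x] fun _ => (1 : ℝ) := by
          filter_upwards [Ioi_mem_nhds hx] with y hy
          exact Real.smoothTransition.one_of_one_le (le_of_lt hy)
        rw [this.deriv_eq, deriv_const]
    rw [h0, abs_zero]
    exact zero_le_one.trans (le_max_left _ _)

end CutoffAux

theorem exists_cutoff (n : ℕ) : ∃ C : ℝ, 1 ≤ C ∧ ∀ (y₀ : E n) (a b : ℝ), 0 < a → a < b →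
    ∃ Φ : E n → ℝ, ContDiff ℝ ∞ Φ ∧ (∀ y, 0 ≤ Φ y ∧ Φ y ≤ 1) ∧
      (∀ y ∈ closedBall y₀ a, Φ y = 1) ∧ (∀ y, b ≤ dist y y₀ → Φ y = 0) ∧
      ∀ y, ‖fderiv ℝ Φ y‖ ≤ C / (b - a) := by
  obtain ⟨S, hS1, hS⟩ := CutoffAux.exists_bound
  refine ⟨2 * S, by linarith, fun y₀ a b ha hab => ?_⟩
  have hba : 0 < b - a := sub_pos.2 hab
  have hb : 0 < b := ha.trans hab
  have hsq : 0 < b ^ 2 - a ^ 2 := by nlinarith
  set g : E n → ℝ := fun y => (b ^ 2 - ‖y - y₀‖ ^ 2) / (b ^ 2 - a ^ 2) with hg
  have hgs : ContDiff ℝ ∞ g := by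
    have : ContDiff ℝ ∞ (fun y : E n => ‖y - y₀‖ ^ 2) :=
      (contDiff_id.sub contDiff_const).norm_sq ℝ
    exact (contDiff_const.sub this).div_const _
  have hgd : ∀ y, HasFDerivAt g ((-(2 / (b ^ 2 - a ^ 2))) • (innerSL ℝ (y - y₀) : E n →L[ℝ] ℝ)) y := by
    intro y
    have h1 : HasFDerivAt (fun y : E n => ‖y - y₀‖ ^ 2)
        (2 • (innerSL ℝ (y - y₀) : E n →L[ℝ] ℝ)) y := by
      have h2 : HasFDerivAt (fun y : E n => y - y₀) (ContinuousLinearMap.id ℝ (E n)) y :=
        (hasFDerivAt_id y).sub_const y₀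
      have := h2.norm_sq
      simpa using this
    have h3 := (h1.const_sub (b ^ 2)).mul_const ((b ^ 2 - a ^ 2)⁻¹)
    refine (h3.congr_fderiv ?_).congr_of_eventuallyEq (Eventually.of_forall fun z => ?_)
    · ext v
      simp only [smul_apply, neg_apply, smul_eq_mul, nsmul_eq_mul, innerSL_apply_apply,
        Nat.cast_ofNat, mul_neg, neg_smul]
      field_simp
    · simp only [hg, div_eq_mul_inv]
  refine ⟨fun y => Real.smoothTransition (g y), ?_, ?_, ?_, ?_, ?_⟩
  · exact (Real.smoothTransition.contDiff (n := ⊤)).comp hgs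
  · exact fun y => ⟨Real.smoothTransition.nonneg _, Real.smoothTransition.le_one _⟩
  · intro y hy
    apply Real.smoothTransition.one_of_one_le
    rw [mem_closedBall, dist_eq_norm] at hy
    simp only [hg]
    rw [le_div_iff₀ hsq]
    have := norm_nonneg (y - y₀)
    nlinarith
  · intro y hy
    apply Real.smoothTransition.zero_of_nonpos
    rw [dist_eq_norm] at hy
    apply div_nonpos_of_nonpos_of_nonneg _ hsq.le
    nlinarith
  · intro y
    have hST : HasDerivAt Real.smoothTransition (deriv Real.smoothTransition (g y)) (g y) :=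
      (((Real.smoothTransition.contDiff (n := 1)).differentiable (by simp)) (g y)).hasDerivAt
    by_cases hy : ‖y - y₀‖ ≤ b
    · have h1 := hST.comp_hasFDerivAt y (hgd y)
      have h1' : fderiv ℝ (fun y => Real.smoothTransition (g y)) y = _ := h1.fderiv
      rw [h1', norm_smul, norm_smul, innerSL_apply_norm, norm_neg,
        Real.norm_of_nonneg (show 0 ≤ 2 / (b ^ 2 - a ^ 2) by positivity), Real.norm_eq_abs]
      have h2 : |deriv Real.smoothTransition (g y)| * (2 / (b ^ 2 - a ^ 2) * ‖y - y₀‖) ≤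
          S * (2 / (b ^ 2 - a ^ 2) * b) := by
        gcongr
        exact hS _
      refine h2.trans ?_
      rw [show b ^ 2 - a ^ 2 = (b - a) * (b + a) by ring]
      have h3 : S * (2 / ((b - a) * (b + a)) * b) = 2 * S / (b - a) * (b / (b + a)) := by
        field_simp
      rw [h3]
      have h4 : b / (b + a) ≤ 1 := by
        rw [div_le_one (by linarith)]; linarith
      have h5 : 0 ≤ 2 * S / (b - a) := by positivity
      nlinarith
    · rw [not_le] at hy
      have h1 : (fun y => Real.smoothTransition (g y)) =ᶠ[𝓝 y] fun _ => (0 : ℝ) := by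
        have : {z : E n | b < ‖z - y₀‖} ∈ 𝓝 y :=
          (isOpen_lt continuous_const (by fun_prop)).mem_nhds hy
        filter_upwards [this] with z hz
        apply Real.smoothTransition.zero_of_nonpos
        apply div_nonpos_of_nonpos_of_nonneg _ hsq.le
        have hz' : b < ‖z - y₀‖ := hz
        nlinarith
      rw [h1.fderiv_eq, fderiv_fun_const]
      simp only [Pi.zero_apply, norm_zero]
      positivity

/-- Volume integral of `|y|^{-n}` over a spherical shell. -/
theorem lintegral_shell (n : ℕ) (hn : 1 ≤ n) (y₀ : E n) {a b : ℝ} (ha : 0 < a) (hab : a ≤ b) :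
    ∫⁻ y in {y : E n | a < dist y y₀ ∧ dist y y₀ < b}, ENNReal.ofReal (1 / dist y y₀ ^ n)
      ≤ ENNReal.ofReal (n * Real.log (b / a)) * volume (ball (0 : E n) 1) := by
  have : Nonempty (Fin n) := ⟨⟨0, by omega⟩⟩
  have : Nontrivial (E n) := inferInstance
  set F : ℝ → ℝ := (Ioo a b).indicator (fun s => 1 / s ^ n) with hF
  have hF0 : ∀ s, 0 ≤ F s := by
    intro s
    apply indicator_nonneg
    intro s hs
    have : 0 < s := ha.trans hs.1
    positivity
  have hdim : Module.finrank ℝ (E n) = n := by simp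
  have hprod : ∀ y ∈ Ioi (0 : ℝ), y ^ (Module.finrank ℝ (E n) - 1) • F y =
      (Ioo a b).indicator (fun s => s⁻¹) y := by
    intro y hy
    rw [hdim, hF, smul_eq_mul]
    by_cases h : y ∈ Ioo a b
    · rw [indicator_of_mem h, indicator_of_mem h]
      have hy0 : (0 : ℝ) < y := hy
      obtain ⟨m, rfl⟩ : ∃ m, n = m + 1 := ⟨n - 1, by omega⟩
      rw [Nat.add_sub_cancel, pow_succ]
      field_simp
    · rw [indicator_of_notMem h, indicator_of_notMem h, mul_zero]
  have hinv : IntegrableOn (fun s : ℝ => s⁻¹) (Ioo a b) := by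
    apply IntegrableOn.mono_set _ Ioo_subset_Icc_self
    apply ContinuousOn.integrableOn_compact isCompact_Icc
    exact continuousOn_inv₀.mono fun s hs => (ha.trans_le hs.1).ne'
  have hint : Integrable (fun x : E n => F ‖x‖) := by
    rw [integrable_fun_norm_addHaar (volume : Measure (E n))]
    refine (integrableOn_congr_fun hprod measurableSet_Ioi).2 ?_
    exact ((integrable_indicator_iff measurableSet_Ioo).2 hinv).integrableOn
  have hval : ∫ x : E n, F ‖x‖ = n * ((volume (ball (0 : E n) 1)).toReal * Real.log (b / a)) := by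
    rw [integral_fun_norm_addHaar, setIntegral_congr_fun measurableSet_Ioi hprod, hdim,
      nsmul_eq_mul, smul_eq_mul, Measure.real]
    congr 2
    rw [setIntegral_indicator measurableSet_Ioo, inter_eq_self_of_subset_right,
      ← integral_Ioc_eq_integral_Ioo, ← intervalIntegral.integral_of_le hab,
      integral_inv_of_pos ha (ha.trans_le hab)]
    intro s hs
    exact ha.trans hs.1
  have e1 : ∫⁻ y in {y : E n | a < dist y y₀ ∧ dist y y₀ < b}, ENNReal.ofReal (1 / dist y y₀ ^ n)
      = ∫⁻ y : E n, ENNReal.ofReal (F ‖y - y₀‖) := by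
    have hm : MeasurableSet {y : E n | a < dist y y₀ ∧ dist y y₀ < b} := by
      apply MeasurableSet.inter
      · exact (isOpen_lt continuous_const (continuous_id.dist continuous_const)).measurableSet
      · exact (isOpen_lt (continuous_id.dist continuous_const) continuous_const).measurableSet
    rw [← lintegral_indicator hm]
    refine lintegral_congr fun y => ?_
    by_cases h : a < dist y y₀ ∧ dist y y₀ < b
    · rw [indicator_of_mem (show y ∈ {y : E n | a < dist y y₀ ∧ dist y y₀ < b} from h), hF,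
        ← dist_eq_norm, indicator_of_mem (show dist y y₀ ∈ Ioo a b from h)]
    · rw [indicator_of_notMem (show y ∉ {y : E n | a < dist y y₀ ∧ dist y y₀ < b} from h), hF,
        ← dist_eq_norm, indicator_of_notMem (show dist y y₀ ∉ Ioo a b from h),
        ENNReal.ofReal_zero]
  rw [e1, lintegral_sub_right_eq_self (fun x : E n => ENNReal.ofReal (F ‖x‖)) y₀,
    ← ofReal_integral_eq_lintegral_ofReal hint (Eventually.of_forall fun x => hF0 _), hval]
  have hlog : 0 ≤ Real.log (b / a) := Real.log_nonneg (by rw [le_div_iff₀ ha]; linarith)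
  have hv : volume (ball (0 : E n) 1) ≠ ⊤ := measure_ball_lt_top.ne
  rw [show (n : ℝ) * ((volume (ball (0 : E n) 1)).toReal * Real.log (b / a))
    = (n * Real.log (b / a)) * (volume (ball (0 : E n) 1)).toReal by ring,
    ENNReal.ofReal_mul (by positivity), ENNReal.ofReal_toReal hv]

theorem exists_log_cutoff (n : ℕ) (hn : 1 ≤ n) : ∃ C : ℝ, 1 ≤ C ∧ ∀ (y₀ : E n) (a b : ℝ), 0 < a →
    a * Real.exp 1 ≤ b → ∃ (Φ : E n → ℝ) (b' : ℝ), b' < b ∧ ContDiff ℝ ∞ Φ ∧
      (∀ y, 0 ≤ Φ y ∧ Φ y ≤ 1) ∧ (∀ y ∈ closedBall y₀ a, Φ y = 1) ∧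
      (∀ y, b' ≤ dist y y₀ → Φ y = 0) ∧
      (∀ y, a < dist y y₀ → dist y y₀ < b → ‖fderiv ℝ Φ y‖ ≤ C / (dist y y₀ * Real.log (b / a))) ∧
      (∀ y, ¬ (a < dist y y₀ ∧ dist y y₀ < b) → fderiv ℝ Φ y = 0) ∧
      ∫⁻ y, ‖fderiv ℝ Φ y‖ₑ ^ n ≤ ENNReal.ofReal (C / Real.log (b / a) ^ (n - 1)) := by
  obtain ⟨S, hS1, hS⟩ := CutoffAux.exists_bound
  set W : ℝ := (volume (ball (0 : E n) 1)).toReal with hW
  have hW0 : 0 ≤ W := ENNReal.toReal_nonneg
  refine ⟨max (3 * S) ((3 * S) ^ n * n * W), le_trans (by linarith) (le_max_left _ _),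
    fun y₀ a b ha hab => ?_⟩
  set C : ℝ := max (3 * S) ((3 * S) ^ n * n * W) with hC
  have hC1 : 3 * S ≤ C := le_max_left _ _
  have hC2 : (3 * S) ^ n * n * W ≤ C := le_max_right _ _
  have hS0 : 0 < S := by linarith
  have hb : 0 < b := lt_of_lt_of_le (by positivity) hab
  set L : ℝ := Real.log (b / a) with hL
  have hL1 : 1 ≤ L := by
    rw [hL, Real.le_log_iff_exp_le (by positivity), le_div_iff₀ ha]
    linarith
  have hL0 : 0 < L := by linarith
  set b' : ℝ := a * Real.exp (2 * L / 3) with hb'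
  have hba : b = a * Real.exp L := by
    rw [hL, Real.exp_log (by positivity)]; field_simp
  have hb'b : b' < b := by
    rw [hb', hba]
    gcongr
    linarith
  set a' : ℝ := a * Real.exp (L / 3) with ha'
  have haa' : a < a' := by
    have : 1 < Real.exp (L / 3) := Real.one_lt_exp_iff.2 (by linarith)
    rw [ha']; nlinarith
  set g : E n → ℝ := fun y => 2 - 3 / L * Real.log (‖y - y₀‖ / a) with hg
  have g1 : ∀ y, ‖y - y₀‖ ≤ a' → 1 ≤ g y := by
    intro y hy
    rcases eq_or_lt_of_le (norm_nonneg (y - y₀)) with h0 | h0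
    · simp only [hg, ← h0, zero_div, Real.log_zero, mul_zero]; norm_num
    · have h1 : Real.log (‖y - y₀‖ / a) ≤ L / 3 := by
        rw [Real.log_le_iff_le_exp (by positivity), div_le_iff₀ ha]
        rw [ha'] at hy; linarith
      have h2 : 3 / L * Real.log (‖y - y₀‖ / a) ≤ 3 / L * (L / 3) := by gcongr
      have h3 : 3 / L * (L / 3) = 1 := by field_simp
      simp only [hg]; linarith
  have g0 : ∀ y, b' ≤ ‖y - y₀‖ → g y ≤ 0 := by
    intro y hy
    have hb'0 : 0 < b' := by positivity
    have h0 : 0 < ‖y - y₀‖ := hb'0.trans_le hy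
    have h1 : 2 * L / 3 ≤ Real.log (‖y - y₀‖ / a) := by
      rw [Real.le_log_iff_exp_le (by positivity), le_div_iff₀ ha]
      rw [hb'] at hy; linarith
    have h2 : 3 / L * (2 * L / 3) ≤ 3 / L * Real.log (‖y - y₀‖ / a) := by gcongr
    have h3 : 3 / L * (2 * L / 3) = 2 := by field_simp
    simp only [hg]; linarith
  set Φ : E n → ℝ := fun y => Real.smoothTransition (g y) with hΦ
  have near : ∀ y, ‖y - y₀‖ < a' → Φ =ᶠ[𝓝 y] fun _ => (1 : ℝ) := by
    intro y hy
    have : {z : E n | ‖z - y₀‖ < a'} ∈ 𝓝 y := (isOpen_lt (by fun_prop) continuous_const).mem_nhds hy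
    filter_upwards [this] with z hz
    exact Real.smoothTransition.one_of_one_le (g1 z (le_of_lt hz))
  have farr : ∀ y, b' < ‖y - y₀‖ → Φ =ᶠ[𝓝 y] fun _ => (0 : ℝ) := by
    intro y hy
    have : {z : E n | b' < ‖z - y₀‖} ∈ 𝓝 y := (isOpen_lt continuous_const (by fun_prop)).mem_nhds hy
    filter_upwards [this] with z hz
    exact Real.smoothTransition.zero_of_nonpos (g0 z (le_of_lt hz))
  have hgs : ∀ y, y ≠ y₀ → ContDiffAt ℝ ∞ g y := by
    intro y hy
    have h1 : ContDiffAt ℝ ∞ (fun y : E n => ‖y - y₀‖) y :=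
      (contDiffAt_id.sub contDiffAt_const).norm ℝ (sub_ne_zero.2 hy)
    have h2 : ContDiffAt ℝ ∞ (fun y : E n => Real.log (‖y - y₀‖ / a)) y :=
      (h1.div_const a).log (div_ne_zero (norm_ne_zero_iff.2 (sub_ne_zero.2 hy)) ha.ne')
    exact contDiffAt_const.sub (contDiffAt_const.mul h2)
  have hΦs : ContDiff ℝ ∞ Φ := by
    rw [contDiff_iff_contDiffAt]
    intro y
    by_cases hy : y = y₀
    · refine ContDiffAt.congr_of_eventuallyEq contDiffAt_const (near y ?_)
      rw [hy, sub_self, norm_zero]; linarith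
    · exact (Real.smoothTransition.contDiffAt (n := ⊤)).comp y (hgs y hy)
  have hzero : ∀ y, ¬ (a < dist y y₀ ∧ dist y y₀ < b) → fderiv ℝ Φ y = 0 := by
    intro y hy
    rw [not_and_or, not_lt, not_lt, dist_eq_norm] at hy
    rcases hy with hy | hy
    · rw [(near y (by linarith)).fderiv_eq, fderiv_fun_const]; rfl
    · rw [(farr y (by linarith)).fderiv_eq, fderiv_fun_const]; rfl
  have hder : ∀ y, a < dist y y₀ → dist y y₀ < b →
      ‖fderiv ℝ Φ y‖ ≤ 3 * S / (dist y y₀ * L) := by
    intro y h1 h2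
    rw [dist_eq_norm] at h1 h2 ⊢
    have hy : 0 < ‖y - y₀‖ := ha.trans h1
    have hy0 : y - y₀ ≠ 0 := norm_pos_iff.1 hy
    have hST : HasDerivAt Real.smoothTransition (deriv Real.smoothTransition (g y)) (g y) :=
      (((Real.smoothTransition.contDiff (n := 1)).differentiable (by simp)) (g y)).hasDerivAt
    have hN : DifferentiableAt ℝ (fun y : E n => ‖y - y₀‖) y :=
      ((contDiffAt_id.sub contDiffAt_const).norm ℝ hy0 : ContDiffAt ℝ 1
        (fun y : E n => ‖y - y₀‖) y).differentiableAt (by simp)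
    have hNn : ‖fderiv ℝ (fun y : E n => ‖y - y₀‖) y‖ ≤ 1 := by
      have : LipschitzWith 1 (fun y : E n => ‖y - y₀‖) := by
        apply LipschitzWith.of_dist_le_mul
        intro u v
        rw [NNReal.coe_one, one_mul, Real.dist_eq, dist_eq_norm]
        have := abs_norm_sub_norm_le (u - y₀) (v - y₀)
        rwa [sub_sub_sub_cancel_right] at this
      simpa using norm_fderiv_le_of_lipschitz ℝ this
    have h3 : HasFDerivAt (fun y : E n => ‖y - y₀‖ / a)
        (a⁻¹ • fderiv ℝ (fun y : E n => ‖y - y₀‖) y) y := by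
      have := hN.hasFDerivAt.mul_const a⁻¹
      simpa only [div_eq_mul_inv] using this
    have h4 := h3.log (by positivity)
    have h5 := (h4.const_mul (3 / L)).const_sub 2
    have h6 := hST.comp_hasFDerivAt y h5
    have h6' : fderiv ℝ Φ y = _ := h6.fderiv
    rw [h6', norm_smul, norm_neg, norm_smul, norm_smul, norm_smul, Real.norm_eq_abs,
      Real.norm_of_nonneg (show 0 ≤ 3 / L by positivity),
      Real.norm_of_nonneg (show 0 ≤ (‖y - y₀‖ / a)⁻¹ by positivity),
      Real.norm_of_nonneg (show 0 ≤ a⁻¹ by positivity)]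
    calc |deriv Real.smoothTransition (g y)| * (3 / L * ((‖y - y₀‖ / a)⁻¹ *
          (a⁻¹ * ‖fderiv ℝ (fun y : E n => ‖y - y₀‖) y‖)))
        ≤ S * (3 / L * ((‖y - y₀‖ / a)⁻¹ * (a⁻¹ * 1))) := by
          gcongr
          exact hS _
      _ = 3 * S / (‖y - y₀‖ * L) := by
          field_simp
  refine ⟨Φ, b', hb'b, hΦs, ?_, ?_, ?_, ?_, hzero, ?_⟩
  · exact fun y => ⟨Real.smoothTransition.nonneg _, Real.smoothTransition.le_one _⟩
  · intro y hy
    rw [mem_closedBall, dist_eq_norm] at hy
    exact Real.smoothTransition.one_of_one_le (g1 y (by linarith))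
  · intro y hy
    rw [dist_eq_norm] at hy
    exact Real.smoothTransition.zero_of_nonpos (g0 y hy)
  · intro y h1 h2
    have h3 : 0 < dist y y₀ := ha.trans h1
    refine (hder y h1 h2).trans ?_
    gcongr
  · have hm : MeasurableSet {y : E n | a < dist y y₀ ∧ dist y y₀ < b} := by
      apply MeasurableSet.inter
      · exact (isOpen_lt continuous_const (continuous_id.dist continuous_const)).measurableSet
      · exact (isOpen_lt (continuous_id.dist continuous_const) continuous_const).measurableSet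
    have hv : volume (ball (0 : E n) 1) ≠ ⊤ := measure_ball_lt_top.ne
    calc ∫⁻ y, ‖fderiv ℝ Φ y‖ₑ ^ n
        ≤ ∫⁻ y, {y : E n | a < dist y y₀ ∧ dist y y₀ < b}.indicator
          (fun y => ENNReal.ofReal ((3 * S / L) ^ n) * ENNReal.ofReal (1 / dist y y₀ ^ n)) y := by
          refine lintegral_mono fun y => ?_
          by_cases h : a < dist y y₀ ∧ dist y y₀ < b
          · rw [indicator_of_mem (show y ∈ {y : E n | a < dist y y₀ ∧ dist y y₀ < b} from h),
              ← ENNReal.ofReal_mul (by positivity), ← ofReal_norm,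
              ← ENNReal.ofReal_pow (norm_nonneg _)]
            apply ENNReal.ofReal_le_ofReal
            have h3 : 0 < dist y y₀ := ha.trans h.1
            calc ‖fderiv ℝ Φ y‖ ^ n ≤ (3 * S / (dist y y₀ * L)) ^ n := by
                  gcongr
                  exact hder y h.1 h.2
              _ = (3 * S / L) ^ n * (1 / dist y y₀ ^ n) := by
                  rw [div_pow, div_pow, mul_pow (dist y y₀) L]; field_simp
          · rw [hzero y h, indicator_of_notMem
              (show y ∉ {y : E n | a < dist y y₀ ∧ dist y y₀ < b} from h), ← ofReal_norm,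
              norm_zero, ENNReal.ofReal_zero, zero_pow (by omega)]
      _ = ENNReal.ofReal ((3 * S / L) ^ n) * ∫⁻ y in {y : E n | a < dist y y₀ ∧ dist y y₀ < b},
          ENNReal.ofReal (1 / dist y y₀ ^ n) := by
          rw [lintegral_indicator hm, lintegral_const_mul' _ _ ENNReal.ofReal_ne_top]
      _ ≤ ENNReal.ofReal ((3 * S / L) ^ n) *
          (ENNReal.ofReal (n * L) * volume (ball (0 : E n) 1)) := by
          gcongr
          exact lintegral_shell n hn y₀ ha (by rw [hba]; nlinarith [Real.add_one_le_exp L])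
      _ = ENNReal.ofReal ((3 * S) ^ n * n * W / L ^ (n - 1)) := by
          rw [← ENNReal.ofReal_toReal hv, ← hW, ← ENNReal.ofReal_mul (by positivity),
            ← ENNReal.ofReal_mul (by positivity)]
          congr 1
          obtain ⟨m, rfl⟩ : ∃ m, n = m + 1 := ⟨n - 1, by omega⟩
          rw [Nat.add_sub_cancel, div_pow, pow_succ L]
          field_simp
      _ ≤ _ := by
          apply ENNReal.ofReal_le_ofReal
          gcongr

end Pool.Agent.MP_dd09c0_an
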