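import Pool.Agent.MP_dd09c0_an.MaxFn

/-!
# Tails on high level sets of the maximal function
-/

open MeasureTheory Metric Set Filter Topology
open scoped ENNReal NNReal ContDiff RealInnerProductSpace

namespace Pool.Agent.MP_dd09c0_an

variable {n : ℕ}

namespace LimAux

/-- `∑_{j<J} 2^{(j+1)m}/(j+1)` -/
noncomputable def S (m J : ℕ) : ℝ := ∑ j ∈ Finset.range J, (2 : ℝ) ^ ((j + 1) * m) / (j + 1)

theorem S_le {m : ℕ} (hm : 1 ≤ m) {J : ℕ} (hJ : 1 ≤ J) : S m J ≤ 4 * 2 ^ (J * m) / J := by
  have h2m : (2 : ℝ) ≤ 2 ^ m := by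
    calc (2 : ℝ) = 2 ^ 1 := (pow_one _).symm
      _ ≤ 2 ^ m := pow_le_pow_right₀ (by norm_num) hm
  have h2mpos : (0 : ℝ) < 2 ^ m := by positivity
  induction J, hJ using Nat.le_induction with
  | base =>
    simp only [S, Finset.sum_range_one]
    norm_num
  | succ J hJ ih =>
    have hS : S m (J + 1) = S m J + 2 ^ ((J + 1) * m) / (J + 1) := by
      simp only [S, Finset.sum_range_succ]
    have hJ' : (1 : ℝ) ≤ J := by exact_mod_cast hJ
    have hpow : (2 : ℝ) ^ ((J + 1) * m) = 2 ^ (J * m) * 2 ^ m := by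
      rw [← pow_add]; congr 1; ring
    set P : ℝ := (2 : ℝ) ^ (J * m) with hP
    have hPpos : 0 < P := by positivity
    rcases Nat.lt_or_ge J 2 with h1 | h2
    · have hJ1 : J = 1 := by omega
      subst hJ1
      have hS1 : S m 1 = 2 ^ m := by
        simp only [S, Finset.sum_range_one]
        norm_num
      rw [hS, hS1]
      have hP1 : P = 2 ^ m := by rw [hP, one_mul]
      rw [hpow, hP1]
      push_cast
      norm_num
      nlinarith
    · have hJ2 : (2 : ℝ) ≤ J := by exact_mod_cast h2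
      rw [hS, hpow]
      push_cast
      have h3 : 4 * P / J ≤ 3 * (P * 2 ^ m) / (J + 1) := by
        rw [div_le_div_iff₀ (by positivity) (by positivity)]
        have : 4 * ((J : ℝ) + 1) ≤ 3 * 2 ^ m * J := by nlinarith
        nlinarith
      calc S m J + P * 2 ^ m / (J + 1) ≤ 4 * P / J + P * 2 ^ m / (J + 1) := by linarith
        _ ≤ 3 * (P * 2 ^ m) / (J + 1) + P * 2 ^ m / (J + 1) := by linarith
        _ = 4 * (P * 2 ^ m) / (J + 1) := by ring

theorem log_le_three_mul {y : ℝ} (hy : 0 ≤ y) {J : ℕ} (hJ : 1 ≤ J) (h : y ≤ 2 ^ J) :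
    Real.log (Real.exp 1 + y) ≤ 3 * J := by
  have he : Real.exp 1 < 3 := Real.exp_one_lt_three
  have hJ' : (1 : ℝ) ≤ J := by exact_mod_cast hJ
  have h2 : (2 : ℝ) ≤ 2 ^ J := by
    calc (2 : ℝ) = 2 ^ 1 := (pow_one _).symm
      _ ≤ 2 ^ J := pow_le_pow_right₀ (by norm_num) hJ
  have h3 : Real.exp 1 + y ≤ 3 * 2 ^ J := by linarith
  calc Real.log (Real.exp 1 + y) ≤ Real.log (3 * 2 ^ J) :=
        Real.log_le_log (by positivity) h3
    _ = Real.log 3 + J * Real.log 2 := by
        rw [Real.log_mul (by norm_num) (by positivity), Real.log_pow]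
    _ ≤ 2 + J * 1 := by
        have a1 := Real.log_le_sub_one_of_pos (show (0 : ℝ) < 3 by norm_num)
        have a2 := Real.log_le_sub_one_of_pos (show (0 : ℝ) < 2 by norm_num)
        have a3 : (J : ℝ) * Real.log 2 ≤ J * 1 := by
          apply mul_le_mul_of_nonneg_left _ (by positivity)
          linarith
        linarith
    _ ≤ 3 * J := by linarith

/-- the density of the `j`-th level -/
noncomputable def F (C : ℝ) (m : ℕ) (j : ℕ) (y : ℝ) : ℝ≥0∞ :=
  if (2 : ℝ) ^ j < y then
    ENNReal.ofReal ((C * 2 ^ ((j + 1) * m) * y + 2 ^ (j + 1) * y ^ m) / (j + 1)) else 0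

theorem tsum_F_le {C : ℝ} (hC : 0 ≤ C) {m : ℕ} (hm : 1 ≤ m) {y : ℝ} (hy : 0 ≤ y) :
    ∑' j, F C m j y ≤ ENNReal.ofReal ((12 * C * 2 ^ m + 24) *
      (y ^ (m + 1) / Real.log (Real.exp 1 + y))) := by
  set J := Nat.clog 2 ⌈y⌉₊ with hJ
  have hiff : ∀ j : ℕ, (2 : ℝ) ^ j < y ↔ j < J := by
    intro j
    rw [hJ, Nat.lt_clog_iff_pow_lt (by norm_num), Nat.lt_ceil]
    push_cast
    rfl
  have h1 : ∑' j, F C m j y = ∑ j ∈ Finset.range J, F C m j y := by
    apply tsum_eq_sum
    intro j hj
    rw [Finset.mem_range, ← hiff] at hj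
    simp only [F, hj, if_false]
  have hlog : 0 < Real.log (Real.exp 1 + y) := by
    apply Real.log_pos
    have := Real.add_one_le_exp (1 : ℝ)
    linarith
  have h2 : ∑ j ∈ Finset.range J, F C m j y = ENNReal.ofReal (C * y * S m J + y ^ m * S 1 J) := by
    have h3 : C * y * S m J + y ^ m * S 1 J = ∑ j ∈ Finset.range J,
        (C * 2 ^ ((j + 1) * m) * y + 2 ^ (j + 1) * y ^ m) / (j + 1) := by
      simp only [S, Finset.mul_sum, mul_one]
      rw [← Finset.sum_add_distrib]
      apply Finset.sum_congr rfl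
      intro j _
      ring
    rw [h3, ENNReal.ofReal_sum_of_nonneg]
    · apply Finset.sum_congr rfl
      intro j hj
      rw [Finset.mem_range, ← hiff] at hj
      simp only [F, hj, if_true]
    · intro j _
      positivity
  rw [h1, h2]
  apply ENNReal.ofReal_le_ofReal
  rcases Nat.eq_zero_or_pos J with h0 | hpos
  · rw [h0]
    simp only [S, Finset.range_zero, Finset.sum_empty, mul_zero, add_zero]
    positivity
  · have hJ1 : 1 ≤ J := hpos
    have hJr : (1 : ℝ) ≤ J := by exact_mod_cast hJ1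
    have hy2 : y ≤ 2 ^ J := by
      by_contra hcon
      rw [not_le, hiff] at hcon
      exact lt_irrefl _ hcon
    have hlt : (2 : ℝ) ^ (J - 1) < y := (hiff _).mpr (by omega)
    have h2J : (2 : ℝ) ^ J ≤ 2 * y := by
      have : (2 : ℝ) ^ J = 2 * 2 ^ (J - 1) := by
        rw [← pow_succ']; congr 1; omega
      rw [this]; linarith
    have hl3 := log_le_three_mul hy hJ1 hy2
    have hinv : (1 : ℝ) / J ≤ 3 / Real.log (Real.exp 1 + y) := by
      rw [div_le_div_iff₀ (by positivity) hlog]
      linarith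
    have b1 : S m J ≤ 12 * 2 ^ m * y ^ m / Real.log (Real.exp 1 + y) := by
      calc S m J ≤ 4 * 2 ^ (J * m) / J := S_le hm hJ1
        _ = 4 * (2 ^ J) ^ m * (1 / J) := by rw [pow_mul]; ring
        _ ≤ 4 * (2 * y) ^ m * (3 / Real.log (Real.exp 1 + y)) := by gcongr
        _ = _ := by rw [mul_pow]; ring
    have b2 : S 1 J ≤ 24 * y / Real.log (Real.exp 1 + y) := by
      calc S 1 J ≤ 4 * 2 ^ (J * 1) / J := S_le le_rfl hJ1
        _ = 4 * 2 ^ J * (1 / J) := by rw [mul_one]; ring
        _ ≤ 4 * (2 * y) * (3 / Real.log (Real.exp 1 + y)) := by gcongr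
        _ = _ := by ring
    calc C * y * S m J + y ^ m * S 1 J
        ≤ C * y * (12 * 2 ^ m * y ^ m / Real.log (Real.exp 1 + y)) +
          y ^ m * (24 * y / Real.log (Real.exp 1 + y)) := by gcongr
      _ = _ := by rw [pow_succ]; ring

theorem level_le (n : ℕ) (hn : 1 ≤ n) : ∃ C : ℝ, 1 ≤ C ∧ ∀ (g : E n → ℝ), Measurable g →
    (∀ x, 0 ≤ g x) → ∀ (m : ℕ) (t : ℝ), 0 < t → ENNReal.ofReal t *
      ∫⁻ x in {x | ENNReal.ofReal t < maxFn (fun z => ENNReal.ofReal (g z)) x},
        ENNReal.ofReal (g x) ^ m ≤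
      ∫⁻ x, (if t / 2 < g x then ENNReal.ofReal (C * t ^ m * g x + t * g x ^ m) else 0) := by
  obtain ⟨C, hC, hM⟩ := maxFn_weak n hn
  refine ⟨C, hC, ?_⟩
  intro g hg hg0 m t ht
  have hC0 : 0 ≤ C := by linarith
  have hG : Measurable (fun z => ENNReal.ofReal (g z)) := hg.ennreal_ofReal
  set T : Set (E n) := {x | t / 2 < g x} with hT
  have hTm : MeasurableSet T := measurableSet_lt measurable_const hg
  have hT' : {x | ENNReal.ofReal (t / 2) < ENNReal.ofReal (g x)} = T := by
    ext x
    simp only [hT, mem_ofPred_eq]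
    exact ENNReal.ofReal_lt_ofReal_iff_of_nonneg (by positivity)
  have h1 := hM _ hG t ht
  rw [hT'] at h1
  set Sset : Set (E n) := {x | ENNReal.ofReal t < maxFn (fun z => ENNReal.ofReal (g z)) x} with hS
  have hSm : MeasurableSet Sset := measurableSet_lt measurable_const (measurable_maxFn hG)
  have h2 : ∫⁻ x in Sset, ENNReal.ofReal (g x) ^ m ≤
      ENNReal.ofReal (t ^ m) * volume Sset + ∫⁻ x in T, ENNReal.ofReal (g x ^ m) := by
    calc ∫⁻ x in Sset, ENNReal.ofReal (g x) ^ m
        ≤ ∫⁻ x in Sset, (ENNReal.ofReal (t ^ m) +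
            T.indicator (fun x => ENNReal.ofReal (g x ^ m)) x) := by
          apply lintegral_mono
          intro x
          simp only
          rw [← ENNReal.ofReal_pow (hg0 x)]
          by_cases hx : x ∈ T
          · rw [indicator_of_mem hx]; exact le_add_self
          · rw [indicator_of_notMem hx, add_zero]
            apply ENNReal.ofReal_le_ofReal
            have : g x ≤ t := by
              have : ¬ (t / 2 < g x) := hx
              linarith
            exact pow_le_pow_left₀ (hg0 x) this m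
      _ = ENNReal.ofReal (t ^ m) * volume Sset +
          ∫⁻ x in Sset, T.indicator (fun x => ENNReal.ofReal (g x ^ m)) x := by
          rw [lintegral_add_left measurable_const, setLIntegral_const]
      _ ≤ _ := add_le_add le_rfl
          ((setLIntegral_le_lintegral _ _).trans (lintegral_indicator hTm _).le)
  calc ENNReal.ofReal t * ∫⁻ x in Sset, ENNReal.ofReal (g x) ^ m
      ≤ ENNReal.ofReal t * (ENNReal.ofReal (t ^ m) * (ENNReal.ofReal (C / t) *
          ∫⁻ x in T, ENNReal.ofReal (g x)) + ∫⁻ x in T, ENNReal.ofReal (g x ^ m)) := by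
        gcongr
        exact h2.trans (by gcongr)
    _ = ENNReal.ofReal (C * t ^ m) * (∫⁻ x in T, ENNReal.ofReal (g x)) +
          ENNReal.ofReal t * ∫⁻ x in T, ENNReal.ofReal (g x ^ m) := by
        have e1 : ENNReal.ofReal t * (ENNReal.ofReal (t ^ m) * ENNReal.ofReal (C / t)) =
            ENNReal.ofReal (C * t ^ m) := by
          rw [← ENNReal.ofReal_mul (by positivity), ← ENNReal.ofReal_mul ht.le]
          congr 1
          field_simp
        rw [← e1]
        ring
    _ = ∫⁻ x in T, ENNReal.ofReal (C * t ^ m * g x + t * g x ^ m) := by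
        rw [← lintegral_const_mul _ hG, ← lintegral_const_mul _ (hg.pow_const m).ennreal_ofReal,
          ← lintegral_add_left (hG.const_mul _)]
        apply lintegral_congr
        intro x
        have := hg0 x
        have e2 : ENNReal.ofReal (C * t ^ m * g x) =
            ENNReal.ofReal (C * t ^ m) * ENNReal.ofReal (g x) :=
          ENNReal.ofReal_mul (by positivity)
        have e3 : ENNReal.ofReal (t * g x ^ m) = ENNReal.ofReal t * ENNReal.ofReal (g x ^ m) :=
          ENNReal.ofReal_mul ht.le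
        rw [ENNReal.ofReal_add (by positivity) (by positivity), e2, e3]
    _ = ∫⁻ x, T.indicator (fun x => ENNReal.ofReal (C * t ^ m * g x + t * g x ^ m)) x :=
        (lintegral_indicator hTm _).symm
    _ = _ := by
        apply lintegral_congr
        intro x
        by_cases hx : x ∈ T
        · rw [indicator_of_mem hx, if_pos (show t / 2 < g x from hx)]
        · rw [indicator_of_notMem hx, if_neg (show ¬ (t / 2 < g x) from hx)]

end LimAux

open LimAux

/-- The tails of `|Df|^(n-1)` on high level sets of the maximal function are small along a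
sequence of levels. -/
theorem liminf_level (n : ℕ) (hn : 2 ≤ n) {g : E n → ℝ} (hg : Measurable g) (hg0 : ∀ x, 0 ≤ g x)
    {R : ℝ} (hR : ∀ x, R < ‖x‖ → g x = 0)
    (hint : ∫⁻ x, ENNReal.ofReal (g x ^ n / Real.log (Real.exp 1 + g x)) < ⊤)
    {ε : ℝ} (hε : 0 < ε) (t0 : ℝ) :
    ∃ t : ℝ, t0 ≤ t ∧ 0 < t ∧ ENNReal.ofReal t *
      ∫⁻ x in {x | ENNReal.ofReal t < maxFn (fun z => ENNReal.ofReal (g z)) x},
        ENNReal.ofReal (g x) ^ (n - 1) ≤ ENNReal.ofReal ε := by
  obtain ⟨C, hC, hlev⟩ := level_le n (by omega)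
  have hC0 : 0 ≤ C := by linarith
  obtain ⟨m, rfl⟩ : ∃ m, n = m + 1 := ⟨n - 1, by omega⟩
  have hm : 1 ≤ m := by omega
  rw [Nat.add_sub_cancel]
  by_contra hcon
  push Not at hcon
  obtain ⟨j0, hj0⟩ := pow_unbounded_of_one_lt t0 (show (1 : ℝ) < 2 by norm_num)
  -- each level contributes at least `ε / (j+1)`
  have key : ∀ j : ℕ, j0 ≤ j → ENNReal.ofReal (ε / (j + 1)) ≤ ∫⁻ x, F C m j (g x) := by
    intro j hj
    have h2j : (0 : ℝ) < 2 ^ (j + 1) := by positivity
    have ht0 : t0 ≤ 2 ^ (j + 1) := by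
      calc t0 ≤ 2 ^ j0 := hj0.le
        _ ≤ 2 ^ (j + 1) := pow_le_pow_right₀ (by norm_num) (by omega)
    have h1 := hcon (2 ^ (j + 1)) ht0 h2j
    have h2 := h1.le.trans (hlev g hg hg0 m (2 ^ (j + 1)) h2j)
    have hj1 : (0 : ℝ) < (j : ℝ) + 1 := by positivity
    have h3 : ENNReal.ofReal (ε / (j + 1)) = ENNReal.ofReal (1 / (j + 1)) * ENNReal.ofReal ε := by
      rw [← ENNReal.ofReal_mul (by positivity)]
      congr 1
      ring
    rw [h3]
    calc ENNReal.ofReal (1 / (j + 1)) * ENNReal.ofReal ε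
        ≤ ENNReal.ofReal (1 / (j + 1)) * ∫⁻ x, (if (2 : ℝ) ^ (j + 1) / 2 < g x then
          ENNReal.ofReal (C * (2 ^ (j + 1)) ^ m * g x + 2 ^ (j + 1) * g x ^ m) else 0) := by
          gcongr
      _ = ∫⁻ x, ENNReal.ofReal (1 / (j + 1)) * (if (2 : ℝ) ^ (j + 1) / 2 < g x then
          ENNReal.ofReal (C * (2 ^ (j + 1)) ^ m * g x + 2 ^ (j + 1) * g x ^ m) else 0) := by
          rw [lintegral_const_mul]
          apply Measurable.ite (measurableSet_lt measurable_const hg)
          · apply Measurable.ennreal_ofReal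
            exact (hg.const_mul _).add ((hg.pow_const m).const_mul _)
          · exact measurable_const
      _ = ∫⁻ x, F C m j (g x) := by
          apply lintegral_congr
          intro x
          have hx := hg0 x
          have h4 : (2 : ℝ) ^ (j + 1) / 2 = 2 ^ j := by rw [pow_succ]; ring
          rw [h4]
          simp only [F]
          by_cases h5 : (2 : ℝ) ^ j < g x
          · rw [if_pos h5, if_pos h5, ← ENNReal.ofReal_mul (by positivity), pow_mul]
            congr 1
            ring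
          · rw [if_neg h5, if_neg h5, mul_zero]
  have hFm : ∀ j, Measurable (fun x => F C m j (g x)) := by
    intro j
    simp only [F]
    apply Measurable.ite (measurableSet_lt measurable_const hg)
    · apply Measurable.ennreal_ofReal
      exact ((hg.const_mul _).add ((hg.pow_const m).const_mul _)).div_const _
    · exact measurable_const
  have hsum : ∑' j, ∫⁻ x, F C m j (g x) < ⊤ := by
    rw [← lintegral_tsum (fun j => (hFm j).aemeasurable)]
    calc ∫⁻ x, ∑' j, F C m j (g x)
        ≤ ∫⁻ x, ENNReal.ofReal (12 * C * 2 ^ m + 24) *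
          ENNReal.ofReal (g x ^ (m + 1) / Real.log (Real.exp 1 + g x)) := by
          apply lintegral_mono
          intro x
          refine (tsum_F_le hC0 hm (hg0 x)).trans ?_
          rw [ENNReal.ofReal_mul (by positivity)]
      _ = ENNReal.ofReal (12 * C * 2 ^ m + 24) *
          ∫⁻ x, ENNReal.ofReal (g x ^ (m + 1) / Real.log (Real.exp 1 + g x)) := by
          rw [lintegral_const_mul']
          exact ENNReal.ofReal_ne_top
      _ < ⊤ := ENNReal.mul_lt_top ENNReal.ofReal_lt_top hint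
  have hsum2 : ∑' j : ℕ, ENNReal.ofReal (ε / ((j + j0 : ℕ) + 1)) ≠ ⊤ := by
    refine ne_top_of_le_ne_top hsum.ne ?_
    calc ∑' j : ℕ, ENNReal.ofReal (ε / ((j + j0 : ℕ) + 1))
        ≤ ∑' j : ℕ, ∫⁻ x, F C m (j + j0) (g x) := by
          apply ENNReal.tsum_le_tsum
          intro j
          exact key (j + j0) (by omega)
      _ ≤ ∑' j, ∫⁻ x, F C m j (g x) :=
          ENNReal.tsum_comp_le_tsum_of_injective (add_left_injective j0)
            (fun j => ∫⁻ x, F C m j (g x))
  have hsumm := ENNReal.summable_toReal hsum2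
  have h6 : ∀ j : ℕ, (ENNReal.ofReal (ε / ((j + j0 : ℕ) + 1))).toReal = ε / ((j + j0 : ℕ) + 1) :=
    fun j => ENNReal.toReal_ofReal (by positivity)
  simp only [h6] at hsumm
  have h7 : Summable (fun j : ℕ => ((j + (j0 + 1) : ℕ) : ℝ)⁻¹) := by
    have h8 := hsumm.mul_left ε⁻¹
    refine h8.congr ?_
    intro j
    push_cast
    field_simp
    ring
  rw [summable_nat_add_iff (f := fun j : ℕ => (j : ℝ)⁻¹)] at h7
  exact Real.not_summable_natCast_inv h7

end Pool.Agent.MP_dd09c0_an
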