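import Pool.Agent.MP_dd09c0_an.Defs

/-!
# Mollification and smooth approximation
-/

open MeasureTheory Metric Set Filter Topology
open scoped ENNReal NNReal ContDiff RealInnerProductSpace

namespace Pool.Agent.MP_dd09c0_an

variable {n : ℕ}

namespace MollAux

open ContinuousLinearMap
open scoped Convolution

/-- Jensen for a probability density, in lower integral form. -/
theorem lintegral_mul_rpow_le {p : ℝ} (hp : 1 ≤ p) {g ρ : E n → ℝ≥0∞}
    (hg : AEMeasurable g volume) (hρ : Measurable ρ) (hρ1 : ∫⁻ y, ρ y = 1) :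
    (∫⁻ y, ρ y * g y) ^ p ≤ ∫⁻ y, ρ y * g y ^ p := by
  rcases hp.eq_or_lt with rfl | hp
  · simp
  have hp0 : 0 < p := by linarith
  obtain ⟨q, hq⟩ : ∃ q : ℝ, p.HolderConjugate q := ⟨p.conjExponent, Real.HolderConjugate.conjExponent hp⟩
  set ν : Measure (E n) := volume.withDensity ρ with hν
  have hνu : ν univ = 1 := by
    rw [hν, withDensity_apply _ MeasurableSet.univ, setLIntegral_univ, hρ1]
  have hac : ν ≪ volume := withDensity_absolutelyContinuous _ _
  have e1 : ∀ f : E n → ℝ≥0∞, AEMeasurable f volume → ∫⁻ y, ρ y * f y = ∫⁻ y, f y ∂ν := by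
    intro f hf
    rw [hν, lintegral_withDensity_eq_lintegral_mul₀ hρ.aemeasurable hf]
    rfl
  rw [e1 g hg, e1 _ (hg.pow_const p)]
  have h := ENNReal.lintegral_mul_le_Lp_mul_Lq ν hq (f := g) (g := fun _ => 1)
    (hg.mono_ac hac) aemeasurable_const
  simp only [Pi.mul_apply, ENNReal.one_rpow, lintegral_const, hνu, mul_one] at h
  calc (∫⁻ y, g y ∂ν) ^ p ≤ ((∫⁻ a, g a ^ p ∂ν) ^ (1 / p)) ^ p := by gcongr
    _ = ∫⁻ a, g a ^ p ∂ν := by
        rw [← ENNReal.rpow_mul, one_div, inv_mul_cancel₀ hp0.ne', ENNReal.rpow_one]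

lemma integrable_ind {G : Type*} [NormedAddCommGroup G] {T : Set (E n)} (hT : MeasurableSet T)
    {l : E n → G} (hl : IntegrableOn l T) : Integrable (T.indicator l) :=
  (integrable_indicator_iff hT).2 hl

section moll

variable {G : Type*} [NormedAddCommGroup G] [NormedSpace ℝ G]

/-- Mollification of a function. -/
noncomputable def moll (φ : ContDiffBump (0 : E n)) (f : E n → G) : E n → G :=
  φ.normed volume ⋆[lsmul ℝ ℝ, volume] f

lemma moll_apply (φ : ContDiffBump (0 : E n)) (f : E n → G) (x : E n) :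
    moll φ f x = ∫ t, φ.normed volume t • f (x - t) := rfl

lemma moll_apply' (φ : ContDiffBump (0 : E n)) (f : E n → G) (x : E n) :
    moll φ f x = ∫ y, φ.normed volume (x - y) • f y := by
  rw [moll_apply, ← integral_sub_left_eq_self (fun t => φ.normed volume t • f (x - t)) volume x]
  simp

lemma lintegral_normed (φ : ContDiffBump (0 : E n)) :
    ∫⁻ t, ENNReal.ofReal (φ.normed volume t) = 1 := by
  rw [← ofReal_integral_eq_lintegral_ofReal φ.integrable_normed
    (Eventually.of_forall φ.nonneg_normed), φ.integral_normed, ENNReal.ofReal_one]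

/-- Young's inequality. -/
lemma lintegral_moll_le {p : ℝ} (hp : 1 ≤ p) (φ : ContDiffBump (0 : E n)) {f : E n → G}
    (hf : AEStronglyMeasurable f volume) :
    ∫⁻ x, ‖moll φ f x‖ₑ ^ p ≤ ∫⁻ x, ‖f x‖ₑ ^ p := by
  have hp0 : 0 ≤ p := by linarith
  obtain ⟨γ, hγm, hγe⟩ := hf.enorm
  set ρ := φ.normed (volume : Measure (E n)) with hρ
  have hρc : Continuous ρ := φ.continuous_normed
  have hm : ∀ x : E n, Measurable (fun y : E n => ENNReal.ofReal (ρ (x - y))) := by
    intro x
    exact (hρc.comp (continuous_const.sub continuous_id)).measurable.ennreal_ofReal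
  have hD' : ∀ x, ‖moll φ f x‖ₑ ≤ ∫⁻ y, ENNReal.ofReal (ρ (x - y)) * γ y := by
    intro x
    rw [moll_apply']
    refine (enorm_integral_le_lintegral_enorm _).trans (le_of_eq (lintegral_congr_ae ?_))
    filter_upwards [hγe] with y hy
    rw [enorm_smul, Real.enorm_of_nonneg (φ.nonneg_normed _), hy]
  calc ∫⁻ x, ‖moll φ f x‖ₑ ^ p
      ≤ ∫⁻ x, ∫⁻ y, ENNReal.ofReal (ρ (x - y)) * γ y ^ p := by
        refine lintegral_mono fun x => ?_
        refine (ENNReal.rpow_le_rpow (hD' x) hp0).trans ?_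
        refine lintegral_mul_rpow_le hp hγm.aemeasurable (hm x) ?_
        rw [lintegral_sub_left_eq_self (fun y => ENNReal.ofReal (ρ y)) x, lintegral_normed]
    _ = ∫⁻ y, ∫⁻ x, ENNReal.ofReal (ρ (x - y)) * γ y ^ p := by
        refine lintegral_lintegral_swap ?_
        refine Measurable.aemeasurable ?_
        refine Measurable.mul ?_ ?_
        · exact (hρc.comp (continuous_fst.sub continuous_snd)).measurable.ennreal_ofReal
        · exact (hγm.comp measurable_snd).pow_const _
    _ = ∫⁻ y, γ y ^ p := by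
        refine lintegral_congr fun y => ?_
        rw [lintegral_mul_const]
        · rw [lintegral_sub_right_eq_self (fun x => ENNReal.ofReal (ρ x)) y, lintegral_normed,
            one_mul]
        · exact (hρc.comp (continuous_id.sub continuous_const)).measurable.ennreal_ofReal
    _ = ∫⁻ y, ‖f y‖ₑ ^ p := by
        refine lintegral_congr_ae ?_
        filter_upwards [hγe] with y hy
        rw [hy]

lemma moll_sub (φ : ContDiffBump (0 : E n)) {f g : E n → G} (hf : LocallyIntegrable f)
    (hg : LocallyIntegrable g) : moll φ (f - g) = moll φ f - moll φ g := by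
  have e1 : ConvolutionExists (φ.normed volume) f (lsmul ℝ ℝ) (volume : Measure (E n)) :=
    φ.hasCompactSupport_normed.convolutionExists_left _ φ.continuous_normed hf
  have e2 : ConvolutionExists (φ.normed volume) g (lsmul ℝ ℝ) (volume : Measure (E n)) :=
    φ.hasCompactSupport_normed.convolutionExists_left _ φ.continuous_normed hg
  funext x
  have h1 : Integrable fun t => φ.normed volume t • f (x - t) := e1 x
  have h2 : Integrable fun t => φ.normed volume t • g (x - t) := e2 x
  simp only [moll_apply, Pi.sub_apply, smul_sub]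
  exact integral_sub h1 h2

lemma contDiff_moll [CompleteSpace G] (φ : ContDiffBump (0 : E n)) {f : E n → G}
    (hf : LocallyIntegrable f) : ContDiff ℝ ∞ (moll φ f) :=
  φ.hasCompactSupport_normed.contDiff_convolution_left _ φ.contDiff_normed hf

omit [NormedSpace ℝ G] in
lemma eLpNorm_ofReal {α : Type*} [MeasurableSpace α] {μ : Measure α} {p : ℝ} (hp : 1 ≤ p)
    (f : α → G) :
    eLpNorm f (ENNReal.ofReal p) μ = (∫⁻ x, ‖f x‖ₑ ^ p ∂μ) ^ (1 / p) := by
  have h0 : ENNReal.ofReal p ≠ 0 := by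
    rw [Ne, ENNReal.ofReal_eq_zero]; linarith
  rw [eLpNorm_eq_lintegral_rpow_enorm_toReal h0 ENNReal.ofReal_ne_top,
    ENNReal.toReal_ofReal (by linarith)]

lemma eLpNorm_moll_le {p : ℝ} (hp : 1 ≤ p) (φ : ContDiffBump (0 : E n)) {f : E n → G}
    (hf : AEStronglyMeasurable f volume) :
    eLpNorm (moll φ f) (ENNReal.ofReal p) volume ≤ eLpNorm f (ENNReal.ofReal p) volume := by
  rw [eLpNorm_ofReal hp, eLpNorm_ofReal hp]
  exact ENNReal.rpow_le_rpow (lintegral_moll_le hp φ hf) (by positivity)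

/-- `L^p` convergence of mollifications. -/
lemma exists_moll_close [CompleteSpace G] {p : ℝ} (hp : 1 ≤ p) {f : E n → G}
    (hf : MemLp f (ENNReal.ofReal p) volume)
    {ε : ℝ} (hε : 0 < ε) : ∃ δ > 0, ∀ φ : ContDiffBump (0 : E n), φ.rOut < δ →
      eLpNorm (moll φ f - f) (ENNReal.ofReal p) volume ≤ ENNReal.ofReal ε := by
  have hε3 : 0 < ε / 3 := by positivity
  have hp1 : 1 ≤ ENNReal.ofReal p := by
    rw [← ENNReal.ofReal_one]; exact ENNReal.ofReal_le_ofReal hp
  obtain ⟨g, hgs, hg, hgcont, -⟩ := hf.exists_hasCompactSupport_eLpNorm_sub_le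
    ENNReal.ofReal_ne_top (ε := ENNReal.ofReal (ε / 3)) (by simpa using hε3)
  have hguc : UniformContinuous g := hgs.uniformContinuous_of_continuous hgcont
  -- the compact set
  set K : Set (E n) := cthickening 1 (tsupport g) with hK
  have hKc : IsCompact K := hgs.isCompact.cthickening
  have hKfin : volume K ≠ ⊤ := hKc.measure_lt_top.ne
  obtain ⟨η, hη, hηε⟩ : ∃ η : ℝ, 0 < η ∧
      ENNReal.ofReal η * volume K ^ (1 / (ENNReal.ofReal p).toReal) ≤ ENNReal.ofReal (ε / 3) := by
    set V : ℝ := (volume K ^ (1 / (ENNReal.ofReal p).toReal)).toReal with hV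
    have hVfin : volume K ^ (1 / (ENNReal.ofReal p).toReal) ≠ ⊤ :=
      ENNReal.rpow_ne_top_of_nonneg (by positivity) hKfin
    refine ⟨(ε / 3) / (V + 1), by positivity, ?_⟩
    rw [← ENNReal.ofReal_toReal hVfin, ← ENNReal.ofReal_mul (by positivity), ← hV]
    apply ENNReal.ofReal_le_ofReal
    rw [div_mul_eq_mul_div, div_le_iff₀ (by positivity)]
    nlinarith [show 0 ≤ V from ENNReal.toReal_nonneg]
  obtain ⟨δ₁, hδ₁, hδ⟩ := Metric.uniformContinuous_iff.1 hguc η hη
  refine ⟨min δ₁ 1, lt_min hδ₁ one_pos, ?_⟩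
  intro φ hφ
  have hφ1 : φ.rOut < δ₁ := hφ.trans_le (min_le_left _ _)
  have hφ2 : φ.rOut < 1 := hφ.trans_le (min_le_right _ _)
  have hfl : LocallyIntegrable f := hf.locallyIntegrable hp1
  have hgl : LocallyIntegrable g := hgcont.locallyIntegrable
  -- uniform closeness for g
  have h2 : eLpNorm (moll φ g - g) (ENNReal.ofReal p) volume ≤ ENNReal.ofReal (ε / 3) := by
    refine le_trans (eLpNorm_sub_le_of_dist_bdd (s := K) volume ENNReal.ofReal_ne_top
      hKc.measurableSet hη.le ?_ ?_ ?_) hηε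
    · intro x
      apply φ.dist_normed_convolution_le hgcont.aestronglyMeasurable
      intro y hy
      apply (hδ _).le
      exact (mem_ball.1 hy).trans hφ1
    · intro x hx
      have h3 := support_convolution_subset (lsmul ℝ ℝ) hx
      obtain ⟨a, ha, b, hb, rfl⟩ := Set.mem_add.1 h3
      rw [φ.support_normed_eq, mem_ball_zero_iff] at ha
      apply mem_cthickening_of_dist_le (a + b) b 1
      · exact subset_tsupport g hb
      · rw [dist_eq_norm, add_sub_cancel_right]
        exact (ha.trans hφ2).le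
    · exact (subset_tsupport g).trans (self_subset_cthickening _)
  have m3 : AEStronglyMeasurable (f - g) volume :=
    hf.aestronglyMeasurable.sub hgcont.aestronglyMeasurable
  have h1 : eLpNorm (moll φ (f - g)) (ENNReal.ofReal p) volume ≤ ENNReal.ofReal (ε / 3) :=
    (eLpNorm_moll_le hp φ m3).trans hg
  have e : moll φ f - f = moll φ (f - g) + (moll φ g - g) - (f - g) := by
    rw [moll_sub φ hfl hgl]
    abel
  have m1 : AEStronglyMeasurable (moll φ (f - g)) volume :=
    (contDiff_moll φ (hfl.sub hgl)).continuous.aestronglyMeasurable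
  have m2 : AEStronglyMeasurable (moll φ g - g) volume :=
    ((contDiff_moll φ hgl).continuous.sub hgcont).aestronglyMeasurable
  rw [e]
  calc eLpNorm (moll φ (f - g) + (moll φ g - g) - (f - g)) (ENNReal.ofReal p) volume
      ≤ eLpNorm (moll φ (f - g) + (moll φ g - g)) (ENNReal.ofReal p) volume
        + eLpNorm (f - g) (ENNReal.ofReal p) volume :=
        eLpNorm_sub_le (m1.add m2) m3 hp1
    _ ≤ (eLpNorm (moll φ (f - g)) (ENNReal.ofReal p) volume
        + eLpNorm (moll φ g - g) (ENNReal.ofReal p) volume)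
        + eLpNorm (f - g) (ENNReal.ofReal p) volume := by
        gcongr
        exact eLpNorm_add_le m1 m2 hp1
    _ ≤ (ENNReal.ofReal (ε / 3) + ENNReal.ofReal (ε / 3)) + ENNReal.ofReal (ε / 3) := by
        gcongr
    _ = ENNReal.ofReal ε := by
        rw [← ENNReal.ofReal_add (by positivity) (by positivity),
          ← ENNReal.ofReal_add (by positivity) (by positivity)]
        congr 1
        ring

end moll

/-- The bump function of outer radius `r`. -/
noncomputable def bump (r : ℝ) (hr : 0 < r) : ContDiffBump (0 : E n) :=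
  ⟨r / 2, r, half_pos hr, half_lt_self hr⟩

section vec

variable {F : Type*} [NormedAddCommGroup F] [NormedSpace ℝ F]

/-- The derivative of a mollification of a weakly differentiable map. -/
lemma fderiv_moll [CompleteSpace F] (φ : ContDiffBump (0 : E n)) {D T : Set (E n)} {w : E n → F}
    {l : E n → (E n →L[ℝ] F)}
    (hT : IsCompact T) (hTD : T ⊆ D) (hw : ContinuousOn w T) (hl : IntegrableOn l T)
    (hweak : ∀ ψ : E n → ℝ, ContDiff ℝ ∞ ψ → HasCompactSupport ψ → tsupport ψ ⊆ D →
      ∀ v : E n, ∫ x, fderiv ℝ ψ x v • w x = - ∫ x, ψ x • l x v)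
    {x : E n} (hx : closedBall x φ.rOut ⊆ T) :
    fderiv ℝ (moll φ (T.indicator w)) x = moll φ (T.indicator l) x := by
  set ρ := φ.normed (volume : Measure (E n)) with hρ
  have hwi : Integrable (T.indicator w) :=
    (integrable_indicator_iff hT.measurableSet).2 (hw.integrableOn_compact hT)
  have hwl : LocallyIntegrable (T.indicator w) := hwi.locallyIntegrable
  have hli : Integrable (T.indicator l) := integrable_ind hT.measurableSet hl
  have hρs : ContDiff ℝ ∞ ρ := φ.contDiff_normed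
  have hρc : HasCompactSupport ρ := φ.hasCompactSupport_normed
  have hder : HasFDerivAt (moll φ (T.indicator w))
      ((fderiv ℝ ρ ⋆[(lsmul ℝ ℝ).precompL (E n), volume] (T.indicator w)) x) x :=
    hρc.hasFDerivAt_convolution_left (lsmul ℝ ℝ) (hρs.of_le (by simp)) hwl x
  -- the test function
  set ψ : E n → ℝ := fun y => ρ (x - y) with hψ
  have hψs : ContDiff ℝ ∞ ψ := hρs.comp (contDiff_const.sub contDiff_id)
  have hsupp : Function.support ψ ⊆ closedBall x φ.rOut := by
    intro y hy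
    have : x - y ∈ Function.support ρ := hy
    rw [hρ, φ.support_normed_eq, mem_ball_zero_iff] at this
    rw [mem_closedBall, dist_comm, dist_eq_norm]
    exact this.le
  have htsupp : tsupport ψ ⊆ closedBall x φ.rOut := closure_minimal hsupp isClosed_closedBall
  have hψT : tsupport ψ ⊆ T := htsupp.trans hx
  have hψc : HasCompactSupport ψ :=
    (isCompact_closedBall x φ.rOut).of_isClosed_subset (isClosed_tsupport _) htsupp
  have hw' := hweak ψ hψs hψc (hψT.trans hTD)
  have hψd : ∀ y v, fderiv ℝ ψ y v = - fderiv ℝ ρ (x - y) v := by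
    intro y v
    have h1 : HasFDerivAt ρ (fderiv ℝ ρ (x - y)) (x - y) :=
      ((hρs.differentiable (by simp)) (x - y)).hasFDerivAt
    have h2 : HasFDerivAt (fun y : E n => x - y)
        (-(ContinuousLinearMap.id ℝ (E n))) y := by
      simpa using (hasFDerivAt_id y).const_sub x
    have h3 : HasFDerivAt ψ ((fderiv ℝ ρ (x - y)).comp (-(ContinuousLinearMap.id ℝ (E n)))) y :=
      h1.comp y h2
    rw [h3.fderiv]
    simp
  rw [hder.fderiv]
  ext v
  have hex : ConvolutionExistsAt (fderiv ℝ ρ) (T.indicator w) x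
      ((lsmul ℝ ℝ).precompL (E n)) volume :=
    (hρc.fderiv ℝ).convolutionExists_left _ (hρs.continuous_fderiv (by simp)) hwl x
  have e1 : ((fderiv ℝ ρ ⋆[(lsmul ℝ ℝ).precompL (E n), volume] (T.indicator w)) x) v
      = - ∫ y, fderiv ℝ ψ y v • w y := by
    rw [convolution_def, ContinuousLinearMap.integral_apply hex]
    rw [← integral_neg]
    rw [← integral_sub_left_eq_self (fun y => -(fderiv ℝ ψ y v • w y)) volume x]
    congr 1
    funext t
    rw [hψd]
    by_cases ht : x - t ∈ T
    · simp [ContinuousLinearMap.precompL_apply, ht]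
    · have h3 : x - t ∉ tsupport ψ := fun h => ht (hψT h)
      have h4 : fderiv ℝ ψ (x - t) = 0 := by
        have : x - t ∉ tsupport (fderiv ℝ ψ) := fun h => h3 (tsupport_fderiv_subset ℝ h)
        exact image_eq_zero_of_notMem_tsupport this
      have h5 : fderiv ℝ ρ t v = 0 := by
        have := hψd (x - t) v
        rw [h4] at this
        simpa using this
      simp [ht, h5]
  have e2 : (moll φ (T.indicator l) x) v = ∫ y, ψ y • l y v := by
    have hex2 : Integrable fun y => ψ y • T.indicator l y := by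
      have h5 := (hρc.convolutionExists_left (lsmul ℝ ℝ) hρs.continuous
        hli.locallyIntegrable) x
      have h6 := h5.integrable_swap
      refine h6.congr (Eventually.of_forall fun y => ?_)
      simp [hψ]
    rw [moll_apply', ContinuousLinearMap.integral_apply hex2]
    congr 1
    funext y
    by_cases ht : y ∈ T
    · simp [ht, hψ]
    · have h3 : ψ y = 0 := image_eq_zero_of_notMem_tsupport fun h => ht (hψT h)
      simp [h3]
  rw [e1, hw', neg_neg, e2]

/-- Smooth approximation of a weakly differentiable map. -/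
theorem exists_smooth_approx [FiniteDimensional ℝ F]
    {D : Set (E n)} {w : E n → F} {l : E n → (E n →L[ℝ] F)} (hD : IsOpen D)
    (hw : ContinuousOn w D) (hl : LocallyIntegrableOn l D)
    (hweak : ∀ ψ : E n → ℝ, ContDiff ℝ ∞ ψ → HasCompactSupport ψ → tsupport ψ ⊆ D →
      ∀ v : E n, ∫ x, fderiv ℝ ψ x v • w x = - ∫ x, ψ x • l x v)
    {p : ℝ} (hp : 1 ≤ p) (hlp : ∀ T ⊆ D, IsCompact T → ∫⁻ x in T, ‖l x‖ₑ ^ p < ⊤)
    {S : Set (E n)} (hS : IsCompact S) (hSD : S ⊆ D) {ε : ℝ} (hε : 0 < ε) :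
    ∃ W : E n → F, ContDiff ℝ ∞ W ∧ (∀ x ∈ S, ‖W x - w x‖ < ε) ∧
      ∫⁻ x in S, ‖fderiv ℝ W x - l x‖ₑ ^ p < ENNReal.ofReal ε := by
  have : CompleteSpace F := FiniteDimensional.complete ℝ F
  obtain ⟨δ₀, hδ₀, hδD⟩ := hS.exists_cthickening_subset_open hD hSD
  set T : Set (E n) := cthickening δ₀ S with hTdef
  have hT : IsCompact T := hS.cthickening
  have hwT : ContinuousOn w T := hw.mono hδD
  have hlT : IntegrableOn l T := hl.integrableOn_compact_subset hδD hT
  have hST : S ⊆ T := self_subset_cthickening _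
  have hlm : MemLp (T.indicator l) (ENNReal.ofReal p) volume := by
    refine (memLp_indicator_iff_restrict hT.measurableSet).2 ⟨hlT.aestronglyMeasurable, ?_⟩
    rw [eLpNorm_ofReal hp]
    exact ENNReal.rpow_lt_top_of_nonneg (by positivity) (hlp T hδD hT).ne
  -- target accuracy
  set ε' : ℝ := (ε / 2) ^ (1 / p) with hε'
  have hε'0 : 0 < ε' := by positivity
  obtain ⟨δ₁, hδ₁, h1⟩ := exists_moll_close hp hlm hε'0
  obtain ⟨δ₂, hδ₂, h2⟩ := Metric.uniformContinuousOn_iff.1
    (hT.uniformContinuousOn_of_continuous hwT) (ε / 2) (by positivity)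
  set r : ℝ := min δ₀ (min δ₁ δ₂) / 2 with hr
  have hr0 : 0 < r := by positivity
  have hr₀ : r < δ₀ := by
    have : min δ₀ (min δ₁ δ₂) ≤ δ₀ := min_le_left _ _
    linarith [half_lt_self (show 0 < min δ₀ (min δ₁ δ₂) by positivity)]
  have hr₁ : r < δ₁ := by
    have : min δ₀ (min δ₁ δ₂) ≤ δ₁ := (min_le_right _ _).trans (min_le_left _ _)
    linarith [half_lt_self (show 0 < min δ₀ (min δ₁ δ₂) by positivity)]
  have hr₂ : r < δ₂ := by
    have : min δ₀ (min δ₁ δ₂) ≤ δ₂ := (min_le_right _ _).trans (min_le_right _ _)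
    linarith [half_lt_self (show 0 < min δ₀ (min δ₁ δ₂) by positivity)]
  set φ : ContDiffBump (0 : E n) := bump r hr0 with hφ
  have hφr : φ.rOut = r := rfl
  have hwi : Integrable (T.indicator w) :=
    (integrable_indicator_iff hT.measurableSet).2 (hwT.integrableOn_compact hT)
  refine ⟨moll φ (T.indicator w), contDiff_moll φ hwi.locallyIntegrable, ?_, ?_⟩
  · intro x hx
    have hxT : x ∈ T := hST hx
    have hd := φ.dist_normed_convolution_le (x₀ := x) (ε := ε / 2)
      (μ := (volume : Measure (E n))) (g := T.indicator w) hwi.aestronglyMeasurable (by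
        intro y hy
        have hyT : y ∈ T := by
          refine mem_cthickening_of_dist_le y x δ₀ S hx ?_
          exact ((mem_ball.1 hy).trans (hφr ▸ hr₀)).le
        rw [indicator_of_mem hyT, indicator_of_mem hxT]
        exact (h2 y hyT x hxT ((mem_ball.1 hy).trans (hφr ▸ hr₂))).le)
    rw [indicator_of_mem hxT, dist_eq_norm] at hd
    exact lt_of_le_of_lt hd (half_lt_self hε)
  · have e1 : ∫⁻ x in S, ‖fderiv ℝ (moll φ (T.indicator w)) x - l x‖ₑ ^ p
        = ∫⁻ x in S, ‖(moll φ (T.indicator l) - T.indicator l) x‖ₑ ^ p := by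
      refine setLIntegral_congr_fun hS.measurableSet fun x hx => ?_
      have hb : closedBall x φ.rOut ⊆ T := by
        intro y hy
        refine mem_cthickening_of_dist_le y x δ₀ S hx ?_
        exact (mem_closedBall.1 hy).trans (hφr ▸ hr₀.le)
      simp only [Pi.sub_apply]
      rw [fderiv_moll φ hT hδD hwT hlT hweak hb, indicator_of_mem (hST hx)]
    rw [e1]
    have h3 := h1 φ (hφr ▸ hr₁)
    rw [eLpNorm_ofReal hp] at h3
    have hp0 : 0 < p := by linarith
    calc ∫⁻ x in S, ‖(moll φ (T.indicator l) - T.indicator l) x‖ₑ ^ p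
        ≤ ∫⁻ x, ‖(moll φ (T.indicator l) - T.indicator l) x‖ₑ ^ p := setLIntegral_le_lintegral _ _
      _ = ((∫⁻ x, ‖(moll φ (T.indicator l) - T.indicator l) x‖ₑ ^ p) ^ (1 / p)) ^ p := by
          rw [← ENNReal.rpow_mul, one_div, inv_mul_cancel₀ hp0.ne', ENNReal.rpow_one]
      _ ≤ (ENNReal.ofReal ε') ^ p := ENNReal.rpow_le_rpow h3 hp0.le
      _ = ENNReal.ofReal (ε / 2) := by
          rw [ENNReal.ofReal_rpow_of_nonneg hε'0.le hp0.le, hε', ← Real.rpow_mul (by positivity),
            one_div, inv_mul_cancel₀ hp0.ne', Real.rpow_one]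
      _ < ENNReal.ofReal ε := (ENNReal.ofReal_lt_ofReal_iff hε).2 (half_lt_self hε)

end vec

/-- Pointwise bound `‖L‖ ^ (n - 1/2) ≤ J + K ^ (2n-1)`. -/
lemma norm_rpow_pex_le (hn : 2 ≤ n) {N K J : ℝ} (hN : 0 ≤ N) (hK : 1 ≤ K)
    (h : N ^ n ≤ K * J) : N ^ pex n ≤ J + K ^ (2 * n - 1) := by
  have hJ : 0 ≤ J := by
    by_contra hJ
    push Not at hJ
    have : K * J < 0 := mul_neg_of_pos_of_neg (by linarith) hJ
    have : 0 ≤ N ^ n := by positivity
    linarith
  have hnR : (2 : ℝ) ≤ n := by exact_mod_cast hn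
  have hKp : 1 ≤ K ^ (2 * n - 1) := one_le_pow₀ hK
  set M : ℝ := J + K ^ (2 * n - 1) with hM
  have hM0 : 1 ≤ M := by linarith
  have hMpos : 0 < M := by linarith
  have hcast : ((2 * n - 1 : ℕ) : ℝ) = 2 * n - 1 := by
    rw [Nat.cast_sub (by omega)]; push_cast; ring
  have h2n : (0 : ℝ) < 2 * n - 1 := by linarith
  have hKM : K ≤ M ^ (1 / (2 * n - 1 : ℝ)) := by
    have h1 : K ^ (2 * n - 1) ≤ M := by linarith
    have h2 : K = (K ^ (2 * n - 1)) ^ (1 / (2 * n - 1 : ℝ)) := by
      rw [← Real.rpow_natCast K (2 * n - 1), ← Real.rpow_mul (by linarith), hcast,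
        mul_one_div_cancel h2n.ne', Real.rpow_one]
    calc K = (K ^ (2 * n - 1)) ^ (1 / (2 * n - 1 : ℝ)) := h2
      _ ≤ M ^ (1 / (2 * n - 1 : ℝ)) := by
          apply Real.rpow_le_rpow (by positivity) h1 (by positivity)
  have hJM : J ≤ M := by linarith
  have h3 : N ^ n ≤ M ^ (2 * n / (2 * n - 1 : ℝ)) := by
    calc N ^ n ≤ K * J := h
      _ ≤ M ^ (1 / (2 * n - 1 : ℝ)) * M := by gcongr
      _ = M ^ (1 / (2 * n - 1 : ℝ) + 1) := by rw [Real.rpow_add_one hMpos.ne']
      _ = M ^ (2 * n / (2 * n - 1 : ℝ)) := by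
          congr 1
          field_simp
          ring
  have hpn : pex n = n * ((2 * n - 1) / (2 * n) : ℝ) := by
    unfold pex
    field_simp
  calc N ^ pex n = (N ^ n) ^ ((2 * n - 1) / (2 * n) : ℝ) := by
        rw [hpn, Real.rpow_mul hN, Real.rpow_natCast]
    _ ≤ (M ^ (2 * n / (2 * n - 1 : ℝ))) ^ ((2 * n - 1) / (2 * n) : ℝ) := by
        apply Real.rpow_le_rpow (by positivity) h3 (by positivity)
    _ = M := by
        rw [← Real.rpow_mul hMpos.le]
        have : (2 * n / (2 * n - 1) * ((2 * n - 1) / (2 * n)) : ℝ) = 1 := by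
          field_simp
        rw [this, Real.rpow_one]

end MollAux

open MollAux

theorem GM.lintegral_Df (hn : 2 ≤ n) {D : Set (E n)} {f : E n → E n} {Df : E n → E n →L[ℝ] E n}
    {K : E n → ℝ} (H : GM n D f Df K) : ∫⁻ x in D, ‖Df x‖ₑ ^ pex n < ⊤ := by
  obtain ⟨m, hm, hexp⟩ := H.intK
  have hp0 : 0 ≤ pex n := by
    have : (2 : ℝ) ≤ n := by exact_mod_cast hn
    unfold pex; linarith
  set N := 2 * n - 1 with hN
  have hK1 : ∀ x, 0 ≤ K x := fun x => by linarith [H.one_le x]
  -- `K ^ N` is integrable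
  have hKN : IntegrableOn (fun x => K x ^ N) D := by
    have h1 : IntegrableOn (fun x => (N.factorial / m ^ N) * Real.exp (m * K x)) D :=
      hexp.const_mul _
    refine h1.mono' (H.measK.pow_const N).aestronglyMeasurable (Eventually.of_forall fun x => ?_)
    rw [Real.norm_of_nonneg (by have := hK1 x; positivity)]
    have h2 := Real.pow_div_factorial_le_exp (m * K x) (by have := hK1 x; positivity) N
    rw [div_le_iff₀ (by positivity), mul_pow] at h2
    rw [div_mul_eq_mul_div, le_div_iff₀ (by positivity)]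
    nlinarith
  have hJm : ∀ x, 0 ≤ (Df x).det := by
    intro x
    by_contra hJ
    push Not at hJ
    have h1 := H.dist_le x
    have h2 : K x * (Df x).det < 0 := mul_neg_of_pos_of_neg (by linarith [H.one_le x]) hJ
    have : 0 ≤ ‖Df x‖ ^ n := by positivity
    linarith
  have hint : IntegrableOn (fun x => (Df x).det + K x ^ N) D := H.intJ.add hKN
  have h3 : ∫⁻ x in D, ‖Df x‖ₑ ^ pex n ≤ ∫⁻ x in D, ENNReal.ofReal ((Df x).det + K x ^ N) := by
    refine lintegral_mono fun x => ?_
    have h4 := norm_rpow_pex_le hn (norm_nonneg (Df x)) (H.one_le x) (H.dist_le x)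
    rw [← ofReal_norm, ENNReal.ofReal_rpow_of_nonneg (norm_nonneg _) hp0]
    exact ENNReal.ofReal_le_ofReal h4
  refine lt_of_le_of_lt h3 ?_
  have h5 := hint.lintegral_lt_top
  exact h5

theorem GM.integrableOn_Df (hn : 2 ≤ n) {D : Set (E n)} {f : E n → E n}
    {Df : E n → E n →L[ℝ] E n} {K : E n → ℝ} (H : GM n D f Df K) : IntegrableOn Df D := by
  have hn2 : (2 : ℝ) ≤ n := by exact_mod_cast hn
  have hp1 : 1 ≤ pex n := by unfold pex; linarith
  refine ⟨H.meas.aestronglyMeasurable, ?_⟩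
  have h1 : ∫⁻ x in D, ‖Df x‖ₑ ≤ ∫⁻ x in D, (1 + ‖Df x‖ₑ ^ pex n) := by
    refine lintegral_mono fun x => ?_
    rcases le_or_gt ‖Df x‖ₑ 1 with h | h
    · exact h.trans (le_add_right le_rfl)
    · refine le_trans ?_ (le_add_left le_rfl)
      calc ‖Df x‖ₑ = ‖Df x‖ₑ ^ (1 : ℝ) := by simp
        _ ≤ _ := ENNReal.rpow_le_rpow_of_exponent_le h.le hp1
  rw [HasFiniteIntegral]
  refine lt_of_le_of_lt h1 ?_
  rw [lintegral_add_left measurable_const]
  refine ENNReal.add_lt_top.2 ⟨?_, H.lintegral_Df hn⟩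
  simp only [lintegral_const, MeasurableSet.univ, Measure.restrict_apply, univ_inter, one_mul]
  exact H.bdd.measure_lt_top

/-- Smooth approximation. -/
theorem GM.approx (hn : 2 ≤ n) {D : Set (E n)} {f : E n → E n} {Df : E n → E n →L[ℝ] E n}
    {K : E n → ℝ} (H : GM n D f Df K) {S : Set (E n)} (hS : IsCompact S) (hSD : S ⊆ D)
    {ε : ℝ} (hε : 0 < ε) :
    ∃ F : E n → E n, ContDiff ℝ ∞ F ∧ (∀ x ∈ S, ‖F x - f x‖ < ε) ∧
      ∫⁻ x in S, ‖fderiv ℝ F x - Df x‖ₑ ^ pex n < ENNReal.ofReal ε := by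
  have hn2 : (2 : ℝ) ≤ n := by exact_mod_cast hn
  have hp1 : 1 ≤ pex n := by unfold pex; linarith
  refine exists_smooth_approx H.isOpen H.cont.continuousOn
    (H.integrableOn_Df hn).locallyIntegrableOn H.weak hp1 (fun T hT _ => ?_) hS hSD hε
  exact lt_of_le_of_lt (lintegral_mono_set hT) (H.lintegral_Df hn)

end Pool.Agent.MP_dd09c0_an
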