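import Pool.Agent.MP_dd09c0_an.Row

/-!
# The null Lagrangian identity for smooth maps

`∫ det (D F with the i-th row replaced by D u) = 0` for `F` smooth and `u` Lipschitz with compact
support.
-/

open MeasureTheory Metric Set Filter Topology
open scoped ENNReal NNReal ContDiff RealInnerProductSpace

namespace Pool.Agent.MP_dd09c0_an

variable {n : ℕ}

namespace NullAux

/-- Smooth cutoff functions between a compact set and an open set. -/
theorem exists_bump {K U : Set (E n)} (hK : IsCompact K) (hU : IsOpen U) (hKU : K ⊆ U) :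
    ∃ χ : E n → ℝ, ContDiff ℝ ∞ χ ∧ HasCompactSupport χ ∧ tsupport χ ⊆ U ∧
      (∀ x ∈ K, ∀ᶠ z in 𝓝 x, χ z = 1) ∧ ∀ x, 0 ≤ χ x ∧ χ x ≤ 1 := by
  obtain ⟨K', hK', h1, h2⟩ := exists_compact_between hK hU hKU
  obtain ⟨f, hf1, hf0, hf⟩ := exists_contMDiffMap_one_nhds_of_subset_interior (n := (⊤ : ℕ∞))
    (modelWithCornersSelf ℝ (E n)) hK.isClosed h1
  have hts : tsupport (f : E n → ℝ) ⊆ K' := by
    refine closure_minimal ?_ hK'.isClosed
    intro x hx
    by_contra hxK
    exact hx (hf0 x hxK)
  refine ⟨f, f.contMDiff.contDiff, hK'.of_isClosed_subset (isClosed_tsupport _) hts, hts.trans h2,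
    ?_, fun x => hf x⟩
  intro x hx
  exact (eventually_nhdsSet_iff_forall.1 hf1) x hx

/-- Integration by parts: Lipschitz compactly supported factor against a smooth one. -/
theorem integral_fderiv_mul {u : E n → ℝ} {C : ℝ≥0} (hu : LipschitzWith C u)
    (hc : HasCompactSupport u) {Q : E n → ℝ} (hQ : ContDiff ℝ ∞ Q) (v : E n) :
    ∫ x, fderiv ℝ u x v * Q x = - ∫ x, u x * fderiv ℝ Q x v := by
  obtain ⟨χ, hχ, hχc, -, hχ1, -⟩ := exists_bump hc isOpen_univ (subset_univ _)
  set g : E n → ℝ := fun x => χ x * Q x with hg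
  have hgs : ContDiff ℝ ∞ g := hχ.mul hQ
  have hgc : HasCompactSupport g := hχc.mul_right
  obtain ⟨D, hD⟩ := hgs.lipschitzWith_of_hasCompactSupport hgc (by simp)
  have key := LipschitzWith.integral_lineDeriv_mul_eq (μ := volume) hu hD hgc v
  have h1 : ∫ x, fderiv ℝ u x v * Q x = ∫ x, lineDeriv ℝ u x v * g x := by
    apply integral_congr_ae
    filter_upwards [hu.ae_differentiableAt (μ := volume)] with x hx
    rw [hx.lineDeriv_eq_fderiv]
    by_cases hxt : x ∈ tsupport u
    · have := (hχ1 x hxt).self_of_nhds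
      simp only [hg]
      rw [this, one_mul]
    · have : fderiv ℝ u x = 0 := by
        have := image_eq_zero_of_notMem_tsupport (f := fderiv ℝ u) (x := x)
          (fun h => hxt (tsupport_fderiv_subset ℝ h))
        exact this
      rw [this]; simp
  have h2 : ∫ x, lineDeriv ℝ g x (-v) * u x = - ∫ x, u x * fderiv ℝ Q x v := by
    rw [← integral_neg]
    congr 1
    funext x
    by_cases hxt : x ∈ tsupport u
    · have hev : g =ᶠ[𝓝 x] Q := by
        filter_upwards [hχ1 x hxt] with z hz
        simp only [hg]; rw [hz, one_mul]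
      have hgd : DifferentiableAt ℝ g x := hgs.differentiable (by simp) x
      rw [hgd.lineDeriv_eq_fderiv, hev.fderiv_eq, map_neg]
      ring
    · rw [image_eq_zero_of_notMem_tsupport hxt]; simp
  rw [h1, key, h2]

/-- The Piola identity in expanded form. -/
theorem sum_sign_eq_zero (i : Fin n) {F : E n → E n} (hF : ContDiff ℝ ∞ F) (x : E n) :
    ∑ σ : Equiv.Perm (Fin n), ((Equiv.Perm.sign σ : ℤ) : ℝ) *
      (fderiv ℝ (fun z => ∏ j ∈ Finset.univ.erase i,
        (fderiv ℝ F z (EuclideanSpace.single (σ j) 1)) j) x (EuclideanSpace.single (σ i) 1)) = 0 := by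
  set B := fderiv ℝ (fderiv ℝ F) x with hB
  have hF1 : ContDiff ℝ ∞ (fderiv ℝ F) := hF.fderiv_right (by simp)
  have hd : HasFDerivAt (fderiv ℝ F) B x := (hF1.differentiable (by simp) x).hasFDerivAt
  have hsym : ∀ v w : E n, B v w = B w v := by
    intro v w
    have := (hF.contDiffAt (x := x)).isSymmSndFDerivAt
      (by simp only [minSmoothness_of_isRCLikeNormedField]; exact WithTop.coe_le_coe.2 (by exact le_top))
    exact this v w
  have hterm : ∀ (j : Fin n) (v : E n), HasFDerivAt (fun z => (fderiv ℝ F z v) j)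
      (((EuclideanSpace.proj j : E n →L[ℝ] ℝ).comp (B.flip v))) x := by
    intro j v
    have h1 : HasFDerivAt (fun z => fderiv ℝ F z v) (B.flip v) x := by
      have := hd.clm_apply (hasFDerivAt_const v x)
      simpa using this
    exact (EuclideanSpace.proj j : E n →L[ℝ] ℝ).hasFDerivAt.comp x h1
  have hprod : ∀ σ : Equiv.Perm (Fin n), fderiv ℝ (fun z => ∏ j ∈ Finset.univ.erase i,
        (fderiv ℝ F z (EuclideanSpace.single (σ j) 1)) j) x (EuclideanSpace.single (σ i) 1)
      = ∑ j ∈ Finset.univ.erase i, (∏ l ∈ (Finset.univ.erase i).erase j,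
          (fderiv ℝ F x (EuclideanSpace.single (σ l) 1)) l) *
          (B (EuclideanSpace.single (σ i) 1) (EuclideanSpace.single (σ j) 1)) j := by
    intro σ
    have := HasFDerivAt.finsetProd (u := Finset.univ.erase i)
      (g := fun j z => (fderiv ℝ F z (EuclideanSpace.single (σ j) 1)) j)
      (fun j _ => hterm j (EuclideanSpace.single (σ j) 1))
    rw [this.fderiv]
    simp
  simp only [hprod, Finset.mul_sum]
  rw [Finset.sum_comm]
  apply Finset.sum_eq_zero
  intro j hj
  have hji : j ≠ i := by simpa using hj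
  set T : Equiv.Perm (Fin n) → ℝ := fun σ => ((Equiv.Perm.sign σ : ℤ) : ℝ) *
    ((∏ l ∈ (Finset.univ.erase i).erase j,
          (fderiv ℝ F x (EuclideanSpace.single (σ l) 1)) l) *
          (B (EuclideanSpace.single (σ i) 1) (EuclideanSpace.single (σ j) 1)) j) with hT
  have hneg : ∀ σ, T (σ * Equiv.swap i j) = - T σ := by
    intro σ
    simp only [hT]
    have e1 : ((Equiv.Perm.sign (σ * Equiv.swap i j) : ℤ) : ℝ)
        = - ((Equiv.Perm.sign σ : ℤ) : ℝ) := by
      rw [Equiv.Perm.sign_mul, Equiv.Perm.sign_swap (Ne.symm hji)]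
      simp
    have e2 : (∏ l ∈ (Finset.univ.erase i).erase j,
          (fderiv ℝ F x (EuclideanSpace.single ((σ * Equiv.swap i j) l) 1)) l)
        = ∏ l ∈ (Finset.univ.erase i).erase j,
          (fderiv ℝ F x (EuclideanSpace.single (σ l) 1)) l := by
      apply Finset.prod_congr rfl
      intro l hl
      have hl' : l ≠ j ∧ l ≠ i := by simpa using hl
      rw [Equiv.Perm.mul_apply, Equiv.swap_apply_of_ne_of_ne hl'.2 hl'.1]
    rw [e1, e2]
    simp only [Equiv.Perm.mul_apply, Equiv.swap_apply_left, Equiv.swap_apply_right]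
    rw [hsym (EuclideanSpace.single (σ j) 1)]
    ring
  have hsum : ∑ σ, T σ = ∑ σ, T (σ * Equiv.swap i j) :=
    (Equiv.sum_comp (Equiv.mulRight (Equiv.swap i j)) T).symm
  have : ∑ σ, T σ = - ∑ σ, T σ := by
    conv_lhs => rw [hsum]
    rw [← Finset.sum_neg_distrib]
    exact Finset.sum_congr rfl (fun σ _ => hneg σ)
  linarith

end NullAux

/-- Null Lagrangian identity: Lipschitz compactly supported first factor, smooth map. -/
theorem null_smooth (i : Fin n) {u : E n → ℝ} {C : ℝ≥0} (hu : LipschitzWith C u)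
    (hc : HasCompactSupport u) {F : E n → E n} (hF : ContDiff ℝ ∞ F) :
    ∫ x, (rowRepl i (fderiv ℝ u x) (fderiv ℝ F x)).det = 0 := by
  set Q : Equiv.Perm (Fin n) → E n → ℝ := fun σ z => ∏ j ∈ Finset.univ.erase i,
        (fderiv ℝ F z (EuclideanSpace.single (σ j) 1)) j with hQdef
  have hF1 : ContDiff ℝ ∞ (fderiv ℝ F) := hF.fderiv_right (by simp)
  have hQ : ∀ σ, ContDiff ℝ ∞ (Q σ) := by
    intro σ
    apply contDiff_prod
    intro j _
    exact (EuclideanSpace.proj j : E n →L[ℝ] ℝ).contDiff.comp (hF1.clm_apply contDiff_const)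
  have hbound : ∀ x v, ‖fderiv ℝ u x v‖ ≤ C * ‖v‖ := by
    intro x v
    exact ((fderiv ℝ u x).le_opNorm v).trans
      (mul_le_mul_of_nonneg_right (norm_fderiv_le_of_lipschitz ℝ hu) (norm_nonneg _))
  have hint1 : ∀ σ : Equiv.Perm (Fin n), ∀ v : E n,
      Integrable (fun x => fderiv ℝ u x v * Q σ x) := by
    intro σ v
    obtain ⟨χ, hχ, hχc, -, hχ1, -⟩ := NullAux.exists_bump hc isOpen_univ (subset_univ _)
    have hI : Integrable (fun x => χ x * Q σ x) :=
      (hχ.continuous.mul (hQ σ).continuous).integrable_of_hasCompactSupport hχc.mul_right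
    have : Integrable (fun x => fderiv ℝ u x v * (χ x * Q σ x)) := by
      refine hI.bdd_mul (c := C * ‖v‖) ?_ (Filter.Eventually.of_forall fun x => hbound x v)
      exact ((measurable_fderiv_apply_const ℝ u v).aestronglyMeasurable)
    refine this.congr (Filter.Eventually.of_forall fun x => ?_)
    by_cases hxt : x ∈ tsupport u
    · have := (hχ1 x hxt).self_of_nhds
      simp only []
      rw [this, one_mul]
    · have : fderiv ℝ u x = 0 := by
        have := image_eq_zero_of_notMem_tsupport (f := fderiv ℝ u) (x := x)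
          (fun h => hxt (tsupport_fderiv_subset ℝ h))
        exact this
      simp [this]
  have hint2 : ∀ σ : Equiv.Perm (Fin n), ∀ v : E n,
      Integrable (fun x => u x * fderiv ℝ (Q σ) x v) := by
    intro σ v
    have h1 : ContDiff ℝ ∞ (fderiv ℝ (Q σ)) := (hQ σ).fderiv_right (by simp)
    exact (hu.continuous.mul
      (h1.continuous.clm_apply continuous_const)).integrable_of_hasCompactSupport hc.mul_right
  calc ∫ x, (rowRepl i (fderiv ℝ u x) (fderiv ℝ F x)).det
      = ∫ x, ∑ σ : Equiv.Perm (Fin n), ((Equiv.Perm.sign σ : ℤ) : ℝ) *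
          (fderiv ℝ u x (EuclideanSpace.single (σ i) 1) * Q σ x) := by
        congr 1
        funext x
        exact det_rowRepl_eq_sum i _ _
    _ = ∑ σ : Equiv.Perm (Fin n), ((Equiv.Perm.sign σ : ℤ) : ℝ) *
          ∫ x, (fderiv ℝ u x (EuclideanSpace.single (σ i) 1) * Q σ x) := by
        rw [integral_finsetSum _ (fun σ _ => (hint1 σ _).const_mul _)]
        simp only [integral_const_mul]
    _ = ∑ σ : Equiv.Perm (Fin n), - (((Equiv.Perm.sign σ : ℤ) : ℝ) *
          ∫ x, (u x * fderiv ℝ (Q σ) x (EuclideanSpace.single (σ i) 1))) := by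
        apply Finset.sum_congr rfl
        intro σ _
        rw [NullAux.integral_fderiv_mul hu hc (hQ σ)]
        ring
    _ = - ∫ x, ∑ σ : Equiv.Perm (Fin n), ((Equiv.Perm.sign σ : ℤ) : ℝ) *
          (u x * fderiv ℝ (Q σ) x (EuclideanSpace.single (σ i) 1)) := by
        rw [integral_finsetSum _ (fun σ _ => (hint2 σ _).const_mul _)]
        simp only [integral_const_mul, Finset.sum_neg_distrib]
    _ = 0 := by
        have : ∀ x, ∑ σ : Equiv.Perm (Fin n), ((Equiv.Perm.sign σ : ℤ) : ℝ) *
          (u x * fderiv ℝ (Q σ) x (EuclideanSpace.single (σ i) 1)) = 0 := by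
          intro x
          have := NullAux.sum_sign_eq_zero i hF x
          calc _ = u x * ∑ σ : Equiv.Perm (Fin n), ((Equiv.Perm.sign σ : ℤ) : ℝ) *
                (fderiv ℝ (Q σ) x (EuclideanSpace.single (σ i) 1)) := by
                rw [Finset.mul_sum]
                apply Finset.sum_congr rfl
                intro σ _
                ring
            _ = 0 := by rw [this, mul_zero]
        simp [this]

end Pool.Agent.MP_dd09c0_an
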