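import Pool.Agent.MP_dd09c0_an.MaxFn

open MeasureTheory Metric Set Filter Topology
open scoped ENNReal NNReal ContDiff RealInnerProductSpace

namespace Pool.Agent.MP_dd09c0_an

variable {n : ℕ}

namespace TruncAux

theorem vol_ball_pos (n : ℕ) {a : E n} {r : ℝ} (hr : 0 < r) : volume (ball a r) ≠ 0 :=
  (measure_ball_pos volume a hr).ne'

theorem vol_ball_lt (n : ℕ) (a : E n) (r : ℝ) : volume (ball a r) ≠ ⊤ :=
  measure_ball_lt_top.ne

/-- the bound from the maximal function for one ball -/
theorem lintegral_le_of_maxFn {G : E n → ℝ≥0∞} {a : E n} {T : ℝ≥0∞} (h : maxFn G a ≤ T)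
    {r : ℝ} (hr : 0 < r) : ∫⁻ z in ball a r, G z ≤ T * volume (ball a r) := by
  have h1 : (∫⁻ z in ball a r, G z) / volume (ball a r) ≤ T := by
    refine le_trans ?_ h
    exact le_iSup₂_of_le (f := fun (r : ℝ) (_ : 0 < r) =>
      (∫⁻ z in ball a r, G z) / volume (ball a r)) r hr le_rfl
  exact (ENNReal.div_le_iff_le_mul (Or.inl (vol_ball_pos n hr)) (Or.inl (vol_ball_lt n a r))).1 h1

theorem real_of_ennreal {x c : ℝ} {V : ℝ≥0∞} (hV0 : V ≠ 0) (hVt : V ≠ ⊤) (hc : 0 ≤ c)
    (h : ENNReal.ofReal x * V ≤ ENNReal.ofReal c * V) : x ≤ c := by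
  have h1 : ENNReal.ofReal x ≤ ENNReal.ofReal c := by
    have := (ENNReal.mul_le_mul_iff_left hV0 hVt).1 h
    exact this
  exact (ENNReal.ofReal_le_ofReal_iff hc).1 h1

theorem shrink_step {w : E n → ℝ} {G : E n → ℝ≥0∞} (H : UG univ w G) {a : E n} {t : ℝ}
    (ht : 0 ≤ t) (ha : maxFn G a ≤ ENNReal.ofReal t) {r : ℝ} (hr : 0 < r) :
    |(⨍ x in ball a (r / 2), w x) - (⨍ x in ball a r, w x)| ≤ 2 ^ n * r * t := by
  have h1 := H.shrink a r hr (subset_univ _)
  have h2 := lintegral_le_of_maxFn ha hr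
  refine real_of_ennreal (V := volume (ball a r)) (vol_ball_pos n hr) (vol_ball_lt n a r)
    (by positivity) ?_
  calc _ ≤ 2 ^ n * ENNReal.ofReal r * ∫⁻ x in ball a r, G x := h1
    _ ≤ 2 ^ n * ENNReal.ofReal r * (ENNReal.ofReal t * volume (ball a r)) := by gcongr
    _ = ENNReal.ofReal (2 ^ n * r * t) * volume (ball a r) := by
      rw [ENNReal.ofReal_mul (by positivity), ENNReal.ofReal_mul (by positivity),
        ENNReal.ofReal_pow (by norm_num)]
      simp [mul_assoc]

theorem shrink_iter {w : E n → ℝ} {G : E n → ℝ≥0∞} (H : UG univ w G) {a : E n} {t : ℝ}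
    (ht : 0 ≤ t) (ha : maxFn G a ≤ ENNReal.ofReal t) {r : ℝ} (hr : 0 < r) (k : ℕ) :
    |(⨍ x in ball a (r / 2 ^ k), w x) - (⨍ x in ball a r, w x)|
      ≤ 2 ^ (n + 1) * r * t * (1 - 1 / 2 ^ k) := by
  induction k with
  | zero => simp
  | succ k ih =>
    have h1 := shrink_step H ht ha (r := r / 2 ^ k) (by positivity)
    have h2 : r / 2 ^ k / 2 = r / 2 ^ (k + 1) := by rw [pow_succ]; field_simp
    rw [h2] at h1
    have h3 : |(⨍ x in ball a (r / 2 ^ (k + 1)), w x) - (⨍ x in ball a r, w x)|
        ≤ |(⨍ x in ball a (r / 2 ^ (k + 1)), w x) - (⨍ x in ball a (r / 2 ^ k), w x)|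
          + |(⨍ x in ball a (r / 2 ^ k), w x) - (⨍ x in ball a r, w x)| := by
      have := abs_add_le ((⨍ x in ball a (r / 2 ^ (k + 1)), w x) - (⨍ x in ball a (r / 2 ^ k), w x))
        ((⨍ x in ball a (r / 2 ^ k), w x) - (⨍ x in ball a r, w x))
      rwa [sub_add_sub_cancel] at this
    refine h3.trans ((add_le_add h1 ih).trans (le_of_eq ?_))
    rw [pow_succ, pow_succ]
    field_simp
    ring

theorem average_ball_tendsto {w : E n → ℝ} (hw : Continuous w) (a : E n) :
    Tendsto (fun r : ℝ => ⨍ x in ball a r, w x) (𝓝[>] 0) (𝓝 (w a)) := by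
  rw [Metric.tendsto_nhdsWithin_nhds]
  intro ε hε
  obtain ⟨δ, hδ, h⟩ := Metric.continuous_iff.1 hw a (ε / 2) (by positivity)
  refine ⟨δ, hδ, fun r hr hr' => ?_⟩
  have hr0 : 0 < r := hr
  have hr1 : r < δ := by
    rw [Real.dist_eq, sub_zero, abs_of_pos hr0] at hr'; exact hr'
  rw [Real.dist_eq]
  have hint : IntegrableOn w (ball a r) :=
    (hw.continuousOn.integrableOn_compact (isCompact_closedBall a r)).mono_set ball_subset_closedBall
  have h1 : (⨍ x in ball a r, w x) - w a = ⨍ x in ball a r, (w x - w a) := by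
    rw [setAverage_eq, setAverage_eq, integral_sub hint (integrableOn_const (vol_ball_lt n a r)), smul_sub]
    congr 1
    rw [setIntegral_const, smul_smul, inv_mul_cancel₀, one_smul]
    simp only [Measure.real, ne_eq, ENNReal.toReal_eq_zero_iff, not_or]
    exact ⟨vol_ball_pos n hr0, vol_ball_lt n a r⟩
  rw [h1, setAverage_eq, smul_eq_mul, abs_mul]
  have hv : 0 < volume.real (ball a r) :=
    ENNReal.toReal_pos (vol_ball_pos n hr0) (vol_ball_lt n a r)
  have h2 : |∫ x in ball a r, (w x - w a)| ≤ ε / 2 * volume.real (ball a r) := by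
    have := norm_setIntegral_le_of_norm_le_const (μ := volume) (s := ball a r)
      (f := fun x => w x - w a) (C := ε / 2) (measure_ball_lt_top) (fun x hx => by
        have := h x (lt_trans (mem_ball.1 hx) hr1)
        rw [Real.dist_eq] at this
        rw [Real.norm_eq_abs]; exact this.le)
    rwa [Real.norm_eq_abs] at this
  rw [abs_of_pos (inv_pos.2 hv)]
  calc (volume.real (ball a r))⁻¹ * |∫ x in ball a r, (w x - w a)|
      ≤ (volume.real (ball a r))⁻¹ * (ε / 2 * volume.real (ball a r)) := by gcongr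
    _ = ε / 2 := by field_simp
    _ < ε := by linarith

theorem point_bound {w : E n → ℝ} {G : E n → ℝ≥0∞} (H : UG univ w G) {a : E n} {t : ℝ}
    (ht : 0 ≤ t) (ha : maxFn G a ≤ ENNReal.ofReal t) {r : ℝ} (hr : 0 < r) :
    |w a - (⨍ x in ball a r, w x)| ≤ 2 ^ (n + 1) * r * t := by
  have hc : Continuous w := continuousOn_univ.1 H.cont
  have h1 : Tendsto (fun k : ℕ => r / 2 ^ k) atTop (𝓝[>] 0) := by
    rw [tendsto_nhdsWithin_iff]
    refine ⟨?_, Eventually.of_forall fun k => by simp only [mem_Ioi]; positivity⟩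
    have := (tendsto_pow_atTop_nhds_zero_of_lt_one (r := (1 / 2 : ℝ)) (by norm_num)
      (by norm_num)).const_mul r
    simp only [mul_zero] at this
    refine this.congr fun k => ?_
    rw [one_div, inv_pow]; rfl
  have h2 := (average_ball_tendsto hc a).comp h1
  have h3 : Tendsto (fun k : ℕ => |(⨍ x in ball a (r / 2 ^ k), w x) - (⨍ x in ball a r, w x)|)
      atTop (𝓝 |w a - (⨍ x in ball a r, w x)|) := (h2.sub_const _).abs
  refine le_of_tendsto h3 (Eventually.of_forall fun k => ?_)
  refine (shrink_iter H ht ha hr k).trans ?_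
  have h4 : (0 : ℝ) ≤ 2 ^ (n + 1) * r * t := by positivity
  have h5 : (1 - 1 / 2 ^ k : ℝ) ≤ 1 := by
    have : (0 : ℝ) < 1 / 2 ^ k := by positivity
    linarith
  nlinarith

end TruncAux

open TruncAux

/-- Lipschitz estimate on level sets of the maximal function. -/
theorem lip_of_maxFn (n : ℕ) (hn : 1 ≤ n) : ∃ C : ℝ, 1 ≤ C ∧ ∀ (w : E n → ℝ) (G : E n → ℝ≥0∞),
    UG univ w G → ∀ (a b : E n) (t : ℝ), 0 ≤ t → maxFn G a ≤ ENNReal.ofReal t →
      maxFn G b ≤ ENNReal.ofReal t → |w a - w b| ≤ C * t * dist a b := by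
  refine ⟨5 * 2 ^ n, ?_, ?_⟩
  · have : (1 : ℝ) ≤ 2 ^ n := one_le_pow₀ (by norm_num)
    linarith
  intro w G H a b t ht ha hb
  rcases (dist_nonneg (x := a) (y := b)).eq_or_lt with h0 | hd
  · have hab : a = b := dist_eq_zero.1 h0.symm
    simp [hab]
  set d := dist a b with hdd
  have h1 := point_bound H ht ha hd
  have h2 := point_bound H ht hb hd
  have h3 : |(⨍ x in ball a d, w x) - (⨍ x in ball b d, w x)| ≤ 2 ^ n * d * t := by
    have h4 := H.seg a b d hd (fun t _ => subset_univ _) (ball a (2 * d)) (by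
      intro s hs z hz
      rw [mem_ball] at hz ⊢
      have h5 : dist (AffineMap.lineMap a b s : E n) a = s * d := by
        rw [dist_lineMap_left, Real.norm_eq_abs, abs_of_nonneg hs.1]
      have h6 := dist_triangle z (AffineMap.lineMap a b s : E n) a
      have h7 : s * d ≤ d := by nlinarith [hs.2]
      linarith)
    have h8 := lintegral_le_of_maxFn ha (r := 2 * d) (by positivity)
    have h9 : volume (ball a (2 * d)) = 2 ^ n * volume (ball a d) := by
      rw [Measure.addHaar_ball_mul_of_pos _ _ (by norm_num : (0 : ℝ) < 2)]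
      simp [ENNReal.ofReal_pow, Measure.addHaar_ball_center]
    refine real_of_ennreal (V := volume (ball a d)) (vol_ball_pos n hd) (vol_ball_lt n a d)
      (by positivity) ?_
    calc _ ≤ ENNReal.ofReal d * ∫⁻ x in ball a (2 * d), G x := h4
      _ ≤ ENNReal.ofReal d * (ENNReal.ofReal t * volume (ball a (2 * d))) := by gcongr
      _ = ENNReal.ofReal (2 ^ n * d * t) * volume (ball a d) := by
        rw [h9, ENNReal.ofReal_mul (by positivity), ENNReal.ofReal_mul (by positivity),
          ENNReal.ofReal_pow (by norm_num)]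
        simp only [ENNReal.ofReal_ofNat]
        ring
  have h10 : w a - w b = (w a - ⨍ x in ball a d, w x)
      + ((⨍ x in ball a d, w x) - (⨍ x in ball b d, w x)) - (w b - ⨍ x in ball b d, w x) := by ring
  rw [h10]
  have h11 := abs_sub ((w a - ⨍ x in ball a d, w x)
      + ((⨍ x in ball a d, w x) - (⨍ x in ball b d, w x))) (w b - ⨍ x in ball b d, w x)
  have h12 := abs_add_le (w a - ⨍ x in ball a d, w x)
      ((⨍ x in ball a d, w x) - (⨍ x in ball b d, w x))
  have h13 : (2 : ℝ) ^ (n + 1) * d * t + 2 ^ n * d * t + 2 ^ (n + 1) * d * t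
      = 5 * 2 ^ n * t * d := by rw [pow_succ]; ring
  linarith

theorem GM.log_int (hn : 2 ≤ n) {D : Set (E n)} {f : E n → E n} {Df : E n → E n →L[ℝ] E n}
    {K : E n → ℝ} (H : GM n D f Df K) :
    ∫⁻ x in D, ENNReal.ofReal (‖Df x‖ ^ n / Real.log (Real.exp 1 + ‖Df x‖)) < ⊤ := by
  obtain ⟨m, hm, hK⟩ := H.intK
  have hn0 : (0 : ℝ) < n := by positivity
  have key : ∀ x, ‖Df x‖ ^ n / Real.log (Real.exp 1 + ‖Df x‖)
      ≤ (n / m) * (Df x).det + Real.exp (m * K x) := by
    intro x
    set g := ‖Df x‖ with hg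
    have hg0 : 0 ≤ g := norm_nonneg _
    have hlog : 1 ≤ Real.log (Real.exp 1 + g) := by
      rw [Real.le_log_iff_exp_le (by positivity)]
      linarith
    have hK1 := H.one_le x
    have hd := H.dist_le x
    have hJ : 0 ≤ (Df x).det := by
      have : 0 ≤ K x * (Df x).det := le_trans (by positivity) hd
      by_contra hneg
      push Not at hneg
      nlinarith
    rcases le_total (K x) ((n / m) * Real.log (Real.exp 1 + g)) with hc | hc
    · have : g ^ n / Real.log (Real.exp 1 + g) ≤ (n / m) * (Df x).det := by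
        rw [div_le_iff₀ (by linarith)]
        calc g ^ n ≤ K x * (Df x).det := hd
          _ ≤ ((n / m) * Real.log (Real.exp 1 + g)) * (Df x).det := by gcongr
          _ = _ := by ring
      have := Real.exp_pos (m * K x)
      linarith
    · have h1 : g ^ n ≤ Real.exp (m * K x) := by
        have h2 : n * Real.log (Real.exp 1 + g) ≤ m * K x := by
          have := mul_le_mul_of_nonneg_left hc hm.le
          calc n * Real.log (Real.exp 1 + g) = m * (n / m * Real.log (Real.exp 1 + g)) := by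
                field_simp
            _ ≤ _ := this
        have h3 : g ^ n ≤ (Real.exp 1 + g) ^ n := by
          gcongr
          have := Real.exp_pos 1
          linarith
        have h4 : (Real.exp 1 + g) ^ n = Real.exp (n * Real.log (Real.exp 1 + g)) := by
          rw [mul_comm, Real.exp_mul, Real.exp_log (by positivity), Real.rpow_natCast]
        rw [h4] at h3
        exact h3.trans (Real.exp_le_exp.2 h2)
      have h5 : g ^ n / Real.log (Real.exp 1 + g) ≤ g ^ n := div_le_self (by positivity) hlog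
      have h6 : 0 ≤ n / m * (Df x).det := by positivity
      linarith
  have hI : IntegrableOn (fun x => (n / m) * (Df x).det + Real.exp (m * K x)) D :=
    (H.intJ.const_mul _).add hK
  refine lt_of_le_of_lt (lintegral_mono (fun x => ENNReal.ofReal_le_ofReal (key x))) ?_
  exact hI.lintegral_lt_top

end Pool.Agent.MP_dd09c0_an
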