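import Pool.Agent.MP_dd09c0_an.Moll

/-!
# Calculus of weak derivatives
-/

open MeasureTheory Metric Set Filter Topology
open scoped ENNReal NNReal ContDiff RealInnerProductSpace

namespace Pool.Agent.MP_dd09c0_an

variable {n : ℕ}

namespace WDAux

variable {F : Type*} [NormedAddCommGroup F] [NormedSpace ℝ F]

/-- Vector valued weak derivative. -/
structure WDV (D : Set (E n)) (w : E n → F) (l : E n → (E n →L[ℝ] F)) : Prop where
  cont : ContinuousOn w D
  int : LocallyIntegrableOn l D
  weak : ∀ φ : E n → ℝ, ContDiff ℝ ∞ φ → HasCompactSupport φ → tsupport φ ⊆ D →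
    ∀ v : E n, ∫ x, fderiv ℝ φ x v • w x = - ∫ x, φ x • l x v

theorem WDV.of_wd {D : Set (E n)} {w : E n → ℝ} {l : E n → (E n →L[ℝ] ℝ)} (h : WD D w l) :
    WDV D w l := by
  refine ⟨h.cont, h.int, fun φ hφ hc hs v => ?_⟩
  have := h.weak φ hφ hc hs v
  simp only [smul_eq_mul]
  rw [← this]
  congr 1
  ext x
  ring

theorem WDV.exists_seq [FiniteDimensional ℝ F] {D : Set (E n)} {w : E n → F}
    {l : E n → (E n →L[ℝ] F)} (hD : IsOpen D) (h : WDV D w l) {S : Set (E n)}
    (hS : IsCompact S) (hSD : S ⊆ D) :
    ∃ W : ℕ → E n → F, (∀ m, ContDiff ℝ ∞ (W m)) ∧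
      (∀ m : ℕ, ∀ x ∈ S, ‖W m x - w x‖ < 1 / ((m : ℝ) + 1)) ∧
      (∀ m : ℕ, ∫⁻ x in S, ‖fderiv ℝ (W m) x - l x‖ₑ < ENNReal.ofReal (1 / ((m : ℝ) + 1))) := by
  have key : ∀ m : ℕ, ∃ W : E n → F, ContDiff ℝ ∞ W ∧
      (∀ x ∈ S, ‖W x - w x‖ < 1 / ((m : ℝ) + 1)) ∧
      ∫⁻ x in S, ‖fderiv ℝ W x - l x‖ₑ < ENNReal.ofReal (1 / ((m : ℝ) + 1)) := by
    intro m
    have h1 := MollAux.exists_smooth_approx hD h.cont h.int h.weak (p := 1) le_rfl
      (fun T hT hTc => by
        simp only [ENNReal.rpow_one]
        exact (h.int.integrableOn_compact_subset hT hTc).hasFiniteIntegral) hS hSD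
      (ε := 1 / ((m : ℝ) + 1)) (by positivity)
    simpa only [ENNReal.rpow_one] using h1
  choose W h1 h2 h3 using key
  exact ⟨W, h1, h2, h3⟩

theorem integrableOn_ind {G : Type*} [NormedAddCommGroup G] {k T : Set (E n)} {l : E n → G}
    (hl : IntegrableOn l k) (hT : MeasurableSet T) : IntegrableOn (T.indicator l) k :=
  hl.indicator hT

theorem integrable_of_zero {G : Type*} [NormedAddCommGroup G] {S : Set (E n)} {g : E n → G}
    (h : IntegrableOn g S) (h0 : ∀ x, x ∉ S → g x = 0) : Integrable g := by
  refine (integrableOn_iff_integrable_of_support_subset ?_).1 h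
  intro x hx
  by_contra hxS
  exact hx (h0 x hxS)

theorem aesm_apply {X : Type*} [MeasurableSpace X] {μ : Measure X} {G H : Type*}
    [NormedAddCommGroup G] [NormedSpace ℝ G] [NormedAddCommGroup H] [NormedSpace ℝ H]
    {A : X → (G →L[ℝ] H)} {g : X → G} (hA : AEStronglyMeasurable A μ)
    (hg : AEStronglyMeasurable g μ) : AEStronglyMeasurable (fun x => A x (g x)) μ :=
  (ContinuousLinearMap.id ℝ (G →L[ℝ] H)).aestronglyMeasurable_comp₂ hA hg

theorem aesm_comp {X : Type*} [MeasurableSpace X] {μ : Measure X} {G H J : Type*}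
    [NormedAddCommGroup G] [NormedSpace ℝ G] [NormedAddCommGroup H] [NormedSpace ℝ H]
    [NormedAddCommGroup J] [NormedSpace ℝ J]
    {A : X → (H →L[ℝ] J)} {B : X → (G →L[ℝ] H)} (hA : AEStronglyMeasurable A μ)
    (hB : AEStronglyMeasurable B μ) : AEStronglyMeasurable (fun x => (A x).comp (B x)) μ :=
  (ContinuousLinearMap.compL ℝ G H J).aestronglyMeasurable_comp₂ hA hB

theorem aesm_prod_id {X : Type*} [MeasurableSpace X] {μ : Measure X}
    {l : X → (E n →L[ℝ] F)} (hl : AEStronglyMeasurable l μ) :
    AEStronglyMeasurable (fun x => (ContinuousLinearMap.id ℝ (E n)).prod (l x)) μ := by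
  have h : (fun x => (ContinuousLinearMap.id ℝ (E n)).prod (l x)) =
      fun x => (ContinuousLinearMap.inl ℝ (E n) F) + (ContinuousLinearMap.inr ℝ (E n) F).comp (l x) := by
    funext x
    ext v <;> simp
  rw [h]
  exact aestronglyMeasurable_const.add (aesm_comp aestronglyMeasurable_const hl)

theorem norm_prod_id_le (L : E n →L[ℝ] F) :
    ‖(ContinuousLinearMap.id ℝ (E n)).prod L‖ ≤ 1 + ‖L‖ := by
  refine ContinuousLinearMap.opNorm_le_bound _ (by positivity) fun v => ?_
  rw [ContinuousLinearMap.prod_apply, Prod.norm_def]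
  simp only [ContinuousLinearMap.coe_id', id_eq]
  refine max_le ?_ ?_
  · nlinarith [norm_nonneg L, norm_nonneg v, mul_nonneg (norm_nonneg L) (norm_nonneg v)]
  · have := L.le_opNorm v
    nlinarith [norm_nonneg L, norm_nonneg v, mul_nonneg (norm_nonneg L) (norm_nonneg v)]

/-- The chain rule. -/
theorem WDV.comp [FiniteDimensional ℝ F] {D : Set (E n)} {w : E n → F}
    {l : E n → (E n →L[ℝ] F)} (hD : IsOpen D) (h : WDV D w l) {Φ : E n × F → ℝ}
    (hΦ : ContDiff ℝ ∞ Φ) :
    WD D (fun x => Φ (x, w x)) (fun x => (fderiv ℝ Φ (x, w x)).comp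
      ((ContinuousLinearMap.id ℝ (E n)).prod (l x))) := by
  have : ProperSpace F := FiniteDimensional.proper ℝ F
  have hdΦ : Continuous (fderiv ℝ Φ) := hΦ.continuous_fderiv (by simp)
  have hpc : ContinuousOn (fun x => (x, w x)) D := continuousOn_id.prodMk h.cont
  refine ⟨hΦ.continuous.comp_continuousOn hpc, ?_, ?_⟩
  · refine (locallyIntegrableOn_iff hD.isLocallyClosed).2 fun k hk hkc => ?_
    have hlk : IntegrableOn l k := h.int.integrableOn_compact_subset hk hkc
    have hAk : ContinuousOn (fun x => fderiv ℝ Φ (x, w x)) k :=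
      hdΦ.comp_continuousOn (hpc.mono hk)
    obtain ⟨B, hB⟩ := hkc.exists_bound_of_continuousOn hAk
    have hm : AEStronglyMeasurable (fun x => (fderiv ℝ Φ (x, w x)).comp
        ((ContinuousLinearMap.id ℝ (E n)).prod (l x))) (volume.restrict k) :=
      aesm_comp (hAk.aestronglyMeasurable hkc.measurableSet)
        (aesm_prod_id hlk.aestronglyMeasurable)
    have hbi : IntegrableOn (fun x => B * (1 + ‖l x‖)) k := by
      refine Integrable.const_mul ?_ _
      exact (integrableOn_const (hkc.measure_lt_top.ne)).add hlk.norm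
    refine Integrable.mono' hbi hm ?_
    refine (ae_restrict_iff' hkc.measurableSet).2 (Eventually.of_forall fun x hx => ?_)
    refine (ContinuousLinearMap.opNorm_comp_le _ _).trans ?_
    have hB0 : 0 ≤ B := (norm_nonneg _).trans (hB x hx)
    exact mul_le_mul (hB x hx) (norm_prod_id_le _) (norm_nonneg _) hB0
  · intro φ hφ hφc hφD v
    set S := tsupport φ with hSdef
    have hS : IsCompact S := hφc
    obtain ⟨W, hWs, hW, hWd⟩ := h.exists_seq hD hS hφD
    have hlS : IntegrableOn l S := h.int.integrableOn_compact_subset hφD hS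
    -- the compact set containing all the graphs
    set Q : Set (E n × F) := S ×ˢ cthickening 1 (w '' S) with hQ
    have hQc : IsCompact Q := hS.prod ((hS.image_of_continuousOn (h.cont.mono hφD)).cthickening)
    have hWQ : ∀ m, ∀ x ∈ S, (x, W m x) ∈ Q := by
      intro m x hx
      refine ⟨hx, mem_cthickening_of_dist_le _ (w x) 1 _ (mem_image_of_mem _ hx) ?_⟩
      rw [dist_eq_norm]
      refine (hW m x hx).le.trans ?_
      rw [div_le_one (by positivity)]
      have : (0 : ℝ) ≤ m := by positivity
      linarith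
    obtain ⟨B, hB⟩ := hQc.exists_bound_of_continuousOn hΦ.continuous.continuousOn
    obtain ⟨B', hB'⟩ := hQc.exists_bound_of_continuousOn hdΦ.continuousOn
    obtain ⟨Cφ, hCφ⟩ := hφc.exists_bound_of_continuous hφ.continuous
    have hCφ0 : 0 ≤ Cφ := (norm_nonneg _).trans (hCφ 0)
    have hφ0 : ∀ x, x ∉ S → φ x = 0 := fun x hx => image_eq_zero_of_notMem_tsupport hx
    have hdφ0 : ∀ x, x ∉ S → fderiv ℝ φ x = 0 := fun x hx =>
      image_eq_zero_of_notMem_tsupport (fun h' => hx (tsupport_fderiv_subset ℝ h'))
    have hdφ : Continuous (fderiv ℝ φ) := hφ.continuous_fderiv (by simp)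
    have hWlim : ∀ x ∈ S, Tendsto (fun m => W m x) atTop (𝓝 (w x)) := by
      intro x hx
      rw [tendsto_iff_norm_sub_tendsto_zero]
      exact squeeze_zero (fun m => norm_nonneg _) (fun m => (hW m x hx).le)
        tendsto_one_div_add_atTop_nhds_zero_nat
    have hpW : ∀ m, ContDiff ℝ ∞ (fun x => (x, W m x)) := fun m => contDiff_id.prodMk (hWs m)
    -- left-hand side
    have hL : Tendsto (fun m => ∫ x, Φ (x, W m x) * fderiv ℝ φ x v) atTop
        (𝓝 (∫ x, Φ (x, w x) * fderiv ℝ φ x v)) := by
      refine tendsto_integral_of_dominated_convergence (fun x => B * ‖fderiv ℝ φ x v‖) ?_ ?_ ?_ ?_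
      · intro m
        exact ((hΦ.continuous.comp (hpW m).continuous).mul
          (hdφ.clm_apply continuous_const)).aestronglyMeasurable
      · have h1 : Continuous (fun x => fderiv ℝ φ x v) := hdφ.clm_apply continuous_const
        have h2 : HasCompactSupport (fun x => fderiv ℝ φ x v) :=
          HasCompactSupport.intro hS (fun x hx => by rw [hdφ0 x hx]; rfl)
        exact ((h1.integrable_of_hasCompactSupport h2).norm).const_mul _
      · intro m
        refine Eventually.of_forall fun x => ?_
        by_cases hx : x ∈ S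
        · rw [norm_mul]
          exact mul_le_mul_of_nonneg_right (hB _ (hWQ m x hx)) (norm_nonneg _)
        · rw [hdφ0 x hx]; simp
      · refine Eventually.of_forall fun x => ?_
        by_cases hx : x ∈ S
        · refine Tendsto.mul_const _ ?_
          exact (hΦ.continuous.tendsto _).comp (tendsto_const_nhds.prodMk_nhds (hWlim x hx))
        · rw [hdφ0 x hx]; simp
    -- the main part of the right-hand side
    have hR1 : Tendsto (fun m => ∫ x in S, φ x * fderiv ℝ Φ (x, W m x) (v, l x v)) atTop
        (𝓝 (∫ x in S, φ x * fderiv ℝ Φ (x, w x) (v, l x v))) := by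
      refine tendsto_integral_of_dominated_convergence
        (fun x => Cφ * (B' * (‖v‖ + ‖l x‖ * ‖v‖))) ?_ ?_ ?_ ?_
      · intro m
        refine hφ.continuous.aestronglyMeasurable.mul (aesm_apply ?_ ?_)
        · exact (hdΦ.comp (hpW m).continuous).aestronglyMeasurable
        · exact aestronglyMeasurable_const.prodMk
            (hlS.aestronglyMeasurable.apply_continuousLinearMap v)
      · refine Integrable.const_mul (Integrable.const_mul ?_ _) _
        exact (integrableOn_const (hS.measure_lt_top.ne)).add (hlS.norm.mul_const _)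
      · intro m
        refine (ae_restrict_iff' hS.measurableSet).2 (Eventually.of_forall fun x hx => ?_)
        rw [norm_mul]
        refine mul_le_mul (hCφ x) ?_ (norm_nonneg _) hCφ0
        have hB'0 : 0 ≤ B' := (norm_nonneg _).trans (hB' _ (hWQ m x hx))
        refine (ContinuousLinearMap.le_opNorm _ _).trans ?_
        refine mul_le_mul (hB' _ (hWQ m x hx)) ?_ (norm_nonneg _) hB'0
        rw [Prod.norm_def]
        refine max_le ?_ ?_
        · simp only
          have : 0 ≤ ‖l x‖ * ‖v‖ := by positivity
          linarith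
        · simp only
          have := (l x).le_opNorm v
          linarith [norm_nonneg v]
      · refine (ae_restrict_iff' hS.measurableSet).2 (Eventually.of_forall fun x hx => ?_)
        refine Tendsto.const_mul _ ?_
        have h1 : Tendsto (fun m => fderiv ℝ Φ (x, W m x)) atTop (𝓝 (fderiv ℝ Φ (x, w x))) :=
          (hdΦ.tendsto _).comp (tendsto_const_nhds.prodMk_nhds (hWlim x hx))
        exact ((ContinuousLinearMap.apply ℝ ℝ (v, l x v)).continuous.tendsto _).comp h1
    -- the remainder
    have hR2 : Tendsto (fun m => ∫ x in S, φ x * fderiv ℝ Φ (x, W m x)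
        (0, (fderiv ℝ (W m) x - l x) v)) atTop (𝓝 0) := by
      set C : ℝ := Cφ * (max B' 0 * ‖v‖) with hC
      have hC0 : 0 ≤ C := by positivity
      have h1 : ∀ m : ℕ, ‖∫ x in S, φ x * fderiv ℝ Φ (x, W m x)
          (0, (fderiv ℝ (W m) x - l x) v)‖ ≤ C * (1 / ((m : ℝ) + 1)) := by
        intro m
        have h2 : ‖∫ x in S, φ x * fderiv ℝ Φ (x, W m x)
          (0, (fderiv ℝ (W m) x - l x) v)‖ₑ ≤ ENNReal.ofReal (C * (1 / ((m : ℝ) + 1))) := by
          refine (enorm_integral_le_lintegral_enorm _).trans ?_
          rw [ENNReal.ofReal_mul hC0]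
          calc ∫⁻ x in S, ‖φ x * fderiv ℝ Φ (x, W m x) (0, (fderiv ℝ (W m) x - l x) v)‖ₑ
              ≤ ∫⁻ x in S, ENNReal.ofReal C * ‖fderiv ℝ (W m) x - l x‖ₑ := by
                refine setLIntegral_mono' hS.measurableSet fun x hx => ?_
                rw [← ofReal_norm, ← ofReal_norm, ← ENNReal.ofReal_mul hC0]
                apply ENNReal.ofReal_le_ofReal
                rw [norm_mul]
                have hB'1 : ‖fderiv ℝ Φ (x, W m x)‖ ≤ max B' 0 :=
                  (hB' _ (hWQ m x hx)).trans (le_max_left _ _)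
                calc ‖φ x‖ * ‖fderiv ℝ Φ (x, W m x) (0, (fderiv ℝ (W m) x - l x) v)‖
                    ≤ Cφ * (max B' 0 * (‖fderiv ℝ (W m) x - l x‖ * ‖v‖)) := by
                      refine mul_le_mul (hCφ x) ?_ (norm_nonneg _) hCφ0
                      refine (ContinuousLinearMap.le_opNorm _ _).trans ?_
                      refine mul_le_mul hB'1 ?_ (norm_nonneg _) (le_max_right _ _)
                      rw [Prod.norm_def]
                      refine max_le ?_ ?_
                      · simp only [norm_zero]; positivity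
                      · exact ContinuousLinearMap.le_opNorm _ _
                  _ = C * ‖fderiv ℝ (W m) x - l x‖ := by rw [hC]; ring
            _ = ENNReal.ofReal C * ∫⁻ x in S, ‖fderiv ℝ (W m) x - l x‖ₑ :=
                lintegral_const_mul' _ _ ENNReal.ofReal_ne_top
            _ ≤ ENNReal.ofReal C * ENNReal.ofReal (1 / ((m : ℝ) + 1)) := by
                gcongr
                exact (hWd m).le
        rw [← ofReal_norm] at h2
        exact (ENNReal.ofReal_le_ofReal_iff (by positivity)).1 h2
      refine squeeze_zero_norm h1 ?_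
      have := tendsto_one_div_add_atTop_nhds_zero_nat (𝕜 := ℝ)
      simpa using this.const_mul C
    -- integration by parts for the smooth maps
    have hid : ∀ m, ∫ x, Φ (x, W m x) * fderiv ℝ φ x v =
        - ((∫ x in S, φ x * fderiv ℝ Φ (x, W m x) (v, l x v)) +
          ∫ x in S, φ x * fderiv ℝ Φ (x, W m x) (0, (fderiv ℝ (W m) x - l x) v)) := by
      intro m
      set u : E n → ℝ := fun x => Φ (x, W m x) with hu
      have hus : ContDiff ℝ ∞ u := hΦ.comp (hpW m)
      have hdu : Continuous (fderiv ℝ u) := hus.continuous_fderiv (by simp)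
      have hder : ∀ x, fderiv ℝ u x v = fderiv ℝ Φ (x, W m x) (v, fderiv ℝ (W m) x v) := by
        intro x
        have h1 : HasFDerivAt Φ (fderiv ℝ Φ (x, W m x)) (x, W m x) :=
          (hΦ.differentiable (by simp) _).hasFDerivAt
        have h2 : HasFDerivAt (W m) (fderiv ℝ (W m) x) x :=
          ((hWs m).differentiable (by simp) _).hasFDerivAt
        have h3 := h1.comp x ((hasFDerivAt_id x).prodMk h2)
        have h4 : fderiv ℝ u x = _ := h3.fderiv
        rw [h4]
        rfl
      have c1 : HasCompactSupport (fun x => u x * fderiv ℝ φ x v) :=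
        HasCompactSupport.intro hS (fun x hx => by rw [hdφ0 x hx]; simp)
      have c2 : HasCompactSupport (fun x => fderiv ℝ u x v * φ x) :=
        HasCompactSupport.intro hS (fun x hx => by rw [hφ0 x hx]; simp)
      have c3 : HasCompactSupport (fun x => u x * φ x) :=
        HasCompactSupport.intro hS (fun x hx => by rw [hφ0 x hx]; simp)
      have i1 : Integrable (fun x => u x * fderiv ℝ φ x v) :=
        (hus.continuous.mul (hdφ.clm_apply continuous_const)).integrable_of_hasCompactSupport c1
      have i2 : Integrable (fun x => fderiv ℝ u x v * φ x) :=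
        ((hdu.clm_apply continuous_const).mul hφ.continuous).integrable_of_hasCompactSupport c2
      have i3 : Integrable (fun x => u x * φ x) :=
        (hus.continuous.mul hφ.continuous).integrable_of_hasCompactSupport c3
      have e1 := integral_mul_fderiv_eq_neg_fderiv_mul_of_integrable i2 i1 i3
        (fun x _ => (hus.differentiable (by simp) x))
        (fun x _ => (hφ.differentiable (by simp) x))
      rw [e1]
      congr 1
      have e2 : ∫ x, fderiv ℝ u x v * φ x = ∫ x in S, fderiv ℝ u x v * φ x := by
        rw [setIntegral_eq_integral_of_forall_compl_eq_zero]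
        intro x hx
        rw [hφ0 x hx]; simp
      rw [e2, ← integral_add]
      · refine setIntegral_congr_fun hS.measurableSet fun x hx => ?_
        have e3 : (v, l x v) + (0, (fderiv ℝ (W m) x - l x) v) = (v, fderiv ℝ (W m) x v) := by
          simp
        rw [hder x, ← mul_add, ← map_add, e3, mul_comm]
      · -- integrability of the main part
        have hbi : IntegrableOn (fun x => Cφ * (B' * (‖v‖ + ‖l x‖ * ‖v‖))) S := by
          refine Integrable.const_mul (Integrable.const_mul ?_ _) _
          exact (integrableOn_const (hS.measure_lt_top.ne)).add (hlS.norm.mul_const _)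
        refine Integrable.mono' hbi ?_ ?_
        · refine hφ.continuous.aestronglyMeasurable.mul (aesm_apply ?_ ?_)
          · exact (hdΦ.comp (hpW m).continuous).aestronglyMeasurable
          · exact aestronglyMeasurable_const.prodMk
              (hlS.aestronglyMeasurable.apply_continuousLinearMap v)
        · refine (ae_restrict_iff' hS.measurableSet).2 (Eventually.of_forall fun x hx => ?_)
          rw [norm_mul]
          refine mul_le_mul (hCφ x) ?_ (norm_nonneg _) hCφ0
          have hB'0 : 0 ≤ B' := (norm_nonneg _).trans (hB' _ (hWQ m x hx))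
          refine (ContinuousLinearMap.le_opNorm _ _).trans ?_
          refine mul_le_mul (hB' _ (hWQ m x hx)) ?_ (norm_nonneg _) hB'0
          rw [Prod.norm_def]
          refine max_le ?_ ?_
          · simp only
            have : 0 ≤ ‖l x‖ * ‖v‖ := by positivity
            linarith
          · simp only
            have := (l x).le_opNorm v
            linarith [norm_nonneg v]
      · -- integrability of the remainder
        have hdW : Continuous (fderiv ℝ (W m)) := (hWs m).continuous_fderiv (by simp)
        have hdiff : IntegrableOn (fun x => fderiv ℝ (W m) x - l x) S :=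
          (hdW.continuousOn.integrableOn_compact hS).sub hlS
        have hbi : IntegrableOn (fun x => Cφ * (B' * (‖fderiv ℝ (W m) x - l x‖ * ‖v‖))) S := by
          refine Integrable.const_mul (Integrable.const_mul ?_ _) _
          exact hdiff.norm.mul_const _
        refine Integrable.mono' hbi ?_ ?_
        · refine hφ.continuous.aestronglyMeasurable.mul (aesm_apply ?_ ?_)
          · exact (hdΦ.comp (hpW m).continuous).aestronglyMeasurable
          · exact aestronglyMeasurable_const.prodMk
              (hdiff.aestronglyMeasurable.apply_continuousLinearMap v)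
        · refine (ae_restrict_iff' hS.measurableSet).2 (Eventually.of_forall fun x hx => ?_)
          rw [norm_mul]
          refine mul_le_mul (hCφ x) ?_ (norm_nonneg _) hCφ0
          have hB'0 : 0 ≤ B' := (norm_nonneg _).trans (hB' _ (hWQ m x hx))
          refine (ContinuousLinearMap.le_opNorm _ _).trans ?_
          refine mul_le_mul (hB' _ (hWQ m x hx)) ?_ (norm_nonneg _) hB'0
          rw [Prod.norm_def]
          refine max_le ?_ ?_
          · simp only [norm_zero]; positivity
          · exact ContinuousLinearMap.le_opNorm _ _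
    -- conclusion
    have hfin : Tendsto (fun m => ∫ x, Φ (x, W m x) * fderiv ℝ φ x v) atTop
        (𝓝 (-((∫ x in S, φ x * fderiv ℝ Φ (x, w x) (v, l x v)) + 0))) := by
      simp_rw [hid]
      exact (hR1.add hR2).neg
    have := tendsto_nhds_unique hL hfin
    rw [this, add_zero]
    congr 1
    rw [setIntegral_eq_integral_of_forall_compl_eq_zero]
    · rfl
    · intro x hx
      rw [hφ0 x hx]; simp

end WDAux

open WDAux

theorem WD.sub {D : Set (E n)} {w w' : E n → ℝ} {l l' : E n → (E n →L[ℝ] ℝ)} (hD : IsOpen D)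
    (h : WD D w l) (h' : WD D w' l') : WD D (fun x => w x - w' x) (fun x => l x - l' x) := by
  refine ⟨h.cont.sub h'.cont, h.int.sub h'.int, fun φ hφ hc hs v => ?_⟩
  set S := tsupport φ with hSdef
  have hS : IsCompact S := hc
  have hφ0 : ∀ x, x ∉ S → φ x = 0 := fun x hx => image_eq_zero_of_notMem_tsupport hx
  have hdφ0 : ∀ x, x ∉ S → fderiv ℝ φ x = 0 := fun x hx =>
    image_eq_zero_of_notMem_tsupport (fun h' => hx (tsupport_fderiv_subset ℝ h'))
  have hdφ : Continuous (fderiv ℝ φ) := hφ.continuous_fderiv (by simp)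
  have key : ∀ {w : E n → ℝ} {l : E n → (E n →L[ℝ] ℝ)}, WD D w l →
      Integrable (fun x => w x * fderiv ℝ φ x v) ∧ Integrable (fun x => φ x * l x v) := by
    intro w l h
    constructor
    · have h1 : ContinuousOn (fun x => w x * fderiv ℝ φ x v) S :=
        (h.cont.mono hs).mul (hdφ.clm_apply continuous_const).continuousOn
      refine (integrableOn_iff_integrable_of_support_subset ?_).1 (h1.integrableOn_compact hS)
      intro x hx
      by_contra hxS
      apply hx
      simp only
      rw [hdφ0 x hxS]; simp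
    · have hl : IntegrableOn l S := h.int.integrableOn_compact_subset hs hS
      obtain ⟨C, hC⟩ := hc.exists_bound_of_continuous hφ.continuous
      have h1 : IntegrableOn (fun x => φ x * l x v) S := by
        refine Integrable.mono' ((hl.norm.mul_const ‖v‖).const_mul C) ?_ ?_
        · exact hφ.continuous.aestronglyMeasurable.mul
            (hl.aestronglyMeasurable.apply_continuousLinearMap v)
        · refine Eventually.of_forall fun x => ?_
          rw [norm_mul]
          exact mul_le_mul (hC x) ((l x).le_opNorm v) (norm_nonneg _)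
            ((norm_nonneg _).trans (hC x))
      refine (integrableOn_iff_integrable_of_support_subset ?_).1 h1
      intro x hx
      by_contra hxS
      apply hx
      simp only
      rw [hφ0 x hxS]; simp
  obtain ⟨i1, i2⟩ := key h
  obtain ⟨j1, j2⟩ := key h'
  have e1 := h.weak φ hφ hc hs v
  have e2 := h'.weak φ hφ hc hs v
  have e3 : ∫ x, (w x - w' x) * fderiv ℝ φ x v =
      (∫ x, w x * fderiv ℝ φ x v) - ∫ x, w' x * fderiv ℝ φ x v := by
    rw [← integral_sub i1 j1]
    congr 1
    ext x
    ring
  have e4 : ∫ x, φ x * (l x - l' x) v = (∫ x, φ x * l x v) - ∫ x, φ x * l' x v := by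
    rw [← integral_sub i2 j2]
    congr 1
    ext x
    simp only [sub_apply]
    ring
  rw [e3, e4, e1, e2]
  ring

theorem WD.congr {D : Set (E n)} {w w' : E n → ℝ} {l l' : E n → (E n →L[ℝ] ℝ)} (hD : IsOpen D)
    (h : WD D w l) (hw : ∀ x ∈ D, w x = w' x) (hl : ∀ᵐ x ∂(volume.restrict D), l x = l' x) :
    WD D w' l' := by
  have hl' : ∀ᵐ x, x ∈ D → l x = l' x := (ae_restrict_iff' hD.measurableSet).1 hl
  refine ⟨h.cont.congr fun x hx => (hw x hx).symm, ?_, fun φ hφ hc hs v => ?_⟩
  · refine (locallyIntegrableOn_iff hD.isLocallyClosed).2 fun k hk hkc => ?_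
    have hlk : IntegrableOn l k := h.int.integrableOn_compact_subset hk hkc
    refine hlk.congr ?_
    refine (ae_restrict_iff' hkc.measurableSet).2 ?_
    filter_upwards [hl'] with x hx hxk using hx (hk hxk)
  · have hdφ0 : ∀ x, x ∉ D → fderiv ℝ φ x = 0 := fun x hx =>
      image_eq_zero_of_notMem_tsupport (fun h' => hx (hs (tsupport_fderiv_subset ℝ h')))
    have hφ0 : ∀ x, x ∉ D → φ x = 0 := fun x hx =>
      image_eq_zero_of_notMem_tsupport (fun h' => hx (hs h'))
    have e1 := h.weak φ hφ hc hs v
    have e2 : ∫ x, w' x * fderiv ℝ φ x v = ∫ x, w x * fderiv ℝ φ x v := by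
      congr 1
      ext x
      by_cases hx : x ∈ D
      · rw [hw x hx]
      · rw [hdφ0 x hx]; simp
    have e3 : ∫ x, φ x * l' x v = ∫ x, φ x * l x v := by
      refine integral_congr_ae ?_
      filter_upwards [hl'] with x hx
      by_cases hxD : x ∈ D
      · rw [hx hxD]
      · rw [hφ0 x hxD]; simp
    rw [e2, e3, e1]

theorem WD.comp_smooth {D : Set (E n)} (hD : IsOpen D) {w : E n → ℝ}
    {l : E n → (E n →L[ℝ] ℝ)} (h : WD D w l) {θ : ℝ → ℝ} (hθ : ContDiff ℝ ∞ θ) :
    WD D (fun x => θ (w x)) (fun x => deriv θ (w x) • l x) := by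
  have h1 := (WDV.of_wd h).comp hD (Φ := fun q : E n × ℝ => θ q.2) (hθ.comp contDiff_snd)
  have h2 : (fun x => (fderiv ℝ (fun q : E n × ℝ => θ q.2) (x, w x)).comp
      ((ContinuousLinearMap.id ℝ (E n)).prod (l x))) = fun x => deriv θ (w x) • l x := by
    funext x
    have h3 : HasFDerivAt (fun q : E n × ℝ => θ q.2)
        ((fderiv ℝ θ (w x)).comp (ContinuousLinearMap.snd ℝ (E n) ℝ)) (x, w x) := by
      have h4 : HasFDerivAt θ (fderiv ℝ θ (w x)) ((x, w x) : E n × ℝ).2 :=
        (hθ.differentiable (by simp) _).hasFDerivAt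
      exact h4.comp (x, w x) hasFDerivAt_snd
    rw [h3.fderiv]
    ext v
    simp only [ContinuousLinearMap.comp_apply, ContinuousLinearMap.prod_apply,
      ContinuousLinearMap.coe_snd', smul_apply, smul_eq_mul]
    rw [fderiv_eq_smul_deriv]
    simp [mul_comm]
  rw [h2] at h1
  exact h1

/-- Lipschitz functions are weakly differentiable. -/
theorem WD.of_lipschitz {u : E n → ℝ} {C : ℝ≥0} (hu : LipschitzWith C u) :
    WD univ u (fun x => fderiv ℝ u x) := by
  refine ⟨hu.continuous.continuousOn, ?_, fun φ hφ hc _ v => ?_⟩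
  · rw [locallyIntegrableOn_univ]
    refine (locallyIntegrable_const (C : ℝ)).mono (measurable_fderiv ℝ u).aestronglyMeasurable ?_
    refine Eventually.of_forall fun x => ?_
    rw [Real.norm_of_nonneg C.coe_nonneg]
    exact norm_fderiv_le_of_lipschitz ℝ hu
  · obtain ⟨B, hB⟩ : ∃ B, LipschitzWith B φ :=
      ContDiff.lipschitzWith_of_hasCompactSupport hc hφ (by simp)
    have e1 := hu.integral_lineDeriv_mul_eq (μ := volume) hB hc v
    have e2 : ∫ x, lineDeriv ℝ u x v * φ x = ∫ x, φ x * fderiv ℝ u x v := by
      refine integral_congr_ae ?_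
      filter_upwards [hu.ae_differentiableAt (μ := volume)] with x hx
      rw [hx.lineDeriv_eq_fderiv, mul_comm]
    have e3 : ∫ x, lineDeriv ℝ φ x (-v) * u x = - ∫ x, u x * fderiv ℝ φ x v := by
      rw [← integral_neg]
      congr 1
      ext x
      rw [(hφ.differentiable (by simp) x).lineDeriv_eq_fderiv, map_neg]
      ring
    rw [e2, e3] at e1
    rw [e1, neg_neg]

/-- The weak derivative vanishes almost everywhere on the zero set. -/
theorem WD.ae_eq_zero {D : Set (E n)} (hD : IsOpen D) {w : E n → ℝ}
    {l : E n → (E n →L[ℝ] ℝ)} (h : WD D w l) :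
    ∀ᵐ x ∂(volume.restrict D), w x = 0 → l x = 0 := by
  classical
  -- the weak derivatives of `arctan (k w) / k`
  let θ : ℕ → ℝ → ℝ := fun k t => Real.arctan (((k : ℝ) + 1) * t) / ((k : ℝ) + 1)
  have hθs : ∀ k, ContDiff ℝ ∞ (θ k) := fun k =>
    (Real.contDiff_arctan.comp (contDiff_const.mul contDiff_id)).div_const _
  have hθd : ∀ k t, deriv (θ k) t = 1 / (1 + (((k : ℝ) + 1) * t) ^ 2) := by
    intro k t
    have hk : ((k : ℝ) + 1) ≠ 0 := by positivity
    have h1 : HasDerivAt (fun t : ℝ => ((k : ℝ) + 1) * t) ((k : ℝ) + 1) t := by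
      simpa using (hasDerivAt_id t).const_mul ((k : ℝ) + 1)
    have h2 := (h1.arctan.div_const ((k : ℝ) + 1)).deriv
    have h3 : deriv (θ k) t = _ := h2
    rw [h3]
    field_simp
  set Z : Set (E n) := {x | w x = 0} with hZ
  -- the restriction of `l` to the zero set
  set g : E n → (E n →L[ℝ] ℝ) := fun x => if w x = 0 then l x else 0 with hg
  have hgint : LocallyIntegrableOn g D := by
    refine (locallyIntegrableOn_iff hD.isLocallyClosed).2 fun k hk hkc => ?_
    have hlk : IntegrableOn l k := h.int.integrableOn_compact_subset hk hkc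
    have hzc : IsClosed (k ∩ w ⁻¹' {0}) :=
      (h.cont.mono hk).preimage_isClosed_of_isClosed hkc.isClosed isClosed_singleton
    refine Integrable.congr (integrableOn_ind hlk hzc.measurableSet) ?_
    refine (ae_restrict_iff' hkc.measurableSet).2 (Eventually.of_forall fun x hx => ?_)
    by_cases hx0 : w x = 0
    · have : x ∈ k ∩ w ⁻¹' {0} := ⟨hx, hx0⟩
      rw [indicator_of_mem this]
      simp [hg, hx0]
    · have : x ∉ k ∩ w ⁻¹' {0} := fun h' => hx0 h'.2
      rw [indicator_of_notMem this]
      simp [hg, hx0]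
  have key : ∀ φ : E n → ℝ, ContDiff ℝ ∞ φ → HasCompactSupport φ → tsupport φ ⊆ D →
      ∫ x, φ x • g x = 0 := by
    intro φ hφ hc hs
    set S := tsupport φ with hSdef
    have hS : IsCompact S := hc
    have hφ0 : ∀ x, x ∉ S → φ x = 0 := fun x hx => image_eq_zero_of_notMem_tsupport hx
    have hdφ0 : ∀ x, x ∉ S → fderiv ℝ φ x = 0 := fun x hx =>
      image_eq_zero_of_notMem_tsupport (fun h' => hx (tsupport_fderiv_subset ℝ h'))
    have hdφ : Continuous (fderiv ℝ φ) := hφ.continuous_fderiv (by simp)
    have hlS : IntegrableOn l S := h.int.integrableOn_compact_subset hs hS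
    have hgS : IntegrableOn g S := hgint.integrableOn_compact_subset hs hS
    obtain ⟨C, hC⟩ := hc.exists_bound_of_continuous hφ.continuous
    have hC0 : 0 ≤ C := (norm_nonneg _).trans (hC 0)
    have hφg : Integrable (fun x => φ x • g x) := by
      have h1 : IntegrableOn (fun x => φ x • g x) S := by
        refine Integrable.mono' (hgS.norm.const_mul C) ?_ ?_
        · exact hφ.continuous.aestronglyMeasurable.smul hgS.aestronglyMeasurable
        · refine Eventually.of_forall fun x => ?_
          rw [norm_smul]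
          exact mul_le_mul_of_nonneg_right (hC x) (norm_nonneg _)
      refine integrable_of_zero h1 fun x hxS => ?_
      rw [hφ0 x hxS]; simp
    ext v
    rw [ContinuousLinearMap.integral_apply hφg, zero_apply]
    -- limit identity
    have hL : Tendsto (fun k => ∫ x, θ k (w x) * fderiv ℝ φ x v) atTop (𝓝 0) := by
      have h0 : ∀ k : ℕ, ‖∫ x, θ k (w x) * fderiv ℝ φ x v‖ ≤
          (1 / ((k : ℝ) + 1)) * (2 * ∫ x, ‖fderiv ℝ φ x v‖) := by
        intro k
        have hi : Integrable (fun x => (1 / ((k : ℝ) + 1)) * (2 * ‖fderiv ℝ φ x v‖)) := by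
          refine Integrable.const_mul (Integrable.const_mul ?_ _) _
          refine Integrable.norm ?_
          refine (hdφ.clm_apply continuous_const).integrable_of_hasCompactSupport ?_
          exact HasCompactSupport.intro hS (fun x hx => by rw [hdφ0 x hx]; rfl)
        calc ‖∫ x, θ k (w x) * fderiv ℝ φ x v‖
            ≤ ∫ x, (1 / ((k : ℝ) + 1)) * (2 * ‖fderiv ℝ φ x v‖) := by
              refine norm_integral_le_of_norm_le hi (Eventually.of_forall fun x => ?_)
              rw [norm_mul]
              have h5 : ‖θ k (w x)‖ ≤ (1 / ((k : ℝ) + 1)) * 2 := by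
                simp only [θ]
                rw [norm_div, Real.norm_of_nonneg (show (0 : ℝ) ≤ (k : ℝ) + 1 by positivity),
                  one_div, inv_mul_eq_div]
                have h6 : ‖Real.arctan (((k : ℝ) + 1) * w x)‖ ≤ 2 := by
                  rw [Real.norm_eq_abs, abs_le]
                  constructor
                  · have := Real.neg_pi_div_two_lt_arctan (((k : ℝ) + 1) * w x)
                    have h7 := Real.pi_lt_four
                    linarith
                  · have := Real.arctan_lt_pi_div_two (((k : ℝ) + 1) * w x)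
                    have h7 := Real.pi_lt_four
                    linarith
                gcongr
              calc ‖θ k (w x)‖ * ‖fderiv ℝ φ x v‖
                  ≤ ((1 / ((k : ℝ) + 1)) * 2) * ‖fderiv ℝ φ x v‖ := by gcongr
                _ = _ := by ring
          _ = _ := by rw [integral_const_mul, integral_const_mul]
      refine squeeze_zero_norm h0 ?_
      have := (tendsto_one_div_add_atTop_nhds_zero_nat (𝕜 := ℝ)).mul_const
        (2 * ∫ x, ‖fderiv ℝ φ x v‖)
      simpa using this
    have hR : Tendsto (fun k => ∫ x in S, φ x * (deriv (θ k) (w x) • l x) v) atTop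
        (𝓝 (∫ x in S, φ x * g x v)) := by
      refine tendsto_integral_of_dominated_convergence (fun x => C * (‖l x‖ * ‖v‖)) ?_ ?_ ?_ ?_
      · intro k
        refine hφ.continuous.aestronglyMeasurable.mul ?_
        simp only [smul_apply, smul_eq_mul]
        refine AEStronglyMeasurable.mul ?_ (hlS.aestronglyMeasurable.apply_continuousLinearMap v)
        have hc' : Continuous (deriv (θ k)) := (hθs k).continuous_deriv (by simp)
        exact (hc'.comp_continuousOn (h.cont.mono hs)).aestronglyMeasurable hS.measurableSet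
      · exact (hlS.norm.mul_const _).const_mul _
      · intro k
        refine Eventually.of_forall fun x => ?_
        rw [norm_mul]
        refine mul_le_mul (hC x) ?_ (norm_nonneg _) hC0
        simp only [smul_apply, smul_eq_mul]
        rw [norm_mul]
        have h5 : ‖deriv (θ k) (w x)‖ ≤ 1 := by
          rw [hθd, Real.norm_of_nonneg (by positivity), div_le_one (by positivity)]
          nlinarith [sq_nonneg (((k : ℝ) + 1) * w x)]
        calc ‖deriv (θ k) (w x)‖ * ‖l x v‖ ≤ 1 * (‖l x‖ * ‖v‖) :=
              mul_le_mul h5 ((l x).le_opNorm v) (norm_nonneg _) zero_le_one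
          _ = _ := one_mul _
      · refine Eventually.of_forall fun x => ?_
        refine Tendsto.const_mul _ ?_
        by_cases hx0 : w x = 0
        · simp only [hg, hx0, if_true, hθd]
          simp
        · simp only [hg, hx0, if_false, smul_apply, smul_eq_mul,
            zero_apply]
          have h6 : Tendsto (fun k : ℕ => deriv (θ k) (w x)) atTop (𝓝 0) := by
            simp only [hθd]
            have h7 : Tendsto (fun k : ℕ => (((k : ℝ) + 1) * w x) ^ 2) atTop atTop := by
              have h8 : ∀ k : ℕ, (((k : ℝ) + 1) * w x) ^ 2 = ((k : ℝ) + 1) ^ 2 * (w x) ^ 2 := by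
                intro k; ring
              simp_rw [h8]
              refine Tendsto.atTop_mul_const (by positivity) ?_
              refine (tendsto_pow_atTop (by norm_num)).comp ?_
              exact tendsto_atTop_add_const_right _ _ tendsto_natCast_atTop_atTop
            have h9 := tendsto_atTop_add_const_left atTop (1 : ℝ) h7
            refine h9.inv_tendsto_atTop.congr (fun k => ?_)
            simp [one_div]
          simpa using h6.mul_const (l x v)
    have hid : ∀ k, ∫ x, θ k (w x) * fderiv ℝ φ x v =
        - ∫ x in S, φ x * (deriv (θ k) (w x) • l x) v := by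
      intro k
      rw [(h.comp_smooth hD (hθs k)).weak φ hφ hc hs v]
      congr 1
      rw [setIntegral_eq_integral_of_forall_compl_eq_zero]
      intro x hx
      rw [hφ0 x hx]; simp
    simp_rw [hid] at hL
    have h10 := tendsto_nhds_unique hL hR.neg
    have h11 : ∫ x in S, φ x * g x v = 0 := by linarith
    rw [setIntegral_eq_integral_of_forall_compl_eq_zero] at h11
    · exact h11
    · intro x hx
      rw [hφ0 x hx]; simp
  have h1 := hD.ae_eq_zero_of_integral_contDiff_smul_eq_zero hgint key
  refine (ae_restrict_iff' hD.measurableSet).2 ?_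
  filter_upwards [h1] with x hx hxD hx0
  have := hx hxD
  simpa [hg, hx0] using this

/-- Cutting off to an open set near the boundary of which the function vanishes. -/
theorem WD.indicator {D : Set (E n)} (hD : IsOpen D) {w : E n → ℝ} {l : E n → (E n →L[ℝ] ℝ)}
    (h : WD D w l) {U : Set (E n)} (hU : IsOpen U)
    (hz : ∀ x ∈ D, x ∈ frontier U → ∀ᶠ z in 𝓝 x, w z = 0) :
    WD D (U.indicator w) (U.indicator l) := by
  -- the open set where `w` vanishes
  set N : Set (E n) := interior {z | w z = 0} with hN
  have hNo : IsOpen N := isOpen_interior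
  have hNw : ∀ z ∈ N, w z = 0 := fun z hz' => by
    have h' : z ∈ {z | w z = 0} := interior_subset hz'
    exact h'
  have hfr : ∀ x ∈ D, x ∈ frontier U → x ∈ N := fun x hx hxU =>
    mem_interior_iff_mem_nhds.2 (hz x hx hxU)
  have hl0 : ∀ᵐ x, x ∈ D → w x = 0 → l x = 0 :=
    (ae_restrict_iff' hD.measurableSet).1 (h.ae_eq_zero hD)
  refine ⟨?_, ?_, fun φ hφ hc hs v => ?_⟩
  · intro x hx
    have hxD : D ∈ 𝓝 x := hD.mem_nhds hx
    by_cases h1 : x ∈ frontier U
    · have h2 := hz x hx h1
      have h3 : U.indicator w =ᶠ[𝓝 x] fun _ => 0 := by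
        filter_upwards [h2] with z hz'
        by_cases hzU : z ∈ U
        · rw [indicator_of_mem hzU, hz']
        · rw [indicator_of_notMem hzU]
      exact (continuousAt_const.congr h3.symm).continuousWithinAt
    · by_cases h2 : x ∈ U
      · have h3 : U.indicator w =ᶠ[𝓝 x] w := by
          filter_upwards [hU.mem_nhds h2] with z hz'
          rw [indicator_of_mem hz']
        exact ((h.cont.continuousAt hxD).congr h3.symm).continuousWithinAt
      · have h4 : x ∉ closure U := fun h' => h1 (by
          rw [frontier, hU.interior_eq]; exact ⟨h', h2⟩)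
        have h3 : U.indicator w =ᶠ[𝓝 x] fun _ => 0 := by
          filter_upwards [isClosed_closure.isOpen_compl.mem_nhds h4] with z hz'
          rw [indicator_of_notMem (fun h' => hz' (subset_closure h'))]
        exact (continuousAt_const.congr h3.symm).continuousWithinAt
  · refine (locallyIntegrableOn_iff hD.isLocallyClosed).2 fun k hk hkc => ?_
    have hlk : IntegrableOn l k := h.int.integrableOn_compact_subset hk hkc
    exact integrableOn_ind hlk hU.measurableSet
  · set S := tsupport φ with hSdef
    have hS : IsCompact S := hc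
    have hφ0 : ∀ x, x ∉ S → φ x = 0 := fun x hx => image_eq_zero_of_notMem_tsupport hx
    have hdφ0 : ∀ x, x ∉ S → fderiv ℝ φ x = 0 := fun x hx =>
      image_eq_zero_of_notMem_tsupport (fun h' => hx (tsupport_fderiv_subset ℝ h'))
    -- the cutoff
    set A : Set (E n) := (S ∩ closure U) ∩ Nᶜ with hA
    set B : Set (E n) := (S ∩ Uᶜ) ∩ Nᶜ with hB
    have hAc : IsClosed A :=
      (hS.isClosed.inter isClosed_closure).inter hNo.isClosed_compl
    have hBc : IsClosed B := (hS.isClosed.inter hU.isClosed_compl).inter hNo.isClosed_compl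
    have hAB : Disjoint B A := by
      rw [Set.disjoint_left]
      rintro x ⟨⟨hxS, hxU⟩, hxN⟩ ⟨⟨_, hxc⟩, _⟩
      refine hxN (hfr x (hs hxS) ?_)
      rw [frontier, hU.interior_eq]
      exact ⟨hxc, hxU⟩
    obtain ⟨χ, hχB, hχA, hχ01⟩ := exists_contMDiffMap_zero_one_of_isClosed
      (n := (⊤ : ℕ∞)) (modelWithCornersSelf ℝ (E n)) hBc hAc hAB
    have hχs : ContDiff ℝ ∞ (χ : E n → ℝ) := χ.contMDiff.contDiff
    -- the derivative of the cutoff vanishes off `N`
    have hdχ : ∀ x ∈ S, x ∉ N → fderiv ℝ (χ : E n → ℝ) x = 0 := by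
      intro x hxS hxN
      by_cases hxU : x ∈ closure U
      · have hx1 : χ x = 1 := hχA ⟨⟨hxS, hxU⟩, hxN⟩
        refine IsLocalMax.fderiv_eq_zero (Eventually.of_forall fun z => ?_)
        rw [hx1]
        exact (hχ01 z).2
      · have hx1 : χ x = 0 := hχB ⟨⟨hxS, fun h' => hxU (subset_closure h')⟩, hxN⟩
        refine IsLocalMin.fderiv_eq_zero (Eventually.of_forall fun z => ?_)
        rw [hx1]
        exact (hχ01 z).1
    have hψs : ContDiff ℝ ∞ (fun x => χ x * φ x) := hχs.mul hφ
    have hψc : HasCompactSupport (fun x => χ x * φ x) :=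
      HasCompactSupport.intro hS (fun x hx => by rw [hφ0 x hx]; simp)
    have hψt : tsupport (fun x => χ x * φ x) ⊆ D := by
      refine (closure_minimal ?_ hS.isClosed).trans hs
      intro x hx
      by_contra hxS
      exact hx (by simp only; rw [hφ0 x hxS]; simp)
    have e1 := h.weak _ hψs hψc hψt v
    have e2 : ∀ x, w x * fderiv ℝ (fun x => χ x * φ x) x v = U.indicator w x * fderiv ℝ φ x v := by
      intro x
      have h1 : fderiv ℝ (fun x => χ x * φ x) x = χ x • fderiv ℝ φ x + φ x • fderiv ℝ χ x :=
        fderiv_fun_mul (hχs.differentiable (by simp) x) (hφ.differentiable (by simp) x)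
      rw [h1]
      simp only [add_apply, smul_apply, smul_eq_mul]
      by_cases hxS : x ∈ S
      · by_cases hxN : x ∈ N
        · rw [hNw x hxN]
          have : U.indicator w x = 0 := by
            by_cases hxU : x ∈ U
            · rw [indicator_of_mem hxU, hNw x hxN]
            · rw [indicator_of_notMem hxU]
          rw [this]; simp
        · rw [hdχ x hxS hxN]
          by_cases hxU : x ∈ U
          · have hx1 : χ x = 1 := hχA ⟨⟨hxS, subset_closure hxU⟩, hxN⟩
            rw [indicator_of_mem hxU, hx1]; simp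
          · have hx1 : χ x = 0 := hχB ⟨⟨hxS, hxU⟩, hxN⟩
            rw [indicator_of_notMem hxU, hx1]; simp
      · rw [hφ0 x hxS, hdφ0 x hxS]; simp
    have e3 : ∫ x, (χ x * φ x) * l x v = ∫ x, φ x * (U.indicator l x) v := by
      refine integral_congr_ae ?_
      filter_upwards [hl0] with x hx
      by_cases hxS : x ∈ S
      · by_cases hxN : x ∈ N
        · have h2 : l x = 0 := hx (hs hxS) (hNw x hxN)
          have h3 : U.indicator l x = 0 := by
            by_cases hxU : x ∈ U
            · rw [indicator_of_mem hxU, h2]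
            · rw [indicator_of_notMem hxU]
          rw [h2, h3]; simp
        · by_cases hxU : x ∈ U
          · have hx1 : χ x = 1 := hχA ⟨⟨hxS, subset_closure hxU⟩, hxN⟩
            rw [indicator_of_mem hxU, hx1]; simp
          · have hx1 : χ x = 0 := hχB ⟨⟨hxS, hxU⟩, hxN⟩
            rw [indicator_of_notMem hxU, hx1]; simp
      · rw [hφ0 x hxS]; simp
    simp_rw [e2] at e1
    rw [e1, e3]

/-- Chain rule for a smooth function of `(x, f x)`. -/
theorem GM.wd_comp (hn : 2 ≤ n) {D : Set (E n)} {f : E n → E n} {Df : E n → E n →L[ℝ] E n}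
    {K : E n → ℝ} (H : GM n D f Df K) {Φ : E n × E n → ℝ} (hΦ : ContDiff ℝ ∞ Φ) :
    WD D (fun x => Φ (x, f x)) (fun x => (fderiv ℝ Φ (x, f x)).comp
      ((ContinuousLinearMap.id ℝ (E n)).prod (Df x))) := by
  have h : WDV D f Df :=
    ⟨H.cont.continuousOn, (H.integrableOn_Df hn).locallyIntegrableOn, H.weak⟩
  exact h.comp H.isOpen hΦ

/-- Chain rule for a smooth function of `f x`. -/
theorem GM.wd_comp' (hn : 2 ≤ n) {D : Set (E n)} {f : E n → E n} {Df : E n → E n →L[ℝ] E n}
    {K : E n → ℝ} (H : GM n D f Df K) {Φ : E n → ℝ} (hΦ : ContDiff ℝ ∞ Φ) :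
    WD D (fun x => Φ (f x)) (fun x => (fderiv ℝ Φ (f x)).comp (Df x)) := by
  have h1 := H.wd_comp hn (Φ := fun q : E n × E n => Φ q.2) (hΦ.comp contDiff_snd)
  have h2 : (fun x => (fderiv ℝ (fun q : E n × E n => Φ q.2) (x, f x)).comp
      ((ContinuousLinearMap.id ℝ (E n)).prod (Df x))) = fun x => (fderiv ℝ Φ (f x)).comp (Df x) := by
    funext x
    have h3 : HasFDerivAt (fun q : E n × E n => Φ q.2)
        ((fderiv ℝ Φ (f x)).comp (ContinuousLinearMap.snd ℝ (E n) (E n))) (x, f x) := by
      have h4 : HasFDerivAt Φ (fderiv ℝ Φ (f x)) ((x, f x) : E n × E n).2 :=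
        (hΦ.differentiable (by simp) _).hasFDerivAt
      exact h4.comp (x, f x) hasFDerivAt_snd
    rw [h3.fderiv]
    ext v
    simp
  rw [h2] at h1
  exact h1

theorem WD.mono {D D' : Set (E n)} {w : E n → ℝ} {l : E n → (E n →L[ℝ] ℝ)} (h : WD D w l)
    (hD' : IsOpen D') (hsub : D' ⊆ D) : WD D' w l :=
  ⟨h.cont.mono hsub, h.int.mono_set hsub, fun φ hφ hc hs => h.weak φ hφ hc (hs.trans hsub)⟩

end Pool.Agent.MP_dd09c0_an
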