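import Pool.Agent.MP_dd09c0_an.Defs

/-!
# Weak derivatives control the oscillation of averages
-/

open MeasureTheory Metric Set Filter Topology
open scoped ENNReal NNReal ContDiff RealInnerProductSpace

namespace Pool.Agent.MP_dd09c0_an

variable {n : ℕ}

namespace UGAux

/-- Differentiation under the integral sign over a compact set. -/
theorem hasDerivAt_int {K : Set (E n)} (hK : IsCompact K) {w : E n → ℝ} (hw : ContinuousOn w K)
    {φ : ℝ × E n → ℝ} (hφ : ContDiff ℝ ∞ φ) (t0 : ℝ) :
    HasDerivAt (fun t => ∫ x in K, w x * φ (t, x))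
      (∫ x in K, w x * fderiv ℝ φ (t0, x) (1, 0)) t0 := by
  have hdc : Continuous (fun p : ℝ × E n => fderiv ℝ φ p (1, 0)) :=
    (hφ.continuous_fderiv (by simp)).clm_apply continuous_const
  obtain ⟨C, hC⟩ : ∃ C, ∀ p ∈ closedBall t0 1 ×ˢ K, ‖w p.2 * fderiv ℝ φ p (1, 0)‖ ≤ C := by
    apply IsCompact.exists_bound_of_continuousOn ((isCompact_closedBall t0 1).prod hK)
    apply ContinuousOn.mul
    · exact hw.comp continuous_snd.continuousOn (fun p hp => hp.2)
    · exact hdc.continuousOn
  have hint : ∀ g : E n → ℝ, Continuous g → IntegrableOn (fun x => w x * g x) K :=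
    fun g hg => (hw.mul hg.continuousOn).integrableOn_compact hK
  refine (hasDerivAt_integral_of_dominated_loc_of_deriv_le (μ := volume.restrict K)
    (F := fun t x => w x * φ (t, x)) (F' := fun t x => w x * fderiv ℝ φ (t, x) (1, 0))
    (bound := fun _ => C) (x₀ := t0) (s := ball t0 1) (ball_mem_nhds _ one_pos) ?_ ?_ ?_ ?_ ?_ ?_).2
  · refine Eventually.of_forall fun t => (hint _ ?_).aestronglyMeasurable
    exact hφ.continuous.comp (continuous_const.prodMk continuous_id)
  · exact hint _ (hφ.continuous.comp (continuous_const.prodMk continuous_id))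
  · exact (hint _ (hdc.comp (continuous_const.prodMk continuous_id))).aestronglyMeasurable
  · refine (ae_restrict_mem hK.measurableSet).mono fun x hx t ht => ?_
    exact hC (t, x) ⟨ball_subset_closedBall ht, hx⟩
  · exact (continuousOn_const.integrableOn_compact hK : IntegrableOn (fun _ => C) K)
  · refine Eventually.of_forall fun x t _ => ?_
    have h1 : HasFDerivAt φ (fderiv ℝ φ (t, x)) (t, x) :=
      (hφ.differentiable (by simp) _).hasFDerivAt
    have h2 : HasDerivAt (fun t : ℝ => (t, x)) ((1 : ℝ), (0 : E n)) t :=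
      (hasDerivAt_id t).prodMk (hasDerivAt_const t x)
    exact (h1.comp_hasDerivAt t h2).const_mul (w x)

/-- The weak derivative identity over a compact set containing the support. -/
theorem weak_on {D K : Set (E n)} (hK : K ⊆ D) {w : E n → ℝ} {l : E n → (E n →L[ℝ] ℝ)}
    (h : WD D w l) {φ : E n → ℝ} (hφ : ContDiff ℝ ∞ φ) (hc : HasCompactSupport φ)
    (hs : tsupport φ ⊆ K) (v : E n) :
    ∫ x in K, w x * fderiv ℝ φ x v = - ∫ x in K, φ x * l x v := by
  have h0 := h.weak φ hφ hc (hs.trans hK) v
  have h1 : ∫ x in K, w x * fderiv ℝ φ x v = ∫ x, w x * fderiv ℝ φ x v := by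
    apply setIntegral_eq_integral_of_forall_compl_eq_zero
    intro x hx
    have : fderiv ℝ φ x = 0 := by
      apply image_eq_zero_of_notMem_tsupport
      exact fun h => hx (hs (tsupport_fderiv_subset ℝ h))
    rw [this]
    simp
  have h2 : ∫ x in K, φ x * l x v = ∫ x, φ x * l x v := by
    apply setIntegral_eq_integral_of_forall_compl_eq_zero
    intro x hx
    rw [image_eq_zero_of_notMem_tsupport (fun h => hx (hs h)), zero_mul]
  rw [h1, h2, h0]

/-- smooth functions increasing to the indicator of a ball -/
theorem exists_psi {r : ℝ} (hr : 0 < r) : ∃ ψ : ℕ → E n → ℝ, (∀ k, ContDiff ℝ ∞ (ψ k)) ∧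
    (∀ k, HasCompactSupport (ψ k)) ∧ (∀ k, tsupport (ψ k) ⊆ ball 0 r) ∧
    (∀ k x, 0 ≤ ψ k x ∧ ψ k x ≤ 1) ∧
    ∀ x, Tendsto (fun k => ψ k x) atTop (𝓝 ((ball (0 : E n) r).indicator (fun _ => 1) x)) := by
  have h1 : ∀ k : ℕ, 0 < r * ((k + 1) / (k + 3)) := fun k => by positivity
  have h2 : ∀ k : ℕ, r * (((k : ℝ) + 1) / (k + 3)) < r * ((k + 2) / (k + 3)) := fun k => by
    gcongr
    linarith
  have h3 : ∀ k : ℕ, r * (((k : ℝ) + 2) / (k + 3)) < r := fun k => by
    have : ((k : ℝ) + 2) / (k + 3) < 1 := by
      rw [div_lt_one (by positivity)]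
      linarith
    nlinarith
  let B : ∀ k : ℕ, ContDiffBump (0 : E n) := fun k => ⟨_, _, h1 k, h2 k⟩
  have hsub : ∀ k, tsupport (B k) ⊆ ball 0 r := by
    intro k
    rw [(B k).tsupport_eq]
    exact closedBall_subset_ball (h3 k)
  refine ⟨fun k => B k, fun k => (B k).contDiff, fun k => (B k).hasCompactSupport, hsub,
    fun k x => ⟨(B k).nonneg, (B k).le_one⟩, ?_⟩
  intro x
  by_cases hx : x ∈ ball (0 : E n) r
  · rw [indicator_of_mem hx]
    apply tendsto_const_nhds.congr'
    have h4 : Tendsto (fun k : ℕ => r * (((k : ℝ) + 1) / (k + 3))) atTop (𝓝 (r * 1)) := by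
      apply Tendsto.const_mul
      have h5 : Tendsto (fun k : ℕ => 1 - 2 / ((k : ℝ) + 3)) atTop (𝓝 (1 - 0)) := by
        apply Tendsto.sub tendsto_const_nhds
        apply Tendsto.div_atTop tendsto_const_nhds
        exact tendsto_atTop_add_const_right _ _ tendsto_natCast_atTop_atTop
      rw [sub_zero] at h5
      refine h5.congr fun k => ?_
      field_simp
      ring
    rw [mul_one] at h4
    rw [mem_ball_zero_iff] at hx
    filter_upwards [(tendsto_order.1 h4).1 _ hx] with k hk
    symm
    apply (B k).one_of_mem_closedBall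
    rw [mem_closedBall_zero_iff]
    exact hk.le
  · rw [indicator_of_notMem hx]
    apply tendsto_const_nhds.congr'
    refine Eventually.of_forall fun k => ?_
    exact (image_eq_zero_of_notMem_tsupport fun h => hx (hsub k h)).symm

/-- limit of the smoothed integrals -/
theorem tendsto_psi {K : Set (E n)} (hK : IsCompact K) {w : E n → ℝ} (hw : ContinuousOn w K)
    {r : ℝ} {ψ : ℕ → E n → ℝ} (hψ : ∀ k, ContDiff ℝ ∞ (ψ k)) (h01 : ∀ k x, 0 ≤ ψ k x ∧ ψ k x ≤ 1)
    (hlim : ∀ x, Tendsto (fun k => ψ k x) atTop (𝓝 ((ball (0 : E n) r).indicator (fun _ => 1) x)))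
    {σ : ℝ} (hσ : 0 < σ) {a : E n} (ha : ball a (r / σ) ⊆ K) :
    Tendsto (fun k => ∫ x in K, w x * ψ k (σ • (x - a))) atTop (𝓝 (∫ x in ball a (r / σ), w x)) := by
  have h1 : ∫ x in ball a (r / σ), w x =
      ∫ x in K, w x * (ball (0 : E n) r).indicator (fun _ => 1) (σ • (x - a)) := by
    have h2 : ∀ x, w x * (ball (0 : E n) r).indicator (fun _ => 1) (σ • (x - a)) =
        (ball a (r / σ)).indicator w x := by
      intro x
      have h3 : σ • (x - a) ∈ ball (0 : E n) r ↔ x ∈ ball a (r / σ) := by
        rw [mem_ball_zero_iff, norm_smul, Real.norm_of_nonneg hσ.le, mem_ball, dist_eq_norm,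
          lt_div_iff₀ hσ, mul_comm]
      by_cases hx : x ∈ ball a (r / σ)
      · rw [indicator_of_mem hx, indicator_of_mem (h3.mpr hx), mul_one]
      · rw [indicator_of_notMem hx, indicator_of_notMem (fun h => hx (h3.mp h)), mul_zero]
    simp only [h2]
    rw [setIntegral_indicator measurableSet_ball, inter_eq_self_of_subset_right ha]
  rw [h1]
  apply tendsto_integral_of_dominated_convergence (fun x => ‖w x‖)
  · intro k
    refine ((hw.mul (Continuous.continuousOn ?_)).integrableOn_compact hK).aestronglyMeasurable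
    exact (hψ k).continuous.comp (by fun_prop)
  · exact (hw.integrableOn_compact hK).norm
  · intro k
    refine Eventually.of_forall fun x => ?_
    rw [norm_mul]
    have := h01 k (σ • (x - a))
    rw [Real.norm_of_nonneg this.1]
    exact mul_le_of_le_one_right (norm_nonneg _) this.2
  · refine Eventually.of_forall fun x => ?_
    exact (hlim _).const_mul _

/-- the key estimate for translations -/
theorem seg_real {D : Set (E n)} {w : E n → ℝ} {l : E n → (E n →L[ℝ] ℝ)}
    (h : WD D w l) {a b : E n} {r : ℝ} (hr : 0 < r)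
    (hD : ∀ t ∈ Icc (0 : ℝ) 1, closedBall (AffineMap.lineMap a b t : E n) r ⊆ D) {S : Set (E n)}
    (hS : ∀ t ∈ Icc (0 : ℝ) 1, ball (AffineMap.lineMap a b t : E n) r ⊆ S) :
    ENNReal.ofReal |(∫ x in ball a r, w x) - (∫ x in ball b r, w x)|
      ≤ ENNReal.ofReal (dist a b) * ∫⁻ x in S, ‖l x‖ₑ := by
  set γ : ℝ → E n := fun t => AffineMap.lineMap a b t with hγ
  have hγc : Continuous γ := AffineMap.lineMap_continuous
  set K : Set (E n) := (fun p : ℝ × E n => γ p.1 + p.2) '' (Icc 0 1 ×ˢ closedBall 0 r) with hKdef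
  have hK : IsCompact K := by
    apply (isCompact_Icc.prod (isCompact_closedBall _ _)).image
    fun_prop
  have hKmem : ∀ t ∈ Icc (0 : ℝ) 1, closedBall (γ t) r ⊆ K := by
    intro t ht x hx
    refine ⟨(t, x - γ t), ⟨ht, ?_⟩, by simp⟩
    rwa [mem_closedBall_zero_iff, ← dist_eq_norm]
  have hKD : K ⊆ D := by
    rintro _ ⟨⟨t, z⟩, ⟨ht, hz⟩, rfl⟩
    apply hD t ht
    simp only [mem_closedBall, hγ, dist_eq_norm, add_sub_cancel_left]
    exact mem_closedBall_zero_iff.mp hz
  have hw : ContinuousOn w K := h.cont.mono hKD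
  have hl : IntegrableOn l K := h.int.integrableOn_compact_subset hKD hK
  set T : Set (E n) := ⋃ t ∈ Icc (0 : ℝ) 1, ball (γ t) r with hT
  have hTo : IsOpen T := isOpen_biUnion fun _ _ => isOpen_ball
  have hTK : T ⊆ K := iUnion₂_subset fun t ht => ball_subset_closedBall.trans (hKmem t ht)
  have hTS : T ⊆ S := iUnion₂_subset fun t ht => hS t ht
  set I : ℝ := ∫ x in T, ‖l x‖ with hI
  have hlT : IntegrableOn l T := hl.mono_set hTK
  obtain ⟨ψ, hψ, hψc, hψs, h01, hlim⟩ := exists_psi (n := n) hr
  have hmain : ∀ k, |(∫ x in K, w x * ψ k (x - b)) - (∫ x in K, w x * ψ k (x - a))|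
      ≤ dist a b * I := by
    intro k
    set φ : ℝ × E n → ℝ := fun p => ψ k (p.2 - γ p.1) with hφ
    have hφs : ContDiff ℝ ∞ φ := by
      apply (hψ k).comp
      apply contDiff_snd.sub
      have : γ = fun t => a + t • (b - a) := by
        ext1 t
        simp only [hγ, AffineMap.lineMap_apply, vsub_eq_sub, vadd_eq_add]
        abel
      rw [this]
      fun_prop
    have hder : ∀ t ∈ Icc (0 : ℝ) 1, HasDerivWithinAt (fun t => ∫ x in K, w x * φ (t, x))
        (∫ x in K, w x * fderiv ℝ φ (t, x) (1, 0)) (Icc 0 1) t := fun t _ =>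
      (hasDerivAt_int hK hw hφs t).hasDerivWithinAt
    have hval : ∀ t ∈ Icc (0 : ℝ) 1, ‖∫ x in K, w x * fderiv ℝ φ (t, x) (1, 0)‖ ≤
        dist a b * I := by
      intro t ht
      set θ : E n → ℝ := fun x => ψ k (x - γ t) with hθ
      have hθs : ContDiff ℝ ∞ θ := (hψ k).comp (by fun_prop)
      have hθt : tsupport θ ⊆ ball (γ t) r := by
        intro x hx
        have h1 : x - γ t ∈ tsupport (ψ k) := by
          have := tsupport_comp_subset_preimage (ψ k) (f := fun x => x - γ t) (by fun_prop) hx
          exact this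
        have h2 := hψs k h1
        rwa [mem_ball_zero_iff, ← dist_eq_norm] at h2
      have hθc : HasCompactSupport θ :=
        (hK.of_isClosed_subset (isClosed_tsupport _)
          (hθt.trans (ball_subset_closedBall.trans (hKmem t ht))))
      have h3 : ∀ x, fderiv ℝ φ (t, x) (1, 0) = - fderiv ℝ θ x (b - a) := by
        intro x
        have e1 : HasFDerivAt (ψ k) (fderiv ℝ (ψ k) (x - γ t)) (x - γ t) :=
          ((hψ k).differentiable (by simp) _).hasFDerivAt
        have e2 : HasDerivAt γ (b - a) t := by
          have := AffineMap.hasDerivAt_lineMap (a := a) (b := b) (x := t) 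
          exact this
        have e3 : HasDerivAt (fun s : ℝ => φ (s, x)) (fderiv ℝ (ψ k) (x - γ t) (-(b - a))) t := by
          have e4 : HasDerivAt (fun s : ℝ => x - γ s) (-(b - a)) t := e2.const_sub x
          exact HasFDerivAt.comp_hasDerivAt t e1 e4
        have e5 : HasDerivAt (fun s : ℝ => φ (s, x)) (fderiv ℝ φ (t, x) (1, 0)) t := by
          have e6 : HasFDerivAt φ (fderiv ℝ φ (t, x)) (t, x) :=
            (hφs.differentiable (by simp) _).hasFDerivAt
          exact e6.comp_hasDerivAt t ((hasDerivAt_id t).prodMk (hasDerivAt_const t x))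
        have e7 : fderiv ℝ θ x = fderiv ℝ (ψ k) (x - γ t) := by
          have : HasFDerivAt θ ((fderiv ℝ (ψ k) (x - γ t)).comp (ContinuousLinearMap.id ℝ (E n))) x :=
            e1.comp x ((hasFDerivAt_id x).sub_const (γ t))
          rw [this.fderiv, ContinuousLinearMap.comp_id]
        rw [e5.unique e3, e7, map_neg]
      have h4 : ∫ x in K, w x * fderiv ℝ φ (t, x) (1, 0) = ∫ x in K, θ x * l x (b - a) := by
        simp only [h3, mul_neg]
        rw [integral_neg, weak_on hKD h hθs hθc
          (hθt.trans (ball_subset_closedBall.trans (hKmem t ht))) (b - a), neg_neg]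
      rw [h4]
      have h5 : ∫ x in K, θ x * l x (b - a) = ∫ x in T, θ x * l x (b - a) := by
        apply setIntegral_eq_of_subset_of_forall_diff_eq_zero hK.measurableSet hTK
        intro x hx
        have : θ x = 0 := by
          apply image_eq_zero_of_notMem_tsupport
          intro h
          exact hx.2 (mem_iUnion₂.mpr ⟨t, ht, hθt h⟩)
        rw [this, zero_mul]
      rw [h5]
      calc ‖∫ x in T, θ x * l x (b - a)‖ ≤ ∫ x in T, dist a b * ‖l x‖ := by
            apply norm_integral_le_of_norm_le (hlT.norm.const_mul _)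
            refine Eventually.of_forall fun x => ?_
            rw [norm_mul, Real.norm_of_nonneg (h01 k _).1]
            calc ψ k (x - γ t) * ‖l x (b - a)‖ ≤ 1 * (‖l x‖ * ‖b - a‖) := by
                  apply mul_le_mul (h01 k _).2 ((l x).le_opNorm _) (norm_nonneg _) zero_le_one
              _ = dist a b * ‖l x‖ := by rw [dist_comm, dist_eq_norm]; ring
        _ = dist a b * I := by rw [hI, integral_const_mul]
    have h6 := norm_image_sub_le_of_norm_deriv_le_segment_01' hder
      (fun t ht => hval t (Ico_subset_Icc_self ht))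
    simpa [hφ, hγ] using h6
  have hlima := tendsto_psi hK hw hψ h01 hlim one_pos (a := a) (by
    rw [div_one]
    have := hKmem 0 (by simp)
    simp only [hγ, AffineMap.lineMap_apply_zero] at this
    exact ball_subset_closedBall.trans this)
  have hlimb := tendsto_psi hK hw hψ h01 hlim one_pos (a := b) (by
    rw [div_one]
    have := hKmem 1 (by simp)
    simp only [hγ, AffineMap.lineMap_apply_one] at this
    exact ball_subset_closedBall.trans this)
  simp only [one_smul, div_one] at hlima hlimb
  have h7 : |(∫ x in ball b r, w x) - (∫ x in ball a r, w x)| ≤ dist a b * I :=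
    le_of_tendsto (hlimb.sub hlima).abs (Eventually.of_forall hmain)
  rw [abs_sub_comm]
  calc ENNReal.ofReal |(∫ x in ball b r, w x) - (∫ x in ball a r, w x)|
      ≤ ENNReal.ofReal (dist a b * I) := ENNReal.ofReal_le_ofReal h7
    _ = ENNReal.ofReal (dist a b) * ENNReal.ofReal I := ENNReal.ofReal_mul dist_nonneg
    _ = ENNReal.ofReal (dist a b) * ∫⁻ x in T, ‖l x‖ₑ := by
        rw [hI, ofReal_integral_norm_eq_lintegral_enorm hlT]
    _ ≤ _ := by gcongr

theorem clm_eq_sum (L : E n →L[ℝ] ℝ) (v : E n) :
    L v = ∑ i, v i * L (EuclideanSpace.single i 1) := by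
  conv_lhs => rw [← (EuclideanSpace.basisFun (Fin n) ℝ).sum_repr v]
  rw [map_sum]
  apply Finset.sum_congr rfl
  intro i _
  rw [map_smul, smul_eq_mul]
  simp

/-- the key estimate for dilations -/
theorem shrink_real {m : ℕ} {D : Set (E (m + 1))} {w : E (m + 1) → ℝ}
    {l : E (m + 1) → (E (m + 1) →L[ℝ] ℝ)}
    (h : WD D w l) {a : E (m + 1)} {r : ℝ} (hr : 0 < r) (hD : closedBall a r ⊆ D) :
    ENNReal.ofReal |2 ^ (m + 1) * (∫ x in ball a (r / 2), w x) - (∫ x in ball a r, w x)|
      ≤ 2 ^ (m + 1) * ENNReal.ofReal r * ∫⁻ x in ball a r, ‖l x‖ₑ := by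
  set K : Set (E (m + 1)) := closedBall a r with hKdef
  have hK : IsCompact K := isCompact_closedBall _ _
  have hw : ContinuousOn w K := h.cont.mono hD
  have hl : IntegrableOn l K := h.int.integrableOn_compact_subset hD hK
  set T : Set (E (m + 1)) := ball a r with hT
  have hTK : T ⊆ K := ball_subset_closedBall
  set I : ℝ := ∫ x in T, ‖l x‖ with hI
  have hlT : IntegrableOn l T := hl.mono_set hTK
  have hI0 : 0 ≤ I := integral_nonneg fun _ => norm_nonneg _
  obtain ⟨ψ, hψ, hψc, hψs, h01, hlim⟩ := exists_psi (n := m + 1) hr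
  have hmain : ∀ k, |(∫ x in K, w x * (2 ^ (m + 1) * ψ k ((2 : ℝ) • (x - a)))) -
      (∫ x in K, w x * (1 ^ (m + 1) * ψ k ((1 : ℝ) • (x - a))))| ≤ 2 ^ m * r * I := by
    intro k
    set φ : ℝ × E (m + 1) → ℝ := fun p => p.1 ^ (m + 1) * ψ k (p.1 • (p.2 - a)) with hφ
    have hφs : ContDiff ℝ ∞ φ := by
      apply (contDiff_fst.pow _).mul
      apply (hψ k).comp
      fun_prop
    have hder : ∀ t ∈ Icc (1 : ℝ) 2, HasDerivWithinAt (fun t => ∫ x in K, w x * φ (t, x))
        (∫ x in K, w x * fderiv ℝ φ (t, x) (1, 0)) (Icc 1 2) t := fun t _ =>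
      (hasDerivAt_int hK hw hφs t).hasDerivWithinAt
    have hval : ∀ t ∈ Icc (1 : ℝ) 2, ‖∫ x in K, w x * fderiv ℝ φ (t, x) (1, 0)‖ ≤
        2 ^ m * r * I := by
      intro t ht
      have ht0 : 0 < t := by linarith [ht.1]
      set θ : Fin (m + 1) → E (m + 1) → ℝ := fun i x => (x - a) i * ψ k (t • (x - a)) with hθ
      have hθs : ∀ i, ContDiff ℝ ∞ (θ i) := by
        intro i
        apply ContDiff.mul
        · have : (fun x : E (m + 1) => (x - a) i) =
            fun x => (EuclideanSpace.proj i : E (m + 1) →L[ℝ] ℝ) (x - a) := rfl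
          rw [this]
          fun_prop
        · exact (hψ k).comp (by fun_prop)
      have hθt : ∀ i, tsupport (θ i) ⊆ T := by
        intro i x hx
        have h0 : tsupport (θ i) ⊆ tsupport (fun x : E (m + 1) => ψ k (t • (x - a))) :=
          tsupport_mul_subset_right
        have h1 : t • (x - a) ∈ tsupport (ψ k) := by
          exact tsupport_comp_subset_preimage (ψ k) (f := fun x : E (m + 1) => t • (x - a))
            (by fun_prop) (h0 hx)
        have h2 := hψs k h1
        rw [mem_ball_zero_iff, norm_smul, Real.norm_of_nonneg ht0.le] at h2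
        rw [hT, mem_ball, dist_eq_norm]
        nlinarith [norm_nonneg (x - a), ht.1]
      have hθc : ∀ i, HasCompactSupport (θ i) := fun i =>
        (hK.of_isClosed_subset (isClosed_tsupport _) ((hθt i).trans hTK))
      have h3 : ∀ x, fderiv ℝ φ (t, x) (1, 0) =
          t ^ m * ∑ i, fderiv ℝ (θ i) x (EuclideanSpace.single i 1) := by
        intro x
        set L := fderiv ℝ (ψ k) (t • (x - a)) with hL
        have e1 : HasFDerivAt (ψ k) L (t • (x - a)) :=
          ((hψ k).differentiable (by simp) _).hasFDerivAt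
        have e3 : HasDerivAt (fun s : ℝ => φ (s, x))
            (((m + 1 : ℕ) : ℝ) * t ^ m * ψ k (t • (x - a)) + t ^ (m + 1) * L (x - a)) t := by
          have e4 : HasDerivAt (fun s : ℝ => s • (x - a)) ((1 : ℝ) • (x - a)) t :=
            (hasDerivAt_id t).smul_const (x - a)
          rw [one_smul] at e4
          have e5 : HasDerivAt (fun s : ℝ => ψ k (s • (x - a))) (L (x - a)) t :=
            HasFDerivAt.comp_hasDerivAt t e1 e4
          exact (hasDerivAt_pow (m + 1) t).mul e5
        have e5 : HasDerivAt (fun s : ℝ => φ (s, x)) (fderiv ℝ φ (t, x) (1, 0)) t := by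
          have e6 : HasFDerivAt φ (fderiv ℝ φ (t, x)) (t, x) :=
            (hφs.differentiable (by simp) _).hasFDerivAt
          exact e6.comp_hasDerivAt t ((hasDerivAt_id t).prodMk (hasDerivAt_const t x))
        have e7 : ∀ i, fderiv ℝ (θ i) x (EuclideanSpace.single i 1) =
            ψ k (t • (x - a)) + t * ((x - a) i * L (EuclideanSpace.single i 1)) := by
          intro i
          have f1 : HasFDerivAt (fun x : E (m + 1) => (x - a) i)
              (EuclideanSpace.proj i : E (m + 1) →L[ℝ] ℝ) x := by
            have f2 := (EuclideanSpace.proj i : E (m + 1) →L[ℝ] ℝ).hasFDerivAt.comp x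
              ((hasFDerivAt_id x).sub_const a)
            rw [ContinuousLinearMap.comp_id] at f2
            exact f2
          have f3 : HasFDerivAt (fun x : E (m + 1) => ψ k (t • (x - a)))
              (L.comp (t • ContinuousLinearMap.id ℝ (E (m + 1)))) x :=
            e1.comp x (((hasFDerivAt_id x).sub_const a).const_smul t)
          have f4 : HasFDerivAt (θ i) _ x := f1.mul f3
          rw [f4.fderiv]
          simp
          ring
        rw [e5.unique e3]
        simp only [e7]
        rw [Finset.sum_add_distrib, ← Finset.mul_sum, ← clm_eq_sum]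
        simp
        ring
      have hint : ∀ i, IntegrableOn
          (fun x => w x * fderiv ℝ (θ i) x (EuclideanSpace.single i 1)) K := by
        intro i
        refine ContinuousOn.integrableOn_compact hK (hw.mul ?_)
        exact (((hθs i).continuous_fderiv (by simp)).clm_apply continuous_const).continuousOn
      have hint2 : ∀ i, IntegrableOn (fun x => θ i x * l x (EuclideanSpace.single i 1)) K := by
        intro i
        have g1 : IntegrableOn (fun x => l x (EuclideanSpace.single i 1)) K :=
          (ContinuousLinearMap.apply ℝ ℝ (EuclideanSpace.single i (1 : ℝ))).integrable_comp hl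
        exact g1.continuousOn_mul (hθs i).continuous.continuousOn hK
      have h4 : ∫ x in K, w x * fderiv ℝ φ (t, x) (1, 0) =
          - (t ^ m * ∫ x in K, ψ k (t • (x - a)) * l x (x - a)) := by
        have g1 : ∀ x, w x * fderiv ℝ φ (t, x) (1, 0) =
            t ^ m * ∑ i, w x * fderiv ℝ (θ i) x (EuclideanSpace.single i 1) := by
          intro x
          rw [h3, ← Finset.mul_sum]
          ring
        have g2 : ∀ x, ψ k (t • (x - a)) * l x (x - a) =
            ∑ i, θ i x * l x (EuclideanSpace.single i 1) := by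
          intro x
          rw [clm_eq_sum (l x) (x - a), Finset.mul_sum]
          apply Finset.sum_congr rfl
          intro i _
          simp only [hθ]
          ring
        simp only [g1, g2]
        rw [integral_const_mul, integral_finset_sum _ (fun i _ => hint i),
          integral_finset_sum _ (fun i _ => hint2 i), ← mul_neg, ← Finset.sum_neg_distrib]
        congr 1
        apply Finset.sum_congr rfl
        intro i _
        exact weak_on hD h (hθs i) (hθc i) ((hθt i).trans hTK) _
      rw [h4]
      have h5 : ∫ x in K, ψ k (t • (x - a)) * l x (x - a) =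
          ∫ x in T, ψ k (t • (x - a)) * l x (x - a) := by
        apply setIntegral_eq_of_subset_of_forall_diff_eq_zero hK.measurableSet hTK
        intro x hx
        have : ψ k (t • (x - a)) = 0 := by
          apply image_eq_zero_of_notMem_tsupport
          intro h
          apply hx.2
          have h2 := hψs k h
          rw [mem_ball_zero_iff, norm_smul, Real.norm_of_nonneg ht0.le] at h2
          rw [hT, mem_ball, dist_eq_norm]
          nlinarith [norm_nonneg (x - a), ht.1]
        rw [this, zero_mul]
      rw [h5, norm_neg, norm_mul, Real.norm_of_nonneg (by positivity : 0 ≤ t ^ m)]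
      have h6 : ‖∫ x in T, ψ k (t • (x - a)) * l x (x - a)‖ ≤ r * I := by
        calc ‖∫ x in T, ψ k (t • (x - a)) * l x (x - a)‖ ≤ ∫ x in T, r * ‖l x‖ := by
              apply norm_integral_le_of_norm_le (hlT.norm.const_mul _)
              refine (ae_restrict_mem measurableSet_ball).mono fun x hx => ?_
              rw [norm_mul, Real.norm_of_nonneg (h01 k _).1]
              have hx' : ‖x - a‖ ≤ r := by
                rw [← dist_eq_norm]
                exact (mem_ball.mp hx).le
              calc ψ k (t • (x - a)) * ‖l x (x - a)‖ ≤ 1 * (‖l x‖ * ‖x - a‖) := by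
                    apply mul_le_mul (h01 k _).2 ((l x).le_opNorm _) (norm_nonneg _) zero_le_one
                _ ≤ 1 * (‖l x‖ * r) := by gcongr
                _ = r * ‖l x‖ := by ring
          _ = r * I := by rw [hI, integral_const_mul]
      calc t ^ m * ‖∫ x in T, ψ k (t • (x - a)) * l x (x - a)‖ ≤ 2 ^ m * (r * I) := by
            apply mul_le_mul (pow_le_pow_left₀ ht0.le ht.2 m) h6 (norm_nonneg _) (by positivity)
        _ = 2 ^ m * r * I := by ring
    have h6 := norm_image_sub_le_of_norm_deriv_le_segment' hder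
      (fun t ht => hval t (Ico_subset_Icc_self ht)) 2 (by norm_num)
    have h7 : (2 : ℝ) - 1 = 1 := by norm_num
    rw [h7, mul_one] at h6
    exact h6
  have hlim1 := tendsto_psi hK hw hψ h01 hlim one_pos (a := a) (by rw [div_one]; exact hTK)
  have hlim2 := (tendsto_psi hK hw hψ h01 hlim two_pos (a := a)
    ((ball_subset_ball (by linarith)).trans hTK)).const_mul (2 ^ (m + 1))
  simp only [one_smul, div_one] at hlim1
  have h7 : |2 ^ (m + 1) * (∫ x in ball a (r / 2), w x) - (∫ x in ball a r, w x)|
      ≤ 2 ^ m * r * I := by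
    refine le_of_tendsto (hlim2.sub hlim1).abs (Eventually.of_forall fun k => ?_)
    refine le_trans (le_of_eq ?_) (hmain k)
    rw [← integral_const_mul]
    congr 2
    · apply integral_congr_ae
      refine Eventually.of_forall fun x => ?_
      simp only
      ring
    · simp
  calc ENNReal.ofReal |2 ^ (m + 1) * (∫ x in ball a (r / 2), w x) - (∫ x in ball a r, w x)|
      ≤ ENNReal.ofReal (2 ^ (m + 1) * r * I) := by
        apply ENNReal.ofReal_le_ofReal (h7.trans _)
        have : (2 : ℝ) ^ m ≤ 2 ^ (m + 1) := pow_le_pow_right₀ (by norm_num) (by omega)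
        gcongr
    _ = 2 ^ (m + 1) * ENNReal.ofReal r * ENNReal.ofReal I := by
        rw [ENNReal.ofReal_mul (by positivity), ENNReal.ofReal_mul (by positivity),
          ENNReal.ofReal_pow (by norm_num), ENNReal.ofReal_ofNat]
    _ = 2 ^ (m + 1) * ENNReal.ofReal r * ∫⁻ x in T, ‖l x‖ₑ := by
        rw [hI, ofReal_integral_norm_eq_lintegral_enorm hlT]

end UGAux

open UGAux in
/-- Weak derivatives give the averaged oscillation bounds. -/
theorem WD.ug {D : Set (E n)} (hD : IsOpen D) {w : E n → ℝ} {l : E n → (E n →L[ℝ] ℝ)}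
    (h : WD D w l) : UG D w (fun x => ‖l x‖ₑ) := by
  refine ⟨h.cont, ?_, ?_⟩
  · intro a b r hr hseg S hS
    have h1 := seg_real h hr hseg hS
    have hvol : volume.real (ball b r) = volume.real (ball a r) := by
      simp only [Measure.real]
      rw [Measure.addHaar_ball_center volume a r, Measure.addHaar_ball_center volume b r]
    have hpos : 0 < volume.real (ball a r) :=
      ENNReal.toReal_pos (measure_ball_pos _ _ hr).ne' measure_ball_lt_top.ne
    have h2 : ENNReal.ofReal |(⨍ x in ball a r, w x) - (⨍ x in ball b r, w x)| *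
        volume (ball a r) = ENNReal.ofReal |(∫ x in ball a r, w x) - (∫ x in ball b r, w x)| := by
      rw [setAverage_eq, setAverage_eq, hvol, ← smul_sub, smul_eq_mul, abs_mul,
        abs_of_pos (inv_pos.mpr hpos),
        ← ENNReal.ofReal_toReal (measure_ball_lt_top (x := a) (r := r) (μ := volume)).ne,
        ← ENNReal.ofReal_mul (by positivity)]
      congr 1
      change _ * volume.real (ball a r) = _
      field_simp
    rw [h2]
    exact h1
  · intro a r hr hball
    rcases Nat.eq_zero_or_pos n with h0 | hpos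
    · subst h0
      have e1 : ball a (r / 2) = ball a r := by
        ext x
        rw [Subsingleton.elim x a]
        simp [hr]
      rw [e1, sub_self, abs_zero, ENNReal.ofReal_zero, zero_mul]
      exact bot_le
    · obtain ⟨m, rfl⟩ : ∃ m, n = m + 1 := ⟨n - 1, by omega⟩
      have h1 := shrink_real h hr hball
      have hpos : 0 < volume.real (ball a r) :=
        ENNReal.toReal_pos (measure_ball_pos _ _ hr).ne' measure_ball_lt_top.ne
      have hvol : volume.real (ball a (r / 2)) = (2 ^ (m + 1))⁻¹ * volume.real (ball a r) := by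
        simp only [Measure.real]
        rw [Measure.addHaar_ball volume a (by positivity : 0 ≤ r / 2),
          Measure.addHaar_ball volume a hr.le, ENNReal.toReal_mul, ENNReal.toReal_mul,
          ENNReal.toReal_ofReal (by positivity), ENNReal.toReal_ofReal (by positivity)]
        simp only [finrank_euclideanSpace, Fintype.card_fin]
        rw [div_pow]
        field_simp
      have h2 : ENNReal.ofReal |(⨍ x in ball a (r / 2), w x) - (⨍ x in ball a r, w x)| *
          volume (ball a r) = ENNReal.ofReal |2 ^ (m + 1) * (∫ x in ball a (r / 2), w x) -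
            (∫ x in ball a r, w x)| := by
        rw [setAverage_eq, setAverage_eq, hvol,
          ← ENNReal.ofReal_toReal (measure_ball_lt_top (x := a) (r := r) (μ := volume)).ne,
          ← ENNReal.ofReal_mul (by positivity)]
        congr 1
        change _ * volume.real (ball a r) = _
        rw [← abs_of_pos hpos, ← abs_mul, abs_of_pos hpos]
        congr 1
        simp only [smul_eq_mul]
        field_simp
      rw [h2]
      exact h1

end Pool.Agent.MP_dd09c0_an
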