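import Pool.Agent.MP_dd09c0_an.Row
import Pool.Agent.MP_dd09c0_an.NullSmooth
import Pool.Agent.MP_dd09c0_an.Moll
import Pool.Agent.MP_dd09c0_an.WDcalc
import Pool.Agent.MP_dd09c0_an.WDug
import Pool.Agent.MP_dd09c0_an.Liminf
import Pool.Agent.MP_dd09c0_an.Trunc

open MeasureTheory Metric Set Filter Topology
open scoped ENNReal NNReal ContDiff RealInnerProductSpace

namespace Pool.Agent.MP_dd09c0_an

variable {n : ℕ}

namespace IdAux

open scoped Manifold

/-- cutoff functions -/
theorem exists_chi {T D : Set (E n)} (hT : IsCompact T) (hD : IsOpen D) (hTD : T ⊆ D) :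
    ∃ χ : E n → ℝ, ContDiff ℝ ∞ χ ∧ HasCompactSupport χ ∧ tsupport χ ⊆ D ∧
      ∀ᶠ x in 𝓝ˢ T, χ x = 1 := by
  obtain ⟨K', hK', h1, h2⟩ := exists_compact_between hT hD hTD
  obtain ⟨f, hf1, hf0, hf⟩ := exists_contMDiffMap_one_nhds_of_subset_interior (n := (⊤ : ℕ∞))
    𝓘(ℝ, E n) hT.isClosed h1
  have hsupp : Function.support f ⊆ K' := fun x hx => by
    by_contra h; exact hx (hf0 x h)
  refine ⟨f, f.contMDiff.contDiff, HasCompactSupport.of_support_subset_isCompact hK' hsupp,
    (closure_minimal hsupp hK'.isClosed).trans h2, hf1⟩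

/-- the test function -/
def uu (ψ : E n → ℝ) (h : E n → ℝ) (f : E n → E n) : E n → ℝ := fun x => ψ x * h (f x)

/-- its weak derivative -/
noncomputable def ll (ψ : E n → ℝ) (h : E n → ℝ) (f : E n → E n) (Df : E n → E n →L[ℝ] E n) :
    E n → (E n →L[ℝ] ℝ) :=
  fun x => h (f x) • fderiv ℝ ψ x + ψ x • (fderiv ℝ h (f x)).comp (Df x)

variable {D : Set (E n)} {f : E n → E n} {Df : E n → E n →L[ℝ] E n} {K : E n → ℝ}
  {ψ h : E n → ℝ}

theorem wd_D (hn : 2 ≤ n) (H : GM n D f Df K) (hψ : ContDiff ℝ ∞ ψ) (hh : ContDiff ℝ ∞ h) :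
    WD D (uu ψ h f) (ll ψ h f Df) := by
  have h1 := H.wd_comp hn (Φ := fun q : E n × E n => ψ q.1 * h q.2)
    ((hψ.comp contDiff_fst).mul (hh.comp contDiff_snd))
  have h2 : (fun x => (fderiv ℝ (fun q : E n × E n => ψ q.1 * h q.2) (x, f x)).comp
      ((ContinuousLinearMap.id ℝ (E n)).prod (Df x))) = ll ψ h f Df := by
    funext x
    have hd1 : HasFDerivAt (fun q : E n × E n => ψ q.1)
        ((fderiv ℝ ψ x).comp (ContinuousLinearMap.fst ℝ (E n) (E n))) (x, f x) := by
      have : HasFDerivAt ψ (fderiv ℝ ψ x) ((x, f x) : E n × E n).1 :=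
        (hψ.differentiable (by norm_num) x).hasFDerivAt
      exact this.comp _ hasFDerivAt_fst
    have hd2 : HasFDerivAt (fun q : E n × E n => h q.2)
        ((fderiv ℝ h (f x)).comp (ContinuousLinearMap.snd ℝ (E n) (E n))) (x, f x) := by
      have : HasFDerivAt h (fderiv ℝ h (f x)) ((x, f x) : E n × E n).2 :=
        (hh.differentiable (by norm_num) (f x)).hasFDerivAt
      exact this.comp _ hasFDerivAt_snd
    have hd3 : HasFDerivAt (fun q : E n × E n => ψ q.1 * h q.2)
        (ψ x • ((fderiv ℝ h (f x)).comp (ContinuousLinearMap.snd ℝ (E n) (E n)))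
          + h (f x) • ((fderiv ℝ ψ x).comp (ContinuousLinearMap.fst ℝ (E n) (E n)))) (x, f x) :=
      hd1.mul hd2
    rw [hd3.fderiv]
    ext v
    simp [ll, add_comm]
  rw [h2] at h1
  exact h1

theorem ll_eq_zero {x : E n} (hx : x ∉ tsupport ψ) : ll ψ h f Df x = 0 := by
  have h1 : fderiv ℝ ψ x = 0 := by
    have := support_fderiv_subset ℝ (f := ψ)
    by_contra hne
    exact hx (this hne)
  have h2 : ψ x = 0 := image_eq_zero_of_notMem_tsupport hx
  simp [ll, h1, h2]

theorem uu_eq_zero {x : E n} (hx : x ∉ tsupport ψ) : uu ψ h f x = 0 := by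
  simp [uu, image_eq_zero_of_notMem_tsupport hx]

theorem measurable_ll (H : GM n D f Df K) (hψ : ContDiff ℝ ∞ ψ) (hh : ContDiff ℝ ∞ h) :
    Measurable (ll ψ h f Df) := by
  have h1 : Measurable (fun x => h (f x) • fderiv ℝ ψ x) :=
    ((hh.continuous.comp H.cont).measurable).smul (hψ.continuous_fderiv (by norm_num)).measurable
  have h2 : Measurable (fun x => (fderiv ℝ h (f x)).comp (Df x)) := by
    have hc : Continuous (fun q : (E n →L[ℝ] ℝ) × (E n →L[ℝ] E n) => q.1.comp q.2) :=
      continuous_fst.clm_comp continuous_snd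
    have h3 : Measurable (fun x => fderiv ℝ h (f x)) :=
      ((hh.continuous_fderiv (by norm_num)).comp H.cont).measurable
    exact hc.measurable.comp (h3.prodMk H.meas)
  exact h1.add (hψ.continuous.measurable.smul h2)

theorem exists_bd (H : GM n D f Df K) (hψ : ContDiff ℝ ∞ ψ) (hψc : HasCompactSupport ψ)
    (hh : ContDiff ℝ ∞ h) : ∃ A B : ℝ, 0 ≤ A ∧ 1 ≤ B ∧
      (∀ x, ‖ll ψ h f Df x‖ ≤ A + B * ‖Df x‖) ∧
      (∀ x, |h (f x)| * ‖fderiv ℝ ψ x‖ ≤ A) ∧
      (∀ x, |ψ x| * ‖fderiv ℝ h (f x)‖ ≤ B) := by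
  have c1 : Continuous (fun x => h (f x) • fderiv ℝ ψ x) :=
    (hh.continuous.comp H.cont).smul (hψ.continuous_fderiv (by norm_num))
  have c2 : Continuous (fun x => ψ x • fderiv ℝ h (f x)) :=
    hψ.continuous.smul ((hh.continuous_fderiv (by norm_num)).comp H.cont)
  have s1 : HasCompactSupport (fun x => h (f x) • fderiv ℝ ψ x) :=
    HasCompactSupport.smul_left (f := fun x => h (f x)) (f' := fderiv ℝ ψ) (hψc.fderiv ℝ)
  have s2 : HasCompactSupport (fun x => ψ x • fderiv ℝ h (f x)) :=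
    HasCompactSupport.smul_right (f := ψ) (f' := fun x => fderiv ℝ h (f x)) hψc
  obtain ⟨A, hA⟩ := c1.bounded_above_of_compact_support s1
  obtain ⟨B, hB⟩ := c2.bounded_above_of_compact_support s2
  have hA0 : 0 ≤ A := (norm_nonneg _).trans (hA 0)
  refine ⟨A, max B 1, hA0, le_max_right _ _, fun x => ?_, fun x => ?_, fun x => ?_⟩
  · have h1 : ll ψ h f Df x = h (f x) • fderiv ℝ ψ x + (ψ x • fderiv ℝ h (f x)).comp (Df x) := by
      simp [ll]
    rw [h1]
    refine (norm_add_le _ _).trans (add_le_add (hA x) ?_)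
    refine (ContinuousLinearMap.opNorm_comp_le _ _).trans ?_
    exact mul_le_mul_of_nonneg_right ((hB x).trans (le_max_left _ _)) (norm_nonneg _)
  · have := hA x
    rwa [norm_smul, Real.norm_eq_abs] at this
  · have := hB x
    rw [norm_smul, Real.norm_eq_abs] at this
    exact this.trans (le_max_left _ _)

theorem integrable_ll (hn : 2 ≤ n) (H : GM n D f Df K) (hψ : ContDiff ℝ ∞ ψ)
    (hψc : HasCompactSupport ψ) (hψD : tsupport ψ ⊆ D) (hh : ContDiff ℝ ∞ h) :
    Integrable (ll ψ h f Df) := by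
  obtain ⟨A, B, hA, hB, hAB, -, -⟩ := exists_bd H hψ hψc hh
  have hT : IsCompact (tsupport ψ) := hψc
  have h2 : IntegrableOn (fun x => A + B * ‖Df x‖) (tsupport ψ) :=
    (integrableOn_const hT.measure_lt_top.ne).add
      (((H.integrableOn_Df hn).mono_set hψD).norm.const_mul B)
  have h3 : Integrable ((tsupport ψ).indicator (fun x => A + B * ‖Df x‖)) :=
    h2.integrable_indicator hT.isClosed.measurableSet
  refine Integrable.mono' h3 (measurable_ll H hψ hh).aestronglyMeasurable
    (Eventually.of_forall fun x => ?_)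
  by_cases hx : x ∈ tsupport ψ
  · rw [indicator_of_mem hx]; exact hAB x
  · rw [indicator_of_notMem hx, ll_eq_zero hx, norm_zero]

theorem wd_univ (hn : 2 ≤ n) (H : GM n D f Df K) (hψ : ContDiff ℝ ∞ ψ)
    (hψc : HasCompactSupport ψ) (hψD : tsupport ψ ⊆ D) (hh : ContDiff ℝ ∞ h) :
    WD univ (uu ψ h f) (ll ψ h f Df) := by
  have hw := wd_D hn H hψ hh
  have hT : IsCompact (tsupport ψ) := hψc
  refine ⟨(hψ.continuous.mul (hh.continuous.comp H.cont)).continuousOn,
    (integrable_ll hn H hψ hψc hψD hh).locallyIntegrable.locallyIntegrableOn _, ?_⟩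
  intro φ hφ hφc _ v
  obtain ⟨χ, hχ, hχc, hχD, hχ1⟩ := exists_chi hT H.isOpen hψD
  have h1 := hw.weak (fun x => χ x * φ x) (hχ.mul hφ) (hχc.mul_right)
    ((tsupport_mul_subset_left).trans hχD) v
  have h2 : (fun x => uu ψ h f x * fderiv ℝ φ x v)
      = fun x => uu ψ h f x * fderiv ℝ (fun x => χ x * φ x) x v := by
    funext x
    by_cases hx : x ∈ tsupport ψ
    · have h3 : (fun x => χ x * φ x) =ᶠ[𝓝 x] φ := by
        have := (eventually_nhdsSet_iff_forall.1 hχ1) x hx
        filter_upwards [this] with y hy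
        rw [hy, one_mul]
      rw [h3.fderiv_eq]
    · rw [uu_eq_zero hx, zero_mul, zero_mul]
  have h4 : (fun x => φ x * ll ψ h f Df x v) = fun x => (χ x * φ x) * ll ψ h f Df x v := by
    funext x
    by_cases hx : x ∈ tsupport ψ
    · have := (eventually_nhdsSet_iff_forall.1 hχ1) x hx
      rw [this.self_of_nhds, one_mul]
    · rw [ll_eq_zero hx]; simp
  rw [h2, h4, h1]

theorem det_nonneg (H : GM n D f Df K) (x : E n) : 0 ≤ (Df x).det := by
  have hK1 := H.one_le x
  have hd := H.dist_le x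
  have : 0 ≤ K x * (Df x).det := le_trans (by positivity) hd
  by_contra hneg
  push Not at hneg
  nlinarith

theorem pow_le_one_add_rpow (hn : 1 ≤ n) {y : ℝ} (hy : 0 ≤ y) :
    y ^ (n - 1) ≤ 1 + y ^ pex n := by
  rcases le_total y 1 with h | h
  · have h1 : y ^ (n - 1) ≤ 1 := pow_le_one₀ hy h
    have h2 : 0 ≤ y ^ pex n := Real.rpow_nonneg hy _
    linarith
  · have h1 : y ^ (n - 1) = y ^ ((n - 1 : ℕ) : ℝ) := (Real.rpow_natCast _ _).symm
    have h2 : y ^ ((n - 1 : ℕ) : ℝ) ≤ y ^ pex n := by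
      refine Real.rpow_le_rpow_of_exponent_le h ?_
      rw [Nat.cast_sub hn, pex]
      push_cast
      linarith
    rw [h1]
    linarith

/-- `‖Df‖^(n-1)` is integrable on subsets of `D`. -/
theorem integrableOn_pow (hn : 2 ≤ n) (H : GM n D f Df K) {S : Set (E n)} (hS : IsCompact S)
    (hSD : S ⊆ D) : IntegrableOn (fun x => ‖Df x‖ ^ (n - 1)) S := by
  have h1 : IntegrableOn (fun x => ‖Df x‖ ^ pex n) S := by
    refine ⟨(H.meas.norm.pow_const _).aestronglyMeasurable, ?_⟩
    have h2 := H.lintegral_Df hn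
    refine lt_of_le_of_lt ?_ h2
    refine (lintegral_mono_set hSD).trans (lintegral_mono fun x => ?_)
    rw [← ofReal_norm, ← ofReal_norm, ENNReal.ofReal_rpow_of_nonneg
      (norm_nonneg _) (by rw [pex]; have : (2 : ℝ) ≤ n := by exact_mod_cast hn
                          linarith), Real.norm_of_nonneg (Real.rpow_nonneg (norm_nonneg _) _)]
  have h3 : IntegrableOn (fun x => 1 + ‖Df x‖ ^ pex n) S :=
    (integrableOn_const hS.measure_lt_top.ne).add h1
  refine Integrable.mono' h3 ((H.meas.norm.pow_const _).aestronglyMeasurable)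
    (Eventually.of_forall fun x => ?_)
  rw [Real.norm_of_nonneg (by positivity)]
  exact pow_le_one_add_rpow (by omega) (norm_nonneg _)

theorem fderiv_eq_zero_off {S : Set (E n)} (hS : IsClosed S) {v : E n → ℝ}
    (hv : ∀ x, x ∉ S → v x = 0) {x : E n} (hx : x ∉ S) : fderiv ℝ v x = 0 := by
  have : v =ᶠ[𝓝 x] fun _ => (0 : ℝ) := by
    filter_upwards [hS.isOpen_compl.mem_nhds hx] with y hy using hv y hy
  rw [this.fderiv_eq]
  simp

theorem measurable_det {l : E n → (E n →L[ℝ] ℝ)} {L : E n → (E n →L[ℝ] E n)} (i : Fin n)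
    (hl : Measurable l) (hL : Measurable L) :
    Measurable (fun x => (rowRepl i (l x) (L x)).det) :=
  (continuous_det_rowRepl i).measurable.comp (hl.prodMk hL)

theorem det_rowRepl_zero (i : Fin n) (L : E n →L[ℝ] E n) : (rowRepl i 0 L).det = 0 := by
  have := det_rowRepl_smul i 0 0 L
  simpa using this

/-- The null Lagrangian identity for a Lipschitz function and the mapping `f`. -/
theorem null_GM (hn : 2 ≤ n) (H : GM n D f Df K) (i : Fin n) {S : Set (E n)} (hS : IsCompact S)
    (hSD : S ⊆ D) {v : E n → ℝ} {C : ℝ≥0} (hv : LipschitzWith C v) (hv0 : ∀ x, x ∉ S → v x = 0) :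
    ∫ x in S, (rowRepl i (fderiv ℝ v x) (Df x)).det = 0 := by
  have hap : ∀ m : ℕ, ∃ F : E n → E n, ContDiff ℝ ∞ F ∧
      ∫⁻ x in S, ‖fderiv ℝ F x - Df x‖ₑ ^ pex n < ENNReal.ofReal ((1 / 2) ^ m) := by
    intro m
    obtain ⟨F, h1, -, h3⟩ := H.approx hn hS hSD (ε := (1 / 2) ^ m) (by positivity)
    exact ⟨F, h1, h3⟩
  choose F hF hFint using hap
  have hp : 0 < pex n := by
    rw [pex]; have : (2 : ℝ) ≤ n := by exact_mod_cast hn
    linarith
  set a : ℕ → E n → ℝ≥0∞ := fun m x => ‖fderiv ℝ (F m) x - Df x‖ₑ ^ pex n with ha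
  have hmF : ∀ m, Measurable (fun x => fderiv ℝ (F m) x) := fun m => measurable_fderiv ℝ _
  have ham : ∀ m, Measurable (a m) := fun m => ((hmF m).sub H.meas).enorm.pow_const _
  have hsum : ∫⁻ x in S, ∑' m, a m x < ⊤ := by
    rw [lintegral_tsum (fun m => (ham m).aemeasurable)]
    refine lt_of_le_of_lt (ENNReal.tsum_le_tsum fun m => (hFint m).le) ?_
    have hs : Summable (fun m : ℕ => ((1 : ℝ) / 2) ^ m) := summable_geometric_two
    rw [← ENNReal.ofReal_tsum_of_nonneg (fun m => by positivity) hs]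
    exact ENNReal.ofReal_lt_top
  have hfin : ∀ᵐ x ∂(volume.restrict S), ∑' m, a m x < ⊤ :=
    ae_lt_top (Measurable.tsum ham) hsum.ne
  obtain ⟨c, hc0, hc⟩ := abs_det_rowRepl_le n
  have hzero : ∀ m, ∫ x in S, (rowRepl i (fderiv ℝ v x) (fderiv ℝ (F m) x)).det = 0 := by
    intro m
    have hcs : HasCompactSupport v := by
      refine HasCompactSupport.of_support_subset_isCompact hS fun x hx => ?_
      by_contra hne; exact hx (hv0 x hne)
    have h1 := null_smooth i hv hcs (hF m)
    rw [← h1]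
    refine setIntegral_eq_integral_of_forall_compl_eq_zero fun x hx => ?_
    rw [fderiv_eq_zero_off hS.isClosed hv0 hx, det_rowRepl_zero]
  have hlim : Tendsto (fun m => ∫ x in S, (rowRepl i (fderiv ℝ v x) (fderiv ℝ (F m) x)).det) atTop
      (𝓝 (∫ x in S, (rowRepl i (fderiv ℝ v x) (Df x)).det)) := by
    refine tendsto_integral_of_dominated_convergence
      (fun x => c * C * (2 ^ (n - 1 - 1) * (‖Df x‖ ^ (n - 1) + (1 + (∑' m, a m x).toReal))))
      (fun m => (measurable_det i (measurable_fderiv ℝ v) (hmF m)).aestronglyMeasurable) ?_ ?_ ?_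
    · have h1 : IntegrableOn (fun x => (∑' m, a m x).toReal) S :=
        integrable_toReal_of_lintegral_ne_top
          (Measurable.tsum ham).aemeasurable hsum.ne
      have h2 : IntegrableOn (fun x => 1 + (∑' m, a m x).toReal) S :=
        (integrableOn_const hS.measure_lt_top.ne).add h1
      have h3 : IntegrableOn (fun x => ‖Df x‖ ^ (n - 1) + (1 + (∑' m, a m x).toReal)) S :=
        (integrableOn_pow hn H hS hSD).add h2
      have h4 : IntegrableOn
          (fun x => 2 ^ (n - 1 - 1) * (‖Df x‖ ^ (n - 1) + (1 + (∑' m, a m x).toReal))) S :=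
        h3.const_mul _
      exact h4.const_mul _
    · intro m
      filter_upwards [hfin] with x hx
      have h1 := hc i (fderiv ℝ v x) (fderiv ℝ (F m) x)
      have h2 : ‖fderiv ℝ v x‖ ≤ C := norm_fderiv_le_of_lipschitz ℝ hv
      have h3 : ‖fderiv ℝ (F m) x‖ ≤ ‖Df x‖ + ‖fderiv ℝ (F m) x - Df x‖ := by
        have := norm_add_le (Df x) (fderiv ℝ (F m) x - Df x)
        rwa [add_sub_cancel] at this
      have h4 : ‖fderiv ℝ (F m) x‖ ^ (n - 1)
          ≤ 2 ^ (n - 1 - 1) * (‖Df x‖ ^ (n - 1) + ‖fderiv ℝ (F m) x - Df x‖ ^ (n - 1)) :=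
        (pow_le_pow_left₀ (norm_nonneg _) h3 _).trans
          (add_pow_le (norm_nonneg _) (norm_nonneg _) _)
      have h5 : ‖fderiv ℝ (F m) x - Df x‖ ^ (n - 1) ≤ 1 + (∑' m, a m x).toReal := by
        refine (pow_le_one_add_rpow (by omega) (norm_nonneg _)).trans ?_
        have h6 : ‖fderiv ℝ (F m) x - Df x‖ ^ pex n = (a m x).toReal := by
          simp only [ha]
          rw [← ENNReal.toReal_rpow, toReal_enorm]
        have h7 : (a m x).toReal ≤ (∑' m, a m x).toReal :=
          ENNReal.toReal_mono hx.ne (ENNReal.le_tsum m)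
        linarith
      rw [Real.norm_eq_abs]
      refine h1.trans ?_
      calc c * ‖fderiv ℝ v x‖ * ‖fderiv ℝ (F m) x‖ ^ (n - 1)
          ≤ c * C * (2 ^ (n - 1 - 1) * (‖Df x‖ ^ (n - 1)
            + ‖fderiv ℝ (F m) x - Df x‖ ^ (n - 1))) := by gcongr
        _ ≤ _ := by gcongr
    · filter_upwards [hfin] with x hx
      have h1 : Tendsto (fun m => a m x) atTop (𝓝 0) :=
        ENNReal.tendsto_atTop_zero_of_tsum_ne_top hx.ne
      have h2 : Tendsto (fun m => (a m x) ^ (1 / pex n)) atTop (𝓝 0) := by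
        have h3 := ((ENNReal.continuous_rpow_const (y := 1 / pex n)).tendsto 0).comp h1
        rw [ENNReal.zero_rpow_of_pos (show 0 < 1 / pex n by positivity)] at h3
        exact h3
      have h3 : (fun m => (a m x) ^ (1 / pex n)) = fun m => ‖fderiv ℝ (F m) x - Df x‖ₑ := by
        funext m
        simp only [ha]
        rw [← ENNReal.rpow_mul, mul_one_div_cancel hp.ne', ENNReal.rpow_one]
      rw [h3] at h2
      have h4 : Tendsto (fun m => fderiv ℝ (F m) x - Df x) atTop (𝓝 0) := by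
        rw [tendsto_zero_iff_norm_tendsto_zero]
        have := (ENNReal.tendsto_toReal (ENNReal.zero_ne_top)).comp h2
        rw [ENNReal.toReal_zero] at this
        refine this.congr fun m => ?_
        simp
      have h5 : Tendsto (fun m => fderiv ℝ (F m) x) atTop (𝓝 (Df x)) := by
        have := h4.add_const (Df x)
        simpa using this
      have h6 : Tendsto (fun m => (fderiv ℝ v x, fderiv ℝ (F m) x)) atTop
          (𝓝 (fderiv ℝ v x, Df x)) := tendsto_const_nhds.prodMk_nhds h5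
      have h7 := (continuous_det_rowRepl i).tendsto (fderiv ℝ v x, Df x)
      have h8 := h7.comp h6
      exact h8
  have : (fun m : ℕ => ∫ x in S, (rowRepl i (fderiv ℝ v x) (fderiv ℝ (F m) x)).det)
      = fun _ => 0 := funext hzero
  rw [this] at hlim
  exact tendsto_nhds_unique hlim tendsto_const_nhds

/-- The dominating function. -/
noncomputable def gg (S : Set (E n)) (Df : E n → E n →L[ℝ] E n) (A B : ℝ) : E n → ℝ :=
  S.indicator (fun x => A + (B + 1) * ‖Df x‖)

theorem gg_nonneg {S : Set (E n)} {A B : ℝ} (hA : 0 ≤ A) (hB : 1 ≤ B) (x : E n) :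
    0 ≤ gg S Df A B x := by
  unfold gg
  refine indicator_nonneg (fun x _ => ?_) x
  positivity

theorem gg_log (hn : 2 ≤ n) (H : GM n D f Df K) {S : Set (E n)} (hS : IsCompact S)
    (hSD : S ⊆ D) {A B : ℝ} (hA : 0 ≤ A) (hB : 1 ≤ B) :
    ∫⁻ x, ENNReal.ofReal (gg S Df A B x ^ n / Real.log (Real.exp 1 + gg S Df A B x)) < ⊤ := by
  have h1 : ∀ x, ENNReal.ofReal (gg S Df A B x ^ n / Real.log (Real.exp 1 + gg S Df A B x))
      ≤ S.indicator (fun x => ENNReal.ofReal (2 ^ (n - 1) * A ^ n)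
        + ENNReal.ofReal (2 ^ (n - 1) * (B + 1) ^ n) * ENNReal.ofReal
          (‖Df x‖ ^ n / Real.log (Real.exp 1 + ‖Df x‖))) x := by
    intro x
    by_cases hx : x ∈ S
    · rw [indicator_of_mem hx]
      have hg : gg S Df A B x = A + (B + 1) * ‖Df x‖ := by unfold gg; rw [indicator_of_mem hx]
      rw [hg, ← ENNReal.ofReal_mul (by positivity), ← ENNReal.ofReal_add (by positivity) (by
        have : 0 ≤ Real.log (Real.exp 1 + ‖Df x‖) := Real.log_nonneg (by
          have := Real.exp_one_gt_d9; have := norm_nonneg (Df x); linarith)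
        positivity)]
      refine ENNReal.ofReal_le_ofReal ?_
      set y := ‖Df x‖ with hy
      have hy0 : 0 ≤ y := norm_nonneg _
      have hlog : 1 ≤ Real.log (Real.exp 1 + y) := by
        rw [Real.le_log_iff_exp_le (by positivity)]; linarith
      have hyB : y ≤ A + (B + 1) * y := by nlinarith
      have hlog2 : Real.log (Real.exp 1 + y) ≤ Real.log (Real.exp 1 + (A + (B + 1) * y)) :=
        Real.log_le_log (by positivity) (by linarith)
      have h2 : (A + (B + 1) * y) ^ n ≤ 2 ^ (n - 1) * (A ^ n + ((B + 1) * y) ^ n) :=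
        add_pow_le hA (by positivity) n
      calc (A + (B + 1) * y) ^ n / Real.log (Real.exp 1 + (A + (B + 1) * y))
          ≤ (2 ^ (n - 1) * (A ^ n + ((B + 1) * y) ^ n)) / Real.log (Real.exp 1 + y) := by
            gcongr
        _ = 2 ^ (n - 1) * A ^ n / Real.log (Real.exp 1 + y)
            + 2 ^ (n - 1) * (B + 1) ^ n * (y ^ n / Real.log (Real.exp 1 + y)) := by
            rw [mul_pow]; ring
        _ ≤ 2 ^ (n - 1) * A ^ n
            + 2 ^ (n - 1) * (B + 1) ^ n * (y ^ n / Real.log (Real.exp 1 + y)) := by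
            gcongr
            exact div_le_self (by positivity) hlog
    · have hg : gg S Df A B x = 0 := by unfold gg; rw [indicator_of_notMem hx]
      rw [hg, indicator_of_notMem hx, zero_pow (by omega)]
      simp
  refine lt_of_le_of_lt (lintegral_mono h1) ?_
  rw [lintegral_indicator hS.isClosed.measurableSet, lintegral_add_left measurable_const,
    lintegral_const_mul' _ _ ENNReal.ofReal_ne_top]
  refine ENNReal.add_lt_top.2 ⟨?_, ENNReal.mul_lt_top ENNReal.ofReal_lt_top ?_⟩
  · rw [setLIntegral_const]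
    exact ENNReal.mul_lt_top ENNReal.ofReal_lt_top hS.measure_lt_top
  · exact lt_of_le_of_lt (lintegral_mono_set hSD) (H.log_int hn)

theorem maxFn_mono {G G' : E n → ℝ≥0∞} (h : ∀ x, G x ≤ G' x) (x : E n) :
    maxFn G x ≤ maxFn G' x := by
  unfold maxFn
  gcongr with r hr
  exact h _

/-- Away from the support the maximal function is bounded. -/
theorem maxFn_off {T : Set (E n)} {d : ℝ} {G : E n → ℝ≥0∞}
    (hG : ∀ x, x ∉ T → G x = 0) {x : E n} (hx : x ∉ cthickening d T) :
    maxFn G x ≤ (∫⁻ z, G z) / volume (ball (0 : E n) d) := by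
  unfold maxFn
  refine iSup₂_le fun r hr => ?_
  rcases le_or_gt r d with h | h
  · have h1 : ∫⁻ z in ball x r, G z = 0 := by
      rw [setLIntegral_eq_zero measurableSet_ball]
      intro z hz
      refine hG z fun hzT => hx ?_
      refine mem_cthickening_of_dist_le x z d T hzT ?_
      rw [dist_comm]
      exact (mem_ball.1 hz).le.trans h
    rw [h1]; simp
  · have h2 : volume (ball (0 : E n) d) ≤ volume (ball x r) := by
      rw [← Measure.addHaar_ball_center volume x d]
      exact measure_mono (ball_subset_ball h.le)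
    exact ENNReal.div_le_div (setLIntegral_le_lintegral _ _) h2

/-- One truncation level. -/
theorem level (hn : 2 ≤ n) (H : GM n D f Df K) (i : Fin n) {S : Set (E n)} (hS : IsCompact S)
    (hSD : S ⊆ D) {u : E n → ℝ} {l : E n → (E n →L[ℝ] ℝ)} (hu : WD univ u l)
    (hlm : Measurable l) (hu0 : ∀ x, x ∉ S → u x = 0) {c C₀ : ℝ}
    (hc : ∀ (i : Fin n) (l : E n →L[ℝ] ℝ)
      (L : E n →L[ℝ] E n), |(rowRepl i l L).det| ≤ c * ‖l‖ * ‖L‖ ^ (n - 1)) (hc0 : 0 < c)
    (hC₀1 : 1 ≤ C₀)
    (hC₀ : ∀ (w : E n → ℝ) (G : E n → ℝ≥0∞),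
      UG univ w G → ∀ (a b : E n) (t : ℝ), 0 ≤ t → maxFn G a ≤ ENNReal.ofReal t →
      maxFn G b ≤ ENNReal.ofReal t → |w a - w b| ≤ C₀ * t * dist a b)
    {g : E n → ℝ} (hg0 : ∀ x, 0 ≤ g x)
    (hlg : ∀ x, ‖l x‖ₑ ≤ ENNReal.ofReal (g x)) (hDg : ∀ x ∈ S, ‖Df x‖ ≤ g x)
    {t ε : ℝ} (ht : 0 < t) (hε : 0 < ε)
    (hoff : ∀ x, x ∉ S → maxFn (fun x => ‖l x‖ₑ) x ≤ ENNReal.ofReal t)
    (hlev : ENNReal.ofReal t * ∫⁻ x in {x | ENNReal.ofReal t < maxFn (fun z =>
      ENNReal.ofReal (g z)) x}, ENNReal.ofReal (g x) ^ (n - 1) ≤ ENNReal.ofReal ε) :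
    |∫ x in S ∩ {x | maxFn (fun x => ‖l x‖ₑ) x ≤ ENNReal.ofReal t},
      (rowRepl i (l x) (Df x)).det| ≤ c * C₀ * ε := by
  set F : Set (E n) := {x | maxFn (fun x => ‖l x‖ₑ) x ≤ ENNReal.ofReal t} with hF
  have hGm : Measurable (fun x => ‖l x‖ₑ) := hlm.enorm
  have hFm : MeasurableSet F := measurableSet_le (measurable_maxFn hGm) measurable_const
  have hug := hu.ug isOpen_univ
  have hCt : 0 ≤ C₀ * t := by positivity
  have hlip : LipschitzOnWith (C₀ * t).toNNReal u F := by
    refine LipschitzOnWith.of_dist_le_mul fun x hx y hy => ?_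
    rw [Real.dist_eq, Real.coe_toNNReal _ hCt]
    exact hC₀ u _ hug x y t ht.le hx hy
  obtain ⟨v, hv, hvu⟩ := hlip.extend_real
  have hv0 : ∀ x, x ∉ S → v x = 0 := fun x hx => by
    rw [← hvu (hoff x hx), hu0 x hx]
  have h0 := null_GM hn H i hS hSD hv hv0
  -- the derivatives agree
  have hwd : WD univ (fun x => u x - v x) (fun x => l x - fderiv ℝ v x) :=
    hu.sub isOpen_univ (WD.of_lipschitz hv)
  have hae := hwd.ae_eq_zero isOpen_univ
  rw [Measure.restrict_univ] at hae
  have hvb : ∀ x, ‖fderiv ℝ v x‖ ≤ C₀ * t := fun x => by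
    have := norm_fderiv_le_of_lipschitz ℝ hv (x₀ := x)
    rwa [Real.coe_toNNReal _ hCt] at this
  have hvint : IntegrableOn (fun x => (rowRepl i (fderiv ℝ v x) (Df x)).det) S := by
    have h1 : IntegrableOn (fun x => c * (C₀ * t) * ‖Df x‖ ^ (n - 1)) S :=
      (integrableOn_pow hn H hS hSD).const_mul _
    refine Integrable.mono' h1
      (measurable_det i (measurable_fderiv ℝ v) H.meas).aestronglyMeasurable
      (Eventually.of_forall fun x => ?_)
    rw [Real.norm_eq_abs]
    refine (hc i _ _).trans ?_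
    gcongr
    exact hvb x
  have hsplit : ∫ x in S, (rowRepl i (fderiv ℝ v x) (Df x)).det
      = (∫ x in S ∩ F, (rowRepl i (fderiv ℝ v x) (Df x)).det)
        + ∫ x in S \ F, (rowRepl i (fderiv ℝ v x) (Df x)).det :=
    (integral_inter_add_sdiff hFm hvint).symm
  have heq : ∫ x in S ∩ F, (rowRepl i (fderiv ℝ v x) (Df x)).det
      = ∫ x in S ∩ F, (rowRepl i (l x) (Df x)).det := by
    refine setIntegral_congr_ae (hS.isClosed.measurableSet.inter hFm) ?_
    filter_upwards [hae] with x hx hxF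
    have h1 : u x - v x = 0 := by rw [hvu hxF.2, sub_self]
    have h2 : l x = fderiv ℝ v x := sub_eq_zero.1 (hx h1)
    rw [h2]
  have hsmall : |∫ x in S \ F, (rowRepl i (fderiv ℝ v x) (Df x)).det| ≤ c * C₀ * ε := by
    have h1 : ENNReal.ofReal |∫ x in S \ F, (rowRepl i (fderiv ℝ v x) (Df x)).det|
        ≤ ENNReal.ofReal (c * C₀ * ε) := by
      rw [← Real.norm_eq_abs, ofReal_norm]
      refine (enorm_integral_le_lintegral_enorm _).trans ?_
      calc ∫⁻ x in S \ F, ‖(rowRepl i (fderiv ℝ v x) (Df x)).det‖ₑ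
          ≤ ∫⁻ x in S \ F, ENNReal.ofReal (c * C₀ * t) * ENNReal.ofReal (g x) ^ (n - 1) := by
            refine setLIntegral_mono' (hS.isClosed.measurableSet.diff hFm) fun x hx => ?_
            rw [← ofReal_norm, ← ENNReal.ofReal_pow (hg0 x), ← ENNReal.ofReal_mul (by positivity)]
            refine ENNReal.ofReal_le_ofReal ?_
            rw [Real.norm_eq_abs]
            refine (hc i _ _).trans ?_
            have h3 := hvb x
            have h4 := hDg x hx.1
            calc c * ‖fderiv ℝ v x‖ * ‖Df x‖ ^ (n - 1) ≤ c * (C₀ * t) * g x ^ (n - 1) := by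
                  gcongr
              _ = _ := by ring
        _ = ENNReal.ofReal (c * C₀ * t) * ∫⁻ x in S \ F, ENNReal.ofReal (g x) ^ (n - 1) := by
            rw [lintegral_const_mul' _ _ ENNReal.ofReal_ne_top]
        _ ≤ ENNReal.ofReal (c * C₀ * t) * ∫⁻ x in {x | ENNReal.ofReal t < maxFn (fun z =>
              ENNReal.ofReal (g z)) x}, ENNReal.ofReal (g x) ^ (n - 1) := by
            gcongr
            intro x hx
            have h5 : ¬ maxFn (fun x => ‖l x‖ₑ) x ≤ ENNReal.ofReal t := hx.2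
            exact lt_of_lt_of_le (not_le.1 h5) (maxFn_mono hlg x)
        _ = ENNReal.ofReal (c * C₀) * (ENNReal.ofReal t * ∫⁻ x in {x | ENNReal.ofReal t < maxFn
              (fun z => ENNReal.ofReal (g z)) x}, ENNReal.ofReal (g x) ^ (n - 1)) := by
            rw [ENNReal.ofReal_mul (by positivity), mul_assoc]
        _ ≤ ENNReal.ofReal (c * C₀) * ENNReal.ofReal ε := by gcongr
        _ = _ := by rw [← ENNReal.ofReal_mul (by positivity)]
    exact (ENNReal.ofReal_le_ofReal_iff (by positivity)).1 h1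
  rw [hsplit, heq] at h0
  have h6 : ∫ x in S ∩ F, (rowRepl i (l x) (Df x)).det
      = - ∫ x in S \ F, (rowRepl i (fderiv ℝ v x) (Df x)).det := by linarith
  rw [h6, abs_neg]
  exact hsmall

/-- The maximal function of an integrable function is finite almost everywhere. -/
theorem maxFn_ae_lt (hn : 1 ≤ n) {G : E n → ℝ≥0∞} (hG : Measurable G) (hfin : ∫⁻ x, G x ≠ ⊤) :
    ∀ᵐ x, maxFn G x < ⊤ := by
  obtain ⟨C, hC, hw⟩ := maxFn_weak n hn
  have h1 : ∀ t : ℝ, 0 < t → volume {x : E n | ¬ maxFn G x < ⊤}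
      ≤ ENNReal.ofReal (C / t) * ∫⁻ x, G x := by
    intro t ht
    refine (measure_mono fun x hx => ?_).trans ((hw G hG t ht).trans ?_)
    · have : maxFn G x = ⊤ := by simpa using hx
      simp [this]
    · exact mul_le_mul_right (setLIntegral_le_lintegral _ _) _
  rw [ae_iff]
  have h2 : Tendsto (fun t : ℝ => ENNReal.ofReal (C / t) * ∫⁻ x, G x) atTop (𝓝 0) := by
    have h3 : Tendsto (fun t : ℝ => ENNReal.ofReal (C / t)) atTop (𝓝 0) := by
      have := ENNReal.tendsto_ofReal (tendsto_const_nhds (x := C).div_atTop tendsto_id)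
      simpa using this
    have := ENNReal.Tendsto.mul_const h3 (Or.inr hfin)
    simpa using this
  exact le_antisymm (ge_of_tendsto h2 ((eventually_gt_atTop 0).mono fun t ht => h1 t ht))
    bot_le

end IdAux

open IdAux

/-- The pointwise Jacobian is the distributional Jacobian. -/
theorem GM.identity (hn : 2 ≤ n) {D : Set (E n)} {f : E n → E n} {Df : E n → E n →L[ℝ] E n}
    {K : E n → ℝ} (H : GM n D f Df K) (i : Fin n) {ψ : E n → ℝ} (hψ : ContDiff ℝ ∞ ψ)
    (hψc : HasCompactSupport ψ) (hψD : tsupport ψ ⊆ D) {h : E n → ℝ} (hh : ContDiff ℝ ∞ h) :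
    ∫ x, ψ x * (fderiv ℝ h (f x) (EuclideanSpace.single i 1)) * (Df x).det
      = - ∫ x, h (f x) * (rowRepl i (fderiv ℝ ψ x) (Df x)).det := by
  have hT : IsCompact (tsupport ψ) := hψc
  obtain ⟨d, hd, hdD⟩ := hT.exists_cthickening_subset_open H.isOpen hψD
  set S := cthickening d (tsupport ψ) with hSdef
  have hS : IsCompact S := hT.cthickening
  have hTS : tsupport ψ ⊆ S := self_subset_cthickening _
  obtain ⟨A, B, hA, hB, hAB, hb1, hb2⟩ := exists_bd H hψ hψc hh
  obtain ⟨c, hc0, hc⟩ := abs_det_rowRepl_le n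
  obtain ⟨C₀, hC₀1, hC₀⟩ := lip_of_maxFn n (by omega)
  set l := ll ψ h f Df with hl
  have hlm : Measurable l := measurable_ll H hψ hh
  have hli : Integrable l := integrable_ll hn H hψ hψc hψD hh
  have hu : WD univ (uu ψ h f) l := wd_univ hn H hψ hψc hψD hh
  set g := gg S Df A B with hg
  have hg0 : ∀ x, 0 ≤ g x := gg_nonneg hA hB
  have hgm : Measurable g := by
    refine Measurable.indicator ?_ hS.isClosed.measurableSet
    exact measurable_const.add (H.meas.norm.const_mul _)
  have hgS : ∀ x ∈ S, g x = A + (B + 1) * ‖Df x‖ := fun x hx => by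
    rw [hg]; unfold gg; rw [indicator_of_mem hx]
  have hlg : ∀ x, ‖l x‖ₑ ≤ ENNReal.ofReal (g x) := by
    intro x
    by_cases hx : x ∈ tsupport ψ
    · rw [hgS x (hTS hx), ← ofReal_norm]
      refine ENNReal.ofReal_le_ofReal ((hAB x).trans ?_)
      have := norm_nonneg (Df x)
      nlinarith
    · have : l x = 0 := ll_eq_zero hx
      rw [this, ← ofReal_norm, norm_zero, ENNReal.ofReal_zero]
      exact bot_le
  have hDg : ∀ x ∈ S, ‖Df x‖ ≤ g x := by
    intro x hx
    rw [hgS x hx]
    have := norm_nonneg (Df x)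
    nlinarith
  obtain ⟨R, hR⟩ := hS.isBounded.subset_closedBall (0 : E n)
  have hgR : ∀ x, R < ‖x‖ → g x = 0 := by
    intro x hx
    rw [hg]; unfold gg
    refine indicator_of_notMem (fun hxS => ?_) _
    have := hR hxS
    rw [mem_closedBall, dist_zero_right] at this
    linarith
  have hglog := gg_log hn H hS hdD hA hB
  -- the integrand
  have hrow : ∀ x, (rowRepl i (l x) (Df x)).det = h (f x) * (rowRepl i (fderiv ℝ ψ x) (Df x)).det
      + ψ x * (fderiv ℝ h (f x) (EuclideanSpace.single i 1)) * (Df x).det := by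
    intro x
    rw [hl, ll, det_rowRepl_add, det_rowRepl_smul, det_rowRepl_smul, det_rowRepl_comp]
    ring
  have hi1 : Integrable (fun x => h (f x) * (rowRepl i (fderiv ℝ ψ x) (Df x)).det) := by
    have h1 : IntegrableOn (fun x => c * A * ‖Df x‖ ^ (n - 1)) S :=
      (integrableOn_pow hn H hS hdD).const_mul _
    refine Integrable.mono' (h1.integrable_indicator hS.isClosed.measurableSet) ?_
      (Eventually.of_forall fun x => ?_)
    · exact ((hh.continuous.comp H.cont).measurable.mul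
        (measurable_det i (hψ.continuous_fderiv (by norm_num)).measurable
          H.meas)).aestronglyMeasurable
    · by_cases hx : x ∈ tsupport ψ
      · rw [indicator_of_mem (hTS hx), norm_mul, Real.norm_eq_abs, Real.norm_eq_abs]
        calc |h (f x)| * |(rowRepl i (fderiv ℝ ψ x) (Df x)).det|
            ≤ |h (f x)| * (c * ‖fderiv ℝ ψ x‖ * ‖Df x‖ ^ (n - 1)) := by
              gcongr; exact hc i _ _
          _ = c * (|h (f x)| * ‖fderiv ℝ ψ x‖) * ‖Df x‖ ^ (n - 1) := by ring
          _ ≤ c * A * ‖Df x‖ ^ (n - 1) := by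
              gcongr; exact hb1 x
      · have h2 : fderiv ℝ ψ x = 0 :=
          fderiv_eq_zero_off (isClosed_tsupport ψ)
            (fun y hy => image_eq_zero_of_notMem_tsupport hy) hx
        rw [h2, det_rowRepl_zero, mul_zero, norm_zero]
        refine indicator_nonneg (fun y _ => ?_) x
        positivity
  have hi2 : Integrable (fun x => ψ x * (fderiv ℝ h (f x) (EuclideanSpace.single i 1))
      * (Df x).det) := by
    have h1 : IntegrableOn (fun x => B * (Df x).det) S := (H.intJ.mono_set hdD).const_mul _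
    refine Integrable.mono' (h1.integrable_indicator hS.isClosed.measurableSet) ?_
      (Eventually.of_forall fun x => ?_)
    · have h3 : Measurable (fun x => fderiv ℝ h (f x) (EuclideanSpace.single i (1 : ℝ))) :=
        (((hh.continuous_fderiv (by norm_num)).comp H.cont).clm_apply
          continuous_const).measurable
      exact ((hψ.continuous.measurable.mul h3).mul
        (ContinuousLinearMap.continuous_det.measurable.comp H.meas)).aestronglyMeasurable
    · by_cases hx : x ∈ tsupport ψ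
      · rw [indicator_of_mem (hTS hx), norm_mul, norm_mul, Real.norm_eq_abs, Real.norm_eq_abs,
          Real.norm_eq_abs, abs_of_nonneg (det_nonneg H x)]
        have h4 : |fderiv ℝ h (f x) (EuclideanSpace.single i 1)| ≤ ‖fderiv ℝ h (f x)‖ := by
          have := (fderiv ℝ h (f x)).le_opNorm (EuclideanSpace.single i (1 : ℝ))
          rwa [Real.norm_eq_abs, PiLp.norm_single, norm_one, mul_one] at this
        have h5 := det_nonneg H x
        calc |ψ x| * |fderiv ℝ h (f x) (EuclideanSpace.single i 1)| * (Df x).det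
            ≤ |ψ x| * ‖fderiv ℝ h (f x)‖ * (Df x).det := by gcongr
          _ ≤ B * (Df x).det := by
              gcongr; exact hb2 x
      · rw [image_eq_zero_of_notMem_tsupport hx, zero_mul, zero_mul, norm_zero]
        refine indicator_nonneg (fun y _ => ?_) x
        have := det_nonneg H y
        positivity
  have hi : Integrable (fun x => (rowRepl i (l x) (Df x)).det) := by
    simp_rw [hrow]; exact hi1.add hi2
  -- levels
  set M0 : ℝ≥0∞ := (∫⁻ z, ‖l z‖ₑ) / volume (ball (0 : E n) d) with hM0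
  have hlfin : ∫⁻ z, ‖l z‖ₑ ≠ ⊤ := hli.2.ne
  have hM0top : M0 ≠ ⊤ := ENNReal.div_ne_top hlfin (TruncAux.vol_ball_pos n hd)
  have hoff : ∀ x, x ∉ S → maxFn (fun x => ‖l x‖ₑ) x ≤ M0 := by
    intro x hx
    refine maxFn_off (T := tsupport ψ) (fun y hy => ?_) hx
    have : l y = 0 := ll_eq_zero hy
    rw [this, ← ofReal_norm, norm_zero, ENNReal.ofReal_zero]
  have hlevels : ∀ k : ℕ, ∃ t : ℝ, (k : ℝ) ≤ t ∧
      |∫ x in S ∩ {x | maxFn (fun x => ‖l x‖ₑ) x ≤ ENNReal.ofReal t},
        (rowRepl i (l x) (Df x)).det| ≤ c * C₀ * (1 / (k + 1)) := by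
    intro k
    obtain ⟨t, ht0, ht, hlev⟩ := liminf_level n hn hgm hg0 hgR hglog
      (ε := 1 / (k + 1)) (by positivity) (max k M0.toReal)
    refine ⟨t, (le_max_left _ _).trans ht0, ?_⟩
    refine level hn H i hS hdD hu hlm (fun x hx => uu_eq_zero (fun h => hx (hTS h))) hc hc0
      hC₀1 hC₀ hg0 hlg hDg ht (by positivity) (fun x hx => (hoff x hx).trans ?_) hlev
    rw [← ENNReal.ofReal_toReal hM0top]
    exact ENNReal.ofReal_le_ofReal ((le_max_right _ _).trans ht0)
  choose t htk hlt using hlevels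
  have hGm : Measurable (fun x => ‖l x‖ₑ) := hlm.enorm
  have hmax := maxFn_ae_lt (by omega) hGm hlfin
  have hlim : Tendsto (fun k => ∫ x in S ∩ {x | maxFn (fun x => ‖l x‖ₑ) x
      ≤ ENNReal.ofReal (t k)}, (rowRepl i (l x) (Df x)).det) atTop
      (𝓝 (∫ x in S, (rowRepl i (l x) (Df x)).det)) := by
    have hFm : ∀ k, MeasurableSet {x | maxFn (fun x => ‖l x‖ₑ) x ≤ ENNReal.ofReal (t k)} :=
      fun k => measurableSet_le (measurable_maxFn hGm) measurable_const
    have h1 : ∀ k, ∫ x in S ∩ {x | maxFn (fun x => ‖l x‖ₑ) x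
      ≤ ENNReal.ofReal (t k)}, (rowRepl i (l x) (Df x)).det
        = ∫ x in S, {x | maxFn (fun x => ‖l x‖ₑ) x ≤ ENNReal.ofReal (t k)}.indicator
          (fun x => (rowRepl i (l x) (Df x)).det) x := by
      intro k
      rw [setIntegral_indicator (hFm k)]
    simp_rw [h1]
    refine tendsto_integral_of_dominated_convergence
      (fun x => |(rowRepl i (l x) (Df x)).det|) (fun k => ?_) hi.integrableOn.abs
      (fun k => Eventually.of_forall fun x => ?_) ?_
    · exact (hi.integrableOn.aestronglyMeasurable).indicator (hFm k)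
    · rw [Real.norm_eq_abs]
      by_cases hx : x ∈ {x | maxFn (fun x => ‖l x‖ₑ) x ≤ ENNReal.ofReal (t k)}
      · rw [indicator_of_mem hx]
      · rw [indicator_of_notMem hx, abs_zero]; exact abs_nonneg _
    · filter_upwards [ae_restrict_of_ae hmax] with x hx
      refine tendsto_const_nhds.congr' ?_
      obtain ⟨k0, hk0⟩ := exists_nat_ge (maxFn (fun x => ‖l x‖ₑ) x).toReal
      filter_upwards [eventually_ge_atTop k0] with k hk
      rw [indicator_of_mem]
      rw [Set.mem_ofPred_eq]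
      rw [← ENNReal.ofReal_toReal hx.ne]
      refine ENNReal.ofReal_le_ofReal (hk0.trans ?_)
      have : (k0 : ℝ) ≤ k := by exact_mod_cast hk
      exact this.trans (htk k)
  have hzero : ∫ x in S, (rowRepl i (l x) (Df x)).det = 0 := by
    have h1 : Tendsto (fun k : ℕ => c * C₀ * (1 / ((k : ℝ) + 1))) atTop (𝓝 0) := by
      have := tendsto_one_div_add_atTop_nhds_zero_nat (𝕜 := ℝ)
      simpa using this.const_mul (c * C₀)
    have h2 := squeeze_zero_norm (fun k => by rw [Real.norm_eq_abs]; exact hlt k) h1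
    exact tendsto_nhds_unique hlim h2
  have hall : ∫ x, (rowRepl i (l x) (Df x)).det = 0 := by
    rw [← hzero]
    refine (setIntegral_eq_integral_of_forall_compl_eq_zero fun x hx => ?_).symm
    have : l x = 0 := ll_eq_zero (fun h => hx (hTS h))
    rw [this, det_rowRepl_zero]
  simp_rw [hrow] at hall
  rw [integral_add hi1 hi2] at hall
  linarith

end Pool.Agent.MP_dd09c0_an
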