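import Pool.Agent.MP_dd09c0_an.Defs

/-!
# Replacing one row of a linear map: determinants
-/

open MeasureTheory Metric Set Filter Topology
open scoped ENNReal NNReal ContDiff RealInnerProductSpace

namespace Pool.Agent.MP_dd09c0_an

variable {n : ℕ}

theorem rowRepl_apply (i : Fin n) (l : E n →L[ℝ] ℝ) (L : E n →L[ℝ] E n) (v : E n) (j : Fin n) :
    (rowRepl i l L v) j = if j = i then l v else (L v) j := by
  unfold rowRepl
  by_cases hj : j = i
  · subst hj
    simp
  · simp [hj]

namespace RowAux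

/-- The matrix of an operator in the standard basis. -/
noncomputable def mat (L : E n →L[ℝ] E n) : Matrix (Fin n) (Fin n) ℝ :=
  Matrix.of fun j k => (L (EuclideanSpace.single k 1)) j

theorem det_eq (L : E n →L[ℝ] E n) : L.det = (mat L).det := by
  have h := LinearMap.det_toMatrix (EuclideanSpace.basisFun (Fin n) ℝ).toBasis
    (L : E n →ₗ[ℝ] E n)
  rw [ContinuousLinearMap.det, ← h]
  congr 1

theorem det_rowRepl (i : Fin n) (l : E n →L[ℝ] ℝ) (L : E n →L[ℝ] E n) :
    (rowRepl i l L).det
      = ((mat L).updateRow i (fun k => l (EuclideanSpace.single k 1))).det := by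
  rw [det_eq]
  congr 1
  ext j k
  rw [mat, Matrix.of_apply, rowRepl_apply, Matrix.updateRow_apply]
  rfl

end RowAux

theorem det_rowRepl_eq_sum (i : Fin n) (l : E n →L[ℝ] ℝ) (L : E n →L[ℝ] E n) :
    (rowRepl i l L).det = ∑ σ : Equiv.Perm (Fin n), ((Equiv.Perm.sign σ : ℤ) : ℝ) *
      (l (EuclideanSpace.single (σ i) 1) *
        ∏ j ∈ Finset.univ.erase i, (L (EuclideanSpace.single (σ j) 1)) j) := by
  rw [RowAux.det_eq, ← Matrix.det_transpose, Matrix.det_apply]
  apply Finset.sum_congr rfl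
  intro σ _
  have h1 : ∀ j, (RowAux.mat (rowRepl i l L)).transpose (σ j) j
      = if j = i then l (EuclideanSpace.single (σ j) 1)
        else (L (EuclideanSpace.single (σ j) 1)) j := by
    intro j
    rw [Matrix.transpose_apply, RowAux.mat, Matrix.of_apply, rowRepl_apply]
  simp only [h1]
  rw [← Finset.mul_prod_erase Finset.univ _ (Finset.mem_univ i)]
  rw [if_pos rfl]
  have h2 : ∏ j ∈ Finset.univ.erase i, (if j = i then l (EuclideanSpace.single (σ j) 1)
        else (L (EuclideanSpace.single (σ j) 1)) j)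
      = ∏ j ∈ Finset.univ.erase i, (L (EuclideanSpace.single (σ j) 1)) j := by
    apply Finset.prod_congr rfl
    intro j hj
    rw [if_neg (Finset.ne_of_mem_erase hj)]
  rw [h2, Units.smul_def, zsmul_eq_mul]

theorem det_rowRepl_add (i : Fin n) (l l' : E n →L[ℝ] ℝ) (L : E n →L[ℝ] E n) :
    (rowRepl i (l + l') L).det = (rowRepl i l L).det + (rowRepl i l' L).det := by
  rw [RowAux.det_rowRepl, RowAux.det_rowRepl, RowAux.det_rowRepl, ← Matrix.det_updateRow_add]
  rfl

theorem det_rowRepl_smul (i : Fin n) (c : ℝ) (l : E n →L[ℝ] ℝ) (L : E n →L[ℝ] E n) :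
    (rowRepl i (c • l) L).det = c * (rowRepl i l L).det := by
  rw [RowAux.det_rowRepl, RowAux.det_rowRepl, ← Matrix.det_updateRow_smul]
  rfl

theorem det_rowRepl_comp (i : Fin n) (a : E n →L[ℝ] ℝ) (L : E n →L[ℝ] E n) :
    (rowRepl i (a.comp L) L).det = a (EuclideanSpace.single i 1) * L.det := by
  rw [RowAux.det_rowRepl, RowAux.det_eq]
  have h1 : ∀ v : E n, a v = ∑ m, a (EuclideanSpace.single m 1) * v m := by
    intro v
    have hv : v = ∑ m, v m • (EuclideanSpace.single m (1:ℝ) : E n) := by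
      ext j
      simp [Finset.sum_apply, Pi.single_apply]
    conv_lhs => rw [hv]
    simp [map_sum, mul_comm]
  have h2 : (fun k => (a.comp L) (EuclideanSpace.single k 1))
      = ∑ m, a (EuclideanSpace.single m 1) • (RowAux.mat L) m := by
    funext k
    simp only [ContinuousLinearMap.comp_apply, Finset.sum_apply, Pi.smul_apply, smul_eq_mul]
    rw [h1]
    rfl
  rw [h2, Matrix.det_updateRow_sum, smul_eq_mul]

theorem abs_det_rowRepl_le (n : ℕ) : ∃ C : ℝ, 0 < C ∧ ∀ (i : Fin n) (l : E n →L[ℝ] ℝ)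
    (L : E n →L[ℝ] E n), |(rowRepl i l L).det| ≤ C * ‖l‖ * ‖L‖ ^ (n - 1) := by
  refine ⟨Fintype.card (Equiv.Perm (Fin n)), by exact_mod_cast Fintype.card_pos, ?_⟩
  intro i l L
  rw [det_rowRepl_eq_sum]
  refine (Finset.abs_sum_le_sum_abs _ _).trans ?_
  have hterm : ∀ σ ∈ (Finset.univ : Finset (Equiv.Perm (Fin n))),
      |((Equiv.Perm.sign σ : ℤ) : ℝ) * (l (EuclideanSpace.single (σ i) 1) *
        ∏ j ∈ Finset.univ.erase i, (L (EuclideanSpace.single (σ j) 1)) j)|
        ≤ ‖l‖ * ‖L‖ ^ (n - 1) := by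
    intro σ _
    have hs : |((Equiv.Perm.sign σ : ℤ) : ℝ)| = 1 := by
      rcases Int.units_eq_one_or (Equiv.Perm.sign σ) with h | h <;> simp [h]
    rw [abs_mul, hs, one_mul, abs_mul, Finset.abs_prod]
    have hn : ∀ k : Fin n, ‖(EuclideanSpace.single k (1:ℝ) : E n)‖ = 1 := by intro k; simp
    have h1 : |l (EuclideanSpace.single (σ i) 1)| ≤ ‖l‖ := by
      have := l.le_opNorm (EuclideanSpace.single (σ i) 1)
      rwa [hn, mul_one] at this
    have h2 : ∏ j ∈ Finset.univ.erase i, |(L (EuclideanSpace.single (σ j) 1)) j|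
        ≤ ∏ j ∈ Finset.univ.erase i, ‖L‖ := by
      apply Finset.prod_le_prod (fun _ _ => abs_nonneg _)
      intro j _
      have h3 := L.le_opNorm (EuclideanSpace.single (σ j) 1)
      rw [hn, mul_one] at h3
      exact (PiLp.norm_apply_le (L (EuclideanSpace.single (σ j) 1)) j).trans h3
    rw [Finset.prod_const, Finset.card_erase_of_mem (Finset.mem_univ i), Finset.card_univ,
      Fintype.card_fin] at h2
    exact mul_le_mul h1 h2 (Finset.prod_nonneg fun _ _ => abs_nonneg _) (norm_nonneg _)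
  refine (Finset.sum_le_sum hterm).trans ?_
  rw [Finset.sum_const, Finset.card_univ, nsmul_eq_mul, mul_assoc]

theorem continuous_det_rowRepl (i : Fin n) :
    Continuous (fun q : (E n →L[ℝ] ℝ) × (E n →L[ℝ] E n) => (rowRepl i q.1 q.2).det) := by
  simp only [det_rowRepl_eq_sum]
  apply continuous_finsetSum
  intro σ _
  apply Continuous.mul continuous_const
  apply Continuous.mul (continuous_fst.clm_apply continuous_const)
  apply continuous_finsetProd
  intro j _
  exact (EuclideanSpace.proj j : E n →L[ℝ] ℝ).continuous.comp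
    (continuous_snd.clm_apply continuous_const)

end Pool.Agent.MP_dd09c0_an
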