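import Pool.Agent.MP_dd09c0_an.Energy
import Pool.Agent.MP_dd09c0_an.Row
import Pool.Agent.MP_dd09c0_an.Cutoff
import Pool.Agent.MP_dd09c0_an.Identity

/-!
# The Caccioppoli inequality
-/

open MeasureTheory Metric Set Filter Topology
open scoped ENNReal NNReal ContDiff RealInnerProductSpace

namespace Pool.Agent.MP_dd09c0_an

variable {n : ℕ}

theorem cacc (n : ℕ) (hn : 2 ≤ n) : ∃ C : ℝ, 1 ≤ C ∧ ∀ (D : Set (E n)) (f : E n → E n)
    (Df : E n → E n →L[ℝ] E n) (K : E n → ℝ), GM n D f Df K → ∀ (x : E n) (r R M : ℝ), 0 < r →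
    r < R → closedBall x R ⊆ D → (∀ z ∈ ball x R, dist (f z) (f x) ≤ M) →
    ∫⁻ z in ball x r, ENNReal.ofReal (Df z).det ≤ ENNReal.ofReal (C * (M / (R - r)) ^ n) *
      ∫⁻ z in ball x R, ENNReal.ofReal (K z) ^ (n - 1) := by
  obtain ⟨C1, hC1, row⟩ := abs_det_rowRepl_le n
  obtain ⟨C2, hC2, cut⟩ := exists_cutoff n
  refine ⟨max 1 ((C1 * n * (2 * C2)) ^ n), le_max_left _ _, ?_⟩
  intro D f Df K H x r R M hr hrR hRD hM
  have hn0 : (2 : ℝ) ≤ n := by exact_mod_cast hn
  have hn1 : n ≠ 0 := by omega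
  have hRr : 0 < R - r := sub_pos.2 hrR
  have hM0 : 0 ≤ M := dist_nonneg.trans (hM x (mem_ball_self (by linarith)))
  have hJ : ∀ z, 0 ≤ (Df z).det := by
    intro z
    have h1 := H.dist_le z
    have h2 := H.one_le z
    have h3 : 0 ≤ ‖Df z‖ ^ n := by positivity
    by_contra hcon
    push Not at hcon
    nlinarith
  have hdet : Measurable (fun x => (Df x).det) :=
    ContinuousLinearMap.continuous_det.measurable.comp H.meas
  obtain ⟨Φ, hΦs, hΦ01, hΦ1, hΦ0, hΦd⟩ := cut x r ((r + R) / 2) hr (by linarith)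
  set b := (r + R) / 2 with hb
  have hbr : b - r = (R - r) / 2 := by rw [hb]; ring
  have hbR : b < R := by rw [hb]; linarith
  set ψ : E n → ℝ := fun z => Φ z ^ n with hψdef
  have hψ : ContDiff ℝ ∞ ψ := hΦs.pow n
  have hψs : tsupport ψ ⊆ closedBall x b := by
    apply closure_minimal _ isClosed_closedBall
    intro z hz
    by_contra hcon
    rw [mem_closedBall, not_le] at hcon
    apply hz
    simp only [hψdef]
    rw [hΦ0 z hcon.le, zero_pow hn1]
  have hψc : HasCompactSupport ψ :=
    HasCompactSupport.of_support_subset_isCompact (isCompact_closedBall x b)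
      ((subset_tsupport ψ).trans hψs)
  have hψD : tsupport ψ ⊆ D := hψs.trans ((closedBall_subset_closedBall hbR.le).trans hRD)
  set i : Fin n := ⟨0, by omega⟩ with hi
  set h : E n → ℝ := fun y => y i - f x i with hh
  have hh' : h = fun y => (EuclideanSpace.proj i : E n →L[ℝ] ℝ) y - f x i := rfl
  have hhs : ContDiff ℝ ∞ h := by
    rw [hh']
    exact (EuclideanSpace.proj i : E n →L[ℝ] ℝ).contDiff.sub contDiff_const
  have hd : ∀ y, fderiv ℝ h y (EuclideanSpace.single i 1) = 1 := by
    intro y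
    rw [hh', fderiv_sub_const, ContinuousLinearMap.fderiv]
    simp
  have ident := H.identity hn i hψ hψc hψD hhs
  simp only [hd, mul_one] at ident
  -- the derivative of `ψ`
  have hψd : ∀ z, ‖fderiv ℝ ψ z‖ ≤ n * Φ z ^ (n - 1) * (2 * C2 / (R - r)) := by
    intro z
    have h1 : HasFDerivAt ψ (((n : ℝ) * Φ z ^ (n - 1)) • fderiv ℝ Φ z) z := by
      have := ((hΦs.differentiable (by simp)).differentiableAt (x := z)).hasFDerivAt.pow n
      simpa [hψdef, nsmul_eq_mul, mul_smul] using this
    rw [h1.fderiv, norm_smul, Real.norm_of_nonneg (by have := (hΦ01 z).1; positivity)]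
    have h2 := hΦd z
    rw [hbr, show C2 / ((R - r) / 2) = 2 * C2 / (R - r) by field_simp] at h2
    have := (hΦ01 z).1
    gcongr
  have hψd0 : ∀ z, z ∉ ball x R → fderiv ℝ ψ z = 0 := by
    intro z hz
    by_contra hcon
    have h1 : z ∈ tsupport ψ := support_fderiv_subset ℝ hcon
    have h2 := hψs h1
    rw [mem_closedBall] at h2
    rw [mem_ball] at hz
    linarith
  set A : ℝ := C1 * n * (2 * C2) * (M / (R - r)) with hA
  have hA0 : 0 ≤ A := by positivity
  have hT : ∀ z, ‖h (f z) * (rowRepl i (fderiv ℝ ψ z) (Df z)).det‖ₑ ≤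
      (ball x R).indicator (fun z => ENNReal.ofReal A *
        ((ENNReal.ofReal (Φ z) ^ n * ENNReal.ofReal (Df z).det) ^ (1 - 1 / n : ℝ) *
        (ENNReal.ofReal (K z) ^ (n - 1)) ^ (1 / n : ℝ))) z := by
    intro z
    by_cases hz : z ∈ ball x R
    · rw [indicator_of_mem hz]
      have h1 : |h (f z)| ≤ M := by
        refine le_trans ?_ (hM z hz)
        rw [dist_eq_norm]
        have := PiLp.norm_apply_le (f z - f x) i
        simpa [hh] using this
      have h2 := row i (fderiv ℝ ψ z) (Df z)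
      have hΦz := (hΦ01 z).1
      have h3 : ‖h (f z) * (rowRepl i (fderiv ℝ ψ z) (Df z)).det‖ ≤
          A * (Φ z * ‖Df z‖) ^ (n - 1) := by
        rw [norm_mul, Real.norm_eq_abs, Real.norm_eq_abs]
        have h4 : |(rowRepl i (fderiv ℝ ψ z) (Df z)).det| ≤
            C1 * (n * Φ z ^ (n - 1) * (2 * C2 / (R - r))) * ‖Df z‖ ^ (n - 1) := by
          refine h2.trans ?_
          gcongr
          exact hψd z
        have h5 := mul_le_mul h1 h4 (abs_nonneg _) hM0
        refine h5.trans (le_of_eq ?_)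
        rw [hA, mul_pow]
        field_simp
      have h6 : ENNReal.ofReal (A * (Φ z * ‖Df z‖) ^ (n - 1)) =
          ENNReal.ofReal A * (ENNReal.ofReal (Φ z) * ‖Df z‖ₑ) ^ (n - 1) := by
        rw [ENNReal.ofReal_mul hA0, ENNReal.ofReal_pow (by positivity), ENNReal.ofReal_mul hΦz,
          ofReal_norm]
      rw [← ofReal_norm]
      refine (ENNReal.ofReal_le_ofReal h3).trans ?_
      rw [h6]
      gcongr
      exact EnergyAux.pointwise' hn H _ z
    · rw [indicator_of_notMem hz]
      have h2 := row i (fderiv ℝ ψ z) (Df z)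
      rw [hψd0 z hz, norm_zero, mul_zero, zero_mul] at h2
      have h3 : (rowRepl i (fderiv ℝ ψ z) (Df z)).det = 0 := by
        rw [hψd0 z hz]; exact abs_nonpos_iff.1 h2
      rw [h3, mul_zero, enorm_zero]
  -- integrability
  have hint : Integrable (fun z => ψ z * (Df z).det) := by
    have h1 : IntegrableOn (fun z => ψ z * (Df z).det) D := by
      refine Integrable.bdd_mul (c := 1) H.intJ hψ.continuous.aestronglyMeasurable ?_
      refine Filter.Eventually.of_forall fun z => ?_
      have := hΦ01 z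
      simp only [hψdef]
      rw [Real.norm_of_nonneg (by have := this.1; positivity)]
      exact pow_le_one₀ this.1 this.2
    refine (integrableOn_iff_integrable_of_support_subset ?_).1 h1
    intro z hz
    apply hψD
    apply subset_tsupport
    intro hcon
    apply hz
    simp only
    rw [hcon, zero_mul]
  have hnn : ∀ z, 0 ≤ ψ z * (Df z).det := fun z =>
    mul_nonneg (by have := (hΦ01 z).1; simp only [hψdef]; positivity) (hJ z)
  set I : ℝ≥0∞ := ∫⁻ z in ball x R, ENNReal.ofReal (Φ z) ^ n * ENNReal.ofReal (Df z).det with hI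
  have hIle : I ≤ ∫⁻ z, ENNReal.ofReal (ψ z * (Df z).det) := by
    rw [hI]
    refine (setLIntegral_le_lintegral _ _).trans (le_of_eq ?_)
    refine lintegral_congr fun z => ?_
    have := (hΦ01 z).1
    rw [ENNReal.ofReal_mul (by simp only [hψdef]; positivity), ENNReal.ofReal_pow this]
  have hIfin : I ≠ ⊤ := by
    refine ne_top_of_le_ne_top ?_ hIle
    rw [← ofReal_integral_eq_lintegral_ofReal hint (Filter.Eventually.of_forall hnn)]
    exact ENNReal.ofReal_ne_top
  have hmain : I ≤ ENNReal.ofReal A * (I ^ (1 - 1 / n : ℝ) *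
      (∫⁻ z in ball x R, ENNReal.ofReal (K z) ^ (n - 1)) ^ (1 / n : ℝ)) := by
    calc I ≤ ∫⁻ z, ENNReal.ofReal (ψ z * (Df z).det) := hIle
      _ = ENNReal.ofReal (∫ z, ψ z * (Df z).det) :=
          (ofReal_integral_eq_lintegral_ofReal hint (Filter.Eventually.of_forall hnn)).symm
      _ = ENNReal.ofReal (-∫ z, h (f z) * (rowRepl i (fderiv ℝ ψ z) (Df z)).det) := by
          rw [ident]
      _ ≤ ENNReal.ofReal ‖∫ z, h (f z) * (rowRepl i (fderiv ℝ ψ z) (Df z)).det‖ := by
          apply ENNReal.ofReal_le_ofReal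
          rw [← norm_neg]
          exact Real.le_norm_self _
      _ = ‖∫ z, h (f z) * (rowRepl i (fderiv ℝ ψ z) (Df z)).det‖ₑ := ofReal_norm _
      _ ≤ ∫⁻ z, ‖h (f z) * (rowRepl i (fderiv ℝ ψ z) (Df z)).det‖ₑ :=
          enorm_integral_le_lintegral_enorm _
      _ ≤ ∫⁻ z, (ball x R).indicator (fun z => ENNReal.ofReal A *
        ((ENNReal.ofReal (Φ z) ^ n * ENNReal.ofReal (Df z).det) ^ (1 - 1 / n : ℝ) *
        (ENNReal.ofReal (K z) ^ (n - 1)) ^ (1 / n : ℝ))) z := lintegral_mono hT
      _ = ENNReal.ofReal A * ∫⁻ z in ball x R,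
        ((ENNReal.ofReal (Φ z) ^ n * ENNReal.ofReal (Df z).det) ^ (1 - 1 / n : ℝ) *
        (ENNReal.ofReal (K z) ^ (n - 1)) ^ (1 / n : ℝ)) := by
          rw [lintegral_indicator measurableSet_ball, lintegral_const_mul' _ _ ENNReal.ofReal_ne_top]
      _ ≤ _ := by
          gcongr
          apply ENNReal.lintegral_mul_norm_pow_le
          · exact (((hΦs.continuous.measurable.ennreal_ofReal).pow_const n).mul
              hdet.ennreal_ofReal).aemeasurable
          · exact ((H.measK.ennreal_ofReal).pow_const _).aemeasurable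
          · have : (1 : ℝ) / n ≤ 1 := by
              rw [div_le_one (by linarith)]; linarith
            linarith
          · positivity
          · ring
  have hfin := EnergyAux.solve (by omega : 1 ≤ n) hIfin hmain
  calc ∫⁻ z in ball x r, ENNReal.ofReal (Df z).det
      ≤ ∫⁻ z in ball x r, ENNReal.ofReal (Φ z) ^ n * ENNReal.ofReal (Df z).det := by
        refine setLIntegral_mono' measurableSet_ball fun z hz => ?_
        rw [hΦ1 z (ball_subset_closedBall hz)]
        simp
    _ ≤ I := lintegral_mono_set (ball_subset_ball hrR.le)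
    _ ≤ _ := hfin
    _ ≤ _ := by
        gcongr
        rw [← ENNReal.ofReal_pow hA0]
        apply ENNReal.ofReal_le_ofReal
        rw [hA, mul_pow]
        gcongr
        exact le_max_right _ _

end Pool.Agent.MP_dd09c0_an
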