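import Pool.Agent.MP_dd09c0_an.Defs

/-!
# MP_dd09c0_an, module K: capacity estimates
-/

open MeasureTheory Metric Set Filter Topology
open scoped ENNReal NNReal ContDiff RealInnerProductSpace

namespace Pool.Agent.MP_dd09c0_an

variable {n : ℕ}

namespace Cap

/-- volume of the unit ball -/
noncomputable def wn (n : ℕ) : ℝ := (volume (ball (0 : E n) 1)).toReal

theorem wn_pos (n : ℕ) : 0 < wn n :=
  ENNReal.toReal_pos (measure_ball_pos _ _ one_pos).ne' measure_ball_lt_top.ne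

theorem volume_ball_eq (x : E n) {r : ℝ} (hr : 0 < r) :
    volume (ball x r) = ENNReal.ofReal (wn n * r ^ n) := by
  rw [Measure.addHaar_ball_of_pos volume x hr, finrank_euclideanSpace_fin, wn, mul_comm,
    ENNReal.ofReal_mul ENNReal.toReal_nonneg, ENNReal.ofReal_toReal measure_ball_lt_top.ne]

theorem pex_gt (hn : 2 ≤ n) : 1 < pex n := by
  have : (2 : ℝ) ≤ n := by exact_mod_cast hn
  rw [pex]; linarith

/-- Hoelder -/
theorem holder (hn : 2 ≤ n) {G : E n → ℝ≥0∞} (hG : Measurable G) (S : Set (E n)) {A V : ℝ}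
    (hA : 0 ≤ A) (hV : 0 < V) (h1 : ENNReal.ofReal A ≤ ∫⁻ x in S, G x)
    (h2 : volume S ≤ ENNReal.ofReal V) :
    ENNReal.ofReal (A ^ pex n / V ^ (pex n - 1)) ≤ ∫⁻ x in S, G x ^ pex n := by
  have hp := pex_gt hn
  set p := pex n with hpdef
  have hp0 : 0 < p := by linarith
  by_cases htop : ∫⁻ x in S, G x ^ p = ⊤
  · rw [htop]; exact le_top
  have hpq : p.HolderConjugate (p / (p - 1)) := Real.HolderConjugate.conjExponent hp
  set g1 : E n → ℝ≥0∞ := fun _ => 1 with hg1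
  have h3 := ENNReal.lintegral_mul_le_Lp_mul_Lq (volume.restrict S) hpq hG.aemeasurable
    (g := g1) aemeasurable_const
  have h4 : ENNReal.ofReal A ≤ (∫⁻ x in S, G x ^ p) ^ (1 / p) *
      (ENNReal.ofReal V) ^ (1 / (p / (p - 1))) := by
    refine h1.trans ?_
    have e : G * g1 = G := by
      funext x; simp [hg1]
    rw [e] at h3
    refine h3.trans ?_
    have e' : ∫⁻ a in S, g1 a ^ (p / (p - 1)) = volume S := by
      simp [hg1]
    rw [e']
    have : 0 < p - 1 := by linarith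
    gcongr
  set I := (∫⁻ x in S, G x ^ p).toReal with hI
  have hI0 : 0 ≤ I := ENNReal.toReal_nonneg
  have e1 : ∫⁻ x in S, G x ^ p = ENNReal.ofReal I := (ENNReal.ofReal_toReal htop).symm
  rw [e1] at h4 ⊢
  rw [ENNReal.ofReal_rpow_of_nonneg hI0 (by positivity),
    ENNReal.ofReal_rpow_of_nonneg hV.le (by
      have : 0 < p - 1 := by linarith
      positivity), ← ENNReal.ofReal_mul (by positivity),
    ENNReal.ofReal_le_ofReal_iff (by positivity)] at h4
  apply ENNReal.ofReal_le_ofReal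
  rw [div_le_iff₀ (by positivity)]
  have hp1 : 0 < p - 1 := by linarith
  calc A ^ p ≤ (I ^ (1 / p) * V ^ (1 / (p / (p - 1)))) ^ p :=
        Real.rpow_le_rpow hA h4 hp0.le
    _ = I * V ^ (p - 1) := by
        rw [Real.mul_rpow (by positivity) (by positivity), ← Real.rpow_mul hI0,
          ← Real.rpow_mul hV.le]
        congr 1
        · rw [one_div, inv_mul_cancel₀ hp0.ne', Real.rpow_one]
        · congr 1
          field_simp

/-- averages of continuous functions -/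
theorem avg_mem {w : E n → ℝ} {x : E n} {r a b : ℝ} (hr : 0 < r)
    (hw : ContinuousOn w (closedBall x r)) (h : ∀ z ∈ ball x r, w z ∈ Icc a b) :
    (⨍ z in ball x r, w z) ∈ Icc a b := by
  refine (convex_Icc a b).set_average_mem isClosed_Icc (measure_ball_pos _ _ hr).ne'
    measure_ball_lt_top.ne ?_ ?_
  · exact (ae_restrict_mem measurableSet_ball).mono fun z hz => h z hz
  · exact (hw.integrableOn_compact (isCompact_closedBall x r)).mono_set ball_subset_closedBall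

theorem tendsto_avg {D : Set (E n)} {w : E n → ℝ} (hw : ContinuousOn w D) {x : E n} {ρ : ℝ}
    (hρ : 0 < ρ) (hD : closedBall x ρ ⊆ D) :
    Tendsto (fun j : ℕ => ⨍ z in ball x (ρ * (1 / 2) ^ j), w z) atTop (𝓝 (w x)) := by
  have hwx : ContinuousAt w x :=
    hw.continuousAt (mem_of_superset (closedBall_mem_nhds x hρ) hD)
  rw [Metric.tendsto_atTop]
  intro ε hε
  obtain ⟨δ, hδ, hδ'⟩ := Metric.continuousAt_iff.1 hwx (ε / 2) (half_pos hε)
  have ht : Tendsto (fun j : ℕ => ρ * (1 / 2 : ℝ) ^ j) atTop (𝓝 0) := by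
    have := (tendsto_pow_atTop_nhds_zero_of_lt_one (r := (1 / 2 : ℝ)) (by norm_num)
      (by norm_num)).const_mul ρ
    simpa using this
  obtain ⟨N, hN⟩ := (ht.eventually (gt_mem_nhds hδ)).exists_forall_of_atTop
  refine ⟨N, fun j hj => ?_⟩
  have hr : 0 < ρ * (1 / 2 : ℝ) ^ j := by positivity
  have hle : ρ * (1 / 2 : ℝ) ^ j ≤ ρ := by
    have : (1 / 2 : ℝ) ^ j ≤ 1 := pow_le_one₀ (by norm_num) (by norm_num)
    nlinarith
  have h1 : (⨍ z in ball x (ρ * (1 / 2) ^ j), w z) ∈ Icc (w x - ε / 2) (w x + ε / 2) := by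
    refine avg_mem hr (hw.mono ((closedBall_subset_closedBall hle).trans hD)) fun z hz => ?_
    have h2 := hδ' (lt_trans (mem_ball.1 hz) (hN j hj))
    rw [Real.dist_eq, abs_lt] at h2
    constructor <;> linarith
  rw [Real.dist_eq, abs_lt]
  constructor <;> linarith [h1.1, h1.2]

/-- the contraction factor -/
noncomputable def th (n : ℕ) : ℝ := (1 / 2) ^ (1 / (2 * pex n))

theorem th_pos : 0 < th n := by
  rw [th]; positivity

theorem th_lt (hn : 2 ≤ n) : th n < 1 := by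
  have := pex_gt hn
  exact Real.rpow_lt_one (by norm_num) (by norm_num) (by positivity)

/-- the energy threshold -/
noncomputable def c0 (n : ℕ) : ℝ := wn n * (((1 - th n) / 8) / 2 ^ n) ^ pex n

theorem c0_pos (hn : 2 ≤ n) : 0 < c0 n := by
  have h1 := wn_pos n
  have h2 : 0 < 1 - th n := by linarith [th_lt hn]
  rw [c0]; positivity

theorem scale_identity (hn : 2 ≤ n) {ρ w q r : ℝ} (hρ : 0 < ρ) (hw : 0 < w) (hq : 0 < q) {j : ℕ}
    (hr : r = ρ * (1 / 2 : ℝ) ^ j) :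
    w * (q / 2 ^ n) ^ pex n * ρ ^ (-(1 / 2) : ℝ) * r * (w * r ^ n) ^ (pex n - 1) =
      (q * th n ^ j) ^ pex n * ((w * r ^ n) / (2 ^ n * r)) ^ pex n := by
  have hp := pex_gt hn
  have hp0 : 0 < pex n := by linarith
  have hth := th_pos (n := n)
  have hr0 : 0 < r := by rw [hr]; positivity
  have hX : 0 < w * r ^ n := by positivity
  have e1 : (th n ^ j) ^ pex n = ((1 / 2 : ℝ) ^ j) ^ (1 / 2 : ℝ) := by
    rw [← Real.rpow_natCast (th n) j, ← Real.rpow_mul hth.le, th,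
      ← Real.rpow_mul (by norm_num), ← Real.rpow_natCast (1 / 2 : ℝ) j,
      ← Real.rpow_mul (by norm_num)]
    congr 1
    field_simp
  have e2 : (w * r ^ n) ^ (pex n - 1) * (w * r ^ n) = (w * r ^ n) ^ pex n := by
    rw [← Real.rpow_add_one hX.ne']; congr 1; ring
  have e3 : r ^ pex n * r ^ (1 / 2 : ℝ) = r ^ n := by
    rw [← Real.rpow_add hr0, pex, ← Real.rpow_natCast]; congr 1; ring
  have e4 : r ^ (1 / 2 : ℝ) = ρ ^ (1 / 2 : ℝ) * ((1 / 2 : ℝ) ^ j) ^ (1 / 2 : ℝ) := by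
    rw [hr, Real.mul_rpow hρ.le (by positivity)]
  have e5 : ((1 / 2 : ℝ) ^ j) ^ (1 / 2 : ℝ) * ((1 / 2 : ℝ) ^ j) ^ (1 / 2 : ℝ) = (1 / 2 : ℝ) ^ j := by
    rw [← Real.rpow_add (by positivity)]; norm_num
  have e6 : ρ ^ (-(1 / 2) : ℝ) * ρ = ρ ^ (1 / 2 : ℝ) := by
    rw [← Real.rpow_add_one hρ.ne']; congr 1; norm_num
  rw [Real.div_rpow hq.le (by positivity), Real.mul_rpow hq.le (by positivity),
    Real.div_rpow hX.le (by positivity), Real.mul_rpow (x := (2 : ℝ) ^ n) (by positivity) hr0.le, e1, ← e2]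
  have hr1 : 0 < r ^ pex n := by positivity
  have h2 : (0 : ℝ) < (2 ^ n) ^ pex n := by positivity
  obtain ⟨Y, hY⟩ : ∃ Y, Y = (w * r ^ n) ^ (pex n - 1) := ⟨_, rfl⟩
  obtain ⟨R, hR⟩ : ∃ R, R = r ^ pex n := ⟨_, rfl⟩
  obtain ⟨T, hT⟩ : ∃ T : ℝ, T = (2 ^ n) ^ pex n := ⟨_, rfl⟩
  obtain ⟨h, hh⟩ : ∃ h, h = ((1 / 2 : ℝ) ^ j) ^ (1 / 2 : ℝ) := ⟨_, rfl⟩
  rw [← hY, ← e3, e4, ← hR, ← hT, ← hh]
  rw [← hR] at hr1
  rw [← hT] at h2
  rw [← hh] at e5
  rw [hr, ← e5, ← e6]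
  field_simp

/-- Some ball around `x` carries a lot of energy. -/
theorem exists_scale (hn : 2 ≤ n) {D : Set (E n)} {w : E n → ℝ} {G : E n → ℝ≥0∞}
    (H : UG D w G) (hG : Measurable G) {x : E n} {ρ : ℝ} (hρ : 0 < ρ) (hD : closedBall x ρ ⊆ D)
    (hx : 1 / 4 ≤ |w x - ⨍ z in ball x ρ, w z|) :
    ∃ r, 0 < r ∧ r ≤ ρ ∧
      ENNReal.ofReal (c0 n * ρ ^ (-(1 / 2) : ℝ) * r) ≤ ∫⁻ z in ball x r, G z ^ pex n := by
  by_contra hcon
  push Not at hcon
  have hp := pex_gt hn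
  have hp0 : 0 < pex n := by linarith
  have hthp := th_pos (n := n)
  have hthl := th_lt hn
  have hw := wn_pos n
  set q0 := (1 - th n) / 8 with hq0
  have hq0p : 0 < q0 := by
    have : 0 < 1 - th n := by linarith
    positivity
  have hstep : ∀ j : ℕ, dist (⨍ z in ball x (ρ * (1 / 2) ^ j), w z)
      (⨍ z in ball x (ρ * (1 / 2) ^ (j + 1)), w z) ≤ q0 * th n ^ j := by
    intro j
    obtain ⟨r, hr⟩ : ∃ r, r = ρ * (1 / 2 : ℝ) ^ j := ⟨_, rfl⟩
    have hr0 : 0 < r := by rw [hr]; positivity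
    have hle : r ≤ ρ := by
      have : (1 / 2 : ℝ) ^ j ≤ 1 := pow_le_one₀ (by norm_num) (by norm_num)
      rw [hr]; nlinarith
    have e : ρ * (1 / 2 : ℝ) ^ (j + 1) = r / 2 := by rw [hr, pow_succ]; ring
    rw [e, ← hr, dist_comm, Real.dist_eq]
    set Δ := |(⨍ z in ball x (r / 2), w z) - (⨍ z in ball x r, w z)| with hΔ
    have hΔ0 : 0 ≤ Δ := abs_nonneg _
    have h1 := H.shrink x r hr0 ((closedBall_subset_closedBall hle).trans hD)
    rw [volume_ball_eq x hr0, ← ENNReal.ofReal_mul (abs_nonneg _)] at h1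
    have hA : ENNReal.ofReal (Δ * (wn n * r ^ n) / (2 ^ n * r)) ≤ ∫⁻ z in ball x r, G z := by
      have e2 : (2 : ℝ≥0∞) ^ n * ENNReal.ofReal r = ENNReal.ofReal (2 ^ n * r) := by
        rw [ENNReal.ofReal_mul (by positivity), ENNReal.ofReal_pow (by norm_num),
          ENNReal.ofReal_ofNat]
      rw [e2] at h1
      rw [ENNReal.ofReal_div_of_pos (by positivity)]
      rw [mul_comm] at h1
      refine ENNReal.div_le_of_le_mul' ?_
      rw [mul_comm] at h1
      exact h1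
    have h2 := holder hn hG (ball x r) (A := Δ * (wn n * r ^ n) / (2 ^ n * r))
      (V := wn n * r ^ n) (by positivity) (by positivity) hA (volume_ball_eq x hr0).le
    have h3 := h2.trans_lt (hcon r hr0 hle)
    rw [ENNReal.ofReal_lt_ofReal_iff_of_nonneg (by positivity)] at h3
    -- extract the bound on Δ
    have h4 : Δ ^ pex n ≤ (q0 * th n ^ j) ^ pex n := by
      rw [div_lt_iff₀ (by positivity)] at h3
      have e3 : Δ * (wn n * r ^ n) / (2 ^ n * r) = Δ * ((wn n * r ^ n) / (2 ^ n * r)) := by ring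
      rw [e3, Real.mul_rpow hΔ0 (by positivity)] at h3
      have hB : 0 < ((wn n * r ^ n) / (2 ^ n * r)) ^ pex n := by positivity
      have h5 : Δ ^ pex n ≤ (c0 n * ρ ^ (-(1 / 2) : ℝ) * r * (wn n * r ^ n) ^ (pex n - 1)) /
          ((wn n * r ^ n) / (2 ^ n * r)) ^ pex n := by
        rw [le_div_iff₀ hB]; exact h3.le
      refine h5.trans (le_of_eq ?_)
      rw [div_eq_iff hB.ne', c0, ← hq0]
      exact scale_identity hn hρ hw hq0p hr
    exact (Real.rpow_le_rpow_iff hΔ0 (by positivity) hp0).1 h4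
  have hlim := tendsto_avg H.cont hρ hD
  have h1 := dist_le_of_le_geometric_of_tendsto₀ (th n) q0 hthl hstep hlim
  have e0 : ρ * (1 / 2 : ℝ) ^ 0 = ρ := by simp
  rw [e0, dist_comm, Real.dist_eq] at h1
  have h2 : q0 / (1 - th n) = 1 / 8 := by
    have : 1 - th n ≠ 0 := by linarith
    rw [hq0]; field_simp
  rw [h2] at h1
  linarith

end Cap

open Cap

theorem cap_star (n : ℕ) (hn : 2 ≤ n) : ∃ c : ℝ, 0 < c ∧ ∀ (D : Set (E n)) (w : E n → ℝ)
    (G : E n → ℝ≥0∞), UG D w G → Measurable G → ∀ (F : Set (E n)) (ρ : ℝ), 0 < ρ →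
    (∀ x ∈ F, closedBall x ρ ⊆ D) → (∀ x ∈ F, 1 / 4 ≤ |w x - ⨍ z in ball x ρ, w z|) →
    ∀ π : E n → ℝ, LipschitzWith 1 π → ∀ S : Set (E n), (∀ x ∈ F, ball x ρ ⊆ S) →
    ENNReal.ofReal (c * ρ ^ (-(1 / 2) : ℝ)) * volume (π '' F) ≤ ∫⁻ x in S, G x ^ pex n := by
  have hc0 := c0_pos hn
  refine ⟨c0 n / 10, by positivity, ?_⟩
  intro D w G H hG F ρ hρ hFD hF π hπ S hS
  have hex : ∀ x ∈ F, ∃ r, 0 < r ∧ r ≤ ρ ∧
      ENNReal.ofReal (c0 n * ρ ^ (-(1 / 2) : ℝ) * r) ≤ ∫⁻ z in ball x r, G z ^ pex n :=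
    fun x hx => exists_scale hn H hG hρ (hFD x hx) (hF x hx)
  choose! rad hr0 hrρ hrE using hex
  obtain ⟨u, huF, hdisj, hcov⟩ := Vitali.exists_disjoint_subfamily_covering_enlargement_closedBall
    F (fun x => x) rad ρ hrρ 5 (by norm_num)
  have hdisj' : u.PairwiseDisjoint fun x => ball x (rad x) := by
    intro a ha b hb hab
    exact (hdisj ha hb hab).mono ball_subset_closedBall ball_subset_closedBall
  have hcount : u.Countable := by
    refine hdisj'.countable_of_isOpen (fun x _ => isOpen_ball) fun x hx => ?_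
    exact ⟨x, mem_ball_self (hr0 x (huF hx))⟩
  have hsub : π '' F ⊆ ⋃ x ∈ u, closedBall (π x) (5 * rad x) := by
    rintro _ ⟨x, hx, rfl⟩
    obtain ⟨y, hy, hxy⟩ := hcov x hx
    have h1 : x ∈ closedBall y (5 * rad y) := hxy (mem_closedBall_self (hr0 x hx).le)
    refine mem_iUnion₂.2 ⟨y, hy, ?_⟩
    rw [mem_closedBall] at h1 ⊢
    refine le_trans ?_ h1
    have := hπ.dist_le_mul x y
    simpa using this
  have hρ' : 0 < ρ ^ (-(1 / 2) : ℝ) := by positivity
  calc ENNReal.ofReal (c0 n / 10 * ρ ^ (-(1 / 2) : ℝ)) * volume (π '' F)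
      ≤ ENNReal.ofReal (c0 n / 10 * ρ ^ (-(1 / 2) : ℝ)) *
          ∑' x : u, volume (closedBall (π x) (5 * rad x)) := by
        gcongr
        exact (measure_mono hsub).trans (measure_biUnion_le volume hcount _)
    _ = ∑' x : u, ENNReal.ofReal (c0 n * ρ ^ (-(1 / 2) : ℝ) * rad x) := by
        rw [← ENNReal.tsum_mul_left]
        congr 1
        funext x
        rw [Real.volume_closedBall, ← ENNReal.ofReal_mul (by positivity)]
        congr 1
        ring
    _ ≤ ∑' x : u, ∫⁻ z in ball (x : E n) (rad x), G z ^ pex n :=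
        ENNReal.tsum_le_tsum fun x => hrE x (huF x.2)
    _ = ∫⁻ z in ⋃ x ∈ u, ball x (rad x), G z ^ pex n :=
        (lintegral_biUnion hcount (fun x _ => measurableSet_ball) hdisj' _).symm
    _ ≤ ∫⁻ x in S, G x ^ pex n := by
        refine lintegral_mono_set ?_
        refine iUnion₂_subset fun x hx => ?_
        exact (ball_subset_ball (hrρ x (huF hx))).trans (hS x (huF hx))

namespace Cap

/-- The energy lower bound when two averages at scale `r` differ. -/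
theorem two_averages (hn : 2 ≤ n) {D : Set (E n)} {w : E n → ℝ} {G : E n → ℝ≥0∞}
    (H : UG D w G) (hG : Measurable G) {a b : E n} {r d R κ : ℝ} (hr : 0 < r) (hd : 0 < d)
    (hR : 0 < R) (hκ : 0 < κ) (hab : dist a b ≤ d)
    (hD : ∀ t ∈ Icc (0 : ℝ) 1, closedBall (AffineMap.lineMap a b t : E n) r ⊆ D)
    {S : Set (E n)} (hS : ∀ t ∈ Icc (0 : ℝ) 1, ball (AffineMap.lineMap a b t : E n) r ⊆ S)
    {x0 : E n} (hSR : S ⊆ ball x0 R)
    (hav : κ ≤ |(⨍ x in ball a r, w x) - (⨍ x in ball b r, w x)|) :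
    ENNReal.ofReal ((κ * (wn n * r ^ n) / d) ^ pex n / (wn n * R ^ n) ^ (pex n - 1)) ≤
      ∫⁻ x in S, G x ^ pex n := by
  have hw := wn_pos n
  have h1 := H.seg a b r hr hD S hS
  rw [volume_ball_eq a hr] at h1
  refine holder hn hG S (by positivity) (by positivity) ?_
    ((measure_mono hSR).trans (volume_ball_eq x0 hR).le)
  rw [ENNReal.ofReal_div_of_pos hd]
  refine ENNReal.div_le_of_le_mul' ?_
  calc ENNReal.ofReal (κ * (wn n * r ^ n))
      = ENNReal.ofReal κ * ENNReal.ofReal (wn n * r ^ n) := ENNReal.ofReal_mul hκ.le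
    _ ≤ ENNReal.ofReal |(⨍ x in ball a r, w x) - (⨍ x in ball b r, w x)| *
          ENNReal.ofReal (wn n * r ^ n) := by gcongr
    _ ≤ ENNReal.ofReal (dist a b) * ∫⁻ x in S, G x := h1
    _ ≤ ENNReal.ofReal d * ∫⁻ x in S, G x := by gcongr

theorem homog (hn : 2 ≤ n) {κ α β γ R : ℝ} (hκ : 0 < κ) (hα : 0 < α) (hβ : 0 < β) (hγ : 0 < γ)
    (hR : 0 < R) :
    (κ * (wn n * (α * R) ^ n) / (β * R)) ^ pex n / (wn n * (γ * R) ^ n) ^ (pex n - 1) =
      ((κ * wn n * α ^ n / β) ^ pex n / (wn n * γ ^ n) ^ (pex n - 1)) * R ^ (1 / 2 : ℝ) := by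
  have hw := wn_pos n
  have hp := pex_gt hn
  have e1 : κ * (wn n * (α * R) ^ n) / (β * R) = (κ * wn n * α ^ n / β) * (R ^ n / R) := by
    rw [mul_pow]; field_simp
  have e2 : wn n * (γ * R) ^ n = (wn n * γ ^ n) * R ^ n := by rw [mul_pow]; ring
  rw [e1, e2, Real.mul_rpow (by positivity) (by positivity),
    Real.mul_rpow (by positivity) (by positivity), mul_div_mul_comm]
  congr 1
  have e3 : R ^ n / R = R ^ ((n : ℝ) - 1) := by
    rw [Real.rpow_sub_one hR.ne', Real.rpow_natCast]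
  rw [e3, ← Real.rpow_natCast R n, ← Real.rpow_mul hR.le, ← Real.rpow_mul hR.le,
    ← Real.rpow_sub hR]
  congr 1
  rw [pex]; ring

end Cap

theorem cap_ball (n : ℕ) (hn : 2 ≤ n) : ∃ c : ℝ, 0 < c ∧ ∀ (D : Set (E n)) (w : E n → ℝ)
    (G : E n → ℝ≥0∞), UG D w G → Measurable G → ∀ (x0 : E n) (R : ℝ), 0 < R →
    closedBall x0 R ⊆ D → ∀ F₁ F₂ : Set (E n), F₁ ⊆ ball x0 (R / 2) → F₂ ⊆ ball x0 (R / 2) →
    (∀ x ∈ F₁, 1 ≤ w x) → (∀ x ∈ F₂, w x ≤ 0) → ∀ π₁ π₂ : E n → ℝ, LipschitzWith 1 π₁ →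
    LipschitzWith 1 π₂ → ENNReal.ofReal (R / 256) ≤ volume (π₁ '' F₁) →
    ENNReal.ofReal (R / 256) ≤ volume (π₂ '' F₂) →
    ENNReal.ofReal (c * R ^ (1 / 2 : ℝ)) ≤ ∫⁻ x in ball x0 R, G x ^ pex n := by
  obtain ⟨c1, hc1, hstar⟩ := cap_star n hn
  have hw := wn_pos n
  set C := ((1 / 2) * wn n * (1 / 4 : ℝ) ^ n / 1) ^ pex n / (wn n * 1 ^ n) ^ (pex n - 1) with hC
  have hCpos : 0 < C := by rw [hC]; positivity
  set C2 := c1 * (1 / 4 : ℝ) ^ (-(1 / 2) : ℝ) / 256 with hC2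
  have hC2pos : 0 < C2 := by rw [hC2]; positivity
  refine ⟨min C C2, lt_min hCpos hC2pos, ?_⟩
  intro D w G H hG x0 R hR hD F₁ F₂ hF₁ hF₂ hw₁ hw₂ π₁ π₂ hπ₁ hπ₂ hv₁ hv₂
  have hRh : 0 < R ^ (1 / 2 : ℝ) := by positivity
  have hR4 : 0 < 1 / 4 * R := by positivity
  -- the case of `cap_star`
  have key : ∀ (F : Set (E n)) (π : E n → ℝ), F ⊆ ball x0 (R / 2) → LipschitzWith 1 π →
      ENNReal.ofReal (R / 256) ≤ volume (π '' F) →
      (∀ x ∈ F, 1 / 4 ≤ |w x - ⨍ z in ball x (1 / 4 * R), w z|) →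
      ENNReal.ofReal (min C C2 * R ^ (1 / 2 : ℝ)) ≤ ∫⁻ x in ball x0 R, G x ^ pex n := by
    intro F π hF hπ hv hFw
    have h1 := hstar D w G H hG F (1 / 4 * R) hR4 (fun x hx => ?_) hFw π hπ (ball x0 R)
      (fun x hx => ?_)
    · refine le_trans ?_ h1
      refine le_trans ?_ (mul_le_mul_right hv _)
      rw [← ENNReal.ofReal_mul (by positivity)]
      apply ENNReal.ofReal_le_ofReal
      have e1 : (1 / 4 * R) ^ (-(1 / 2) : ℝ) = (1 / 4 : ℝ) ^ (-(1 / 2) : ℝ) * R ^ (-(1 / 2) : ℝ) :=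
        Real.mul_rpow (by norm_num) hR.le
      have e2 : R ^ (-(1 / 2) : ℝ) * R = R ^ (1 / 2 : ℝ) := by
        rw [← Real.rpow_add_one hR.ne']; congr 1; norm_num
      calc min C C2 * R ^ (1 / 2 : ℝ) ≤ C2 * R ^ (1 / 2 : ℝ) := by
            gcongr; exact min_le_right _ _
        _ = c1 * (1 / 4 * R) ^ (-(1 / 2) : ℝ) * (R / 256) := by
            rw [hC2, e1, ← e2]; ring
    · refine (closedBall_subset_closedBall' ?_).trans hD
      have := mem_ball.1 (hF hx)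
      linarith
    · refine ball_subset_ball' ?_
      have := mem_ball.1 (hF hx)
      linarith
  by_cases h₁ : ∀ x ∈ F₁, 1 / 4 ≤ |w x - ⨍ z in ball x (1 / 4 * R), w z|
  · exact key F₁ π₁ hF₁ hπ₁ hv₁ h₁
  by_cases h₂ : ∀ x ∈ F₂, 1 / 4 ≤ |w x - ⨍ z in ball x (1 / 4 * R), w z|
  · exact key F₂ π₂ hF₂ hπ₂ hv₂ h₂
  push Not at h₁ h₂
  obtain ⟨a, ha, ha'⟩ := h₁
  obtain ⟨b, hb, hb'⟩ := h₂
  have hseg : ∀ t ∈ Icc (0 : ℝ) 1, (AffineMap.lineMap a b t : E n) ∈ ball x0 (R / 2) := by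
    intro t ht
    exact (convex_ball x0 (R / 2)).lineMap_mem (hF₁ ha) (hF₂ hb) ht
  have h3 := two_averages hn H hG (a := a) (b := b) (r := 1 / 4 * R) (d := 1 * R) (R := 1 * R)
    (κ := 1 / 2) hR4 (by positivity) (by positivity) (by norm_num) ?_ ?_ (S := ball x0 R) ?_
    (x0 := x0) (by rw [one_mul]) ?_
  · refine le_trans ?_ h3
    rw [homog hn (by norm_num) (by norm_num) (by norm_num) (by norm_num) hR]
    apply ENNReal.ofReal_le_ofReal
    gcongr
    exact min_le_left _ _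
  · have h4 := mem_ball.1 (hF₁ ha)
    have h5 := mem_ball'.1 (hF₂ hb)
    linarith [dist_triangle a x0 b]
  · intro t ht
    refine (closedBall_subset_closedBall' ?_).trans hD
    have := mem_ball.1 (hseg t ht)
    linarith
  · intro t ht
    refine ball_subset_ball' ?_
    have := mem_ball.1 (hseg t ht)
    linarith
  · have h4 := hw₁ a ha
    have h5 := hw₂ b hb
    rw [abs_lt] at ha' hb'
    refine le_trans ?_ (le_abs_self _)
    linarith [ha'.1, ha'.2, hb'.1, hb'.2]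

namespace Cap

/-- In dimension at least three there is a unit vector perpendicular to two given vectors. -/
theorem exists_perp (hn : 3 ≤ n) (u v : E n) : ∃ e : E n, ‖e‖ = 1 ∧ inner ℝ u e = 0 ∧
    inner ℝ v e = 0 := by
  set K : Submodule ℝ (E n) := Submodule.span ℝ (Set.range ![u, v]) with hK
  have hKfin : Module.finrank ℝ K ≤ 2 := by
    have h2 := finrank_range_le_card (R := ℝ) ![u, v]
    rw [Fintype.card_fin] at h2
    exact h2
  have hne : Kᗮ ≠ ⊥ := by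
    intro h
    have h1 := K.finrank_add_finrank_orthogonal
    rw [h, finrank_bot, finrank_euclideanSpace_fin] at h1
    omega
  obtain ⟨e, he, he0⟩ := Submodule.exists_mem_ne_zero_of_ne_bot hne
  refine ⟨(‖e‖⁻¹ : ℝ) • e, norm_smul_inv_norm he0, ?_, ?_⟩
  · rw [inner_smul_right,
      (Submodule.mem_orthogonal K e).1 he u (Submodule.subset_span ⟨0, by simp⟩), mul_zero]
  · rw [inner_smul_right,
      (Submodule.mem_orthogonal K e).1 he v (Submodule.subset_span ⟨1, by simp⟩), mul_zero]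

theorem lineMap_dist {a x0 e : E n} {r t : ℝ} (hr : 0 < r) (he : ‖e‖ = 1)
    (hu : inner ℝ (a - x0) e = 0) (h1 : r < dist a x0) (h2 : dist a x0 < 2 * r)
    (ht : t ∈ Icc (0 : ℝ) 1) :
    3 / 4 * r < dist (AffineMap.lineMap a (x0 + (3 / 2 * r) • e) t : E n) x0 ∧
      dist (AffineMap.lineMap a (x0 + (3 / 2 * r) • e) t : E n) x0 < 9 / 4 * r := by
  rw [dist_eq_norm] at h1 h2 ⊢
  set u := a - x0 with hu'
  have e1 : (AffineMap.lineMap a (x0 + (3 / 2 * r) • e) t : E n) - x0 =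
      (1 - t) • u + (t * (3 / 2 * r)) • e := by
    rw [AffineMap.lineMap_apply_module', hu']
    module
  rw [e1]
  have e2 : ‖(1 - t) • u + (t * (3 / 2 * r)) • e‖ ^ 2 =
      (1 - t) ^ 2 * ‖u‖ ^ 2 + (t * (3 / 2 * r)) ^ 2 := by
    rw [norm_add_sq_real, inner_smul_left, inner_smul_right, hu, norm_smul, norm_smul, he, mul_pow,
      mul_pow]
    simp [mul_pow, sq_abs]
  set N := ‖(1 - t) • u + (t * (3 / 2 * r)) • e‖ with hN
  have hN0 : 0 ≤ N := norm_nonneg _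
  obtain ⟨t0, t1⟩ := ht
  constructor
  · by_contra hcon
    push Not at hcon
    have h3 : N ^ 2 ≤ (3 / 4 * r) ^ 2 := by gcongr
    have h4 : (1 - t) ^ 2 * r ^ 2 ≤ (1 - t) ^ 2 * ‖u‖ ^ 2 := by gcongr
    have h5 : (9 / 16 : ℝ) < (1 - t) ^ 2 + t ^ 2 * (9 / 4) := by nlinarith [sq_nonneg (t - 4 / 13)]
    have h6 := mul_lt_mul_of_pos_right h5 (show 0 < r ^ 2 by positivity)
    nlinarith
  · by_contra hcon
    push Not at hcon
    have h3 : (9 / 4 * r) ^ 2 ≤ N ^ 2 := by gcongr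
    have h4 : (1 - t) ^ 2 * ‖u‖ ^ 2 ≤ (1 - t) ^ 2 * (2 * r) ^ 2 := by gcongr
    have h5 : (1 - t) ^ 2 * 4 + t ^ 2 * (9 / 4) ≤ (4 : ℝ) := by nlinarith
    have h6 := mul_le_mul_of_nonneg_right h5 (show 0 ≤ r ^ 2 by positivity)
    nlinarith [show 0 < r ^ 2 by positivity]

end Cap

theorem cap_annulus (n : ℕ) (hn : 3 ≤ n) : ∃ c : ℝ, 0 < c ∧ ∀ (D : Set (E n)) (w : E n → ℝ)
    (G : E n → ℝ≥0∞), UG D w G → Measurable G → ∀ (x0 : E n) (r : ℝ), 0 < r →
    closedBall x0 (4 * r) ⊆ D → ∀ F₁ F₂ : Set (E n),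
    (∀ t ∈ Ioo r (2 * r), ∃ z ∈ F₁, dist z x0 = t) →
    (∀ t ∈ Ioo r (2 * r), ∃ z ∈ F₂, dist z x0 = t) →
    (∀ x ∈ F₁, 1 ≤ w x) → (∀ x ∈ F₂, w x ≤ 0) →
    ENNReal.ofReal (c * r ^ (1 / 2 : ℝ))
      ≤ ∫⁻ x in {z | r / 2 < dist z x0 ∧ dist z x0 < 4 * r}, G x ^ pex n := by
  have hn2 : 2 ≤ n := by omega
  obtain ⟨c1, hc1, hstar⟩ := cap_star n hn2
  have hw := wn_pos n
  set C := ((1 / 4) * wn n * (1 / 4 : ℝ) ^ n / 4) ^ pex n / (wn n * 4 ^ n) ^ (pex n - 1) with hC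
  have hCpos : 0 < C := by rw [hC]; positivity
  set C2 := c1 * (1 / 4 : ℝ) ^ (-(1 / 2) : ℝ) with hC2
  have hC2pos : 0 < C2 := by rw [hC2]; positivity
  refine ⟨min C C2, lt_min hCpos hC2pos, ?_⟩
  intro D w G H hG x0 r hr hD F₁ F₂ hF₁ hF₂ hw₁ hw₂
  have hRh : 0 < r ^ (1 / 2 : ℝ) := by positivity
  have hR4 : 0 < 1 / 4 * r := by positivity
  set S : Set (E n) := {z | r / 2 < dist z x0 ∧ dist z x0 < 4 * r} with hS
  -- the case of `cap_star`
  have key : ∀ F : Set (E n), (∀ t ∈ Ioo r (2 * r), ∃ z ∈ F, dist z x0 = t) →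
      (∀ x ∈ F, r < dist x x0 → dist x x0 < 2 * r →
        1 / 4 ≤ |w x - ⨍ z in ball x (1 / 4 * r), w z|) →
      ENNReal.ofReal (min C C2 * r ^ (1 / 2 : ℝ)) ≤ ∫⁻ x in S, G x ^ pex n := by
    intro F hF hFw
    have h1 := hstar D w G H hG {z | z ∈ F ∧ r < dist z x0 ∧ dist z x0 < 2 * r} (1 / 4 * r) hR4
      (fun x hx => ?_) (fun x hx => hFw x hx.1 hx.2.1 hx.2.2) (fun z => dist z x0)
      (LipschitzWith.dist_left x0) S (fun x hx => ?_)
    · refine le_trans ?_ h1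
      have hv : ENNReal.ofReal r ≤
          volume ((fun z => dist z x0) '' {z | z ∈ F ∧ r < dist z x0 ∧ dist z x0 < 2 * r}) := by
        have h2 : Ioo r (2 * r) ⊆
            (fun z => dist z x0) '' {z | z ∈ F ∧ r < dist z x0 ∧ dist z x0 < 2 * r} := by
          intro t ht
          obtain ⟨z, hz, hzt⟩ := hF t ht
          exact ⟨z, ⟨hz, by rw [hzt]; exact ht.1, by rw [hzt]; exact ht.2⟩, hzt⟩
        refine le_trans ?_ (measure_mono h2)
        rw [Real.volume_Ioo]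
        apply ENNReal.ofReal_le_ofReal
        linarith
      refine le_trans ?_ (mul_le_mul_right hv _)
      rw [← ENNReal.ofReal_mul (by positivity)]
      apply ENNReal.ofReal_le_ofReal
      have e1 : (1 / 4 * r) ^ (-(1 / 2) : ℝ) = (1 / 4 : ℝ) ^ (-(1 / 2) : ℝ) * r ^ (-(1 / 2) : ℝ) :=
        Real.mul_rpow (by norm_num) hr.le
      have e2 : r ^ (-(1 / 2) : ℝ) * r = r ^ (1 / 2 : ℝ) := by
        rw [← Real.rpow_add_one hr.ne']; congr 1; norm_num
      calc min C C2 * r ^ (1 / 2 : ℝ) ≤ C2 * r ^ (1 / 2 : ℝ) := by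
            gcongr; exact min_le_right _ _
        _ = c1 * (1 / 4 * r) ^ (-(1 / 2) : ℝ) * r := by
            rw [hC2, e1, ← e2]; ring
    · refine (closedBall_subset_closedBall' ?_).trans hD
      linarith [hx.2.2]
    · intro z hz
      rw [mem_ball] at hz
      have h2 := dist_triangle z x x0
      have h3 := dist_triangle_left x x0 z
      refine ⟨?_, ?_⟩
      · linarith [hx.2.1]
      · linarith [hx.2.2]
  by_cases h₁ : ∀ x ∈ F₁, r < dist x x0 → dist x x0 < 2 * r →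
      1 / 4 ≤ |w x - ⨍ z in ball x (1 / 4 * r), w z|
  · exact key F₁ hF₁ h₁
  by_cases h₂ : ∀ x ∈ F₂, r < dist x x0 → dist x x0 < 2 * r →
      1 / 4 ≤ |w x - ⨍ z in ball x (1 / 4 * r), w z|
  · exact key F₂ hF₂ h₂
  push Not at h₁ h₂
  obtain ⟨a, ha, ha1, ha2, ha'⟩ := h₁
  obtain ⟨b, hb, hb1, hb2, hb'⟩ := h₂
  obtain ⟨e, he, hea, heb⟩ := exists_perp hn (a - x0) (b - x0)
  -- one of the two segments
  have seg : ∀ a' : E n, inner ℝ (a' - x0) e = 0 → r < dist a' x0 → dist a' x0 < 2 * r →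
      1 / 4 ≤ |(⨍ x in ball a' (1 / 4 * r), w x) -
        (⨍ x in ball (x0 + (3 / 2 * r) • e) (1 / 4 * r), w x)| →
      ENNReal.ofReal (min C C2 * r ^ (1 / 2 : ℝ)) ≤ ∫⁻ x in S, G x ^ pex n := by
    intro a' hp1 hp2 hp3 hav
    have h3 := two_averages hn2 H hG (a := a') (b := x0 + (3 / 2 * r) • e) (r := 1 / 4 * r)
      (d := 4 * r) (R := 4 * r) (κ := 1 / 4) hR4 (by positivity) (by positivity) (by norm_num)
      ?_ ?_ (S := S) ?_ (x0 := x0) (fun z hz => hz.2) hav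
    · refine le_trans ?_ h3
      rw [homog hn2 (by norm_num) (by norm_num) (by norm_num) (by norm_num) hr]
      apply ENNReal.ofReal_le_ofReal
      gcongr
      exact min_le_left _ _
    · have h4 : dist x0 (x0 + (3 / 2 * r) • e) = 3 / 2 * r := by
        rw [dist_self_add_right, norm_smul, he, Real.norm_of_nonneg (by positivity), mul_one]
      linarith [dist_triangle a' x0 (x0 + (3 / 2 * r) • e)]
    · intro t ht
      refine (closedBall_subset_closedBall' ?_).trans hD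
      have := (lineMap_dist hr he hp1 hp2 hp3 ht).2
      linarith
    · intro t ht z hz
      have h5 := lineMap_dist hr he hp1 hp2 hp3 ht
      rw [mem_ball] at hz
      set m : E n := AffineMap.lineMap a' (x0 + (3 / 2 * r) • e) t
      have h2 := dist_triangle z m x0
      have h3 := dist_triangle_left m x0 z
      refine ⟨?_, ?_⟩
      · linarith [h5.1]
      · linarith [h5.2]
  by_cases h3 : 1 / 4 ≤ |(⨍ x in ball a (1 / 4 * r), w x) -
        (⨍ x in ball (x0 + (3 / 2 * r) • e) (1 / 4 * r), w x)|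
  · exact seg a hea ha1 ha2 h3
  refine seg b heb hb1 hb2 ?_
  by_contra h4
  push Not at h3 h4
  have h5 := hw₁ a ha
  have h6 := hw₂ b hb
  rw [abs_lt] at ha' hb' h3 h4
  linarith [ha'.1, ha'.2, hb'.1, hb'.2, h3.1, h3.2, h4.1, h4.2]

theorem cap_sphere (n : ℕ) (hn : 2 ≤ n) : ∃ c : ℝ, 0 < c ∧ ∀ (D : Set (E n)) (w : E n → ℝ)
    (G : E n → ℝ≥0∞), UG D w G → Measurable G → ∀ (p : E n) (ρ τ : ℝ), 0 < ρ → 0 < τ → τ ≤ c →
    closedBall p (2 * ρ) ⊆ D → (∀ x ∈ ball p (2 * ρ), 0 ≤ w x ∧ w x ≤ 1) →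
    volume {x | x ∈ ball p (2 * ρ) ∧ 0 < w x} ≤ ENNReal.ofReal (τ * ρ ^ n) →
    (∀ t ∈ Ioo (ρ / 2) ρ, ∃ z, dist z p = t ∧ w z = 1) →
    ENNReal.ofReal (c * ρ ^ (1 / 2 : ℝ) * τ ^ (-(1 / (2 * n)) : ℝ))
      ≤ ∫⁻ x in ball p (2 * ρ), G x ^ pex n := by
  obtain ⟨c1, hc1, hstar⟩ := cap_star n hn
  have hw := wn_pos n
  have hn0 : (n : ℝ) ≠ 0 := by
    have : n ≠ 0 := by omega
    exact_mod_cast this
  set C2 := c1 * ((2 / wn n) ^ (1 / n : ℝ)) ^ (-(1 / 2) : ℝ) / 2 with hC2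
  have hC2pos : 0 < C2 := by rw [hC2]; positivity
  refine ⟨min (wn n / 2) C2, lt_min (by positivity) hC2pos, ?_⟩
  intro D w G H hG p ρ τ hρ hτ hτc hD hw01 hvol hsph
  have hτ2 : τ ≤ wn n / 2 := hτc.trans (min_le_left _ _)
  -- the scale
  obtain ⟨lam, hlam⟩ : ∃ lam : ℝ, lam = (2 / wn n) ^ (1 / n : ℝ) * τ ^ (1 / n : ℝ) := ⟨_, rfl⟩
  have hlam0 : 0 < lam := by rw [hlam]; positivity
  have hlamn : lam ^ n = 2 * τ / wn n := by
    rw [hlam, ← Real.mul_rpow (by positivity) hτ.le, ← Real.rpow_natCast, ← Real.rpow_mul (by positivity),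
      one_div_mul_cancel hn0, Real.rpow_one]
    ring
  have hlam1 : lam ≤ 1 := by
    by_contra hcon
    push Not at hcon
    have h1 : 1 < lam ^ n := one_lt_pow₀ hcon (by omega)
    rw [hlamn, lt_div_iff₀ hw] at h1
    linarith
  have hσ : 0 < lam * ρ := by positivity
  have hσρ : lam * ρ ≤ ρ := by nlinarith
  set F : Set (E n) := {z | w z = 1 ∧ ρ / 2 < dist z p ∧ dist z p < ρ} with hF
  have hcont : ContinuousOn w (ball p (2 * ρ)) := H.cont.mono (ball_subset_closedBall.trans hD)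
  set P : Set (E n) := {x | x ∈ ball p (2 * ρ) ∧ 0 < w x} with hP
  have hPo : IsOpen P := hcont.isOpen_inter_preimage isOpen_ball isOpen_Ioi
  have hPfin : volume P ≠ ⊤ := ne_top_of_le_ne_top ENNReal.ofReal_ne_top hvol
  have havg : ∀ x ∈ F, 1 / 4 ≤ |w x - ⨍ z in ball x (lam * ρ), w z| := by
    intro x hx
    have hsub : ball x (lam * ρ) ⊆ ball p (2 * ρ) := by
      refine ball_subset_ball' ?_
      linarith [hx.2.2]
    have hsubc : closedBall x (lam * ρ) ⊆ D := by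
      refine (closedBall_subset_closedBall' ?_).trans hD
      linarith [hx.2.2]
    have hint : IntegrableOn w (ball x (lam * ρ)) :=
      ((H.cont.mono hsubc).integrableOn_compact (isCompact_closedBall x _)).mono_set
        ball_subset_closedBall
    have h1 : ∫ z in ball x (lam * ρ), w z ≤ τ * ρ ^ n := by
      calc ∫ z in ball x (lam * ρ), w z ≤ ∫ z in ball x (lam * ρ), P.indicator (fun _ => (1 : ℝ)) z := by
            refine setIntegral_mono_on hint ?_ measurableSet_ball fun z hz => ?_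
            · refine Integrable.indicator ?_ hPo.measurableSet
              exact integrableOn_const (measure_ball_lt_top.ne) (by simp)
            · by_cases hzP : z ∈ P
              · rw [indicator_of_mem hzP]; exact (hw01 z (hsub hz)).2
              · rw [indicator_of_notMem hzP]
                by_contra hcon
                push Not at hcon
                exact hzP ⟨hsub hz, hcon⟩
        _ = volume.real (ball x (lam * ρ) ∩ P) := by
            rw [setIntegral_indicator hPo.measurableSet]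
            simp
        _ ≤ volume.real P := measureReal_mono inter_subset_right hPfin
        _ ≤ τ * ρ ^ n := by
            rw [measureReal_def]
            exact ENNReal.toReal_le_of_le_ofReal (by positivity) hvol
    have h2 : (⨍ z in ball x (lam * ρ), w z) ≤ 1 / 2 := by
      rw [setAverage_eq, measureReal_def, volume_ball_eq x hσ, ENNReal.toReal_ofReal (by positivity),
        smul_eq_mul, mul_pow, hlamn]
      have h3 : 0 < 2 * τ * ρ ^ n := by positivity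
      have e : wn n * (2 * τ / wn n * ρ ^ n) = 2 * τ * ρ ^ n := by field_simp
      rw [e]
      calc (2 * τ * ρ ^ n)⁻¹ * ∫ z in ball x (lam * ρ), w z
          ≤ (2 * τ * ρ ^ n)⁻¹ * (τ * ρ ^ n) := by gcongr
        _ = 1 / 2 := by field_simp
    rw [hx.1]
    refine le_trans ?_ (le_abs_self _)
    linarith
  have h1 := hstar D w G H hG F (lam * ρ) hσ (fun x hx => ?_) havg (fun z => dist z p)
    (LipschitzWith.dist_left p) (ball p (2 * ρ)) (fun x hx => ?_)
  · refine le_trans ?_ h1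
    have hv : ENNReal.ofReal (ρ / 2) ≤ volume ((fun z => dist z p) '' F) := by
      have h2 : Ioo (ρ / 2) ρ ⊆ (fun z => dist z p) '' F := by
        intro t ht
        obtain ⟨z, hz, hzt⟩ := hsph t ht
        exact ⟨z, ⟨hzt, by rw [hz]; exact ht.1, by rw [hz]; exact ht.2⟩, hz⟩
      refine le_trans ?_ (measure_mono h2)
      rw [Real.volume_Ioo]
      apply ENNReal.ofReal_le_ofReal
      linarith
    refine le_trans ?_ (mul_le_mul_right hv _)
    rw [← ENNReal.ofReal_mul (by positivity)]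
    apply ENNReal.ofReal_le_ofReal
    have e1 : (lam * ρ) ^ (-(1 / 2) : ℝ) = ((2 / wn n) ^ (1 / n : ℝ)) ^ (-(1 / 2) : ℝ) *
        τ ^ (-(1 / (2 * n)) : ℝ) * ρ ^ (-(1 / 2) : ℝ) := by
      rw [hlam, Real.mul_rpow (by positivity) hρ.le, Real.mul_rpow (by positivity) (by positivity),
        ← Real.rpow_mul hτ.le]
      congr 3
      field_simp
    have e2 : ρ ^ (-(1 / 2) : ℝ) * ρ = ρ ^ (1 / 2 : ℝ) := by
      rw [← Real.rpow_add_one hρ.ne']; congr 1; norm_num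
    calc min (wn n / 2) C2 * ρ ^ (1 / 2 : ℝ) * τ ^ (-(1 / (2 * n)) : ℝ)
        ≤ C2 * ρ ^ (1 / 2 : ℝ) * τ ^ (-(1 / (2 * n)) : ℝ) := by
          gcongr; exact min_le_right _ _
      _ = c1 * (lam * ρ) ^ (-(1 / 2) : ℝ) * (ρ / 2) := by
          rw [hC2, e1, ← e2]; ring
  · refine (closedBall_subset_closedBall' ?_).trans hD
    linarith [hx.2.2]
  · refine ball_subset_ball' ?_
    linarith [hx.2.2]

end Pool.Agent.MP_dd09c0_an
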