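import Pool.Agent.MP_dd09c0_an.Defs

/-! Module J1: topology of the components of preimages of balls. -/

open MeasureTheory Metric Set Filter Topology
open scoped ENNReal NNReal ContDiff RealInnerProductSpace

namespace Pool.Agent.MP_dd09c0_an

variable {n : ℕ}

theorem comp_subset (f : E n → E n) (D : Set (E n)) (x : E n) (s : ℝ) :
    comp f D x s ⊆ D ∩ f ⁻¹' ball (f x) s := connectedComponentIn_subset _ _

theorem comp_preconn (f : E n → E n) (D : Set (E n)) (x : E n) (s : ℝ) :
    IsPreconnected (comp f D x s) := isPreconnected_connectedComponentIn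

theorem mem_comp {f : E n → E n} {D : Set (E n)} {x : E n} {s : ℝ} (hx : x ∈ D) (hs : 0 < s) :
    x ∈ comp f D x s := by
  have h : f x ∈ ball (f x) s := mem_ball_self hs
  exact mem_connectedComponentIn ⟨hx, h⟩

theorem isOpen_comp {f : E n → E n} (hf : Continuous f) {D : Set (E n)} (hD : IsOpen D)
    (x : E n) (s : ℝ) : IsOpen (comp f D x s) :=
  (hD.inter (isOpen_ball.preimage hf)).connectedComponentIn

/-- Components over smaller balls are contained in components over larger balls. -/
theorem comp_mono_of {f : E n → E n} {D : Set (E n)} {x z : E n} {s s' : ℝ}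
    (hz : z ∈ comp f D x s) (hb : ball (f z) s' ⊆ ball (f x) s) :
    comp f D z s' ⊆ comp f D x s := by
  have h1 : comp f D x s = connectedComponentIn (D ∩ f ⁻¹' ball (f x) s) z :=
    connectedComponentIn_eq hz
  rw [h1]
  exact connectedComponentIn_mono z (inter_subset_inter_right D (preimage_mono hb))

/-- Two components over the same ball are equal or disjoint. -/
theorem comp_eq_or_disjoint {f : E n → E n} {D : Set (E n)} {x z : E n} {s : ℝ}
    (h : f x = f z) : comp f D x s = comp f D z s ∨ Disjoint (comp f D x s) (comp f D z s) := by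
  by_cases hd : Disjoint (comp f D x s) (comp f D z s)
  · exact Or.inr hd
  · left
    obtain ⟨w, hw1, hw2⟩ := not_disjoint_iff.1 hd
    have e1 : comp f D x s = connectedComponentIn (D ∩ f ⁻¹' ball (f x) s) w :=
      connectedComponentIn_eq hw1
    have e2 : comp f D z s = connectedComponentIn (D ∩ f ⁻¹' ball (f z) s) w :=
      connectedComponentIn_eq hw2
    rw [e1, e2, h]

theorem dist_of_mem_frontier_comp {f : E n → E n} (hf : Continuous f) {D : Set (E n)}
    (hD : IsOpen D) {x : E n} {s : ℝ} (hc : closure (comp f D x s) ⊆ D) {z : E n}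
    (hz : z ∈ frontier (comp f D x s)) : dist (f z) (f x) = s := by
  have hzc : z ∈ closure (comp f D x s) := frontier_subset_closure hz
  have hzD : z ∈ D := hc hzc
  have hle : dist (f z) (f x) ≤ s := by
    have h1 : closure (comp f D x s) ⊆ f ⁻¹' closedBall (f x) s := by
      refine closure_minimal ?_ (isClosed_closedBall.preimage hf)
      exact ((comp_subset f D x s).trans inter_subset_right).trans
        (preimage_mono ball_subset_closedBall)
    exact h1 hzc
  refine le_antisymm hle (not_lt.1 fun hlt => ?_)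
  have hne : (comp f D x s).Nonempty := closure_nonempty_iff.1 ⟨z, hzc⟩
  have hxF : x ∈ D ∩ f ⁻¹' ball (f x) s := by
    by_contra hx
    rw [comp, connectedComponentIn_eq_empty hx] at hne
    exact not_nonempty_empty hne
  have hxC : x ∈ comp f D x s := mem_connectedComponentIn hxF
  have hpre : IsPreconnected (insert z (comp f D x s)) :=
    (comp_preconn f D x s).subset_closure (subset_insert _ _)
      (insert_subset hzc subset_closure)
  have hsub : insert z (comp f D x s) ⊆ comp f D x s :=
    hpre.subset_connectedComponentIn (mem_insert_of_mem _ hxC)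
      (insert_subset ⟨hzD, hlt⟩ (comp_subset f D x s))
  have hzin : z ∈ comp f D x s := hsub (mem_insert _ _)
  have hopen := isOpen_comp hf hD x s
  rw [hopen.frontier_eq] at hz
  exact hz.2 hzin

namespace CompTop

theorem one_lt_rank (hn : 2 ≤ n) : 1 < Module.rank ℝ (E n) := by
  rw [rank_eq_card_basis (EuclideanSpace.basisFun (Fin n) ℝ).toBasis, Fintype.card_fin]
  exact_mod_cast hn

theorem exists_ne_zero (hn : 1 ≤ n) : ∃ e : E n, e ≠ 0 := by
  refine ⟨EuclideanSpace.single ⟨0, hn⟩ 1, fun h => ?_⟩
  have := congrArg (fun v : E n => v ⟨0, hn⟩) h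
  simp at this

end CompTop

theorem isPreconnected_dist_gt (hn : 2 ≤ n) (y : E n) (r : ℝ) :
    IsPreconnected {z : E n | r < dist z y} := by
  by_cases hr : r < 0
  · have : {z : E n | r < dist z y} = univ := by
      ext z; simp only [mem_ofPred_eq, mem_univ, iff_true]
      exact hr.trans_le dist_nonneg
    rw [this]
    exact isPreconnected_univ
  · push Not at hr
    have e : {z : E n | r < dist z y} =
        (fun p : ℝ × E n => y + p.1 • p.2) '' (Ioi r ×ˢ sphere (0 : E n) 1) := by
      ext z
      simp only [mem_ofPred_eq, mem_image, mem_prod, mem_Ioi, mem_sphere, dist_zero_right,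
        Prod.exists]
      constructor
      · intro hz
        have hpos : 0 < dist z y := hr.trans_lt hz
        refine ⟨dist z y, (dist z y)⁻¹ • (z - y), ⟨hz, ?_⟩, ?_⟩
        · rw [norm_smul, norm_inv, Real.norm_eq_abs, abs_of_pos hpos, ← dist_eq_norm,
            inv_mul_cancel₀ hpos.ne']
        · rw [smul_smul, mul_inv_cancel₀ hpos.ne', one_smul, add_sub_cancel]
      · rintro ⟨t, u, ⟨ht, hu⟩, rfl⟩
        rw [dist_eq_norm, add_sub_cancel_left, norm_smul, hu, mul_one, Real.norm_eq_abs]
        exact lt_of_lt_of_le ht (le_abs_self t)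
    rw [e]
    have h0 : IsPreconnected (sphere (0 : E n) 1) :=
      isPreconnected_sphere (CompTop.one_lt_rank hn) 0 1
    have h1 : IsPreconnected (Ioi r ×ˢ sphere (0 : E n) 1) := isPreconnected_Ioi.prod h0
    have h2 : Continuous (fun p : ℝ × E n => y + p.1 • p.2) := by fun_prop
    exact h1.image _ h2.continuousOn

theorem not_isBounded_dist_gt (hn : 1 ≤ n) (y : E n) (r : ℝ) :
    ¬ Bornology.IsBounded {z : E n | r < dist z y} := by
  intro hb
  obtain ⟨e, he⟩ := CompTop.exists_ne_zero hn
  have he' : 0 < ‖e‖ := norm_pos_iff.2 he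
  obtain ⟨R, hR⟩ := hb.subset_closedBall y
  set T := max (max r R) 0 + 1 with hT
  have hT0 : 0 < T := by have := le_max_right (max r R) 0; linarith
  have hTr : r < T := by
    have h1 := le_max_left (max r R) 0
    have h2 := le_max_left r R
    linarith
  have hTR : R < T := by
    have h1 := le_max_left (max r R) 0
    have h2 := le_max_right r R
    linarith
  have hd : dist (y + (T / ‖e‖) • e) y = T := by
    rw [dist_eq_norm, add_sub_cancel_left, norm_smul, Real.norm_eq_abs,
      abs_of_pos (div_pos hT0 he'), div_mul_cancel₀ _ he'.ne']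
  have hmem : y + (T / ‖e‖) • e ∈ {z : E n | r < dist z y} := by
    simp only [mem_ofPred_eq, hd]; exact hTr
  have := hR hmem
  rw [mem_closedBall, hd] at this
  linarith

/-- Open half-spaces are unbounded (they are convex, hence preconnected). -/
theorem not_isBounded_halfspace {e : E n} (he : e ≠ 0) (b : ℝ) :
    ¬ Bornology.IsBounded {z : E n | inner ℝ e z < b} := by
  intro hb
  have he' : 0 < ‖e‖ := norm_pos_iff.2 he
  obtain ⟨R, hR⟩ := hb.subset_closedBall 0
  set T := max (max (-b / ‖e‖ ^ 2) (R / ‖e‖)) 0 + 1 with hT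
  have hT0 : 0 < T := by have := le_max_right (max (-b / ‖e‖ ^ 2) (R / ‖e‖)) 0; linarith
  have hTb : -b / ‖e‖ ^ 2 < T := by
    have h1 := le_max_left (max (-b / ‖e‖ ^ 2) (R / ‖e‖)) 0
    have h2 := le_max_left (-b / ‖e‖ ^ 2) (R / ‖e‖)
    linarith
  have hTR : R / ‖e‖ < T := by
    have h1 := le_max_left (max (-b / ‖e‖ ^ 2) (R / ‖e‖)) 0
    have h2 := le_max_right (-b / ‖e‖ ^ 2) (R / ‖e‖)
    linarith
  have hmem : -(T • e) ∈ {z : E n | inner ℝ e z < b} := by
    simp only [mem_ofPred_eq]
    rw [inner_neg_right, real_inner_smul_right, real_inner_self_eq_norm_sq]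
    rw [div_lt_iff₀ (by positivity)] at hTb
    linarith
  have := hR hmem
  rw [mem_closedBall, dist_zero_right, norm_neg, norm_smul, Real.norm_eq_abs,
    abs_of_pos hT0] at this
  rw [div_lt_iff₀ he'] at hTR
  linarith

/-- A preconnected set that leaves a ball meets the intermediate spheres. -/
theorem exists_dist_eq {A : Set (E n)} (hA : IsPreconnected A) {a x0 : E n} (ha : a ∈ A)
    {ρ t : ℝ} (hA' : ¬ A ⊆ ball x0 ρ) (h1 : dist a x0 ≤ t) (h2 : t < ρ) :
    ∃ z ∈ A, dist z x0 = t := by
  obtain ⟨b, hb, hb'⟩ := not_subset.1 hA'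
  have hb'' : ρ ≤ dist b x0 := not_lt.1 hb'
  have hc : ContinuousOn (fun z => dist z x0) A := by fun_prop
  exact hA.intermediate_value ha hb hc ⟨h1, (h2.le.trans hb'')⟩

end Pool.Agent.MP_dd09c0_an
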