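import Pool.Agent.MP_dd09c0_an.DegGM
import Pool.Agent.MP_dd09c0_an.CompTop

/-! Module J2: degrees on the components of preimages of balls. -/

open MeasureTheory Metric Set Filter Topology
open scoped ENNReal NNReal ContDiff RealInnerProductSpace

namespace Pool.Agent.MP_dd09c0_an

variable {n : ℕ}

theorem HasDeg.mono {f : E n → E n} {Df : E n → E n →L[ℝ] E n} {A O O' : Set (E n)} {k : ℕ}
    (hf : Continuous f) (hA : IsOpen A) (hO' : IsOpen O') (h : HasDeg f Df A O k)
    (hsub : O' ⊆ O) : HasDeg f Df A O' k := by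
  intro η hη
  have h1 := h (O'.indicator η) (hη.indicator hO'.measurableSet)
  have hpre : MeasurableSet (f ⁻¹' O') := (hO'.preimage hf).measurableSet
  have e1 : (fun x => O'.indicator η (f x) * ENNReal.ofReal (Df x).det) =
      (f ⁻¹' O').indicator (fun x => η (f x) * ENNReal.ofReal (Df x).det) := by
    funext x
    by_cases hx : f x ∈ O'
    · rw [indicator_of_mem hx, indicator_of_mem (show x ∈ f ⁻¹' O' from hx)]
    · rw [indicator_of_notMem hx, indicator_of_notMem (show x ∉ f ⁻¹' O' from hx), zero_mul]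
  have e2 : f ⁻¹' O' ∩ (A ∩ f ⁻¹' O) = A ∩ f ⁻¹' O' := by
    ext x
    simp only [mem_inter_iff, mem_preimage]
    constructor
    · rintro ⟨h1, h2, -⟩; exact ⟨h2, h1⟩
    · rintro ⟨h1, h2⟩; exact ⟨h2, h1, hsub h2⟩
  rw [e1, lintegral_indicator hpre, Measure.restrict_restrict hpre, e2,
    lintegral_indicator hO'.measurableSet, Measure.restrict_restrict hO'.measurableSet,
    inter_eq_left.2 hsub] at h1
  exact h1

namespace CompDeg

/-- The Jacobian is nonnegative. -/
theorem det_nonneg {D : Set (E n)} {f : E n → E n} {Df : E n → E n →L[ℝ] E n}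
    {K : E n → ℝ} (H : GM n D f Df K) (x : E n) : 0 ≤ (Df x).det := by
  have h1 := H.dist_le x
  have h2 := H.one_le x
  by_contra h
  push Not at h
  have h3 : 0 ≤ ‖Df x‖ ^ n := by positivity
  nlinarith

theorem measurable_det {Df : E n → E n →L[ℝ] E n} (h : Measurable Df) :
    Measurable (fun x => (Df x).det) :=
  (ContinuousLinearMap.continuous_det (𝕜 := ℝ) (E := E n)).measurable.comp h

theorem volume_eq_integral {f : E n → E n} {Df : E n → E n →L[ℝ] E n} {A O : Set (E n)} {k : ℕ}
    (h : HasDeg f Df A O k) :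
    ∫⁻ x in A ∩ f ⁻¹' O, ENNReal.ofReal (Df x).det = k * volume O := by
  have h1 := h (fun _ => 1) measurable_const
  simp only [one_mul, lintegral_one, Measure.restrict_apply MeasurableSet.univ, univ_inter] at h1
  exact h1

/-- Frontier points of a component of an open set do not belong to this set. -/
theorem frontier_component {U : Set (E n)} (hU : IsOpen U) {z w : E n}
    (hw : w ∈ frontier (connectedComponentIn U z)) : w ∉ U := by
  intro hwU
  have hwc : w ∈ closure (connectedComponentIn U z) := frontier_subset_closure hw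
  have hne : (connectedComponentIn U z).Nonempty := closure_nonempty_iff.1 ⟨w, hwc⟩
  have hzU : z ∈ U := by
    by_contra hz
    rw [connectedComponentIn_eq_empty hz] at hne
    exact not_nonempty_empty hne
  have hpre : IsPreconnected (insert w (connectedComponentIn U z)) :=
    isPreconnected_connectedComponentIn.subset_closure (subset_insert _ _)
      (insert_subset hwc subset_closure)
  have hsub : insert w (connectedComponentIn U z) ⊆ connectedComponentIn U z :=
    hpre.subset_connectedComponentIn (mem_insert_of_mem _ (mem_connectedComponentIn hzU))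
      (insert_subset hwU (connectedComponentIn_subset U z))
  have hopen : IsOpen (connectedComponentIn U z) := hU.connectedComponentIn
  rw [hopen.frontier_eq] at hw
  exact hw.2 (hsub (mem_insert _ _))

/-- A nonempty bounded open set has a frontier point. -/
theorem frontier_nonempty (hn : 1 ≤ n) {A : Set (E n)} (hA : IsOpen A) (hne : A.Nonempty)
    (hb : Bornology.IsBounded A) : (frontier A).Nonempty := by
  by_contra h
  rw [not_nonempty_iff_eq_empty] at h
  have hclopen : IsClopen A := isClopen_iff_frontier_eq_empty.2 h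
  have huniv : A = univ := hclopen.eq_univ hne
  have h2 := not_isBounded_dist_gt hn 0 0
  exact h2 ((huniv ▸ hb).subset (subset_univ _))

/-- If a small ball is not in the image then the degree is zero. -/
theorem deg_zero_of_ball {f : E n → E n} {Df : E n → E n →L[ℝ] E n} {A O : Set (E n)} {k : ℕ}
    (hf : Continuous f) (hA : IsOpen A) (h : HasDeg f Df A O k) {y : E n} {r : ℝ} (hr : 0 < r)
    (hball : ball y r ⊆ O) (hmiss : ∀ x ∈ A, f x ∉ ball y r) : k = 0 := by
  have h1 := volume_eq_integral (h.mono hf hA isOpen_ball hball)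
  have h2 : A ∩ f ⁻¹' ball y r = ∅ := by
    ext x
    simp only [mem_inter_iff, mem_preimage, mem_empty_iff_false, iff_false, not_and]
    exact hmiss x
  rw [h2, Measure.restrict_empty, lintegral_zero_measure] at h1
  have h3 : volume (ball y r) ≠ 0 := (measure_ball_pos volume y hr).ne'
  rcases mul_eq_zero.1 h1.symm with h4 | h4
  · exact_mod_cast h4
  · exact absurd h4 h3

/-- The degree of a nonconstant map is positive: there is a frontier point with the same image
as an interior point if the degree vanishes. -/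
theorem const_of_deg_zero (hn : 2 ≤ n) {D : Set (E n)} {f : E n → E n}
    {Df : E n → E n →L[ℝ] E n} {K : E n → ℝ} (H : GM n D f Df K) {A O : Set (E n)}
    (hA : IsOpen A) (hAc : IsPreconnected A) (hAD : closure A ⊆ D) (hAO : A ⊆ f ⁻¹' O)
    (h : HasDeg f Df A O 0) {a : E n} (ha : a ∈ A) : ∃ w ∈ frontier A, f w = f a := by
  have h1 := volume_eq_integral h
  rw [Nat.cast_zero, zero_mul, inter_eq_left.2 hAO] at h1
  have hm : Measurable (fun x => ENNReal.ofReal (Df x).det) :=
    ENNReal.measurable_ofReal.comp (measurable_det H.meas)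
  rw [lintegral_eq_zero_iff hm] at h1
  have h2 : ∀ᵐ x ∂(volume.restrict A), (Df x).det = 0 := by
    filter_upwards [h1] with x hx
    exact le_antisymm (ENNReal.ofReal_eq_zero.1 hx) (det_nonneg H x)
  have h3 := H.const_of_zero hn hA hAc (subset_closure.trans hAD) h2
  obtain ⟨w, hw⟩ := frontier_nonempty (by omega) hA ⟨a, ha⟩
    ((H.bdd.subset hAD).subset subset_closure)
  refine ⟨w, hw, ?_⟩
  have h4 : closure A ⊆ f ⁻¹' {f a} :=
    closure_minimal (fun x hx => h3 x hx a ha) (isClosed_singleton.preimage H.cont)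
  exact h4 (frontier_subset_closure hw)

/-- Components of preimages of connected open sets, compactly contained in `D`, have a positive
degree. -/
theorem component_deg (hn : 2 ≤ n) {D : Set (E n)} {f : E n → E n}
    {Df : E n → E n →L[ℝ] E n} {K : E n → ℝ} (H : GM n D f Df K) {O : Set (E n)} (hO : IsOpen O)
    (hOc : IsPreconnected O) {z : E n} (hz : z ∈ D) (hfz : f z ∈ O)
    (hc : closure (connectedComponentIn (D ∩ f ⁻¹' O) z) ⊆ D) :
    ∃ k : ℕ, 1 ≤ k ∧ HasDeg f Df (connectedComponentIn (D ∩ f ⁻¹' O) z) O k := by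
  have hU : IsOpen (D ∩ f ⁻¹' O) := H.isOpen.inter (hO.preimage H.cont)
  have hopen : IsOpen (connectedComponentIn (D ∩ f ⁻¹' O) z) := hU.connectedComponentIn
  have hfr : ∀ x ∈ frontier (connectedComponentIn (D ∩ f ⁻¹' O) z), f x ∉ O := by
    intro x hx hfx
    exact frontier_component hU hx ⟨hc (frontier_subset_closure hx), hfx⟩
  obtain ⟨k, hk⟩ := H.exists_deg hn hopen hc hO hOc hfr
  refine ⟨k, ?_, hk⟩
  rw [Nat.one_le_iff_ne_zero]
  rintro rfl
  have hmem : z ∈ connectedComponentIn (D ∩ f ⁻¹' O) z := mem_connectedComponentIn ⟨hz, hfz⟩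
  obtain ⟨w, hw, hwf⟩ := const_of_deg_zero hn H hopen isPreconnected_connectedComponentIn hc
    ((connectedComponentIn_subset _ _).trans inter_subset_right) hk hmem
  exact hfr w hw (hwf ▸ hfz)

/-- The component is mapped onto the connected open set. -/
theorem component_surj (hn : 2 ≤ n) {D : Set (E n)} {f : E n → E n}
    {Df : E n → E n →L[ℝ] E n} {K : E n → ℝ} (H : GM n D f Df K) {O : Set (E n)} (hO : IsOpen O)
    (hOc : IsPreconnected O) {z : E n} (hz : z ∈ D) (hfz : f z ∈ O)
    (hc : closure (connectedComponentIn (D ∩ f ⁻¹' O) z) ⊆ D) {y : E n} (hy : y ∈ O) :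
    ∃ x ∈ connectedComponentIn (D ∩ f ⁻¹' O) z, f x = y := by
  by_contra hno
  push Not at hno
  obtain ⟨k, hk1, hk⟩ := component_deg hn H hO hOc hz hfz hc
  have hU : IsOpen (D ∩ f ⁻¹' O) := H.isOpen.inter (hO.preimage H.cont)
  have hopen : IsOpen (connectedComponentIn (D ∩ f ⁻¹' O) z) := hU.connectedComponentIn
  set A := connectedComponentIn (D ∩ f ⁻¹' O) z with hAdef
  have hcomp : IsCompact (closure A) :=
    Metric.isCompact_of_isClosed_isBounded isClosed_closure (H.bdd.subset hc)
  have hyn : y ∉ f '' closure A := by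
    rintro ⟨x, hx, rfl⟩
    by_cases hxA : x ∈ A
    · exact hno x hxA rfl
    · have : x ∈ frontier A := by
        rw [hopen.frontier_eq]; exact ⟨hx, hxA⟩
      exact frontier_component hU this ⟨hc hx, hy⟩
  have hopen2 : IsOpen (O ∩ (f '' closure A)ᶜ) :=
    hO.inter (hcomp.image H.cont).isClosed.isOpen_compl
  obtain ⟨r, hr, hrb⟩ := Metric.isOpen_iff.1 hopen2 y ⟨hy, hyn⟩
  have h0 : k = 0 := deg_zero_of_ball H.cont hopen hk hr (hrb.trans inter_subset_left)
    fun x hx hfx => (hrb hfx).2 ⟨x, subset_closure hx, rfl⟩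
  omega

end CompDeg

/-- Maximum principle: components of preimages of unbounded connected open sets reach out. -/
theorem GM.max_principle (hn : 2 ≤ n) {D : Set (E n)} {f : E n → E n}
    {Df : E n → E n →L[ℝ] E n} {K : E n → ℝ} (H : GM n D f Df K) {O : Set (E n)} (hO : IsOpen O)
    (hOc : IsPreconnected O) (hOb : ¬ Bornology.IsBounded O) {z : E n} (hz : z ∈ D)
    (hfz : f z ∈ O) {x0 : E n} {ρ t : ℝ} (hρ : closedBall x0 ρ ⊆ D) (h1 : dist z x0 ≤ t)
    (h2 : t ≤ ρ) :
    ∃ z' ∈ connectedComponentIn (D ∩ f ⁻¹' O) z, dist z' x0 = t := by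
  by_contra hno
  push Not at hno
  have hzm : z ∈ connectedComponentIn (D ∩ f ⁻¹' O) z := mem_connectedComponentIn ⟨hz, hfz⟩
  have hpre : IsPreconnected (connectedComponentIn (D ∩ f ⁻¹' O) z) :=
    isPreconnected_connectedComponentIn
  have hball : connectedComponentIn (D ∩ f ⁻¹' O) z ⊆ ball x0 t := by
    intro w hw
    by_contra hwb
    have hw' : t ≤ dist w x0 := not_lt.1 hwb
    have hcont : ContinuousOn (fun z => dist z x0) (connectedComponentIn (D ∩ f ⁻¹' O) z) := by
      fun_prop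
    obtain ⟨z', hz', hz't⟩ := hpre.intermediate_value hzm hw hcont ⟨h1, hw'⟩
    exact hno z' hz' hz't
  have hc : closure (connectedComponentIn (D ∩ f ⁻¹' O) z) ⊆ D :=
    ((closure_mono hball).trans closure_ball_subset_closedBall).trans
      ((closedBall_subset_closedBall h2).trans hρ)
  have hcomp : IsCompact (closure (connectedComponentIn (D ∩ f ⁻¹' O) z)) :=
    Metric.isCompact_of_isClosed_isBounded isClosed_closure (H.bdd.subset hc)
  apply hOb
  refine (hcomp.image H.cont).isBounded.subset fun y hy => ?_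
  obtain ⟨x, hx, hxy⟩ := CompDeg.component_surj hn H hO hOc hz hfz hc hy
  exact ⟨x, subset_closure hx, hxy⟩

theorem GM.comp_deg (hn : 2 ≤ n) {D : Set (E n)} {f : E n → E n}
    {Df : E n → E n →L[ℝ] E n} {K : E n → ℝ} (H : GM n D f Df K) {x : E n} {s : ℝ} (hx : x ∈ D)
    (hs : 0 < s) (hc : closure (comp f D x s) ⊆ D) :
    ∃ k : ℕ, 1 ≤ k ∧ HasDeg f Df (comp f D x s) (ball (f x) s) k :=
  CompDeg.component_deg hn H isOpen_ball (convex_ball _ _).isPreconnected hx (mem_ball_self hs) hc

/-- Superadditivity of the degree. -/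
theorem HasDeg.add_le {f : E n → E n} {Df : E n → E n →L[ℝ] E n} {A A₁ A₂ O O' : Set (E n)}
    {k k₁ k₂ : ℕ} (hf : Continuous f) (hD : Measurable Df) (hA : IsOpen A) (hA₁ : IsOpen A₁)
    (hA₂ : IsOpen A₂) (hO' : IsOpen O') (hne : O'.Nonempty) (hb : Bornology.IsBounded O')
    (h : HasDeg f Df A O k) (hsub : O' ⊆ O) (h₁ : HasDeg f Df A₁ O' k₁)
    (h₂ : HasDeg f Df A₂ O' k₂) (hs₁ : A₁ ⊆ A) (hs₂ : A₂ ⊆ A) (hdis : Disjoint A₁ A₂) :
    k₁ + k₂ ≤ k := by
  have e := CompDeg.volume_eq_integral (h.mono hf hA hO' hsub)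
  have e1 := CompDeg.volume_eq_integral h₁
  have e2 := CompDeg.volume_eq_integral h₂
  have hv0 : volume O' ≠ 0 := (hO'.measure_pos volume hne).ne'
  have hvt : volume O' ≠ ⊤ := hb.measure_lt_top.ne
  have hu : (A₁ ∩ f ⁻¹' O') ∪ (A₂ ∩ f ⁻¹' O') ⊆ A ∩ f ⁻¹' O' :=
    union_subset (inter_subset_inter_left _ hs₁) (inter_subset_inter_left _ hs₂)
  have h3 : ((k₁ + k₂ : ℕ) : ℝ≥0∞) * volume O' ≤ (k : ℝ≥0∞) * volume O' := by
    rw [← e, Nat.cast_add, add_mul, ← e1, ← e2, ← lintegral_union
      (hA₂.inter (hO'.preimage hf)).measurableSet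
      (hdis.mono inter_subset_left inter_subset_left)]
    exact lintegral_mono_set hu
  have h4 := (ENNReal.mul_le_mul_iff_left hv0 hvt).1 h3
  exact_mod_cast h4

theorem HasDeg.le {f : E n → E n} {Df : E n → E n →L[ℝ] E n} {A A₁ O O' : Set (E n)}
    {k k₁ : ℕ} (hf : Continuous f) (hA : IsOpen A) (hA₁ : IsOpen A₁) (hO' : IsOpen O')
    (hne : O'.Nonempty) (hb : Bornology.IsBounded O')
    (h : HasDeg f Df A O k) (hsub : O' ⊆ O) (h₁ : HasDeg f Df A₁ O' k₁) (hs₁ : A₁ ⊆ A) :
    k₁ ≤ k := by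
  have e := CompDeg.volume_eq_integral (h.mono hf hA hO' hsub)
  have e1 := CompDeg.volume_eq_integral h₁
  have hv0 : volume O' ≠ 0 := (hO'.measure_pos volume hne).ne'
  have hvt : volume O' ≠ ⊤ := hb.measure_lt_top.ne
  have h3 : (k₁ : ℝ≥0∞) * volume O' ≤ (k : ℝ≥0∞) * volume O' := by
    rw [← e, ← e1]
    exact lintegral_mono_set (inter_subset_inter_left _ hs₁)
  have h4 := (ENNReal.mul_le_mul_iff_left hv0 hvt).1 h3
  exact_mod_cast h4

theorem GM.exists_preimage (hn : 2 ≤ n) {D : Set (E n)} {f : E n → E n}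
    {Df : E n → E n →L[ℝ] E n} {K : E n → ℝ} (H : GM n D f Df K) {z y : E n} {s : ℝ} (hz : z ∈ D)
    (hzy : dist (f z) y < s) (hc : closure (connectedComponentIn (D ∩ f ⁻¹' ball y s) z) ⊆ D) :
    ∃ x ∈ connectedComponentIn (D ∩ f ⁻¹' ball y s) z, f x = y :=
  CompDeg.component_surj hn H isOpen_ball (convex_ball _ _).isPreconnected hz hzy hc
    (mem_ball_self (dist_nonneg.trans_lt hzy))

theorem GM.comp_surj (hn : 2 ≤ n) {D : Set (E n)} {f : E n → E n}
    {Df : E n → E n →L[ℝ] E n} {K : E n → ℝ} (H : GM n D f Df K) {x : E n} {s : ℝ} (hx : x ∈ D)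
    (hs : 0 < s) (hc : closure (comp f D x s) ⊆ D) : f '' comp f D x s = ball (f x) s := by
  refine Subset.antisymm ?_ fun y hy => ?_
  · rintro _ ⟨z, hz, rfl⟩
    exact (comp_subset f D x s hz).2
  · obtain ⟨z, hz, hzy⟩ := CompDeg.component_surj hn H isOpen_ball
      (convex_ball (f x) s).isPreconnected hx (mem_ball_self hs) hc hy
    exact ⟨z, hz, hzy⟩

theorem GM.bloch_of_injOn (hn : 2 ≤ n) {D : Set (E n)} {f : E n → E n}
    {Df : E n → E n →L[ℝ] E n} {K : E n → ℝ} (H : GM n D f Df K) {x : E n} {s : ℝ} (hx : x ∈ D)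
    (hs : 0 < s) (hc : closure (comp f D x s) ⊆ D) (hinj : InjOn f (comp f D x s)) :
    Bloch f D s := by
  have hopen := isOpen_comp H.cont H.isOpen x s
  have himg := H.comp_surj hn hx hs hc
  have hcomp : IsCompact (closure (comp f D x s)) :=
    Metric.isCompact_of_isClosed_isBounded isClosed_closure (H.bdd.subset hc)
  have hmaps : ∀ z : comp f D x s, f z ∈ ball (f x) s := fun z => (comp_subset f D x s z.2).2
  let g : comp f D x s → ball (f x) s := fun z => ⟨f z, hmaps z⟩
  have hgc : Continuous g := (H.cont.comp continuous_subtype_val).subtype_mk _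
  have hgi : Function.Injective g := fun a b hab =>
    Subtype.ext (hinj a.2 b.2 (congrArg Subtype.val hab))
  have hgs : Function.Surjective g := by
    rintro ⟨y, hy⟩
    rw [← himg] at hy
    obtain ⟨z, hz, rfl⟩ := hy
    exact ⟨⟨z, hz⟩, rfl⟩
  have hclosed : IsClosedMap g := by
    intro F hF
    obtain ⟨F', hF', rfl⟩ := isClosed_induced_iff.1 hF
    have hK : IsClosed (f '' (closure (comp f D x s) ∩ F')) :=
      ((hcomp.inter_right hF').image H.cont).isClosed
    have e : g '' (Subtype.val ⁻¹' F') =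
        Subtype.val ⁻¹' (f '' (closure (comp f D x s) ∩ F')) := by
      ext y
      constructor
      · rintro ⟨z, hz, rfl⟩
        exact ⟨z, ⟨subset_closure z.2, hz⟩, rfl⟩
      · rintro ⟨w, ⟨hw1, hw2⟩, hwy⟩
        have hwin : w ∈ comp f D x s := by
          by_contra hwn
          have hfr : w ∈ frontier (comp f D x s) := by
            rw [hopen.frontier_eq]; exact ⟨hw1, hwn⟩
          have h1 := dist_of_mem_frontier_comp H.cont H.isOpen hc hfr
          have h2 : dist (y : E n) (f x) < s := y.2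
          rw [← hwy, h1] at h2
          exact lt_irrefl _ h2
        exact ⟨⟨w, hwin⟩, hw2, Subtype.ext hwy⟩
    rw [e]
    exact hK.preimage continuous_subtype_val
  let e : comp f D x s ≃ ball (f x) s := Equiv.ofBijective g ⟨hgi, hgs⟩
  let h : comp f D x s ≃ₜ ball (f x) s := e.toHomeomorphOfContinuousClosed hgc hclosed
  exact ⟨f x, comp f D x s, (comp_subset f D x s).trans inter_subset_left, hopen, h,
    fun z => rfl⟩

theorem Bloch.mono {f : E n → E n} {D : Set (E n)} {r r' : ℝ} (h : Bloch f D r) (hr' : 0 < r')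
    (hle : r' ≤ r) (hf : Continuous f) : Bloch f D r' := by
  obtain ⟨y, U, hUD, hU, h, hh⟩ := h
  refine ⟨y, U ∩ f ⁻¹' ball y r', inter_subset_left.trans hUD, hU.inter
    (isOpen_ball.preimage hf), ?_⟩
  have hb : ball y r' ⊆ ball y r := ball_subset_ball hle
  refine ⟨⟨⟨fun x => ⟨f x, x.2.2⟩, fun z => ⟨h.symm ⟨z, hb z.2⟩, ?_, ?_⟩, ?_, ?_⟩, ?_, ?_⟩,
    fun x => rfl⟩
  · exact (h.symm ⟨z, hb z.2⟩).2
  · show f (h.symm ⟨z, hb z.2⟩) ∈ ball y r'
    rw [← hh, h.apply_symm_apply]
    exact z.2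
  · rintro ⟨x, hx1, hx2⟩
    apply Subtype.ext
    have h1 : h ⟨x, hx1⟩ = ⟨f x, hb hx2⟩ := Subtype.ext (hh ⟨x, hx1⟩)
    show ((h.symm ⟨f x, hb hx2⟩ : U) : E n) = x
    rw [← h1, h.symm_apply_apply]
  · rintro ⟨z, hz⟩
    apply Subtype.ext
    show f (h.symm ⟨z, hb hz⟩) = z
    rw [← hh, h.apply_symm_apply]
  · exact (hf.comp continuous_subtype_val).subtype_mk _
  · refine Continuous.subtype_mk ?_ _
    exact continuous_subtype_val.comp (h.symm.continuous.comp
      (continuous_subtype_val.subtype_mk _))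

theorem GM.injOn_of_deg_one (hn : 2 ≤ n) {D : Set (E n)} {f : E n → E n}
    {Df : E n → E n →L[ℝ] E n} {K : E n → ℝ} (H : GM n D f Df K) {A O : Set (E n)}
    (hA : IsOpen A) (hAD : A ⊆ D) (hO : IsOpen O) (hdeg : HasDeg f Df A O 1)
    (light : ∀ a ∈ A, ∀ δ > 0, ∃ s > 0, comp f D a s ⊆ closedBall a δ) :
    InjOn f (A ∩ f ⁻¹' O) := by
  rintro a ⟨haA, haO⟩ b ⟨hbA, hbO⟩ hab
  by_contra hne
  have hd : 0 < dist a b := dist_pos.2 hne
  obtain ⟨δa, hδa, hBa⟩ := Metric.nhds_basis_closedBall.mem_iff.1 (hA.mem_nhds haA)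
  obtain ⟨δb, hδb, hBb⟩ := Metric.nhds_basis_closedBall.mem_iff.1 (hA.mem_nhds hbA)
  obtain ⟨rO, hrO, hrOb⟩ := Metric.isOpen_iff.1 hO (f a) haO
  set δ := min (min δa δb) (dist a b / 3) with hδ
  have hδ0 : 0 < δ := lt_min (lt_min hδa hδb) (by linarith)
  have hδ1 : δ ≤ δa := (min_le_left _ _).trans (min_le_left _ _)
  have hδ2 : δ ≤ δb := (min_le_left _ _).trans (min_le_right _ _)
  have hδ3 : δ ≤ dist a b / 3 := min_le_right _ _
  obtain ⟨sa, hsa, hca⟩ := light a haA δ hδ0
  obtain ⟨sb, hsb, hcb⟩ := light b hbA δ hδ0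
  set s := min (min sa sb) rO with hs
  have hs0 : 0 < s := lt_min (lt_min hsa hsb) hrO
  have hmono : ∀ (c : E n) (u : ℝ), s ≤ u → comp f D c s ⊆ comp f D c u := fun c u hu =>
    connectedComponentIn_mono c (inter_subset_inter_right D (preimage_mono (ball_subset_ball hu)))
  have hca' : comp f D a s ⊆ closedBall a δ :=
    (hmono a sa ((min_le_left _ _).trans (min_le_left _ _))).trans hca
  have hcb' : comp f D b s ⊆ closedBall b δ :=
    (hmono b sb ((min_le_left _ _).trans (min_le_right _ _))).trans hcb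
  have hAa : closedBall a δ ⊆ A := (closedBall_subset_closedBall hδ1).trans hBa
  have hAb : closedBall b δ ⊆ A := (closedBall_subset_closedBall hδ2).trans hBb
  obtain ⟨k₁, hk₁, hd₁⟩ := H.comp_deg hn (hAD haA) hs0
    ((closure_minimal hca' isClosed_closedBall).trans (hAa.trans hAD))
  obtain ⟨k₂, hk₂, hd₂⟩ := H.comp_deg hn (hAD hbA) hs0
    ((closure_minimal hcb' isClosed_closedBall).trans (hAb.trans hAD))
  rw [← hab] at hd₂
  have hdis : Disjoint (comp f D a s) (comp f D b s) := by
    rw [Set.disjoint_left]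
    intro w hw1 hw2
    have h1 : dist w a ≤ δ := hca' hw1
    have h2 : dist w b ≤ δ := hcb' hw2
    have h3 : dist a b ≤ dist w a + dist w b := dist_triangle_left a b w
    linarith
  have := HasDeg.add_le H.cont H.meas hA (isOpen_comp H.cont H.isOpen a s)
    (isOpen_comp H.cont H.isOpen b s) isOpen_ball ⟨f a, mem_ball_self hs0⟩ isBounded_ball hdeg
    ((ball_subset_ball (min_le_right _ _)).trans hrOb) hd₁ hd₂ (hca'.trans hAa) (hcb'.trans hAb)
    hdis
  omega

end Pool.Agent.MP_dd09c0_an
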