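import Pool.Agent.MP_dd09c0_an.Defs

/-!
# The energy inequality (Hölder and distortion)
-/

open MeasureTheory Metric Set Filter Topology
open scoped ENNReal NNReal ContDiff RealInnerProductSpace

namespace Pool.Agent.MP_dd09c0_an

variable {n : ℕ}

namespace EnergyAux

/-- pointwise distortion inequality, raised to the energy exponent -/
theorem pointwise (hn : 2 ≤ n) {D : Set (E n)} {f : E n → E n} {Df : E n → E n →L[ℝ] E n}
    {K : E n → ℝ} (H : GM n D f Df K) (t : ℝ≥0∞) (x : E n) :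
    (t * ‖Df x‖ₑ) ^ pex n ≤ (t ^ n * ENNReal.ofReal (Df x).det) ^ (1 - 1 / (2 * n) : ℝ) *
      (ENNReal.ofReal (K x) ^ (2 * n - 1)) ^ (1 / (2 * n) : ℝ) := by
  have hn0 : (2 : ℝ) ≤ n := by exact_mod_cast hn
  have hK : 0 ≤ K x := by linarith [H.one_le x]
  have e1 : pex n = (n : ℝ) * (1 - 1 / (2 * n)) := by
    rw [pex]; field_simp
  have e2 : (0 : ℝ) ≤ 1 - 1 / (2 * n) := by
    have : (1 : ℝ) / (2 * n) ≤ 1 := by
      rw [div_le_one (by linarith)]; linarith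
    linarith
  have h1 : (t * ‖Df x‖ₑ) ^ n ≤ (t ^ n * ENNReal.ofReal (Df x).det) * ENNReal.ofReal (K x) := by
    rw [mul_pow, mul_assoc]
    gcongr
    rw [← ENNReal.ofReal_mul' hK, mul_comm (Df x).det, ← ofReal_norm,
      ← ENNReal.ofReal_pow (norm_nonneg _)]
    exact ENNReal.ofReal_le_ofReal (H.dist_le x)
  rw [e1, ENNReal.rpow_mul, ENNReal.rpow_natCast]
  refine (ENNReal.rpow_le_rpow h1 e2).trans ?_
  rw [ENNReal.mul_rpow_of_nonneg _ _ e2]
  gcongr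
  rw [← ENNReal.rpow_natCast, ← ENNReal.rpow_mul]
  apply le_of_eq
  congr 1
  have : 1 ≤ 2 * n := by omega
  push_cast [Nat.cast_sub this]
  field_simp

/-- pointwise distortion inequality, raised to the exponent `n - 1` -/
theorem pointwise' (hn : 2 ≤ n) {D : Set (E n)} {f : E n → E n} {Df : E n → E n →L[ℝ] E n}
    {K : E n → ℝ} (H : GM n D f Df K) (t : ℝ≥0∞) (x : E n) :
    (t * ‖Df x‖ₑ) ^ (n - 1) ≤ (t ^ n * ENNReal.ofReal (Df x).det) ^ (1 - 1 / n : ℝ) *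
      (ENNReal.ofReal (K x) ^ (n - 1)) ^ (1 / n : ℝ) := by
  have hn0 : (2 : ℝ) ≤ n := by exact_mod_cast hn
  have hK : 0 ≤ K x := by linarith [H.one_le x]
  have h1n : 1 ≤ n := by omega
  have e1 : (((n - 1 : ℕ) : ℝ)) = (n : ℝ) * (1 - 1 / n) := by
    push_cast [Nat.cast_sub h1n]; field_simp
  have e2 : (0 : ℝ) ≤ 1 - 1 / n := by
    have : (1 : ℝ) / n ≤ 1 := by
      rw [div_le_one (by linarith)]; linarith
    linarith
  have h1 : (t * ‖Df x‖ₑ) ^ n ≤ (t ^ n * ENNReal.ofReal (Df x).det) * ENNReal.ofReal (K x) := by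
    rw [mul_pow, mul_assoc]
    gcongr
    rw [← ENNReal.ofReal_mul' hK, mul_comm (Df x).det, ← ofReal_norm,
      ← ENNReal.ofReal_pow (norm_nonneg _)]
    exact ENNReal.ofReal_le_ofReal (H.dist_le x)
  rw [← ENNReal.rpow_natCast (t * ‖Df x‖ₑ), e1, ENNReal.rpow_mul, ENNReal.rpow_natCast]
  refine (ENNReal.rpow_le_rpow h1 e2).trans ?_
  rw [ENNReal.mul_rpow_of_nonneg _ _ e2]
  gcongr
  rw [← ENNReal.rpow_natCast, ← ENNReal.rpow_mul]
  apply le_of_eq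
  congr 1
  push_cast [Nat.cast_sub h1n]
  field_simp

/-- solving the inequality `I ≤ A I^(1-1/n) B^(1/n)` -/
theorem solve (hn : 1 ≤ n) {I A B : ℝ≥0∞} (hI : I ≠ ⊤)
    (h : I ≤ A * (I ^ (1 - 1 / n : ℝ) * B ^ (1 / n : ℝ))) : I ≤ A ^ n * B := by
  have hn0 : (0 : ℝ) < n := by exact_mod_cast hn
  rcases eq_or_ne I 0 with h0 | h0
  · rw [h0]; exact zero_le
  have e2 : (0 : ℝ) ≤ 1 - 1 / n := by
    have : (1 : ℝ) / n ≤ 1 := by
      rw [div_le_one hn0]; exact_mod_cast hn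
    linarith
  have h1 : I ^ (1 / n : ℝ) * I ^ (1 - 1 / n : ℝ) ≤
      (A * B ^ (1 / n : ℝ)) * I ^ (1 - 1 / n : ℝ) := by
    rw [← ENNReal.rpow_add _ _ h0 hI]
    calc I ^ (1 / n + (1 - 1 / n) : ℝ) = I := by
          rw [show (1 / n + (1 - 1 / n) : ℝ) = 1 by ring, ENNReal.rpow_one]
      _ ≤ A * (I ^ (1 - 1 / n : ℝ) * B ^ (1 / n : ℝ)) := h
      _ = (A * B ^ (1 / n : ℝ)) * I ^ (1 - 1 / n : ℝ) := by ring
  have h2 : I ^ (1 / n : ℝ) ≤ A * B ^ (1 / n : ℝ) := by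
    refine (ENNReal.mul_le_mul_iff_left ?_ ?_).1 h1
    · exact (ENNReal.rpow_pos (pos_iff_ne_zero.2 h0) hI).ne'
    · exact ENNReal.rpow_ne_top_of_nonneg e2 hI
  have h3 := pow_le_pow_left' h2 n
  rw [mul_pow, ← ENNReal.rpow_natCast (I ^ _), ← ENNReal.rpow_natCast (B ^ _),
    ← ENNReal.rpow_mul, ← ENNReal.rpow_mul, one_div, inv_mul_cancel₀ hn0.ne', ENNReal.rpow_one,
    ENNReal.rpow_one] at h3
  exact h3

end EnergyAux

theorem GM.energy_le (hn : 2 ≤ n) {D : Set (E n)} {f : E n → E n} {Df : E n → E n →L[ℝ] E n}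
    {K : E n → ℝ} (H : GM n D f Df K) (S : Set (E n)) (g : E n → ℝ≥0∞) (hg : Measurable g) :
    ∫⁻ x in S, (g x * ‖Df x‖ₑ) ^ pex n ≤
      (∫⁻ x in S, g x ^ n * ENNReal.ofReal (Df x).det) ^ (1 - 1 / (2 * n) : ℝ) *
      (∫⁻ x in S, ENNReal.ofReal (K x) ^ (2 * n - 1)) ^ (1 / (2 * n) : ℝ) := by
  have hn0 : (2 : ℝ) ≤ n := by exact_mod_cast hn
  have hdet : Measurable (fun x => (Df x).det) :=
    ContinuousLinearMap.continuous_det.measurable.comp H.meas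
  refine (lintegral_mono fun x => EnergyAux.pointwise hn H (g x) x).trans ?_
  apply ENNReal.lintegral_mul_norm_pow_le
  · exact ((hg.pow_const n).mul hdet.ennreal_ofReal).aemeasurable
  · exact ((H.measK.ennreal_ofReal).pow_const _).aemeasurable
  · have : (1 : ℝ) / (2 * n) ≤ 1 := by
      rw [div_le_one (by linarith)]; linarith
    linarith
  · positivity
  · ring

end Pool.Agent.MP_dd09c0_an
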