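import Pool.Agent.MP_dd09c0_an.EnergyLower
import Pool.Agent.MP_dd09c0_an.Energy
import Pool.Agent.MP_dd09c0_an.Cutoff

/-!
# Small components
-/

open MeasureTheory Metric Set Filter Topology
open scoped ENNReal NNReal ContDiff RealInnerProductSpace

namespace Pool.Agent.MP_dd09c0_an

variable {n : ℕ}

theorem comp_in_ball (n : ℕ) (hn : 3 ≤ n) : ∃ c : ℝ, 0 < c ∧ ∀ (f : E n → E n)
    (Df : E n → E n →L[ℝ] E n) (K : E n → ℝ), GM n (ball 0 8) f Df K →
    1 ≤ diam (f '' ball 0 1) → ∀ T : ℝ, 1 ≤ T →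
    ∫⁻ z in ball (0 : E n) 8, ENNReal.ofReal (K z) ^ (2 * n - 1) ≤ ENNReal.ofReal T →
    ∀ (x : E n) (s : ℝ), x ∈ ball (0 : E n) 3 → 0 < s → s ≤ Real.exp (-4) →
    ∫⁻ z in {z | z ∈ ball (0 : E n) 7 ∧ s < dist (f z) (f x) ∧ dist (f z) (f x) < 1},
        ENNReal.ofReal ((Df z).det / dist (f z) (f x) ^ n)
      < ENNReal.ofReal (c * Real.log (1 / s) ^ n / T) →
    comp f (ball 0 8) x s ⊆ ball x (1 / 16) := by
  have h2n : 2 ≤ n := by omega
  have hn0 : (3 : ℝ) ≤ n := by exact_mod_cast hn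
  obtain ⟨c0, hc0, cap⟩ := cap_ball n h2n
  obtain ⟨C, hC1, cut⟩ := exists_log_cutoff n (by omega)
  have hC0 : 0 < C := by linarith
  refine ⟨min 1 (c0 ^ 2) / (2 * C) ^ n, by positivity, ?_⟩
  intro f Df K H hdiam T hT hK x s hx hs hs4 hI
  have hT0 : 0 < T := by linarith
  by_contra hcon
  have hJ : ∀ z, 0 ≤ (Df z).det := by
    intro z
    have h1 := H.dist_le z
    have h2 := H.one_le z
    have h3 : 0 ≤ ‖Df z‖ ^ n := by positivity
    by_contra hc
    push Not at hc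
    nlinarith
  have hx8 : x ∈ ball (0 : E n) 8 := ball_subset_ball (by norm_num) hx
  have hcont := H.cont
  -- the logarithm
  set ℓ : ℝ := Real.log (1 / s) with hℓ
  have hℓ4 : 4 ≤ ℓ := by
    rw [hℓ, Real.le_log_iff_exp_le (by positivity), le_div_iff₀ hs]
    have : Real.exp 4 * s ≤ Real.exp 4 * Real.exp (-4) := by gcongr
    rwa [← Real.exp_add, add_neg_cancel, Real.exp_zero] at this
  have hlog : ℓ / 2 ≤ Real.log (1 / 4 / s) := by
    have h1 : Real.log (1 / 4 / s) = ℓ - Real.log 4 := by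
      rw [hℓ, div_right_comm, Real.log_div (by positivity) (by norm_num)]
    have h2 : Real.log 4 ≤ 2 := by
      rw [Real.log_le_iff_le_exp (by norm_num)]
      have h3 : (2 : ℝ) ≤ Real.exp 1 := by have := Real.add_one_le_exp (1 : ℝ); linarith
      have h4 : Real.exp 2 = Real.exp 1 ^ 2 := by rw [← Real.exp_nat_mul]; norm_num
      rw [h4]; nlinarith
    linarith
  have hse : s * Real.exp 1 ≤ 1 / 4 := by
    have h1 : s * Real.exp 1 ≤ Real.exp (-4) * Real.exp 1 := by gcongr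
    rw [← Real.exp_add, show (-4 + 1 : ℝ) = -3 by norm_num, Real.exp_neg] at h1
    have h3 : (2 : ℝ) ≤ Real.exp 1 := by have := Real.add_one_le_exp (1 : ℝ); linarith
    have h4 : Real.exp 3 = Real.exp 1 ^ 3 := by rw [← Real.exp_nat_mul]; norm_num
    have h5 : (4 : ℝ) ≤ Real.exp 3 := by
      rw [h4]
      calc (4 : ℝ) ≤ 2 ^ 3 := by norm_num
        _ ≤ _ := by gcongr
    have h6 : (Real.exp 3)⁻¹ ≤ 1 / 4 := by
      rw [← one_div]; exact one_div_le_one_div_of_le (by norm_num) h5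
    linarith
  obtain ⟨Φ, b', hb', hΦs, hΦ01, hΦ1, hΦ0, hΦd, hΦz, -⟩ := cut (f x) s (1 / 4) hs hse
  -- the first set
  have hx_mem : x ∈ comp f (ball 0 8) x s := mem_comp hx8 hs
  have v1 : ENNReal.ofReal (7 / 256) ≤ volume ((fun z : E n => dist z x) ''
      (comp f (ball 0 8) x s ∩ ball x (1 / 16))) := by
    apply LowerAux.volume_image (t0 := 0) (ρ := 1 / 16) _ (by norm_num)
    intro t ht ht'
    obtain ⟨z, hz, hzt⟩ := exists_dist_eq (comp_preconn f (ball 0 8) x s) hx_mem hcon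
      (by rw [dist_self]; exact ht.le) ht'
    exact ⟨z, ⟨hz, mem_ball.2 (by rw [hzt]; exact ht')⟩, hzt⟩
  -- the second set
  obtain ⟨b, hb, hfb⟩ : ∃ b ∈ ball (0 : E n) 1, 1 / 4 < dist (f b) (f x) := by
    by_contra hc
    push Not at hc
    have : diam (f '' ball 0 1) ≤ 1 / 2 := by
      apply diam_le_of_forall_dist_le (by norm_num)
      rintro _ ⟨a, ha, rfl⟩ _ ⟨b, hb, rfl⟩
      have h1 := hc a ha
      have h2 := hc b hb
      have h3 := dist_triangle_right (f a) (f b) (f x)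
      linarith
    linarith
  set O : Set (E n) := {z | 1 / 4 < dist z (f x)} with hO
  have oO : IsOpen O := isOpen_lt continuous_const (continuous_id.dist continuous_const)
  have hb8 : b ∈ ball (0 : E n) 8 := ball_subset_ball (by norm_num) hb
  have m2 : ∀ t, 1 < t → t < 7 / 2 → ∃ z ∈ connectedComponentIn (ball 0 8 ∩ f ⁻¹' O) b,
      dist z 0 = t := fun t ht ht' =>
    H.max_principle h2n oO (isPreconnected_dist_gt h2n _ _)
      (not_isBounded_dist_gt (by omega) _ _) hb8 hfb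
      (closedBall_subset_ball (show (7 / 2 : ℝ) < 8 by norm_num))
      (by rw [mem_ball] at hb; linarith) ht'.le
  have v2 : ENNReal.ofReal (7 / 256) ≤ volume ((fun z : E n => dist z 0) ''
      (connectedComponentIn (ball 0 8 ∩ f ⁻¹' O) b ∩ ball 0 (7 / 2))) := by
    apply LowerAux.volume_image (t0 := 1) (ρ := 7 / 2) _ (by norm_num)
    intro t ht ht'
    obtain ⟨z, hz, hzt⟩ := m2 t ht ht'
    exact ⟨z, ⟨hz, mem_ball.2 (by rw [hzt]; exact ht')⟩, hzt⟩
  -- the function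
  have hwd := H.wd_comp' h2n hΦs
  have hug := hwd.ug H.isOpen
  have hfd : Continuous (fderiv ℝ Φ) := hΦs.continuous_fderiv (by simp)
  have hm1 : Measurable (fun z => fderiv ℝ Φ (f z)) := (hfd.comp hcont).measurable
  have hmeas : Measurable (fun z => ‖(fderiv ℝ Φ (f z)).comp (Df z)‖ₑ) := by
    have hc2 : Continuous (fun q : (E n →L[ℝ] ℝ) × (E n →L[ℝ] E n) => q.1.comp q.2) := by fun_prop
    exact (hc2.measurable.comp (hm1.prodMk H.meas)).enorm
  have hD7 : closedBall (0 : E n) 7 ⊆ ball 0 8 := closedBall_subset_ball (by norm_num)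
  have F1sub : comp f (ball 0 8) x s ∩ ball x (1 / 16) ⊆ ball 0 (7 / 2) := by
    intro z hz
    have h1 := mem_ball.1 hz.2
    have h2 := mem_ball.1 hx
    have h3 := dist_triangle z x 0
    exact mem_ball.2 (by linarith)
  have w1 : ∀ z ∈ comp f (ball 0 8) x s ∩ ball x (1 / 16), 1 ≤ Φ (f z) := by
    intro z hz
    have h1 : dist (f z) (f x) < s := (comp_subset f (ball 0 8) x s hz.1).2
    rw [hΦ1 (f z) (mem_closedBall.2 h1.le)]
  have w2 : ∀ z ∈ connectedComponentIn (ball 0 8 ∩ f ⁻¹' O) b ∩ ball 0 (7 / 2), Φ (f z) ≤ 0 := by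
    intro z hz
    have h1 : 1 / 4 < dist (f z) (f x) := (connectedComponentIn_subset _ _ hz.1).2
    rw [hΦ0 (f z) (by linarith)]
  have key := cap (ball 0 8) (fun z => Φ (f z)) _ hug hmeas 0 7 (by norm_num) hD7 _ _
    F1sub inter_subset_right w1 w2 _ _ (LowerAux.lip_dist x) (LowerAux.lip_dist 0) v1 v2
  -- energy estimate
  have s1 : ∫⁻ z in ball (0 : E n) 7, ‖(fderiv ℝ Φ (f z)).comp (Df z)‖ₑ ^ pex n ≤
      ∫⁻ z in ball (0 : E n) 7, (‖fderiv ℝ Φ (f z)‖ₑ * ‖Df z‖ₑ) ^ pex n := by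
    refine lintegral_mono fun z => ?_
    apply ENNReal.rpow_le_rpow _ (by rw [pex]; linarith)
    rw [← ofReal_norm, ← ofReal_norm, ← ofReal_norm, ← ENNReal.ofReal_mul (norm_nonneg _)]
    exact ENNReal.ofReal_le_ofReal (ContinuousLinearMap.opNorm_comp_le _ _)
  have s2 := H.energy_le h2n (ball (0 : E n) 7) (fun z => ‖fderiv ℝ Φ (f z)‖ₑ) hm1.enorm
  have hm7 : MeasurableSet {z : E n | z ∈ ball (0 : E n) 7 ∧ s < dist (f z) (f x) ∧
      dist (f z) (f x) < 1} := by
    apply measurableSet_ball.inter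
    apply MeasurableSet.inter
    · exact (isOpen_lt continuous_const (hcont.dist continuous_const)).measurableSet
    · exact (isOpen_lt (hcont.dist continuous_const) continuous_const).measurableSet
  have s3 : ∫⁻ z in ball (0 : E n) 7, ‖fderiv ℝ Φ (f z)‖ₑ ^ n * ENNReal.ofReal (Df z).det ≤
      ENNReal.ofReal ((2 * C / ℓ) ^ n) *
      ∫⁻ z in {z | z ∈ ball (0 : E n) 7 ∧ s < dist (f z) (f x) ∧ dist (f z) (f x) < 1},
        ENNReal.ofReal ((Df z).det / dist (f z) (f x) ^ n) := by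
    rw [← lintegral_const_mul' _ _ ENNReal.ofReal_ne_top, ← lintegral_indicator measurableSet_ball,
      ← lintegral_indicator hm7]
    refine lintegral_mono fun z => ?_
    by_cases hz : z ∈ ball (0 : E n) 7
    · rw [indicator_of_mem hz]
      by_cases hz' : s < dist (f z) (f x) ∧ dist (f z) (f x) < 1 / 4
      · have hd0 : 0 < dist (f z) (f x) := hs.trans hz'.1
        rw [indicator_of_mem (show z ∈ {z : E n | z ∈ ball (0 : E n) 7 ∧ s < dist (f z) (f x) ∧
          dist (f z) (f x) < 1} from ⟨hz, hz'.1, by linarith [hz'.2]⟩), ← ofReal_norm,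
          ← ENNReal.ofReal_pow (norm_nonneg _), ← ENNReal.ofReal_mul (by positivity),
          ← ENNReal.ofReal_mul (by positivity)]
        apply ENNReal.ofReal_le_ofReal
        have h1 := hΦd (f z) hz'.1 hz'.2
        have h2 : C / (dist (f z) (f x) * Real.log (1 / 4 / s)) ≤
            C / (dist (f z) (f x) * (ℓ / 2)) := by gcongr
        calc ‖fderiv ℝ Φ (f z)‖ ^ n * (Df z).det
            ≤ (C / (dist (f z) (f x) * (ℓ / 2))) ^ n * (Df z).det := by
              gcongr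
              · exact hJ z
              · exact h1.trans h2
          _ = (2 * C / ℓ) ^ n * ((Df z).det / dist (f z) (f x) ^ n) := by
              rw [div_pow, div_pow, mul_pow (dist (f z) (f x)), div_pow, mul_pow]
              field_simp
      · rw [hΦz (f z) hz', ← ofReal_norm, norm_zero, ENNReal.ofReal_zero, zero_pow (by omega),
          zero_mul]
        exact zero_le
    · rw [indicator_of_notMem hz]
      exact zero_le
  have s4 : ∫⁻ z in ball (0 : E n) 7, ENNReal.ofReal (K z) ^ (2 * n - 1) ≤ ENNReal.ofReal T :=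
    (lintegral_mono_set (ball_subset_ball (by norm_num))).trans hK
  have hexp : (0 : ℝ) ≤ 1 / (2 * n) := by positivity
  have hexp2 : (1 : ℝ) / (2 * n) ≤ 1 / 2 := by
    rw [div_le_div_iff₀ (by linarith) (by norm_num)]; linarith
  set q : ℝ := min 1 (c0 ^ 2) with hq
  have hq0 : 0 < q := by positivity
  have hq1 : q ≤ 1 := min_le_left _ _
  have hq2 : q ≤ c0 ^ 2 := min_le_right _ _
  have s5 : ENNReal.ofReal ((2 * C / ℓ) ^ n) *
      ∫⁻ z in {z | z ∈ ball (0 : E n) 7 ∧ s < dist (f z) (f x) ∧ dist (f z) (f x) < 1},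
        ENNReal.ofReal ((Df z).det / dist (f z) (f x) ^ n) ≤ ENNReal.ofReal (q / T) := by
    calc _ ≤ ENNReal.ofReal ((2 * C / ℓ) ^ n) *
          ENNReal.ofReal (q / (2 * C) ^ n * ℓ ^ n / T) := by gcongr
      _ = ENNReal.ofReal (q / T) := by
        rw [← ENNReal.ofReal_mul (by positivity), div_pow]
        congr 1
        field_simp
  have s6 : ∫⁻ z in ball (0 : E n) 7, ‖(fderiv ℝ Φ (f z)).comp (Df z)‖ₑ ^ pex n ≤
      ENNReal.ofReal ((q / T) ^ (1 - 1 / (2 * n) : ℝ) * T ^ (1 / (2 * n) : ℝ)) := by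
    refine (s1.trans s2).trans ?_
    rw [ENNReal.ofReal_mul (by positivity), ← ENNReal.ofReal_rpow_of_nonneg (by positivity)
      (by linarith), ← ENNReal.ofReal_rpow_of_nonneg (by positivity) hexp]
    gcongr
    · linarith
    · exact s3.trans s5
  have s7 : (q / T) ^ (1 - 1 / (2 * n) : ℝ) * T ^ (1 / (2 * n) : ℝ) ≤ c0 := by
    rw [div_eq_mul_inv, Real.mul_rpow hq0.le (by positivity), Real.inv_rpow hT0.le, mul_assoc,
      ← Real.rpow_neg hT0.le, ← Real.rpow_add hT0]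
    have h1 : T ^ (-(1 - 1 / (2 * n)) + 1 / (2 * n) : ℝ) ≤ 1 := by
      apply Real.rpow_le_one_of_one_le_of_nonpos hT
      linarith
    have h2 : q ^ (1 - 1 / (2 * n) : ℝ) ≤ c0 := by
      calc q ^ (1 - 1 / (2 * n) : ℝ) ≤ q ^ (1 / 2 : ℝ) :=
            Real.rpow_le_rpow_of_exponent_ge hq0 hq1 (by linarith)
        _ ≤ (c0 ^ 2) ^ (1 / 2 : ℝ) := by gcongr
        _ = c0 := by rw [← Real.sqrt_eq_rpow, Real.sqrt_sq hc0.le]
    calc _ ≤ c0 * 1 := by gcongr
      _ = c0 := mul_one _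
  have s8 : ENNReal.ofReal (c0 * 7 ^ (1 / 2 : ℝ)) ≤ ENNReal.ofReal c0 :=
    key.trans (s6.trans (ENNReal.ofReal_le_ofReal s7))
  rw [ENNReal.ofReal_le_ofReal_iff hc0.le] at s8
  have h7 : (1 : ℝ) < 7 ^ (1 / 2 : ℝ) := Real.one_lt_rpow (by norm_num) (by norm_num)
  nlinarith

end Pool.Agent.MP_dd09c0_an
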