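import Mathlib

/-!
# Mappings of exponentially integrable distortion: definitions

The frozen statement S06387 (Bloch radius for mappings of exponentially integrable distortion)
is proved in this folder.  `GM n D f Df K` is the working notion of a mapping of finite
distortion on the bounded open set `D`: `f` is continuous on the whole space, `Df` is a measurable
representative of its weak differential on `D`, and `K` is a measurable distortion function.
-/

open MeasureTheory Metric Set Filter Topology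
open scoped ENNReal NNReal ContDiff RealInnerProductSpace

namespace Pool.Agent.MP_dd09c0_an

/-- Euclidean space. -/
abbrev E (n : ℕ) := EuclideanSpace ℝ (Fin n)

/-- The energy exponent `n - 1/2`. -/
noncomputable def pex (n : ℕ) : ℝ := (n : ℝ) - 1 / 2

/-- Replace the `i`-th row of `L` by the functional `l`. -/
noncomputable def rowRepl {n : ℕ} (i : Fin n) (l : E n →L[ℝ] ℝ) (L : E n →L[ℝ] E n) :
    E n →L[ℝ] E n :=
  L + (l - (EuclideanSpace.proj i : E n →L[ℝ] ℝ).comp L).smulRight
    (EuclideanSpace.single i (1 : ℝ))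

/-- `w` is continuous on `D` and has the weak derivative `l` there. -/
structure WD {n : ℕ} (D : Set (E n)) (w : E n → ℝ) (l : E n → (E n →L[ℝ] ℝ)) : Prop where
  cont : ContinuousOn w D
  int : LocallyIntegrableOn l D
  weak : ∀ φ : E n → ℝ, ContDiff ℝ ∞ φ → HasCompactSupport φ → tsupport φ ⊆ D →
    ∀ v : E n, ∫ x, w x * fderiv ℝ φ x v = - ∫ x, φ x * l x v

/-- `G` controls the oscillation of averages of the continuous function `w` on `D`. -/
structure UG {n : ℕ} (D : Set (E n)) (w : E n → ℝ) (G : E n → ℝ≥0∞) : Prop where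
  cont : ContinuousOn w D
  seg : ∀ (a b : E n) (r : ℝ), 0 < r →
    (∀ t ∈ Icc (0 : ℝ) 1, closedBall (AffineMap.lineMap a b t : E n) r ⊆ D) →
    ∀ S : Set (E n), (∀ t ∈ Icc (0 : ℝ) 1, ball (AffineMap.lineMap a b t : E n) r ⊆ S) →
    ENNReal.ofReal |(⨍ x in ball a r, w x) - (⨍ x in ball b r, w x)| * volume (ball a r)
      ≤ ENNReal.ofReal (dist a b) * ∫⁻ x in S, G x
  shrink : ∀ (a : E n) (r : ℝ), 0 < r → closedBall a r ⊆ D →
    ENNReal.ofReal |(⨍ x in ball a (r / 2), w x) - (⨍ x in ball a r, w x)| * volume (ball a r)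
      ≤ 2 ^ n * ENNReal.ofReal r * ∫⁻ x in ball a r, G x

/-- Mapping of finite distortion, globally continuous, on the bounded open set `D`. -/
structure GM (n : ℕ) (D : Set (E n)) (f : E n → E n) (Df : E n → E n →L[ℝ] E n)
    (K : E n → ℝ) : Prop where
  isOpen : IsOpen D
  bdd : Bornology.IsBounded D
  cont : Continuous f
  meas : Measurable Df
  measK : Measurable K
  one_le : ∀ x, 1 ≤ K x
  dist_le : ∀ x, ‖Df x‖ ^ n ≤ K x * (Df x).det
  intJ : IntegrableOn (fun x => (Df x).det) D
  intK : ∃ m : ℝ, 0 < m ∧ IntegrableOn (fun x => Real.exp (m * K x)) D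
  weak : ∀ φ : E n → ℝ, ContDiff ℝ ∞ φ → HasCompactSupport φ → tsupport φ ⊆ D →
    ∀ v : E n, ∫ x, fderiv ℝ φ x v • f x = - ∫ x, φ x • Df x v

/-- The map `f` has degree `k` from `A` over the open set `O` (measure form: the push-forward of
the Jacobian measure on `A` is `k` times Lebesgue measure on `O`). -/
def HasDeg {n : ℕ} (f : E n → E n) (Df : E n → E n →L[ℝ] E n) (A O : Set (E n)) (k : ℕ) : Prop :=
  ∀ η : E n → ℝ≥0∞, Measurable η →
    ∫⁻ x in A ∩ f ⁻¹' O, η (f x) * ENNReal.ofReal (Df x).det = k * ∫⁻ z in O, η z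

/-- The component containing `x` of the preimage of the ball `B(f(x),s)`. -/
def comp {n : ℕ} (f : E n → E n) (D : Set (E n)) (x : E n) (s : ℝ) : Set (E n) :=
  connectedComponentIn (D ∩ f ⁻¹' ball (f x) s) x

/-- The averages of `K ^ (2n-1)` around `x` are at most `X` for all radii up to `r0`. -/
def Typ {n : ℕ} (K : E n → ℝ) (x : E n) (r0 X : ℝ) : Prop :=
  ∀ r : ℝ, 0 < r → r ≤ r0 →
    ∫⁻ z in ball x r, ENNReal.ofReal (K z) ^ (2 * n - 1) ≤ ENNReal.ofReal (X * r ^ n)

/-- Some open subset of `D` is mapped by `f` homeomorphically onto a ball of radius `r`. -/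
def Bloch {n : ℕ} (f : E n → E n) (D : Set (E n)) (r : ℝ) : Prop :=
  ∃ y : E n, ∃ U ⊆ D, IsOpen U ∧ ∃ h : U ≃ₜ ball y r, ∀ x : U, ((h x : E n)) = f x

end Pool.Agent.MP_dd09c0_an
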