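import Pool.Agent.MP_dd09c0_an.CompDeg

/-! Module T3, second half: the values over which the degree is large form a small set. -/

open MeasureTheory Metric Set Filter Topology
open scoped ENNReal NNReal ContDiff RealInnerProductSpace

namespace Pool.Agent.MP_dd09c0_an

theorem deg_cover (n : ℕ) (hn : 1 ≤ n) : ∃ C : ℝ, 1 ≤ C ∧ ∀ (f : E n → E n)
    (Df : E n → E n →L[ℝ] E n) (K : E n → ℝ), GM n (ball 0 8) f Df K → ∀ (s b : ℝ)
    (B : Set (E n)), 0 < s → 0 < b →
    (∀ x ∈ B, x ∈ ball (0 : E n) 3 ∧ comp f (ball 0 8) x s ⊆ ball x (1 / 16) ∧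
      ∃ k : ℕ, b < k ∧ HasDeg f Df (comp f (ball 0 8) x s) (ball (f x) s) k) →
    volume (⋃ x ∈ B, ball (f x) s) ≤ ENNReal.ofReal (C / b) *
      ∫⁻ z in ball (0 : E n) 4, ENNReal.ofReal (Df z).det := by
  refine ⟨5 ^ n, one_le_pow₀ (by norm_num), ?_⟩
  intro f Df K H s b B hs hb hB
  obtain ⟨u, huB, hdis, hcov⟩ := Vitali.exists_disjoint_subfamily_covering_enlargement_closedBall
    B f (fun _ => s) s (fun _ _ => le_rfl) 5 (by norm_num)
  have hcount : u.Countable := by
    refine Set.PairwiseDisjoint.countable_of_isOpen (s := fun x => ball (f x) s) ?_ ?_ ?_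
    · intro x hx y hy hxy
      exact (hdis hx hy hxy).mono ball_subset_closedBall ball_subset_closedBall
    · intro x _; exact isOpen_ball
    · intro x _; exact nonempty_ball.2 hs
  have hsub : (⋃ x ∈ B, ball (f x) s) ⊆ ⋃ x ∈ u, closedBall (f x) (5 * s) := by
    intro y hy
    simp only [mem_iUnion, exists_prop] at hy ⊢
    obtain ⟨x, hx, hyx⟩ := hy
    obtain ⟨x', hx', hsub'⟩ := hcov x hx
    exact ⟨x', hx', hsub' (ball_subset_closedBall hyx)⟩
  -- estimate for one ball
  have hone : ∀ x ∈ u, volume (closedBall (f x) (5 * s)) ≤ ENNReal.ofReal (5 ^ n / b) *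
      ∫⁻ z in comp f (ball 0 8) x s ∩ f ⁻¹' ball (f x) s, ENNReal.ofReal (Df z).det := by
    intro x hx
    obtain ⟨hx3, hxc, k, hbk, hdeg⟩ := hB x (huB hx)
    rw [CompDeg.volume_eq_integral hdeg]
    have e1 : volume (closedBall (f x) (5 * s)) = ENNReal.ofReal (5 ^ n) * volume (ball (f x) s) := by
      have : NeZero n := ⟨by omega⟩
      rw [Measure.addHaar_closedBall_mul _ _ (by norm_num) hs.le,
        Measure.addHaar_closedBall_center, Measure.addHaar_ball_center volume (f x) s,
        Measure.addHaar_closedBall_eq_addHaar_ball]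
      simp
    rw [e1, ← mul_assoc]
    gcongr
    calc ENNReal.ofReal (5 ^ n) = ENNReal.ofReal (5 ^ n / b) * ENNReal.ofReal b := by
          rw [← ENNReal.ofReal_mul (by positivity), div_mul_cancel₀ _ hb.ne']
      _ ≤ ENNReal.ofReal (5 ^ n / b) * (k : ℝ≥0∞) := by
          gcongr
          rw [← ENNReal.ofReal_natCast]
          exact ENNReal.ofReal_le_ofReal hbk.le
  have : Countable u := hcount.to_subtype
  calc volume (⋃ x ∈ B, ball (f x) s)
      ≤ volume (⋃ x ∈ u, closedBall (f x) (5 * s)) := measure_mono hsub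
    _ ≤ ∑' x : u, volume (closedBall (f x) (5 * s)) := by
        rw [biUnion_eq_iUnion]
        exact measure_iUnion_le _
    _ ≤ ∑' x : u, ENNReal.ofReal (5 ^ n / b) *
          ∫⁻ z in comp f (ball 0 8) x s ∩ f ⁻¹' ball (f x) s, ENNReal.ofReal (Df z).det :=
        ENNReal.tsum_le_tsum fun x => hone x x.2
    _ = ENNReal.ofReal (5 ^ n / b) * ∫⁻ z in ⋃ x : u, comp f (ball 0 8) x s ∩ f ⁻¹' ball (f x) s,
          ENNReal.ofReal (Df z).det := by
        rw [ENNReal.tsum_mul_left, lintegral_iUnion]
        · intro x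
          exact ((isOpen_comp H.cont H.isOpen _ _).inter
            (isOpen_ball.preimage H.cont)).measurableSet
        · intro x y hxy
          have h1 : Disjoint (ball (f x) s) (ball (f y) s) :=
            (hdis x.2 y.2 (fun h => hxy (Subtype.ext h))).mono ball_subset_closedBall
              ball_subset_closedBall
          exact (Disjoint.preimage f h1).mono inter_subset_right inter_subset_right
    _ ≤ ENNReal.ofReal (5 ^ n / b) * ∫⁻ z in ball (0 : E n) 4, ENNReal.ofReal (Df z).det := by
        gcongr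
        refine iUnion_subset fun x => ?_
        obtain ⟨hx3, hxc, -⟩ := hB x (huB x.2)
        refine inter_subset_left.trans (hxc.trans ?_)
        refine ball_subset_ball' ?_
        rw [mem_ball] at hx3
        linarith

end Pool.Agent.MP_dd09c0_an
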