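import Pool.Agent.MP_dd09c0_an.DegSmoothA

/-!
# The degree of a smooth map, second part: integrality and homotopy invariance
-/

open MeasureTheory Metric Set Filter Topology
open scoped ENNReal NNReal ContDiff RealInnerProductSpace

namespace Pool.Agent.MP_dd09c0_an

variable {n : ℕ}

namespace DegAux

/-- Sard: a ball contains a regular value. -/
theorem exists_regular {F : E n → E n} (hF : ContDiff ℝ ∞ F) {y : E n} {r : ℝ} (hr : 0 < r) :
    ∃ z ∈ ball y r, ∀ x, F x = z → (fderiv ℝ F x).det ≠ 0 := by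
  by_contra hcon
  push Not at hcon
  have h0 : volume (F '' {x | (fderiv ℝ F x).det = 0}) = 0 := by
    apply addHaar_image_eq_zero_of_det_fderivWithin_eq_zero (f' := fderiv ℝ F)
    · intro x _
      exact (hF.differentiable (by simp) x).hasFDerivAt.hasFDerivWithinAt
    · intro x hx
      exact hx
  have h1 : ball y r ⊆ F '' {x | (fderiv ℝ F x).det = 0} := by
    intro z hz
    obtain ⟨x, hx, hx0⟩ := hcon z hz
    exact ⟨x, hx0, hx⟩
  have h2 := measure_mono (μ := volume) h1
  rw [h0] at h2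
  exact absurd h2 (not_le.2 (measure_ball_pos volume y hr))

/-- Local structure near a regular point. -/
theorem local_struct {F : E n → E n} (hF : ContDiff ℝ ∞ F) {x : E n}
    (hx : (fderiv ℝ F x).det ≠ 0) :
    ∃ V : Set (E n), IsOpen V ∧ x ∈ V ∧ InjOn F V ∧ (∀ W ⊆ V, IsOpen W → IsOpen (F '' W)) ∧
      ∃ s : ℤ, ∀ z ∈ V, (fderiv ℝ F z).det = s * |(fderiv ℝ F z).det| := by
  have hs : HasStrictFDerivAt F (fderiv ℝ F x) x :=
    (hF.contDiffAt).hasStrictFDerivAt (by simp)
  have hs' : HasStrictFDerivAt F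
      (((fderiv ℝ F x).toContinuousLinearEquivOfDetNeZero hx : E n ≃L[ℝ] E n) : E n →L[ℝ] E n)
      x := by
    rw [ContinuousLinearMap.coe_toContinuousLinearEquivOfDetNeZero]
    exact hs
  set e := hs'.toOpenPartialHomeomorph F with he
  have hec : (e : E n → E n) = F := hs'.toOpenPartialHomeomorph_coe
  have hJ := continuous_jac hF
  obtain ⟨N, hNo, hxN, s, hNs⟩ : ∃ N : Set (E n), IsOpen N ∧ x ∈ N ∧ ∃ s : ℤ, ∀ z ∈ N,
      (fderiv ℝ F z).det = s * |(fderiv ℝ F z).det| := by
    rcases lt_or_gt_of_ne hx with h | h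
    · refine ⟨{z | (fderiv ℝ F z).det < 0}, isOpen_lt hJ continuous_const, h, -1, ?_⟩
      intro z hz
      have hz' : (fderiv ℝ F z).det < 0 := hz
      rw [abs_of_neg hz']
      push_cast
      ring
    · refine ⟨{z | 0 < (fderiv ℝ F z).det}, isOpen_lt continuous_const hJ, h, 1, ?_⟩
      intro z hz
      have hz' : 0 < (fderiv ℝ F z).det := hz
      rw [abs_of_pos hz']
      push_cast
      ring
  refine ⟨e.source ∩ N, e.open_source.inter hNo,
    ⟨hs'.mem_toOpenPartialHomeomorph_source, hxN⟩, ?_, ?_, s, fun z hz => hNs z hz.2⟩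
  · intro a ha b hb hab
    exact e.injOn ha.1 hb.1 (by rw [hec]; exact hab)
  · intro W hW hWo
    have := e.isOpen_image_of_subset_source hWo (fun z hz => (hW hz).1)
    rwa [hec] at this

theorem smooth_int {F : E n → E n} (hF : ContDiff ℝ ∞ F) {A : Set (E n)} (hA : IsOpen A)
    (hAb : Bornology.IsBounded A) {y : E n} {r : ℝ} (hr : 0 < r)
    (hfr : ∀ x ∈ frontier A, F x ∉ ball y r) :
    ∃ (m : ℤ) (η : E n → ℝ), Continuous η ∧ HasCompactSupport η ∧ tsupport η ⊆ ball y r ∧
      ∫ z, η z = 1 ∧ ∫ x in A, η (F x) * (fderiv ℝ F x).det = m := by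
  classical
  obtain ⟨z₀, hz₀, hreg⟩ := exists_regular hF hr (y := y)
  set S : Set (E n) := closure A ∩ F ⁻¹' {z₀} with hS
  have hSc : IsCompact S :=
    hAb.isCompact_closure.inter_right (isClosed_singleton.preimage hF.continuous)
  have hSA : S ⊆ A := by
    rintro x ⟨hx1, hx2⟩
    by_contra hxA
    refine hfr x ⟨hx1, fun hx => hxA (interior_subset hx)⟩ ?_
    rw [mem_preimage, mem_singleton_iff] at hx2
    rw [hx2]; exact hz₀
  have hSdet : ∀ x ∈ S, (fderiv ℝ F x).det ≠ 0 := fun x hx => hreg x hx.2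
  choose! V hVo hxV hVinj hVimg s hVs using fun x (hx : (fderiv ℝ F x).det ≠ 0) =>
    local_struct hF hx
  -- finiteness
  have hfin : S.Finite := by
    obtain ⟨t, htS, htc⟩ := hSc.elim_nhds_subcover V
      (fun x hx => (hVo x (hSdet x hx)).mem_nhds (hxV x (hSdet x hx)))
    refine t.finite_toSet.subset ?_
    intro x hx
    obtain ⟨w, hw, hxw⟩ := mem_iUnion₂.1 (htc hx)
    have hwS := htS w hw
    have : x = w := hVinj w (hSdet w hwS) hxw (hxV w (hSdet w hwS)) (hx.2.trans hwS.2.symm)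
    rw [this]; exact hw
  obtain ⟨U, hU, hUd⟩ := hfin.t2_separation
  set W : E n → Set (E n) := fun x => V x ∩ U x ∩ A with hW
  have hWo : ∀ x ∈ S, IsOpen (W x) := fun x hx =>
    ((hVo x (hSdet x hx)).inter (hU x).2).inter hA
  have hxW : ∀ x ∈ S, x ∈ W x := fun x hx =>
    ⟨⟨hxV x (hSdet x hx), (hU x).1⟩, hSA hx⟩
  have hWU : IsOpen (⋃ x ∈ S, W x) := isOpen_biUnion hWo
  set C : Set (E n) := closure A \ ⋃ x ∈ S, W x with hC
  have hCc : IsCompact C := hAb.isCompact_closure.diff hWU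
  have hzC : z₀ ∉ F '' C := by
    rintro ⟨x, ⟨hx1, hx2⟩, hx3⟩
    have hxS : x ∈ S := ⟨hx1, hx3⟩
    exact hx2 (mem_biUnion hxS (hxW x hxS))
  have hN1 : (F '' C)ᶜ ∈ 𝓝 z₀ :=
    (hCc.image hF.continuous).isClosed.isOpen_compl.mem_nhds hzC
  have hN2 : (⋂ x ∈ S, F '' W x) ∈ 𝓝 z₀ := by
    rw [Filter.biInter_mem hfin]
    intro x hx
    refine (hVimg x (hSdet x hx) (W x) (fun z hz => hz.1.1) (hWo x hx)).mem_nhds ?_
    exact ⟨x, hxW x hx, hx.2⟩
  have hN3 : ball y r ∈ 𝓝 z₀ := isOpen_ball.mem_nhds hz₀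
  obtain ⟨σ, hσ, hσb⟩ := Metric.mem_nhds_iff.1 (inter_mem (inter_mem hN1 hN2) hN3)
  set φ : ContDiffBump z₀ := ⟨σ / 4, σ / 2, by linarith, by linarith⟩ with hφ
  set η : E n → ℝ := φ.normed volume with hη
  have hηs : tsupport η ⊆ ball z₀ σ := by
    rw [hη, φ.tsupport_normed_eq]
    exact closedBall_subset_ball (by simp only [hφ]; linarith)
  have hηc : Continuous η := φ.continuous_normed
  have hηi : ∫ z, η z = 1 := φ.integral_normed
  have hJ := continuous_jac hF
  have hη0 : ∀ z, z ∉ ball z₀ σ → η z = 0 := fun z hz =>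
    image_eq_zero_of_notMem_tsupport fun h => hz (hηs h)
  refine ⟨∑ x ∈ hfin.toFinset, s x, η, hηc, φ.hasCompactSupport_normed,
    hηs.trans (fun z hz => (hσb hz).2), hηi, ?_⟩
  have hmem : ∀ x, x ∈ hfin.toFinset ↔ x ∈ S := fun x => hfin.mem_toFinset
  have hunion : (⋃ x ∈ hfin.toFinset, W x) ⊆ A := by
    intro z hz
    obtain ⟨x, hx, hzx⟩ := mem_iUnion₂.1 hz
    exact hzx.2
  have e1 : ∫ x in A, η (F x) * (fderiv ℝ F x).det
      = ∫ x in ⋃ x ∈ hfin.toFinset, W x, η (F x) * (fderiv ℝ F x).det := by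
    apply setIntegral_eq_of_subset_of_forall_sdiff_eq_zero hA.measurableSet hunion
    rintro x ⟨hxA, hx⟩
    have hxC : x ∈ C := by
      refine ⟨subset_closure hxA, fun h => hx ?_⟩
      obtain ⟨w, hw, hxw⟩ := mem_iUnion₂.1 h
      exact mem_iUnion₂.2 ⟨w, (hmem w).2 hw, hxw⟩
    have : F x ∉ ball z₀ σ := fun h => (hσb h).1.1 ⟨x, hxC, rfl⟩
    rw [hη0 _ this, zero_mul]
  rw [e1, integral_biUnion_finset]
  · push_cast
    apply Finset.sum_congr rfl
    intro x hx
    have hxS := (hmem x).1 hx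
    have hWV : W x ⊆ V x := fun z hz => hz.1.1
    calc ∫ z in W x, η (F z) * (fderiv ℝ F z).det
        = ∫ z in W x, (s x : ℝ) * (|(fderiv ℝ F z).det| • η (F z)) := by
          apply setIntegral_congr_fun (hWo x hxS).measurableSet
          intro z hz
          have h := hVs x (hSdet x hxS) z (hWV hz)
          calc η (F z) * (fderiv ℝ F z).det
              = η (F z) * ((s x : ℝ) * |(fderiv ℝ F z).det|) := by rw [← h]
            _ = (s x : ℝ) * (|(fderiv ℝ F z).det| • η (F z)) := by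
                rw [smul_eq_mul]; ring
      _ = (s x : ℝ) * ∫ z in F '' W x, η z := by
          rw [integral_const_mul]
          congr 1
          exact (integral_image_eq_integral_abs_det_fderiv_smul volume (hWo x hxS).measurableSet
            (fun z _ => (hF.differentiable (by simp) z).hasFDerivAt.hasFDerivWithinAt)
            ((hVinj x (hSdet x hxS)).mono hWV) η).symm
      _ = (s x : ℝ) * ∫ z, η z := by
          congr 1
          apply setIntegral_eq_integral_of_forall_compl_eq_zero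
          intro z hz
          apply hη0
          intro hz'
          exact hz (mem_iInter₂.1 (hσb hz').1.2 x hxS)
      _ = (s x : ℝ) := by rw [hηi, mul_one]
  · intro x hx
    exact (hWo x ((hmem x).1 hx)).measurableSet
  · intro a ha b hb hab
    have ha' : a ∈ S := (hmem a).1 ha
    have hb' : b ∈ S := (hmem b).1 hb
    exact (hUd ha' hb' hab).mono (fun z hz => hz.1.2) (fun z hz => hz.1.2)
  · intro x hx
    exact (integrableOn_of_continuous ((hηc.comp hF.continuous).mul hJ) hAb).mono_set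
      (fun z hz => hz.2)

end DegAux

theorem smooth_deg (hn : 1 ≤ n) {F : E n → E n} (hF : ContDiff ℝ ∞ F) {A : Set (E n)}
    (hA : IsOpen A) (hAb : Bornology.IsBounded A) {y : E n} {r : ℝ} (hr : 0 < r)
    (hfr : ∀ x ∈ frontier A, F x ∉ ball y r) :
    ∃ k : ℤ, ∀ η : E n → ℝ, Continuous η → HasCompactSupport η → tsupport η ⊆ ball y r →
      ∫ x in A, η (F x) * (fderiv ℝ F x).det = k * ∫ z, η z := by
  obtain ⟨k, hk⟩ := DegAux.exists_real hF hA hAb hr hfr
  obtain ⟨m, η₀, h1, h2, h3, h4, h5⟩ := DegAux.smooth_int hF hA hAb hr hfr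
  have hkm : k = m := by
    have := hk η₀ h1 h2 h3
    rw [h5, h4, mul_one] at this
    exact this.symm
  refine ⟨m, fun η hη hηc hηs => ?_⟩
  rw [hk η hη hηc hηs, hkm]

theorem smooth_deg_homotopy (hn : 1 ≤ n) {F₀ F₁ : E n → E n} (hF₀ : ContDiff ℝ ∞ F₀)
    (hF₁ : ContDiff ℝ ∞ F₁) {A : Set (E n)} (hA : IsOpen A) (hAb : Bornology.IsBounded A)
    {y : E n} {r : ℝ} (hr : 0 < r)
    (hfr : ∀ t ∈ Icc (0 : ℝ) 1, ∀ x ∈ frontier A, (1 - t) • F₀ x + t • F₁ x ∉ ball y r)
    {η : E n → ℝ} (hη : Continuous η) (hηc : HasCompactSupport η) (hηs : tsupport η ⊆ ball y r) :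
    ∫ x in A, η (F₀ x) * (fderiv ℝ F₀ x).det = ∫ x in A, η (F₁ x) * (fderiv ℝ F₁ x).det := by
  set G : ℝ → E n → E n := fun t x => (1 - t) • F₀ x + t • F₁ x with hG
  have hGs : ∀ t, ContDiff ℝ ∞ (G t) := fun t =>
    (hF₀.const_smul (1 - t)).add (hF₁.const_smul t)
  have hGd : ∀ t x, fderiv ℝ (G t) x = (1 - t) • fderiv ℝ F₀ x + t • fderiv ℝ F₁ x := by
    intro t x
    have h0 := (hF₀.differentiable (by simp) x).hasFDerivAt
    have h1 := (hF₁.differentiable (by simp) x).hasFDerivAt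
    exact ((h0.const_smul (1 - t)).add (h1.const_smul t)).fderiv
  have hdeg : ∀ t : ℝ, ∃ k : ℤ, t ∈ Icc (0 : ℝ) 1 → ∀ η : E n → ℝ, Continuous η →
      HasCompactSupport η → tsupport η ⊆ ball y r →
      ∫ x in A, η (G t x) * (fderiv ℝ (G t) x).det = k * ∫ z, η z := by
    intro t
    by_cases ht : t ∈ Icc (0 : ℝ) 1
    · obtain ⟨k, hk⟩ := smooth_deg hn (hGs t) hA hAb hr (hfr t ht)
      exact ⟨k, fun _ => hk⟩
    · exact ⟨0, fun h => absurd h ht⟩
  choose k hk using hdeg
  -- a test function with integral one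
  set φ₀ : ContDiffBump y := ⟨r / 4, r / 2, by linarith, by linarith⟩ with hφ₀
  set η₀ : E n → ℝ := φ₀.normed volume with hη₀
  have h0c : Continuous η₀ := φ₀.continuous_normed
  have h0k : HasCompactSupport η₀ := φ₀.hasCompactSupport_normed
  have h0s : tsupport η₀ ⊆ ball y r := by
    rw [hη₀, φ₀.tsupport_normed_eq]
    exact closedBall_subset_ball (by simp only [hφ₀]; linarith)
  have h0i : ∫ z, η₀ z = 1 := φ₀.integral_normed
  set I : ℝ → ℝ := fun t => ∫ x in closure A, η₀ (G t x) * (fderiv ℝ (G t) x).det with hI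
  have hIc : Continuous I := by
    apply continuous_parametric_integral_of_continuous _ hAb.isCompact_closure
    have hc1 : Continuous fun p : ℝ × E n => G p.1 p.2 := by
      simp only [hG]
      exact ((continuous_const.sub continuous_fst).smul (hF₀.continuous.comp continuous_snd)).add
        (continuous_fst.smul (hF₁.continuous.comp continuous_snd))
    have hc2 : Continuous fun p : ℝ × E n => fderiv ℝ (G p.1) p.2 := by
      simp only [hGd]
      exact ((continuous_const.sub continuous_fst).smul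
        ((hF₀.continuous_fderiv (by simp)).comp continuous_snd)).add
        (continuous_fst.smul ((hF₁.continuous_fderiv (by simp)).comp continuous_snd))
    exact (h0c.comp hc1).mul (ContinuousLinearMap.continuous_det.comp hc2)
  have hIk : ∀ t ∈ Icc (0 : ℝ) 1, I t = k t := by
    intro t ht
    have h1 := hk t ht η₀ h0c h0k h0s
    rw [h0i, mul_one] at h1
    rw [← h1]
    simp only [hI]
    apply setIntegral_eq_of_subset_of_forall_sdiff_eq_zero isClosed_closure.measurableSet
      subset_closure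
    rintro x ⟨hx1, hx2⟩
    have hxf : x ∈ frontier A := ⟨hx1, fun hx => hx2 (interior_subset hx)⟩
    have h2 := hfr t ht x hxf
    have : η₀ (G t x) = 0 := image_eq_zero_of_notMem_tsupport fun h => h2 (h0s h)
    rw [this, zero_mul]
  have hkc : ContinuousOn k (Icc (0 : ℝ) 1) := by
    have h1 : ContinuousOn (fun t => ((k t : ℤ) : ℝ)) (Icc (0 : ℝ) 1) :=
      hIc.continuousOn.congr fun t ht => (hIk t ht).symm
    exact (Int.isClosedEmbedding_coe_real.isEmbedding.isInducing.continuousOn_iff).2 h1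
  have hk01 : k 0 = k 1 := (isPreconnected_Icc).constant hkc
    (left_mem_Icc.2 zero_le_one) (right_mem_Icc.2 zero_le_one)
  have e0 := hk 0 (left_mem_Icc.2 zero_le_one) η hη hηc hηs
  have e1 := hk 1 (right_mem_Icc.2 zero_le_one) η hη hηc hηs
  have g0 : G 0 = F₀ := by
    funext x; simp [hG]
  have g1 : G 1 = F₁ := by
    funext x; simp [hG]
  rw [g0] at e0
  rw [g1] at e1
  rw [e0, e1, hk01]

end Pool.Agent.MP_dd09c0_an
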