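import Pool.Agent.MP_dd09c0_an.Identity
import Pool.Agent.MP_dd09c0_an.DegSmooth

/-!
# Degree of mappings of finite distortion (module H)
-/

open MeasureTheory Metric Set Filter Topology
open scoped ENNReal NNReal ContDiff RealInnerProductSpace

namespace Pool.Agent.MP_dd09c0_an

variable {n : ℕ}

namespace DegGMAux

open scoped Convolution

/-- the measure on the half-line in direction `e_i` -/
noncomputable def ray (i : Fin n) : Measure (E n) :=
  (volume.restrict (Ioi (0 : ℝ))).map (fun s : ℝ => s • (EuclideanSpace.single i (1 : ℝ)))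

theorem isClosedEmbedding_ray (i : Fin n) :
    Topology.IsClosedEmbedding (fun s : ℝ => s • (EuclideanSpace.single i (1 : ℝ) : E n)) := by
  have h : Isometry (fun s : ℝ => s • (EuclideanSpace.single i (1 : ℝ) : E n)) := by
    refine Isometry.of_dist_eq fun s t => ?_
    rw [dist_eq_norm, ← sub_smul, norm_smul, PiLp.norm_single, norm_one, mul_one,
      Real.dist_eq, Real.norm_eq_abs]
  exact h.isClosedEmbedding

theorem ray_finite (i : Fin n) : IsFiniteMeasureOnCompacts (ray i) := by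
  constructor
  intro S hS
  rw [ray, (isClosedEmbedding_ray i).measurableEmbedding.map_apply]
  exact ((isClosedEmbedding_ray i).isCompact_preimage hS).measure_lt_top

/-- a smooth primitive in the direction `e_i` -/
theorem exists_primitive (i : Fin n) {η : E n → ℝ} (hη : ContDiff ℝ ∞ η)
    (hc : HasCompactSupport η) :
    ∃ h : E n → ℝ, ContDiff ℝ ∞ h ∧ ∀ y, fderiv ℝ h y (EuclideanSpace.single i 1) = η y := by
  have := ray_finite i
  obtain ⟨e, he⟩ : ∃ e : E n, e = EuclideanSpace.single i (1 : ℝ) := ⟨_, rfl⟩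
  have hne : ‖e‖ = 1 := by rw [he, PiLp.norm_single, norm_one]
  let h : E n → ℝ := (fun _ : E n => (1 : ℝ)) ⋆[ContinuousLinearMap.lsmul ℝ ℝ, ray i] η
  have hs : ContDiff ℝ ∞ h :=
    hc.contDiff_convolution_right (n := ⊤) _ (locallyIntegrable_const (1 : ℝ)) hη
  have hval : ∀ y, h y = ∫ s in Ioi (0 : ℝ), η (y - s • e) := by
    intro y
    show ((fun _ : E n => (1 : ℝ)) ⋆[ContinuousLinearMap.lsmul ℝ ℝ, ray i] η) y = _
    rw [convolution, ray, (isClosedEmbedding_ray i).measurableEmbedding.integral_map]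
    simp [he]
  -- integrability along lines
  have hcs : ∀ y, HasCompactSupport (fun s : ℝ => η (y - s • e)) := by
    intro y
    have hcl : Topology.IsClosedEmbedding (fun s : ℝ => y - s • e) := by
      have h1 : Isometry (fun s : ℝ => y - s • e) := by
        refine Isometry.of_dist_eq fun s t => ?_
        rw [dist_sub_left, dist_eq_norm, ← sub_smul, norm_smul, hne, mul_one, Real.dist_eq,
          Real.norm_eq_abs]
      exact h1.isClosedEmbedding
    exact hc.comp_isClosedEmbedding hcl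
  have hci : ∀ y, Continuous (fun s : ℝ => η (y - s • e)) := fun y =>
    hη.continuous.comp (by fun_prop)
  have hint : ∀ y, Integrable (fun s : ℝ => η (y - s • e)) := fun y =>
    (hci y).integrable_of_hasCompactSupport (hcs y)
  -- translation
  have htr : ∀ (y : E n) (τ : ℝ), h (y + τ • e) = h y + ∫ u in (-τ)..0, η (y - u • e) := by
    intro y τ
    rw [hval, hval]
    have e1 : ∫ s in Ioi (0 : ℝ), η (y + τ • e - s • e) = ∫ s in Ioi (-τ), η (y - s • e) := by
      rw [← integral_indicator measurableSet_Ioi, ← integral_indicator measurableSet_Ioi,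
        ← integral_add_right_eq_self _ τ]
      congr 1
      funext s
      by_cases hs : -τ < s
      · rw [indicator_of_mem (show s + τ ∈ Ioi (0 : ℝ) by simp only [mem_Ioi]; linarith),
          indicator_of_mem (show s ∈ Ioi (-τ) from hs)]
        congr 1
        module
      · rw [indicator_of_notMem (show s + τ ∉ Ioi (0 : ℝ) by simp only [mem_Ioi]; linarith),
          indicator_of_notMem (show s ∉ Ioi (-τ) from hs)]
    rw [e1, ← intervalIntegral.integral_Ioi_sub_Ioi' (hint y).integrableOn (hint y).integrableOn]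
    ring
  refine ⟨h, hs, fun y => ?_⟩
  have hd : HasFDerivAt h (fderiv ℝ h y) y := (hs.differentiable (by simp)).differentiableAt.hasFDerivAt
  -- derivative along the line
  have h1 : HasDerivAt (fun τ : ℝ => h (y + τ • e)) (fderiv ℝ h y e) 0 := by
    have hl : HasDerivAt (fun τ : ℝ => y + τ • e) e 0 := by
      have := ((hasDerivAt_id (0 : ℝ)).smul_const e).const_add y
      simpa using this
    have hd' : HasFDerivAt h (fderiv ℝ h y) (y + (0 : ℝ) • e) := by simpa using hd
    exact hd'.comp_hasDerivAt 0 hl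
  have h2 : HasDerivAt (fun τ : ℝ => h (y + τ • e)) (η y) 0 := by
    have hF : HasDerivAt (fun v : ℝ => ∫ u in v..0, η (y - u • e)) (-η (y - (-(0 : ℝ)) • e)) (-0) :=
      intervalIntegral.integral_hasDerivAt_left ((hint y).intervalIntegrable)
        ((hci y).stronglyMeasurableAtFilter _ _) (hci y).continuousAt
    have hG : HasDerivAt (fun τ : ℝ => ∫ u in (-τ)..0, η (y - u • e))
        (-η (y - (-(0 : ℝ)) • e) * -1) 0 := hF.comp 0 (hasDerivAt_neg 0)
    have hH := hG.const_add (h y)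
    have e2 : (fun τ : ℝ => h (y + τ • e)) = fun τ => h y + ∫ u in (-τ)..0, η (y - u • e) :=
      funext fun τ => htr y τ
    rw [e2]
    refine hH.congr_deriv ?_
    simp
  rw [← he]
  exact h1.unique h2

/-- smooth cut-off functions -/
theorem exists_bump {K A : Set (E n)} (hK : IsCompact K) (hA : IsOpen A) (hKA : K ⊆ A) :
    ∃ ψ : E n → ℝ, ContDiff ℝ ∞ ψ ∧ HasCompactSupport ψ ∧ tsupport ψ ⊆ A ∧
      (∃ N : Set (E n), IsOpen N ∧ K ⊆ N ∧ ∀ x ∈ N, ψ x = 1) ∧ ∀ x, ψ x ∈ Icc (0 : ℝ) 1 := by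
  obtain ⟨N, hN, hKN, hNA⟩ := exists_compact_between hK hA hKA
  obtain ⟨ψ, h0, h1, hI⟩ := exists_contMDiffMap_zero_one_nhds_of_isClosed (n := (⊤ : ℕ∞))
    (modelWithCornersSelf ℝ (E n)) (s := (interior N)ᶜ) (t := K) isOpen_interior.isClosed_compl
    hK.isClosed (by rw [disjoint_compl_left_iff_subset]; exact hKN)
  have hs : Function.support ψ ⊆ N := by
    intro x hx
    by_contra hxN
    exact hx (h0.self_of_nhdsSet x (fun h => hxN (interior_subset h)))
  have hts : tsupport ψ ⊆ N := closure_minimal hs hN.isClosed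
  obtain ⟨U, hU, hKU, hU1⟩ := (mem_nhdsSet_iff_exists.1 h1)
  exact ⟨ψ, ψ.contMDiff.contDiff, hN.of_isClosed_subset (isClosed_tsupport _) hts,
    hts.trans hNA, ⟨U, hU, hKU, fun x hx => hU1 hx⟩, hI⟩

/-- the smooth identity -/
theorem smooth_identity (i : Fin n) {ψ h : E n → ℝ} (hψ : ContDiff ℝ ∞ ψ)
    (hψc : HasCompactSupport ψ) (hh : ContDiff ℝ ∞ h) {F : E n → E n} (hF : ContDiff ℝ ∞ F) :
    ∫ x, ψ x * (fderiv ℝ h (F x) (EuclideanSpace.single i 1)) * (fderiv ℝ F x).det
      = - ∫ x, h (F x) * (rowRepl i (fderiv ℝ ψ x) (fderiv ℝ F x)).det := by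
  have hhF : ContDiff ℝ ∞ (fun x => h (F x)) := hh.comp hF
  have hu : ContDiff ℝ ∞ (fun x => ψ x * h (F x)) := hψ.mul hhF
  have huc : HasCompactSupport (fun x => ψ x * h (F x)) := hψc.mul_right
  obtain ⟨C, hC⟩ := ContDiff.lipschitzWith_of_hasCompactSupport huc hu (by simp)
  have h0 := null_smooth i hC huc hF
  have hdF : Continuous (fun x => fderiv ℝ F x) := hF.continuous_fderiv (by simp)
  have hdψ : Continuous (fun x => fderiv ℝ ψ x) := hψ.continuous_fderiv (by simp)
  have hdh : Continuous (fun x => fderiv ℝ h (F x)) := (hh.continuous_fderiv (by simp)).comp hF.continuous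
  have hdet : Continuous (fun L : E n →L[ℝ] E n => L.det) := ContinuousLinearMap.continuous_det
  have e1 : ∀ x, (rowRepl i (fderiv ℝ (fun x => ψ x * h (F x)) x) (fderiv ℝ F x)).det =
      ψ x * (fderiv ℝ h (F x) (EuclideanSpace.single i 1)) * (fderiv ℝ F x).det +
      h (F x) * (rowRepl i (fderiv ℝ ψ x) (fderiv ℝ F x)).det := by
    intro x
    have d1 : HasFDerivAt ψ (fderiv ℝ ψ x) x := (hψ.differentiable (by simp)).differentiableAt.hasFDerivAt
    have d2 : HasFDerivAt (fun x => h (F x)) ((fderiv ℝ h (F x)).comp (fderiv ℝ F x)) x :=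
      ((hh.differentiable (by simp)).differentiableAt.hasFDerivAt).comp x
        ((hF.differentiable (by simp)).differentiableAt.hasFDerivAt)
    have d3 : fderiv ℝ (fun x => ψ x * h (F x)) x = ψ x • (fderiv ℝ h (F x)).comp (fderiv ℝ F x) +
        h (F x) • fderiv ℝ ψ x := (d1.mul d2).fderiv
    rw [d3, det_rowRepl_add, det_rowRepl_smul, det_rowRepl_smul, det_rowRepl_comp]
    ring
  simp only [e1] at h0
  have c1 : Continuous fun x => ψ x * (fderiv ℝ h (F x) (EuclideanSpace.single i 1)) * (fderiv ℝ F x).det :=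
    (hψ.continuous.mul (hdh.clm_apply continuous_const)).mul (hdet.comp hdF)
  have c2 : Continuous fun x => h (F x) * (rowRepl i (fderiv ℝ ψ x) (fderiv ℝ F x)).det :=
    hhF.continuous.mul ((continuous_det_rowRepl i).comp (hdψ.prodMk hdF))
  have i1 : Integrable fun x => ψ x * (fderiv ℝ h (F x) (EuclideanSpace.single i 1)) * (fderiv ℝ F x).det := by
    apply c1.integrable_of_hasCompactSupport
    exact (hψc.mul_right).mul_right
  have i2 : Integrable fun x => h (F x) * (rowRepl i (fderiv ℝ ψ x) (fderiv ℝ F x)).det := by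
    apply c2.integrable_of_hasCompactSupport
    have hc' : HasCompactSupport (fun x => fderiv ℝ ψ x) := hψc.fderiv ℝ
    refine HasCompactSupport.intro hc' fun x hx => ?_
    have : fderiv ℝ ψ x = 0 := image_eq_zero_of_notMem_tsupport hx
    have e0 : (rowRepl i (fderiv ℝ ψ x) (fderiv ℝ F x)).det = 0 := by
      rw [this]
      have := det_rowRepl_smul i 0 (0 : E n →L[ℝ] ℝ) (fderiv ℝ F x)
      rw [zero_smul, zero_mul] at this
      exact this
    rw [e0, mul_zero]
  rw [integral_add i1 i2] at h0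
  linarith

theorem det_rowRepl_zero (i : Fin n) (L : E n →L[ℝ] E n) : (rowRepl i 0 L).det = 0 := by
  have := det_rowRepl_smul i 0 (0 : E n →L[ℝ] ℝ) L
  rw [zero_smul, zero_mul] at this
  exact this

theorem pow_le_one_add_rpow (hn : 2 ≤ n) {t : ℝ} (ht : 0 ≤ t) : t ^ (n - 1) ≤ 1 + t ^ pex n := by
  rcases le_total t 1 with h | h
  · have h1 : t ^ (n - 1) ≤ 1 := pow_le_one₀ ht h
    have h2 : 0 ≤ t ^ pex n := Real.rpow_nonneg ht _
    linarith
  · have h1 : t ^ (n - 1) ≤ t ^ pex n := by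
      rw [← Real.rpow_natCast]
      apply Real.rpow_le_rpow_of_exponent_le h
      rw [pex, Nat.cast_sub (by omega)]
      push_cast
      linarith
    linarith

theorem tendsto_det (i : Fin n) (l : E n →L[ℝ] ℝ) {L : ℕ → E n →L[ℝ] E n} {L0 : E n →L[ℝ] E n}
    (hL : Tendsto L atTop (𝓝 L0)) :
    Tendsto (fun m => (rowRepl i l (L m)).det) atTop (𝓝 (rowRepl i l L0).det) := by
  have h := (continuous_det_rowRepl i).comp (Continuous.prodMk_right l)
  exact (h.tendsto L0).comp hL

/-- convergence of the integrals -/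
theorem tendsto_rowRepl (hn : 2 ≤ n) {D : Set (E n)} {f : E n → E n} {Df : E n → E n →L[ℝ] E n}
    {K : E n → ℝ} (H : GM n D f Df K) {S : Set (E n)} (hS : IsCompact S) (hSD : S ⊆ D)
    {F : ℕ → E n → E n} (hF : ∀ m, ContDiff ℝ ∞ (F m))
    (hFS : ∀ m, ∀ x ∈ S, ‖F m x - f x‖ < (1 / 2) ^ m)
    (hFI : ∀ m, ∫⁻ x in S, ‖fderiv ℝ (F m) x - Df x‖ₑ ^ pex n < ENNReal.ofReal ((1 / 2) ^ m))
    (i : Fin n) {ψ h : E n → ℝ} (hψ : ContDiff ℝ ∞ ψ)
    (hψc : HasCompactSupport ψ) (hψS : tsupport ψ ⊆ S) (hh : Continuous h) :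
    Tendsto (fun m => ∫ x, h (F m x) * (rowRepl i (fderiv ℝ ψ x) (fderiv ℝ (F m) x)).det) atTop
      (𝓝 (∫ x, h (f x) * (rowRepl i (fderiv ℝ ψ x) (Df x)).det)) := by
  obtain ⟨C, hC, hCb⟩ := abs_det_rowRepl_le n
  have hp : 0 < pex n := by
    rw [pex]
    have : (2 : ℝ) ≤ n := by exact_mod_cast hn
    linarith
  have hdψ : Continuous (fun x => fderiv ℝ ψ x) := hψ.continuous_fderiv (by simp)
  have hdψc : HasCompactSupport (fun x => fderiv ℝ ψ x) := hψc.fderiv ℝ
  obtain ⟨Mψ, hMψ⟩ := hdψc.exists_bound_of_continuous hdψ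
  -- bound for `h`
  obtain ⟨Mh, hMh⟩ : ∃ Mh, ∀ y ∈ cthickening 1 (f '' S), ‖h y‖ ≤ Mh :=
    ((hS.image H.cont).cthickening (r := 1)).exists_bound_of_continuousOn hh.continuousOn
  have hMh0 : ∀ x ∈ S, ∀ m, ‖h (F m x)‖ ≤ Mh := by
    intro x hx m
    apply hMh
    refine mem_cthickening_of_dist_le _ (f x) _ _ (mem_image_of_mem f hx) ?_
    rw [dist_eq_norm]
    exact (hFS m x hx).le.trans (pow_le_one₀ (by norm_num) (by norm_num))
  -- the dominating function
  let g : E n → ℝ≥0∞ := fun x => ∑' m, ‖fderiv ℝ (F m) x - Df x‖ₑ ^ pex n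
  have hgm : ∀ m, Measurable fun x => ‖fderiv ℝ (F m) x - Df x‖ₑ ^ pex n := fun m =>
    (((hF m).continuous_fderiv (by simp)).measurable.sub H.meas).enorm.pow_const _
  have hg : Measurable g := Measurable.tsum hgm
  have hgi : ∫⁻ x in S, g x ≠ ⊤ := by
    have e : ∫⁻ x in S, g x = ∑' m, ∫⁻ x in S, ‖fderiv ℝ (F m) x - Df x‖ₑ ^ pex n :=
      lintegral_tsum fun m => (hgm m).aemeasurable
    rw [e]
    have h1 : ∑' m, ∫⁻ x in S, ‖fderiv ℝ (F m) x - Df x‖ₑ ^ pex n ≤
        ∑' m : ℕ, ENNReal.ofReal ((1 / 2) ^ m) := ENNReal.tsum_le_tsum fun m => (hFI m).le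
    have h2 : ∑' m : ℕ, ENNReal.ofReal ((1 / 2 : ℝ) ^ m) ≠ ⊤ := by
      rw [← ENNReal.ofReal_tsum_of_nonneg (fun m => by positivity) summable_geometric_two]
      exact ENNReal.ofReal_ne_top
    exact ne_top_of_le_ne_top h2 h1
  have hgae : ∀ᵐ x ∂(volume.restrict S), g x < ⊤ := ae_lt_top hg hgi
  have hSm : MeasurableSet S := hS.measurableSet
  have hgi' : IntegrableOn (fun x => (g x).toReal) S := integrable_toReal_of_lintegral_ne_top hg.aemeasurable hgi
  have hDi : IntegrableOn (fun x => ‖Df x‖ ^ pex n) S := by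
    refine ⟨(H.meas.norm.pow_const _).aestronglyMeasurable, ?_⟩
    rw [hasFiniteIntegral_iff_enorm]
    refine lt_of_le_of_lt ?_ (H.lintegral_Df hn)
    calc ∫⁻ x in S, ‖‖Df x‖ ^ pex n‖ₑ = ∫⁻ x in S, ‖Df x‖ₑ ^ pex n := by
          congr 1
          funext x
          rw [Real.enorm_rpow_of_nonneg (norm_nonneg _) hp.le, enorm_norm]
      _ ≤ _ := lintegral_mono_set hSD
  have hSfin : volume S ≠ ⊤ := hS.measure_lt_top.ne
  -- the bound
  let b : E n → ℝ := fun x => |Mh| * (C * |Mψ| * (2 ^ (n - 1) * (2 + ‖Df x‖ ^ pex n + (g x).toReal)))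
  have hb : IntegrableOn b S := by
    have h1 : IntegrableOn (fun x => 2 + ‖Df x‖ ^ pex n + (g x).toReal) S :=
      ((integrableOn_const hSfin).add hDi).add hgi'
    exact (((h1.const_mul _).const_mul _).const_mul _)
  have hzero : ∀ x ∉ S, fderiv ℝ ψ x = 0 := by
    intro x hx
    have : x ∉ tsupport (fderiv ℝ ψ) := fun h => hx (hψS (tsupport_fderiv_subset ℝ h))
    exact image_eq_zero_of_notMem_tsupport this
  have key : ∀ x ∈ S, g x < ⊤ → ∀ m, ‖fderiv ℝ (F m) x‖ ^ (n - 1) ≤
      2 ^ (n - 1) * (2 + ‖Df x‖ ^ pex n + (g x).toReal) := by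
    intro x hx hgx m
    have h1 : ‖fderiv ℝ (F m) x‖ ≤ ‖Df x‖ + ‖fderiv ℝ (F m) x - Df x‖ := by
      calc ‖fderiv ℝ (F m) x‖ = ‖Df x + (fderiv ℝ (F m) x - Df x)‖ := by congr 1; abel
        _ ≤ _ := norm_add_le _ _
    have h2 : ‖fderiv ℝ (F m) x - Df x‖ ^ pex n ≤ (g x).toReal := by
      have h3 : ‖fderiv ℝ (F m) x - Df x‖ₑ ^ pex n ≤ g x := ENNReal.le_tsum m
      have h4 := ENNReal.toReal_mono hgx.ne h3
      rwa [← ENNReal.toReal_rpow, toReal_enorm] at h4
    calc ‖fderiv ℝ (F m) x‖ ^ (n - 1) ≤ (‖Df x‖ + ‖fderiv ℝ (F m) x - Df x‖) ^ (n - 1) :=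
          pow_le_pow_left₀ (norm_nonneg _) h1 _
      _ ≤ 2 ^ (n - 1 - 1) * (‖Df x‖ ^ (n - 1) + ‖fderiv ℝ (F m) x - Df x‖ ^ (n - 1)) :=
          add_pow_le (norm_nonneg _) (norm_nonneg _) _
      _ ≤ 2 ^ (n - 1) * ((1 + ‖Df x‖ ^ pex n) + (1 + ‖fderiv ℝ (F m) x - Df x‖ ^ pex n)) := by
          gcongr
          · norm_num
          · omega
          · exact pow_le_one_add_rpow hn (norm_nonneg _)
          · exact pow_le_one_add_rpow hn (norm_nonneg _)
      _ ≤ 2 ^ (n - 1) * (2 + ‖Df x‖ ^ pex n + (g x).toReal) := by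
          apply mul_le_mul_of_nonneg_left _ (by positivity)
          linarith
  have hmem : ∀ᵐ x, x ∈ S → g x < ⊤ := (ae_restrict_iff' hSm).1 hgae
  refine tendsto_integral_of_dominated_convergence (S.indicator b) ?_ ?_ ?_ ?_
  · intro m
    have c2 : Continuous fun x => h (F m x) * (rowRepl i (fderiv ℝ ψ x) (fderiv ℝ (F m) x)).det :=
      (hh.comp (hF m).continuous).mul ((continuous_det_rowRepl i).comp
        (hdψ.prodMk ((hF m).continuous_fderiv (by simp))))
    exact c2.aestronglyMeasurable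
  · rwa [integrable_indicator_iff hSm]
  · intro m
    filter_upwards [hmem] with x hx
    by_cases hxS : x ∈ S
    · rw [indicator_of_mem hxS, norm_mul]
      have h1 := hCb i (fderiv ℝ ψ x) (fderiv ℝ (F m) x)
      have h2 := key x hxS (hx hxS) m
      rw [Real.norm_eq_abs (rowRepl i (fderiv ℝ ψ x) (fderiv ℝ (F m) x)).det]
      calc ‖h (F m x)‖ * |(rowRepl i (fderiv ℝ ψ x) (fderiv ℝ (F m) x)).det|
          ≤ |Mh| * (C * |Mψ| * (2 ^ (n - 1) * (2 + ‖Df x‖ ^ pex n + (g x).toReal))) := by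
            gcongr
            · exact (hMh0 x hxS m).trans (le_abs_self _)
            · refine h1.trans ?_
              gcongr
              exact (hMψ x).trans (le_abs_self _)
        _ = b x := rfl
    · rw [hzero x hxS, det_rowRepl_zero, mul_zero, norm_zero, indicator_of_notMem hxS]
  · filter_upwards [hmem] with x hx
    by_cases hxS : x ∈ S
    · have hgx := hx hxS
      have t1 : Tendsto (fun m => F m x) atTop (𝓝 (f x)) := by
        rw [tendsto_iff_norm_sub_tendsto_zero]
        refine squeeze_zero (fun m => norm_nonneg _) (fun m => (hFS m x hxS).le) ?_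
        exact tendsto_pow_atTop_nhds_zero_of_lt_one (by norm_num) (by norm_num)
      have t2 : Tendsto (fun m => fderiv ℝ (F m) x) atTop (𝓝 (Df x)) := by
        have h1 : Tendsto (fun m => ‖fderiv ℝ (F m) x - Df x‖ₑ ^ pex n) atTop (𝓝 0) :=
          ENNReal.tendsto_atTop_zero_of_tsum_ne_top hgx.ne
        have h2 : Tendsto (fun m => (‖fderiv ℝ (F m) x - Df x‖ₑ ^ pex n) ^ (pex n)⁻¹) atTop (𝓝 (0 ^ (pex n)⁻¹)) :=
          (ENNReal.continuous_rpow_const.tendsto 0).comp h1
        rw [ENNReal.zero_rpow_of_pos (inv_pos.2 hp)] at h2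
        simp only [← ENNReal.rpow_mul, mul_inv_cancel₀ hp.ne', ENNReal.rpow_one] at h2
        rw [tendsto_iff_edist_tendsto_0]
        refine h2.congr fun m => ?_
        rw [edist_eq_enorm_sub]
      have t3 := tendsto_det i (fderiv ℝ ψ x) t2
      have t5 : Tendsto (fun m => h (F m x)) atTop (𝓝 (h (f x))) := (hh.tendsto _).comp t1
      exact t5.mul t3
    · simp only [hzero x hxS, det_rowRepl_zero, mul_zero]
      exact tendsto_const_nhds

end DegGMAux

open DegGMAux in
/-- One sequence of smooth maps computes all degree integrals on a compact subset of `D`. -/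
theorem GM.exists_seq (hn : 2 ≤ n) {D : Set (E n)} {f : E n → E n} {Df : E n → E n →L[ℝ] E n}
    {K : E n → ℝ} (H : GM n D f Df K) {S : Set (E n)} (hS : IsCompact S) (hSD : S ⊆ D) :
    ∃ F : ℕ → E n → E n, (∀ m, ContDiff ℝ ∞ (F m)) ∧
      (∀ ε > 0, ∀ᶠ m in atTop, ∀ x ∈ S, ‖F m x - f x‖ < ε) ∧
      ∀ A O : Set (E n), IsOpen A → closure A ⊆ S → IsOpen O → (∀ x ∈ frontier A, f x ∉ O) →
        ∀ η : E n → ℝ, ContDiff ℝ ∞ η → HasCompactSupport η → tsupport η ⊆ O →
          Tendsto (fun m => ∫ x in A, η (F m x) * (fderiv ℝ (F m) x).det) atTop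
            (𝓝 (∫ x in A, η (f x) * (Df x).det)) := by
  have hap : ∀ m : ℕ, ∃ F : E n → E n, ContDiff ℝ ∞ F ∧ (∀ x ∈ S, ‖F x - f x‖ < (1 / 2) ^ m) ∧
      ∫⁻ x in S, ‖fderiv ℝ F x - Df x‖ₑ ^ pex n < ENNReal.ofReal ((1 / 2) ^ m) := fun m =>
    H.approx hn hS hSD (by positivity)
  choose F hF hFS hFI using hap
  have hu : ∀ ε > 0, ∀ᶠ m in atTop, ∀ x ∈ S, ‖F m x - f x‖ < ε := by
    intro ε hε
    have h1 : ∀ᶠ m : ℕ in atTop, (1 / 2 : ℝ) ^ m < ε :=
      (tendsto_pow_atTop_nhds_zero_of_lt_one (by norm_num) (by norm_num)).eventually (gt_mem_nhds hε)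
    filter_upwards [h1] with m hm x hx
    exact (hFS m x hx).trans hm
  refine ⟨F, hF, hu, ?_⟩
  intro A O hA hAS hO hfr η hη hηc hηO
  have i : Fin n := ⟨0, by omega⟩
  obtain ⟨h, hh, hhη⟩ := exists_primitive i hη hηc
  have hAc : IsCompact (closure A) := hS.of_isClosed_subset isClosed_closure hAS
  have hK0 : IsCompact (closure A ∩ f ⁻¹' tsupport η) :=
    hAc.inter_right ((isClosed_tsupport η).preimage H.cont)
  have hK0A : closure A ∩ f ⁻¹' tsupport η ⊆ A := by
    rintro x ⟨hx, hfx⟩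
    by_contra hxA
    exact hfr x (by rw [frontier, hA.interior_eq]; exact ⟨hx, hxA⟩) (hηO hfx)
  obtain ⟨ψ, hψ, hψc, hψA, ⟨N, hN, hKN, hN1⟩, hψI⟩ := exists_bump hK0 hA hK0A
  have hψS : tsupport ψ ⊆ S := hψA.trans (subset_closure.trans hAS)
  -- integrals with the cut-off
  have cut : ∀ (G : E n → E n) (d : E n → ℝ), (∀ x ∈ A, x ∉ N → η (G x) = 0) →
      ∫ x in A, η (G x) * d x = ∫ x, ψ x * η (G x) * d x := by
    intro G d hG
    rw [← integral_indicator hA.measurableSet]
    congr 1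
    funext x
    by_cases hx : x ∈ A
    · rw [indicator_of_mem hx]
      by_cases hxN : x ∈ N
      · rw [hN1 x hxN, one_mul]
      · rw [hG x hx hxN]; ring
    · rw [indicator_of_notMem hx]
      have : ψ x = 0 := image_eq_zero_of_notMem_tsupport (fun h => hx (hψA h))
      rw [this]; ring
  have c1 : ∫ x in A, η (f x) * (Df x).det = ∫ x, ψ x * η (f x) * (Df x).det := by
    apply cut
    intro x hx hxN
    by_contra h
    exact hxN (hKN ⟨subset_closure hx, subset_tsupport _ h⟩)
  -- eventually the same for `F m`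
  have c2 : ∀ᶠ m in atTop, ∫ x in A, η (F m x) * (fderiv ℝ (F m) x).det =
      ∫ x, ψ x * η (F m x) * (fderiv ℝ (F m) x).det := by
    have hS' : IsCompact (closure A \ N) := hAc.diff hN
    have hdis : Disjoint (f '' (closure A \ N)) (tsupport η) := by
      rw [Set.disjoint_left]
      rintro _ ⟨x, ⟨hx, hxN⟩, rfl⟩ h
      exact hxN (hKN ⟨hx, h⟩)
    obtain ⟨δ, hδ, hd⟩ := hdis.exists_thickenings (hS'.image H.cont) (isClosed_tsupport η)
    filter_upwards [hu δ hδ] with m hm
    apply cut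
    intro x hx hxN
    by_contra h
    have h1 : F m x ∈ thickening δ (f '' (closure A \ N)) := by
      rw [mem_thickening_iff]
      exact ⟨f x, ⟨x, ⟨subset_closure hx, hxN⟩, rfl⟩, by
        rw [dist_eq_norm]; exact hm x (hAS (subset_closure hx))⟩
    exact (Set.disjoint_left.1 hd) h1 (self_subset_thickening hδ _ (subset_tsupport _ h))
  have lim := tendsto_rowRepl hn H hS hSD hF hFS hFI i hψ hψc hψS hh.continuous
  have id1 := H.identity hn i hψ hψc (hψS.trans hSD) hh
  rw [c1]
  have e1 : ∫ x, ψ x * η (f x) * (Df x).det =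
      -∫ x, h (f x) * (rowRepl i (fderiv ℝ ψ x) (Df x)).det := by
    rw [← id1]
    simp only [hhη]
  rw [e1]
  refine lim.neg.congr' ?_
  filter_upwards [c2] with m hm
  rw [hm, ← smooth_identity i hψ hψc hh (hF m)]
  simp only [hhη]

namespace DegGMAux

/-- the push-forward of the Jacobian measure -/
noncomputable def nu (f : E n → E n) (Df : E n → E n →L[ℝ] E n) (A : Set (E n)) :
    Measure (E n) :=
  ((volume.restrict A).withDensity (fun x => ENNReal.ofReal (Df x).det)).map f

theorem measurable_det {Df : E n → E n →L[ℝ] E n} (hD : Measurable Df) :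
    Measurable fun x => ENNReal.ofReal (Df x).det :=
  (ContinuousLinearMap.continuous_det.measurable.comp hD).ennreal_ofReal

theorem lintegral_nu {f : E n → E n} {Df : E n → E n →L[ℝ] E n} (hf : Continuous f)
    (hD : Measurable Df) {A O : Set (E n)} (hO : MeasurableSet O) {η : E n → ℝ≥0∞}
    (hη : Measurable η) :
    ∫⁻ x in A ∩ f ⁻¹' O, η (f x) * ENNReal.ofReal (Df x).det = ∫⁻ z in O, η z ∂(nu f Df A) := by
  have hfO : MeasurableSet (f ⁻¹' O) := hf.measurable hO
  have h1 : ∫⁻ x in f ⁻¹' O, η (f x)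
      ∂((volume.restrict A).withDensity fun x => ENNReal.ofReal (Df x).det) =
      ∫⁻ x in f ⁻¹' O, ENNReal.ofReal (Df x).det * η (f x) ∂(volume.restrict A) :=
    setLIntegral_withDensity_eq_setLIntegral_mul (volume.restrict A) (measurable_det hD)
      (hη.comp hf.measurable) hfO
  rw [nu, setLIntegral_map hO hη hf.measurable, h1,
    Measure.restrict_restrict hfO, inter_comm]
  congr 1
  funext x
  rw [mul_comm]

theorem hasDeg_iff {f : E n → E n} {Df : E n → E n →L[ℝ] E n} (hf : Continuous f)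
    (hD : Measurable Df) {A O : Set (E n)} (hO : MeasurableSet O) {k : ℕ} :
    HasDeg f Df A O k ↔ (nu f Df A).restrict O = (k : ℝ≥0∞) • volume.restrict O := by
  constructor
  · intro h
    ext s hs
    have h1 := h (s.indicator 1) (measurable_one.indicator hs)
    rw [lintegral_nu hf hD hO (measurable_one.indicator hs), lintegral_indicator_one hs,
      lintegral_indicator_one hs] at h1
    rw [h1]; rfl
  · intro h η hη
    rw [lintegral_nu hf hD hO hη, h, lintegral_smul_measure]; rfl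

theorem det_nonneg {D : Set (E n)} {f : E n → E n} {Df : E n → E n →L[ℝ] E n}
    {K : E n → ℝ} (H : GM n D f Df K) (x : E n) : 0 ≤ (Df x).det := by
  have h1 := H.dist_le x
  have h2 := H.one_le x
  have h3 : 0 ≤ ‖Df x‖ ^ n := by positivity
  by_contra h
  push Not at h
  nlinarith

theorem isCompact_closure {D : Set (E n)} {f : E n → E n} {Df : E n → E n →L[ℝ] E n}
    {K : E n → ℝ} (H : GM n D f Df K) {A : Set (E n)} (hAD : closure A ⊆ D) :
    IsCompact (closure A) :=
  Metric.isCompact_of_isClosed_isBounded isClosed_closure (H.bdd.subset hAD)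

/-- the local degree, an integer -/
theorem local_int (hn : 2 ≤ n) {D : Set (E n)} {f : E n → E n} {Df : E n → E n →L[ℝ] E n}
    {K : E n → ℝ} (H : GM n D f Df K) {A O : Set (E n)} (hA : IsOpen A) (hAD : closure A ⊆ D)
    (hO : IsOpen O) (hfr : ∀ x ∈ frontier A, f x ∉ O) {y : E n} {r : ℝ} (hr : 0 < r)
    (hy : ball y (2 * r) ⊆ O) :
    ∃ k : ℕ, ∀ η : E n → ℝ, ContDiff ℝ ∞ η → HasCompactSupport η → tsupport η ⊆ ball y r →
      ∫ x in A, η (f x) * (Df x).det = k * ∫ z, η z := by
  have hS := isCompact_closure H hAD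
  obtain ⟨F, hF, hFu, hFt⟩ := H.exists_seq hn hS hAD
  have hAb : Bornology.IsBounded A := H.bdd.subset (subset_closure.trans hAD)
  have hbO : ball y r ⊆ O := (ball_subset_ball (by linarith)).trans hy
  -- integers for large `m`
  have h1 : ∀ᶠ m in atTop, ∃ k : ℤ, ∀ η : E n → ℝ, Continuous η → HasCompactSupport η →
      tsupport η ⊆ ball y r → ∫ x in A, η (F m x) * (fderiv ℝ (F m) x).det = k * ∫ z, η z := by
    filter_upwards [hFu r hr] with m hm
    apply smooth_deg (by omega) (hF m) hA hAb hr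
    intro x hx hxb
    apply hfr x hx
    apply hy
    rw [mem_ball] at hxb ⊢
    have h2 := hm x (frontier_subset_closure hx)
    calc dist (f x) y ≤ dist (f x) (F m x) + dist (F m x) y := dist_triangle _ _ _
      _ < r + r := by
        rw [dist_comm, dist_eq_norm]
        exact add_lt_add h2 hxb
      _ = 2 * r := by ring
  -- a test function of integral one
  obtain ⟨η₀, hη₀, hη₀c, hη₀s, hη₀0, hη₀1⟩ : ∃ η₀ : E n → ℝ, ContDiff ℝ ∞ η₀ ∧
      HasCompactSupport η₀ ∧ tsupport η₀ ⊆ ball y r ∧ (∀ x, 0 ≤ η₀ x) ∧ ∫ z, η₀ z = 1 := by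
    let φ : ContDiffBump y := ⟨r / 4, r / 2, by positivity, by linarith⟩
    refine ⟨φ.normed volume, φ.contDiff_normed, φ.hasCompactSupport_normed, ?_,
      fun x => φ.nonneg_normed x, φ.integral_normed⟩
    rw [φ.tsupport_normed_eq]
    exact closedBall_subset_ball (by show r / 2 < r; linarith)
  obtain ⟨L, hL⟩ : ∃ L, L = ∫ x in A, η₀ (f x) * (Df x).det := ⟨_, rfl⟩
  have h2 : Tendsto (fun m => ∫ x in A, η₀ (F m x) * (fderiv ℝ (F m) x).det) atTop (𝓝 L) := by
    rw [hL]
    exact hFt A O hA le_rfl hO hfr η₀ hη₀ hη₀c (hη₀s.trans hbO)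
  have h3 : ∀ᶠ m in atTop, |(∫ x in A, η₀ (F m x) * (fderiv ℝ (F m) x).det) - L| < 1 / 2 := by
    have := (tendsto_order.1 (tendsto_iff_norm_sub_tendsto_zero.1 h2)).2 (1 / 2) (by norm_num)
    exact this
  obtain ⟨M, hM⟩ := eventually_atTop.1 (h1.and h3)
  obtain ⟨k, hk⟩ := (hM M le_rfl).1
  have hkL : |(k : ℝ) - L| < 1 / 2 := by
    have := (hM M le_rfl).2
    rwa [hk η₀ hη₀.continuous hη₀c hη₀s, hη₀1, mul_one] at this
  have h4 : ∀ m, M ≤ m → ∀ η : E n → ℝ, Continuous η → HasCompactSupport η →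
      tsupport η ⊆ ball y r → ∫ x in A, η (F m x) * (fderiv ℝ (F m) x).det = k * ∫ z, η z := by
    intro m hm
    obtain ⟨k', hk'⟩ := (hM m hm).1
    have h5 : |(k' : ℝ) - L| < 1 / 2 := by
      have := (hM m hm).2
      rwa [hk' η₀ hη₀.continuous hη₀c hη₀s, hη₀1, mul_one] at this
    have h6 : k' = k := by
      rw [abs_lt] at h5 hkL
      have a1 : ((k' - k : ℤ) : ℝ) < 1 := by push_cast; linarith
      have a2 : (-1 : ℝ) < ((k' - k : ℤ) : ℝ) := by push_cast; linarith
      have b1 : k' - k < 1 := by exact_mod_cast a1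
      have b2 : -1 < k' - k := by exact_mod_cast a2
      omega
    rw [← h6]; exact hk'
  have h5 : ∀ η : E n → ℝ, ContDiff ℝ ∞ η → HasCompactSupport η → tsupport η ⊆ ball y r →
      ∫ x in A, η (f x) * (Df x).det = k * ∫ z, η z := by
    intro η hη hηc hηs
    have t1 := hFt A O hA le_rfl hO hfr η hη hηc (hηs.trans hbO)
    have t2 : Tendsto (fun m => ∫ x in A, η (F m x) * (fderiv ℝ (F m) x).det) atTop
        (𝓝 (k * ∫ z, η z)) := by
      refine tendsto_const_nhds.congr' ?_
      filter_upwards [eventually_ge_atTop M] with m hm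
      exact (h4 m hm η hη.continuous hηc hηs).symm
    exact tendsto_nhds_unique t1 t2
  have hk0 : 0 ≤ k := by
    have h6 := h5 η₀ hη₀ hη₀c hη₀s
    rw [hη₀1, mul_one] at h6
    have h7 : 0 ≤ ∫ x in A, η₀ (f x) * (Df x).det :=
      integral_nonneg fun x => mul_nonneg (hη₀0 _) (det_nonneg H x)
    rw [h6] at h7
    exact_mod_cast h7
  obtain ⟨k', rfl⟩ := Int.eq_ofNat_of_zero_le hk0
  exact ⟨k', fun η h1 h2 h3 => by rw [h5 η h1 h2 h3]; push_cast; rfl⟩

theorem isFinite_nu {D : Set (E n)} {f : E n → E n} {Df : E n → E n →L[ℝ] E n}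
    {K : E n → ℝ} (H : GM n D f Df K) {A : Set (E n)} (hAD : A ⊆ D) :
    IsFiniteMeasure (nu f Df A) := by
  have h1 : ∫⁻ x in A, ENNReal.ofReal (Df x).det ≠ ⊤ := by
    have h2 : ∫⁻ x in A, ENNReal.ofReal (Df x).det ≤ ∫⁻ x in D, ‖(Df x).det‖ₑ := by
      refine (lintegral_mono_set hAD).trans (lintegral_mono fun x => ?_)
      exact Real.ofReal_le_enorm _
    exact ne_top_of_le_ne_top H.intJ.2.ne h2
  have : IsFiniteMeasure ((volume.restrict A).withDensity (fun x => ENNReal.ofReal (Df x).det)) :=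
    isFiniteMeasure_withDensity h1
  rw [nu]
  infer_instance

/-- the local degree, in measure form -/
theorem local_meas (hn : 2 ≤ n) {D : Set (E n)} {f : E n → E n} {Df : E n → E n →L[ℝ] E n}
    {K : E n → ℝ} (H : GM n D f Df K) {A O : Set (E n)} (hA : IsOpen A) (hAD : closure A ⊆ D)
    (hO : IsOpen O) (hfr : ∀ x ∈ frontier A, f x ∉ O) {y : E n} {r : ℝ} (hr : 0 < r)
    (hy : ball y (2 * r) ⊆ O) :
    ∃ k : ℕ, (nu f Df A).restrict (ball y r) = (k : ℝ≥0∞) • volume.restrict (ball y r) := by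
  obtain ⟨k, hk⟩ := local_int hn H hA hAD hO hfr hr hy
  have hAD' : A ⊆ D := subset_closure.trans hAD
  have hfin := isFinite_nu H hAD'
  -- integrals of test functions
  have hψ : ∀ ψ : E n → ℝ, ContDiff ℝ ∞ ψ → HasCompactSupport ψ → tsupport ψ ⊆ ball y r →
      (∀ x, ψ x ∈ Icc (0 : ℝ) 1) →
      ∫⁻ z, ENNReal.ofReal (ψ z) ∂(nu f Df A) = k * ∫⁻ z, ENNReal.ofReal (ψ z) := by
    intro ψ h1 h2 h3 h4
    have h5 := hk ψ h1 h2 h3
    have hm : Measurable fun z => ENNReal.ofReal (ψ z) := h1.continuous.measurable.ennreal_ofReal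
    have e1 : ∫⁻ z, ENNReal.ofReal (ψ z) ∂(nu f Df A) =
        ∫⁻ x in A, ENNReal.ofReal (ψ (f x) * (Df x).det) := by
      have h6 := lintegral_nu (A := A) (O := univ) H.cont H.meas MeasurableSet.univ hm
      rw [preimage_univ, inter_univ, setLIntegral_univ] at h6
      rw [← h6]
      congr 1
      funext x
      rw [ENNReal.ofReal_mul (h4 _).1]
    have hint : IntegrableOn (fun x => ψ (f x) * (Df x).det) A := by
      refine (H.intJ.mono_set hAD').bdd_mul (c := 1) ?_ ?_
      · exact (h1.continuous.comp H.cont).aestronglyMeasurable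
      · filter_upwards with x
        rw [Real.norm_of_nonneg (h4 _).1]
        exact (h4 _).2
    rw [e1, ← ofReal_integral_eq_lintegral_ofReal hint
      (Eventually.of_forall fun x => mul_nonneg (h4 _).1 (det_nonneg H x)), h5,
      ENNReal.ofReal_mul (by positivity), ENNReal.ofReal_natCast,
      ofReal_integral_eq_lintegral_ofReal (h1.continuous.integrable_of_hasCompactSupport h2)
        (Eventually.of_forall fun x => (h4 _).1)]
  -- open subsets
  have hV : ∀ V : Set (E n), IsOpen V → V ⊆ ball y r → nu f Df A V = k * volume V := by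
    intro V hVo hVb
    have key : ∀ S : Set (E n), IsCompact S → S ⊆ V → nu f Df A S ≤ k * volume V ∧
        (k : ℝ≥0∞) * volume S ≤ nu f Df A V := by
      intro S hS hSV
      obtain ⟨ψ, h1, h2, h3, ⟨N, hN, hSN, hN1⟩, h4⟩ := exists_bump hS hVo hSV
      have h5 := hψ ψ h1 h2 (h3.trans hVb) h4
      have low : ∀ μ : Measure (E n), μ S ≤ ∫⁻ z, ENNReal.ofReal (ψ z) ∂μ := by
        intro μ
        rw [← lintegral_indicator_one hS.measurableSet]
        refine lintegral_mono fun z => ?_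
        by_cases hz : z ∈ S
        · rw [indicator_of_mem hz, hN1 z (hSN hz)]; simp
        · rw [indicator_of_notMem hz]; simp
      have upp : ∀ μ : Measure (E n), ∫⁻ z, ENNReal.ofReal (ψ z) ∂μ ≤ μ V := by
        intro μ
        rw [← lintegral_indicator_one hVo.measurableSet]
        refine lintegral_mono fun z => ?_
        by_cases hz : z ∈ V
        · rw [indicator_of_mem hz]
          simp only [Pi.one_apply]
          exact ENNReal.ofReal_le_one.2 (h4 z).2
        · have : ψ z = 0 := image_eq_zero_of_notMem_tsupport fun h => hz (h3 h)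
          rw [this]; simp
      constructor
      · calc nu f Df A S ≤ _ := low _
          _ = _ := h5
          _ ≤ k * volume V := mul_le_mul_right (upp _) _
      · calc (k : ℝ≥0∞) * volume S ≤ k * ∫⁻ z, ENNReal.ofReal (ψ z) := mul_le_mul_right (low _) _
          _ = _ := h5.symm
          _ ≤ _ := upp _
    apply le_antisymm
    · rw [hVo.measure_eq_iSup_isCompact (nu f Df A)]
      exact iSup_le fun S => iSup_le fun hSV => iSup_le fun hS => (key S hS hSV).1
    · rw [hVo.measure_eq_iSup_isCompact volume, ENNReal.mul_iSup]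
      refine iSup_le fun S => ?_
      rw [ENNReal.mul_iSup]
      refine iSup_le fun hSV => ?_
      rw [ENNReal.mul_iSup]
      exact iSup_le fun hS => (key S hS hSV).2
  refine ⟨k, ?_⟩
  have hvol : IsFiniteMeasure (volume.restrict (ball y r)) := ⟨by
    rw [Measure.restrict_apply_univ]; exact measure_ball_lt_top⟩
  have hgen : (borel (E n)) = MeasurableSpace.generateFrom {s : Set (E n) | IsOpen s} := rfl
  refine ext_of_generate_finite {s : Set (E n) | IsOpen s} (BorelSpace.measurable_eq.trans hgen)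
    isPiSystem_isOpen ?_ ?_
  · intro s (hs : IsOpen s)
    rw [Measure.restrict_apply hs.measurableSet, Measure.smul_apply,
      Measure.restrict_apply hs.measurableSet, smul_eq_mul]
    exact hV _ (hs.inter isOpen_ball) inter_subset_right
  · rw [Measure.restrict_apply_univ, Measure.smul_apply, Measure.restrict_apply_univ, smul_eq_mul]
    exact hV _ isOpen_ball le_rfl

end DegGMAux

open DegGMAux in
theorem GM.exists_deg (hn : 2 ≤ n) {D : Set (E n)} {f : E n → E n} {Df : E n → E n →L[ℝ] E n}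
    {K : E n → ℝ} (H : GM n D f Df K) {A O : Set (E n)} (hA : IsOpen A) (hAD : closure A ⊆ D)
    (hO : IsOpen O) (hOc : IsPreconnected O) (hfr : ∀ x ∈ frontier A, f x ∉ O) :
    ∃ k : ℕ, HasDeg f Df A O k := by
  have hrad : ∀ y : O, ∃ r > 0, ball (y : E n) (2 * r) ⊆ O := by
    rintro ⟨y, hy⟩
    obtain ⟨r, hr, hrO⟩ := Metric.isOpen_iff.1 hO y hy
    exact ⟨r / 2, by positivity, by rwa [show 2 * (r / 2) = r by ring]⟩
  choose r hr hrO using hrad
  have hloc : ∀ y : O, ∃ k : ℕ, (nu f Df A).restrict (ball (y : E n) (r y)) =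
      (k : ℝ≥0∞) • volume.restrict (ball (y : E n) (r y)) := fun y =>
    local_meas hn H hA hAD hO hfr (hr y) (hrO y)
  choose κ hκ using hloc
  have hκV : ∀ (y : O) (V : Set (E n)), IsOpen V → V ⊆ ball (y : E n) (r y) →
      nu f Df A V = κ y * volume V := by
    intro y V hV hVb
    have h1 := congrArg (fun μ : Measure (E n) => μ V) (hκ y)
    simp only [Measure.smul_apply, Measure.restrict_apply hV.measurableSet,
      inter_eq_left.2 hVb, smul_eq_mul] at h1
    exact h1
  have hloc : IsLocallyConstant κ := by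
    rw [IsLocallyConstant.iff_eventually_eq]
    intro y
    have h1 : ∀ᶠ y' : O in 𝓝 y, (y' : E n) ∈ ball (y : E n) (r y) :=
      continuous_subtype_val.continuousAt.eventually (isOpen_ball.mem_nhds (mem_ball_self (hr y)))
    filter_upwards [h1] with y' hy'
    have hV : IsOpen (ball (y : E n) (r y) ∩ ball (y' : E n) (r y')) := isOpen_ball.inter isOpen_ball
    have h2 := hκV y _ hV inter_subset_left
    have h3 := hκV y' _ hV inter_subset_right
    have hpos : 0 < volume (ball (y : E n) (r y) ∩ ball (y' : E n) (r y')) :=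
      hV.measure_pos volume ⟨y', hy', mem_ball_self (hr y')⟩
    have hfin : volume (ball (y : E n) (r y) ∩ ball (y' : E n) (r y')) ≠ ⊤ :=
      ((measure_mono inter_subset_left).trans_lt measure_ball_lt_top).ne
    rw [h2] at h3
    have h4 := (ENNReal.mul_left_inj hpos.ne' hfin).1 h3
    exact_mod_cast h4.symm
  obtain ⟨k, hk⟩ : ∃ k, ∀ y, κ y = k := by
    have : PreconnectedSpace O := isPreconnected_iff_preconnectedSpace.1 hOc
    by_cases hne : Nonempty O
    · obtain ⟨y₀⟩ := hne
      exact ⟨κ y₀, fun y => hloc.apply_eq_of_preconnectedSpace _ _⟩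
    · exact ⟨0, fun y => (hne ⟨y⟩).elim⟩
  refine ⟨k, (hasDeg_iff H.cont H.meas hO.measurableSet).2 ?_⟩
  have hcover : (⋃ y : O, ball (y : E n) (r y)) = O := by
    apply Subset.antisymm
    · refine iUnion_subset fun y => ?_
      exact (ball_subset_ball (by linarith [hr y])).trans (hrO y)
    · intro y hy
      exact mem_iUnion.2 ⟨⟨y, hy⟩, mem_ball_self (hr _)⟩
  obtain ⟨T, hT, hTU⟩ := TopologicalSpace.isOpen_iUnion_countable
    (fun y : O => ball (y : E n) (r y)) (fun y => isOpen_ball)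
  rw [← hcover, ← hTU, ← Measure.restrict_smul, Measure.restrict_biUnion_congr hT]
  intro y _
  rw [Measure.restrict_smul, hκ y, hk y]

namespace DegGMAux

/-- averages over small balls are close to the value -/
theorem abs_average_sub_le {w : E n → ℝ} {a : E n} {s ε : ℝ} (hs : 0 < s)
    (hw : ContinuousOn w (closedBall a s)) (h : ∀ x ∈ ball a s, |w x - w a| ≤ ε) :
    |(⨍ x in ball a s, w x) - w a| ≤ ε := by
  have h1 : (⨍ x in ball a s, w x) ∈ closedBall (w a) ε := by
    refine (convex_closedBall (w a) ε).set_average_mem isClosed_closedBall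
      (isOpen_ball.measure_pos volume ⟨a, mem_ball_self hs⟩).ne' measure_ball_lt_top.ne ?_ ?_
    · filter_upwards [ae_restrict_mem measurableSet_ball] with x hx
      rw [mem_closedBall, Real.dist_eq]
      exact h x hx
    · exact (hw.integrableOn_compact (isCompact_closedBall a s)).mono_set ball_subset_closedBall
  rwa [mem_closedBall, Real.dist_eq] at h1

/-- a function with vanishing upper gradient is locally constant -/
theorem UG.eq_of_zero {D : Set (E n)} {w : E n → ℝ} {G : E n → ℝ≥0∞} (h : UG D w G) {a b : E n}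
    {ρ : ℝ} (hD : closedBall a (2 * ρ) ⊆ D) (hG : ∫⁻ x in ball a (2 * ρ), G x = 0)
    (hb : dist b a < ρ) : w a = w b := by
  have hρ : 0 < ρ := dist_nonneg.trans_lt hb
  have hwa : ContinuousOn w (closedBall a (2 * ρ)) := h.cont.mono hD
  have hseg : ∀ s, 0 < s → s ≤ ρ → (⨍ x in ball a s, w x) = ⨍ x in ball b s, w x := by
    intro s hs hsρ
    have hl : ∀ t ∈ Icc (0 : ℝ) 1, dist (AffineMap.lineMap a b t : E n) a < ρ := by
      intro t ht
      rw [dist_lineMap_left, Real.norm_of_nonneg ht.1, dist_comm a b]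
      calc t * dist b a ≤ 1 * dist b a := mul_le_mul_of_nonneg_right ht.2 dist_nonneg
        _ < ρ := by rw [one_mul]; exact hb
    have h1 := h.seg a b s hs (fun t ht => by
      refine (fun x hx => hD ?_)
      rw [mem_closedBall] at hx ⊢
      have := hl t ht
      linarith [dist_triangle x (AffineMap.lineMap a b t : E n) a]) (ball a (2 * ρ)) (fun t ht => by
      intro x hx
      rw [mem_ball] at hx ⊢
      have := hl t ht
      linarith [dist_triangle x (AffineMap.lineMap a b t : E n) a])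
    rw [hG, mul_zero, nonpos_iff_eq_zero, mul_eq_zero] at h1
    rcases h1 with h1 | h1
    · rw [ENNReal.ofReal_eq_zero] at h1
      have h2 := abs_nonpos_iff.1 h1
      linarith
    · exact absurd h1 (isOpen_ball.measure_pos volume ⟨a, mem_ball_self hs⟩).ne'
  -- continuity at `a` and `b`
  have hcont : ∀ c, dist c a < ρ → ∀ ε > 0, ∃ s > 0, s ≤ ρ ∧ ∀ s', 0 < s' → s' ≤ s →
      |(⨍ x in ball c s', w x) - w c| ≤ ε := by
    intro c hc ε hε
    have hcD : closedBall c ρ ⊆ closedBall a (2 * ρ) := by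
      intro x hx
      rw [mem_closedBall] at hx ⊢
      linarith [dist_triangle x c a]
    have hnh : closedBall a (2 * ρ) ∈ 𝓝 c := by
      refine mem_of_superset (closedBall_mem_nhds c hρ) hcD
    have h2 : ContinuousAt w c := hwa.continuousAt hnh
    obtain ⟨δ, hδ, hδw⟩ := Metric.continuousAt_iff.1 h2 ε hε
    refine ⟨min δ ρ, lt_min hδ hρ, min_le_right _ _, fun s' hs' hss => ?_⟩
    apply abs_average_sub_le hs' (hwa.mono ((closedBall_subset_closedBall
      (hss.trans (min_le_right _ _))).trans hcD))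
    intro x hx
    have := hδw (x := x) (lt_of_lt_of_le hx (hss.trans (min_le_left _ _)))
    rw [Real.dist_eq] at this
    exact this.le
  refine eq_of_forall_dist_le fun ε hε => ?_
  obtain ⟨s1, hs1, hs1ρ, h1⟩ := hcont a (by rw [dist_self]; exact hρ) (ε / 2) (by positivity)
  obtain ⟨s2, hs2, hs2ρ, h2⟩ := hcont b hb (ε / 2) (by positivity)
  have h3 := h1 (min s1 s2) (lt_min hs1 hs2) (min_le_left _ _)
  have h4 := h2 (min s1 s2) (lt_min hs1 hs2) (min_le_right _ _)
  rw [hseg _ (lt_min hs1 hs2) ((min_le_left _ _).trans hs1ρ)] at h3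
  rw [Real.dist_eq]
  rw [abs_le] at h3 h4 ⊢
  constructor <;> linarith [h3.1, h3.2, h4.1, h4.2]

end DegGMAux

open DegGMAux

/-- For continuous test functions. -/
theorem HasDeg.integral_eq {f : E n → E n} {Df : E n → E n →L[ℝ] E n} {A O : Set (E n)} {k : ℕ}
    (hf : Continuous f) (hD : Measurable Df) (hdet : ∀ x, 0 ≤ (Df x).det) (hA : IsOpen A)
    (hO : IsOpen O) (h : HasDeg f Df A O k) {η : E n → ℝ} (hη : Continuous η)
    (hηc : HasCompactSupport η) (hηs : tsupport η ⊆ O) :
    ∫ x in A, η (f x) * (Df x).det = k * ∫ z, η z := by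
  have h1 := (hasDeg_iff hf hD hO.measurableSet).1 h
  have hz : ∀ z, z ∉ O → η z = 0 := fun z hz => image_eq_zero_of_notMem_tsupport fun h => hz (hηs h)
  have e1 : ∫ z, η z ∂(nu f Df A) = ∫ x in A, η (f x) * (Df x).det := by
    rw [nu, integral_map hf.aemeasurable hη.aestronglyMeasurable,
      integral_withDensity_eq_integral_toReal_smul (measurable_det hD)
        (Eventually.of_forall fun x => ENNReal.ofReal_lt_top)]
    congr 1
    funext x
    rw [ENNReal.toReal_ofReal (hdet x), smul_eq_mul, mul_comm]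
  have e2 : ∫ z, η z ∂(nu f Df A) = ∫ z in O, η z ∂(nu f Df A) :=
    (setIntegral_eq_integral_of_forall_compl_eq_zero hz).symm
  have e3 : ∫ z, η z = ∫ z in O, η z := (setIntegral_eq_integral_of_forall_compl_eq_zero hz).symm
  rw [← e1, e2, h1, integral_smul_measure, e3]
  simp

/-- If the differential vanishes almost everywhere on a connected open set, `f` is constant. -/
theorem GM.const_of_zero (hn : 2 ≤ n) {D : Set (E n)} {f : E n → E n}
    {Df : E n → E n →L[ℝ] E n} {K : E n → ℝ} (H : GM n D f Df K) {W : Set (E n)} (hW : IsOpen W)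
    (hWc : IsPreconnected W) (hWD : W ⊆ D) (h0 : ∀ᵐ x ∂(volume.restrict W), (Df x).det = 0) :
    ∀ x ∈ W, ∀ z ∈ W, f x = f z := by
  have hDf : ∀ᵐ x ∂(volume.restrict W), Df x = 0 := by
    filter_upwards [h0] with x hx
    have h1 := H.dist_le x
    rw [hx, mul_zero] at h1
    have h2 : ‖Df x‖ ^ n = 0 := le_antisymm h1 (by positivity)
    exact norm_eq_zero.1 (pow_eq_zero_iff (by omega) |>.1 h2)
  have hloc : IsLocallyConstant (fun x : W => f x) := by
    rw [IsLocallyConstant.iff_eventually_eq]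
    rintro ⟨a, ha⟩
    obtain ⟨ρ, hρ, hρW⟩ := Metric.nhds_basis_closedBall.mem_iff.1 (hW.mem_nhds ha)
    have hρ2 : closedBall a (2 * (ρ / 2)) ⊆ W := by rwa [show 2 * (ρ / 2) = ρ by ring]
    have h1 : ∀ᶠ y : W in 𝓝 ⟨a, ha⟩, (y : E n) ∈ ball a (ρ / 2) :=
      continuous_subtype_val.continuousAt.eventually_mem (ball_mem_nhds a (by positivity))
    filter_upwards [h1] with y hy
    ext j
    have hΦ : ContDiff ℝ ∞ (fun z : E n => z j) := (EuclideanSpace.proj j : E n →L[ℝ] ℝ).contDiff
    have h2 := ((H.wd_comp' hn hΦ).mono hW hWD).ug hW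
    have h3 : ∫⁻ x in ball a (2 * (ρ / 2)), ‖(fderiv ℝ (fun z : E n => z j) (f x)).comp (Df x)‖ₑ = 0 := by
      rw [lintegral_eq_zero_iff' ?_]
      · have h4 : ∀ᵐ x ∂(volume.restrict (ball a (2 * (ρ / 2)))), Df x = 0 :=
          ae_restrict_of_ae_restrict_of_subset (ball_subset_closedBall.trans hρ2) hDf
        filter_upwards [h4] with x hx
        show ‖(fderiv ℝ (fun z : E n => z j) (f x)).comp (Df x)‖ₑ = 0
        rw [hx, ContinuousLinearMap.comp_zero, ← ofReal_norm, norm_zero, ENNReal.ofReal_zero]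
      · have hm : Measurable fun x => (fderiv ℝ (fun z : E n => z j) (f x)).comp (Df x) := by
          have h5 : ∀ y, fderiv ℝ (fun z : E n => z j) y = (EuclideanSpace.proj j : E n →L[ℝ] ℝ) :=
            fun y => (EuclideanSpace.proj j : E n →L[ℝ] ℝ).hasFDerivAt.fderiv
          simp only [h5]
          exact ((ContinuousLinearMap.compL ℝ (E n) (E n) ℝ (EuclideanSpace.proj j)).continuous.measurable).comp H.meas
        exact hm.enorm.aemeasurable
    exact (UG.eq_of_zero h2 hρ2 h3 hy).symm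
  intro x hx z hz
  have : PreconnectedSpace W := isPreconnected_iff_preconnectedSpace.1 hWc
  exact hloc.apply_eq_of_preconnectedSpace ⟨x, hx⟩ ⟨z, hz⟩

end Pool.Agent.MP_dd09c0_an
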