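import Pool.Agent.MP_dd09c0_an.NullSmooth

/-!
# The degree of a smooth map, first part: the degree integral is a multiple of the integral
-/

open MeasureTheory Metric Set Filter Topology
open scoped ENNReal NNReal ContDiff RealInnerProductSpace

namespace Pool.Agent.MP_dd09c0_an

variable {n : ℕ}

namespace DegAux

theorem integrableOn_of_continuous {g : E n → ℝ} (hg : Continuous g) {A : Set (E n)}
    (hAb : Bornology.IsBounded A) : IntegrableOn g A :=
  (hg.continuousOn.integrableOn_compact hAb.isCompact_closure).mono_set subset_closure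

theorem continuous_jac {F : E n → E n} (hF : ContDiff ℝ ∞ F) :
    Continuous fun x => (fderiv ℝ F x).det :=
  ContinuousLinearMap.continuous_det.comp (hF.continuous_fderiv (by simp))

/-- The integral of the Jacobian times a partial derivative vanishes (coordinate directions). -/
theorem int_partial {F : E n → E n} (hF : ContDiff ℝ ∞ F) {A : Set (E n)} (hA : IsOpen A)
    (hAb : Bornology.IsBounded A) {h : E n → ℝ} (hh : ContDiff ℝ ∞ h)
    (hfr : ∀ x ∈ frontier A, F x ∉ tsupport h) (i : Fin n) :
    ∫ x in A, fderiv ℝ h (F x) (EuclideanSpace.single i 1) * (fderiv ℝ F x).det = 0 := by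
  have hKc : IsCompact (closure A ∩ F ⁻¹' tsupport h) :=
    hAb.isCompact_closure.inter_right ((isClosed_tsupport h).preimage hF.continuous)
  have hKA : closure A ∩ F ⁻¹' tsupport h ⊆ A := by
    rintro x ⟨hx1, hx2⟩
    by_contra hxA
    exact hfr x ⟨hx1, fun hx => hxA (interior_subset hx)⟩ hx2
  obtain ⟨ψ, hψ, hψc, hψA, hψ1, -⟩ := NullAux.exists_bump hKc hA hKA
  set u : E n → ℝ := fun x => ψ x * h (F x) with hu
  have hus : ContDiff ℝ ∞ u := hψ.mul (hh.comp hF)
  have huc : HasCompactSupport u := hψc.mul_right
  obtain ⟨C, hC⟩ := hus.lipschitzWith_of_hasCompactSupport huc (by simp)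
  have hnull := null_smooth i hC huc hF
  rw [← integral_indicator hA.measurableSet, ← hnull]
  congr 1
  funext x
  by_cases hxA : x ∈ A
  · rw [indicator_of_mem hxA]
    have hev : u =ᶠ[𝓝 x] fun z => h (F z) := by
      by_cases hxK : x ∈ closure A ∩ F ⁻¹' tsupport h
      · filter_upwards [hψ1 x hxK] with z hz
        simp only [hu]; rw [hz, one_mul]
      · have hFx : F x ∉ tsupport h := fun hx => hxK ⟨subset_closure hxA, hx⟩
        have : ∀ᶠ z in 𝓝 x, F z ∈ (tsupport h)ᶜ :=
          hF.continuous.continuousAt.eventually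
            ((isClosed_tsupport h).isOpen_compl.mem_nhds hFx)
        filter_upwards [this] with z hz
        simp only [hu]
        rw [image_eq_zero_of_notMem_tsupport hz, mul_zero]
    have hfd : fderiv ℝ u x = (fderiv ℝ h (F x)).comp (fderiv ℝ F x) := by
      rw [hev.fderiv_eq]
      exact fderiv_comp x (hh.differentiable (by simp) _) (hF.differentiable (by simp) _)
    rw [hfd, det_rowRepl_comp]
  · rw [indicator_of_notMem hxA]
    have : fderiv ℝ u x = 0 := by
      have hx1 : x ∉ tsupport u := fun hx =>
        hxA (hψA (tsupport_mul_subset_left hx))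
      exact image_eq_zero_of_notMem_tsupport (f := fderiv ℝ u) (x := x)
        (fun h => hx1 (tsupport_fderiv_subset ℝ h))
    rw [this]
    have h0 := det_rowRepl_smul i 0 (0 : E n →L[ℝ] ℝ) (fderiv ℝ F x)
    rw [zero_smul, zero_mul] at h0
    rw [h0]

/-- The integral of the Jacobian times a directional derivative vanishes. -/
theorem int_grad {F : E n → E n} (hF : ContDiff ℝ ∞ F) {A : Set (E n)} (hA : IsOpen A)
    (hAb : Bornology.IsBounded A) {h : E n → ℝ} (hh : ContDiff ℝ ∞ h)
    (hfr : ∀ x ∈ frontier A, F x ∉ tsupport h) (v : E n) :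
    ∫ x in A, fderiv ℝ h (F x) v * (fderiv ℝ F x).det = 0 := by
  have hv : v = ∑ m, v m • (EuclideanSpace.single m (1:ℝ) : E n) := by
    ext j
    simp [Finset.sum_apply, Pi.single_apply]
  have h1 : ∀ x, fderiv ℝ h (F x) v * (fderiv ℝ F x).det
      = ∑ m, v m * (fderiv ℝ h (F x) (EuclideanSpace.single m 1) * (fderiv ℝ F x).det) := by
    intro x
    conv_lhs => rw [hv]
    rw [map_sum, Finset.sum_mul]
    apply Finset.sum_congr rfl
    intro m _
    rw [map_smul, smul_eq_mul]
    ring
  simp only [h1]
  rw [integral_finsetSum]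
  · apply Finset.sum_eq_zero
    intro m _
    rw [integral_const_mul, int_partial hF hA hAb hh hfr, mul_zero]
  · intro m _
    apply Integrable.const_mul
    apply integrableOn_of_continuous _ hAb
    exact (((hh.continuous_fderiv (by simp)).comp hF.continuous).clm_apply
      continuous_const).mul (continuous_jac hF)

/-- The mollified degree integral is locally constant. -/
theorem const_conv {F : E n → E n} (hF : ContDiff ℝ ∞ F) {A : Set (E n)} (hA : IsOpen A)
    (hAb : Bornology.IsBounded A) {y : E n} {r : ℝ}
    (hfr : ∀ x ∈ frontier A, F x ∉ ball y r) (φ : ContDiffBump (0 : E n)) {z z' : E n}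
    (hz : z ∈ ball y (r - φ.rOut)) (hz' : z' ∈ ball y (r - φ.rOut)) :
    ∫ x in A, φ.normed volume (F x - z) * (fderiv ℝ F x).det
      = ∫ x in A, φ.normed volume (F x - z') * (fderiv ℝ F x).det := by
  set ρ : E n → ℝ := φ.normed volume with hρ
  have hρs : ContDiff ℝ ∞ ρ := φ.contDiff_normed
  have hρc : HasCompactSupport ρ := φ.hasCompactSupport_normed
  obtain ⟨C, hC⟩ := hρs.lipschitzWith_of_hasCompactSupport hρc (by simp)
  set g : E n → ℝ := fun z => ∫ x in A, ρ (F x - z) * (fderiv ℝ F x).det with hg
  have hJ := continuous_jac hF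
  have hderiv : ∀ z ∈ ball y (r - φ.rOut), HasFDerivAt g (0 : E n →L[ℝ] ℝ) z := by
    intro z hz
    have hd : HasFDerivAt g (∫ x in A, (fderiv ℝ F x).det • (-(fderiv ℝ ρ (F x - z)))) z := by
      apply hasFDerivAt_integral_of_dominated_of_fderiv_le (s := univ)
        (bound := fun x => C * |(fderiv ℝ F x).det|) (F' := fun z x => (fderiv ℝ F x).det •
          (-(fderiv ℝ ρ (F x - z)))) univ_mem
      · refine Filter.Eventually.of_forall fun w => ?_
        exact ((hρs.continuous.comp (hF.continuous.sub continuous_const)).mul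
          hJ).aestronglyMeasurable
      · exact integrableOn_of_continuous
          ((hρs.continuous.comp (hF.continuous.sub continuous_const)).mul hJ) hAb
      · apply Continuous.aestronglyMeasurable
        exact hJ.smul (((hρs.continuous_fderiv (by simp)).comp
          (hF.continuous.sub continuous_const)).neg)
      · refine Filter.Eventually.of_forall fun x w _ => ?_
        rw [norm_smul, norm_neg, Real.norm_eq_abs, mul_comm]
        exact mul_le_mul_of_nonneg_right (norm_fderiv_le_of_lipschitz ℝ hC) (abs_nonneg _)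
      · exact integrableOn_of_continuous (continuous_const.mul hJ.abs) hAb
      · refine Filter.Eventually.of_forall fun x w _ => ?_
        have h1 : HasFDerivAt (fun w => ρ (F x - w)) (-(fderiv ℝ ρ (F x - w))) w := by
          have h2 : HasFDerivAt ρ (fderiv ℝ ρ (F x - w)) (F x - w) :=
            (hρs.differentiable (by simp) _).hasFDerivAt
          have h3 : HasFDerivAt (fun w : E n => F x - w) (-(ContinuousLinearMap.id ℝ (E n))) w :=
            (hasFDerivAt_id w).const_sub (F x)
          have h4 := h2.comp w h3
          convert! h4 using 1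
          ext v
          simp
        have := h1.mul_const ((fderiv ℝ F x).det)
        exact this
    have hzero : (∫ x in A, (fderiv ℝ F x).det • (-(fderiv ℝ ρ (F x - z)))) = 0 := by
      ext v
      have hint : Integrable (fun x => (fderiv ℝ F x).det • (-(fderiv ℝ ρ (F x - z))))
          (volume.restrict A) := by
        have hc : Continuous fun x => (fderiv ℝ F x).det • (-(fderiv ℝ ρ (F x - z))) :=
          hJ.smul (((hρs.continuous_fderiv (by simp)).comp
            (hF.continuous.sub continuous_const)).neg)
        exact (hc.continuousOn.integrableOn_compact hAb.isCompact_closure).mono_set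
          subset_closure
      rw [ContinuousLinearMap.integral_apply hint]
      set h : E n → ℝ := fun w => ρ (w - z) with hh
      have hhs : ContDiff ℝ ∞ h := hρs.comp (contDiff_id.sub contDiff_const)
      have hhd : ∀ w, fderiv ℝ h w = fderiv ℝ ρ (w - z) := by
        intro w
        simp only [hh]
        exact fderiv_comp_sub z
      have hts : tsupport h ⊆ ball y r := by
        have hsub : tsupport h ⊆ closedBall z φ.rOut := by
          refine closure_minimal ?_ isClosed_closedBall
          intro w hw
          have hw' : w - z ∈ Function.support ρ := hw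
          rw [hρ, φ.support_normed_eq] at hw'
          rw [mem_closedBall, dist_eq_norm]
          have : ‖w - z - 0‖ < φ.rOut := by simpa [dist_eq_norm] using hw'
          rw [sub_zero] at this
          exact this.le
        refine hsub.trans ?_
        intro w hw
        have h1 : dist w z ≤ φ.rOut := hw
        have h2 : dist z y < r - φ.rOut := hz
        have h3 := dist_triangle w z y
        exact mem_ball.2 (by linarith)
      have key := int_grad hF hA hAb hhs (fun x hx hx' => hfr x hx (hts hx')) v
      calc ∫ x in A, ((fderiv ℝ F x).det • (-(fderiv ℝ ρ (F x - z)))) v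
          = ∫ x in A, - (fderiv ℝ h (F x) v * (fderiv ℝ F x).det) := by
            congr 1
            funext x
            rw [hhd]
            simp [mul_comm]
        _ = 0 := by rw [integral_neg, key, neg_zero]
        _ = (0 : E n →L[ℝ] ℝ) v := by simp
    rw [hzero] at hd
    exact hd
  refine (isOpen_ball).is_const_of_fderiv_eq_zero (𝕜 := ℝ) (f := g)
    (convex_ball y _).isPreconnected ?_ ?_ hz hz'
  · intro w hw
    exact (hderiv w hw).differentiableAt.differentiableWithinAt
  · intro w hw
    simpa using (hderiv w hw).fderiv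

theorem approx {F : E n → E n} (hF : ContDiff ℝ ∞ F) {A : Set (E n)} (hA : IsOpen A)
    (hAb : Bornology.IsBounded A) {y : E n} {r : ℝ} (hr : 0 < r)
    (hfr : ∀ x ∈ frontier A, F x ∉ ball y r) {η : E n → ℝ} (hη : Continuous η)
    (hηc : HasCompactSupport η) (hηs : tsupport η ⊆ ball y r) {ε : ℝ} (hε : 0 < ε) :
    ∃ σ : ℝ, 0 < σ ∧ ∀ φ : ContDiffBump (0 : E n), φ.rOut < σ →
      |(∫ x in A, η (F x) * (fderiv ℝ F x).det)
        - (∫ x in A, φ.normed volume (F x - y) * (fderiv ℝ F x).det) * ∫ z, η z|
        ≤ ε * ∫ x in A, |(fderiv ℝ F x).det| := by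
  obtain ⟨r', ⟨hr'0, hr'r⟩, hr's⟩ := exists_pos_lt_subset_ball hr (isClosed_tsupport η) hηs
  have huc : UniformContinuous η := hηc.uniformContinuous_of_continuous hη
  obtain ⟨δ, hδ, hδε⟩ := Metric.uniformContinuous_iff.1 huc ε hε
  refine ⟨min δ (r - r'), lt_min hδ (by linarith), ?_⟩
  intro φ hφ
  have hφ1 : φ.rOut < δ := hφ.trans_le (min_le_left _ _)
  have hφ2 : φ.rOut < r - r' := hφ.trans_le (min_le_right _ _)
  have hJ := continuous_jac hF
  set ρ : E n → ℝ := φ.normed volume with hρ
  have hρs : ContDiff ℝ ∞ ρ := φ.contDiff_normed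
  have hρc : HasCompactSupport ρ := φ.hasCompactSupport_normed
  obtain ⟨Cρ, hCρ⟩ := hρs.continuous.bounded_above_of_compact_support hρc
  set ησ : E n → ℝ := fun w => ∫ z, ρ (w - z) * η z with hησ
  have hconv : ∀ w, ησ w = convolution ρ η (ContinuousLinearMap.lsmul ℝ ℝ) volume w := by
    intro w
    rw [convolution_lsmul_swap]
    rfl
  have hdist : ∀ w, |η w - ησ w| ≤ ε := by
    intro w
    have := ContDiffBump.dist_normed_convolution_le (φ := φ) (μ := volume) (g := η) (x₀ := w)
      (ε := ε) hη.aestronglyMeasurable (fun z hz => (hδε (lt_trans hz hφ1)).le)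
    rw [← hconv w, dist_comm, Real.dist_eq] at this
    exact this
  have hησc : Continuous ησ := by
    have : ησ = convolution ρ η (ContinuousLinearMap.lsmul ℝ ℝ) volume := funext hconv
    rw [this]
    exact hρc.continuous_convolution_left _ hρs.continuous hη.locallyIntegrable
  -- Fubini
  have hfub : ∫ x in A, ησ (F x) * (fderiv ℝ F x).det
      = (∫ x in A, ρ (F x - y) * (fderiv ℝ F x).det) * ∫ z, η z := by
    have hint : Integrable (Function.uncurry
        (fun x z => ρ (F x - z) * η z * (fderiv ℝ F x).det))
        ((volume.restrict A).prod volume) := by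
      have h1 : Integrable (fun x => Cρ * |(fderiv ℝ F x).det|) (volume.restrict A) :=
        integrableOn_of_continuous (continuous_const.mul hJ.abs) hAb
      have h2 : Integrable (fun z => |η z|) :=
        (hη.integrable_of_hasCompactSupport hηc).abs
      refine (h1.mul_prod h2).mono' ?_ ?_
      · apply Continuous.aestronglyMeasurable
        exact ((hρs.continuous.comp ((hF.continuous.comp continuous_fst).sub
          continuous_snd)).mul (hη.comp continuous_snd)).mul (hJ.comp continuous_fst)
      · refine Filter.Eventually.of_forall fun p => ?_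
        simp only [Function.uncurry]
        rw [norm_mul, norm_mul]
        have := hCρ (F p.1 - p.2)
        calc ‖ρ (F p.1 - p.2)‖ * ‖η p.2‖ * ‖(fderiv ℝ F p.1).det‖
            ≤ Cρ * ‖η p.2‖ * ‖(fderiv ℝ F p.1).det‖ := by gcongr
          _ = Cρ * |(fderiv ℝ F p.1).det| * |η p.2| := by
              simp only [Real.norm_eq_abs]; ring
    calc ∫ x in A, ησ (F x) * (fderiv ℝ F x).det
        = ∫ x in A, ∫ z, ρ (F x - z) * η z * (fderiv ℝ F x).det := by
          congr 1
          funext x
          simp only [hησ]
          rw [integral_mul_const]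
      _ = ∫ z, ∫ x in A, ρ (F x - z) * η z * (fderiv ℝ F x).det :=
          integral_integral_swap hint
      _ = ∫ z, (∫ x in A, ρ (F x - y) * (fderiv ℝ F x).det) * η z := by
          congr 1
          funext z
          by_cases hz : z ∈ tsupport η
          · have hz1 : z ∈ ball y (r - φ.rOut) := by
              have : dist z y < r' := hr's hz
              exact mem_ball.2 (by linarith)
            have hy1 : y ∈ ball y (r - φ.rOut) := mem_ball_self (by linarith)
            rw [← const_conv hF hA hAb hfr φ hz1 hy1, ← integral_mul_const]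
            congr 1
            funext x
            ring
          · rw [image_eq_zero_of_notMem_tsupport hz]
            simp
      _ = _ := by rw [integral_const_mul]
  rw [← hfub, ← integral_sub]
  · calc |∫ x in A, (η (F x) * (fderiv ℝ F x).det - ησ (F x) * (fderiv ℝ F x).det)|
        ≤ ∫ x in A, |η (F x) * (fderiv ℝ F x).det - ησ (F x) * (fderiv ℝ F x).det| :=
          abs_integral_le_integral_abs
      _ ≤ ∫ x in A, ε * |(fderiv ℝ F x).det| := by
          apply integral_mono_of_nonneg (Filter.Eventually.of_forall fun x => abs_nonneg _)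
          · exact integrableOn_of_continuous (continuous_const.mul hJ.abs) hAb
          · refine Filter.Eventually.of_forall fun x => ?_
            simp only []
            rw [← sub_mul, abs_mul]
            exact mul_le_mul_of_nonneg_right (hdist _) (abs_nonneg _)
      _ = _ := integral_const_mul _ _
  · exact integrableOn_of_continuous ((hη.comp hF.continuous).mul hJ) hAb
  · exact integrableOn_of_continuous ((hησc.comp hF.continuous).mul hJ) hAb

/-- The degree integral is a real multiple of the integral. -/
theorem exists_real {F : E n → E n} (hF : ContDiff ℝ ∞ F) {A : Set (E n)} (hA : IsOpen A)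
    (hAb : Bornology.IsBounded A) {y : E n} {r : ℝ} (hr : 0 < r)
    (hfr : ∀ x ∈ frontier A, F x ∉ ball y r) :
    ∃ k : ℝ, ∀ η : E n → ℝ, Continuous η → HasCompactSupport η → tsupport η ⊆ ball y r →
      ∫ x in A, η (F x) * (fderiv ℝ F x).det = k * ∫ z, η z := by
  set φ₀ : ContDiffBump y := ⟨r / 4, r / 2, by linarith, by linarith⟩ with hφ₀
  set η₀ : E n → ℝ := φ₀.normed volume with hη₀
  have h0c : Continuous η₀ := φ₀.continuous_normed
  have h0k : HasCompactSupport η₀ := φ₀.hasCompactSupport_normed
  have h0s : tsupport η₀ ⊆ ball y r := by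
    rw [hη₀, φ₀.tsupport_normed_eq]
    exact closedBall_subset_ball (by simp [hφ₀]; linarith)
  have h0i : ∫ z, η₀ z = 1 := φ₀.integral_normed
  set k : ℝ := ∫ x in A, η₀ (F x) * (fderiv ℝ F x).det with hk
  refine ⟨k, fun η hη hηc hηs => ?_⟩
  set M : ℝ := ∫ x in A, |(fderiv ℝ F x).det| with hM
  have hM0 : 0 ≤ M := integral_nonneg fun x => abs_nonneg _
  set I : ℝ := ∫ z, η z with hI
  have main : ∀ ε : ℝ, 0 < ε → |(∫ x in A, η (F x) * (fderiv ℝ F x).det) - k * I|
      ≤ ε * (M * (1 + |I|)) := by
    intro ε hε
    obtain ⟨σ₁, hσ₁, h1⟩ := approx hF hA hAb hr hfr hη hηc hηs hε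
    obtain ⟨σ₂, hσ₂, h2⟩ := approx hF hA hAb hr hfr h0c h0k h0s hε
    have hm : 0 < min σ₁ σ₂ := lt_min hσ₁ hσ₂
    set φ : ContDiffBump (0 : E n) := ⟨min σ₁ σ₂ / 4, min σ₁ σ₂ / 2, by linarith, by linarith⟩
      with hφ
    have hφr : φ.rOut < min σ₁ σ₂ := by simp only [hφ]; linarith
    have e1 := h1 φ (hφr.trans_le (min_le_left _ _))
    have e2 := h2 φ (hφr.trans_le (min_le_right _ _))
    set c : ℝ := ∫ x in A, φ.normed volume (F x - y) * (fderiv ℝ F x).det with hc
    rw [h0i, mul_one] at e2
    have e3 : |(k - c) * I| ≤ ε * M * |I| := by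
      rw [abs_mul]
      exact mul_le_mul_of_nonneg_right e2 (abs_nonneg _)
    calc |(∫ x in A, η (F x) * (fderiv ℝ F x).det) - k * I|
        = |((∫ x in A, η (F x) * (fderiv ℝ F x).det) - c * I) - (k - c) * I| := by
          congr 1; ring
      _ ≤ |(∫ x in A, η (F x) * (fderiv ℝ F x).det) - c * I| + |(k - c) * I| := abs_sub _ _
      _ ≤ ε * M + ε * M * |I| := add_le_add e1 e3
      _ = _ := by ring
  by_contra hne
  have hD : 0 < |(∫ x in A, η (F x) * (fderiv ℝ F x).det) - k * I| :=
    abs_pos.2 (sub_ne_zero.2 hne)
  set D := |(∫ x in A, η (F x) * (fderiv ℝ F x).det) - k * I| with hDdef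
  set B := M * (1 + |I|) with hB
  have hB0 : 0 ≤ B := mul_nonneg hM0 (by positivity)
  have := main (D / (2 * (B + 1))) (by positivity)
  have h3 : D / (2 * (B + 1)) * B < D := by
    rw [div_mul_eq_mul_div, div_lt_iff₀ (by positivity)]
    nlinarith
  linarith

end DegAux

end Pool.Agent.MP_dd09c0_an
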