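import Pool.Agent.MP_dd09c0_an.WDug
import Pool.Agent.MP_dd09c0_an.WDcalc
import Pool.Agent.MP_dd09c0_an.CompTop
import Pool.Agent.MP_dd09c0_an.CompDeg

/-!
# Two continua separated by an affine function of the map
-/

open MeasureTheory Metric Set Filter Topology
open scoped ENNReal NNReal ContDiff RealInnerProductSpace

namespace Pool.Agent.MP_dd09c0_an

variable {n : ℕ}

namespace HoelderAux

theorem convex_half (e : E n) (b : ℝ) : Convex ℝ {z : E n | inner ℝ e z < b} := by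
  have : {z : E n | inner ℝ e z < b} = (innerSL ℝ e : E n →L[ℝ] ℝ) ⁻¹' (Iio b) := by
    ext z; simp
  rw [this]
  exact (convex_Iio b).linear_preimage (innerSL ℝ e : E n →L[ℝ] ℝ).toLinearMap

/-- Two sets reaching out from `a` and `b`, separated by an affine function of `f`. -/
theorem half_pair (hn : 2 ≤ n) {D : Set (E n)} {f : E n → E n} {Df : E n → E n →L[ℝ] E n}
    {K : E n → ℝ} (H : GM n D f Df K) {a b : E n} (haD : a ∈ D) (hbD : b ∈ D) (hab : f a ≠ f b)
    {x0 : E n} {ρ t0 : ℝ} (hρ : closedBall x0 ρ ⊆ D) (ha : dist a x0 ≤ t0) (hb : dist b x0 ≤ t0) :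
    ∃ (w : E n → ℝ) (L : E n →L[ℝ] ℝ) (F₁ F₂ : Set (E n)), ‖L‖ = 2 / dist (f a) (f b) ∧
      UG D w (fun z => ‖L.comp (Df z)‖ₑ) ∧ Measurable (fun z => ‖L.comp (Df z)‖ₑ) ∧
      (∀ t, t0 ≤ t → t ≤ ρ → ∃ z ∈ F₁, dist z x0 = t) ∧
      (∀ t, t0 ≤ t → t ≤ ρ → ∃ z ∈ F₂, dist z x0 = t) ∧
      (∀ z ∈ F₁, 1 ≤ w z) ∧ (∀ z ∈ F₂, w z ≤ 0) := by
  set d := dist (f a) (f b) with hd
  have hd0 : 0 < d := dist_pos.2 hab
  set e : E n := d⁻¹ • (f b - f a) with he
  have hdn : ‖f b - f a‖ = d := by rw [hd, dist_eq_norm, norm_sub_rev]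
  have he1 : ‖e‖ = 1 := by
    rw [he, norm_smul, hdn, norm_inv, Real.norm_of_nonneg hd0.le, inv_mul_cancel₀ hd0.ne']
  have he0 : e ≠ 0 := by
    intro h0; rw [h0, norm_zero] at he1; exact one_ne_zero he1.symm
  have heab : inner ℝ e (f b) = inner ℝ e (f a) + d := by
    have h1 : inner ℝ e (f b - f a) = d := by
      rw [he, real_inner_smul_left, real_inner_self_eq_norm_sq, hdn]
      field_simp
    rw [inner_sub_right] at h1
    linarith
  -- the affine function
  set L : E n →L[ℝ] ℝ := -(2 / d) • (innerSL ℝ e : E n →L[ℝ] ℝ) with hL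
  set Φ : E n → ℝ := fun y => L y + (3 / 2 + 2 / d * inner ℝ e (f a)) with hΦ
  have hΦs : ContDiff ℝ ∞ Φ := L.contDiff.add contDiff_const
  have hΦd : ∀ y, fderiv ℝ Φ y = L := by
    intro y
    rw [hΦ, fderiv_add_const, ContinuousLinearMap.fderiv]
  have hLn : ‖L‖ = 2 / d := by
    rw [hL, norm_smul, innerSL_apply_norm, he1, mul_one, norm_neg,
      Real.norm_of_nonneg (by positivity)]
  have hΦv : ∀ y, Φ y = 3 / 2 - 2 / d * (inner ℝ e y - inner ℝ e (f a)) := by
    intro y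
    simp only [hΦ, hL, neg_smul, neg_apply, smul_apply,
      innerSL_apply_apply, smul_eq_mul]
    ring
  have hwd := H.wd_comp' hn hΦs
  have hug := hwd.ug H.isOpen
  simp only [hΦd] at hug
  have hmeas : Measurable (fun z => ‖L.comp (Df z)‖ₑ) := by
    have : Continuous (fun T : E n →L[ℝ] E n => L.comp T) := by fun_prop
    exact (this.measurable.comp H.meas).enorm
  -- the two components
  set O₁ : Set (E n) := {z | inner ℝ e z < inner ℝ e (f a) + d / 4} with hO₁
  set O₂ : Set (E n) := {z | inner ℝ (-e) z < -(inner ℝ e (f a) + 3 * d / 4)} with hO₂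
  have o1 : IsOpen O₁ := isOpen_lt (by fun_prop) (by fun_prop)
  have o2 : IsOpen O₂ := isOpen_lt (by fun_prop) (by fun_prop)
  have c1 : IsPreconnected O₁ := (convex_half _ _).isPreconnected
  have c2 : IsPreconnected O₂ := (convex_half _ _).isPreconnected
  have b1 : ¬ Bornology.IsBounded O₁ := not_isBounded_halfspace he0 _
  have b2 : ¬ Bornology.IsBounded O₂ := not_isBounded_halfspace (neg_ne_zero.2 he0) _
  have fa : f a ∈ O₁ := by
    simp only [hO₁, mem_ofPred_eq]; linarith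
  have fb : f b ∈ O₂ := by
    simp only [hO₂, mem_ofPred_eq, inner_neg_left]; linarith
  refine ⟨fun z => Φ (f z), L, connectedComponentIn (D ∩ f ⁻¹' O₁) a,
    connectedComponentIn (D ∩ f ⁻¹' O₂) b, hLn, hug, hmeas, ?_, ?_, ?_, ?_⟩
  · exact fun t ht ht' => H.max_principle hn o1 c1 b1 haD fa hρ (ha.trans ht) ht'
  · exact fun t ht ht' => H.max_principle hn o2 c2 b2 hbD fb hρ (hb.trans ht) ht'
  · intro z hz
    have h1 : inner ℝ e (f z) < inner ℝ e (f a) + d / 4 := (connectedComponentIn_subset _ _ hz).2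
    show 1 ≤ Φ (f z)
    rw [hΦv]
    have h2 : 2 / d * (inner ℝ e (f z) - inner ℝ e (f a)) ≤ 2 / d * (d / 4) := by
      gcongr; linarith
    have h3 : 2 / d * (d / 4) = 1 / 2 := by field_simp; try norm_num
    linarith
  · intro z hz
    have h1 : inner ℝ (-e) (f z) < -(inner ℝ e (f a) + 3 * d / 4) :=
      (connectedComponentIn_subset _ _ hz).2
    rw [inner_neg_left] at h1
    show Φ (f z) ≤ 0
    rw [hΦv]
    have h2 : 2 / d * (3 * d / 4) ≤ 2 / d * (inner ℝ e (f z) - inner ℝ e (f a)) := by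
      gcongr; linarith
    have h3 : 2 / d * (3 * d / 4) = 3 / 2 := by field_simp; try norm_num
    linarith

end HoelderAux

end Pool.Agent.MP_dd09c0_an
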