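import Pool.Agent.MP_dd09c0_an.Cacc
import Pool.Agent.MP_dd09c0_an.HalfPair
import Pool.Agent.MP_dd09c0_an.Cap

/-!
# Oscillation decay at typical points
-/

open MeasureTheory Metric Set Filter Topology
open scoped ENNReal NNReal ContDiff RealInnerProductSpace

namespace Pool.Agent.MP_dd09c0_an

variable {n : ℕ}

namespace HoelderAux

/-- the real inequality at the end of `annulus_osc` -/
theorem final_ineq (hn : 3 ≤ n) {c r X d : ℝ} (hc : 0 < c) (hr : 0 < r) (hX : 1 ≤ X) (hd : 0 < d)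
    {I : ℝ≥0∞} (h : ENNReal.ofReal (c * r ^ (1 / 2 : ℝ)) ≤
      (ENNReal.ofReal (2 / d) ^ n * I) ^ (1 - 1 / (2 * n) : ℝ) *
      (ENNReal.ofReal (X * (4 * r) ^ n)) ^ (1 / (2 * n) : ℝ)) :
    ENNReal.ofReal (d ^ n) ≤ ENNReal.ofReal (max 1 (2 ^ n * (16 / c ^ 2 + 1)) * X) * I := by
  have hn0 : (3 : ℝ) ≤ n := by exact_mod_cast hn
  set C : ℝ := max 1 (2 ^ n * (16 / c ^ 2 + 1)) with hC
  have hC1 : 1 ≤ C := le_max_left _ _
  have hC2 : 2 ^ n * (16 / c ^ 2 + 1) ≤ C := le_max_right _ _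
  have hC0 : 0 < C := by linarith
  have hX0 : 0 < X := by linarith
  have hβ : (1 : ℝ) / (2 * n) ≤ 1 / 2 := by
    rw [div_le_div_iff₀ (by linarith) (by norm_num)]; linarith
  have hβ0 : (0 : ℝ) ≤ 1 / (2 * n) := by positivity
  by_contra hcon
  rw [not_le] at hcon
  have hI : I ≠ ⊤ := by
    rintro rfl
    rw [ENNReal.mul_top (by rw [Ne, ENNReal.ofReal_eq_zero, not_le]; positivity)] at hcon
    exact absurd hcon (not_lt.2 le_top)
  obtain ⟨J, rfl⟩ : ∃ J : ℝ≥0, I = J := ⟨I.toNNReal, (ENNReal.coe_toNNReal hI).symm⟩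
  have hJ0 : (0 : ℝ) ≤ J := J.2
  rw [← ENNReal.ofReal_coe_nnreal] at h hcon
  rw [← ENNReal.ofReal_mul (by positivity),
    ENNReal.ofReal_lt_ofReal_iff (by positivity)] at hcon
  rw [← ENNReal.ofReal_pow (by positivity), ← ENNReal.ofReal_mul (by positivity),
    ENNReal.ofReal_rpow_of_nonneg (by positivity) (by linarith),
    ENNReal.ofReal_rpow_of_nonneg (by positivity) hβ0, ← ENNReal.ofReal_mul (by positivity),
    ENNReal.ofReal_le_ofReal_iff (by positivity)] at h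
  -- the base
  set q : ℝ := 2 ^ n / C with hq
  have hq0 : 0 < q := by positivity
  have hq1 : q ≤ 1 := by
    rw [hq, div_le_one hC0]
    refine le_trans ?_ hC2
    have : (0 : ℝ) < 16 / c ^ 2 := by positivity
    nlinarith [pow_pos (show (0 : ℝ) < 2 by norm_num) n]
  have hq2 : q ≤ (c / 4) ^ 2 := by
    rw [hq, div_le_iff₀ hC0]
    have h1 : (c / 4) ^ 2 * (2 ^ n * (16 / c ^ 2 + 1)) ≤ (c / 4) ^ 2 * C := by gcongr
    have h2 : (c / 4) ^ 2 * (2 ^ n * (16 / c ^ 2 + 1)) = 2 ^ n + (c / 4) ^ 2 * 2 ^ n := by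
      field_simp
      norm_num
    have : (0 : ℝ) ≤ (c / 4) ^ 2 * 2 ^ n := by positivity
    linarith
  have hbase : (2 / d) ^ n * (J : ℝ) ≤ q / X := by
    rw [div_pow, hq, div_div, div_mul_eq_mul_div, div_le_div_iff₀ (by positivity) (by positivity)]
    have : C * X * J ≤ d ^ n := hcon.le
    nlinarith [pow_pos (show (0 : ℝ) < 2 by norm_num) n]
  have h1 : ((2 / d) ^ n * (J : ℝ)) ^ (1 - 1 / (2 * n) : ℝ) ≤
      (c / 4) * X ^ (-(1 - 1 / (2 * n)) : ℝ) := by
    refine (Real.rpow_le_rpow (by positivity) hbase (by linarith)).trans ?_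
    rw [div_eq_mul_inv, Real.mul_rpow hq0.le (by positivity), Real.inv_rpow hX0.le,
      Real.rpow_neg hX0.le]
    gcongr
    calc q ^ (1 - 1 / (2 * n) : ℝ) ≤ q ^ (1 / 2 : ℝ) :=
          Real.rpow_le_rpow_of_exponent_ge hq0 hq1 (by linarith)
      _ ≤ ((c / 4) ^ 2) ^ (1 / 2 : ℝ) := by gcongr
      _ = c / 4 := by
          rw [← Real.sqrt_eq_rpow, Real.sqrt_sq (by positivity)]
  have h2 : (X * (4 * r) ^ n) ^ (1 / (2 * n) : ℝ) = X ^ (1 / (2 * n) : ℝ) * (2 * r ^ (1 / 2 : ℝ)) := by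
    rw [Real.mul_rpow hX0.le (by positivity), ← Real.rpow_natCast (4 * r) n,
      ← Real.rpow_mul (by positivity), show (n : ℝ) * (1 / (2 * n)) = 1 / 2 by field_simp,
      Real.mul_rpow (by norm_num) hr.le, ← Real.sqrt_eq_rpow 4,
      show (4 : ℝ) = 2 ^ 2 by norm_num, Real.sqrt_sq (by norm_num)]
  rw [h2] at h
  have hs : 0 < r ^ (1 / 2 : ℝ) := by positivity
  have h3 : ((2 / d) ^ n * (J : ℝ)) ^ (1 - 1 / (2 * n) : ℝ) *
      (X ^ (1 / (2 * n) : ℝ) * (2 * r ^ (1 / 2 : ℝ))) ≤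
      (c / 4) * X ^ (-(1 - 1 / (2 * n)) : ℝ) * (X ^ (1 / (2 * n) : ℝ) * (2 * r ^ (1 / 2 : ℝ))) := by
    gcongr
  have h4 : X ^ (-(1 - 1 / (2 * n)) : ℝ) * X ^ (1 / (2 * n) : ℝ) ≤ 1 := by
    rw [← Real.rpow_add hX0]
    apply Real.rpow_le_one_of_one_le_of_nonpos hX
    linarith
  have h5 : (c / 4) * X ^ (-(1 - 1 / (2 * n)) : ℝ) * (X ^ (1 / (2 * n) : ℝ) * (2 * r ^ (1 / 2 : ℝ)))
      ≤ c / 2 * r ^ (1 / 2 : ℝ) := by
    calc (c / 4) * X ^ (-(1 - 1 / (2 * n)) : ℝ) * (X ^ (1 / (2 * n) : ℝ) * (2 * r ^ (1 / 2 : ℝ)))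
        = (c / 2 * r ^ (1 / 2 : ℝ)) *
          (X ^ (-(1 - 1 / (2 * n)) : ℝ) * X ^ (1 / (2 * n) : ℝ)) := by ring
      _ ≤ (c / 2 * r ^ (1 / 2 : ℝ)) * 1 := by gcongr
      _ = _ := mul_one _
  have : c * r ^ (1 / 2 : ℝ) ≤ c / 2 * r ^ (1 / 2 : ℝ) := h.trans (h3.trans h5)
  nlinarith [mul_pos hc hs]

end HoelderAux

theorem annulus_osc (n : ℕ) (hn : 3 ≤ n) : ∃ C : ℝ, 1 ≤ C ∧ ∀ (D : Set (E n)) (f : E n → E n)
    (Df : E n → E n →L[ℝ] E n) (K : E n → ℝ), GM n D f Df K → ∀ (x a b : E n) (r X : ℝ), 0 < r →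
    1 ≤ X → closedBall x (4 * r) ⊆ D → a ∈ ball x r → b ∈ ball x r →
    ∫⁻ z in ball x (4 * r), ENNReal.ofReal (K z) ^ (2 * n - 1) ≤ ENNReal.ofReal (X * (4 * r) ^ n) →
    ENNReal.ofReal (dist (f a) (f b) ^ n) ≤ ENNReal.ofReal (C * X) *
      ∫⁻ z in {z | r / 2 < dist z x ∧ dist z x < 4 * r}, ENNReal.ofReal (Df z).det := by
  obtain ⟨c, hc, cap⟩ := cap_annulus n hn
  refine ⟨max 1 (2 ^ n * (16 / c ^ 2 + 1)), le_max_left _ _, ?_⟩
  intro D f Df K H x a b r X hr hX hD ha hb hK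
  have h2n : 2 ≤ n := by omega
  have hn0 : (3 : ℝ) ≤ n := by exact_mod_cast hn
  rcases eq_or_ne (f a) (f b) with hab | hab
  · rw [hab, dist_self, zero_pow (by omega), ENNReal.ofReal_zero]; exact zero_le
  set d := dist (f a) (f b) with hd
  have hd0 : 0 < d := dist_pos.2 hab
  have haD : a ∈ D := hD (mem_closedBall.2 (by rw [mem_ball] at ha; linarith))
  have hbD : b ∈ D := hD (mem_closedBall.2 (by rw [mem_ball] at hb; linarith))
  obtain ⟨w, L, F₁, F₂, hLn, hug, hmeas, m1, m2, w1, w2⟩ := HoelderAux.half_pair h2n H haD hbD hab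
    hD (mem_ball.1 ha).le (mem_ball.1 hb).le
  have key := cap D w _ hug hmeas x r hr hD F₁ F₂
    (fun t ht => m1 t ht.1.le (by linarith [ht.2])) (fun t ht => m2 t ht.1.le (by linarith [ht.2]))
    w1 w2
  apply HoelderAux.final_ineq hn hc hr hX hd0
  refine key.trans ?_
  have s1 : ∫⁻ z in {z | r / 2 < dist z x ∧ dist z x < 4 * r}, ‖L.comp (Df z)‖ₑ ^ pex n ≤
      ∫⁻ z in {z | r / 2 < dist z x ∧ dist z x < 4 * r},
        (ENNReal.ofReal (2 / d) * ‖Df z‖ₑ) ^ pex n := by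
    refine lintegral_mono fun z => ?_
    apply ENNReal.rpow_le_rpow _ (by rw [pex]; linarith)
    rw [← ofReal_norm, ← ofReal_norm, ← ENNReal.ofReal_mul (by positivity)]
    apply ENNReal.ofReal_le_ofReal
    rw [← hLn]
    exact ContinuousLinearMap.opNorm_comp_le _ _
  refine s1.trans ?_
  have s2 := H.energy_le h2n {z | r / 2 < dist z x ∧ dist z x < 4 * r}
    (fun _ => ENNReal.ofReal (2 / d)) measurable_const
  refine s2.trans ?_
  have hexp : (0 : ℝ) ≤ 1 / (2 * n) := by positivity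
  have hexp' : (0 : ℝ) ≤ 1 - 1 / (2 * n) := by
    have : (1 : ℝ) / (2 * n) ≤ 1 := by
      rw [div_le_one (by linarith)]; linarith
    linarith
  rw [lintegral_const_mul' _ _ (ENNReal.pow_ne_top ENNReal.ofReal_ne_top)]
  gcongr
  refine le_trans ?_ hK
  apply lintegral_mono_set
  intro z hz
  exact mem_ball.2 hz.2

theorem osc_half (n : ℕ) (hn : 3 ≤ n) : ∃ C : ℝ, 1 ≤ C ∧ ∀ (D : Set (E n)) (f : E n → E n)
    (Df : E n → E n →L[ℝ] E n) (K : E n → ℝ), GM n D f Df K → ∀ (x : E n) (ρ X : ℝ), 0 < ρ →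
    1 ≤ X → closedBall x ρ ⊆ D → Typ K x ρ X →
    diam (f '' ball x (ρ * Real.exp (-(C * X ^ 2)))) ≤ diam (f '' ball x ρ) / 2 := by
  obtain ⟨C1, hC1, osc⟩ := annulus_osc n hn
  obtain ⟨C2, hC2, cac⟩ := cacc n (by omega)
  set B : ℝ := C1 * C2 * 4 ^ n with hB
  have hB0 : 0 < B := by positivity
  refine ⟨3 * (B + 1), by linarith, ?_⟩
  intro D f Df K H x ρ X hρ hX hD hT
  have h2n : 2 ≤ n := by omega
  have hX2 : 1 ≤ X ^ 2 := one_le_pow₀ hX
  set M := diam (f '' ball x ρ) with hM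
  have hM0 : 0 ≤ M := diam_nonneg
  set r0 : ℝ := ρ * Real.exp (-(3 * (B + 1) * X ^ 2)) with hr0
  have hr00 : 0 < r0 := by positivity
  set m : ℕ := ⌈B * X ^ 2⌉₊ with hm
  have hm1 : B * X ^ 2 ≤ m := Nat.le_ceil _
  have hm2 : (m : ℝ) ≤ (B + 1) * X ^ 2 := by
    have := Nat.ceil_lt_add_one (show 0 ≤ B * X ^ 2 by positivity)
    rw [← hm] at this
    linarith
  have hmpos : (0 : ℝ) < m := lt_of_lt_of_le (by positivity) hm1
  have h8 : (8 : ℝ) ^ m * r0 ≤ ρ := by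
    have h1 : (8 : ℝ) ^ m ≤ Real.exp (3 * (B + 1) * X ^ 2) := by
      have h2 : (8 : ℝ) ≤ Real.exp 3 := by
        have h3 : (2 : ℝ) ≤ Real.exp 1 := by
          have := Real.add_one_le_exp (1 : ℝ); linarith
        have h4 : Real.exp 3 = Real.exp 1 ^ 3 := by
          rw [← Real.exp_nat_mul]; norm_num
        rw [h4]
        calc (8 : ℝ) = 2 ^ 3 := by norm_num
          _ ≤ _ := by gcongr
      calc (8 : ℝ) ^ m ≤ Real.exp 3 ^ m := by gcongr
        _ = Real.exp (m * 3) := by rw [← Real.exp_nat_mul]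
        _ ≤ _ := by apply Real.exp_le_exp.2; linarith
    calc (8 : ℝ) ^ m * r0 ≤ Real.exp (3 * (B + 1) * X ^ 2) * r0 := by gcongr
      _ = ρ := by
        rw [hr0, Real.exp_neg]; field_simp
  have hball : ∀ z ∈ ball x ρ, dist (f z) (f x) ≤ M := by
    intro z hz
    apply dist_le_diam_of_mem _ (mem_image_of_mem f hz) (mem_image_of_mem f (mem_ball_self hρ))
    exact ((isCompact_closedBall x ρ).image H.cont).isBounded.subset
      (image_mono ball_subset_closedBall)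
  have hcac := cac D f Df K H x (ρ / 2) ρ M (by linarith) (by linarith) hD hball
  have hKn : ∫⁻ z in ball x ρ, ENNReal.ofReal (K z) ^ (n - 1) ≤ ENNReal.ofReal (X * ρ ^ n) := by
    refine le_trans ?_ (hT ρ hρ le_rfl)
    refine lintegral_mono fun z => ?_
    apply pow_le_pow_right₀
    · rw [ENNReal.one_le_ofReal]; exact H.one_le z
    · omega
  apply diam_le_of_forall_dist_le (by positivity)
  rintro _ ⟨a, ha, rfl⟩ _ ⟨b, hb, rfl⟩
  set d := dist (f a) (f b) with hd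
  have hd0 : 0 ≤ d := dist_nonneg
  set A : ℕ → Set (E n) := fun j => {z | 8 ^ j * r0 / 2 < dist z x ∧ dist z x < 4 * (8 ^ j * r0)}
    with hA
  have hj : ∀ j ∈ Finset.range m, 4 * (8 ^ j * r0) ≤ ρ / 2 := by
    intro j hj
    have h1 : j + 1 ≤ m := Finset.mem_range.1 hj
    have h2 : (8 : ℝ) ^ (j + 1) ≤ 8 ^ m := pow_le_pow_right₀ (by norm_num) h1
    have h3 : (8 : ℝ) ^ (j + 1) * r0 ≤ ρ := le_trans (by gcongr) h8
    rw [pow_succ] at h3
    linarith
  have hosc : ∀ j ∈ Finset.range m, ENNReal.ofReal (d ^ n) ≤ ENNReal.ofReal (C1 * X) *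
      ∫⁻ z in A j, ENNReal.ofReal (Df z).det := by
    intro j hjm
    have h1 := hj j hjm
    have h8j : (1 : ℝ) ≤ 8 ^ j := one_le_pow₀ (by norm_num)
    have hrj : r0 ≤ 8 ^ j * r0 := by nlinarith
    refine osc D f Df K H x a b (8 ^ j * r0) X (by positivity) hX
      ((closedBall_subset_closedBall (by linarith)).trans hD) (ball_subset_ball hrj ha)
      (ball_subset_ball hrj hb) (hT _ (by positivity) (by linarith))
  have hdis : Set.PairwiseDisjoint (↑(Finset.range m)) A := by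
    have key : ∀ i j : ℕ, i < j → Disjoint (A i) (A j) := by
      intro i j hij
      rw [Set.disjoint_left]
      intro z hz hz'
      have h1 : dist z x < 4 * (8 ^ i * r0) := hz.2
      have h2 : 8 ^ j * r0 / 2 < dist z x := hz'.1
      have h3 : (8 : ℝ) ^ (i + 1) ≤ 8 ^ j := pow_le_pow_right₀ (by norm_num) hij
      have h4 : (8 : ℝ) ^ (i + 1) * r0 ≤ 8 ^ j * r0 := by gcongr
      rw [pow_succ] at h4
      linarith
    intro i _ j _ hij
    rcases lt_or_gt_of_ne hij with h | h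
    · exact key i j h
    · exact (key j i h).symm
  have hmeas : ∀ j ∈ Finset.range m, MeasurableSet (A j) := by
    intro j _
    apply MeasurableSet.inter
    · exact (isOpen_lt continuous_const (continuous_id.dist continuous_const)).measurableSet
    · exact (isOpen_lt (continuous_id.dist continuous_const) continuous_const).measurableSet
  have hsum : (m : ℝ≥0∞) * ENNReal.ofReal (d ^ n) ≤ ENNReal.ofReal (C1 * X) *
      ∫⁻ z in ball x (ρ / 2), ENNReal.ofReal (Df z).det := by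
    calc (m : ℝ≥0∞) * ENNReal.ofReal (d ^ n)
        = ∑ j ∈ Finset.range m, ENNReal.ofReal (d ^ n) := by
          rw [Finset.sum_const, Finset.card_range, nsmul_eq_mul]
      _ ≤ ∑ j ∈ Finset.range m, ENNReal.ofReal (C1 * X) *
          ∫⁻ z in A j, ENNReal.ofReal (Df z).det := Finset.sum_le_sum hosc
      _ = ENNReal.ofReal (C1 * X) * ∫⁻ z in ⋃ j ∈ Finset.range m, A j,
          ENNReal.ofReal (Df z).det := by
          rw [lintegral_biUnion_finset hdis hmeas, Finset.mul_sum]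
      _ ≤ _ := by
          gcongr
          apply iUnion₂_subset
          intro j hjm z hz
          have h1 : dist z x < 4 * (8 ^ j * r0) := hz.2
          exact mem_ball.2 (by linarith [hj j hjm])
  have hfin : (m : ℝ≥0∞) * ENNReal.ofReal (d ^ n) ≤ ENNReal.ofReal (B * X ^ 2 * (M / 2) ^ n) := by
    refine hsum.trans ?_
    calc ENNReal.ofReal (C1 * X) * ∫⁻ z in ball x (ρ / 2), ENNReal.ofReal (Df z).det
        ≤ ENNReal.ofReal (C1 * X) * (ENNReal.ofReal (C2 * (M / (ρ - ρ / 2)) ^ n) *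
          ENNReal.ofReal (X * ρ ^ n)) := by
          gcongr
          exact hcac.trans (by gcongr)
      _ = ENNReal.ofReal (B * X ^ 2 * (M / 2) ^ n) := by
          have hsub : (0 : ℝ) ≤ M / (ρ - ρ / 2) := div_nonneg hM0 (by linarith)
          rw [← ENNReal.ofReal_mul (by positivity), ← ENNReal.ofReal_mul (by positivity)]
          congr 1
          have h1 : M / (ρ - ρ / 2) * ρ = 4 * (M / 2) := by
            have : ρ - ρ / 2 = ρ / 2 := by ring
            rw [this]; field_simp; try norm_num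
          calc C1 * X * (C2 * (M / (ρ - ρ / 2)) ^ n * (X * ρ ^ n))
              = C1 * C2 * X ^ 2 * (M / (ρ - ρ / 2) * ρ) ^ n := by rw [mul_pow]; ring
            _ = _ := by rw [h1, mul_pow, hB]; ring
  have hreal : (m : ℝ) * d ^ n ≤ m * (M / 2) ^ n := by
    have h1 : (m : ℝ) * d ^ n ≤ B * X ^ 2 * (M / 2) ^ n := by
      rw [← ENNReal.ofReal_natCast, ← ENNReal.ofReal_mul (by positivity),
        ENNReal.ofReal_le_ofReal_iff (by positivity)] at hfin
      exact hfin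
    refine h1.trans ?_
    gcongr
  have h3 := le_of_mul_le_mul_left hreal hmpos
  exact (pow_le_pow_iff_left₀ hd0 (by positivity) (by omega)).1 h3

end Pool.Agent.MP_dd09c0_an
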