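import Pool.Agent.MP_dd09c0_an.CompTop
import Pool.Agent.MP_dd09c0_an.Hoelder

/-! # Module O: good scales -/

open MeasureTheory Metric Set Filter Topology
open scoped ENNReal NNReal ContDiff RealInnerProductSpace

namespace Pool.Agent.MP_dd09c0_an

namespace GoodScaleAux

variable {n : ℕ}

/-- A ball contained in a closed ball with the same centre has a smaller radius. -/
theorem le_of_ball_subset (hn : 1 ≤ n) {x : E n} {r r' : ℝ} (hr : 0 < r)
    (h : ball x r ⊆ closedBall x r') : r ≤ r' := by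
  by_contra hlt
  push Not at hlt
  obtain ⟨t, ht1, ht2⟩ := exists_between (max_lt hlt hr)
  have ht0 : 0 < t := lt_of_le_of_lt (le_max_right _ _) ht1
  have htr : r' < t := lt_of_le_of_lt (le_max_left _ _) ht1
  set e : E n := EuclideanSpace.single ⟨0, hn⟩ (1 : ℝ) with he
  have hd : dist (x + t • e) x = t := by
    rw [dist_eq_norm, add_sub_cancel_left, norm_smul, he]
    simp [abs_of_pos ht0]
  have h1 : x + t • e ∈ ball x r := by rw [mem_ball, hd]; exact ht2
  have h2 := h h1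
  rw [mem_closedBall, hd] at h2
  linarith

theorem typ_mono {K : E n → ℝ} {x : E n} {r0 r1 X : ℝ} (h : Typ K x r0 X) (hle : r1 ≤ r0) :
    Typ K x r1 X := fun r hr hr1 => h r hr (hr1.trans hle)

/-- Iterated halving of the oscillation. -/
theorem osc_iter {CH : ℝ} {D : Set (E n)} {f : E n → E n} {K : E n → ℝ} {x : E n} {ρ X : ℝ}
    (hCH : 1 ≤ CH)
    (hosc : ∀ ρ' : ℝ, 0 < ρ' → closedBall x ρ' ⊆ D → Typ K x ρ' X →
      diam (f '' ball x (ρ' * Real.exp (-(CH * X ^ 2)))) ≤ diam (f '' ball x ρ') / 2)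
    (hρ : 0 < ρ) (hρ1 : ρ ≤ 1) (hD : closedBall x 1 ⊆ D) (hT : Typ K x 1 X) (m : ℕ) :
    diam (f '' ball x (ρ * Real.exp (-(m * (CH * X ^ 2))))) ≤ diam (f '' ball x ρ) / 2 ^ m := by
  induction m with
  | zero => simp
  | succ m ih =>
    have hle : ρ * Real.exp (-(m * (CH * X ^ 2))) ≤ 1 := by
      have : Real.exp (-(m * (CH * X ^ 2))) ≤ 1 := Real.exp_le_one_iff.mpr (by
        have : 0 ≤ (m : ℝ) * (CH * X ^ 2) := by positivity
        linarith)
      nlinarith [Real.exp_pos (-(m * (CH * X ^ 2)))]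
    have h1 := hosc (ρ * Real.exp (-(m * (CH * X ^ 2)))) (by positivity)
      ((closedBall_subset_closedBall hle).trans hD) (typ_mono hT hle)
    have e1 : ρ * Real.exp (-(m * (CH * X ^ 2))) * Real.exp (-(CH * X ^ 2)) =
        ρ * Real.exp (-(((m + 1 : ℕ) : ℝ) * (CH * X ^ 2))) := by
      rw [mul_assoc, ← Real.exp_add]
      congr 2
      push_cast
      ring
    rw [e1] at h1
    calc _ ≤ diam (f '' ball x (ρ * Real.exp (-(m * (CH * X ^ 2))))) / 2 := h1
      _ ≤ diam (f '' ball x ρ) / 2 ^ m / 2 := by linarith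
      _ = _ := by rw [pow_succ]; field_simp

end GoodScaleAux

open GoodScaleAux in
theorem good_scale (n : ℕ) (hn : 3 ≤ n) : ∃ C : ℝ, 1 ≤ C ∧ ∀ (D : Set (E n)) (f : E n → E n)
    (Df : E n → E n →L[ℝ] E n) (K : E n → ℝ), GM n D f Df K → ∀ (x : E n) (s ρ Rs X Λ : ℝ),
    1 ≤ X → C ≤ Λ → 0 < s → 0 < ρ → ρ ≤ 1 → closedBall x 1 ⊆ D → Typ K x 1 X →
    comp f D x s ⊆ closedBall x Rs → Rs ≤ ρ * Real.exp Λ →
    diam (f '' ball x ρ) ≤ s * Real.exp Λ →
    ∃ t R : ℝ, s * Real.exp (-Λ) ≤ t ∧ t * (1 + 1 / (C * X ^ 2)) ^ 4 ≤ s ∧ 0 < R ∧ R ≤ Rs ∧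
      comp f D x (t * (1 + 1 / (C * X ^ 2)) ^ 4) ⊆ closedBall x R ∧
      ¬ comp f D x t ⊆ ball x (R / 2) := by
  obtain ⟨CH, hCH, hosc⟩ := osc_half n hn
  refine ⟨36 * CH, by linarith, ?_⟩
  intro D f Df K H x s ρ Rs X Λ hX hΛ hs hρ hρ1 hD hT hcomp hRs hdiam
  have hn1 : 1 ≤ n := by omega
  have hX2 : 1 ≤ X ^ 2 := one_le_pow₀ hX
  have hP0 : 0 < 36 * CH * X ^ 2 := by positivity
  set P : ℝ := 36 * CH * X ^ 2 with hP
  have hP36 : 36 * CH ≤ P := by rw [hP]; nlinarith
  have hΛ1 : 1 ≤ Λ := by linarith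
  set q : ℝ := (1 + 1 / P) ^ 4 with hq
  have hq1 : 1 < q := by
    rw [hq]
    apply one_lt_pow₀ _ (by norm_num)
    have : 0 < 1 / P := by positivity
    linarith
  have hq0 : 0 < q := by linarith
  have hxD : x ∈ D := hD (mem_closedBall_self zero_le_one)
  -- `Rs` is positive
  have hRs0 : 0 < Rs := by
    have hop := isOpen_comp H.cont H.isOpen x s
    obtain ⟨δ, hδ, hδs⟩ := Metric.isOpen_iff.mp hop x (mem_comp hxD hs)
    exact lt_of_lt_of_le hδ (le_of_ball_subset hn1 hδ (hδs.trans hcomp))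
  by_contra hcon
  push Not at hcon
  set L : ℕ := ⌊Λ * P / 4⌋₊ with hL
  have hLle : (L : ℝ) ≤ Λ * P / 4 := Nat.floor_le (by positivity)
  have hLlt : Λ * P / 4 - 1 < L := by
    have := Nat.lt_floor_add_one (Λ * P / 4)
    linarith
  have hqL : ∀ i : ℕ, i ≤ L → q ^ i ≤ Real.exp Λ := by
    intro i hi
    have h1 : q ≤ Real.exp (4 / P) := by
      rw [hq]
      have : 1 + 1 / P ≤ Real.exp (1 / P) := by
        have := Real.add_one_le_exp (1 / P)
        linarith
      calc (1 + 1 / P) ^ 4 ≤ Real.exp (1 / P) ^ 4 := pow_le_pow_left₀ (by positivity) this 4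
        _ = Real.exp (4 / P) := by
          rw [← Real.exp_nat_mul]
          congr 1
          push_cast
          ring
    calc q ^ i ≤ Real.exp (4 / P) ^ i := pow_le_pow_left₀ hq0.le h1 i
      _ = Real.exp (i * (4 / P)) := by rw [← Real.exp_nat_mul]
      _ ≤ Real.exp Λ := by
        apply Real.exp_le_exp.mpr
        have hi' : (i : ℝ) ≤ Λ * P / 4 := le_trans (by exact_mod_cast hi) hLle
        calc (i : ℝ) * (4 / P) ≤ (Λ * P / 4) * (4 / P) :=
              mul_le_mul_of_nonneg_right hi' (by positivity)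
          _ = Λ := by field_simp
  -- the radii decrease
  have key : ∀ i : ℕ, i ≤ L → comp f D x (s / q ^ i) ⊆ closedBall x (Rs / 2 ^ i) := by
    intro i
    induction i with
    | zero => intro _; simpa using hcomp
    | succ i ih =>
      intro hi
      have h1 := ih (by omega)
      have e1 : s / q ^ (i + 1) * q = s / q ^ i := by
        rw [pow_succ]; field_simp
      have h2 := hcon (s / q ^ (i + 1)) (Rs / 2 ^ i) (by
        rw [Real.exp_neg, ← div_eq_mul_inv]
        exact div_le_div_of_nonneg_left hs.le (by positivity) (hqL (i + 1) hi)) (by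
        rw [e1]
        exact div_le_self hs.le (one_le_pow₀ hq1.le)) (by positivity)
        (div_le_self hRs0.le (one_le_pow₀ (by norm_num))) (by rw [e1]; exact h1)
      refine h2.trans ?_
      have e2 : Rs / 2 ^ i / 2 = Rs / 2 ^ (i + 1) := by rw [pow_succ]; field_simp
      rw [e2]
      exact ball_subset_closedBall
  have hL1 := key L le_rfl
  -- iterate the oscillation estimate
  set m : ℕ := ⌈3 * Λ⌉₊ with hm
  have hm1 : 3 * Λ ≤ m := Nat.le_ceil _
  have hm2 : (m : ℝ) ≤ 4 * Λ := by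
    have := Nat.ceil_lt_add_one (show 0 ≤ 3 * Λ by linarith)
    linarith
  have hosc' := osc_iter (m := m) hCH (fun ρ' h1 h2 h3 => hosc D f Df K H x ρ' X h1 hX h2 h3) hρ
    hρ1 hD hT
  set r : ℝ := ρ * Real.exp (-(m * (CH * X ^ 2))) with hr
  have hr0 : 0 < r := by positivity
  have hr1 : r ≤ 1 := by
    have : Real.exp (-(m * (CH * X ^ 2))) ≤ 1 := Real.exp_le_one_iff.mpr (by
      have : 0 ≤ (m : ℝ) * (CH * X ^ 2) := by positivity
      linarith)
    rw [hr]
    nlinarith [Real.exp_pos (-(m * (CH * X ^ 2)))]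
  have hlog2 : (2 / 3 : ℝ) < Real.log 2 := by
    have := Real.log_two_gt_d9
    linarith
  have h2m : Real.exp (2 * Λ) < 2 ^ m := by
    have h1 : (2 : ℝ) ^ m = Real.exp (m * Real.log 2) := by
      rw [Real.exp_nat_mul, Real.exp_log (by norm_num)]
    rw [h1]
    apply Real.exp_lt_exp.mpr
    calc 2 * Λ = (3 * Λ) * (2 / 3) := by ring
      _ < (3 * Λ) * Real.log 2 := mul_lt_mul_of_pos_left hlog2 (by linarith)
      _ ≤ m * Real.log 2 := mul_le_mul_of_nonneg_right hm1 (by linarith)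
  have hdr : diam (f '' ball x r) < s / q ^ L := by
    calc diam (f '' ball x r) ≤ diam (f '' ball x ρ) / 2 ^ m := hosc'
      _ ≤ s * Real.exp Λ / 2 ^ m := div_le_div_of_nonneg_right hdiam (by positivity)
      _ < s * Real.exp Λ / Real.exp (2 * Λ) :=
        div_lt_div_of_pos_left (by positivity) (Real.exp_pos _) h2m
      _ = s / Real.exp Λ := by
        have : Real.exp (2 * Λ) = Real.exp Λ * Real.exp Λ := by
          rw [← Real.exp_add]; congr 1; ring
        rw [this]
        field_simp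
      _ ≤ s / q ^ L := div_le_div_of_nonneg_left hs.le (by positivity) (hqL L le_rfl)
  have hballsub : ball x r ⊆ comp f D x (s / q ^ L) := by
    apply (convex_ball x r).isPreconnected.subset_connectedComponentIn (mem_ball_self hr0)
    intro z hz
    refine ⟨hD (ball_subset_closedBall (ball_subset_ball hr1 hz)), ?_⟩
    rw [mem_preimage, mem_ball]
    have hbdd : Bornology.IsBounded (f '' ball x r) :=
      ((isCompact_closedBall x r).image H.cont).isBounded.subset
        (image_mono ball_subset_closedBall)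
    exact lt_of_le_of_lt (dist_le_diam_of_mem hbdd (mem_image_of_mem f hz)
      (mem_image_of_mem f (mem_ball_self hr0))) hdr
  have hfin := le_of_ball_subset hn1 hr0 (hballsub.trans hL1)
  -- contradiction
  have h3 : ρ * Real.exp (-(m * (CH * X ^ 2))) ≤ ρ * Real.exp Λ / 2 ^ L :=
    hfin.trans (div_le_div_of_nonneg_right hRs (by positivity))
  have h4 : (2 : ℝ) ^ L ≤ Real.exp (Λ + m * (CH * X ^ 2)) := by
    rw [le_div_iff₀ (by positivity), mul_assoc] at h3
    have h5 := le_of_mul_le_mul_left h3 hρ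
    rw [Real.exp_add]
    rw [Real.exp_neg, inv_mul_le_iff₀ (Real.exp_pos _)] at h5
    linarith
  have h5 : (2 : ℝ) ^ L = Real.exp (L * Real.log 2) := by
    rw [Real.exp_nat_mul, Real.exp_log (by norm_num)]
  rw [h5, Real.exp_le_exp] at h4
  have h6 : (L : ℝ) * (2 / 3) ≤ L * Real.log 2 :=
    mul_le_mul_of_nonneg_left hlog2.le (by positivity)
  have h7 : (m : ℝ) * (CH * X ^ 2) ≤ 4 * Λ * (CH * X ^ 2) :=
    mul_le_mul_of_nonneg_right hm2 (by positivity)
  have h8 : 1 ≤ CH * X ^ 2 := by nlinarith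
  have h9 : Λ * P / 4 = 9 * (Λ * (CH * X ^ 2)) := by rw [hP]; ring
  have h10 : Λ ≤ Λ * (CH * X ^ 2) := by nlinarith
  nlinarith

end Pool.Agent.MP_dd09c0_an
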