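import Pool.Agent.MP_dd09c0_an.Defs

/-!
# The centred maximal function
-/

open MeasureTheory Metric Set Filter Topology
open scoped ENNReal NNReal ContDiff RealInnerProductSpace

namespace Pool.Agent.MP_dd09c0_an

variable {n : ℕ}

namespace MaxFnAux

theorem volume_unit_pos (n : ℕ) : 0 < volume (ball (0 : E n) 1) := measure_ball_pos _ _ one_pos

theorem volume_unit_ne_top (n : ℕ) : volume (ball (0 : E n) 1) ≠ ⊤ := measure_ball_lt_top.ne

theorem volume_closedBall_eq (n : ℕ) (x : E n) {r : ℝ} (hr : 0 ≤ r) :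
    volume (closedBall x r) = ENNReal.ofReal (r ^ n) * volume (ball (0 : E n) 1) := by
  rw [Measure.addHaar_closedBall _ _ hr, finrank_euclideanSpace_fin]

theorem volume_ball_eq (n : ℕ) (x : E n) {r : ℝ} (hr : 0 < r) :
    volume (ball x r) = ENNReal.ofReal (r ^ n) * volume (ball (0 : E n) 1) := by
  rw [Measure.addHaar_ball_of_pos _ _ hr, finrank_euclideanSpace_fin]

end MaxFnAux

open MaxFnAux

/-- Weak type estimate (Vitali), formulated without a maximal function. -/
theorem vitali_weak (n : ℕ) (hn : 1 ≤ n) : ∃ C : ℝ, 1 ≤ C ∧ ∀ (ν : Measure (E n)) (c r0 : ℝ), 0 < c →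
    volume {x : E n | ∃ r, 0 < r ∧ r ≤ r0 ∧ ENNReal.ofReal (c * r ^ n) < ν (ball x r)}
      ≤ ENNReal.ofReal (C / c) * ν univ := by
  set W : ℝ := (volume (ball (0 : E n) 1)).toReal with hW
  have hWpos : 0 < W := ENNReal.toReal_pos (volume_unit_pos n).ne' (volume_unit_ne_top n)
  have hWv : volume (ball (0 : E n) 1) = ENNReal.ofReal W :=
    (ENNReal.ofReal_toReal (volume_unit_ne_top n)).symm
  refine ⟨max 1 (5 ^ n * W), le_max_left _ _, ?_⟩
  intro ν c r0 hc
  set A : Set (E n) := {x : E n | ∃ r, 0 < r ∧ r ≤ r0 ∧ ENNReal.ofReal (c * r ^ n) < ν (ball x r)}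
    with hA
  have hex : ∀ x : E n, ∃ r : ℝ, x ∈ A → 0 < r ∧ r ≤ r0 ∧ ENNReal.ofReal (c * r ^ n) < ν (ball x r) := by
    intro x
    by_cases hx : x ∈ A
    · obtain ⟨r, hr⟩ := hx
      exact ⟨r, fun _ => hr⟩
    · exact ⟨0, fun h => absurd h hx⟩
  choose r hr using hex
  obtain ⟨u, huA, hdis, hcov⟩ := Vitali.exists_disjoint_subfamily_covering_enlargement_ball A
    (fun x => x) r r0 (fun a ha => (hr a ha).2.1) 5 (by norm_num)
  have hucount : u.Countable := by
    apply hdis.countable_of_isOpen (fun a _ => isOpen_ball)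
    intro a ha
    exact ⟨a, mem_ball_self (hr a (huA ha)).1⟩
  have hsub : A ⊆ ⋃ b ∈ u, ball b (5 * r b) := by
    intro a ha
    obtain ⟨b, hb, hab⟩ := hcov a ha
    exact mem_biUnion hb (hab (mem_ball_self (hr a ha).1))
  have : Countable u := hucount.to_subtype
  calc volume A ≤ volume (⋃ b ∈ u, ball b (5 * r b)) := measure_mono hsub
    _ ≤ ∑' b : u, volume (ball (b : E n) (5 * r b)) := by
        rw [biUnion_eq_iUnion]
        exact measure_iUnion_le _
    _ ≤ ∑' b : u, ENNReal.ofReal (max 1 (5 ^ n * W) / c) * ν (ball (b : E n) (r b)) := by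
        apply ENNReal.tsum_le_tsum
        intro b
        obtain ⟨h1, h2, h3⟩ := hr b (huA b.2)
        rw [volume_ball_eq n _ (by positivity), hWv, ← ENNReal.ofReal_mul (by positivity)]
        calc ENNReal.ofReal ((5 * r b) ^ n * W)
            ≤ ENNReal.ofReal (max 1 (5 ^ n * W) / c * (c * r b ^ n)) := by
              apply ENNReal.ofReal_le_ofReal
              have : max 1 (5 ^ n * W) / c * (c * r b ^ n) = max 1 (5 ^ n * W) * r b ^ n := by
                field_simp
              rw [this, mul_pow]
              calc 5 ^ n * r b ^ n * W = (5 ^ n * W) * r b ^ n := by ring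
                _ ≤ _ := by
                  apply mul_le_mul_of_nonneg_right (le_max_right _ _) (by positivity)
          _ = ENNReal.ofReal (max 1 (5 ^ n * W) / c) * ENNReal.ofReal (c * r b ^ n) := by
              rw [ENNReal.ofReal_mul (by positivity)]
          _ ≤ _ := by gcongr
    _ = ENNReal.ofReal (max 1 (5 ^ n * W) / c) * ∑' b : u, ν (ball (b : E n) (r b)) := by
        rw [ENNReal.tsum_mul_left]
    _ ≤ ENNReal.ofReal (max 1 (5 ^ n * W) / c) * ν univ := by
        gcongr
        rw [← measure_iUnion]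
        · exact measure_mono (subset_univ _)
        · intro a b hab
          exact hdis a.2 b.2 (fun h => hab (Subtype.ext h))
        · intro b
          exact measurableSet_ball

/-- Centred maximal function. -/
noncomputable def maxFn (G : E n → ℝ≥0∞) (x : E n) : ℝ≥0∞ :=
  ⨆ (r : ℝ) (_ : 0 < r), (∫⁻ z in ball x r, G z) / volume (ball x r)

namespace MaxFnAux

theorem lsc_lintegral_ball (G : E n → ℝ≥0∞) (r : ℝ) :
    LowerSemicontinuous (fun x : E n => ∫⁻ z in ball x r, G z) := by
  intro x0 y hy
  have h1 : ∫⁻ z in ball x0 r, G z = ⨆ k : ℕ, ∫⁻ z in ball x0 (r - 1 / (k + 1 : ℝ)), G z := by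
    have h2 : ball x0 r = ⋃ k : ℕ, ball x0 (r - 1 / (k + 1 : ℝ)) := by
      ext z
      simp only [mem_ball, mem_iUnion]
      constructor
      · intro h
        obtain ⟨k, hk⟩ := exists_nat_one_div_lt (sub_pos.mpr h)
        exact ⟨k, by linarith⟩
      · rintro ⟨k, hk⟩
        have : (0 : ℝ) < 1 / (k + 1 : ℝ) := by positivity
        linarith
    have hmono : Monotone (fun k : ℕ => ball x0 (r - 1 / (k + 1 : ℝ))) := by
      intro i j hij
      apply ball_subset_ball
      have : (1 : ℝ) / (j + 1 : ℝ) ≤ 1 / (i + 1 : ℝ) := by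
        apply one_div_le_one_div_of_le (by positivity)
        exact_mod_cast Nat.add_le_add_right hij 1
      linarith
    rw [← withDensity_apply' , h2, hmono.measure_iUnion]
    simp only [withDensity_apply']
  change y < ∫⁻ z in ball x0 r, G z at hy
  rw [h1] at hy
  obtain ⟨k, hk⟩ := lt_iSup_iff.mp hy
  have hpos : (0 : ℝ) < 1 / (k + 1 : ℝ) := by positivity
  filter_upwards [ball_mem_nhds x0 hpos] with x hx
  change y < ∫⁻ z in ball x r, G z
  refine lt_of_lt_of_le hk (lintegral_mono_set ?_)
  intro z hz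
  rw [mem_ball] at *
  calc dist z x ≤ dist z x0 + dist x x0 := dist_triangle_right _ _ _
    _ < r := by linarith

end MaxFnAux

theorem measurable_maxFn {G : E n → ℝ≥0∞} (hG : Measurable G) : Measurable (maxFn G) := by
  have : LowerSemicontinuous (maxFn G) := by
    apply lowerSemicontinuous_biSup
    intro r hr
    have h1 : ∀ x : E n, (∫⁻ z in ball x r, G z) / volume (ball x r) =
        (∫⁻ z in ball x r, G z) / volume (ball (0 : E n) r) := by
      intro x
      rw [Measure.addHaar_ball_center]
    simp only [h1]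
    intro x0 y hy
    have hpos : volume (ball (0 : E n) r) ≠ 0 := (measure_ball_pos _ _ hr).ne'
    have htop : volume (ball (0 : E n) r) ≠ ⊤ := measure_ball_lt_top.ne
    have h2 : y * volume (ball (0 : E n) r) < ∫⁻ z in ball x0 r, G z :=
      (ENNReal.lt_div_iff_mul_lt (Or.inl hpos) (Or.inl htop)).mp hy
    filter_upwards [lsc_lintegral_ball G r x0 _ h2] with x hx
    exact (ENNReal.lt_div_iff_mul_lt (Or.inl hpos) (Or.inl htop)).mpr hx
  exact this.measurable

theorem maxFn_weak (n : ℕ) (hn : 1 ≤ n) : ∃ C : ℝ, 1 ≤ C ∧ ∀ (G : E n → ℝ≥0∞), Measurable G →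
    ∀ t : ℝ, 0 < t → volume {x : E n | ENNReal.ofReal t < maxFn G x}
      ≤ ENNReal.ofReal (C / t) * ∫⁻ x in {x | ENNReal.ofReal (t / 2) < G x}, G x := by
  obtain ⟨C, hC, hV⟩ := vitali_weak n hn
  set W : ℝ := (volume (ball (0 : E n) 1)).toReal with hW
  have hWpos : 0 < W := ENNReal.toReal_pos (volume_unit_pos n).ne' (volume_unit_ne_top n)
  have hWv : volume (ball (0 : E n) 1) = ENNReal.ofReal W :=
    (ENNReal.ofReal_toReal (volume_unit_ne_top n)).symm
  refine ⟨max 1 (2 * C / W), le_max_left _ _, ?_⟩
  intro G hG t ht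
  set T : Set (E n) := {x | ENNReal.ofReal (t / 2) < G x} with hT
  have hTm : MeasurableSet T := measurableSet_lt measurable_const hG
  set ν : Measure (E n) := volume.withDensity (T.indicator G) with hν
  have hνball : ∀ x r, ν (ball x r) = ∫⁻ z in ball x r, T.indicator G z := fun x r =>
    withDensity_apply _ measurableSet_ball
  have hνuniv : ν univ = ∫⁻ x in T, G x := by
    rw [hν, withDensity_apply _ MeasurableSet.univ, Measure.restrict_univ, lintegral_indicator hTm]
  by_cases hfin : ν univ = ⊤
  · rw [← hνuniv, hfin, ENNReal.mul_top]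
    · exact le_top
    · have : 0 < max 1 (2 * C / W) / t := by positivity
      exact (ENNReal.ofReal_pos.mpr this).ne'
  set c : ℝ := t / 2 * W with hc
  have hcpos : 0 < c := by positivity
  set r0 : ℝ := max 1 ((ν univ).toReal / c) with hr0
  have hsub : {x : E n | ENNReal.ofReal t < maxFn G x} ⊆
      {x : E n | ∃ r, 0 < r ∧ r ≤ r0 ∧ ENNReal.ofReal (c * r ^ n) < ν (ball x r)} := by
    intro x hx
    simp only [mem_ofPred_eq, maxFn, lt_iSup_iff] at hx
    obtain ⟨r, hr, hxr⟩ := hx
    have hpos : volume (ball x r) ≠ 0 := (measure_ball_pos _ _ hr).ne'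
    have htop : volume (ball x r) ≠ ⊤ := measure_ball_lt_top.ne
    rw [ENNReal.lt_div_iff_mul_lt (Or.inl hpos) (Or.inl htop)] at hxr
    have hkey : ENNReal.ofReal (c * r ^ n) < ν (ball x r) := by
      by_contra hcon
      rw [not_lt] at hcon
      have h1 : ∫⁻ z in ball x r, G z ≤ ENNReal.ofReal t * volume (ball x r) := by
        calc ∫⁻ z in ball x r, G z
            ≤ ∫⁻ z in ball x r, (T.indicator G z + ENNReal.ofReal (t / 2)) := by
              apply lintegral_mono
              intro z
              by_cases hz : z ∈ T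
              · simp only [indicator_of_mem hz]; exact le_self_add
              · simp only [indicator_of_notMem hz, zero_add]
                exact not_lt.mp hz
          _ = ν (ball x r) + ENNReal.ofReal (t / 2) * volume (ball x r) := by
              rw [lintegral_add_right _ measurable_const, hνball, setLIntegral_const]
          _ ≤ ENNReal.ofReal (c * r ^ n) + ENNReal.ofReal (t / 2) * volume (ball x r) := by gcongr
          _ = ENNReal.ofReal t * volume (ball x r) := by
              rw [volume_ball_eq n x hr, hWv, ← ENNReal.ofReal_mul (by positivity),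
                ← ENNReal.ofReal_mul (by positivity), ← ENNReal.ofReal_mul (by positivity),
                ← ENNReal.ofReal_add (by positivity) (by positivity)]
              congr 1
              rw [hc]
              ring
      exact absurd hxr (not_lt.mpr h1)
    refine ⟨r, hr, ?_, hkey⟩
    by_contra hcon
    rw [not_le] at hcon
    have h1r : 1 < r := lt_of_le_of_lt (le_max_left _ _) hcon
    have h2 : ENNReal.ofReal (c * r ^ n) < ν univ := lt_of_lt_of_le hkey (measure_mono (subset_univ _))
    rw [ENNReal.ofReal_lt_iff_lt_toReal (by positivity) hfin] at h2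
    have h3 : (ν univ).toReal / c < r := lt_of_le_of_lt (le_max_right _ _) hcon
    have h4 : r ≤ r ^ n := le_self_pow₀ h1r.le (by omega)
    rw [div_lt_iff₀ hcpos] at h3
    nlinarith
  calc volume {x : E n | ENNReal.ofReal t < maxFn G x} ≤ _ := measure_mono hsub
    _ ≤ ENNReal.ofReal (C / c) * ν univ := hV ν c r0 hcpos
    _ ≤ ENNReal.ofReal (max 1 (2 * C / W) / t) * ∫⁻ x in T, G x := by
        rw [hνuniv]
        refine mul_le_mul_left (ENNReal.ofReal_le_ofReal ?_) _
        rw [hc]
        calc C / (t / 2 * W) = (2 * C / W) / t := by field_simp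
          _ ≤ _ := by
            apply div_le_div_of_nonneg_right (le_max_right _ _) ht.le

theorem le_maxFn_ae (hn : 1 ≤ n) (G : E n → ℝ≥0∞) (hG : Measurable G) (hfin : ∫⁻ x, G x ≠ ⊤) :
    ∀ᵐ x, G x ≤ maxFn G x := by
  filter_upwards [(Besicovitch.vitaliFamily (volume : Measure (E n))).ae_tendsto_lintegral_div
    hG.aemeasurable hfin] with x hx
  have h1 := hx.comp (Besicovitch.tendsto_filterAt (volume : Measure (E n)) x)
  refine le_of_tendsto h1 ?_
  filter_upwards [self_mem_nhdsWithin] with r hr
  have hr' : (0 : ℝ) < r := hr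
  have hae : (closedBall x r : Set (E n)) =ᵐ[volume] ball x r := by
    have h2 : (sphere x r : Set (E n)) =ᵐ[volume] (∅ : Set (E n)) :=
      (ae_eq_empty).mpr (Measure.addHaar_sphere_of_ne_zero _ _ hr'.ne')
    have h3 := (ae_eq_refl (ball x r : Set (E n))).union h2
    rw [ball_union_sphere, union_empty] at h3
    exact h3
  simp only [Function.comp]
  rw [setLIntegral_congr hae, measure_congr hae]
  exact le_iSup₂ (f := fun (r : ℝ) (_ : 0 < r) => (∫⁻ z in ball x r, G z) / volume (ball x r)) r hr'

end Pool.Agent.MP_dd09c0_an
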