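import Pool.Agent.MP_dd09c0_an.VolLower
import Pool.Agent.MP_dd09c0_an.MaxFn
import Pool.Agent.MP_dd09c0_an.CompDeg

/-! # Module P2: balls inside components -/

open MeasureTheory Metric Set Filter Topology
open scoped ENNReal NNReal ContDiff RealInnerProductSpace

namespace Pool.Agent.MP_dd09c0_an

namespace InballAux

variable {n : ℕ}

/-- A connected set meeting an open set without being contained in it meets its frontier. -/
theorem exists_frontier {A U : Set (E n)} (hA : IsPreconnected A) {p : E n} (hpA : p ∈ A)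
    (hpU : p ∈ U) (h : ¬ A ⊆ U) : ∃ z ∈ A, z ∈ frontier U := by
  by_contra hcon
  push Not at hcon
  apply h
  have h1 : A ⊆ interior U ∪ (closure U)ᶜ := by
    intro z hz
    by_cases hi : z ∈ interior U
    · exact Or.inl hi
    · right
      intro hc
      exact hcon z hz ⟨hc, hi⟩
  have hpi : p ∈ interior U := by
    by_contra hi
    exact hcon p hpA ⟨subset_closure hpU, hi⟩
  intro z hz
  rcases h1 hz with h2 | h2
  · exact interior_subset h2
  · exfalso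
    obtain ⟨y, _, hy1, hy2⟩ := hA (interior U) (closure U)ᶜ isOpen_interior isClosed_closure.isOpen_compl
      h1 ⟨p, hpA, hpi⟩ ⟨z, hz, h2⟩
    exact hy2 (subset_closure (interior_subset hy1))

theorem volume_image_ge {A : Set (E n)} {p : E n} {a b : ℝ}
    (h : ∀ τ ∈ Ico a b, ∃ z ∈ A, dist z p = τ) :
    ENNReal.ofReal (b - a) ≤ volume ((fun z => dist z p) '' A) := by
  have h1 : Ico a b ⊆ (fun z => dist z p) '' A := fun τ hτ => by
    obtain ⟨z, hz, hzd⟩ := h τ hτ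
    exact ⟨z, hz, hzd⟩
  calc ENNReal.ofReal (b - a) = volume (Ico a b) := by rw [Real.volume_Ico]
    _ ≤ _ := measure_mono h1

theorem final_lt {c c₁ c₂ C C₃ R Y : ℝ} (hn : 3 ≤ n) (hc₁ : 0 < c₁) (hc₂ : 0 < c₂) (hC : 1 ≤ C)
    (hC₃ : 1 ≤ C₃) (hR : 0 < R) (hY1 : 1 ≤ Y) (hc0 : 0 < c) (hc1 : c ≤ 1)
    (hcQ : c ≤ c₁ ^ n / (2 * (C₃ * (2 * 64 ^ n) * C / c₂))) :
    C₃ / (c₂ * (c * R / Y ^ 4) ^ (1 / 2 : ℝ) / (2 * (64 * (c * R / Y ^ 4)) ^ n)) *
      (C * Y * R ^ (1 / 2 : ℝ)) < (c₁ * R / Y ^ 2) ^ n := by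
  have hn1 : 1 ≤ n := by omega
  have hY0 : 0 < Y := by linarith
  set Q : ℝ := C₃ * (2 * 64 ^ n) * C / c₂ with hQ
  have hQ0 : 0 < Q := by positivity
  set ρ : ℝ := c * R / Y ^ 4 with hρ
  have hρ0 : 0 < ρ := by positivity
  have hρh : 0 < ρ ^ (1 / 2 : ℝ) := Real.rpow_pos_of_pos hρ0 _
  have hRh : 0 < R ^ (1 / 2 : ℝ) := Real.rpow_pos_of_pos hR _
  have hR2 : R = R ^ (1 / 2 : ℝ) * R ^ (1 / 2 : ℝ) := by
    rw [← Real.rpow_add hR]; norm_num
  have hρ2 : ρ ^ (1 / 2 : ℝ) * ρ ^ (1 / 2 : ℝ) = ρ := by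
    rw [← Real.rpow_add hρ0]; norm_num
  have e5 : C₃ / (c₂ * ρ ^ (1 / 2 : ℝ) / (2 * (64 * ρ) ^ n)) * (C * Y * R ^ (1 / 2 : ℝ)) =
      Q * ρ ^ (n - 1) * (ρ ^ (1 / 2 : ℝ) * R ^ (1 / 2 : ℝ)) * Y := by
    have h1 : (64 * ρ) ^ n = 64 ^ n * (ρ ^ (n - 1) * (ρ ^ (1 / 2 : ℝ) * ρ ^ (1 / 2 : ℝ))) := by
      rw [hρ2, mul_pow, ← pow_succ, Nat.sub_add_cancel hn1]
    rw [h1, hQ]
    generalize ρ ^ (1 / 2 : ℝ) = u at *
    generalize R ^ (1 / 2 : ℝ) = v at *
    field_simp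
  rw [e5]
  have h6 : ρ ^ (1 / 2 : ℝ) * R ^ (1 / 2 : ℝ) ≤ R / Y ^ 2 := by
    have h7 : ρ ^ (1 / 2 : ℝ) ≤ R ^ (1 / 2 : ℝ) / Y ^ 2 := by
      have h8 : ρ ≤ (R ^ (1 / 2 : ℝ) / Y ^ 2) ^ 2 := by
        have e6 : (R ^ (1 / 2 : ℝ) / Y ^ 2) ^ 2 = R / Y ^ 4 := by
          rw [div_pow, sq (R ^ (1 / 2 : ℝ)), ← hR2, ← pow_mul]
        rw [e6, hρ]
        apply div_le_div_of_nonneg_right _ (by positivity)
        nlinarith
      calc ρ ^ (1 / 2 : ℝ) ≤ ((R ^ (1 / 2 : ℝ) / Y ^ 2) ^ 2) ^ (1 / 2 : ℝ) :=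
            Real.rpow_le_rpow hρ0.le h8 (by norm_num)
        _ = _ := by rw [← Real.sqrt_eq_rpow, Real.sqrt_sq (by positivity)]
    calc ρ ^ (1 / 2 : ℝ) * R ^ (1 / 2 : ℝ) ≤ R ^ (1 / 2 : ℝ) / Y ^ 2 * R ^ (1 / 2 : ℝ) :=
          mul_le_mul_of_nonneg_right h7 hRh.le
      _ = R / Y ^ 2 := by rw [div_mul_eq_mul_div, ← hR2]
  have h9 : ρ ^ (n - 1) ≤ c * R ^ (n - 1) / Y ^ (4 * (n - 1)) := by
    have h10 : c ^ (n - 1) ≤ c := by
      calc c ^ (n - 1) ≤ c ^ 1 := pow_le_pow_of_le_one hc0.le hc1 (by omega)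
        _ = c := pow_one _
    rw [hρ, div_pow, mul_pow, ← pow_mul]
    apply div_le_div_of_nonneg_right _ (by positivity)
    exact mul_le_mul_of_nonneg_right h10 (by positivity)
  have h12 : R ^ n = R ^ (n - 1) * R := by rw [← pow_succ, Nat.sub_add_cancel hn1]
  have h17 : Q * c ≤ c₁ ^ n / 2 := by
    calc Q * c ≤ Q * (c₁ ^ n / (2 * Q)) := mul_le_mul_of_nonneg_left hcQ hQ0.le
      _ = c₁ ^ n / 2 := by field_simp
  have h18 : 0 < c₁ ^ n := by positivity
  calc Q * ρ ^ (n - 1) * (ρ ^ (1 / 2 : ℝ) * R ^ (1 / 2 : ℝ)) * Y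
      ≤ Q * (c * R ^ (n - 1) / Y ^ (4 * (n - 1))) * (R / Y ^ 2) * Y := by
        apply mul_le_mul_of_nonneg_right _ hY0.le
        apply mul_le_mul _ h6 (by positivity) (by positivity)
        exact mul_le_mul_of_nonneg_left h9 hQ0.le
    _ = (Q * c) * (R ^ n / Y ^ (4 * (n - 1) + 1)) := by
        rw [h12, pow_succ Y (4 * (n - 1))]
        generalize Y ^ (4 * (n - 1)) = y
        field_simp
    _ ≤ (Q * c) * (R ^ n / Y ^ (2 * n)) := by
        apply mul_le_mul_of_nonneg_left _ (by positivity)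
        apply div_le_div_of_nonneg_left (by positivity) (by positivity)
        exact pow_le_pow_right₀ hY1 (by omega)
    _ ≤ (c₁ ^ n / 2) * (R ^ n / Y ^ (2 * n)) := by
        apply mul_le_mul_of_nonneg_right h17 (by positivity)
    _ < c₁ ^ n * (R ^ n / Y ^ (2 * n)) := by
        apply mul_lt_mul_of_pos_right _ (by positivity)
        linarith
    _ = (c₁ * R / Y ^ 2) ^ n := by
        rw [div_pow, mul_pow, ← pow_mul]; ring

theorem final_lt' {c₂ a ρ : ℝ} (hc₂ : 0 < c₂) (hρ0 : 0 < ρ)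
    (ha : a = c₂ * ρ ^ (1 / 2 : ℝ) / (2 * (64 * ρ) ^ n)) :
    a * (64 * ρ) ^ n < c₂ * (64 * ρ) ^ (1 / 2 : ℝ) := by
  have hρh : 0 < ρ ^ (1 / 2 : ℝ) := Real.rpow_pos_of_pos hρ0 _
  have h1 : a * (64 * ρ) ^ n = c₂ * ρ ^ (1 / 2 : ℝ) / 2 := by
    rw [ha]
    have : (64 * ρ) ^ n ≠ 0 := by positivity
    field_simp
  rw [h1, Real.mul_rpow (by norm_num) hρ0.le]
  have h2 : (1 : ℝ) ≤ 64 ^ (1 / 2 : ℝ) := Real.one_le_rpow (by norm_num) (by norm_num)
  have h3 : 0 < c₂ * ρ ^ (1 / 2 : ℝ) := by positivity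
  nlinarith

end InballAux

open InballAux VolLowerAux in
theorem inball (n : ℕ) (hn : 3 ≤ n) : ∃ c : ℝ, 0 < c ∧ c ≤ 1 / 64 ∧ ∀ (D : Set (E n))
    (f : E n → E n) (Df : E n → E n →L[ℝ] E n) (K : E n → ℝ), GM n D f Df K →
    ∀ (x : E n) (t P R X : ℝ) (k : ℕ),
    0 < t → 1 ≤ P → 1 ≤ X → 0 < R → closedBall x (8 * R) ⊆ D →
    comp f D x (t * (1 + 1 / P) ^ 4) ⊆ closedBall x R → ¬ comp f D x t ⊆ ball x (R / 2) →
    HasDeg f Df (comp f D x (t * (1 + 1 / P) ^ 4)) (ball (f x) (t * (1 + 1 / P) ^ 4)) k →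
    (k : ℝ) ≤ X →
    ∫⁻ z in ball x (2 * R), ENNReal.ofReal (K z) ^ (2 * n - 1) ≤ ENNReal.ofReal (X * (2 * R) ^ n) →
    ∃ p : E n, ball p (4 * (c * R / (X * P ^ n) ^ 4)) ⊆ comp f D x (t * (1 + 1 / P) ^ 3) := by
  obtain ⟨C, hC, hcut⟩ := energy_cut n hn
  have hn1 : 1 ≤ n := by omega
  have hn2 : 2 ≤ n := by omega
  obtain ⟨c₁, hc₁, hvl⟩ := volume_lower n hn
  obtain ⟨c₂, hc₂, hcap⟩ := cap_ball n hn2
  obtain ⟨C₃, hC₃, hvit⟩ := vitali_weak n hn1
  -- the constants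
  obtain ⟨c, hc0, hc64, hcQ⟩ : ∃ c : ℝ, 0 < c ∧ c ≤ 1 / 64 ∧
      c ≤ c₁ ^ n / (2 * (C₃ * (2 * 64 ^ n) * C / c₂)) :=
    ⟨min (1 / 64) (c₁ ^ n / (2 * (C₃ * (2 * 64 ^ n) * C / c₂))), by positivity,
      min_le_left _ _, min_le_right _ _⟩
  refine ⟨c, hc0, hc64, ?_⟩
  intro D f Df K H x t P R X k ht hP hX hR hD hU hU1 hdeg hk hK
  have hP0 : 0 < P := by linarith
  have hX0 : 0 < X := by linarith
  obtain ⟨Y, hY⟩ : ∃ Y : ℝ, Y = X * P ^ n := ⟨_, rfl⟩
  rw [← hY]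
  have hY1 : 1 ≤ Y := by
    have : 1 ≤ P ^ n := one_le_pow₀ hP
    rw [hY]; nlinarith
  have hY0 : 0 < Y := by linarith
  obtain ⟨ρ, hρ⟩ : ∃ ρ : ℝ, ρ = c * R / Y ^ 4 := ⟨_, rfl⟩
  rw [← hρ]
  have hρ0 : 0 < ρ := by rw [hρ]; positivity
  have hρR : 64 * ρ ≤ R := by
    rw [hρ, ← mul_div_assoc, div_le_iff₀ (by positivity)]
    have : 1 ≤ Y ^ 4 := one_le_pow₀ hY1
    nlinarith
  obtain ⟨q, hq⟩ : ∃ q : ℝ, q = 1 + 1 / P := ⟨_, rfl⟩
  rw [← hq]
  rw [← hq] at hU hdeg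
  have hq1 : 1 < q := by
    have : 0 < 1 / P := by positivity
    rw [hq]; linarith
  have hq0 : 0 < q := by linarith
  have hxD : x ∈ D := hD (mem_closedBall_self (by positivity))
  have hDopen := H.isOpen
  have hfc := H.cont
  -- monotonicity of the components
  have hmono : ∀ s s' : ℝ, 0 < s → s ≤ s' → comp f D x s ⊆ comp f D x s' := fun s s' hs hss =>
    comp_mono_of (mem_comp hxD (by linarith)) (ball_subset_ball hss)
  have hpow : ∀ i j : ℕ, i ≤ j → t * q ^ i ≤ t * q ^ j := fun i j hij =>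
    mul_le_mul_of_nonneg_left (pow_le_pow_right₀ hq1.le hij) ht.le
  have hpow' : ∀ i j : ℕ, i < j → t * q ^ i < t * q ^ j := fun i j hij =>
    mul_lt_mul_of_pos_left (pow_lt_pow_right₀ hq1 hij) ht
  have htpos : ∀ i : ℕ, 0 < t * q ^ i := fun i => by positivity
  have hsubR : ∀ i ≤ 4, comp f D x (t * q ^ i) ⊆ closedBall x R := fun i hi =>
    (hmono _ _ (htpos i) (hpow i 4 hi)).trans hU
  have hcl : ∀ i ≤ 4, closure (comp f D x (t * q ^ i)) ⊆ D := fun i hi =>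
    (closure_minimal (hsubR i hi) isClosed_closedBall).trans
      ((closedBall_subset_closedBall (by linarith)).trans hD)
  have hdegi : ∀ i ≤ 4, ∃ k' : ℕ, HasDeg f Df (comp f D x (t * q ^ i)) (ball (f x) (t * q ^ i)) k' ∧
      (k' : ℝ) ≤ X := by
    intro i hi
    obtain ⟨k', _, hk'⟩ := H.comp_deg hn2 hxD (htpos i) (hcl i hi)
    refine ⟨k', hk', ?_⟩
    have h1 : k' ≤ k := HasDeg.le hfc (isOpen_comp hfc hDopen x _) (isOpen_comp hfc hDopen x _)
      isOpen_ball ⟨f x, mem_ball_self (htpos i)⟩ isBounded_ball hdeg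
      (ball_subset_ball (hpow i 4 hi)) hk' (hmono _ _ (htpos i) (hpow i 4 hi))
    exact le_trans (by exact_mod_cast h1) hk
  by_contra hcon
  push Not at hcon
  -- the cut-off function between the levels 1 and 2
  obtain ⟨k₂, hk₂, hk₂X⟩ := hdegi 2 (by norm_num)
  have e2 : t * q ^ 2 = t * q * (1 + 1 / P) := by rw [← hq]; ring
  rw [e2] at hk₂
  obtain ⟨w, G, hug, hGm, hw01, hw1, hw0, hE⟩ := hcut D f Df K H x (t * q) P R X k₂ (by positivity)
    hP hX hR hD (by rw [← e2]; exact hsubR 2 (by norm_num)) hk₂ hk₂X hK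
  rw [← e2] at hw1 hw0
  rw [← hY] at hE
  have e1 : t * q ^ 1 = t * q := by rw [pow_one]
  -- the lower bound for the volume
  obtain ⟨k₁, hk₁, hk₁X⟩ := hdegi 1 (by norm_num)
  rw [e1, hq] at hk₁
  have hvol := hvl D f Df K H x t P R X k₁ ht hP hX hR hD
    (by rw [← hq, ← e1]; exact hsubR 1 (by norm_num)) hU1 hk₁ hk₁X hK
  rw [← hq, ← hY] at hvol
  -- the measure
  set ν : Measure (E n) := volume.withDensity fun z => G z ^ pex n with hν
  have hνuniv : ν univ ≤ ENNReal.ofReal (C * Y * R ^ (1 / 2 : ℝ)) := by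
    rw [hν, withDensity_apply _ MeasurableSet.univ, Measure.restrict_univ]
    exact hE
  have hρh : 0 < ρ ^ (1 / 2 : ℝ) := Real.rpow_pos_of_pos hρ0 _
  obtain ⟨a, ha⟩ : ∃ a : ℝ, a = c₂ * ρ ^ (1 / 2 : ℝ) / (2 * (64 * ρ) ^ n) := ⟨_, rfl⟩
  have ha0 : 0 < a := by rw [ha]; positivity
  have hkey : ∀ p ∈ comp f D x (t * q), ENNReal.ofReal (a * (64 * ρ) ^ n) < ν (ball p (64 * ρ)) := by
    intro p hp
    have hpR : dist p x ≤ R := mem_closedBall.mp (by
      have := hsubR 1 (by norm_num)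
      rw [e1] at this
      exact this hp)
    have hp3 : p ∈ comp f D x (t * q ^ 3) := by
      have h1 := hmono _ _ (htpos 1) (hpow 1 3 (by norm_num))
      rw [e1] at h1
      exact h1 hp
    have hsubD : closedBall p (64 * ρ) ⊆ D :=
      (closedBall_subset_closedBall' (by linarith)).trans hD
    -- the frontier point
    obtain ⟨z, hzb, hzf⟩ := exists_frontier (convex_ball p (4 * ρ)).isPreconnected
      (mem_ball_self (by positivity)) hp3 (hcon p)
    have hzd : dist (f z) (f x) = t * q ^ 3 :=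
      dist_of_mem_frontier_comp hfc hDopen (hcl 3 (by norm_num)) hzf
    have hzD : z ∈ D := hsubD (by
      rw [mem_ball] at hzb
      rw [mem_closedBall]; linarith)
    set O : Set (E n) := {y : E n | t * q ^ 2 < dist y (f x)} with hO
    have hOopen : IsOpen O := isOpen_lt continuous_const (continuous_id.dist continuous_const)
    have hfzO : f z ∈ O := by
      rw [hO, mem_ofPred_eq, hzd]
      exact hpow' 2 3 (by norm_num)
    have hmax : ∀ τ ∈ Ico (4 * ρ) (32 * ρ), ∃ z' ∈ connectedComponentIn (D ∩ f ⁻¹' O) z,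
        dist z' p = τ := by
      intro τ hτ
      exact H.max_principle hn2 hOopen (isPreconnected_dist_gt hn2 _ _)
        (not_isBounded_dist_gt hn1 _ _) hzD hfzO (ρ := 64 * ρ) hsubD
        (by rw [mem_ball] at hzb; linarith [hτ.1]) (by linarith [hτ.2])
    set F₂ : Set (E n) := connectedComponentIn (D ∩ f ⁻¹' O) z ∩ ball p (32 * ρ) with hF₂
    set F₁ : Set (E n) := comp f D x (t * q) ∩ ball p (32 * ρ) with hF₁
    have hF₁m : ∀ τ ∈ Ico (0 : ℝ) ρ, ∃ z' ∈ F₁, dist z' p = τ := by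
      intro τ hτ
      have hnot : ¬ comp f D x (t * q) ⊆ ball p (R / 4) := by
        intro hsub
        apply hU1
        intro y hy
        have hm := hmono _ _ (by simpa using htpos 0) (by simpa using hpow 0 1 (by norm_num) :
          t ≤ t * q)
        have h1 := mem_ball.mp (hsub (hm hy))
        have h2 := mem_ball.mp (hsub (mem_comp hxD (by positivity)))
        rw [mem_ball]
        calc dist y x ≤ dist y p + dist x p := dist_triangle_right y x p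
          _ < R / 2 := by linarith
      obtain ⟨y, hy, hyd⟩ := exists_dist_eq (comp_preconn f D x (t * q)) hp hnot
        (by rw [dist_self]; exact hτ.1) (by linarith [hτ.2] : τ < R / 4)
      refine ⟨y, ⟨hy, ?_⟩, hyd⟩
      rw [mem_ball, hyd]
      linarith [hτ.2]
    have hF₂m : ∀ τ ∈ Ico (4 * ρ) (32 * ρ), ∃ z' ∈ F₂, dist z' p = τ := by
      intro τ hτ
      obtain ⟨y, hy, hyd⟩ := hmax τ hτ
      refine ⟨y, ⟨hy, ?_⟩, hyd⟩
      rw [mem_ball, hyd]
      exact hτ.2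
    have hmain := hcap D w G hug hGm p (64 * ρ) (by positivity) hsubD F₁ F₂
      (fun y hy => by
        have h1 := hy.2
        rw [mem_ball] at h1 ⊢
        linarith)
      (fun y hy => by
        have h1 := hy.2
        rw [mem_ball] at h1 ⊢
        linarith)
      (fun y hy => by
        have h3 : y ∈ comp f D x (t * q ^ 2) := by
          have h1 := hmono _ _ (htpos 1) (hpow 1 2 (by norm_num))
          rw [e1] at h1
          exact h1 hy.1
        have h4 := (comp_subset f D x (t * q) hy.1).2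
        rw [mem_preimage, mem_ball] at h4
        exact (hw1 y h3 h4.le).ge)
      (fun y hy => by
        have h3 := (connectedComponentIn_subset _ _ hy.1).2
        rw [mem_preimage, hO, mem_ofPred_eq] at h3
        rw [hw0 y]
        intro h4
        have h5 := (comp_subset f D x (t * q ^ 2) h4).2
        rw [mem_preimage, mem_ball] at h5
        linarith)
      (fun z => dist z p) (fun z => dist z p) (LipschitzWith.dist_left p)
      (LipschitzWith.dist_left p)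
      (by
        refine le_trans (ENNReal.ofReal_le_ofReal ?_) (volume_image_ge hF₁m)
        linarith)
      (by
        refine le_trans (ENNReal.ofReal_le_ofReal ?_) (volume_image_ge hF₂m)
        linarith)
    have hνb : ν (ball p (64 * ρ)) = ∫⁻ z in ball p (64 * ρ), G z ^ pex n := by
      rw [hν, withDensity_apply _ measurableSet_ball]
    rw [hνb]
    refine lt_of_lt_of_le ?_ hmain
    rw [ENNReal.ofReal_lt_ofReal_iff (by positivity)]
    exact final_lt' hc₂ hρ0 ha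
  -- the weak type estimate
  have hv := hvit ν a (64 * ρ) ha0
  have hup : volume (comp f D x (t * q)) ≤ ENNReal.ofReal (C₃ / a * (C * Y * R ^ (1 / 2 : ℝ))) := by
    calc volume (comp f D x (t * q)) ≤ volume {x : E n | ∃ r, 0 < r ∧ r ≤ 64 * ρ ∧
          ENNReal.ofReal (a * r ^ n) < ν (ball x r)} :=
          measure_mono fun p hp => ⟨64 * ρ, by positivity, le_rfl, hkey p hp⟩
      _ ≤ ENNReal.ofReal (C₃ / a) * ν univ := hv
      _ ≤ ENNReal.ofReal (C₃ / a) * ENNReal.ofReal (C * Y * R ^ (1 / 2 : ℝ)) := by gcongr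
      _ = _ := by rw [← ENNReal.ofReal_mul (by positivity)]
  have hfin := hvol.trans hup
  rw [ENNReal.ofReal_le_ofReal_iff (by positivity)] at hfin
  exact absurd hfin (by
    rw [ha, hρ]
    exact not_le.mpr (final_lt hn hc₁ hc₂ hC hC₃ hR hY1 hc0 (by linarith) hcQ))

end Pool.Agent.MP_dd09c0_an
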