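import Pool.Agent.MP_dd09c0_an.Cutoff
import Pool.Agent.MP_dd09c0_an.WDcalc
import Pool.Agent.MP_dd09c0_an.WDug
import Pool.Agent.MP_dd09c0_an.Cap
import Pool.Agent.MP_dd09c0_an.CompTop
import Pool.Agent.MP_dd09c0_an.Energy

/-!
# Small components (module N)
-/

open MeasureTheory Metric Set Filter Topology
open scoped ENNReal NNReal ContDiff RealInnerProductSpace

namespace Pool.Agent.MP_dd09c0_an

variable {n : ℕ}

namespace SmallAux

theorem measurable_comp_clm {Φ : E n → ℝ} (hΦ : ContDiff ℝ ∞ Φ) {f : E n → E n}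
    (hf : Continuous f) {Df : E n → E n →L[ℝ] E n} (hD : Measurable Df) :
    Measurable fun x => (fderiv ℝ Φ (f x)).comp (Df x) := by
  have h1 : Continuous fun p : (E n →L[ℝ] ℝ) × (E n →L[ℝ] E n) => p.1.comp p.2 :=
    (isBoundedBilinearMap_comp (𝕜 := ℝ) (E := E n) (F := E n) (G := ℝ)).continuous
  have h2 : Measurable fun x => (fderiv ℝ Φ (f x), Df x) :=
    ((hΦ.continuous_fderiv (by simp)).comp hf).measurable.prodMk hD
  exact h1.measurable.comp h2

/-- the average of a function with values in `[0,1]` supported in a small ball -/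
theorem average_le {w : E n → ℝ} (hn : 1 ≤ n) {x c : E n} {R : ℝ} (hR : 0 < R)
    (hw0 : ∀ y, 0 ≤ w y) (hw1 : ∀ y, w y ≤ 1) (hws : ∀ y, y ∉ ball c R → w y = 0) :
    (⨍ y in ball x (4 * R), w y) ≤ 1 / 4 := by
  have hv : volume.real (ball x (4 * R)) = 4 ^ n * volume.real (ball c R) := by
    have h1 : volume (ball x (4 * R)) = ENNReal.ofReal (4 ^ n) * volume (ball c R) := by
      rw [Measure.addHaar_ball_of_pos volume x (by positivity), Measure.addHaar_ball_of_pos volume c hR,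
        finrank_euclideanSpace_fin, mul_pow, ENNReal.ofReal_mul (by positivity), mul_assoc]
    rw [measureReal_def, measureReal_def, h1, ENNReal.toReal_mul,
      ENNReal.toReal_ofReal (by positivity)]
  have hpos : 0 < volume.real (ball c R) := by
    rw [measureReal_def]
    exact ENNReal.toReal_pos (isOpen_ball.measure_pos volume ⟨c, mem_ball_self hR⟩).ne'
      measure_ball_lt_top.ne
  have hI : ∫ y in ball x (4 * R), w y ≤ volume.real (ball c R) := by
    have h1 : ∫ y in ball x (4 * R), w y ≤ ∫ y in ball x (4 * R), (ball c R).indicator 1 y := by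
      apply integral_mono_of_nonneg (Eventually.of_forall hw0)
      · refine (integrable_indicator_iff measurableSet_ball).2 (integrableOn_const ?_)
        rw [Measure.restrict_apply measurableSet_ball]
        exact ((measure_mono inter_subset_left).trans_lt measure_ball_lt_top).ne
      · refine Eventually.of_forall fun y => ?_
        by_cases hy : y ∈ ball c R
        · simp only [indicator_of_mem hy, Pi.one_apply]; exact hw1 y
        · simp only [indicator_of_notMem hy]; exact (hws y hy).le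
    refine h1.trans ?_
    rw [integral_indicator_one measurableSet_ball, measureReal_def, measureReal_def,
      Measure.restrict_apply measurableSet_ball]
    exact ENNReal.toReal_mono measure_ball_lt_top.ne (measure_mono inter_subset_left)
  rw [setAverage_eq, smul_eq_mul, hv]
  have h4 : (4 : ℝ) ≤ 4 ^ n := by
    calc (4 : ℝ) = 4 ^ 1 := by norm_num
      _ ≤ 4 ^ n := pow_le_pow_right₀ (by norm_num) hn
  have h5 : 4 * volume.real (ball c R) ≤ 4 ^ n * volume.real (ball c R) :=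
    mul_le_mul_of_nonneg_right h4 hpos.le
  rw [inv_mul_le_iff₀ (by positivity)]
  linarith

/-- the final numerical comparison -/
theorem energy_num (hn : 3 ≤ n) {X L R C : ℝ} (hX : 1 ≤ X) (hL : 1 ≤ L) (hR : 0 < R) (hC : 1 ≤ C) :
    (X * (C / L ^ (n - 1))) ^ (1 - 1 / (2 * n) : ℝ) * (X * R ^ n) ^ (1 / (2 * n) : ℝ)
      ≤ C * X / L * R ^ (1 / 2 : ℝ) := by
  have hn' : (3 : ℝ) ≤ n := by exact_mod_cast hn
  have hn0 : (0 : ℝ) < 2 * n := by linarith
  set θ : ℝ := 1 / (2 * n) with hθ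
  have hθ0 : 0 < θ := by positivity
  have hθ1 : θ ≤ 1 / 6 := by
    rw [hθ, div_le_div_iff₀ hn0 (by norm_num)]; linarith
  have hnθ : (n : ℝ) * θ = 1 / 2 := by rw [hθ]; field_simp
  have hX0 : 0 < X := by linarith
  have hL0 : 0 < L := by linarith
  have hC0 : 0 < C := by linarith
  have e1 : (X * (C / L ^ (n - 1))) ^ (1 - θ) = X ^ (1 - θ) * (C ^ (1 - θ) / (L ^ (n - 1)) ^ (1 - θ)) := by
    rw [Real.mul_rpow hX0.le (by positivity), Real.div_rpow hC0.le (by positivity)]
  have e2 : (X * R ^ n) ^ θ = X ^ θ * R ^ (1 / 2 : ℝ) := by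
    rw [Real.mul_rpow hX0.le (by positivity), ← Real.rpow_natCast R n, ← Real.rpow_mul hR.le, hnθ]
  have e3 : X ^ (1 - θ) * X ^ θ = X := by
    rw [← Real.rpow_add hX0]; simp
  have h1 : C ^ (1 - θ) ≤ C := by
    calc C ^ (1 - θ) ≤ C ^ (1 : ℝ) := Real.rpow_le_rpow_of_exponent_le hC (by linarith)
      _ = C := Real.rpow_one C
  have h2 : L ≤ (L ^ (n - 1)) ^ (1 - θ) := by
    rw [← Real.rpow_natCast, ← Real.rpow_mul hL0.le]
    calc L = L ^ (1 : ℝ) := (Real.rpow_one L).symm
      _ ≤ L ^ (((n - 1 : ℕ) : ℝ) * (1 - θ)) := by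
        apply Real.rpow_le_rpow_of_exponent_le hL
        rw [Nat.cast_sub (by omega)]
        push_cast
        nlinarith
  rw [e1, e2]
  calc X ^ (1 - θ) * (C ^ (1 - θ) / (L ^ (n - 1)) ^ (1 - θ)) * (X ^ θ * R ^ (1 / 2 : ℝ))
      = (X ^ (1 - θ) * X ^ θ) * (C ^ (1 - θ) / (L ^ (n - 1)) ^ (1 - θ)) * R ^ (1 / 2 : ℝ) := by ring
    _ = X * (C ^ (1 - θ) / (L ^ (n - 1)) ^ (1 - θ)) * R ^ (1 / 2 : ℝ) := by rw [e3]
    _ ≤ X * (C / L) * R ^ (1 / 2 : ℝ) := by
      gcongr
    _ = C * X / L * R ^ (1 / 2 : ℝ) := by ring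

end SmallAux

open SmallAux in
theorem small_comp (n : ℕ) (hn : 3 ≤ n) : ∃ C : ℝ, 1 ≤ C ∧ ∀ (D : Set (E n)) (f : E n → E n)
    (Df : E n → E n →L[ℝ] E n) (K : E n → ℝ), GM n D f Df K → ∀ (z c : E n) (s s₁ R X : ℝ)
    (k : ℕ), z ∈ D → 0 < s → s * Real.exp 1 ≤ s₁ → 0 < R → comp f D z s₁ ⊆ ball c R →
    closedBall c (8 * R) ⊆ D → HasDeg f Df (comp f D z s₁) (ball (f z) s₁) k → (k : ℝ) ≤ X →
    1 ≤ X → ∫⁻ x in ball c R, ENNReal.ofReal (K x) ^ (2 * n - 1) ≤ ENNReal.ofReal (X * R ^ n) →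
    comp f D z s ⊆ closedBall z (C * X * R / Real.log (s₁ / s)) := by
  obtain ⟨C₁, hC₁, hcut⟩ := exists_log_cutoff n (by omega)
  obtain ⟨c₀, hc₀, hcap⟩ := cap_star n (by omega)
  refine ⟨2 * C₁ / c₀ + 1, by have : 0 ≤ 2 * C₁ / c₀ := by positivity
                              linarith, ?_⟩
  intro D f Df K H z c s s₁ R X k hz hs hss hR hU hcD hdeg hkX hX hK
  have hs₁ : s < s₁ := by
    have h1 : 1 < Real.exp 1 := Real.one_lt_exp_iff.2 one_pos
    nlinarith
  have hs₁0 : 0 < s₁ := hs.trans hs₁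
  have hL : 1 ≤ Real.log (s₁ / s) := by
    rw [Real.le_log_iff_exp_le (by positivity), le_div_iff₀ hs]
    linarith
  set L := Real.log (s₁ / s) with hLdef
  have hL0 : 0 < L := by linarith
  have hX0 : 0 < X := by linarith
  obtain ⟨Φ, b', hb', hΦ, hΦI, hΦ1, hΦ0, -, -, hΦe⟩ := hcut (f z) s s₁ hs hss
  rw [← hLdef] at hΦe
  set U := comp f D z s₁ with hUdef
  have hUo : IsOpen U := isOpen_comp H.cont H.isOpen z s₁
  have hUc : closure U ⊆ D := by
    calc closure U ⊆ closure (ball c R) := closure_mono hU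
      _ ⊆ closedBall c R := closure_ball_subset_closedBall
      _ ⊆ closedBall c (8 * R) := closedBall_subset_closedBall (by linarith)
      _ ⊆ D := hcD
  have hUf : U ⊆ D ∩ f ⁻¹' ball (f z) s₁ := comp_subset f D z s₁
  have hFU : comp f D z s ⊆ U := by
    apply comp_mono_of (mem_comp hz hs₁0)
    exact ball_subset_ball hs₁.le
  -- the function
  have hwd0 := H.wd_comp' (by omega) hΦ
  have hwd := hwd0.indicator H.isOpen hUo (fun x hx hxU => by
    have h1 : dist (f x) (f z) = s₁ := dist_of_mem_frontier_comp H.cont H.isOpen hUc hxU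
    have h2 : ∀ᶠ y in 𝓝 x, b' < dist (f y) (f z) :=
      (continuousAt_const.eventually_lt ((H.cont.dist continuous_const).continuousAt)
        (by rw [h1]; exact hb'))
    filter_upwards [h2] with y hy
    exact hΦ0 _ hy.le)
  have hug := hwd.ug H.isOpen
  have hmeas : Measurable fun x => ‖U.indicator (fun x => (fderiv ℝ Φ (f x)).comp (Df x)) x‖ₑ :=
    ((measurable_comp_clm hΦ H.cont H.meas).indicator hUo.measurableSet).enorm
  -- energy
  have hen : ∫⁻ x in D, ‖U.indicator (fun x => (fderiv ℝ Φ (f x)).comp (Df x)) x‖ₑ ^ pex n ≤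
      ENNReal.ofReal (C₁ * X / L * R ^ (1 / 2 : ℝ)) := by
    have hp : 0 < pex n := by
      rw [pex]
      have : (3 : ℝ) ≤ n := by exact_mod_cast hn
      linarith
    have h1 : ∫⁻ x in D, ‖U.indicator (fun x => (fderiv ℝ Φ (f x)).comp (Df x)) x‖ₑ ^ pex n ≤
        ∫⁻ x in U, (‖fderiv ℝ Φ (f x)‖ₑ * ‖Df x‖ₑ) ^ pex n := by
      calc ∫⁻ x in D, ‖U.indicator (fun x => (fderiv ℝ Φ (f x)).comp (Df x)) x‖ₑ ^ pex n
          ≤ ∫⁻ x, ‖U.indicator (fun x => (fderiv ℝ Φ (f x)).comp (Df x)) x‖ₑ ^ pex n :=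
            setLIntegral_le_lintegral _ _
        _ ≤ ∫⁻ x, U.indicator (fun x => (‖fderiv ℝ Φ (f x)‖ₑ * ‖Df x‖ₑ) ^ pex n) x := by
            refine lintegral_mono fun x => ?_
            by_cases hx : x ∈ U
            · simp only [indicator_of_mem hx]
              gcongr
              rw [← ofReal_norm, ← ofReal_norm, ← ofReal_norm, ← ENNReal.ofReal_mul (norm_nonneg _)]
              exact ENNReal.ofReal_le_ofReal (ContinuousLinearMap.opNorm_comp_le _ _)
            · simp only [indicator_of_notMem hx]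
              rw [← ofReal_norm, norm_zero, ENNReal.ofReal_zero, ENNReal.zero_rpow_of_pos hp]
        _ = _ := lintegral_indicator hUo.measurableSet _
    have hgm : Measurable fun x => ‖fderiv ℝ Φ (f x)‖ₑ :=
      ((hΦ.continuous_fderiv (by simp)).comp H.cont).measurable.enorm
    have h2 := H.energy_le (by omega) U (fun x => ‖fderiv ℝ Φ (f x)‖ₑ) hgm
    have h3 : ∫⁻ x in U, ‖fderiv ℝ Φ (f x)‖ₑ ^ n * ENNReal.ofReal (Df x).det ≤
        ENNReal.ofReal (X * (C₁ / L ^ (n - 1))) := by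
      have h4 := hdeg (fun y => ‖fderiv ℝ Φ y‖ₑ ^ n)
        ((hΦ.continuous_fderiv (by simp)).measurable.enorm.pow_const n)
      have h5 : U ∩ f ⁻¹' ball (f z) s₁ = U := inter_eq_left.2 fun x hx => (hUf hx).2
      rw [h5] at h4
      rw [h4]
      calc (k : ℝ≥0∞) * ∫⁻ y in ball (f z) s₁, ‖fderiv ℝ Φ y‖ₑ ^ n
          ≤ ENNReal.ofReal X * ENNReal.ofReal (C₁ / L ^ (n - 1)) := by
            gcongr
            · rw [← ENNReal.ofReal_natCast]
              exact ENNReal.ofReal_le_ofReal hkX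
            · exact (setLIntegral_le_lintegral _ _).trans hΦe
        _ = _ := (ENNReal.ofReal_mul hX0.le).symm
    have h6 : ∫⁻ x in U, ENNReal.ofReal (K x) ^ (2 * n - 1) ≤ ENNReal.ofReal (X * R ^ n) :=
      (lintegral_mono_set hU).trans hK
    have hθ : (0 : ℝ) ≤ 1 - 1 / (2 * n) := by
      have : (3 : ℝ) ≤ n := by exact_mod_cast hn
      rw [sub_nonneg, div_le_one (by linarith)]
      linarith
    calc ∫⁻ x in D, ‖U.indicator (fun x => (fderiv ℝ Φ (f x)).comp (Df x)) x‖ₑ ^ pex n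
        ≤ _ := h1
      _ ≤ _ := h2
      _ ≤ ENNReal.ofReal (X * (C₁ / L ^ (n - 1))) ^ (1 - 1 / (2 * n) : ℝ) *
          ENNReal.ofReal (X * R ^ n) ^ (1 / (2 * n) : ℝ) := by
        gcongr
      _ = ENNReal.ofReal ((X * (C₁ / L ^ (n - 1))) ^ (1 - 1 / (2 * n) : ℝ) *
          (X * R ^ n) ^ (1 / (2 * n) : ℝ)) := by
        rw [ENNReal.ofReal_rpow_of_nonneg (by positivity) hθ,
          ENNReal.ofReal_rpow_of_nonneg (by positivity) (by positivity),
          ← ENNReal.ofReal_mul (by positivity)]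
      _ ≤ _ := ENNReal.ofReal_le_ofReal (energy_num hn hX hL hR hC₁)
  -- the contradiction
  intro x hx
  rw [mem_closedBall]
  by_contra hcon
  push Not at hcon
  set d := (2 * C₁ / c₀ + 1) * X * R / L with hd
  have hd0 : 0 < d := by positivity
  have hF := hcap D _ _ hug hmeas (comp f D z s) (4 * R) (by positivity)
    (fun y hy => by
      have h1 := hU (hFU hy)
      refine Subset.trans ?_ hcD
      intro v hv
      rw [mem_ball] at h1
      rw [mem_closedBall] at hv ⊢
      linarith [dist_triangle v y c])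
    (fun y hy => by
      have h1 : U.indicator (fun x => Φ (f x)) y = 1 := by
        rw [indicator_of_mem (hFU hy)]
        exact hΦ1 _ (ball_subset_closedBall (comp_subset f D z s hy).2)
      have h2 : (⨍ v in ball y (4 * R), U.indicator (fun x => Φ (f x)) v) ≤ 1 / 4 := by
        refine average_le (c := c) (by omega) hR ?_ ?_ ?_
        · intro v
          exact indicator_nonneg (fun x _ => (hΦI _).1) v
        · intro v
          by_cases hv : v ∈ U
          · rw [indicator_of_mem hv]; exact (hΦI _).2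
          · rw [indicator_of_notMem hv]; norm_num
        · intro v hv
          exact indicator_of_notMem (fun h => hv (hU h)) _
      rw [h1, le_abs]
      left
      linarith)
    (fun y => dist y z) (LipschitzWith.dist_left z) D
    (fun y hy => by
      have h1 := hU (hFU hy)
      refine Subset.trans ?_ hcD
      intro v hv
      rw [mem_ball] at h1 hv
      rw [mem_closedBall]
      linarith [dist_triangle v y c])
  have himg : Icc 0 d ⊆ (fun y => dist y z) '' comp f D z s := by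
    have h1 : IsPreconnected ((fun y => dist y z) '' comp f D z s) :=
      (comp_preconn f D z s).image _ (continuous_id.dist continuous_const).continuousOn
    have h2 : (0 : ℝ) ∈ (fun y => dist y z) '' comp f D z s := ⟨z, mem_comp hz hs, dist_self z⟩
    have h3 : dist x z ∈ (fun y => dist y z) '' comp f D z s := ⟨x, hx, rfl⟩
    exact (Icc_subset_Icc_right hcon.le).trans (h1.Icc_subset h2 h3)
  have hvol : ENNReal.ofReal d ≤ volume ((fun y => dist y z) '' comp f D z s) := by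
    calc ENNReal.ofReal d = volume (Icc 0 d) := by rw [Real.volume_Icc, sub_zero]
      _ ≤ _ := measure_mono himg
  have hfin : ENNReal.ofReal (c₀ * (4 * R) ^ (-(1 / 2) : ℝ) * d) ≤
      ENNReal.ofReal (C₁ * X / L * R ^ (1 / 2 : ℝ)) := by
    calc ENNReal.ofReal (c₀ * (4 * R) ^ (-(1 / 2) : ℝ) * d)
        = ENNReal.ofReal (c₀ * (4 * R) ^ (-(1 / 2) : ℝ)) * ENNReal.ofReal d :=
          ENNReal.ofReal_mul (by positivity)
      _ ≤ ENNReal.ofReal (c₀ * (4 * R) ^ (-(1 / 2) : ℝ)) *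
          volume ((fun y => dist y z) '' comp f D z s) := by gcongr
      _ ≤ _ := hF
      _ ≤ _ := hen
  rw [ENNReal.ofReal_le_ofReal_iff (by positivity)] at hfin
  have e4 : (4 * R) ^ (-(1 / 2) : ℝ) = (1 / 2) * (R ^ (1 / 2 : ℝ))⁻¹ := by
    rw [Real.rpow_neg (by positivity), Real.mul_rpow (by norm_num) hR.le, mul_inv]
    congr 1
    rw [← Real.sqrt_eq_rpow, show (4 : ℝ) = 2 ^ 2 by norm_num, Real.sqrt_sq (by norm_num)]
    norm_num
  have e5 : R ^ (1 / 2 : ℝ) * R ^ (1 / 2 : ℝ) = R := by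
    rw [← Real.rpow_add hR]; norm_num
  have hRh : 0 < R ^ (1 / 2 : ℝ) := Real.rpow_pos_of_pos hR _
  rw [e4, hd] at hfin
  have h8 : c₀ * (1 / 2 * (R ^ (1 / 2 : ℝ))⁻¹) * ((2 * C₁ / c₀ + 1) * X * R / L) =
      (C₁ + c₀ / 2) * X / L * R ^ (1 / 2 : ℝ) := by
    rw [show (2 * C₁ / c₀ + 1) * X * R / L = (2 * C₁ / c₀ + 1) * X *
      (R ^ (1 / 2 : ℝ) * R ^ (1 / 2 : ℝ)) / L by rw [e5]]
    field_simp
  rw [h8] at hfin
  have h9 : 0 < c₀ / 2 * X / L * R ^ (1 / 2 : ℝ) := by positivity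
  have h10 : (C₁ + c₀ / 2) * X / L * R ^ (1 / 2 : ℝ) =
      C₁ * X / L * R ^ (1 / 2 : ℝ) + c₀ / 2 * X / L * R ^ (1 / 2 : ℝ) := by ring
  linarith

end Pool.Agent.MP_dd09c0_an
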