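import Pool.Agent.MP_dd09c0_an.StepB
import Pool.Agent.MP_dd09c0_an.GoodScale
import Pool.Agent.MP_dd09c0_an.Inball
import Pool.Agent.MP_dd09c0_an.Small

/-!
# The descent step
-/

open MeasureTheory Metric Set Filter Topology
open scoped ENNReal NNReal ContDiff RealInnerProductSpace

namespace Pool.Agent.MP_dd09c0_an

open StepAux in
theorem step (n : ℕ) (hn : 3 ≤ n) : ∃ a : ℕ, 1 ≤ a ∧ ∃ X₀ : ℝ, 1 ≤ X₀ ∧ ∀ X : ℝ, X₀ ≤ X →
    ∀ (D : Set (E n)) (f : E n → E n) (Df : E n → E n →L[ℝ] E n) (K : E n → ℝ), GM n D f Df K →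
    ∀ (Z : Set (E n)) (x : E n) (s ρ : ℝ) (k : ℕ), closedBall x 2 ⊆ D → Typ K x 1 X → 0 < s →
    0 < ρ → ρ ≤ 1 → comp f D x s ⊆ closedBall x (1 / 8) →
    comp f D x s ⊆ closedBall x (ρ * Real.exp (X ^ a)) →
    diam (f '' ball x ρ) ≤ s * Real.exp (X ^ a) →
    HasDeg f Df (comp f D x s) (ball (f x) s) k → (k : ℝ) ≤ X →
    (∀ r : ℝ, 0 < r → r ≤ 1 → volume (Z ∩ ball x r) ≤ ENNReal.ofReal ((X ^ a)⁻¹ * r ^ n)) →
    Bloch f D (s * Real.exp (-(2 * X ^ a))) ∨
    ∃ x' ∈ comp f D x s, x' ∉ Z ∧ ∃ s' ρ' : ℝ, ∃ k' : ℕ, s * Real.exp (-(2 * X ^ a)) ≤ s' ∧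
      0 < ρ' ∧ ρ' ≤ 1 ∧ comp f D x' s' ⊆ comp f D x s ∧
      comp f D x' s' ⊆ closedBall x' (ρ' * Real.exp (X ^ a)) ∧
      diam (f '' ball x' ρ') ≤ s' * Real.exp (X ^ a) ∧
      HasDeg f Df (comp f D x' s') (ball (f x') s') k' ∧ k' + 1 ≤ k := by
  have hn2 : 2 ≤ n := by omega
  obtain ⟨Cgs, hgs1, hgs⟩ := good_scale n hn
  obtain ⟨cin, hin0, hin64, hin⟩ := inball n hn
  obtain ⟨Csm, hsm1, hsm⟩ := small_comp n hn
  obtain ⟨θ, B, hθs, hB1, hθ01, hθ0, hθ1, hθd⟩ := exists_theta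
  obtain ⟨a, ha1, X₀, hX₀, hconst⟩ :=
    constants n hn Cgs cin Csm (fiber_fun n hn).choose (cap_sphere n (by omega)).choose B hgs1
      hin0 hin64 hsm1 (fiber_fun n hn).choose_spec.1 (cap_sphere n (by omega)).choose_spec.1 hB1
  refine ⟨a, ha1, X₀, hX₀, ?_⟩
  intro X hX D f Df K H Z x s ρ k hxD htyp hs hρ hρ1 hc8 hcρ hdiam hdeg hkX hZ
  have hX1 : 1 ≤ X := hX₀.trans hX
  have hX0 : 0 < X := by linarith only [hX1]
  obtain ⟨P, hP⟩ : ∃ P : ℝ, P = Cgs * X ^ 2 := ⟨_, rfl⟩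
  obtain ⟨Q, hQ⟩ : ∃ Q : ℝ, Q = (X * P ^ n) ^ 4 / cin := ⟨_, rfl⟩
  obtain ⟨hP1, hQ64, hca, hcb, hcc, hcd, hce⟩ := hconst X hX P Q hP hQ
  have hP0 : 0 < P := by linarith only [hP1]
  have hQ0 : 0 < Q := by linarith only [hQ64]
  have hxD1 : closedBall x 1 ⊆ D := (closedBall_subset_closedBall (by norm_num)).trans hxD
  have hxin : x ∈ D := hxD (mem_closedBall_self (by norm_num))
  obtain ⟨t, R, ht1, ht2, hR0, hRs, hcR, hcR2⟩ := hgs D f Df K H x s ρ
    (min (1 / 8) (ρ * Real.exp (X ^ a))) X (X ^ a) hX1 hca hs hρ hρ1 hxD1 htyp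
    (by
      intro z hz
      rw [mem_closedBall]
      exact le_min (hc8 hz) (hcρ hz)) (min_le_right _ _) hdiam
  rw [← hP] at ht2 hcR
  have hR8 : R ≤ 1 / 8 := hRs.trans (min_le_left _ _)
  have ht0 : 0 < t := lt_of_lt_of_le (by positivity) ht1
  obtain ⟨e, he⟩ : ∃ e : ℝ, e = 1 + 1 / P := ⟨_, rfl⟩
  have heP : 0 < 1 / P := by positivity
  have he1 : 1 < e := by rw [he]; linarith only [heP]
  have he2 : e ≤ 2 := by
    rw [he]
    have : 1 / P ≤ 1 := by rw [div_le_one hP0]; exact hP1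
    linarith only [this]
  have he0 : 0 < e := by linarith only [he1]
  rw [← he] at ht2 hcR
  obtain ⟨t4, ht4⟩ : ∃ t4 : ℝ, t4 = t * e ^ 3 := ⟨_, rfl⟩
  obtain ⟨t5, ht5⟩ : ∃ t5 : ℝ, t5 = t * e ^ 4 := ⟨_, rfl⟩
  rw [← ht5] at ht2 hcR
  have ht40 : 0 < t4 := by rw [ht4]; positivity
  have ht50 : 0 < t5 := by rw [ht5]; positivity
  have ht4le : t4 ≤ 8 * t := by
    rw [ht4]
    have : e ^ 3 ≤ 2 ^ 3 := by gcongr
    nlinarith only [this, ht0]
  have hs1le : t / P ≤ t5 - t4 := by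
    have e1 : t5 - t4 = t * e ^ 3 * (1 / P) := by
      rw [ht5, ht4, he]; ring
    rw [e1]
    have e2 : (1 : ℝ) ≤ e ^ 3 := one_le_pow₀ he1.le
    have : t / P = t * 1 * (1 / P) := by ring
    rw [this]
    gcongr
  have hs10 : 0 < t5 - t4 := lt_of_lt_of_le (by positivity) hs1le
  obtain ⟨s1, hs1⟩ : ∃ s1 : ℝ, s1 = t5 - t4 := ⟨_, rfl⟩
  rw [← hs1] at hs1le hs10
  set V : Set (E n) := comp f D x t5 with hV
  have hVcl : closure V ⊆ closedBall x R := closure_minimal hcR isClosed_closedBall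
  have hcRD : closedBall x R ⊆ D := (closedBall_subset_closedBall (by linarith only [hR8])).trans hxD
  have hVD : closure V ⊆ D := hVcl.trans hcRD
  have hVo : IsOpen V := isOpen_comp H.cont H.isOpen x t5
  have hVsub : V ⊆ D := subset_closure.trans hVD
  obtain ⟨kV, hkV1, hdV⟩ := H.comp_deg hn2 hxin ht50 hVD
  rw [← hV] at hdV
  have hVs : V ⊆ comp f D x s := comp_mono_of (mem_comp hxin hs) (ball_subset_ball ht2)
  have hkVk : kV ≤ k := HasDeg.le H.cont (isOpen_comp H.cont H.isOpen x s) hVo isOpen_ball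
    ⟨f x, mem_ball_self ht50⟩ isBounded_ball hdeg (ball_subset_ball ht2) hdV hVs
  have hkVX : (kV : ℝ) ≤ X := le_trans (by exact_mod_cast hkVk) hkX
  have hT2R : ∫⁻ z in ball x (2 * R), ENNReal.ofReal (K z) ^ (2 * n - 1)
      ≤ ENNReal.ofReal (X * (2 * R) ^ n) := htyp (2 * R) (by linarith only [hR0]) (by linarith only [hR8])
  obtain ⟨p, hp⟩ := hin D f Df K H x t P R X kV ht0 hP1 hX1 hR0
    ((closedBall_subset_closedBall (by linarith only [hR8])).trans hxD)
    (by rw [← he, ← ht5]; exact hcR) hcR2 (by rw [← he, ← ht5]; exact hdV) hkVX hT2R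
  rw [← he, ← ht4] at hp
  obtain ⟨ρ1, hρ1e⟩ : ∃ ρ1 : ℝ, ρ1 = R / Q := ⟨_, rfl⟩
  have hρ1' : cin * R / (X * P ^ n) ^ 4 = ρ1 := by
    rw [hρ1e, hQ]; field_simp
  rw [hρ1'] at hp
  have hρ10 : 0 < ρ1 := by rw [hρ1e]; positivity
  have hρ1R : ρ1 ≤ R / 64 := by
    rw [hρ1e]; gcongr
  have hRρ1 : R = Q * ρ1 := by rw [hρ1e]; field_simp
  -- the point p
  have hpU4 : p ∈ comp f D x t4 := hp (mem_ball_self (by linarith only [hρ10]))
  have hU4V : comp f D x t4 ⊆ V := by
    apply comp_mono_of (mem_comp hxin ht50)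
    apply ball_subset_ball
    linarith only [hs1, hs10]
  -- scales
  obtain ⟨ε, hε⟩ : ∃ ε : ℝ, ε = ρ1 / 20 := ⟨_, rfl⟩
  obtain ⟨δ, hδ⟩ : ∃ δ : ℝ, δ = ε / (4 * √X) := ⟨_, rfl⟩
  have hsX : 1 ≤ √X := by rw [Real.one_le_sqrt]; exact hX1
  have hsX0 : 0 < √X := by linarith only [hsX]
  have hε0 : 0 < ε := by rw [hε]; positivity
  have hδ0 : 0 < δ := by rw [hδ]; positivity
  have hδε : δ ≤ ε / 4 := by
    rw [hδ]
    gcongr
    linarith only [hsX]
  obtain ⟨Λ', hΛ'⟩ : ∃ Λ' : ℝ, Λ' = 320 * Csm * X ^ 2 * Q + P + 2 := ⟨_, rfl⟩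
  rw [← hΛ'] at hcb
  have hΛ'0 : 0 < Λ' := by rw [hΛ']; positivity
  obtain ⟨s', hs'⟩ : ∃ s' : ℝ, s' = t * Real.exp (-Λ') := ⟨_, rfl⟩
  have hs'0 : 0 < s' := by rw [hs']; positivity
  have hs'1 : s' * Real.exp 1 ≤ s1 := by
    refine le_trans ?_ hs1le
    rw [hs', mul_assoc, ← Real.exp_add, le_div_iff₀ hP0, mul_assoc]
    have e1 : P ≤ Real.exp (Λ' - 1) := by
      have : Λ' - 1 + 1 ≤ Real.exp (Λ' - 1) := Real.add_one_le_exp _
      have h2 : P + 2 ≤ Λ' := by
        rw [hΛ']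
        have : 0 < 320 * Csm * X ^ 2 * Q := by positivity
        linarith only [this]
      linarith only [this, h2]
    have e2 : Real.exp (-Λ' + 1) * P ≤ 1 := by
      calc Real.exp (-Λ' + 1) * P ≤ Real.exp (-Λ' + 1) * Real.exp (Λ' - 1) := by gcongr
        _ = 1 := by rw [← Real.exp_add]; simp
    nlinarith only [e2, ht0]
  have hs's1 : s' < s1 := by
    have : s' * 1 < s' * Real.exp 1 := by
      gcongr
      have := Real.add_one_lt_exp (x := 1) (by norm_num)
      linarith only [this]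
    linarith only [this, hs'1]
  -- small components
  have hsub1 : ∀ z ∈ V, dist (f z) (f x) < t4 → comp f D z s1 ⊆ V := by
    intro z hz hzd
    exact comp_subset_of_dist hz (by rw [hs1]; linarith only [hzd])
  have hsub' : ∀ z ∈ V, dist (f z) (f x) < t4 → comp f D z s' ⊆ V := by
    intro z hz hzd
    exact comp_subset_of_dist hz (by linarith only [hzd, hs's1, hs1])
  have hVball : V ⊆ ball x (2 * R) := by
    intro z hz
    have := hcR hz
    rw [mem_closedBall] at this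
    rw [mem_ball]; linarith only [this, hR0]
  have hsmall : ∀ z ∈ V, dist (f z) (f x) < t4 → ∀ s'' : ℝ, 0 < s'' → s'' * Real.exp 1 ≤ s1 →
      comp f D z s'' ⊆ closedBall z (Csm * X * (2 * R) / Real.log (s1 / s'')) := by
    intro z hz hzd s'' hs'' hs''1
    have hzD : z ∈ D := hVsub hz
    have hcz : closure (comp f D z s1) ⊆ D := (closure_mono (hsub1 z hz hzd)).trans hVD
    obtain ⟨kz, hkz1, hdz⟩ := H.comp_deg hn2 hzD hs10 hcz
    have hbz : ball (f z) s1 ⊆ ball (f x) t5 := by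
      intro y hy
      rw [mem_ball] at hy ⊢
      calc dist y (f x) ≤ dist y (f z) + dist (f z) (f x) := dist_triangle _ _ _
        _ < t5 := by linarith only [hy, hzd, hs1]
    have hkz : kz ≤ kV := HasDeg.le H.cont hVo (isOpen_comp H.cont H.isOpen z s1) isOpen_ball
      ⟨f z, mem_ball_self hs10⟩ isBounded_ball hdV hbz hdz (hsub1 z hz hzd)
    exact hsm D f Df K H z x s'' s1 (2 * R) X kz hzD hs'' hs''1 (by linarith only [hR0])
      ((hsub1 z hz hzd).trans hVball)
      ((closedBall_subset_closedBall (by linarith only [hR8])).trans hxD) hdz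
      (le_trans (by exact_mod_cast hkz) hkVX) hX1 hT2R
  have hlog : 320 * Csm * X ^ 2 * Q ≤ Real.log (s1 / s') := by
    rw [Real.le_log_iff_exp_le (by positivity), le_div_iff₀ hs'0, hs']
    calc Real.exp (320 * Csm * X ^ 2 * Q) * (t * Real.exp (-Λ'))
        = t * Real.exp (320 * Csm * X ^ 2 * Q + -Λ') := by rw [Real.exp_add]; ring
      _ ≤ t * (1 / P) := by
          gcongr
          have : 320 * Csm * X ^ 2 * Q + -Λ' = -(P + 2) := by rw [hΛ']; ring
          rw [this, Real.exp_neg, ← one_div]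
          gcongr
          have := Real.add_one_le_exp (P + 2)
          linarith only [this]
      _ = t / P := by ring
      _ ≤ s1 := hs1le
  have hδeq : δ = R / (80 * √X * Q) := by
    rw [hδ, hε, hρ1e]; field_simp; ring
  have hsm' : ∀ z ∈ V, dist (f z) (f x) < t4 → comp f D z s' ⊆ closedBall z (δ / 2) := by
    intro z hz hzd
    refine (hsmall z hz hzd s' hs'0 hs'1).trans (closedBall_subset_closedBall ?_)
    have hL0 : 0 < 320 * Csm * X ^ 2 * Q := by positivity
    calc Csm * X * (2 * R) / Real.log (s1 / s')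
        ≤ Csm * X * (2 * R) / (320 * Csm * X ^ 2 * Q) := by gcongr
      _ ≤ δ / 2 := by
          rw [hδeq, div_div, div_le_div_iff₀ hL0 (by positivity)]
          have hsq : √X ≤ X := by
            rw [Real.sqrt_le_left hX0.le]
            nlinarith only [hX1]
          have : Csm * X * (2 * R) * (80 * √X * Q * 2) = R * (320 * Csm * X * √X * Q) := by ring
          rw [this]
          have h2 : 320 * Csm * X * √X * Q ≤ 320 * Csm * X * X * Q := by gcongr
          calc R * (320 * Csm * X * √X * Q) ≤ R * (320 * Csm * X * X * Q) := by gcongr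
            _ = R * (320 * Csm * X ^ 2 * Q) := by ring
  -- lower bound for s'
  have hs's : s * Real.exp (-(2 * X ^ a)) ≤ s' := by
    rw [hs']
    have e1 : s * Real.exp (-(2 * X ^ a)) = (s * Real.exp (-X ^ a)) * Real.exp (-X ^ a) := by
      rw [mul_assoc, ← Real.exp_add]; congr 2; ring
    rw [e1]
    have e2 : Real.exp (-X ^ a) ≤ Real.exp (-Λ') := by
      apply Real.exp_le_exp.2; linarith only [hcb]
    gcongr
  by_cases hA : ∃ x' ∈ ball p (2 * ρ1), x' ∉ Z ∧ ∃ x'' ∈ V, f x'' = f x' ∧ x'' ∉ comp f D x' s'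
  · right
    obtain ⟨x', hx'p, hx'Z, x'', hx''V, hfx, hx''⟩ := hA
    have hx'U4 : x' ∈ comp f D x t4 := hp (ball_subset_ball (by linarith only [hρ10]) hx'p)
    have hx'V : x' ∈ V := hU4V hx'U4
    have hx'd : dist (f x') (f x) < t4 := (comp_subset f D x t4 hx'U4).2
    have hx''d : dist (f x'') (f x) < t4 := by rw [hfx]; exact hx'd
    have hc' := hsub' x' hx'V hx'd
    have hc'' := hsub' x'' hx''V hx''d
    obtain ⟨k', hk'1, hd'⟩ := H.comp_deg hn2 (hVsub hx'V) hs'0 ((closure_mono hc').trans hVD)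
    obtain ⟨k'', hk''1, hd''⟩ := H.comp_deg hn2 (hVsub hx''V) hs'0 ((closure_mono hc'').trans hVD)
    rw [hfx] at hd''
    have hdis : Disjoint (comp f D x' s') (comp f D x'' s') := by
      rcases comp_eq_or_disjoint (f := f) (D := D) (s := s') hfx.symm with h | h
      · exact absurd (h ▸ mem_comp (hVsub hx''V) hs'0) hx''
      · exact h
    have hb' : ball (f x') s' ⊆ ball (f x) t5 := by
      intro y hy
      rw [mem_ball] at hy ⊢
      calc dist y (f x) ≤ dist y (f x') + dist (f x') (f x) := dist_triangle _ _ _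
        _ < t5 := by linarith only [hy, hx'd, hs's1, hs1]
    have hsum : k' + k'' ≤ kV := HasDeg.add_le H.cont H.meas hVo
      (isOpen_comp H.cont H.isOpen x' s') (isOpen_comp H.cont H.isOpen x'' s') isOpen_ball
      ⟨f x', mem_ball_self hs'0⟩ isBounded_ball hdV hb' hd' hd'' hc' hc'' hdis
    refine ⟨x', hVs hx'V, hx'Z, s', ρ1, k', hs's, hρ10, by linarith only [hρ1R, hR8], hc'.trans hVs, ?_, ?_, hd',
      by omega⟩
    · intro z hz
      have h1 := hcR (hc' hz)
      have h2 := hcR hx'V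
      rw [mem_closedBall] at h1 h2 ⊢
      calc dist z x' ≤ dist z x + dist x x' := dist_triangle _ _ _
        _ ≤ R + R := by rw [dist_comm x x']; linarith only [h1, h2]
        _ = ρ1 * (2 * Q) := by rw [hRρ1]; ring
        _ ≤ ρ1 * Real.exp (X ^ a) := by
            gcongr
            have := Real.add_one_le_exp (X ^ a)
            linarith only [this, hcc]
    · have hsubb : f '' ball x' ρ1 ⊆ ball (f x) t4 := by
        rintro _ ⟨z, hz, rfl⟩
        have : z ∈ ball p (4 * ρ1) := by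
          rw [mem_ball] at hz hx'p ⊢
          calc dist z p ≤ dist z x' + dist x' p := dist_triangle _ _ _
            _ < 4 * ρ1 := by linarith only [hz, hx'p, hρ10]
        exact (comp_subset f D x t4 (hp this)).2
      calc diam (f '' ball x' ρ1) ≤ diam (ball (f x) t4) := diam_mono hsubb isBounded_ball
        _ ≤ 2 * t4 := diam_ball ht40.le
        _ ≤ 16 * t := by linarith only [ht4le]
        _ ≤ s' * Real.exp (X ^ a) := by
            rw [hs', mul_assoc, ← Real.exp_add]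
            have : (3 : ℝ) ≤ -Λ' + X ^ a := by linarith only [hcb]
            have h16 : (16 : ℝ) ≤ Real.exp 3 := by
              have h1 : (2.7182818283 : ℝ) < Real.exp 1 := Real.exp_one_gt_d9
              have h2 : Real.exp 3 = Real.exp 1 ^ 3 := by
                rw [← Real.exp_nat_mul]; norm_num
              rw [h2]
              nlinarith only [h1, pow_pos (Real.exp_pos 1) 2]
            have h3 : Real.exp 3 ≤ Real.exp (-Λ' + X ^ a) := Real.exp_le_exp.2 this
            nlinarith only [h3, h16, ht0]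
  · left
    push Not at hA
    have hlight : ∀ z ∈ V, dist (f z) (f x) < t4 → ∀ δ' > 0, ∃ s'' > 0,
        comp f D z s'' ⊆ closedBall z δ' := by
      intro z hz hzd δ' hδ'
      obtain ⟨L, hL⟩ : ∃ L : ℝ, L = 1 + Csm * X * (2 * R) / δ' := ⟨_, rfl⟩
      have hq0 : 0 ≤ Csm * X * (2 * R) / δ' := by positivity
      have hL1 : 1 ≤ L := by rw [hL]; linarith only [hq0]
      have hLδ : Csm * X * (2 * R) ≤ δ' * L := by
        rw [hL]
        have : δ' * (1 + Csm * X * (2 * R) / δ') = δ' + Csm * X * (2 * R) := by field_simp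
        rw [this]
        linarith only [hδ']
      refine ⟨s1 * Real.exp (-L), by positivity, ?_⟩
      refine (hsmall z hz hzd (s1 * Real.exp (-L)) (by positivity) ?_).trans
        (closedBall_subset_closedBall ?_)
      · rw [mul_assoc, ← Real.exp_add]
        have : Real.exp (-L + 1) ≤ 1 := by
          rw [Real.exp_le_one_iff]; linarith only [hL1]
        calc s1 * Real.exp (-L + 1) ≤ s1 * 1 := by gcongr
          _ = s1 := mul_one _
      · have e1 : Real.log (s1 / (s1 * Real.exp (-L))) = L := by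
          rw [← div_div, div_self hs10.ne', one_div, Real.log_inv, Real.log_exp, neg_neg]
        rw [e1, div_le_iff₀ (by linarith only [hL1])]
        exact hLδ
    have hB := caseB n hn hθs hB1 hθ01 hθ0 hθ1 hθd H (Z := Z) (x := x) (p := p) (t4 := t4)
      (t5 := t5) (R := R) (X := X) (Q := Q) (ρ1 := ρ1) (ε := ε) (δ := δ) (s' := s')
      (τ₀ := (X ^ a)⁻¹) (kV := kV) hX1 hR0 hcRD hxin ht40 hs'0 (by linarith only [hs's1, hs1])
      hcR hdV hkVX hT2R hp hρ10 hQ64 hRρ1 hε hδ (by positivity) hsub' hsm' hlight hA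
      (hZ (2 * R) (by linarith only [hR0]) (by linarith only [hR8])) hcd hce
    exact hB.mono (by positivity) hs's H.cont

end Pool.Agent.MP_dd09c0_an
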