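import Pool.Agent.MP_dd09c0_an.Exc
import Pool.Agent.MP_dd09c0_an.Step

/-! Module S2: descending induction on the degree. -/

open MeasureTheory Metric Set Filter Topology
open scoped ENNReal NNReal ContDiff RealInnerProductSpace

namespace Pool.Agent.MP_dd09c0_an

namespace Descend

theorem badSeq_succ_subset {n : ℕ} (D : Set (E n)) (K : E n → ℝ) (X τ : ℝ) (j : ℕ) :
    badSeq D K X τ j ⊆ badSeq D K X τ (j + 1) := by
  intro x hx
  exact Or.inl hx

theorem badSeq_mono {n : ℕ} (D : Set (E n)) (K : E n → ℝ) (X τ : ℝ) {i j : ℕ} (h : i ≤ j) :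
    badSeq D K X τ i ⊆ badSeq D K X τ j :=
  monotone_nat_of_le_succ (f := badSeq D K X τ) (fun j => badSeq_succ_subset D K X τ j) h

end Descend

open Descend

theorem descend (n : ℕ) (hn : 3 ≤ n) : ∃ a : ℕ, 1 ≤ a ∧ ∃ X₀ : ℝ, 1 ≤ X₀ ∧ ∀ X : ℝ, X₀ ≤ X →
    ∀ (D : Set (E n)) (f : E n → E n) (Df : E n → E n →L[ℝ] E n) (K : E n → ℝ), GM n D f Df K →
    ∀ (x₀ : E n), closedBall x₀ 3 ⊆ D → ∀ (k : ℕ), (k : ℝ) ≤ X → ∀ (x : E n) (s ρ : ℝ),
    x ∉ badSeq D K X (X ^ a)⁻¹ k → 0 < s → 0 < ρ → ρ ≤ 1 →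
    x ∈ comp f D x s → comp f D x s ⊆ closedBall x₀ (1 / 16) →
    comp f D x s ⊆ closedBall x (ρ * Real.exp (X ^ a)) →
    diam (f '' ball x ρ) ≤ s * Real.exp (X ^ a) →
    HasDeg f Df (comp f D x s) (ball (f x) s) k →
    Bloch f D (s * Real.exp (-(2 * k * X ^ a))) := by
  obtain ⟨a, ha, X₀, hX₀, hstep⟩ := step n hn
  refine ⟨a, ha, X₀, hX₀, ?_⟩
  intro X hX D f Df K H x₀ hD k
  have hXpos : 0 < X := by linarith
  have hXa : 0 < X ^ a := pow_pos hXpos a
  induction k using Nat.strong_induction_on with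
  | _ k ih =>
    intro hkX x s ρ hx hs hρ hρ1 hxc hsub hsub2 hdiam hdeg
    have hx0 : dist x x₀ ≤ 1 / 16 := by
      have := hsub hxc
      rwa [mem_closedBall] at this
    have hxD : closedBall x 2 ⊆ D := by
      refine (closedBall_subset_closedBall' ?_).trans hD
      linarith
    have hx_mem : x ∈ D := hxD (mem_closedBall_self (by norm_num))
    have hcl : closure (comp f D x s) ⊆ D := by
      refine (closure_minimal hsub isClosed_closedBall).trans ?_
      exact (closedBall_subset_closedBall (by norm_num)).trans hD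
    -- the degree is positive
    have hk : 1 ≤ k := by
      obtain ⟨k₁, hk₁, hdeg₁⟩ := H.comp_deg (by omega) hx_mem hs hcl
      have hle := HasDeg.le H.cont (isOpen_comp H.cont H.isOpen x s)
        (isOpen_comp H.cont H.isOpen x s) isOpen_ball (nonempty_ball.2 hs) isBounded_ball hdeg
        (subset_refl _) hdeg₁ (subset_refl _)
      omega
    -- typicality
    have htyp : Typ K x 1 X := by
      intro r hr hr1
      have h0 : x ∉ badSeq D K X (X ^ a)⁻¹ 0 := fun h => hx (badSeq_mono D K X _ (Nat.zero_le k) h)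
      have h1 : ¬ (ENNReal.ofReal (X * r ^ n) <
          ∫⁻ z in ball x r ∩ D, ENNReal.ofReal (K z) ^ (2 * n - 1)) := by
        intro hlt
        exact h0 ⟨r, hr, hr1, hlt⟩
      have h2 : ball x r ∩ D = ball x r := by
        refine inter_eq_left.2 ?_
        exact (ball_subset_closedBall.trans (closedBall_subset_closedBall (by linarith))).trans hxD
      rw [h2] at h1
      exact not_lt.1 h1
    have hsmall : comp f D x s ⊆ closedBall x (1 / 8) := by
      intro z hz
      have h1 := hsub hz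
      rw [mem_closedBall] at h1 ⊢
      calc dist z x ≤ dist z x₀ + dist x x₀ := dist_triangle_right _ _ _
        _ ≤ 1 / 16 + 1 / 16 := add_le_add h1 hx0
        _ = 1 / 8 := by norm_num
    have hZ : ∀ r : ℝ, 0 < r → r ≤ 1 →
        volume (badSeq D K X (X ^ a)⁻¹ (k - 1) ∩ ball x r) ≤
          ENNReal.ofReal ((X ^ a)⁻¹ * r ^ n) := by
      intro r hr hr1
      by_contra hlt
      push Not at hlt
      apply hx
      have : k = (k - 1) + 1 := by omega
      rw [this]
      exact Or.inr ⟨r, hr, hr1, hlt⟩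
    rcases hstep X hX D f Df K H (badSeq D K X (X ^ a)⁻¹ (k - 1)) x s ρ k hxD htyp hs hρ hρ1
      hsmall hsub2 hdiam hdeg hkX hZ with hB | ⟨x', hx', hx'Z, s', ρ', k', hs', hρ', hρ'1, hcc,
        hcc2, hdiam', hdeg', hk'⟩
    · refine Bloch.mono hB (by positivity) ?_ H.cont
      refine mul_le_mul_of_nonneg_left (Real.exp_le_exp.2 ?_) hs.le
      have h1 : (1 : ℝ) ≤ k := by exact_mod_cast hk
      have h2 : 2 * X ^ a ≤ 2 * k * X ^ a := by nlinarith
      linarith
    · have hs'pos : 0 < s' := lt_of_lt_of_le (by positivity) hs'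
      have hx'D : x' ∈ D := hcl (subset_closure hx')
      have hk'X : (k' : ℝ) ≤ X := by
        have : (k' : ℝ) ≤ k := by exact_mod_cast (by omega : k' ≤ k)
        linarith
      have hB := ih k' (by omega) hk'X x' s' ρ'
        (fun h => hx'Z (badSeq_mono D K X _ (by omega : k' ≤ k - 1) h)) hs'pos hρ' hρ'1
        (mem_comp hx'D hs'pos) (hcc.trans hsub) hcc2 hdiam' hdeg'
      refine Bloch.mono hB (by positivity) ?_ H.cont
      have h1 : (k' : ℝ) + 1 ≤ k := by exact_mod_cast hk'
      calc s * Real.exp (-(2 * k * X ^ a))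
          ≤ s * (Real.exp (-(2 * X ^ a)) * Real.exp (-(2 * k' * X ^ a))) := by
            refine mul_le_mul_of_nonneg_left ?_ hs.le
            rw [← Real.exp_add]
            apply Real.exp_le_exp.2
            nlinarith
        _ = (s * Real.exp (-(2 * X ^ a))) * Real.exp (-(2 * k' * X ^ a)) := by ring
        _ ≤ s' * Real.exp (-(2 * k' * X ^ a)) :=
            mul_le_mul_of_nonneg_right hs' (Real.exp_pos _).le

end Pool.Agent.MP_dd09c0_an
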