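import Pool.Agent.MP_dd09c0_an.HalfPair
import Pool.Agent.MP_dd09c0_an.Cap

/-!
# Lower bound for the energy
-/

open MeasureTheory Metric Set Filter Topology
open scoped ENNReal NNReal ContDiff RealInnerProductSpace

namespace Pool.Agent.MP_dd09c0_an

variable {n : ℕ}

namespace LowerAux

theorem lip_dist (x0 : E n) : LipschitzWith 1 (fun z : E n => dist z x0) :=
  LipschitzWith.dist_left x0

/-- a set meeting the spheres of radii in `(t0, ρ)` has a large distance image -/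
theorem volume_image {F : Set (E n)} {x0 : E n} {t0 ρ q : ℝ}
    (hF : ∀ t, t0 < t → t < ρ → ∃ z ∈ F, dist z x0 = t) (hq : q ≤ ρ - t0) :
    ENNReal.ofReal q ≤ volume ((fun z : E n => dist z x0) '' F) := by
  have h1 : Ioo t0 ρ ⊆ (fun z : E n => dist z x0) '' F := by
    intro t ht
    obtain ⟨z, hz, hzt⟩ := hF t ht.1 ht.2
    exact ⟨z, hz, hzt⟩
  refine le_trans ?_ (measure_mono h1)
  rw [Real.volume_Ioo]
  exact ENNReal.ofReal_le_ofReal hq

end LowerAux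

theorem energy_lower (n : ℕ) (hn : 2 ≤ n) : ∃ c : ℝ, 0 < c ∧ ∀ (f : E n → E n)
    (Df : E n → E n →L[ℝ] E n) (K : E n → ℝ), GM n (ball 0 8) f Df K →
    1 ≤ diam (f '' ball 0 1) → ENNReal.ofReal c ≤ ∫⁻ z in ball (0 : E n) 3, ‖Df z‖ₑ ^ pex n := by
  obtain ⟨c, hc, cap⟩ := cap_ball n hn
  have hpex : 0 ≤ pex n := by
    have : (2 : ℝ) ≤ n := by exact_mod_cast hn
    rw [pex]; linarith
  refine ⟨c * 3 ^ (1 / 2 : ℝ) / 3 ^ pex n, by positivity, ?_⟩
  intro f Df K H hdiam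
  have hD3 : closedBall (0 : E n) 3 ⊆ ball 0 8 := closedBall_subset_ball (by norm_num)
  -- two points
  obtain ⟨a, ha, b, hb, hab⟩ : ∃ a ∈ ball (0 : E n) 1, ∃ b ∈ ball (0 : E n) 1,
      9 / 10 < dist (f a) (f b) := by
    by_contra hcon
    push Not at hcon
    have : diam (f '' ball 0 1) ≤ 9 / 10 := by
      apply diam_le_of_forall_dist_le (by norm_num)
      rintro _ ⟨a, ha, rfl⟩ _ ⟨b, hb, rfl⟩
      exact hcon a ha b hb
    linarith
  have hd0 : 0 < dist (f a) (f b) := by linarith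
  have hsub : ball (0 : E n) 1 ⊆ ball 0 8 := ball_subset_ball (by norm_num)
  obtain ⟨w, L, F₁, F₂, hLn, hug, hmeas, m1, m2, w1, w2⟩ := HoelderAux.half_pair hn H (hsub ha)
    (hsub hb) (dist_pos.1 hd0) hD3 (mem_ball.1 ha).le (mem_ball.1 hb).le
  have hL3 : ‖L‖ ≤ 3 := by
    rw [hLn, div_le_iff₀ hd0]; linarith
  have v1 : ∀ F : Set (E n), (∀ t, 1 ≤ t → t ≤ 3 → ∃ z ∈ F, dist z 0 = t) →
      ENNReal.ofReal (3 / 256) ≤
        volume ((fun z : E n => dist z 0) '' (F ∩ ball 0 (3 / 2))) := by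
    intro F hF
    apply LowerAux.volume_image (t0 := 1) (ρ := 3 / 2) _ (by norm_num)
    intro t ht ht'
    obtain ⟨z, hz, hzt⟩ := hF t ht.le (by linarith)
    exact ⟨z, ⟨hz, mem_ball.2 (by rw [hzt]; exact ht')⟩, hzt⟩
  have key := cap (ball 0 8) w _ hug hmeas 0 3 (by norm_num) hD3 (F₁ ∩ ball 0 (3 / 2))
    (F₂ ∩ ball 0 (3 / 2)) inter_subset_right inter_subset_right (fun z hz => w1 z hz.1)
    (fun z hz => w2 z hz.1) _ _ (LowerAux.lip_dist 0) (LowerAux.lip_dist 0) (v1 F₁ m1) (v1 F₂ m2)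
  have s1 : ∫⁻ z in ball (0 : E n) 3, ‖L.comp (Df z)‖ₑ ^ pex n ≤
      ENNReal.ofReal (3 ^ pex n) * ∫⁻ z in ball (0 : E n) 3, ‖Df z‖ₑ ^ pex n := by
    rw [← lintegral_const_mul' _ _ ENNReal.ofReal_ne_top]
    refine lintegral_mono fun z => ?_
    simp only
    rw [← ENNReal.ofReal_rpow_of_nonneg (by norm_num) hpex, ← ENNReal.mul_rpow_of_nonneg _ _ hpex]
    apply ENNReal.rpow_le_rpow _ hpex
    rw [← ofReal_norm, ← ofReal_norm, ← ENNReal.ofReal_mul (by norm_num)]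
    apply ENNReal.ofReal_le_ofReal
    refine (ContinuousLinearMap.opNorm_comp_le _ _).trans ?_
    gcongr
  have h3 : ENNReal.ofReal (3 ^ pex n) ≠ 0 := by
    rw [Ne, ENNReal.ofReal_eq_zero, not_le]; positivity
  rw [ENNReal.ofReal_div_of_pos (by positivity)]
  rw [ENNReal.div_le_iff h3 ENNReal.ofReal_ne_top]
  exact (key.trans s1).trans (le_of_eq (mul_comm _ _))

end Pool.Agent.MP_dd09c0_an
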