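import Pool.Agent.MP_dd09c0_an.MaxFn

/-! Module S1: exceptional sets. -/

open MeasureTheory Metric Set Filter Topology
open scoped ENNReal NNReal ContDiff RealInnerProductSpace

namespace Pool.Agent.MP_dd09c0_an

variable {n : ℕ}

/-- Exceptional sets. -/
def badSeq (D : Set (E n)) (K : E n → ℝ) (X τ : ℝ) : ℕ → Set (E n)
  | 0 => {x | ∃ r : ℝ, 0 < r ∧ r ≤ 1 ∧
      ENNReal.ofReal (X * r ^ n) < ∫⁻ z in ball x r ∩ D, ENNReal.ofReal (K z) ^ (2 * n - 1)}
  | j + 1 => badSeq D K X τ j ∪ {x | ∃ r : ℝ, 0 < r ∧ r ≤ 1 ∧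
      ENNReal.ofReal (τ * r ^ n) < volume (badSeq D K X τ j ∩ ball x r)}

theorem badSeq_volume (n : ℕ) (hn : 1 ≤ n) : ∃ C : ℝ, 1 ≤ C ∧ ∀ (D : Set (E n)) (K : E n → ℝ)
    (X τ : ℝ) (j : ℕ), 0 < τ → τ ≤ 1 →
    volume (badSeq D K X τ j) ≤ ENNReal.ofReal ((C / τ) ^ j) * volume (badSeq D K X τ 0) := by
  obtain ⟨C, hC, hv⟩ := vitali_weak n hn
  refine ⟨1 + C, by linarith, fun D K X τ j hτ hτ1 => ?_⟩
  induction j with
  | zero => simp
  | succ j ih =>
    have h1 := hv (volume.restrict (badSeq D K X τ j)) τ 1 hτ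
    have e1 : {x : E n | ∃ r, 0 < r ∧ r ≤ 1 ∧
        ENNReal.ofReal (τ * r ^ n) < (volume.restrict (badSeq D K X τ j)) (ball x r)} =
        {x | ∃ r : ℝ, 0 < r ∧ r ≤ 1 ∧
          ENNReal.ofReal (τ * r ^ n) < volume (badSeq D K X τ j ∩ ball x r)} := by
      ext x
      simp only [mem_ofPred_eq]
      refine exists_congr fun r => and_congr_right fun _ => and_congr_right fun _ => ?_
      rw [Measure.restrict_apply measurableSet_ball, inter_comm]
    rw [e1, Measure.restrict_apply MeasurableSet.univ, univ_inter] at h1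
    have h2 : volume (badSeq D K X τ (j + 1)) ≤
        (1 + ENNReal.ofReal (C / τ)) * volume (badSeq D K X τ j) := by
      rw [add_mul, one_mul]
      exact (measure_union_le _ _).trans (add_le_add le_rfl h1)
    have h3 : 1 + ENNReal.ofReal (C / τ) ≤ ENNReal.ofReal ((1 + C) / τ) := by
      rw [← ENNReal.ofReal_one, ← ENNReal.ofReal_add zero_le_one (by positivity)]
      refine ENNReal.ofReal_le_ofReal ?_
      rw [add_div]
      have : 1 ≤ 1 / τ := by rw [le_div_iff₀ hτ]; linarith
      linarith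
    calc volume (badSeq D K X τ (j + 1))
        ≤ (1 + ENNReal.ofReal (C / τ)) * volume (badSeq D K X τ j) := h2
      _ ≤ ENNReal.ofReal ((1 + C) / τ) *
          (ENNReal.ofReal (((1 + C) / τ) ^ j) * volume (badSeq D K X τ 0)) := by gcongr
      _ = ENNReal.ofReal (((1 + C) / τ) ^ (j + 1)) * volume (badSeq D K X τ 0) := by
          rw [← mul_assoc, ← ENNReal.ofReal_mul (by positivity), ← pow_succ']

namespace Exc

/-- Powers are dominated by exponentials. -/
theorem pow_le_exp (k : ℕ) {m : ℝ} (hm : 0 < m) : ∃ C : ℝ, 1 ≤ C ∧ ∀ t : ℝ, 0 ≤ t →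
    t ^ k ≤ C * Real.exp (m * t) := by
  refine ⟨max 1 ((k.factorial : ℝ) / m ^ k), le_max_left _ _, fun t ht => ?_⟩
  have h1 : (m * t) ^ k / (k.factorial : ℝ) ≤ Real.exp (m * t) :=
    Real.pow_div_factorial_le_exp (m * t) (by positivity) k
  have hf : (0 : ℝ) < (k.factorial : ℝ) := by exact_mod_cast Nat.factorial_pos k
  calc t ^ k = (k.factorial : ℝ) / m ^ k * ((m * t) ^ k / (k.factorial : ℝ)) := by
        rw [mul_pow]; field_simp
    _ ≤ max 1 ((k.factorial : ℝ) / m ^ k) * Real.exp (m * t) :=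
        mul_le_mul (le_max_right _ _) h1 (by positivity) (by positivity)

theorem volume_ball_eq (n : ℕ) (x : E n) {r : ℝ} (hr : 0 < r) :
    volume (ball x r) = ENNReal.ofReal ((volume (ball (0 : E n) 1)).toReal * r ^ n) := by
  rw [Measure.addHaar_ball_of_pos volume x hr, finrank_euclideanSpace, Fintype.card_fin,
    mul_comm, ENNReal.ofReal_mul ENNReal.toReal_nonneg,
    ENNReal.ofReal_toReal measure_ball_lt_top.ne]

end Exc

theorem badSeq_zero (n : ℕ) (hn : 2 ≤ n) (m : ℝ) (hm : 0 < m) : ∃ c C : ℝ, 0 < c ∧ 1 ≤ C ∧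
    ∀ (D : Set (E n)) (K : E n → ℝ) (X τ : ℝ), MeasurableSet D → Measurable K →
    (∀ x, 1 ≤ K x) → 1 ≤ X →
    volume (badSeq D K X τ 0) ≤ ENNReal.ofReal (C * Real.exp (-(c * X ^ (1 / (2 * n - 1) : ℝ)))) *
      ∫⁻ z in D, ENNReal.ofReal (Real.exp (m * K z)) := by
  obtain ⟨C, hC, hv⟩ := vitali_weak n (by omega)
  obtain ⟨C', hC', hp⟩ := Exc.pow_le_exp (2 * n - 1) (m := m / 2) (by positivity)
  set v : ℝ := (volume (ball (0 : E n) 1)).toReal with hvdef
  have hv0 : 0 < v := ENNReal.toReal_pos (measure_ball_pos volume _ one_pos).ne'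
    measure_ball_lt_top.ne
  set α : ℝ := (1 / (2 * n - 1) : ℝ) with hα
  have hn1 : (0 : ℝ) < 2 * n - 1 := by
    have : (2 : ℝ) ≤ n := by exact_mod_cast hn
    linarith
  have hcast : (((2 * n - 1 : ℕ) : ℝ)) = 2 * n - 1 := by
    rw [Nat.cast_sub (by omega)]; push_cast; ring
  have hα0 : 0 < α := by positivity
  set b : ℝ := (1 / (2 * v)) ^ α with hb
  have hb0 : 0 < b := by positivity
  refine ⟨m / 2 * b, 2 * C * C', by positivity, by nlinarith, fun D K X τ hD hK hK1 hX => ?_⟩
  set lam : ℝ := b * X ^ α with hlam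
  have hX0 : 0 < X := by linarith
  have hlam0 : 0 < lam := by positivity
  have hlamp : lam ^ (2 * n - 1) = X / (2 * v) := by
    rw [hlam, hb, ← Real.mul_rpow (by positivity) hX0.le, ← Real.rpow_natCast, ← Real.rpow_mul
      (by positivity), hcast, hα, one_div_mul_cancel hn1.ne', Real.rpow_one]
    ring
  -- the restricted measure
  set G : E n → ℝ≥0∞ := fun z => ENNReal.ofReal (K z) ^ (2 * n - 1) with hG
  have hGm : Measurable G := (ENNReal.measurable_ofReal.comp hK).pow_const _
  set S : Set (E n) := D ∩ {z | lam < K z} with hS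
  have hSm : MeasurableSet S := hD.inter (measurableSet_lt measurable_const hK)
  set ν : Measure (E n) := (volume.restrict S).withDensity G with hν
  have hsub : badSeq D K X τ 0 ⊆ {x : E n | ∃ r, 0 < r ∧ r ≤ 1 ∧
      ENNReal.ofReal (X / 2 * r ^ n) < ν (ball x r)} := by
    rintro x ⟨r, hr0, hr1, hr⟩
    refine ⟨r, hr0, hr1, ?_⟩
    have e1 : ν (ball x r) = ∫⁻ z in ball x r ∩ S, G z := by
      rw [hν, withDensity_apply _ measurableSet_ball, Measure.restrict_restrict measurableSet_ball]
    have h1 : ∫⁻ z in ball x r ∩ D, G z ≤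
        ENNReal.ofReal (X / 2 * r ^ n) + ∫⁻ z in ball x r ∩ S, G z := by
      have hset : ball x r ∩ D = (ball x r ∩ (D ∩ {z | K z ≤ lam})) ∪ (ball x r ∩ S) := by
        ext z
        simp only [hS, mem_inter_iff, mem_union, mem_ofPred_eq]
        constructor
        · rintro ⟨h1, h2⟩
          rcases le_or_gt (K z) lam with h | h
          · exact Or.inl ⟨h1, h2, h⟩
          · exact Or.inr ⟨h1, h2, h⟩
        · rintro (⟨h1, h2, -⟩ | ⟨h1, h2, -⟩) <;> exact ⟨h1, h2⟩
      rw [hset]
      refine (lintegral_union_le G _ _).trans (add_le_add ?_ le_rfl)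
      have hb1 : ∫⁻ z in ball x r ∩ (D ∩ {z | K z ≤ lam}), G z ≤
          ∫⁻ _ in ball x r ∩ (D ∩ {z | K z ≤ lam}), ENNReal.ofReal lam ^ (2 * n - 1) := by
        refine setLIntegral_mono measurable_const fun z hz => ?_
        exact pow_le_pow_left₀ zero_le (ENNReal.ofReal_le_ofReal hz.2.2) _
      refine hb1.trans ?_
      rw [setLIntegral_const]
      calc ENNReal.ofReal lam ^ (2 * n - 1) * volume (ball x r ∩ (D ∩ {z | K z ≤ lam}))
          ≤ ENNReal.ofReal lam ^ (2 * n - 1) * volume (ball x r) := by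
            gcongr
            exact inter_subset_left
        _ = ENNReal.ofReal (X / 2 * r ^ n) := by
            rw [Exc.volume_ball_eq n x hr0, ← ENNReal.ofReal_pow hlam0.le,
              ← ENNReal.ofReal_mul (by positivity), hlamp, ← hvdef]
            congr 1
            field_simp
    rw [e1]
    have h2 : ENNReal.ofReal (X * r ^ n) =
        ENNReal.ofReal (X / 2 * r ^ n) + ENNReal.ofReal (X / 2 * r ^ n) := by
      rw [← ENNReal.ofReal_add (by positivity) (by positivity)]
      congr 1; ring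
    have h3 := hr.trans_le h1
    rw [h2] at h3
    exact (ENNReal.add_lt_add_iff_left ENNReal.ofReal_ne_top).1 h3
  have h1 := hv ν (X / 2) 1 (by positivity)
  have hνu : ν univ ≤ ENNReal.ofReal (C' * Real.exp (-(m / 2 * lam))) *
      ∫⁻ z in D, ENNReal.ofReal (Real.exp (m * K z)) := by
    rw [hν, withDensity_apply _ MeasurableSet.univ, Measure.restrict_univ,
      ← lintegral_const_mul' _ _ ENNReal.ofReal_ne_top]
    calc ∫⁻ z in S, G z ≤ ∫⁻ z in S, ENNReal.ofReal (C' * Real.exp (-(m / 2 * lam))) *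
          ENNReal.ofReal (Real.exp (m * K z)) := by
            refine setLIntegral_mono ?_ fun z hz => ?_
            · exact (Real.measurable_exp.comp (hK.const_mul m)).ennreal_ofReal.const_mul _
            · have hKz : lam < K z := hz.2
              have hKz0 : 0 ≤ K z := by linarith [hK1 z]
              rw [← ENNReal.ofReal_mul (by positivity), hG]
              simp only
              rw [← ENNReal.ofReal_pow hKz0]
              refine ENNReal.ofReal_le_ofReal ?_
              calc K z ^ (2 * n - 1) ≤ C' * Real.exp (m / 2 * K z) := hp _ hKz0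
                _ ≤ C' * (Real.exp (-(m / 2 * lam)) * Real.exp (m * K z)) := by
                    rw [← Real.exp_add]
                    gcongr
                    nlinarith
                _ = _ := by ring
      _ ≤ ∫⁻ z in D, ENNReal.ofReal (C' * Real.exp (-(m / 2 * lam))) *
          ENNReal.ofReal (Real.exp (m * K z)) := lintegral_mono_set inter_subset_left
  calc volume (badSeq D K X τ 0)
      ≤ volume {x : E n | ∃ r, 0 < r ∧ r ≤ 1 ∧
          ENNReal.ofReal (X / 2 * r ^ n) < ν (ball x r)} := measure_mono hsub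
    _ ≤ ENNReal.ofReal (C / (X / 2)) * ν univ := h1
    _ ≤ ENNReal.ofReal (2 * C) * (ENNReal.ofReal (C' * Real.exp (-(m / 2 * lam))) *
          ∫⁻ z in D, ENNReal.ofReal (Real.exp (m * K z))) := by
        gcongr
        rw [div_le_iff₀ (by positivity)]
        nlinarith
    _ = _ := by
        rw [← mul_assoc, ← ENNReal.ofReal_mul (by positivity)]
        congr 2
        rw [hlam]
        ring_nf

end Pool.Agent.MP_dd09c0_an
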