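import Pool.Agent.MP_dd09c0_an.Push
import Pool.Agent.MP_dd09c0_an.WDcalc
import Pool.Agent.MP_dd09c0_an.Energy
import Pool.Agent.MP_dd09c0_an.CompDeg

/-!
# MP_dd09c0_an, module Q2: the fibre function
-/

open MeasureTheory Metric Set Filter Topology
open scoped ENNReal NNReal ContDiff RealInnerProductSpace

namespace Pool.Agent.MP_dd09c0_an

namespace Fiber

open Push

variable {n : ℕ}

section mass
variable {D : Set (E n)} {f : E n → E n} {Df : E n → E n →L[ℝ] E n} {K : E n → ℝ}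
  (φ : ContDiffBump (0 : E n))

lemma det_nonneg (H : GM n D f Df K) (x : E n) : 0 ≤ (Df x).det := by
  have h1 := H.dist_le x
  have h2 := H.one_le x
  have h3 : 0 ≤ ‖Df x‖ ^ n := by positivity
  by_contra h
  push Not at h
  nlinarith

lemma det_measurable (H : GM n D f Df K) : Measurable (fun x => (Df x).det) :=
  ContinuousLinearMap.continuous_det.measurable.comp H.meas

/-- the total mass of the mollified fibre -/
lemma mass (H : GM n D f Df K) {V : Set (E n)} (hV : MeasurableSet V) {y₀ : E n} {s₅ : ℝ}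
    {k : ℕ} (hdeg : HasDeg f Df V (ball y₀ s₅) k) {y : E n}
    (hy : ball y φ.rOut ⊆ ball y₀ s₅) :
    ∫⁻ w in V, ENNReal.ofReal (φ.normed volume (y - f w)) * ENNReal.ofReal (Df w).det = k := by
  have hfm : Measurable f := H.cont.measurable
  have hms : MeasurableSet (f ⁻¹' ball y₀ s₅) := hfm measurableSet_ball
  have hz : ∀ z, z ∉ ball y₀ s₅ → φ.normed volume (y - z) = 0 := by
    intro z hz
    refine rho_eq_zero φ ?_
    by_contra h
    push Not at h
    apply hz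
    apply hy
    rwa [mem_ball, dist_comm, dist_eq_norm]
  have h1 : ∫⁻ w in V, ENNReal.ofReal (φ.normed volume (y - f w)) * ENNReal.ofReal (Df w).det =
      ∫⁻ w in V ∩ f ⁻¹' ball y₀ s₅,
        ENNReal.ofReal (φ.normed volume (y - f w)) * ENNReal.ofReal (Df w).det := by
    rw [← lintegral_inter_add_sdiff _ V hms]
    rw [show ∫⁻ w in V \ f ⁻¹' ball y₀ s₅, ENNReal.ofReal (φ.normed volume (y - f w)) *
      ENNReal.ofReal (Df w).det = 0 from ?_, add_zero]
    refine (setLIntegral_congr_fun (hV.diff hms) fun x hx => ?_).trans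
      (lintegral_zero (μ := volume.restrict _))
    show ENNReal.ofReal (φ.normed volume (y - f x)) * _ = 0
    rw [hz _ hx.2, ENNReal.ofReal_zero, zero_mul]
  have hm : Measurable (fun z : E n => ENNReal.ofReal (φ.normed volume (y - z))) :=
    (φ.continuous_normed.measurable.comp (measurable_const.sub measurable_id)).ennreal_ofReal
  rw [h1, hdeg (fun z => ENNReal.ofReal (φ.normed volume (y - z))) hm]
  have h2 : ∫⁻ z in ball y₀ s₅, ENNReal.ofReal (φ.normed volume (y - z)) = 1 := by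
    rw [← rho_lintegral φ y, setLIntegral_eq_of_support_subset]
    intro z hz'
    by_contra h
    apply hz'
    show ENNReal.ofReal (φ.normed volume (y - z)) = 0
    rw [hz z h, ENNReal.ofReal_zero]
  rw [h2, mul_one]

end mass

section Q
variable {D : Set (E n)} {f : E n → E n} {Df : E n → E n →L[ℝ] E n} {K : E n → ℝ}
  (φ : ContDiffBump (0 : E n))

/-- push-forward of the smooth function `q` -/
noncomputable def QT (φ : ContDiffBump (0 : E n)) (V : Set (E n)) (f : E n → E n)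
    (Df : E n → E n →L[ℝ] E n) (q : E n → ℝ) : E n → ℝ :=
  T (volume.restrict V) f (fun w => q w * (Df w).det) (φ.normed volume)

lemma QT_eq (V : Set (E n)) (q : E n → ℝ) :
    QT φ V f Df q = fun y => ∫ x in V, q x * φ.normed volume (y - f x) * (Df x).det := by
  funext y
  rw [QT, T]
  congr 1
  funext x
  rw [smul_eq_mul]
  ring

lemma g_int (H : GM n D f Df K) {V : Set (E n)} (hV : IsOpen V) (hVD : closure V ⊆ D)
    {q : E n → ℝ} (hq : Continuous q) :
    Integrable (fun w => q w * (Df w).det) (volume.restrict V) := by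
  have hVb : Bornology.IsBounded V := H.bdd.subset (subset_closure.trans hVD)
  obtain ⟨c, hc⟩ := hVb.isCompact_closure.exists_bound_of_continuousOn hq.continuousOn
  have hJint : Integrable (fun x => (Df x).det) (volume.restrict V) :=
    H.intJ.mono_set (subset_closure.trans hVD)
  refine hJint.bdd_mul (c := c) hq.aestronglyMeasurable ?_
  filter_upwards [ae_restrict_mem hV.measurableSet] with x hx
  exact hc x (subset_closure hx)

lemma QT_contDiff (H : GM n D f Df K) {V : Set (E n)} (hV : IsOpen V) (hVD : closure V ⊆ D)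
    {q : E n → ℝ} (hq : Continuous q) : ContDiff ℝ ∞ (QT φ V f Df q) :=
  contDiff_T_top H.cont.measurable (g_int H hV hVD hq) (rho_contDiff φ) (rho_compact φ)

lemma QT_comb (H : GM n D f Df K) {V : Set (E n)} (hV : IsOpen V) (hVD : closure V ⊆ D)
    {q₂ : E n → ℝ} (hq₂ : Continuous q₂) {q : Fin n → E n → ℝ} (hq : ∀ i, Continuous (q i))
    (c : Fin n → ℝ) (a : ℝ) (y : E n) :
    QT φ V f Df (fun w => q₂ w - 2 * ∑ i, c i * q i w + a) y =
      QT φ V f Df q₂ y - 2 * ∑ i, c i * QT φ V f Df (q i) y + a * QT φ V f Df (fun _ => 1) y := by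
  have hi : ∀ {r : E n → ℝ}, Continuous r →
      Integrable (fun w => (r w * (Df w).det) • φ.normed volume (y - f w)) (volume.restrict V) :=
    fun {r} hr => integrable_T H.cont.measurable (g_int H hV hVD hr) φ.continuous_normed
      (rho_compact φ) y
  have i2 := hi hq₂
  have iq := fun i => hi (hq i)
  have i0 := hi (continuous_const (y := (1 : ℝ)))
  have isub : Integrable (fun w => (q₂ w * (Df w).det) • φ.normed volume (y - f w) -
      2 * ∑ i, c i * (q i w * (Df w).det) • φ.normed volume (y - f w)) (volume.restrict V) :=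
    i2.sub ((integrable_finsetSum _ fun i _ => (iq i).const_mul _).const_mul _)
  simp only [QT, T]
  rw [← integral_const_mul, ← Finset.sum_congr rfl fun i _ => integral_const_mul _ _,
    ← integral_finsetSum _ fun i _ => (iq i).const_mul _, ← integral_const_mul,
    ← integral_sub i2 ((integrable_finsetSum _ fun i _ => (iq i).const_mul _).const_mul _),
    ← integral_add isub (i0.const_mul _)]
  congr 1
  funext w
  simp only [smul_eq_mul]
  have e : ∑ i, c i * (q i w * (Df w).det * φ.normed volume (y - f w)) =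
      (∑ i, c i * q i w) * (Df w).det * φ.normed volume (y - f w) := by
    rw [Finset.sum_mul, Finset.sum_mul]
    exact Finset.sum_congr rfl fun i _ => by ring
  rw [e]
  ring

lemma ofReal_QT (H : GM n D f Df K) {V : Set (E n)} (hV : IsOpen V) (hVD : closure V ⊆ D)
    {q : E n → ℝ} (hq : Continuous q) (hq0 : ∀ w, 0 ≤ q w) (y : E n) :
    ENNReal.ofReal (QT φ V f Df q y) = ∫⁻ w in V, ENNReal.ofReal (q w) *
      (ENNReal.ofReal (φ.normed volume (y - f w)) * ENNReal.ofReal (Df w).det) := by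
  rw [QT, T, ofReal_integral_eq_lintegral_ofReal
    (integrable_T H.cont.measurable (g_int H hV hVD hq) φ.continuous_normed (rho_compact φ) y)
    (Eventually.of_forall fun w => ?_)]
  · refine lintegral_congr fun w => ?_
    rw [smul_eq_mul, ENNReal.ofReal_mul (mul_nonneg (hq0 w) (det_nonneg H w)),
      ENNReal.ofReal_mul (hq0 w)]
    ring
  · exact mul_nonneg (mul_nonneg (hq0 w) (det_nonneg H w)) (φ.nonneg_normed _)

lemma QT_nonneg (H : GM n D f Df K) {V : Set (E n)}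
    {q : E n → ℝ} (hq0 : ∀ w, 0 ≤ q w) (y : E n) : 0 ≤ QT φ V f Df q y :=
  integral_nonneg fun w => mul_nonneg (mul_nonneg (hq0 w) (det_nonneg H w)) (φ.nonneg_normed _)

/-- `Q_0 = k` -/
lemma QT_one (H : GM n D f Df K) {V : Set (E n)} (hV : IsOpen V) (hVD : closure V ⊆ D)
    {y₀ : E n} {s₅ : ℝ} {k : ℕ} (hdeg : HasDeg f Df V (ball y₀ s₅) k) {y : E n}
    (hy : ball y φ.rOut ⊆ ball y₀ s₅) : QT φ V f Df (fun _ => 1) y = k := by
  have h1 := ofReal_QT φ H hV hVD (continuous_const (y := (1 : ℝ))) (fun _ => zero_le_one) y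
  simp only [ENNReal.ofReal_one, one_mul] at h1
  rw [mass φ H hV.measurableSet hdeg hy] at h1
  have h2 := congrArg ENNReal.toReal h1
  rwa [ENNReal.toReal_ofReal (QT_nonneg φ H (fun _ => zero_le_one) y), ENNReal.toReal_natCast]
    at h2

/-- bound for `Q` -/
lemma abs_QT_le (H : GM n D f Df K) {V : Set (E n)} (hV : IsOpen V) (hVD : closure V ⊆ D)
    {y₀ : E n} {s₅ : ℝ} {k : ℕ} (hdeg : HasDeg f Df V (ball y₀ s₅) k) {y : E n}
    (hy : ball y φ.rOut ⊆ ball y₀ s₅) {q : E n → ℝ} {R : ℝ} (hR : ∀ w ∈ V, |q w| ≤ R) :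
    |QT φ V f Df q y| ≤ R * k := by
  rw [← QT_one φ H hV hVD hdeg hy, QT, QT, T, T, ← integral_const_mul, ← Real.norm_eq_abs]
  refine norm_integral_le_of_norm_le ?_ ?_
  · exact (integrable_T H.cont.measurable (g_int H hV hVD continuous_const) φ.continuous_normed
      (rho_compact φ) y).const_mul _
  · filter_upwards [ae_restrict_mem hV.measurableSet] with w hw
    rw [norm_smul, norm_mul, Real.norm_of_nonneg (det_nonneg H w),
      Real.norm_of_nonneg (φ.nonneg_normed _), one_mul, smul_eq_mul, Real.norm_eq_abs, mul_assoc]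
    exact mul_le_mul_of_nonneg_right (hR w hw)
      (mul_nonneg (det_nonneg H w) (φ.nonneg_normed _))

end Q

section Phi

/-- the function `Φ` -/
noncomputable def Phi (x : E n) (Q₂ Q₀ : E n → ℝ) (Q : Fin n → E n → ℝ) (p : E n × E n) : ℝ :=
  Q₂ p.2 - 2 * ∑ i, (p.1 - x) i * Q i p.2 + ‖p.1 - x‖ ^ 2 * Q₀ p.2

lemma Phi_contDiff (x : E n) {Q₂ Q₀ : E n → ℝ} {Q : Fin n → E n → ℝ} (h2 : ContDiff ℝ ∞ Q₂)
    (h0 : ContDiff ℝ ∞ Q₀) (hQ : ∀ i, ContDiff ℝ ∞ (Q i)) : ContDiff ℝ ∞ (Phi x Q₂ Q₀ Q) := by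
  have hc : ∀ i, ContDiff ℝ ∞ (fun p : E n × E n => (p.1 - x) i) := by
    intro i
    have h1 : ContDiff ℝ ∞ (fun p : E n × E n => p.1 - x) := contDiff_fst.sub contDiff_const
    exact (EuclideanSpace.proj i : E n →L[ℝ] ℝ).contDiff.comp h1
  refine ((h2.comp contDiff_snd).sub (contDiff_const.mul (ContDiff.sum fun i _ =>
    (hc i).mul ((hQ i).comp contDiff_snd)))).add ?_
  exact ((contDiff_fst.sub contDiff_const).norm_sq ℝ).mul (h0.comp contDiff_snd)

lemma Phi_fderiv (x : E n) {Q₂ Q₀ : E n → ℝ} {Q : Fin n → E n → ℝ} (h2 : Differentiable ℝ Q₂)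
    (h0 : Differentiable ℝ Q₀) (hQ : ∀ i, Differentiable ℝ (Q i)) (p : E n × E n) (v w : E n) :
    fderiv ℝ (Phi x Q₂ Q₀ Q) p (v, w) = fderiv ℝ Q₂ p.2 w
      - 2 * ∑ i, ((p.1 - x) i * fderiv ℝ (Q i) p.2 w + Q i p.2 * v i)
      + (‖p.1 - x‖ ^ 2 * fderiv ℝ Q₀ p.2 w + Q₀ p.2 * (2 * inner ℝ (p.1 - x) v)) := by
  have hs : ∀ {q : E n → ℝ}, Differentiable ℝ q → HasFDerivAt (fun p : E n × E n => q p.2)
      ((fderiv ℝ q p.2).comp (ContinuousLinearMap.snd ℝ (E n) (E n))) p := fun {q} hq =>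
    (hq p.2).hasFDerivAt.comp p hasFDerivAt_snd
  have hf : HasFDerivAt (fun p : E n × E n => p.1 - x) (ContinuousLinearMap.fst ℝ (E n) (E n)) p :=
    hasFDerivAt_fst.sub_const x
  have hi : ∀ i, HasFDerivAt (fun p : E n × E n => (p.1 - x) i)
      ((EuclideanSpace.proj i : E n →L[ℝ] ℝ).comp (ContinuousLinearMap.fst ℝ (E n) (E n))) p :=
    fun i => (EuclideanSpace.proj i : E n →L[ℝ] ℝ).hasFDerivAt.comp p hf
  have hn : HasFDerivAt (fun p : E n × E n => ‖p.1 - x‖ ^ 2)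
      ((2 • (innerSL ℝ (p.1 - x))).comp (ContinuousLinearMap.fst ℝ (E n) (E n))) p :=
    HasFDerivAt.comp (g := fun y : E n => ‖y‖ ^ 2) p
      (hasStrictFDerivAt_norm_sq (p.1 - x)).hasFDerivAt hf
  have key := ((hs h2).sub ((HasFDerivAt.fun_sum fun i (_ : i ∈ Finset.univ) =>
    (hi i).mul (hs (hQ i))).const_mul 2)).add (hn.mul (hs h0))
  have : fderiv ℝ (Phi x Q₂ Q₀ Q) p = _ := key.fderiv
  rw [this]
  simp
  left
  rw [inner_sub_left]

lemma norm_l_le (x : E n) {Q₂ Q₀ : E n → ℝ} {Q : Fin n → E n → ℝ} (h2 : Differentiable ℝ Q₂)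
    (h0 : Differentiable ℝ Q₀) (hQ : ∀ i, Differentiable ℝ (Q i)) {z y : E n} {R k : ℝ}
    (hR : 0 ≤ R) (hk : 0 ≤ k) (hz : ‖z - x‖ ≤ R) (hQi : ∀ i, |Q i y| ≤ R * k) (hQ0 : Q₀ y = k)
    (hQ0' : fderiv ℝ Q₀ y = 0) (A : E n →L[ℝ] E n) :
    ‖(fderiv ℝ (Phi x Q₂ Q₀ Q) (z, y)).comp ((ContinuousLinearMap.id ℝ (E n)).prod A)‖ ≤
      (2 * n + 2) * R * k +
        (‖fderiv ℝ Q₂ y‖ + ∑ i, 2 * R * ‖fderiv ℝ (Q i) y‖) * ‖A‖ := by
  refine ContinuousLinearMap.opNorm_le_bound _ (by positivity) fun v => ?_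
  have e : ((fderiv ℝ (Phi x Q₂ Q₀ Q) (z, y)).comp ((ContinuousLinearMap.id ℝ (E n)).prod A)) v =
      fderiv ℝ (Phi x Q₂ Q₀ Q) (z, y) (v, A v) := rfl
  rw [e, Phi_fderiv x h2 h0 hQ]
  simp only [hQ0', hQ0]
  have hAv : ‖A v‖ ≤ ‖A‖ * ‖v‖ := A.le_opNorm v
  have t1 : |fderiv ℝ Q₂ y (A v)| ≤ ‖fderiv ℝ Q₂ y‖ * (‖A‖ * ‖v‖) :=
    ((fderiv ℝ Q₂ y).le_opNorm (A v)).trans (mul_le_mul_of_nonneg_left hAv (norm_nonneg _))
  have t2 : ∀ i, |(z - x) i * fderiv ℝ (Q i) y (A v) + Q i y * v i| ≤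
      R * ‖fderiv ℝ (Q i) y‖ * (‖A‖ * ‖v‖) + R * k * ‖v‖ := by
    intro i
    refine (abs_add_le _ _).trans (add_le_add ?_ ?_)
    · rw [abs_mul, mul_assoc]
      refine mul_le_mul ((PiLp.norm_apply_le (z - x) i).trans hz) ?_ (abs_nonneg _) hR
      exact ((fderiv ℝ (Q i) y).le_opNorm (A v)).trans
        (mul_le_mul_of_nonneg_left hAv (norm_nonneg _))
    · rw [abs_mul]
      exact mul_le_mul (hQi i) (PiLp.norm_apply_le v i) (abs_nonneg _) (by positivity)
  have t3 : |∑ i, ((z - x) i * fderiv ℝ (Q i) y (A v) + Q i y * v i)| ≤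
      (∑ i, R * ‖fderiv ℝ (Q i) y‖) * (‖A‖ * ‖v‖) + n * (R * k * ‖v‖) := by
    refine (Finset.abs_sum_le_sum_abs _ _).trans ((Finset.sum_le_sum fun i _ => t2 i).trans ?_)
    rw [Finset.sum_add_distrib, ← Finset.sum_mul, Finset.sum_const, Finset.card_univ,
      Fintype.card_fin, nsmul_eq_mul]
  have t4 : |k * (2 * inner ℝ (z - x) v)| ≤ k * (2 * (R * ‖v‖)) := by
    rw [abs_mul, abs_mul, abs_two, abs_of_nonneg hk]
    have := (abs_real_inner_le_norm (z - x) v).trans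
      (mul_le_mul_of_nonneg_right hz (norm_nonneg v))
    gcongr
  have t5 : ∑ i, 2 * R * ‖fderiv ℝ (Q i) y‖ = 2 * ∑ i, R * ‖fderiv ℝ (Q i) y‖ := by
    rw [Finset.mul_sum]
    exact Finset.sum_congr rfl fun i _ => by ring
  rw [Real.norm_eq_abs, t5]
  simp only [zero_apply, mul_zero, zero_add]
  calc _ ≤ |fderiv ℝ Q₂ y (A v)| + 2 * |∑ i, ((z - x) i * fderiv ℝ (Q i) y (A v) + Q i y * v i)| +
        |k * (2 * inner ℝ (z - x) v)| := by
        refine (abs_add_le _ _).trans (add_le_add ?_ le_rfl)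
        refine (abs_sub _ _).trans (add_le_add le_rfl ?_)
        rw [abs_mul, abs_two]
    _ ≤ _ := by nlinarith [t1, t3, t4]

end Phi

section energy

/-- power mean for natural exponents in `ℝ≥0∞` -/
lemma sum_pow_le {ι : Type*} [Fintype ι] (hn : 1 ≤ n) (b : ι → ℝ≥0∞) :
    (∑ j, b j) ^ n ≤ (Fintype.card ι : ℝ≥0∞) ^ (n - 1) * ∑ j, b j ^ n := by
  have h1 : (1 : ℝ) ≤ n := by exact_mod_cast hn
  have := ENNReal.rpow_sum_le_const_mul_sum_rpow Finset.univ b h1
  have e : ((n : ℝ) - 1) = ((n - 1 : ℕ) : ℝ) := by rw [Nat.cast_sub hn, Nat.cast_one]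
  rw [e] at this
  simpa [ENNReal.rpow_natCast, Finset.card_univ] using this

lemma arith1 (hn : 3 ≤ n) {R X : ℝ} (hR : 0 < R) (hX : 1 ≤ X) :
    ((2 * n + 2) * R * X) ^ pex n * R ^ n ≤
      (2 * n + 2) ^ n * (X ^ (4 * n) * R ^ (2 * n - 1 / 2 : ℝ)) := by
  have hn0 : (3 : ℝ) ≤ n := by exact_mod_cast hn
  have hp : pex n ≤ n := by rw [pex]; linarith
  have hp0 : 0 ≤ pex n := by rw [pex]; linarith
  rw [show (2 * (n : ℝ) + 2) * R * X = (2 * n + 2) * (X * R) by ring,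
    Real.mul_rpow (by positivity) (by positivity), Real.mul_rpow (by positivity) hR.le]
  have h1 : (2 * (n : ℝ) + 2) ^ pex n ≤ (2 * n + 2) ^ n := by
    rw [← Real.rpow_natCast]
    exact Real.rpow_le_rpow_of_exponent_le (by linarith) hp
  have h2 : X ^ pex n ≤ X ^ (4 * n) := by
    rw [← Real.rpow_natCast]
    refine Real.rpow_le_rpow_of_exponent_le hX ?_
    push_cast
    linarith
  have h3 : R ^ pex n * R ^ n = R ^ (2 * n - 1 / 2 : ℝ) := by
    rw [← Real.rpow_natCast, ← Real.rpow_add hR]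
    congr 1
    rw [pex]
    ring
  calc (2 * (n : ℝ) + 2) ^ pex n * (X ^ pex n * R ^ pex n) * R ^ n
      = (2 * (n : ℝ) + 2) ^ pex n * (X ^ pex n * (R ^ pex n * R ^ n)) := by ring
    _ ≤ _ := by
      rw [h3]
      gcongr

lemma arith2 (hn : 3 ≤ n) {R X C₃ : ℝ} (hR : 0 < R) (hX : 1 ≤ X) (hC : 1 ≤ C₃) :
    (C₃ * X ^ (n + 1) * R ^ (2 * n)) ^ (1 - 1 / (2 * n) : ℝ) * (X * R ^ n) ^ (1 / (2 * n) : ℝ) ≤
      C₃ * (X ^ (4 * n) * R ^ (2 * n - 1 / 2 : ℝ)) := by
  have hn0 : (3 : ℝ) ≤ n := by exact_mod_cast hn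
  have hθ : (0 : ℝ) ≤ 1 - 1 / (2 * n) := by
    rw [sub_nonneg, div_le_one (by positivity)]
    linarith
  have hθ1 : (1 : ℝ) - 1 / (2 * n) ≤ 1 := by
    have : (0 : ℝ) ≤ 1 / (2 * n) := by positivity
    linarith
  have hθ2 : (1 : ℝ) / (2 * n) ≤ 1 := by linarith
  have hX0 : (0 : ℝ) ≤ X := by linarith
  have hXn : 1 ≤ C₃ * X ^ (n + 1) := by
    have := one_le_pow₀ hX (n := n + 1)
    nlinarith
  rw [Real.mul_rpow (by positivity) (by positivity), Real.mul_rpow hX0 (by positivity)]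
  have h1 : (C₃ * X ^ (n + 1)) ^ (1 - 1 / (2 * n) : ℝ) ≤ C₃ * X ^ (n + 1) := by
    calc _ ≤ (C₃ * X ^ (n + 1)) ^ (1 : ℝ) := Real.rpow_le_rpow_of_exponent_le hXn hθ1
      _ = _ := Real.rpow_one _
  have h2 : X ^ (1 / (2 * n) : ℝ) ≤ X := by
    calc _ ≤ X ^ (1 : ℝ) := Real.rpow_le_rpow_of_exponent_le hX hθ2
      _ = _ := Real.rpow_one _
  have h3 : (R ^ (2 * n)) ^ (1 - 1 / (2 * n) : ℝ) * (R ^ n) ^ (1 / (2 * n) : ℝ) =
      R ^ (2 * n - 1 / 2 : ℝ) := by
    rw [← Real.rpow_natCast, ← Real.rpow_natCast, ← Real.rpow_mul hR.le, ← Real.rpow_mul hR.le,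
      ← Real.rpow_add hR]
    congr 1
    push_cast
    field_simp
    ring
  have h4 : X ^ (n + 1) * X ≤ X ^ (4 * n) := by
    rw [← pow_succ]
    exact pow_le_pow_right₀ hX (by omega)
  calc (C₃ * X ^ (n + 1)) ^ (1 - 1 / (2 * n) : ℝ) * (R ^ (2 * n)) ^ (1 - 1 / (2 * n) : ℝ) *
        (X ^ (1 / (2 * n) : ℝ) * (R ^ n) ^ (1 / (2 * n) : ℝ))
      = ((C₃ * X ^ (n + 1)) ^ (1 - 1 / (2 * n) : ℝ) * X ^ (1 / (2 * n) : ℝ)) *
        ((R ^ (2 * n)) ^ (1 - 1 / (2 * n) : ℝ) * (R ^ n) ^ (1 / (2 * n) : ℝ)) := by ring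
    _ ≤ ((C₃ * X ^ (n + 1)) * X) * R ^ (2 * n - 1 / 2 : ℝ) := by
        rw [h3]
        gcongr
    _ = C₃ * ((X ^ (n + 1) * X) * R ^ (2 * n - 1 / 2 : ℝ)) := by ring
    _ ≤ _ := by gcongr

/-- the energy estimate, abstract form -/
lemma energy_abs (hn : 3 ≤ n) {D : Set (E n)} {f : E n → E n} {Df : E n → E n →L[ℝ] E n}
    {K : E n → ℝ} (H : GM n D f Df K) {V : Set (E n)} (hV : IsOpen V) {x y₀ : E n}
    {s₄ s₅ R X C₂ : ℝ} {k : ℕ} (hVR : V ⊆ closedBall x R) (hR : 0 < R) (hX : 1 ≤ X)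
    (hdeg : HasDeg f Df V (ball y₀ s₅) k) (hkX : (k : ℝ) ≤ X) (hC₂ : 1 ≤ C₂) (hss : s₄ ≤ s₅)
    (hK : ∫⁻ z in V, ENNReal.ofReal (K z) ^ (2 * n - 1) ≤ ENNReal.ofReal (X * R ^ n))
    {Q₂ Q₀ : E n → ℝ} {Q : Fin n → E n → ℝ} (hQ₂s : ContDiff ℝ ∞ Q₂) (hQ₀s : ContDiff ℝ ∞ Q₀)
    (hQs : ∀ i, ContDiff ℝ ∞ (Q i)) (hQi : ∀ i, ∀ y ∈ ball y₀ s₄, |Q i y| ≤ R * k)
    (hQ0 : ∀ y ∈ ball y₀ s₄, Q₀ y = k)
    (hi2 : ∫⁻ y in ball y₀ s₄, ‖fderiv ℝ Q₂ y‖ₑ ^ n ≤
      ENNReal.ofReal (C₂ * (2 * R) ^ n * k ^ (n - 1)) *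
        ∫⁻ z in V, ENNReal.ofReal (K z) ^ (n - 1))
    (hiQ : ∀ i, ∫⁻ y in ball y₀ s₄, ‖fderiv ℝ (Q i) y‖ₑ ^ n ≤
      ENNReal.ofReal (C₂ * 1 ^ n * k ^ (n - 1)) * ∫⁻ z in V, ENNReal.ofReal (K z) ^ (n - 1)) :
    ∫⁻ z in V ∩ f ⁻¹' ball y₀ s₄, ‖(fderiv ℝ (Phi x Q₂ Q₀ Q) (z, f z)).comp
      ((ContinuousLinearMap.id ℝ (E n)).prod (Df z))‖ₑ ^ pex n ≤
      ENNReal.ofReal (2 ^ n * ((2 * n + 2) ^ n * (volume (ball (0 : E n) 1)).toReal +
        (n + 1) ^ n * C₂ * 2 ^ n) * X ^ (4 * n) * R ^ (2 * n - 1 / 2 : ℝ)) := by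
  have hn2 : 2 ≤ n := by omega
  have hn0 : (3 : ℝ) ≤ n := by exact_mod_cast hn
  have hfm : Measurable f := H.cont.measurable
  have hms : MeasurableSet (f ⁻¹' ball y₀ s₄) := hfm measurableSet_ball
  obtain ⟨wn, hwn⟩ : ∃ wn : ℝ, wn = (volume (ball (0 : E n) 1)).toReal := ⟨_, rfl⟩
  have hwn0 : 0 ≤ wn := by rw [hwn]; exact ENNReal.toReal_nonneg
  rw [← hwn]
  obtain ⟨C₃, hC₃⟩ : ∃ C₃ : ℝ, C₃ = (n + 1) ^ n * C₂ * 2 ^ n := ⟨_, rfl⟩
  have hC₃1 : 1 ≤ C₃ := by
    have h1 : (1 : ℝ) ≤ (n + 1) ^ n := one_le_pow₀ (by linarith)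
    have h2 : (1 : ℝ) ≤ 2 ^ n := one_le_pow₀ (by norm_num)
    have h3 : (1 : ℝ) ≤ (n + 1) ^ n * C₂ := by nlinarith
    rw [hC₃]
    nlinarith
  rw [← hC₃]
  have hdiff : ∀ {r : E n → ℝ}, ContDiff ℝ ∞ r → Differentiable ℝ r := fun {r} hr =>
    hr.differentiable (by simp)
  obtain ⟨S, hS⟩ : ∃ S : Set (E n), S = V ∩ f ⁻¹' ball y₀ s₄ := ⟨_, rfl⟩
  rw [← hS]
  have hSV : S ⊆ V := by rw [hS]; exact inter_subset_left
  have hSf : ∀ z ∈ S, f z ∈ ball y₀ s₄ := by
    intro z hz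
    rw [hS] at hz
    exact hz.2
  have hSm : MeasurableSet S := by rw [hS]; exact hV.measurableSet.inter hms
  obtain ⟨b, hb⟩ : ∃ b : Option (Fin n) → E n → ℝ≥0∞, b = fun j y => match j with
      | none => ‖fderiv ℝ Q₂ y‖ₑ
      | some i => ENNReal.ofReal (2 * R) * ‖fderiv ℝ (Q i) y‖ₑ := ⟨_, rfl⟩
  have hb0 : ∀ y, b none y = ‖fderiv ℝ Q₂ y‖ₑ := fun y => by rw [hb]
  have hb1 : ∀ i y, b (some i) y = ENNReal.ofReal (2 * R) * ‖fderiv ℝ (Q i) y‖ₑ :=
    fun i y => by rw [hb]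
  have hbm : ∀ j, Measurable (b j) := by
    intro j
    cases j with
    | none =>
      rw [show b none = fun y => ‖fderiv ℝ Q₂ y‖ₑ from funext hb0]
      exact (hQ₂s.continuous_fderiv (by simp)).enorm.measurable
    | some i =>
      rw [show b (some i) = fun y => ENNReal.ofReal (2 * R) * ‖fderiv ℝ (Q i) y‖ₑ from
        funext (hb1 i)]
      exact ((hQs i).continuous_fderiv (by simp)).enorm.measurable.const_mul _
  clear hb
  obtain ⟨gs, hgs⟩ : ∃ gs : E n → ℝ≥0∞, gs = fun y => ∑ j, b j y := ⟨_, rfl⟩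
  have hgsm : Measurable gs := by
    rw [hgs]; exact Finset.measurable_sum _ fun j _ => hbm j
  -- pointwise bound
  have hpt : ∀ z ∈ S, ‖(fderiv ℝ (Phi x Q₂ Q₀ Q) (z, f z)).comp
      ((ContinuousLinearMap.id ℝ (E n)).prod (Df z))‖ₑ ≤
        ENNReal.ofReal ((2 * n + 2) * R * X) + gs (f z) * ‖Df z‖ₑ := by
    intro z hz
    have hzx : ‖z - x‖ ≤ R := by
      have := hVR (hSV hz)
      rwa [mem_closedBall, dist_eq_norm] at this
    have hQ0' : fderiv ℝ Q₀ (f z) = 0 := by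
      have : Q₀ =ᶠ[𝓝 (f z)] fun _ => (k : ℝ) := by
        filter_upwards [isOpen_ball.mem_nhds (hSf z hz)] with y hy
        exact hQ0 y hy
      rw [this.fderiv_eq]
      simp
    have h1 := norm_l_le x (hdiff hQ₂s) (hdiff hQ₀s) (fun i => hdiff (hQs i)) hR.le
      (Nat.cast_nonneg k) hzx (fun i => hQi i _ (hSf z hz)) (hQ0 _ (hSf z hz)) hQ0' (Df z)
    have h2 : ‖(fderiv ℝ (Phi x Q₂ Q₀ Q) (z, f z)).comp
      ((ContinuousLinearMap.id ℝ (E n)).prod (Df z))‖ ≤ (2 * n + 2) * R * X +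
        (‖fderiv ℝ Q₂ (f z)‖ + ∑ i, 2 * R * ‖fderiv ℝ (Q i) (f z)‖) * ‖Df z‖ := by
      refine h1.trans ?_
      gcongr
    rw [← ofReal_norm]
    refine (ENNReal.ofReal_le_ofReal h2).trans ?_
    rw [ENNReal.ofReal_add (by positivity) (by positivity),
      ENNReal.ofReal_mul (q := ‖Df z‖) (by positivity),
      ofReal_norm, ENNReal.ofReal_add (norm_nonneg _) (by positivity), ofReal_norm,
      ENNReal.ofReal_sum_of_nonneg fun i _ => by positivity]
    refine add_le_add le_rfl (mul_le_mul' (le_of_eq ?_) le_rfl)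
    rw [hgs]
    simp only [Fintype.sum_option, hb0, hb1]
    congr 1
    refine Finset.sum_congr rfl fun i _ => ?_
    rw [ENNReal.ofReal_mul (by positivity), ofReal_norm]
  -- the integral of gs
  obtain ⟨I, hI⟩ : ∃ I : ℝ≥0∞, I = ∫⁻ z in V, ENNReal.ofReal (K z) ^ (n - 1) := ⟨_, rfl⟩
  rw [← hI] at hi2
  simp only [← hI] at hiQ
  have hIX : I ≤ ENNReal.ofReal (X * R ^ n) := by
    rw [hI]
    refine le_trans (lintegral_mono fun z => ?_) hK
    refine pow_le_pow_right₀ ?_ (by omega)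
    rw [← ENNReal.ofReal_one]
    exact ENNReal.ofReal_le_ofReal (H.one_le z)
  have hbint : ∀ j, ∫⁻ y in ball y₀ s₄, b j y ^ n ≤
      ENNReal.ofReal (C₂ * (2 * R) ^ n * k ^ (n - 1)) * I := by
    intro j
    cases j with
    | none =>
      simp only [hb0]
      exact hi2
    | some i =>
      simp only [hb1, mul_pow]
      rw [lintegral_const_mul' _ _ (ENNReal.pow_ne_top ENNReal.ofReal_ne_top)]
      calc _ ≤ ENNReal.ofReal (2 * R) ^ n *
            (ENNReal.ofReal (C₂ * 1 ^ n * k ^ (n - 1)) * I) := mul_le_mul' le_rfl (hiQ i)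
        _ = _ := by
          rw [← mul_assoc, ← ENNReal.ofReal_pow (by positivity),
            ← ENNReal.ofReal_mul (by positivity)]
          congr 2
          ring
  have hgsint : ∫⁻ y in ball y₀ s₄, gs y ^ n ≤
      ENNReal.ofReal ((n + 1) ^ n * (C₂ * (2 * R) ^ n * k ^ (n - 1))) * I := by
    calc ∫⁻ y in ball y₀ s₄, gs y ^ n
        ≤ ∫⁻ y in ball y₀ s₄, ((n + 1 : ℕ) : ℝ≥0∞) ^ (n - 1) * ∑ j, b j y ^ n := by
          refine lintegral_mono fun y => ?_
          have := sum_pow_le (n := n) (by omega) (fun j => b j y)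
          rw [Fintype.card_option, Fintype.card_fin] at this
          rw [hgs]
          exact this
      _ = ((n + 1 : ℕ) : ℝ≥0∞) ^ (n - 1) * ∑ j, ∫⁻ y in ball y₀ s₄, b j y ^ n := by
          rw [lintegral_const_mul' _ _ (ENNReal.pow_ne_top (ENNReal.natCast_ne_top _)),
            lintegral_finsetSum _ fun j _ => (hbm j).pow_const _]
      _ ≤ ((n + 1 : ℕ) : ℝ≥0∞) ^ (n - 1) * ∑ _j : Option (Fin n),
            ENNReal.ofReal (C₂ * (2 * R) ^ n * k ^ (n - 1)) * I := by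
          gcongr with j
          exact hbint j
      _ = _ := by
          obtain ⟨A, hA⟩ : ∃ A : ℝ, A = C₂ * (2 * R) ^ n * k ^ (n - 1) := ⟨_, rfl⟩
          rw [← hA]
          have e1 : ((n + 1 : ℕ) : ℝ≥0∞) ^ n = ENNReal.ofReal (((n : ℝ) + 1) ^ n) := by
            rw [ENNReal.ofReal_pow (by positivity), ← ENNReal.ofReal_natCast]
            push_cast
            rfl
          rw [Finset.sum_const, Finset.card_univ, Fintype.card_option, Fintype.card_fin,
            nsmul_eq_mul, ← mul_assoc, ← pow_succ, show n - 1 + 1 = n by omega,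
            ENNReal.ofReal_mul (p := ((n : ℝ) + 1) ^ n) (by positivity), ← e1]
          exact (mul_assoc _ _ _).symm
  have hdegint : ∫⁻ z in S, gs (f z) ^ n * ENNReal.ofReal (Df z).det ≤
      k * ∫⁻ y in ball y₀ s₄, gs y ^ n := by
    obtain ⟨η, hη⟩ : ∃ η : E n → ℝ≥0∞, η = (ball y₀ s₄).indicator fun y => gs y ^ n := ⟨_, rfl⟩
    have hηm : Measurable η := by
      rw [hη]; exact (hgsm.pow_const _).indicator measurableSet_ball
    calc ∫⁻ z in S, gs (f z) ^ n * ENNReal.ofReal (Df z).det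
        = ∫⁻ z in S, η (f z) * ENNReal.ofReal (Df z).det := by
          refine setLIntegral_congr_fun hSm fun z hz => ?_
          show _ = η (f z) * _
          rw [hη, indicator_of_mem (hSf z hz)]
      _ ≤ ∫⁻ z in V ∩ f ⁻¹' ball y₀ s₅, η (f z) * ENNReal.ofReal (Df z).det := by
          rw [hS]
          exact lintegral_mono_set (inter_subset_inter_right _
            (preimage_mono (ball_subset_ball hss)))
      _ = k * ∫⁻ y in ball y₀ s₅, η y := hdeg η hηm
      _ ≤ k * ∫⁻ y, η y := mul_le_mul' le_rfl (setLIntegral_le_lintegral _ _)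
      _ = _ := by rw [hη, lintegral_indicator measurableSet_ball]
  have hgsint2 : ∫⁻ z in S, gs (f z) ^ n * ENNReal.ofReal (Df z).det ≤
      ENNReal.ofReal (C₃ * X ^ (n + 1) * R ^ (2 * n)) := by
    refine hdegint.trans ?_
    calc (k : ℝ≥0∞) * ∫⁻ y in ball y₀ s₄, gs y ^ n
        ≤ ENNReal.ofReal k * (ENNReal.ofReal ((n + 1) ^ n * (C₂ * (2 * R) ^ n * k ^ (n - 1))) *
          ENNReal.ofReal (X * R ^ n)) := by
          rw [ENNReal.ofReal_natCast]
          gcongr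
          exact hgsint.trans (mul_le_mul' le_rfl hIX)
      _ = ENNReal.ofReal (k * ((n + 1) ^ n * (C₂ * (2 * R) ^ n * k ^ (n - 1)) *
            (X * R ^ n))) := by
          rw [← ENNReal.ofReal_mul (by positivity), ← ENNReal.ofReal_mul (by positivity)]
      _ ≤ _ := by
          refine ENNReal.ofReal_le_ofReal ?_
          have hk : (k : ℝ) * k ^ (n - 1) = k ^ n := by
            rw [← pow_succ', show n - 1 + 1 = n by omega]
          calc (k : ℝ) * ((n + 1) ^ n * (C₂ * (2 * R) ^ n * k ^ (n - 1)) * (X * R ^ n))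
              = (n + 1) ^ n * C₂ * 2 ^ n * (k * k ^ (n - 1)) * X * (R ^ n * R ^ n) := by
                rw [mul_pow]; ring
            _ = C₃ * (k ^ n * X) * R ^ (2 * n) := by
                rw [hk, hC₃, ← pow_add]
                ring_nf
            _ ≤ C₃ * (X ^ n * X) * R ^ (2 * n) := by gcongr
            _ = _ := by ring
  have hE := H.energy_le hn2 S (fun z => gs (f z)) (hgsm.comp hfm)
  have hp1 : (1 : ℝ) ≤ pex n := by rw [pex]; linarith
  have hp0 : (0 : ℝ) ≤ pex n := by linarith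
  have hθ : (0 : ℝ) ≤ 1 - 1 / (2 * n) := by
    rw [sub_nonneg, div_le_one (by positivity)]
    linarith
  have hE2 : ∫⁻ z in S, (gs (f z) * ‖Df z‖ₑ) ^ pex n ≤
      ENNReal.ofReal (C₃ * (X ^ (4 * n) * R ^ (2 * n - 1 / 2 : ℝ))) := by
    refine hE.trans ?_
    calc _ ≤ ENNReal.ofReal (C₃ * X ^ (n + 1) * R ^ (2 * n)) ^ (1 - 1 / (2 * n) : ℝ) *
          ENNReal.ofReal (X * R ^ n) ^ (1 / (2 * n) : ℝ) := by
          refine mul_le_mul' (ENNReal.rpow_le_rpow hgsint2 hθ)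
            (ENNReal.rpow_le_rpow ?_ (by positivity))
          exact (lintegral_mono_set hSV).trans hK
      _ = ENNReal.ofReal ((C₃ * X ^ (n + 1) * R ^ (2 * n)) ^ (1 - 1 / (2 * n) : ℝ) *
          (X * R ^ n) ^ (1 / (2 * n) : ℝ)) := by
          rw [ENNReal.ofReal_rpow_of_nonneg (by positivity) hθ,
            ENNReal.ofReal_rpow_of_nonneg (by positivity) (by positivity),
            ← ENNReal.ofReal_mul (by positivity)]
      _ ≤ _ := ENNReal.ofReal_le_ofReal (arith2 hn hR hX hC₃1)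
  have hvol : volume S ≤ ENNReal.ofReal (R ^ n) * ENNReal.ofReal wn := by
    calc volume S ≤ volume (closedBall x R) := measure_mono (hSV.trans hVR)
      _ = _ := by
          rw [Measure.addHaar_closedBall _ _ hR.le, finrank_euclideanSpace_fin, hwn,
            ENNReal.ofReal_toReal measure_ball_lt_top.ne]
  have hA : ∫⁻ _z in S, ENNReal.ofReal ((2 * n + 2) * R * X) ^ pex n ≤
      ENNReal.ofReal ((2 * n + 2) ^ n * wn * (X ^ (4 * n) * R ^ (2 * n - 1 / 2 : ℝ))) := by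
    rw [setLIntegral_const]
    calc _ ≤ ENNReal.ofReal ((2 * n + 2) * R * X) ^ pex n *
          (ENNReal.ofReal (R ^ n) * ENNReal.ofReal wn) := mul_le_mul' le_rfl hvol
      _ = ENNReal.ofReal (((2 * n + 2) * R * X) ^ pex n * R ^ n * wn) := by
          rw [ENNReal.ofReal_rpow_of_nonneg (by positivity) hp0, ← mul_assoc,
            ← ENNReal.ofReal_mul (by positivity), ← ENNReal.ofReal_mul (by positivity)]
      _ ≤ _ := by
          refine ENNReal.ofReal_le_ofReal ?_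
          have := mul_le_mul_of_nonneg_right (arith1 hn hR hX) hwn0
          linarith
  calc _ ≤ ∫⁻ z in S, (2 : ℝ≥0∞) ^ n * (ENNReal.ofReal ((2 * n + 2) * R * X) ^ pex n +
        (gs (f z) * ‖Df z‖ₑ) ^ pex n) := by
        refine setLIntegral_mono' hSm fun z hz => ?_
        refine (ENNReal.rpow_le_rpow (hpt z hz) hp0).trans ?_
        refine (ENNReal.rpow_add_le_mul_rpow_add_rpow _ _ hp1).trans ?_
        gcongr
        rw [← ENNReal.rpow_natCast]
        refine ENNReal.rpow_le_rpow_of_exponent_le (by norm_num) ?_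
        rw [pex]; linarith
    _ = (2 : ℝ≥0∞) ^ n * ((∫⁻ _z in S, ENNReal.ofReal ((2 * n + 2) * R * X) ^ pex n) +
        ∫⁻ z in S, (gs (f z) * ‖Df z‖ₑ) ^ pex n) := by
        rw [lintegral_const_mul' _ _ (ENNReal.pow_ne_top ENNReal.ofNat_ne_top)]
        congr 1
        exact lintegral_add_left measurable_const _
    _ ≤ (2 : ℝ≥0∞) ^ n * (ENNReal.ofReal ((2 * n + 2) ^ n * wn *
          (X ^ (4 * n) * R ^ (2 * n - 1 / 2 : ℝ))) +
        ENNReal.ofReal (C₃ * (X ^ (4 * n) * R ^ (2 * n - 1 / 2 : ℝ)))) := by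
        exact mul_le_mul' le_rfl (add_le_add hA hE2)
    _ = _ := by
        have e2 : (2 : ℝ≥0∞) ^ n = ENNReal.ofReal (2 ^ n) := by
          rw [ENNReal.ofReal_pow (by norm_num), ENNReal.ofReal_ofNat]
        rw [← ENNReal.ofReal_add (by positivity) (by positivity), e2,
          ← ENNReal.ofReal_mul (by positivity)]
        congr 1
        ring

end energy

end Fiber

open Push Pool.Agent.MP_dd09c0_an.Fiber

theorem fiber_fun (n : ℕ) (hn : 3 ≤ n) : ∃ C : ℝ, 1 ≤ C ∧ ∀ (D : Set (E n)) (f : E n → E n)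
    (Df : E n → E n →L[ℝ] E n) (K : E n → ℝ), GM n D f Df K → ∀ (V : Set (E n)) (x y₀ : E n)
    (s₄ s₅ σ R X : ℝ) (k : ℕ), IsOpen V → closure V ⊆ D → V ⊆ closedBall x R → 0 < R → 1 ≤ X →
    (∀ z ∈ frontier V, f z ∉ ball y₀ s₅) → HasDeg f Df V (ball y₀ s₅) k → (k : ℝ) ≤ X →
    0 < σ → s₄ + σ < s₅ →
    ∫⁻ z in V, ENNReal.ofReal (K z) ^ (2 * n - 1) ≤ ENNReal.ofReal (X * R ^ n) →
    ∃ (u : E n → ℝ) (l : E n → (E n →L[ℝ] ℝ)), Continuous u ∧ Measurable l ∧
      WD (V ∩ f ⁻¹' ball y₀ s₄) u l ∧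
      ∫⁻ z in V ∩ f ⁻¹' ball y₀ s₄, ‖l z‖ₑ ^ pex n
        ≤ ENNReal.ofReal (C * X ^ (4 * n) * R ^ (2 * n - 1 / 2 : ℝ)) ∧
      (∀ z ∈ V ∩ f ⁻¹' ball y₀ s₄, 0 ≤ u z) ∧
      (∀ z ∈ V ∩ f ⁻¹' ball y₀ s₄, ∀ δ : ℝ,
        (∀ z' ∈ V, dist (f z') (f z) < σ → dist z' z ≤ δ) → u z ≤ k * δ ^ 2) ∧
      (∀ z ∈ V ∩ f ⁻¹' ball y₀ s₄, ∀ z' ∈ V, f z' = f z → ∀ δ : ℝ, comp f D z' σ ⊆ V →
        comp f D z' σ ⊆ closedBall z' δ → δ ≤ dist z' z → (dist z' z - δ) ^ 2 ≤ u z) := by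
  have hn2 : 2 ≤ n := by omega
  have hn0 : (3 : ℝ) ≤ n := by exact_mod_cast hn
  obtain ⟨C₂, hC₂, hpush⟩ := push_energy n hn2
  refine ⟨2 ^ n * ((2 * n + 2) ^ n * (volume (ball (0 : E n) 1)).toReal +
        (n + 1) ^ n * C₂ * 2 ^ n), ?_, ?_⟩
  · have h1 : (1 : ℝ) ≤ (n + 1) ^ n := one_le_pow₀ (by linarith)
    have h2 : (1 : ℝ) ≤ 2 ^ n := one_le_pow₀ (by norm_num)
    have h3 : (1 : ℝ) ≤ (n + 1) ^ n * C₂ := by nlinarith
    have h4 : (1 : ℝ) ≤ (n + 1) ^ n * C₂ * 2 ^ n := by nlinarith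
    have h5 : 0 ≤ (2 * (n : ℝ) + 2) ^ n * (volume (ball (0 : E n) 1)).toReal := by positivity
    nlinarith
  intro D f Df K H V x y₀ s₄ s₅ σ R X k hV hVD hVR hR hX hfr hdeg hkX hσ hs hK
  obtain ⟨φ, hrO⟩ : ∃ φ : ContDiffBump (0 : E n), φ.rOut = σ :=
    ⟨⟨σ / 2, σ, by positivity, by linarith⟩, rfl⟩
  have hsφ : s₄ + φ.rOut < s₅ := by rw [hrO]; exact hs
  have hball : ∀ y ∈ ball y₀ s₄, ball y φ.rOut ⊆ ball y₀ s₅ := by
    intro y hy w hw
    rw [mem_ball] at *
    rw [hrO] at hw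
    have := dist_triangle w y y₀
    linarith
  have hVx : ∀ w ∈ V, ‖w - x‖ ≤ R := by
    intro w hw
    have := hVR hw
    rwa [mem_closedBall, dist_eq_norm] at this
  -- the functions
  have hq₂s : ContDiff ℝ ∞ (fun w : E n => ‖w - x‖ ^ 2) :=
    (contDiff_id.sub contDiff_const).norm_sq ℝ
  have hqs : ∀ i, ContDiff ℝ ∞ (fun w : E n => (w - x) i) := fun i =>
    (EuclideanSpace.proj i : E n →L[ℝ] ℝ).contDiff.comp (contDiff_id.sub contDiff_const)
  have hQ₂s : ContDiff ℝ ∞ (QT φ V f Df (fun w : E n => ‖w - x‖ ^ 2)) :=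
    QT_contDiff φ H hV hVD hq₂s.continuous
  have hQs : ∀ i, ContDiff ℝ ∞ (QT φ V f Df (fun w : E n => (w - x) i)) := fun i =>
    QT_contDiff φ H hV hVD (hqs i).continuous
  have hQ₀s : ContDiff ℝ ∞ (QT φ V f Df (fun _ => 1)) := QT_contDiff φ H hV hVD continuous_const
  have hueq : ∀ z, Phi x (QT φ V f Df (fun w : E n => ‖w - x‖ ^ 2)) (QT φ V f Df (fun _ => 1))
      (fun i => QT φ V f Df (fun w : E n => (w - x) i)) (z, f z) =
      QT φ V f Df (fun w => ‖w - z‖ ^ 2) (f z) := by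
    intro z
    have h1 := QT_comb φ H hV hVD hq₂s.continuous (fun i => (hqs i).continuous)
      (fun i => (z - x) i) (‖z - x‖ ^ 2) (f z)
    have h2 : (fun w : E n => ‖w - x‖ ^ 2 - 2 * ∑ i, (z - x) i * (w - x) i + ‖z - x‖ ^ 2) =
        fun w => ‖w - z‖ ^ 2 := by
      funext w
      have e2 : inner ℝ (w - x) (z - x) = ∑ i, (z - x) i * (w - x) i := by
        rw [PiLp.inner_apply]
        refine Finset.sum_congr rfl fun i _ => ?_
        simp
      rw [← e2, ← norm_sub_sq_real, sub_sub_sub_cancel_right]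
    rw [h2] at h1
    exact h1.symm
  have hi2 := hpush D f Df K H V y₀ s₄ s₅ (2 * R) k _ φ hV hVD hfr hdeg hsφ hq₂s
    (fun z hz => by
      have h1 : HasFDerivAt (fun y : E n => y - x) (ContinuousLinearMap.id ℝ (E n)) z :=
        (hasFDerivAt_id z).sub_const x
      have h2 : HasFDerivAt (fun w : E n => ‖w - x‖ ^ 2) ((2 • (innerSL ℝ (z - x))).comp
          (ContinuousLinearMap.id ℝ (E n))) z :=
        HasFDerivAt.comp (g := fun y : E n => ‖y‖ ^ 2) z
          (hasStrictFDerivAt_norm_sq (z - x)).hasFDerivAt h1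
      rw [h2.fderiv, ContinuousLinearMap.comp_id]
      have h3 := hVx z hz
      refine (norm_nsmul_le (n := 2)).trans ?_
      rw [innerSL_apply_norm]
      push_cast
      linarith)
  rw [← QT_eq] at hi2
  have hiQ : ∀ i, ∫⁻ y in ball y₀ s₄, ‖fderiv ℝ (QT φ V f Df (fun w : E n => (w - x) i)) y‖ₑ ^ n ≤
      ENNReal.ofReal (C₂ * 1 ^ n * k ^ (n - 1)) *
        ∫⁻ z in V, ENNReal.ofReal (K z) ^ (n - 1) := by
    intro i
    have h1 := hpush D f Df K H V y₀ s₄ s₅ 1 k _ φ hV hVD hfr hdeg hsφ (hqs i)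
      (fun z hz => by
        have h1 : HasFDerivAt (fun y : E n => y - x) (ContinuousLinearMap.id ℝ (E n)) z :=
          (hasFDerivAt_id z).sub_const x
        have h2 : HasFDerivAt (fun w : E n => (w - x) i)
            ((EuclideanSpace.proj i : E n →L[ℝ] ℝ).comp (ContinuousLinearMap.id ℝ (E n))) z :=
          (EuclideanSpace.proj i : E n →L[ℝ] ℝ).hasFDerivAt.comp z h1
        rw [h2.fderiv, ContinuousLinearMap.comp_id]
        refine ContinuousLinearMap.opNorm_le_bound _ zero_le_one fun v => ?_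
        rw [one_mul]
        exact PiLp.norm_apply_le v i)
    rwa [← QT_eq] at h1
  have hE := energy_abs hn H hV hVR hR hX hdeg hkX hC₂ (by linarith) hK hQ₂s hQ₀s hQs
    (fun i y hy => abs_QT_le φ H hV hVD hdeg (hball y hy) fun w hw =>
      (PiLp.norm_apply_le (w - x) i).trans (hVx w hw))
    (fun y hy => QT_one φ H hV hVD hdeg (hball y hy)) hi2 hiQ
  have hPs := Phi_contDiff x hQ₂s hQ₀s hQs
  clear hi2 hiQ hpush hQ₂s hQ₀s hQs hq₂s hqs
  generalize Phi x (QT φ V f Df (fun w : E n => ‖w - x‖ ^ 2)) (QT φ V f Df (fun _ => 1))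
      (fun i => QT φ V f Df (fun w : E n => (w - x) i)) = P at *
  have huE : ∀ z, ENNReal.ofReal (P (z, f z)) = ∫⁻ w in V, ENNReal.ofReal (‖w - z‖ ^ 2) *
      (ENNReal.ofReal (φ.normed volume (f z - f w)) * ENNReal.ofReal (Df w).det) := fun z => by
    rw [hueq]
    exact ofReal_QT φ H hV hVD (by fun_prop) (fun w => by positivity) _
  have hu0 : ∀ z, 0 ≤ P (z, f z) := fun z => by
    rw [hueq]; exact QT_nonneg φ H (fun w => by positivity) _
  refine ⟨fun z => P (z, f z), fun z => (fderiv ℝ P (z, f z)).comp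
      ((ContinuousLinearMap.id ℝ (E n)).prod (Df z)),
    hPs.continuous.comp (continuous_id.prodMk H.cont), ?_,
    (H.wd_comp hn2 hPs).mono (hV.inter (isOpen_ball.preimage H.cont))
      (inter_subset_left.trans (subset_closure.trans hVD)), hE, fun z _ => hu0 z, ?_, ?_⟩
  · have h1 : Measurable (fun z => fderiv ℝ P (z, f z)) :=
      ((hPs.continuous_fderiv (by simp)).comp (continuous_id.prodMk H.cont)).measurable
    have h2 : Continuous (fun p : ((E n × E n) →L[ℝ] ℝ) × (E n →L[ℝ] E n) =>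
        p.1.comp ((ContinuousLinearMap.inl ℝ (E n) (E n)) +
          (ContinuousLinearMap.inr ℝ (E n) (E n)).comp p.2)) := by fun_prop
    have h3 : (fun z => (fderiv ℝ P (z, f z)).comp
        ((ContinuousLinearMap.id ℝ (E n)).prod (Df z))) =
        (fun p : ((E n × E n) →L[ℝ] ℝ) × (E n →L[ℝ] E n) =>
        p.1.comp ((ContinuousLinearMap.inl ℝ (E n) (E n)) +
          (ContinuousLinearMap.inr ℝ (E n) (E n)).comp p.2)) ∘
          fun z => (fderiv ℝ P (z, f z), Df z) := by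
      funext z
      simp only [Function.comp_def]
      congr 1
      ext v <;> simp
    rw [h3]
    exact h2.measurable.comp (h1.prodMk H.meas)
  · -- upper bound
    intro z hz δ hδ
    have h1 : ENNReal.ofReal (P (z, f z)) ≤ ENNReal.ofReal (k * δ ^ 2) := by
      rw [huE]
      calc _ ≤ ∫⁻ w in V, ENNReal.ofReal (δ ^ 2) *
            (ENNReal.ofReal (φ.normed volume (f z - f w)) * ENNReal.ofReal (Df w).det) := by
            refine setLIntegral_mono' hV.measurableSet fun w hw => ?_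
            by_cases hd : dist (f w) (f z) < σ
            · refine mul_le_mul' (ENNReal.ofReal_le_ofReal ?_) le_rfl
              have := hδ w hw hd
              rw [dist_eq_norm] at this
              have h0 := norm_nonneg (w - z)
              gcongr
            · have : φ.normed volume (f z - f w) = 0 := by
                refine rho_eq_zero φ ?_
                rw [hrO, ← dist_eq_norm, dist_comm]
                exact not_lt.1 hd
              rw [this]
              simp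
        _ = ENNReal.ofReal (δ ^ 2) * k := by
            rw [lintegral_const_mul' _ _ ENNReal.ofReal_ne_top,
              mass φ H hV.measurableSet hdeg (hball _ hz.2)]
        _ = _ := by
            rw [← ENNReal.ofReal_natCast, ← ENNReal.ofReal_mul (by positivity), mul_comm]
    exact (ENNReal.ofReal_le_ofReal_iff (by positivity)).1 h1
  · -- lower bound
    intro z hz z' hz' hfz δ hcV hcδ hδ
    have hclD : closure (comp f D z' σ) ⊆ D := (closure_mono hcV).trans hVD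
    obtain ⟨k', hk', hdeg'⟩ := H.comp_deg hn2 (subset_closure.trans hVD hz') hσ hclD
    have hop : IsOpen (comp f D z' σ) := isOpen_comp H.cont H.isOpen z' σ
    have h1 : ENNReal.ofReal ((dist z' z - δ) ^ 2) ≤ ENNReal.ofReal (P (z, f z)) := by
      rw [huE]
      calc ENNReal.ofReal ((dist z' z - δ) ^ 2)
          ≤ ENNReal.ofReal ((dist z' z - δ) ^ 2) * k' := by
            refine le_mul_of_one_le_right bot_le ?_
            exact_mod_cast hk'
        _ = ∫⁻ w in comp f D z' σ, ENNReal.ofReal ((dist z' z - δ) ^ 2) *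
            (ENNReal.ofReal (φ.normed volume (f z - f w)) * ENNReal.ofReal (Df w).det) := by
            rw [lintegral_const_mul' _ _ ENNReal.ofReal_ne_top,
              mass φ H hop.measurableSet hdeg' (y := f z) (by rw [hrO, hfz])]
        _ ≤ ∫⁻ w in comp f D z' σ, ENNReal.ofReal (‖w - z‖ ^ 2) *
            (ENNReal.ofReal (φ.normed volume (f z - f w)) * ENNReal.ofReal (Df w).det) := by
            refine setLIntegral_mono' hop.measurableSet fun w hw => ?_
            refine mul_le_mul' (ENNReal.ofReal_le_ofReal ?_) le_rfl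
            have h2 := hcδ hw
            rw [mem_closedBall] at h2
            have h3 := dist_triangle z' w z
            rw [dist_comm z' w] at h3
            rw [← dist_eq_norm]
            have h4 : 0 ≤ dist z' z - δ := by linarith
            gcongr
            linarith
        _ ≤ _ := lintegral_mono_set hcV
    exact (ENNReal.ofReal_le_ofReal_iff (hu0 z)).1 h1

end Pool.Agent.MP_dd09c0_an
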