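import Pool.Agent.MP_dd09c0_an.ImgKernel
import Pool.Agent.MP_dd09c0_an.Identity
import Pool.Agent.MP_dd09c0_an.Cutoff
import Pool.Agent.MP_dd09c0_an.Row
import Pool.Agent.MP_dd09c0_an.Moll

/-!
# The Jacobian integral over the preimage of a small set is small
-/

open MeasureTheory Metric Set Filter Topology
open scoped ENNReal NNReal ContDiff RealInnerProductSpace Convolution

namespace Pool.Agent.MP_dd09c0_an

variable {n : ℕ}

namespace ImgAux

/-- the truncated potential of a set -/
noncomputable def Yp (n : ℕ) (t T : ℝ) (Ω : Set (E n)) (i : Fin n) : E n → ℝ :=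
  (Ω.indicator (fun _ => (1 : ℝ))) ⋆[ContinuousLinearMap.lsmul ℝ ℝ, volume] (kk n t T i)

/-- the smoothed indicator -/
noncomputable def gp (n : ℕ) (t : ℝ) (Ω : Set (E n)) : E n → ℝ :=
  (Ω.indicator (fun _ => (1 : ℝ))) ⋆[ContinuousLinearMap.lsmul ℝ ℝ, volume]
    (fun z => pk n t (‖z‖ ^ 2))

theorem ind_locInt {Ω : Set (E n)} (hΩ : MeasurableSet Ω) :
    LocallyIntegrable (Ω.indicator (fun _ => (1 : ℝ))) (volume : Measure (E n)) :=
  (locallyIntegrable_const (1 : ℝ)).indicator hΩ

theorem conv_apply {Ω : Set (E n)} (hΩ : MeasurableSet Ω) (g : E n → ℝ) (y : E n) :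
    ((Ω.indicator (fun _ => (1 : ℝ))) ⋆[ContinuousLinearMap.lsmul ℝ ℝ, volume] g) y =
      ∫ x in Ω, g (y - x) := by
  rw [convolution_def, ← integral_indicator hΩ]
  apply integral_congr_ae
  refine Eventually.of_forall fun x => ?_
  by_cases hx : x ∈ Ω
  · simp [indicator_of_mem hx]
  · simp [indicator_of_notMem hx]

theorem Yp_contDiff {t T : ℝ} (ht : 0 < t) (hT : t ≤ T) {Ω : Set (E n)} (hΩ : MeasurableSet Ω)
    (i : Fin n) : ContDiff ℝ ∞ (Yp n t T Ω i) :=
  (kk_compact ht hT i).contDiff_convolution_right _ (ind_locInt hΩ) (kk_contDiff ht hT i)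

theorem pk_compact {t : ℝ} (ht : 0 < t) : HasCompactSupport (fun z : E n => pk n t (‖z‖ ^ 2)) := by
  apply HasCompactSupport.intro (isCompact_closedBall (0 : E n) t)
  intro z hz
  rw [mem_closedBall_zero_iff, not_le] at hz
  apply pk_zero ht
  gcongr

theorem pk_cont {t : ℝ} (ht : 0 < t) : Continuous (fun z : E n => pk n t (‖z‖ ^ 2)) :=
  (pk_continuous ht).comp (by fun_prop)

theorem gp_cont {t : ℝ} (ht : 0 < t) {Ω : Set (E n)} (hΩ : MeasurableSet Ω) :
    Continuous (gp n t Ω) :=
  (pk_compact ht).continuous_convolution_right _ (ind_locInt hΩ) (pk_cont ht)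

theorem gp_nonneg (t : ℝ) {Ω : Set (E n)} (hΩ : MeasurableSet Ω) (y : E n) :
    0 ≤ gp n t Ω y := by
  rw [gp, conv_apply hΩ]
  exact integral_nonneg fun x => pk_nonneg (by positivity)

theorem Yp_div {t T : ℝ} (ht : 0 < t) (hT : t ≤ T) {Ω : Set (E n)} (hΩ : MeasurableSet Ω)
    (y : E n) : ∑ i, fderiv ℝ (Yp n t T Ω i) y (EuclideanSpace.single i 1) =
      gp n t Ω y - gp n T Ω y := by
  have hT0 : 0 < T := by linarith
  have hd : ∀ i, Continuous (fderiv ℝ (kk n t T i)) := fun i =>
    (kk_contDiff ht hT i).continuous_fderiv (by simp)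
  have h1 : ∀ i, fderiv ℝ (Yp n t T Ω i) y (EuclideanSpace.single i 1) =
      ∫ x in Ω, fderiv ℝ (kk n t T i) (y - x) (EuclideanSpace.single i 1) := by
    intro i
    have h2 := (kk_compact ht hT i).hasFDerivAt_convolution_right
      (ContinuousLinearMap.lsmul ℝ ℝ) (ind_locInt hΩ) ((kk_contDiff ht hT i).of_le (by simp)) y
    have h3 : fderiv ℝ (Yp n t T Ω i) y = _ := h2.fderiv
    rw [h3, convolution_precompR_apply _ (ind_locInt hΩ) ((kk_compact ht hT i).fderiv ℝ) (hd i),
      conv_apply hΩ]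
  have hint : ∀ g : E n → ℝ, Continuous g → HasCompactSupport g → ∀ y : E n,
      IntegrableOn (fun x => g (y - x)) Ω := by
    intro g hg hc y
    apply Integrable.integrableOn
    apply Continuous.integrable_of_hasCompactSupport (by fun_prop)
    exact hc.comp_homeomorph (Homeomorph.subLeft y)
  simp only [h1]
  rw [← integral_finset_sum]
  · simp only [kk_div ht hT]
    rw [integral_sub, gp, gp, conv_apply hΩ, conv_apply hΩ]
    · exact hint _ (pk_cont ht) (pk_compact ht) y
    · exact hint _ (pk_cont hT0) (pk_compact hT0) y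
  · intro i _
    refine hint (fun z => fderiv ℝ (kk n t T i) z (EuclideanSpace.single i 1))
      ((hd i).clm_apply continuous_const) ?_ y
    exact ((kk_compact ht hT i).fderiv ℝ).comp_left (g := fun L : E n →L[ℝ] ℝ =>
      L (EuclideanSpace.single i 1)) rfl

theorem lintegral_inv (hn : 2 ≤ n) (y : E n) {R : ℝ} (hR : 0 < R) :
    ∫⁻ x in ball y R, ENNReal.ofReal (1 / ‖y - x‖ ^ (n - 1)) ≤
      ENNReal.ofReal (n * (volume.real (ball (0 : E n) 1) * R)) := by
  have : Nonempty (Fin n) := ⟨⟨0, by omega⟩⟩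
  have : Nontrivial (E n) := inferInstance
  set F : ℝ → ℝ := (Ioo 0 R).indicator (fun s => 1 / s ^ (n - 1)) with hF
  have hF0 : ∀ s, 0 ≤ F s := by
    intro s
    apply indicator_nonneg
    intro s hs
    have : 0 < s := hs.1
    positivity
  have hdim : Module.finrank ℝ (E n) = n := by simp
  have hprod : ∀ y ∈ Ioi (0 : ℝ), y ^ (Module.finrank ℝ (E n) - 1) • F y =
      (Ioo 0 R).indicator (fun _ => 1) y := by
    intro y hy
    rw [hdim, hF, smul_eq_mul]
    by_cases h : y ∈ Ioo 0 R
    · rw [indicator_of_mem h, indicator_of_mem h]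
      have hy0 : (0 : ℝ) < y := hy
      field_simp
    · rw [indicator_of_notMem h, indicator_of_notMem h, mul_zero]
  have hinv : IntegrableOn (fun _ : ℝ => (1 : ℝ)) (Ioo 0 R) := by
    apply IntegrableOn.mono_set _ Ioo_subset_Icc_self
    exact ContinuousOn.integrableOn_compact isCompact_Icc continuousOn_const
  have hint : Integrable (fun x : E n => F ‖x‖) := by
    rw [integrable_fun_norm_addHaar (volume : Measure (E n))]
    refine (integrableOn_congr_fun hprod measurableSet_Ioi).2 ?_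
    exact ((integrable_indicator_iff measurableSet_Ioo).2 hinv).integrableOn
  have hval : ∫ x : E n, F ‖x‖ = n * (volume.real (ball (0 : E n) 1) * R) := by
    rw [integral_fun_norm_addHaar, setIntegral_congr_fun measurableSet_Ioi hprod, hdim,
      nsmul_eq_mul, smul_eq_mul]
    congr 2
    rw [setIntegral_indicator measurableSet_Ioo, inter_eq_self_of_subset_right]
    · simp [hR.le]
    · intro s hs
      exact hs.1
  calc ∫⁻ x in ball y R, ENNReal.ofReal (1 / ‖y - x‖ ^ (n - 1))
      ≤ ∫⁻ x : E n, ENNReal.ofReal (F ‖x - y‖) := by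
        rw [← lintegral_indicator measurableSet_ball]
        apply lintegral_mono
        intro x
        by_cases h : x ∈ ball y R
        · rw [indicator_of_mem h]
          apply ENNReal.ofReal_le_ofReal
          rw [mem_ball, dist_eq_norm] at h
          rcases (norm_nonneg (x - y)).eq_or_lt with h0 | h0
          · rw [norm_sub_rev y x, ← h0, zero_pow (by omega), div_zero]
            exact hF0 _
          · rw [hF, indicator_of_mem (show ‖x - y‖ ∈ Ioo 0 R from ⟨h0, h⟩), norm_sub_rev]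
        · rw [indicator_of_notMem h]
          exact bot_le
    _ = ENNReal.ofReal (n * (volume.real (ball (0 : E n) 1) * R)) := by
        rw [lintegral_sub_right_eq_self (fun x : E n => ENNReal.ofReal (F ‖x‖)) y,
          ← ofReal_integral_eq_lintegral_ofReal hint (Eventually.of_forall fun x => hF0 _), hval]

theorem Yp_le (hn : 2 ≤ n) {t T : ℝ} (ht : 0 < t) (hT : t ≤ T) {Ω : Set (E n)}
    (hΩ : MeasurableSet Ω) (h0 : volume Ω ≠ 0) (htop : volume Ω ≠ ⊤) (i : Fin n) (y : E n) :
    |Yp n t T Ω i y| ≤ (n * volume.real (ball (0 : E n) 1) + 1) *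
      (volume.real Ω) ^ (1 / n : ℝ) := by
  have hn0 : (0 : ℝ) < n := by positivity
  set V := volume.real Ω with hV
  have hVpos : 0 < V := ENNReal.toReal_pos h0 htop
  set R : ℝ := V ^ (1 / n : ℝ) with hR
  have hRpos : 0 < R := by positivity
  have hRn : R ^ n = V := by
    rw [hR, ← Real.rpow_natCast, ← Real.rpow_mul hVpos.le, one_div, inv_mul_cancel₀ hn0.ne',
      Real.rpow_one]
  have h1 : ENNReal.ofReal |Yp n t T Ω i y| ≤ ENNReal.ofReal
      ((n * volume.real (ball (0 : E n) 1) + 1) * R) := by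
    rw [Yp, conv_apply hΩ, ← Real.norm_eq_abs, ofReal_norm_eq_enorm]
    calc ‖∫ x in Ω, kk n t T i (y - x)‖ₑ ≤ ∫⁻ x in Ω, ‖kk n t T i (y - x)‖ₑ :=
          enorm_integral_le_lintegral_enorm _
      _ ≤ ∫⁻ x in Ω, ((ball y R).indicator (fun x => ENNReal.ofReal (1 / ‖y - x‖ ^ (n - 1))) x +
            ENNReal.ofReal (1 / R ^ (n - 1))) := by
          apply lintegral_mono
          intro x
          have h2 : ‖kk n t T i (y - x)‖ₑ ≤ ENNReal.ofReal (1 / ‖y - x‖ ^ (n - 1)) := by
            rw [← ofReal_norm_eq_enorm, Real.norm_eq_abs]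
            exact ENNReal.ofReal_le_ofReal (kk_abs_le (by omega) ht hT i _)
          by_cases hx : x ∈ ball y R
          · simp only [indicator_of_mem hx]
            exact h2.trans le_self_add
          · simp only [indicator_of_notMem hx, zero_add]
            refine h2.trans (ENNReal.ofReal_le_ofReal ?_)
            rw [mem_ball, not_lt, dist_comm, dist_eq_norm] at hx
            gcongr
      _ ≤ ENNReal.ofReal (n * (volume.real (ball (0 : E n) 1) * R)) +
            ENNReal.ofReal (1 / R ^ (n - 1)) * volume Ω := by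
          rw [lintegral_add_right _ measurable_const, setLIntegral_const]
          gcongr
          calc ∫⁻ x in Ω, (ball y R).indicator
                (fun x => ENNReal.ofReal (1 / ‖y - x‖ ^ (n - 1))) x
              ≤ ∫⁻ x, (ball y R).indicator
                (fun x => ENNReal.ofReal (1 / ‖y - x‖ ^ (n - 1))) x := setLIntegral_le_lintegral _ _
            _ = ∫⁻ x in ball y R, ENNReal.ofReal (1 / ‖y - x‖ ^ (n - 1)) :=
                lintegral_indicator measurableSet_ball _
            _ ≤ _ := lintegral_inv hn y hRpos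
      _ = _ := by
          rw [← ENNReal.ofReal_toReal htop, ← ENNReal.ofReal_mul (by positivity),
            ← ENNReal.ofReal_add (by positivity) (by positivity)]
          congr 1
          change n * (volume.real (ball (0 : E n) 1) * R) + 1 / R ^ (n - 1) * V = _
          rw [← hRn]
          obtain ⟨m, rfl⟩ : ∃ m, n = m + 1 := ⟨n - 1, by omega⟩
          rw [Nat.add_sub_cancel, pow_succ]
          field_simp
  exact (ENNReal.ofReal_le_ofReal_iff (by positivity)).mp h1

theorem gp_le (hn : 2 ≤ n) {D : ℝ} (hD : ∀ s, deriv tr s ≤ D) {T : ℝ} (hT : 2 ≤ T)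
    {Ω : Set (E n)} (hΩ : MeasurableSet Ω) (htop : volume Ω ≠ ⊤) (y : E n) :
    gp n T Ω y ≤ 2 * D / T ^ 2 * volume.real Ω := by
  have hD0 : 0 ≤ D := (deriv_tr_nonneg 0).trans (hD 0)
  have hT0 : 0 < T := by linarith
  have h1 : ∀ z : E n, pk n T (‖z‖ ^ 2) ≤ 2 * D / T ^ 2 := by
    intro z
    refine (pk_le hn hD hT0 (by positivity)).trans ?_
    have h2 : (T ^ 2 / 2) ^ (1 - (n / 2 : ℝ)) ≤ 1 := by
      apply Real.rpow_le_one_of_one_le_of_nonpos
      · nlinarith
      · have : (2 : ℝ) ≤ n := by exact_mod_cast hn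
        linarith
    calc 2 * ((T ^ 2 / 2) ^ (1 - (n / 2 : ℝ))) * (D / T ^ 2) ≤ 2 * 1 * (D / T ^ 2) := by gcongr
      _ = _ := by ring
  rw [gp, conv_apply hΩ]
  calc ∫ x in Ω, pk n T (‖y - x‖ ^ 2) ≤ ‖∫ x in Ω, pk n T (‖y - x‖ ^ 2)‖ := le_abs_self _
    _ ≤ 2 * D / T ^ 2 * volume.real Ω := by
        apply norm_setIntegral_le_of_norm_le_const htop.lt_top
        intro x _
        rw [Real.norm_of_nonneg (pk_nonneg (by positivity))]
        exact h1 _

theorem gp_eq (hn : 1 ≤ n) {t : ℝ} (ht : 0 < t) {Ω : Set (E n)} (hΩ : MeasurableSet Ω) {y : E n}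
    (hy : closedBall y t ⊆ Ω) : gp n t Ω y = n * volume.real (ball (0 : E n) 1) := by
  rw [gp, conv_apply hΩ, setIntegral_eq_integral_of_forall_compl_eq_zero,
    integral_sub_left_eq_self (fun z : E n => pk n t (‖z‖ ^ 2)) volume y, integral_pk hn ht]
  intro x hx
  apply pk_zero ht
  have : x ∉ closedBall y t := fun h => hx (hy h)
  rw [mem_closedBall, not_le, dist_comm, dist_eq_norm] at this
  gcongr

/-- the case of open sets -/
theorem open_case (n : ℕ) (hn : 2 ≤ n) : ∃ C : ℝ, 1 ≤ C ∧ ∀ (f : E n → E n)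
    (Df : E n → E n →L[ℝ] E n) (K : E n → ℝ), GM n (ball 0 8) f Df K → ∀ Ω : Set (E n),
    IsOpen Ω → volume Ω ≠ ⊤ →
    ∫⁻ z in ball (0 : E n) 3 ∩ f ⁻¹' Ω, ENNReal.ofReal (Df z).det ≤
      ENNReal.ofReal C * volume Ω ^ (1 / n : ℝ) * ∫⁻ z in ball (0 : E n) 4, ‖Df z‖ₑ ^ (n - 1) := by
  obtain ⟨C₁, hC₁, hcut⟩ := exists_cutoff n
  obtain ⟨C₂, hC₂, hrow⟩ := abs_det_rowRepl_le n
  obtain ⟨D, hD0, hD⟩ := exists_deriv_bound
  obtain ⟨ψ, hψ, hψ01, hψ1, hψ0, hψd⟩ := hcut 0 3 (7 / 2) (by norm_num) (by norm_num)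
  set W : ℝ := volume.real (ball (0 : E n) 1) with hW
  have hWpos : 0 < W :=
    ENNReal.toReal_pos (measure_ball_pos _ _ one_pos).ne' measure_ball_lt_top.ne
  have hn0 : (0 : ℝ) < n := by positivity
  set C : ℝ := n * ((n * W + 1) * (C₂ * (2 * C₁))) / (n * W) with hC
  have hψc : HasCompactSupport ψ := by
    apply HasCompactSupport.intro (isCompact_closedBall (0 : E n) (7 / 2))
    intro x hx
    rw [mem_closedBall, not_le] at hx
    exact hψ0 x hx.le
  have hψt : tsupport ψ ⊆ closedBall 0 (7 / 2) := by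
    apply closure_minimal _ isClosed_closedBall
    intro x hx
    by_contra hcon
    rw [mem_closedBall, not_le] at hcon
    exact hx (hψ0 x hcon.le)
  have hψD : tsupport ψ ⊆ ball (0 : E n) 8 :=
    hψt.trans (closedBall_subset_ball (by norm_num))
  have hψd' : ∀ x, ‖fderiv ℝ ψ x‖ ≤ 2 * C₁ := by
    intro x
    refine (hψd x).trans (le_of_eq ?_)
    norm_num
    ring
  have hψd0 : ∀ x, x ∉ ball (0 : E n) 4 → fderiv ℝ ψ x = 0 := by
    intro x hx
    apply image_eq_zero_of_notMem_tsupport
    intro h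
    exact hx (closedBall_subset_ball (by norm_num) (hψt (tsupport_fderiv_subset ℝ h)))
  refine ⟨max C 1, le_max_right _ _, ?_⟩
  intro f Df K H Ω hΩo htop
  have hΩ : MeasurableSet Ω := hΩo.measurableSet
  rcases eq_or_ne (volume Ω) 0 with h0 | h0
  · have : Ω = ∅ := by
      by_contra hne
      exact (hΩo.measure_pos volume (nonempty_iff_ne_empty.mpr hne)).ne' h0
    rw [this]
    simp
  set V : ℝ := volume.real Ω with hV
  have hVpos : 0 < V := ENNReal.toReal_pos h0 htop
  set I4 : ℝ≥0∞ := ∫⁻ z in ball (0 : E n) 4, ‖Df z‖ₑ ^ (n - 1) with hI4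
  have hdet0 : ∀ x, 0 ≤ (Df x).det := by
    intro x
    have h1 := H.dist_le x
    have h2 := H.one_le x
    have h3 : 0 ≤ K x * (Df x).det := le_trans (by positivity) h1
    exact nonneg_of_mul_nonneg_right h3 (by linarith)
  have hdetm : Measurable (fun x => (Df x).det) :=
    ContinuousLinearMap.continuous_det.measurable.comp H.meas
  -- integrability
  have hJ : IntegrableOn (fun x => (Df x).det) (closedBall (0 : E n) 4) :=
    H.intJ.mono_set (closedBall_subset_ball (by norm_num))
  have hint : ∀ g : E n → ℝ, Continuous g →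
      Integrable (fun x => ψ x * g (f x) * (Df x).det) := by
    intro g hg
    have h1 : IntegrableOn (fun x => ψ x * g (f x) * (Df x).det) (closedBall (0 : E n) 4) :=
      hJ.continuousOn_mul ((hψ.continuous.mul (hg.comp H.cont)).continuousOn)
        (isCompact_closedBall _ _)
    rw [integrableOn_iff_integrable_of_support_subset] at h1
    · exact h1
    · intro x hx
      by_contra hcon
      apply hx
      have : ψ x = 0 := image_eq_zero_of_notMem_tsupport fun h =>
        hcon (closedBall_subset_closedBall (by norm_num) (hψt h))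
      simp only [this, zero_mul]
  set A : (E n → ℝ) → ℝ := fun g => ∫ x, ψ x * g (f x) * (Df x).det with hA
  set M : ℝ≥0∞ := n * (ENNReal.ofReal ((n * W + 1) * V ^ (1 / n : ℝ) * (C₂ * (2 * C₁))) * I4)
    with hM
  -- the identity
  have key : ∀ t T : ℝ, 0 < t → t ≤ T → ENNReal.ofReal (A (gp n t Ω)) ≤
      ENNReal.ofReal (A (gp n T Ω)) + M := by
    intro t T ht hT
    have hT0 : 0 < T := by linarith
    have h1 : A (gp n t Ω) - A (gp n T Ω) =
        ∑ i, ∫ x, ψ x * (fderiv ℝ (Yp n t T Ω i) (f x) (EuclideanSpace.single i 1)) *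
          (Df x).det := by
      rw [hA]
      simp only
      rw [← integral_sub (hint _ (gp_cont ht hΩ)) (hint _ (gp_cont hT0 hΩ)),
        ← integral_finset_sum]
      · apply integral_congr_ae
        refine Eventually.of_forall fun x => ?_
        simp only
        rw [← Finset.sum_mul, ← Finset.mul_sum, Yp_div ht hT hΩ]
        ring
      · intro i _
        exact hint (fun y => fderiv ℝ (Yp n t T Ω i) y (EuclideanSpace.single i 1))
          (((Yp_contDiff ht hT hΩ i).continuous_fderiv (by simp)).clm_apply continuous_const)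
    have h2 : ∀ i, ENNReal.ofReal (∫ x, ψ x *
        (fderiv ℝ (Yp n t T Ω i) (f x) (EuclideanSpace.single i 1)) * (Df x).det) ≤
        ENNReal.ofReal ((n * W + 1) * V ^ (1 / n : ℝ) * (C₂ * (2 * C₁))) * I4 := by
      intro i
      rw [H.identity hn i hψ hψc hψD (Yp_contDiff ht hT hΩ i)]
      calc ENNReal.ofReal (-∫ x, Yp n t T Ω i (f x) * (rowRepl i (fderiv ℝ ψ x) (Df x)).det)
          ≤ ‖∫ x, Yp n t T Ω i (f x) * (rowRepl i (fderiv ℝ ψ x) (Df x)).det‖ₑ := by
            rw [← ofReal_norm_eq_enorm]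
            apply ENNReal.ofReal_le_ofReal
            rw [Real.norm_eq_abs]
            exact neg_le_abs _
        _ ≤ ∫⁻ x, ‖Yp n t T Ω i (f x) * (rowRepl i (fderiv ℝ ψ x) (Df x)).det‖ₑ :=
            enorm_integral_le_lintegral_enorm _
        _ ≤ ∫⁻ x, (ball (0 : E n) 4).indicator (fun x =>
              ENNReal.ofReal ((n * W + 1) * V ^ (1 / n : ℝ) * (C₂ * (2 * C₁))) *
                ‖Df x‖ₑ ^ (n - 1)) x := by
            apply lintegral_mono
            intro x
            beta_reduce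
            by_cases hx : x ∈ ball (0 : E n) 4
            · rw [indicator_of_mem hx, ← ofReal_norm_eq_enorm, ← ofReal_norm_eq_enorm,
                ← ENNReal.ofReal_pow (norm_nonneg _), ← ENNReal.ofReal_mul (by positivity)]
              apply ENNReal.ofReal_le_ofReal
              rw [norm_mul, Real.norm_eq_abs, Real.norm_eq_abs]
              calc |Yp n t T Ω i (f x)| * |(rowRepl i (fderiv ℝ ψ x) (Df x)).det|
                  ≤ ((n * W + 1) * V ^ (1 / n : ℝ)) *
                    (C₂ * ‖fderiv ℝ ψ x‖ * ‖Df x‖ ^ (n - 1)) := by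
                    apply mul_le_mul (Yp_le hn ht hT hΩ h0 htop i _) (hrow _ _ _) (abs_nonneg _)
                    positivity
                _ ≤ ((n * W + 1) * V ^ (1 / n : ℝ)) * (C₂ * (2 * C₁) * ‖Df x‖ ^ (n - 1)) := by
                    gcongr
                    exact hψd' x
                _ = _ := by ring
            · rw [indicator_of_notMem hx]
              have h5 := hrow i (fderiv ℝ ψ x) (Df x)
              rw [hψd0 x hx, norm_zero, mul_zero, zero_mul] at h5
              have h6 : (rowRepl i 0 (Df x)).det = 0 := abs_nonpos_iff.mp h5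
              rw [hψd0 x hx, h6, mul_zero, enorm_zero]
        _ = _ := by
            rw [lintegral_indicator measurableSet_ball, lintegral_const_mul' _ _
              ENNReal.ofReal_ne_top]
    have h3 : A (gp n t Ω) = A (gp n T Ω) +
        ∑ i, ∫ x, ψ x * (fderiv ℝ (Yp n t T Ω i) (f x) (EuclideanSpace.single i 1)) *
          (Df x).det := by rw [← h1]; ring
    rw [h3]
    refine ENNReal.ofReal_add_le.trans ?_
    gcongr
    calc ENNReal.ofReal (∑ i, ∫ x, ψ x *
          (fderiv ℝ (Yp n t T Ω i) (f x) (EuclideanSpace.single i 1)) * (Df x).det)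
        ≤ ∑ i, ENNReal.ofReal (∫ x, ψ x *
          (fderiv ℝ (Yp n t T Ω i) (f x) (EuclideanSpace.single i 1)) * (Df x).det) :=
          Finset.le_sum_of_subadditive ENNReal.ofReal ENNReal.ofReal_zero.le
            (fun _ _ => ENNReal.ofReal_add_le) _ _
      _ ≤ ∑ i : Fin n, ENNReal.ofReal ((n * W + 1) * V ^ (1 / n : ℝ) * (C₂ * (2 * C₁))) * I4 :=
          Finset.sum_le_sum fun i _ => h2 i
      _ = M := by
          rw [Finset.sum_const, Finset.card_univ, Fintype.card_fin, nsmul_eq_mul, hM]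
  -- the limit of large outer radius
  have key2 : ∀ t : ℝ, 0 < t → ENNReal.ofReal (A (gp n t Ω)) ≤ M := by
    intro t ht
    set J4 : ℝ := ∫ x in closedBall (0 : E n) 4, (Df x).det with hJ4
    have hJ40 : 0 ≤ J4 := integral_nonneg fun x => hdet0 x
    have h1 : ∀ T : ℝ, 2 ≤ T → A (gp n T Ω) ≤ 2 * D / T ^ 2 * V * J4 := by
      intro T hT
      have hT0 : 0 < T := by linarith
      have h2 : A (gp n T Ω) = ∫ x in closedBall (0 : E n) 4,
          ψ x * gp n T Ω (f x) * (Df x).det := by
        symm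
        apply setIntegral_eq_integral_of_forall_compl_eq_zero
        intro x hx
        have : ψ x = 0 := image_eq_zero_of_notMem_tsupport fun h =>
          hx (closedBall_subset_closedBall (by norm_num) (hψt h))
        rw [this, zero_mul, zero_mul]
      rw [h2, hJ4, ← integral_const_mul]
      apply integral_mono ((hint _ (gp_cont hT0 hΩ)).integrableOn) (hJ.const_mul _)
      intro x
      simp only
      have h3 := gp_le hn hD hT hΩ htop (f x)
      have h4 := gp_nonneg T hΩ (f x)
      have h5 := hψ01 x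
      have h6 := hdet0 x
      have h7 : ψ x * gp n T Ω (f x) ≤ 1 * (2 * D / T ^ 2 * V) :=
        mul_le_mul h5.2 h3 h4 zero_le_one
      rw [one_mul] at h7
      exact mul_le_mul_of_nonneg_right h7 h6
    have h2 : Tendsto (fun T : ℝ => ENNReal.ofReal (2 * D / T ^ 2 * V * J4) + M) atTop
        (𝓝 (ENNReal.ofReal (0 * V * J4) + M)) := by
      apply Tendsto.add_const
      apply ENNReal.tendsto_ofReal
      apply Tendsto.mul_const
      apply Tendsto.mul_const
      exact tendsto_const_nhds.div_atTop (tendsto_pow_atTop (by norm_num))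
    rw [zero_mul, zero_mul, ENNReal.ofReal_zero, zero_add] at h2
    apply ge_of_tendsto h2
    filter_upwards [eventually_ge_atTop 2, eventually_ge_atTop t] with T hT hT'
    refine (key t T ht hT').trans ?_
    gcongr
    exact h1 T hT
  -- Fatou
  set S : Set (E n) := ball (0 : E n) 3 ∩ f ⁻¹' Ω with hS
  set c₀ : ℝ := n * W with hc₀
  have hc₀pos : 0 < c₀ := by positivity
  set tk : ℕ → ℝ := fun k => 1 / ((k : ℝ) + 1) with htk
  have htkpos : ∀ k, 0 < tk k := fun k => by positivity
  have htk0 : Tendsto tk atTop (𝓝 0) := tendsto_one_div_add_atTop_nhds_zero_nat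
  have hSm : MeasurableSet S := measurableSet_ball.inter (H.cont.measurable hΩ)
  have h1 : ∀ x ∈ S, ENNReal.ofReal c₀ * ENNReal.ofReal (Df x).det ≤
      liminf (fun k => ENNReal.ofReal (ψ x * gp n (tk k) Ω (f x) * (Df x).det)) atTop := by
    intro x hx
    obtain ⟨ε, hε, hεΩ⟩ := Metric.isOpen_iff.mp hΩo (f x) hx.2
    have h2 : ∀ᶠ k in atTop, ENNReal.ofReal (ψ x * gp n (tk k) Ω (f x) * (Df x).det) =
        ENNReal.ofReal c₀ * ENNReal.ofReal (Df x).det := by
      filter_upwards [(tendsto_order.1 htk0).2 ε hε] with k hk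
      rw [gp_eq (by omega) (htkpos k) hΩ ((closedBall_subset_ball hk).trans hεΩ),
        hψ1 x (ball_subset_closedBall hx.1), one_mul, ENNReal.ofReal_mul hc₀pos.le]
    rw [(tendsto_const_nhds.congr' (h2.mono fun _ h => h.symm)).liminf_eq]
  have h2 : ENNReal.ofReal c₀ * ∫⁻ x in S, ENNReal.ofReal (Df x).det ≤ M := by
    calc ENNReal.ofReal c₀ * ∫⁻ x in S, ENNReal.ofReal (Df x).det
        = ∫⁻ x in S, ENNReal.ofReal c₀ * ENNReal.ofReal (Df x).det := by
          rw [lintegral_const_mul' _ _ ENNReal.ofReal_ne_top]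
      _ ≤ ∫⁻ x in S, liminf (fun k => ENNReal.ofReal
            (ψ x * gp n (tk k) Ω (f x) * (Df x).det)) atTop := by
          apply setLIntegral_mono' hSm h1
      _ ≤ liminf (fun k => ∫⁻ x in S, ENNReal.ofReal
            (ψ x * gp n (tk k) Ω (f x) * (Df x).det)) atTop := by
          apply lintegral_liminf_le
          intro k
          apply Measurable.ennreal_ofReal
          exact ((hψ.continuous.mul ((gp_cont (htkpos k) hΩ).comp H.cont)).measurable).mul hdetm
      _ ≤ liminf (fun _ : ℕ => M) atTop := by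
          apply liminf_le_liminf (Eventually.of_forall fun k => ?_)
          calc ∫⁻ x in S, ENNReal.ofReal (ψ x * gp n (tk k) Ω (f x) * (Df x).det)
              ≤ ∫⁻ x, ENNReal.ofReal (ψ x * gp n (tk k) Ω (f x) * (Df x).det) :=
                setLIntegral_le_lintegral _ _
            _ = ENNReal.ofReal (A (gp n (tk k) Ω)) := by
                rw [hA, ofReal_integral_eq_lintegral_ofReal (hint _ (gp_cont (htkpos k) hΩ))]
                refine Eventually.of_forall fun x => ?_
                exact mul_nonneg (mul_nonneg (hψ01 x).1 (gp_nonneg _ hΩ _)) (hdet0 x)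
            _ ≤ M := key2 _ (htkpos k)
      _ = M := liminf_const M
  have h3 : ∫⁻ x in S, ENNReal.ofReal (Df x).det ≤ ENNReal.ofReal c₀⁻¹ * M := by
    calc ∫⁻ x in S, ENNReal.ofReal (Df x).det
        = ENNReal.ofReal c₀⁻¹ * (ENNReal.ofReal c₀ * ∫⁻ x in S, ENNReal.ofReal (Df x).det) := by
          rw [← mul_assoc, ← ENNReal.ofReal_mul (by positivity), inv_mul_cancel₀ hc₀pos.ne',
            ENNReal.ofReal_one, one_mul]
      _ ≤ _ := by gcongr
  refine h3.trans ?_
  have h4 : volume Ω ^ (1 / n : ℝ) = ENNReal.ofReal (V ^ (1 / n : ℝ)) := by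
    rw [← ENNReal.ofReal_rpow_of_pos hVpos, hV, Measure.real, ENNReal.ofReal_toReal htop]
  have h5 : (n : ℝ≥0∞) = ENNReal.ofReal (n : ℝ) := (ENNReal.ofReal_natCast n).symm
  rw [h4, hM, h5, ← mul_assoc, ← mul_assoc, ← ENNReal.ofReal_mul (by positivity),
    ← ENNReal.ofReal_mul (by positivity), ← ENNReal.ofReal_mul (by positivity)]
  refine mul_le_mul' (ENNReal.ofReal_le_ofReal ?_) le_rfl
  calc c₀⁻¹ * n * ((n * W + 1) * V ^ (1 / n : ℝ) * (C₂ * (2 * C₁)))
      = C * V ^ (1 / n : ℝ) := by rw [hC, hc₀]; field_simp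
    _ ≤ _ := by gcongr; exact le_max_left _ _

end ImgAux

open ImgAux in
theorem image_small (n : ℕ) (hn : 2 ≤ n) : ∃ C : ℝ, 1 ≤ C ∧ ∀ (f : E n → E n)
    (Df : E n → E n →L[ℝ] E n) (K : E n → ℝ), GM n (ball 0 8) f Df K → ∀ Ω : Set (E n),
    MeasurableSet Ω → volume Ω ≠ ⊤ →
    ∫⁻ z in ball (0 : E n) 3 ∩ f ⁻¹' Ω, ENNReal.ofReal (Df z).det ≤
      ENNReal.ofReal C * volume Ω ^ (1 / n : ℝ) * ∫⁻ z in ball (0 : E n) 4, ‖Df z‖ₑ ^ (n - 1) := by
  obtain ⟨C, hC, hopen⟩ := open_case n hn
  refine ⟨C, hC, ?_⟩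
  intro f Df K H Ω _ htop
  set I4 : ℝ≥0∞ := ∫⁻ z in ball (0 : E n) 4, ‖Df z‖ₑ ^ (n - 1) with hI4
  have hfin : I4 ≠ ⊤ := by
    have h1 : I4 ≤ ∫⁻ z in ball (0 : E n) 4, (1 + ‖Df z‖ₑ ^ pex n) := by
      apply lintegral_mono
      intro z
      simp only
      rcases le_total ‖Df z‖ₑ 1 with h | h
      · exact (pow_le_one₀ bot_le h).trans le_self_add
      · refine le_trans ?_ le_add_self
        rw [← ENNReal.rpow_natCast]
        apply ENNReal.rpow_le_rpow_of_exponent_le h
        rw [pex]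
        have : (1 : ℝ) ≤ n := by exact_mod_cast (by omega : 1 ≤ n)
        push_cast [Nat.cast_sub (by omega : 1 ≤ n)]
        linarith
    refine ne_top_of_le_ne_top ?_ h1
    rw [lintegral_add_left measurable_const, setLIntegral_const, one_mul]
    apply ENNReal.add_ne_top.mpr ⟨measure_ball_lt_top.ne, ?_⟩
    refine ne_top_of_le_ne_top (H.lintegral_Df hn).ne ?_
    exact lintegral_mono_set (ball_subset_ball (by norm_num))
  have hex : ∀ k : ℕ, ∃ U, U ⊇ Ω ∧ IsOpen U ∧ volume U ≤ volume Ω + ENNReal.ofReal (1 / (k + 1)) :=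
    fun k => Ω.exists_isOpen_le_add volume (by
      rw [Ne, ENNReal.ofReal_eq_zero, not_le]
      positivity)
  have hbound : ∀ k : ℕ, ∫⁻ z in ball (0 : E n) 3 ∩ f ⁻¹' Ω, ENNReal.ofReal (Df z).det ≤
      ENNReal.ofReal C * (volume Ω + ENNReal.ofReal (1 / (k + 1))) ^ (1 / n : ℝ) * I4 := by
    intro k
    obtain ⟨U, hU, hUo, hUv⟩ := hex k
    have hUtop : volume U ≠ ⊤ :=
      ne_top_of_le_ne_top (ENNReal.add_ne_top.mpr ⟨htop, ENNReal.ofReal_ne_top⟩) hUv
    calc ∫⁻ z in ball (0 : E n) 3 ∩ f ⁻¹' Ω, ENNReal.ofReal (Df z).det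
        ≤ ∫⁻ z in ball (0 : E n) 3 ∩ f ⁻¹' U, ENNReal.ofReal (Df z).det :=
          lintegral_mono_set (inter_subset_inter_right _ (preimage_mono hU))
      _ ≤ ENNReal.ofReal C * volume U ^ (1 / n : ℝ) * I4 := hopen f Df K H U hUo hUtop
      _ ≤ _ := by gcongr
  have hlim : Tendsto (fun k : ℕ => ENNReal.ofReal C *
      (volume Ω + ENNReal.ofReal (1 / (k + 1))) ^ (1 / n : ℝ) * I4) atTop
      (𝓝 (ENNReal.ofReal C * (volume Ω + 0) ^ (1 / n : ℝ) * I4)) := by
    apply ENNReal.Tendsto.mul_const _ (Or.inr hfin)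
    apply ENNReal.Tendsto.const_mul _ (Or.inr ENNReal.ofReal_ne_top)
    apply (ENNReal.continuous_rpow_const.tendsto _).comp
    apply Tendsto.const_add
    rw [← ENNReal.ofReal_zero]
    apply ENNReal.tendsto_ofReal
    exact tendsto_one_div_add_atTop_nhds_zero_nat
  rw [add_zero] at hlim
  exact ge_of_tendsto' hlim hbound

end Pool.Agent.MP_dd09c0_an
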