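import Pool.Agent.MP_dd09c0_an.Cutoff

/-! Module T3, first half: the logarithmic potential of the pushed-forward Jacobian is large only
on a small set. -/

open MeasureTheory Metric Set Filter Topology
open scoped ENNReal NNReal ContDiff RealInnerProductSpace

namespace Pool.Agent.MP_dd09c0_an

theorem log_fubini (n : ℕ) (hn : 2 ≤ n) : ∃ C : ℝ, 1 ≤ C ∧ ∀ (f : E n → E n)
    (Df : E n → E n →L[ℝ] E n), Continuous f → Measurable Df → ∀ (s b : ℝ), 0 < s →
    s ≤ Real.exp (-4) → 0 < b →
    volume {y : E n | ENNReal.ofReal b ≤
      ∫⁻ z in {z | z ∈ ball (0 : E n) 7 ∧ s < dist (f z) y ∧ dist (f z) y < 1},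
        ENNReal.ofReal ((Df z).det / dist (f z) y ^ n)}
      ≤ ENNReal.ofReal (C * Real.log (1 / s) / b) *
        ∫⁻ z in ball (0 : E n) 7, ENNReal.ofReal (Df z).det := by
  have hvtop : volume (ball (0 : E n) 1) ≠ ⊤ := measure_ball_lt_top.ne
  refine ⟨max 1 (n * (volume (ball (0 : E n) 1)).toReal), le_max_left _ _, ?_⟩
  intro f Df hf hDf s b hs hs4 hb
  have hs1 : s < 1 := by
    refine lt_of_le_of_lt hs4 ?_
    rw [← Real.exp_zero]
    exact Real.exp_lt_exp.2 (by norm_num)
  have hlog : 0 ≤ Real.log (1 / s) := Real.log_nonneg (by rw [le_div_iff₀ hs]; linarith)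
  have hdetm : Measurable (fun z => (Df z).det) :=
    (ContinuousLinearMap.continuous_det (𝕜 := ℝ) (E := E n)).measurable.comp hDf
  set S : Set (E n × E n) :=
    {p | p.2 ∈ ball (0 : E n) 7 ∧ s < dist (f p.2) p.1 ∧ dist (f p.2) p.1 < 1} with hS
  have hdistc : Continuous (fun p : E n × E n => dist (f p.2) p.1) :=
    (hf.comp continuous_snd).dist continuous_fst
  have hSm : MeasurableSet S := by
    refine (measurableSet_ball.preimage measurable_snd).inter ?_
    exact (measurableSet_lt measurable_const hdistc.measurable).inter
      (measurableSet_lt hdistc.measurable measurable_const)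
  set F : E n → E n → ℝ≥0∞ := fun y z =>
    S.indicator (fun p => ENNReal.ofReal ((Df p.2).det / dist (f p.2) p.1 ^ n)) (y, z) with hFdef
  have hFm : Measurable (Function.uncurry F) := by
    have : Function.uncurry F =
        S.indicator (fun p => ENNReal.ofReal ((Df p.2).det / dist (f p.2) p.1 ^ n)) := by
      funext p
      rfl
    rw [this]
    refine Measurable.indicator ?_ hSm
    exact ((hdetm.comp measurable_snd).div (hdistc.measurable.pow_const n)).ennreal_ofReal
  have hI : ∀ y, (∫⁻ z in {z | z ∈ ball (0 : E n) 7 ∧ s < dist (f z) y ∧ dist (f z) y < 1},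
        ENNReal.ofReal ((Df z).det / dist (f z) y ^ n)) = ∫⁻ z, F y z := by
    intro y
    have hm : MeasurableSet {z | z ∈ ball (0 : E n) 7 ∧ s < dist (f z) y ∧ dist (f z) y < 1} := by
      have hc : Continuous (fun z : E n => dist (f z) y) := hf.dist continuous_const
      exact measurableSet_ball.inter ((measurableSet_lt measurable_const hc.measurable).inter
        (measurableSet_lt hc.measurable measurable_const))
    rw [← lintegral_indicator hm]
    rfl
  simp only [hI]
  have hIm : Measurable (fun y => ∫⁻ z, F y z) := Measurable.lintegral_prod_right' hFm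
  have hb0 : ENNReal.ofReal b ≠ 0 := by simpa using hb
  have key : ∀ z, ∫⁻ y, F y z ≤ (ball (0 : E n) 7).indicator (fun z =>
      ENNReal.ofReal (Df z).det *
        (ENNReal.ofReal (n * Real.log (1 / s)) * volume (ball (0 : E n) 1))) z := by
    intro z
    by_cases hz : z ∈ ball (0 : E n) 7
    · rw [indicator_of_mem hz]
      have e1 : ∀ y, F y z = {y : E n | s < dist y (f z) ∧ dist y (f z) < 1}.indicator
          (fun y => ENNReal.ofReal (Df z).det * ENNReal.ofReal (1 / dist y (f z) ^ n)) y := by
        intro y
        simp only [hFdef]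
        by_cases hy : s < dist y (f z) ∧ dist y (f z) < 1
        · rw [indicator_of_mem (show y ∈ {y : E n | s < dist y (f z) ∧ dist y (f z) < 1} from hy),
            indicator_of_mem (show (y, z) ∈ S from ⟨hz, by rw [dist_comm]; exact hy.1,
              by rw [dist_comm]; exact hy.2⟩)]
          rw [← ENNReal.ofReal_mul' (by positivity), dist_comm y (f z)]
          congr 1
          ring
        · rw [indicator_of_notMem (show y ∉ {y : E n | s < dist y (f z) ∧ dist y (f z) < 1} from hy),
            indicator_of_notMem]
          rintro ⟨-, h1, h2⟩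
          simp only at h1 h2
          rw [dist_comm] at h1 h2
          exact hy ⟨h1, h2⟩
      simp only [e1]
      have hm : MeasurableSet {y : E n | s < dist y (f z) ∧ dist y (f z) < 1} := by
        have hc : Continuous (fun y : E n => dist y (f z)) := continuous_id.dist continuous_const
        exact (measurableSet_lt measurable_const hc.measurable).inter
          (measurableSet_lt hc.measurable measurable_const)
      rw [lintegral_indicator hm, lintegral_const_mul']
      · gcongr
        exact lintegral_shell n (by omega) (f z) hs hs1.le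
      · exact ENNReal.ofReal_ne_top
    · rw [indicator_of_notMem hz]
      have e1 : ∀ y, F y z = 0 := by
        intro y
        simp only [hFdef]
        rw [indicator_of_notMem]
        rintro ⟨h1, -⟩
        exact hz h1
      simp [e1]
  calc volume {y : E n | ENNReal.ofReal b ≤ ∫⁻ z, F y z}
      ≤ (∫⁻ y, ∫⁻ z, F y z) / ENNReal.ofReal b :=
        meas_ge_le_lintegral_div hIm.aemeasurable hb0 ENNReal.ofReal_ne_top
    _ = (∫⁻ z, ∫⁻ y, F y z) / ENNReal.ofReal b := by
        rw [lintegral_lintegral_swap hFm.aemeasurable]
    _ ≤ (∫⁻ z, (ball (0 : E n) 7).indicator (fun z =>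
          ENNReal.ofReal (Df z).det *
          (ENNReal.ofReal (n * Real.log (1 / s)) * volume (ball (0 : E n) 1))) z) /
            ENNReal.ofReal b := by
        gcongr with z
        exact key z
    _ = ((∫⁻ z in ball (0 : E n) 7, ENNReal.ofReal (Df z).det) *
          (ENNReal.ofReal (n * Real.log (1 / s)) * volume (ball (0 : E n) 1))) /
            ENNReal.ofReal b := by
        rw [lintegral_indicator measurableSet_ball, lintegral_mul_const']
        exact ENNReal.mul_ne_top ENNReal.ofReal_ne_top hvtop
    _ ≤ ENNReal.ofReal (max 1 (n * (volume (ball (0 : E n) 1)).toReal) * Real.log (1 / s) / b) *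
        ∫⁻ z in ball (0 : E n) 7, ENNReal.ofReal (Df z).det := by
        rw [mul_comm (∫⁻ z in ball (0 : E n) 7, ENNReal.ofReal (Df z).det), ENNReal.mul_div_right_comm]
        gcongr
        rw [← ENNReal.ofReal_toReal hvtop, ← ENNReal.ofReal_mul (by positivity),
          ← ENNReal.ofReal_div_of_pos hb, ENNReal.ofReal_toReal hvtop]
        apply ENNReal.ofReal_le_ofReal
        refine div_le_div_of_nonneg_right ?_ hb.le
        calc (n : ℝ) * Real.log (1 / s) * (volume (ball (0 : E n) 1)).toReal
            = (n * (volume (ball (0 : E n) 1)).toReal) * Real.log (1 / s) := by ring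
          _ ≤ _ := mul_le_mul_of_nonneg_right (le_max_right _ _) hlog

end Pool.Agent.MP_dd09c0_an
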