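import Pool.Agent.MP_dd09c0_an.CompDeg
import Pool.Agent.MP_dd09c0_an.Energy
import Pool.Agent.MP_dd09c0_an.Cacc
import Pool.Agent.MP_dd09c0_an.EnergyLower
import Pool.Agent.MP_dd09c0_an.ImageSmall
import Pool.Agent.MP_dd09c0_an.CompInBall
import Pool.Agent.MP_dd09c0_an.LogFubini
import Pool.Agent.MP_dd09c0_an.DegCover

open MeasureTheory Metric Set Filter Topology
open scoped ENNReal NNReal ContDiff RealInnerProductSpace

namespace Pool.Agent.MP_dd09c0_an

variable {n : ℕ}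

namespace TopAux

/-- pointwise bound of `‖Df‖^{n-1}`. -/
lemma pow_le_add (hn : 2 ≤ n) {a K J : ℝ} (ha : 0 ≤ a) (hK : 1 ≤ K) (h : a ^ n ≤ K * J) :
    0 ≤ J ∧ a ^ (n - 1) ≤ J + K ^ (n - 1) := by
  obtain ⟨m, rfl⟩ : ∃ m, n = m + 2 := ⟨n - 2, by omega⟩
  have hJ : 0 ≤ J := by
    have h1 : 0 ≤ K * J := le_trans (by positivity) h
    by_contra hJ
    push Not at hJ
    nlinarith
  refine ⟨hJ, ?_⟩
  have e1 : m + 2 - 1 = m + 1 := by omega
  rw [e1]
  rcases le_total J (K ^ (m + 1)) with h1 | h1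
  · have h2 : a ^ (m + 2) ≤ K ^ (m + 2) := by
      calc a ^ (m + 2) ≤ K * J := h
        _ ≤ K * K ^ (m + 1) := by gcongr
        _ = K ^ (m + 2) := by ring
    have h3 : a ≤ K := le_of_pow_le_pow_left₀ (by omega) (by linarith) h2
    have h4 : a ^ (m + 1) ≤ K ^ (m + 1) := by gcongr
    linarith
  · have h2 : (a ^ (m + 1)) ^ (m + 2) ≤ J ^ (m + 2) := by
      calc (a ^ (m + 1)) ^ (m + 2) = (a ^ (m + 2)) ^ (m + 1) := by
            rw [← pow_mul, ← pow_mul, mul_comm]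
        _ ≤ (K * J) ^ (m + 1) := by gcongr
        _ = K ^ (m + 1) * J ^ (m + 1) := by rw [mul_pow]
        _ ≤ J * J ^ (m + 1) := by gcongr
        _ = J ^ (m + 2) := by ring
    have h3 : a ^ (m + 1) ≤ J := le_of_pow_le_pow_left₀ (by omega) hJ h2
    have h4 : 0 ≤ K ^ (m + 1) := by positivity
    linarith

lemma enorm_pow_le {D : Set (E n)} {f : E n → E n} {Df : E n → E n →L[ℝ] E n} {K : E n → ℝ}
    (hn : 2 ≤ n) (H : GM n D f Df K) (z : E n) :
    ‖Df z‖ₑ ^ (n - 1) ≤ ENNReal.ofReal (Df z).det + ENNReal.ofReal (K z) ^ (n - 1) := by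
  have h := pow_le_add hn (norm_nonneg (Df z)) (H.one_le z) (H.dist_le z)
  have hK : 0 ≤ K z := zero_le_one.trans (H.one_le z)
  rw [← ofReal_norm, ← ENNReal.ofReal_pow (norm_nonneg _), ← ENNReal.ofReal_pow hK,
    ← ENNReal.ofReal_add h.1 (by positivity)]
  exact ENNReal.ofReal_le_ofReal h.2

lemma ofReal_K_ge {D : Set (E n)} {f : E n → E n} {Df : E n → E n →L[ℝ] E n} {K : E n → ℝ}
    (H : GM n D f Df K) (z : E n) : 1 ≤ ENNReal.ofReal (K z) := by
  rw [← ENNReal.ofReal_one]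
  exact ENNReal.ofReal_le_ofReal (H.one_le z)

lemma lintegral_K_le {D : Set (E n)} {f : E n → E n} {Df : E n → E n →L[ℝ] E n} {K : E n → ℝ}
    (H : GM n D f Df K) {S S' : Set (E n)} (hS : S ⊆ S') {i j : ℕ} (hij : i ≤ j) {T : ℝ}
    (hT : ∫⁻ z in S', ENNReal.ofReal (K z) ^ j ≤ ENNReal.ofReal T) :
    ∫⁻ z in S, ENNReal.ofReal (K z) ^ i ≤ ENNReal.ofReal T := by
  refine le_trans ?_ hT
  refine (lintegral_mono_set hS).trans (lintegral_mono fun z => ?_)
  exact pow_le_pow_right₀ (ofReal_K_ge H z) hij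

lemma cauchy {D : Set (E n)} {f : E n → E n} {Df : E n → E n →L[ℝ] E n} {K : E n → ℝ}
    (hn : 2 ≤ n) (H : GM n D f Df K) (G : Set (E n)) :
    ∫⁻ z in G, ENNReal.ofReal (K z) ^ (2 * n - 1) ≤
      (∫⁻ z in G, ENNReal.ofReal (K z) ^ (4 * n - 2)) ^ (1 / 2 : ℝ) * volume G ^ (1 / 2 : ℝ) := by
  have hm : Measurable (fun z => ENNReal.ofReal (K z) ^ (2 * n - 1)) :=
    H.measK.ennreal_ofReal.pow_const _
  have h := ENNReal.lintegral_mul_le_Lp_mul_Lq (volume.restrict G)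
    (p := 2) (q := 2) (Real.HolderConjugate.two_two) hm.aemeasurable
    (aemeasurable_const (b := (1 : ℝ≥0∞)))
  have e1 : ∀ z : E n, (ENNReal.ofReal (K z) ^ (2 * n - 1)) ^ (2 : ℝ)
      = ENNReal.ofReal (K z) ^ (4 * n - 2) := by
    intro z
    rw [← ENNReal.rpow_natCast, ← ENNReal.rpow_natCast, ← ENNReal.rpow_mul]
    congr 1
    have : (4 * n - 2 : ℕ) = (2 * n - 1) * 2 := by omega
    rw [this]
    push_cast
    ring
  simp only [Pi.mul_apply, mul_one, e1, ENNReal.one_rpow, lintegral_const, one_mul,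
    Measure.restrict_apply_univ] at h
  exact h

lemma measurable_param {α β : Type*} [MeasurableSpace α] [MeasurableSpace β] {ν : Measure β}
    [SFinite ν] {S : Set (α × β)} (hS : MeasurableSet S) {F : α × β → ℝ≥0∞} (hF : Measurable F) :
    Measurable (fun y : α => ∫⁻ z in Prod.mk y ⁻¹' S, F (y, z) ∂ν) := by
  have hind := (hF.indicator hS).lintegral_prod_right' (ν := ν)
  have heq : (fun y : α => ∫⁻ z in Prod.mk y ⁻¹' S, F (y, z) ∂ν)
      = fun y => ∫⁻ z, S.indicator F (y, z) ∂ν := by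
    funext y
    rw [← lintegral_indicator (measurable_prodMk_left hS)]
    refine lintegral_congr fun z => ?_
    by_cases h : (y, z) ∈ S
    · rw [indicator_of_mem h, indicator_of_mem (show z ∈ Prod.mk y ⁻¹' S from h)]
    · rw [indicator_of_notMem h, indicator_of_notMem (show z ∉ Prod.mk y ⁻¹' S from h)]
  rw [heq]
  exact hind

lemma measurable_I {f : E n → E n} {Df : E n → E n →L[ℝ] E n} (hf : Continuous f)
    (hD : Measurable Df) (s : ℝ) :
    Measurable (fun y : E n =>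
      ∫⁻ z in {z | z ∈ ball (0 : E n) 7 ∧ s < dist (f z) y ∧ dist (f z) y < 1},
        ENNReal.ofReal ((Df z).det / dist (f z) y ^ n)) := by
  have hdetm : Measurable (fun z => (Df z).det) :=
    (ContinuousLinearMap.continuous_det).measurable.comp hD
  have hd : Measurable (fun p : E n × E n => dist (f p.2) p.1) :=
    ((hf.comp continuous_snd).dist continuous_fst).measurable
  have hset : MeasurableSet {p : E n × E n | p.2 ∈ ball (0 : E n) 7 ∧ s < dist (f p.2) p.1 ∧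
      dist (f p.2) p.1 < 1} :=
    (measurableSet_ball.preimage measurable_snd).inter
      ((measurableSet_lt measurable_const hd).inter (measurableSet_lt hd measurable_const))
  have hfun : Measurable (fun p : E n × E n =>
      ENNReal.ofReal ((Df p.2).det / dist (f p.2) p.1 ^ n)) :=
    ((hdetm.comp measurable_snd).div (hd.pow_const n)).ennreal_ofReal
  exact measurable_param (ν := (volume : Measure (E n))) hset hfun

lemma num_aux {c A T C5 Λ : ℝ} (m : ℕ) (hc : 0 < c) (hA : 0 < A) (hT : 0 < T) (hΛ : 0 < Λ)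
    (h : C5 * (A / c) ^ m * T ^ (m + 2) ≤ Λ) : C5 * T ^ 2 / Λ ≤ (c / (A * T)) ^ m := by
  rw [div_le_iff₀ hΛ]
  calc C5 * T ^ 2 = (c / (A * T)) ^ m * (C5 * (A / c) ^ m * T ^ (m + 2)) := by
        rw [div_pow, div_pow, mul_pow, pow_add]
        field_simp
    _ ≤ (c / (A * T)) ^ m * Λ := by gcongr

lemma num_aux2 {c A T Λ : ℝ} (m : ℕ) (hc : 0 < c) (hA : 0 < A) (hT : 0 < T) (hΛ : 0 < Λ)
    (h : (A / c) ^ m * T ^ (m + 1) ≤ Λ) : T * (1 / Λ) ≤ (c / (A * T)) ^ m := by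
  rw [mul_one_div, div_le_iff₀ hΛ]
  calc T = (c / (A * T)) ^ m * ((A / c) ^ m * T ^ (m + 1)) := by
        rw [div_pow, div_pow, mul_pow, pow_add]
        field_simp
    _ ≤ (c / (A * T)) ^ m * Λ := by gcongr

/-- The real inequality for the first part. -/
lemma real_one (hn : 2 ≤ n) {c A T v : ℝ} (hc : 0 < c) (hc1 : c ≤ 1) (hA : 1 ≤ A) (hT : 1 ≤ T)
    (hv : 0 ≤ v) (h : v ≤ (c / (A * T)) ^ (2 * n)) :
    (A * T * v ^ (1 / n : ℝ)) ^ (1 - 1 / (2 * n) : ℝ) * T ^ (1 / (2 * n) : ℝ) ≤ c := by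
  have hn0 : (0 : ℝ) < n := by positivity
  have hn2 : (2 : ℝ) ≤ n := by exact_mod_cast hn
  have hA0 : 0 < A := by linarith
  have hT0 : 0 < T := by linarith
  have hα : (1 / (2 * n) : ℝ) ≤ 1 / 2 := by
    rw [div_le_div_iff_of_pos_left one_pos (by positivity) (by positivity)]
    linarith
  have hα0 : (0 : ℝ) < 1 / (2 * n) := by positivity
  have hu0 : 0 < c / (A * T) := by positivity
  have h1 : v ^ (1 / n : ℝ) ≤ (c / (A * T)) ^ 2 := by
    calc v ^ (1 / n : ℝ) ≤ ((c / (A * T)) ^ (2 * n)) ^ (1 / n : ℝ) :=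
          Real.rpow_le_rpow hv h (by positivity)
      _ = (c / (A * T)) ^ 2 := by
          rw [pow_mul, one_div, Real.pow_rpow_inv_natCast (by positivity) (by omega)]
  have h2 : A * T * v ^ (1 / n : ℝ) ≤ c ^ 2 / T := by
    calc A * T * v ^ (1 / n : ℝ) ≤ A * T * (c / (A * T)) ^ 2 := by gcongr
      _ = c ^ 2 / T / A := by field_simp
      _ ≤ c ^ 2 / T := div_le_self (by positivity) hA
  have h3 : (A * T * v ^ (1 / n : ℝ)) ^ (1 - 1 / (2 * n) : ℝ)
      ≤ (c ^ 2 / T) ^ (1 - 1 / (2 * n) : ℝ) :=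
    Real.rpow_le_rpow (by positivity) h2 (by linarith)
  calc (A * T * v ^ (1 / n : ℝ)) ^ (1 - 1 / (2 * n) : ℝ) * T ^ (1 / (2 * n) : ℝ)
      ≤ (c ^ 2 / T) ^ (1 - 1 / (2 * n) : ℝ) * T ^ (1 / (2 * n) : ℝ) := by gcongr
    _ = (c ^ 2) ^ (1 - 1 / (2 * n) : ℝ) * (T ^ (1 / (2 * n) : ℝ) / T ^ (1 - 1 / (2 * n) : ℝ)) := by
        rw [Real.div_rpow (by positivity) hT0.le]
        ring
    _ ≤ c * 1 := by
        refine mul_le_mul ?_ ?_ (by positivity) hc.le
        · rw [← Real.rpow_natCast c 2, ← Real.rpow_mul hc.le]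
          calc c ^ (((2 : ℕ) : ℝ) * (1 - 1 / (2 * n))) ≤ c ^ (1 : ℝ) := by
                refine Real.rpow_le_rpow_of_exponent_ge hc hc1 ?_
                push_cast
                linarith
            _ = c := Real.rpow_one c
        · rw [div_le_one (by positivity)]
          exact Real.rpow_le_rpow_of_exponent_le hT (by linarith)
    _ = c := mul_one c

/-- The real inequality for the second part. -/
lemma real_two (hn : 2 ≤ n) {c C T w : ℝ} (hc : 0 < c) (hC : 1 ≤ C) (hT : 1 ≤ T)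
    (hw : 0 ≤ w) (h : w ≤ (c / (C * T)) ^ (4 * n)) :
    (C * T) ^ (1 - 1 / (2 * n) : ℝ) * (w ^ (1 / 2 : ℝ)) ^ (1 / (2 * n) : ℝ) ≤ c := by
  have hn0 : (0 : ℝ) < n := by positivity
  have hn2 : (2 : ℝ) ≤ n := by exact_mod_cast hn
  have hC0 : 0 < C := by linarith
  have hT0 : 0 < T := by linarith
  have hCT : 1 ≤ C * T := by nlinarith
  have h1 : (w ^ (1 / 2 : ℝ)) ^ (1 / (2 * n) : ℝ) ≤ c / (C * T) := by
    calc (w ^ (1 / 2 : ℝ)) ^ (1 / (2 * n) : ℝ)
        ≤ (((c / (C * T)) ^ (4 * n)) ^ (1 / 2 : ℝ)) ^ (1 / (2 * n) : ℝ) := by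
          gcongr
      _ = c / (C * T) := by
          rw [← Real.rpow_mul (by positivity), ← Real.rpow_natCast, ← Real.rpow_mul (by positivity)]
          have : ((4 * n : ℕ) : ℝ) * (1 / 2 * (1 / (2 * n))) = 1 := by
            push_cast
            field_simp
            norm_num
          rw [this, Real.rpow_one]
  have h2 : (C * T) ^ (1 - 1 / (2 * n) : ℝ) ≤ C * T := by
    calc (C * T) ^ (1 - 1 / (2 * n) : ℝ) ≤ (C * T) ^ (1 : ℝ) := by
          refine Real.rpow_le_rpow_of_exponent_le hCT ?_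
          have : (0 : ℝ) < 1 / (2 * n) := by positivity
          linarith
      _ = C * T := Real.rpow_one _
  calc (C * T) ^ (1 - 1 / (2 * n) : ℝ) * (w ^ (1 / 2 : ℝ)) ^ (1 / (2 * n) : ℝ)
      ≤ (C * T) * (c / (C * T)) := by gcongr
    _ = c := by field_simp

end TopAux

open TopAux

theorem top_level (n : ℕ) (hn : 3 ≤ n) (M : ℝ) (hM : 1 ≤ M) : ∃ C : ℝ, ∃ N : ℕ, 1 ≤ C ∧
    ∀ (T : ℝ) (f : E n → E n) (Df : E n → E n →L[ℝ] E n) (K : E n → ℝ),
    GM n (ball 0 8) f Df K → 1 ≤ T → 1 ≤ diam (f '' ball 0 1) →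
    (∀ z ∈ ball (0 : E n) 8, ∀ w ∈ ball (0 : E n) 8, dist (f z) (f w) ≤ M) →
    ∫⁻ z in ball (0 : E n) 8, ENNReal.ofReal (K z) ^ (4 * n - 2) ≤ ENNReal.ofReal T →
    ∃ G : Set (E n), MeasurableSet G ∧ G ⊆ ball 0 3 ∧ ENNReal.ofReal (1 / (C * T ^ N)) ≤ volume G ∧
      ∀ x ∈ G, comp f (ball 0 8) x (Real.exp (-(C * T ^ N))) ⊆ ball x (1 / 16) ∧
        ∃ k : ℕ, (k : ℝ) ≤ C * T ^ N ∧
          HasDeg f Df (comp f (ball 0 8) x (Real.exp (-(C * T ^ N))))
            (ball (f x) (Real.exp (-(C * T ^ N)))) k := by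
  have hn2 : 2 ≤ n := by omega
  obtain ⟨ce, hce0, hce⟩ := energy_lower n hn2
  obtain ⟨Ci, hCi1, hCi⟩ := image_small n hn2
  obtain ⟨cc, hcc0, hcc⟩ := comp_in_ball n hn
  obtain ⟨Cl, hCl1, hCl⟩ := log_fubini n hn2
  obtain ⟨Cd, hCd1, hCd⟩ := deg_cover n (by omega)
  obtain ⟨Ca, hCa1, hCa⟩ := cacc n hn2
  -- constants
  set C1 : ℝ := Ca * (M / (15 / 2 - 7)) ^ n with hC1
  have hM2 : 1 ≤ (M / (15 / 2 - 7)) ^ n := one_le_pow₀ (by
    rw [le_div_iff₀ (by norm_num)]; linarith)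
  have hC11 : 1 ≤ C1 := by nlinarith
  set A : ℝ := Ci * (C1 + 1) with hA
  have hA1 : 1 ≤ A := by nlinarith
  set C5 : ℝ := Cl * C1 / cc + Cd * C1 with hC5
  have hC50 : 0 < C5 := by positivity
  set c' : ℝ := min ce 1 / 3 with hc'
  have hc'0 : 0 < c' := by
    have : 0 < min ce 1 := lt_min hce0 one_pos
    positivity
  have hc'1 : c' ≤ 1 := by
    have : min ce 1 ≤ 1 := min_le_right _ _
    rw [hc']; linarith
  have hc'e : c' + c' < ce := by
    have : min ce 1 ≤ ce := min_le_left _ _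
    rw [hc']; linarith
  set C : ℝ := 4 + C5 * (A / c') ^ (2 * n) + (C1 / c') ^ (4 * n) with hC
  have hC4 : 4 ≤ C := by
    have h1 : 0 ≤ C5 * (A / c') ^ (2 * n) := by positivity
    have h2 : 0 ≤ (C1 / c') ^ (4 * n) := by positivity
    linarith
  have hCa' : C5 * (A / c') ^ (2 * n) ≤ C := by
    have h2 : 0 ≤ (C1 / c') ^ (4 * n) := by positivity
    linarith
  have hCb' : (C1 / c') ^ (4 * n) ≤ C := by
    have h1 : 0 ≤ C5 * (A / c') ^ (2 * n) := by positivity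
    linarith
  refine ⟨C, 4 * n + 2, by linarith, ?_⟩
  intro T f Df K H hT hdiam hM' hK
  have hT0 : 0 < T := by linarith
  set Λ : ℝ := C * T ^ (4 * n + 2) with hΛ
  have hTN : 1 ≤ T ^ (4 * n + 2) := one_le_pow₀ hT
  have hΛ4 : 4 ≤ Λ := by nlinarith
  have hΛ0 : 0 < Λ := by linarith
  set s : ℝ := Real.exp (-Λ) with hs
  have hs0 : 0 < s := Real.exp_pos _
  have hs4 : s ≤ Real.exp (-4) := Real.exp_le_exp.2 (by linarith)
  have hlog : Real.log (1 / s) = Λ := by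
    rw [hs, one_div, ← Real.exp_neg, neg_neg, Real.log_exp]
  have hKj : ∀ (S : Set (E n)) (j : ℕ), S ⊆ ball 0 8 → j ≤ 4 * n - 2 →
      ∫⁻ z in S, ENNReal.ofReal (K z) ^ j ≤ ENNReal.ofReal T :=
    fun S j hS hj => lintegral_K_le H hS hj hK
  -- Jacobian bound
  have hJ7 : ∫⁻ z in ball (0 : E n) 7, ENNReal.ofReal (Df z).det ≤ ENNReal.ofReal (C1 * T) := by
    have h1 := hCa (ball 0 8) f Df K H 0 7 (15 / 2) M (by norm_num) (by norm_num)
      (closedBall_subset_ball (by norm_num)) (fun z hz =>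
        hM' z (ball_subset_ball (by norm_num) hz) 0 (mem_ball_self (by norm_num)))
    refine h1.trans ?_
    rw [show ENNReal.ofReal (C1 * T) = ENNReal.ofReal C1 * ENNReal.ofReal T from
      ENNReal.ofReal_mul (by positivity)]
    exact mul_le_mul' le_rfl (hKj (ball 0 (15 / 2)) (n - 1) (ball_subset_ball (by norm_num))
      (by omega))
  have hJS : ∀ S : Set (E n), S ⊆ ball 0 7 →
      ∫⁻ z in S, ENNReal.ofReal (Df z).det ≤ ENNReal.ofReal (C1 * T) :=
    fun S hS => (lintegral_mono_set hS).trans hJ7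
  have hDf4 : ∫⁻ z in ball (0 : E n) 4, ‖Df z‖ₑ ^ (n - 1) ≤ ENNReal.ofReal ((C1 + 1) * T) := by
    calc ∫⁻ z in ball (0 : E n) 4, ‖Df z‖ₑ ^ (n - 1)
        ≤ ∫⁻ z in ball (0 : E n) 4, (ENNReal.ofReal (Df z).det + ENNReal.ofReal (K z) ^ (n - 1)) :=
          lintegral_mono fun z => enorm_pow_le hn2 H z
      _ = (∫⁻ z in ball (0 : E n) 4, ENNReal.ofReal (Df z).det)
          + ∫⁻ z in ball (0 : E n) 4, ENNReal.ofReal (K z) ^ (n - 1) :=
          lintegral_add_right _ (H.measK.ennreal_ofReal.pow_const _)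
      _ ≤ ENNReal.ofReal (C1 * T) + ENNReal.ofReal T :=
          add_le_add (hJS _ (ball_subset_ball (by norm_num)))
            (hKj _ _ (ball_subset_ball (by norm_num)) (by omega))
      _ = ENNReal.ofReal ((C1 + 1) * T) := by
          rw [← ENNReal.ofReal_add (by positivity) hT0.le]
          congr 1
          ring
  -- first exceptional set
  set b1 : ℝ := cc * Λ ^ n / T with hb1
  have hb10 : 0 < b1 := by positivity
  set I : E n → ℝ≥0∞ := fun y =>
    ∫⁻ z in {z | z ∈ ball (0 : E n) 7 ∧ s < dist (f z) y ∧ dist (f z) y < 1},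
        ENNReal.ofReal ((Df z).det / dist (f z) y ^ n) with hI
  set Ω1 : Set (E n) := {y | ENNReal.ofReal b1 ≤ I y} with hΩ1
  have hIm : Measurable I := measurable_I H.cont H.meas s
  have hΩ1m : MeasurableSet Ω1 := measurableSet_le measurable_const hIm
  have hΩ1v : volume Ω1 ≤ ENNReal.ofReal (Cl * C1 / cc * T ^ 2 / Λ) := by
    have h1 := hCl f Df H.cont H.meas s b1 hs0 hs4 hb10
    rw [hlog] at h1
    have h2 : volume Ω1 ≤ ENNReal.ofReal (Cl * Λ / b1) * ENNReal.ofReal (C1 * T) :=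
      h1.trans (mul_le_mul' le_rfl hJ7)
    refine h2.trans ?_
    rw [← ENNReal.ofReal_mul (by positivity)]
    refine ENNReal.ofReal_le_ofReal ?_
    have h3 : Λ ^ 2 ≤ Λ ^ n := pow_le_pow_right₀ (by linarith) hn2
    rw [hb1]
    have e1 : Cl * Λ / (cc * Λ ^ n / T) * (C1 * T) = Cl * C1 / cc * T ^ 2 * (Λ / Λ ^ n) := by
      field_simp
    have e2 : Cl * C1 / cc * T ^ 2 / Λ = Cl * C1 / cc * T ^ 2 * (Λ / Λ ^ 2) := by
      field_simp
    rw [e1, e2]
    gcongr
  -- second exceptional set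
  set B : Set (E n) := {x | x ∈ ball (0 : E n) 3 ∧ comp f (ball 0 8) x s ⊆ ball x (1 / 16) ∧
      ∃ k : ℕ, Λ < k ∧ HasDeg f Df (comp f (ball 0 8) x s) (ball (f x) s) k} with hB
  set Ω2 : Set (E n) := ⋃ x ∈ B, ball (f x) s with hΩ2
  have hΩ2m : MeasurableSet Ω2 := (isOpen_biUnion fun _ _ => isOpen_ball).measurableSet
  have hΩ2v : volume Ω2 ≤ ENNReal.ofReal (Cd * C1 * T ^ 2 / Λ) := by
    have h1 := hCd f Df K H s Λ B hs0 hΛ0 (fun x hx => hx)
    have h2 : volume Ω2 ≤ ENNReal.ofReal (Cd / Λ) * ENNReal.ofReal (C1 * T) :=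
      h1.trans (mul_le_mul' le_rfl (hJS _ (ball_subset_ball (by norm_num))))
    refine h2.trans ?_
    rw [← ENNReal.ofReal_mul (by positivity)]
    refine ENNReal.ofReal_le_ofReal ?_
    have e1 : Cd / Λ * (C1 * T) = Cd * C1 * T / Λ := by ring
    rw [e1]
    have h3 : T ≤ T ^ 2 := by nlinarith
    gcongr
  set Ω : Set (E n) := Ω1 ∪ Ω2 with hΩ
  have hΩm : MeasurableSet Ω := hΩ1m.union hΩ2m
  set v : ℝ := C5 * T ^ 2 / Λ with hv
  have hv0 : 0 ≤ v := by positivity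
  have hΩv : volume Ω ≤ ENNReal.ofReal v := by
    refine (measure_union_le _ _).trans ((add_le_add hΩ1v hΩ2v).trans ?_)
    rw [← ENNReal.ofReal_add (by positivity) (by positivity)]
    refine ENNReal.ofReal_le_ofReal (le_of_eq ?_)
    rw [hv, hC5]
    ring
  have hΩtop : volume Ω ≠ ⊤ := ne_top_of_le_ne_top ENNReal.ofReal_ne_top hΩv
  -- numerical consequences
  have hvle : v ≤ (c' / (A * T)) ^ (2 * n) := by
    have h1 : C5 * (A / c') ^ (2 * n) * T ^ (4 * n + 2) ≤ Λ := by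
      rw [hΛ]; gcongr
    have h2 : T ^ (2 * n + 2) ≤ T ^ (4 * n + 2) := pow_le_pow_right₀ hT (by omega)
    have h3 : C5 * (A / c') ^ (2 * n) * T ^ (2 * n + 2) ≤ Λ :=
      (mul_le_mul_of_nonneg_left h2 (by positivity)).trans h1
    exact num_aux (2 * n) hc'0 (by linarith) hT0 hΛ0 h3
  have hwle : T * (1 / Λ) ≤ (c' / (C1 * T)) ^ (4 * n) := by
    have h1 : (C1 / c') ^ (4 * n) * T ^ (4 * n + 2) ≤ Λ := by
      rw [hΛ]; gcongr
    have h2 : T ^ (4 * n + 1) ≤ T ^ (4 * n + 2) := pow_le_pow_right₀ hT (by omega)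
    have h3 : (C1 / c') ^ (4 * n) * T ^ (4 * n + 1) ≤ Λ :=
      (mul_le_mul_of_nonneg_left h2 (by positivity)).trans h1
    exact num_aux2 (4 * n) hc'0 (by linarith) hT0 hΛ0 h3
  -- the good set
  set G : Set (E n) := ball (0 : E n) 3 \ f ⁻¹' Ω with hG
  have hpre : MeasurableSet (f ⁻¹' Ω) := H.cont.measurable hΩm
  have hsum := lintegral_inter_add_sdiff (μ := (volume : Measure (E n)))
    (fun z => ‖Df z‖ₑ ^ pex n) (ball (0 : E n) 3) hpre
  have hlow := hce f Df K H hdiam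
  have hpart1 : ∫⁻ z in ball (0 : E n) 3 ∩ f ⁻¹' Ω, ‖Df z‖ₑ ^ pex n ≤ ENNReal.ofReal c' := by
    have h1 := H.energy_le hn2 (ball (0 : E n) 3 ∩ f ⁻¹' Ω) (fun _ => 1) measurable_const
    simp only [one_mul, one_pow] at h1
    refine h1.trans ?_
    have h2 := hCi f Df K H Ω hΩm hΩtop
    have h3 : ∫⁻ z in ball (0 : E n) 3 ∩ f ⁻¹' Ω, ENNReal.ofReal (Df z).det
        ≤ ENNReal.ofReal (A * T * v ^ (1 / n : ℝ)) := by
      refine h2.trans ?_
      calc ENNReal.ofReal Ci * volume Ω ^ (1 / n : ℝ) * ∫⁻ z in ball (0 : E n) 4, ‖Df z‖ₑ ^ (n - 1)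
          ≤ ENNReal.ofReal Ci * ENNReal.ofReal v ^ (1 / n : ℝ) * ENNReal.ofReal ((C1 + 1) * T) := by
            gcongr
        _ = ENNReal.ofReal (A * T * v ^ (1 / n : ℝ)) := by
            rw [ENNReal.ofReal_rpow_of_nonneg hv0 (by positivity),
              ← ENNReal.ofReal_mul (by positivity), ← ENNReal.ofReal_mul (by positivity)]
            congr 1
            rw [hA]
            ring
    have h4 := hKj (ball (0 : E n) 3 ∩ f ⁻¹' Ω) (2 * n - 1)
      (inter_subset_left.trans (ball_subset_ball (by norm_num))) (by omega)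
    have hα0 : (0 : ℝ) ≤ 1 - 1 / (2 * n) := by
      have : (1 : ℝ) ≤ n := by exact_mod_cast (by omega : 1 ≤ n)
      have h5 : (1 / (2 * n) : ℝ) ≤ 1 := by
        rw [div_le_one (by positivity)]; linarith
      linarith
    calc (∫⁻ x in ball (0 : E n) 3 ∩ f ⁻¹' Ω, ENNReal.ofReal (Df x).det) ^ (1 - 1 / (2 * n) : ℝ)
        * (∫⁻ x in ball (0 : E n) 3 ∩ f ⁻¹' Ω, ENNReal.ofReal (K x) ^ (2 * n - 1))
          ^ (1 / (2 * n) : ℝ)
        ≤ ENNReal.ofReal (A * T * v ^ (1 / n : ℝ)) ^ (1 - 1 / (2 * n) : ℝ)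
          * ENNReal.ofReal T ^ (1 / (2 * n) : ℝ) := by gcongr
      _ = ENNReal.ofReal ((A * T * v ^ (1 / n : ℝ)) ^ (1 - 1 / (2 * n) : ℝ)
          * T ^ (1 / (2 * n) : ℝ)) := by
          rw [ENNReal.ofReal_rpow_of_nonneg (by positivity) hα0,
            ENNReal.ofReal_rpow_of_nonneg hT0.le (by positivity),
            ← ENNReal.ofReal_mul (by positivity)]
      _ ≤ ENNReal.ofReal c' := ENNReal.ofReal_le_ofReal
          (real_one hn2 hc'0 hc'1 hA1 hT hv0 hvle)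
  refine ⟨G, measurableSet_ball.diff hpre, sdiff_subset, ?_, ?_⟩
  · by_contra hlt
    push Not at hlt
    have hpart2 : ∫⁻ z in G, ‖Df z‖ₑ ^ pex n ≤ ENNReal.ofReal c' := by
      have h1 := H.energy_le hn2 G (fun _ => 1) measurable_const
      simp only [one_mul, one_pow] at h1
      refine h1.trans ?_
      have hG8 : G ⊆ ball (0 : E n) 8 := sdiff_subset.trans (ball_subset_ball (by norm_num))
      have h2 : ∫⁻ z in G, ENNReal.ofReal (K z) ^ (2 * n - 1)
          ≤ ENNReal.ofReal ((T * (1 / Λ)) ^ (1 / 2 : ℝ)) := by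
        refine (cauchy hn2 H G).trans ?_
        calc (∫⁻ z in G, ENNReal.ofReal (K z) ^ (4 * n - 2)) ^ (1 / 2 : ℝ) * volume G ^ (1 / 2 : ℝ)
            ≤ ENNReal.ofReal T ^ (1 / 2 : ℝ) * ENNReal.ofReal (1 / Λ) ^ (1 / 2 : ℝ) := by
              have h3 := hKj G (4 * n - 2) hG8 le_rfl
              have h4 := hlt.le
              gcongr
          _ = ENNReal.ofReal ((T * (1 / Λ)) ^ (1 / 2 : ℝ)) := by
              rw [ENNReal.ofReal_rpow_of_nonneg hT0.le (by positivity),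
                ENNReal.ofReal_rpow_of_nonneg (by positivity) (by positivity),
                ← ENNReal.ofReal_mul (by positivity), ← Real.mul_rpow hT0.le (by positivity)]
      have h4 : ∫⁻ z in G, ENNReal.ofReal (Df z).det ≤ ENNReal.ofReal (C1 * T) :=
        hJS G (sdiff_subset.trans (ball_subset_ball (by norm_num)))
      have hα0 : (0 : ℝ) ≤ 1 - 1 / (2 * n) := by
        have : (1 : ℝ) ≤ n := by exact_mod_cast (by omega : 1 ≤ n)
        have h5 : (1 / (2 * n) : ℝ) ≤ 1 := by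
          rw [div_le_one (by positivity)]; linarith
        linarith
      calc (∫⁻ x in G, ENNReal.ofReal (Df x).det) ^ (1 - 1 / (2 * n) : ℝ)
          * (∫⁻ x in G, ENNReal.ofReal (K x) ^ (2 * n - 1)) ^ (1 / (2 * n) : ℝ)
          ≤ ENNReal.ofReal (C1 * T) ^ (1 - 1 / (2 * n) : ℝ)
            * ENNReal.ofReal ((T * (1 / Λ)) ^ (1 / 2 : ℝ)) ^ (1 / (2 * n) : ℝ) := by gcongr
        _ = ENNReal.ofReal ((C1 * T) ^ (1 - 1 / (2 * n) : ℝ)
            * ((T * (1 / Λ)) ^ (1 / 2 : ℝ)) ^ (1 / (2 * n) : ℝ)) := by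
            rw [ENNReal.ofReal_rpow_of_nonneg (by positivity) hα0,
              ENNReal.ofReal_rpow_of_nonneg (by positivity) (by positivity),
              ← ENNReal.ofReal_mul (by positivity)]
        _ ≤ ENNReal.ofReal c' := ENNReal.ofReal_le_ofReal
            (real_two hn2 hc'0 hC11 hT (by positivity) hwle)
    have hfin : ENNReal.ofReal ce ≤ ENNReal.ofReal (c' + c') := by
      rw [ENNReal.ofReal_add hc'0.le hc'0.le]
      refine hlow.trans ?_
      rw [← hsum]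
      exact add_le_add hpart1 hpart2
    rw [ENNReal.ofReal_le_ofReal_iff (by positivity)] at hfin
    linarith
  · intro x hx
    have hx3 : x ∈ ball (0 : E n) 3 := hx.1
    have hx8 : x ∈ ball (0 : E n) 8 := ball_subset_ball (by norm_num) hx3
    have hx1 : f x ∉ Ω1 := fun h => hx.2 (Or.inl h)
    have hx2 : f x ∉ Ω2 := fun h => hx.2 (Or.inr h)
    have hI1 : I (f x) < ENNReal.ofReal b1 := lt_of_not_ge hx1
    have hcomp : comp f (ball 0 8) x s ⊆ ball x (1 / 16) := by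
      refine hcc f Df K H hdiam T hT (hKj _ _ Subset.rfl (by omega)) x s hx3 hs0 hs4 ?_
      rw [hlog]
      exact hI1
    refine ⟨hcomp, ?_⟩
    have hcl : closure (comp f (ball 0 8) x s) ⊆ ball (0 : E n) 8 := by
      intro z hz
      have h1 : z ∈ closedBall x (1 / 16) := closure_ball_subset_closedBall
        (closure_mono hcomp hz)
      rw [mem_closedBall] at h1
      rw [mem_ball] at hx3 ⊢
      calc dist z 0 ≤ dist z x + dist x 0 := dist_triangle _ _ _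
        _ < 8 := by linarith
    obtain ⟨k, hk1, hk⟩ := H.comp_deg hn2 hx8 hs0 hcl
    refine ⟨k, ?_, hk⟩
    by_contra hlt
    push Not at hlt
    apply hx2
    exact mem_biUnion (show x ∈ B from ⟨hx3, hcomp, k, hlt, hk⟩) (mem_ball_self hs0)

end Pool.Agent.MP_dd09c0_an
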