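import Pool.Agent.MP_dd09c0_an.CompTop
import Pool.Agent.MP_dd09c0_an.CompDeg
import Pool.Agent.MP_dd09c0_an.Exc
import Pool.Agent.MP_dd09c0_an.Descend
import Pool.Agent.MP_dd09c0_an.TopLevel

/-! Module U: the main proposition, from the top level and the descent. -/

open MeasureTheory Metric Set Filter Topology
open scoped ENNReal NNReal ContDiff RealInnerProductSpace

namespace Pool.Agent.MP_dd09c0_an

namespace MainAux

theorem pow_le_fact_exp (p : ℕ) {b t : ℝ} (hb : 0 < b) (ht : 0 ≤ t) :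
    t ^ p ≤ (p.factorial / b ^ p) * Real.exp (b * t) := by
  have h := Real.pow_div_factorial_le_exp (b * t) (by positivity) p
  have hf : (0 : ℝ) < p.factorial := by exact_mod_cast p.factorial_pos
  rw [div_le_iff₀ hf, mul_pow] at h
  have hb' : 0 < b ^ p := by positivity
  rw [div_mul_eq_mul_div, le_div_iff₀ hb']
  linarith

/-- Moments of `K` are controlled by the exponential integral. -/
theorem moment (n p : ℕ) (m : ℝ) (hm : 0 < m) : ∃ C : ℝ, 1 ≤ C ∧ ∀ (T : ℝ) (K : E n → ℝ),
    Measurable K → (∀ x, 1 ≤ K x) → 1 ≤ T →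
    ∫⁻ z in ball (0 : E n) 8, ENNReal.ofReal (Real.exp (m * K z)) ≤ ENNReal.ofReal (Real.exp T) →
    ∫⁻ z in ball (0 : E n) 8, ENNReal.ofReal (K z) ^ p ≤ ENNReal.ofReal (C * T ^ p) := by
  set v : ℝ := (volume (ball (0 : E n) 8)).toReal with hv
  have hv0 : 0 ≤ v := ENNReal.toReal_nonneg
  have hvol : volume (ball (0 : E n) 8) = ENNReal.ofReal v :=
    (ENNReal.ofReal_toReal measure_ball_lt_top.ne).symm
  set Cm : ℝ := p.factorial / (m / 2) ^ p with hCm
  have hCm0 : 0 ≤ Cm := by positivity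
  refine ⟨(2 / m) ^ p * v + Cm + 1, ?_, ?_⟩
  · have : 0 ≤ (2 / m) ^ p * v := by positivity
    linarith
  · intro T K hK hK1 hT hint
    have hT0 : 0 < T := by linarith
    have hpt : ∀ z, ENNReal.ofReal (K z) ^ p ≤ ENNReal.ofReal ((2 * T / m) ^ p) +
        ENNReal.ofReal (Cm * Real.exp (-T)) * ENNReal.ofReal (Real.exp (m * K z)) := by
      intro z
      have hKz : 0 ≤ K z := by linarith [hK1 z]
      rw [← ENNReal.ofReal_pow hKz, ← ENNReal.ofReal_mul (by positivity),
        ← ENNReal.ofReal_add (by positivity) (by positivity)]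
      apply ENNReal.ofReal_le_ofReal
      by_cases hle : K z ≤ 2 * T / m
      · have h1 : K z ^ p ≤ (2 * T / m) ^ p := pow_le_pow_left₀ hKz hle p
        have h2 : 0 ≤ Cm * Real.exp (-T) * Real.exp (m * K z) := by positivity
        linarith
      · push Not at hle
        have h1 := pow_le_fact_exp p (b := m / 2) (by positivity) hKz
        have h2 : Real.exp (m / 2 * K z) ≤ Real.exp (-T) * Real.exp (m * K z) := by
          rw [← Real.exp_add]
          apply Real.exp_le_exp.2
          rw [div_lt_iff₀ hm] at hle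
          linarith
        have h3 : Cm * Real.exp (m / 2 * K z) ≤ Cm * (Real.exp (-T) * Real.exp (m * K z)) :=
          mul_le_mul_of_nonneg_left h2 hCm0
        have h4 : 0 ≤ (2 * T / m) ^ p := by positivity
        calc K z ^ p ≤ Cm * Real.exp (m / 2 * K z) := h1
          _ ≤ Cm * (Real.exp (-T) * Real.exp (m * K z)) := h3
          _ = Cm * Real.exp (-T) * Real.exp (m * K z) := by ring
          _ ≤ _ := by linarith
    calc ∫⁻ z in ball (0 : E n) 8, ENNReal.ofReal (K z) ^ p
        ≤ ∫⁻ z in ball (0 : E n) 8, (ENNReal.ofReal ((2 * T / m) ^ p) +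
          ENNReal.ofReal (Cm * Real.exp (-T)) * ENNReal.ofReal (Real.exp (m * K z))) :=
          lintegral_mono hpt
      _ = ENNReal.ofReal ((2 * T / m) ^ p) * ENNReal.ofReal v +
          ENNReal.ofReal (Cm * Real.exp (-T)) *
            ∫⁻ z in ball (0 : E n) 8, ENNReal.ofReal (Real.exp (m * K z)) := by
          rw [lintegral_add_left measurable_const, lintegral_const_mul' _ _ ENNReal.ofReal_ne_top,
            lintegral_const, Measure.restrict_apply_univ, hvol]
      _ ≤ ENNReal.ofReal ((2 * T / m) ^ p) * ENNReal.ofReal v +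
          ENNReal.ofReal (Cm * Real.exp (-T)) * ENNReal.ofReal (Real.exp T) := by
          gcongr
      _ = ENNReal.ofReal ((2 * T / m) ^ p * v + Cm * Real.exp (-T) * Real.exp T) := by
          rw [← ENNReal.ofReal_mul (by positivity), ← ENNReal.ofReal_mul (by positivity),
            ← ENNReal.ofReal_add (by positivity) (by positivity)]
      _ ≤ ENNReal.ofReal (((2 / m) ^ p * v + Cm + 1) * T ^ p) := by
          apply ENNReal.ofReal_le_ofReal
          have h1 : Cm * Real.exp (-T) * Real.exp T = Cm := by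
            rw [mul_assoc, ← Real.exp_add]; simp
          have h2 : (2 * T / m) ^ p = (2 / m) ^ p * T ^ p := by
            rw [← mul_pow]; congr 1; ring
          have h3 : 1 ≤ T ^ p := one_le_pow₀ hT
          rw [h1, h2]
          nlinarith

/-- The numerical inequality. -/
theorem numeric (B L T c Z : ℝ) (hB : 0 ≤ B) (hL : 1 ≤ L) (hT : 1 ≤ T) (hc : 0 < c) (hZ1 : 1 ≤ Z)
    (hZ : (1 + B / c) * (L * T) ≤ Z) : L * T * Z * B < c * Z ^ 2 := by
  have hLT : 0 < L * T := by positivity
  have h1 : c * ((1 + B / c) * (L * T)) ≤ c * Z := mul_le_mul_of_nonneg_left hZ hc.le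
  have h2 : c * ((1 + B / c) * (L * T)) = (c + B) * (L * T) := by field_simp
  rw [h2] at h1
  have h3 : L * T * B < c * Z := by nlinarith
  nlinarith

/-- The exponent inequality. -/
theorem expo (l4 l5 w L T Z c : ℝ) (h4 : 0 ≤ l4) (h5 : 0 ≤ l5) (hw : 0 ≤ w) (hL : 1 ≤ L)
    (hT : 1 ≤ T) (hZ1 : 1 ≤ Z) (hnum : L * T * Z * (l4 + w + l5 + 2) < c * Z ^ 2) :
    L * (l4 + w * Z) + l5 - c * Z ^ 2 + T < -L := by
  have hTZ : 1 ≤ T * Z := one_le_mul_of_one_le_of_one_le hT hZ1
  have hLZ : 1 ≤ L * Z := one_le_mul_of_one_le_of_one_le hL hZ1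
  have hLTZ : 1 ≤ L * (T * Z) := one_le_mul_of_one_le_of_one_le hL hTZ
  have e1 : L * l4 ≤ (L * (T * Z)) * l4 := by
    apply mul_le_mul_of_nonneg_right _ h4
    exact le_mul_of_one_le_right (by linarith) hTZ
  have e2 : (L * Z) * w ≤ (L * Z) * T * w := by
    apply mul_le_mul_of_nonneg_right _ hw
    exact le_mul_of_one_le_right (by linarith) hT
  have e3 : l5 ≤ (L * (T * Z)) * l5 := le_mul_of_one_le_left h5 hLTZ
  have e4 : T ≤ T * (L * Z) := le_mul_of_one_le_right (by linarith) hLZ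
  have e5 : L ≤ L * (T * Z) := le_mul_of_one_le_right (by linarith) hTZ
  have key : L * T * Z * (l4 + w + l5 + 2) = (L * (T * Z)) * l4 + (L * Z) * T * w +
      (L * (T * Z)) * l5 + T * (L * Z) + L * (T * Z) := by ring
  have key2 : L * (l4 + w * Z) = L * l4 + (L * Z) * w := by ring
  rw [key] at hnum
  rw [key2]
  linarith

theorem one_le_C {A C6 : ℝ} (hA : 1 ≤ A) (hC : 1 ≤ C6) (q : ℕ) :
    1 ≤ 3 * A ^ q * C6 ^ (q + 1) := by
  have h1 : 1 ≤ A ^ q := one_le_pow₀ hA
  have h2 : 1 ≤ C6 ^ (q + 1) := one_le_pow₀ hC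
  have h3 : 1 ≤ 3 * A ^ q := by linarith
  exact one_le_mul_of_one_le_of_one_le h3 h2

theorem final_pow (A C6 W T : ℝ) (q : ℕ) :
    3 * (C6 * W) * (A * (C6 * W * T)) ^ q = 3 * A ^ q * C6 ^ (q + 1) * (W ^ (q + 1) * T ^ q) := by
  rw [mul_pow, mul_pow, mul_pow, pow_succ, pow_succ]
  ring

end MainAux

open MainAux

theorem main_prop (n : ℕ) (hn : 3 ≤ n) (m : ℝ) (hm : 0 < m) (M : ℝ) (hM : 1 ≤ M) :
    ∃ C : ℝ, ∃ N : ℕ, 1 ≤ C ∧ ∀ (T : ℝ) (f : E n → E n) (Df : E n → E n →L[ℝ] E n)
    (K : E n → ℝ), GM n (ball 0 8) f Df K → 1 ≤ T → 1 ≤ diam (f '' ball 0 1) →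
    (∀ z ∈ ball (0 : E n) 8, ∀ w ∈ ball (0 : E n) 8, dist (f z) (f w) ≤ M) →
    ∫⁻ z in ball (0 : E n) 8, ENNReal.ofReal (Real.exp (m * K z)) ≤ ENNReal.ofReal (Real.exp T) →
    Bloch f (ball 0 8) (Real.exp (-(C * T ^ N))) := by
  obtain ⟨C1, hC1, hmom⟩ := moment n (4 * n - 2) m hm
  obtain ⟨C2, N2, hC2, htop⟩ := top_level n hn M hM
  obtain ⟨C4, hC4, hvol⟩ := badSeq_volume n (by omega)
  obtain ⟨c, C5, hc, hC5, hzero⟩ := badSeq_zero n (by omega) m hm
  obtain ⟨a, ha, X₀, hX₀, hdesc⟩ := descend n hn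
  set p : ℕ := 4 * n - 2 with hp
  set r : ℕ := 2 * n - 1 with hr
  have hr1 : 1 ≤ r := by omega
  -- the constants
  set B : ℝ := Real.log C4 + 2 * a * r + Real.log C5 + 2 with hB
  have hlogC4 : 0 ≤ Real.log C4 := Real.log_nonneg hC4
  have hlogC5 : 0 ≤ Real.log C5 := Real.log_nonneg hC5
  have hlogM : 0 ≤ Real.log M := Real.log_nonneg hM
  have hB0 : 0 ≤ B := by positivity
  set A : ℝ := 1 + B / c + X₀ + Real.log M with hA
  have hBc : 0 ≤ B / c := by positivity
  have hA1 : 1 ≤ A := by linarith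
  set q : ℕ := 2 * r * a with hq
  set C6 : ℝ := C2 * C1 ^ N2 with hC6
  have hC6' : 1 ≤ C6 := one_le_mul_of_one_le_of_one_le hC2 (one_le_pow₀ hC1)
  refine ⟨3 * A ^ q * C6 ^ (q + 1), p * N2 * (q + 1) + q, ?_, ?_⟩
  · exact one_le_C hA1 hC6' q
  intro T f Df K H hT hdiam hosc hint
  have hT0 : 0 < T := by linarith
  -- the top level
  have hmK := hmom T K H.measK H.one_le hT hint
  have hT' : 1 ≤ C1 * T ^ p := one_le_mul_of_one_le_of_one_le hC1 (one_le_pow₀ hT)
  obtain ⟨G, hGm, hG3, hGvol, hG⟩ := htop (C1 * T ^ p) f Df K H hT' hdiam hosc hmK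
  set L : ℝ := C2 * (C1 * T ^ p) ^ N2 with hL
  have hL' : L = C6 * T ^ (p * N2) := by
    rw [hL, hC6, mul_pow, ← pow_mul]; ring
  have hL1 : 1 ≤ L := one_le_mul_of_one_le_of_one_le hC2 (one_le_pow₀ hT')
  -- the parameter
  set Z : ℝ := A * (L * T) with hZ
  have hLT1 : 1 ≤ L * T := one_le_mul_of_one_le_of_one_le hL1 hT
  have hZ1 : 1 ≤ Z := one_le_mul_of_one_le_of_one_le hA1 hLT1
  have hLTA : ∀ b : ℝ, b ≤ A → b * (L * T) ≤ Z := fun b hb =>
    mul_le_mul_of_nonneg_right hb (by linarith)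
  have hLleLT : L ≤ L * T := le_mul_of_one_le_right (by linarith) hT
  set X : ℝ := Z ^ (2 * r) with hX
  have hXZ : Z ≤ X := by
    calc Z = Z ^ 1 := (pow_one Z).symm
      _ ≤ Z ^ (2 * r) := pow_le_pow_right₀ hZ1 (by omega)
  have hX1 : 1 ≤ X := le_trans hZ1 hXZ
  have hXX₀ : X₀ ≤ X := by
    have h1 := hLTA X₀ (by linarith)
    have h2 : X₀ ≤ X₀ * (L * T) := le_mul_of_one_le_right (by linarith) hLT1
    linarith
  have hXL : L ≤ X := by
    have h1 := hLTA 1 (by linarith)
    linarith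
  have hXa : X ≤ X ^ a := by
    calc X = X ^ 1 := (pow_one X).symm
      _ ≤ X ^ a := pow_le_pow_right₀ hX1 ha
  have hXLM : L + Real.log M ≤ X := by
    have h1 := hLTA (1 + Real.log M) (by linarith)
    have h2 : Real.log M ≤ Real.log M * (L * T) := le_mul_of_one_le_right hlogM hLT1
    have h3 : (1 + Real.log M) * (L * T) = L * T + Real.log M * (L * T) := by ring
    linarith
  have hXa1 : 1 ≤ X ^ a := le_trans hX1 hXa
  -- the exceptional set
  set τ : ℝ := (X ^ a)⁻¹ with hτ
  have hτ0 : 0 < τ := by positivity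
  have hτ1 : τ ≤ 1 := inv_le_one_of_one_le₀ hXa1
  set j : ℕ := ⌊L⌋₊ with hj
  have hjL : (j : ℝ) ≤ L := Nat.floor_le (by linarith)
  have hbad : volume (badSeq (ball (0 : E n) 8) K X τ j) < ENNReal.ofReal (1 / L) := by
    have h1 := hvol (ball (0 : E n) 8) K X τ j hτ0 hτ1
    have h2 := hzero (ball (0 : E n) 8) K X τ measurableSet_ball H.measK H.one_le hX1
    have hrX : X ^ (1 / (2 * n - 1) : ℝ) = Z ^ 2 := by
      have hcast : (1 / (2 * n - 1) : ℝ) = 1 / (r : ℝ) := by
        rw [hr, Nat.cast_sub (by omega)]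
        push_cast
        ring
      rw [hcast, hX, pow_mul, ← Real.rpow_natCast (Z ^ 2) r, ← Real.rpow_mul (by positivity)]
      rw [mul_one_div_cancel (by positivity : (r : ℝ) ≠ 0), Real.rpow_one]
    rw [hrX] at h2
    have h3 : volume (badSeq (ball (0 : E n) 8) K X τ j) ≤
        ENNReal.ofReal ((C4 / τ) ^ j * (C5 * Real.exp (-(c * Z ^ 2)) * Real.exp T)) := by
      refine le_trans h1 ?_
      rw [ENNReal.ofReal_mul (by positivity), ENNReal.ofReal_mul (by positivity)]
      gcongr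
      refine le_trans h2 ?_
      gcongr
    refine lt_of_le_of_lt h3 ?_
    rw [ENNReal.ofReal_lt_ofReal_iff (by positivity)]
    -- exponents
    have hlogX : Real.log X ≤ 2 * r * Z := by
      rw [hX, Real.log_pow]
      push_cast
      have := Real.log_le_sub_one_of_pos (by linarith : 0 < Z)
      have hr0 : (0 : ℝ) ≤ 2 * r := by positivity
      exact mul_le_mul_of_nonneg_left (by linarith) hr0
    have h4 : C4 / τ = C4 * X ^ a := by
      rw [hτ, div_inv_eq_mul]
    have h5 : (C4 / τ) ^ j ≤ Real.exp (L * (Real.log C4 + 2 * a * r * Z)) := by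
      have hpos : 0 < C4 * X ^ a := by positivity
      have h6 : C4 * X ^ a = Real.exp (Real.log C4 + a * Real.log X) := by
        rw [Real.exp_add, Real.exp_log (by linarith), ← Real.log_pow,
          Real.exp_log (by positivity)]
      rw [h4, h6, ← Real.exp_nat_mul]
      apply Real.exp_le_exp.2
      have h7 : 0 ≤ Real.log X := Real.log_nonneg hX1
      have h8 : Real.log C4 + a * Real.log X ≤ Real.log C4 + 2 * a * r * Z := by
        have : (a : ℝ) * Real.log X ≤ a * (2 * r * Z) :=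
          mul_le_mul_of_nonneg_left hlogX (by positivity)
        linarith
      have h9 : 0 ≤ Real.log C4 + a * Real.log X := by positivity
      calc (j : ℝ) * (Real.log C4 + a * Real.log X) ≤ L * (Real.log C4 + a * Real.log X) :=
            mul_le_mul_of_nonneg_right hjL h9
        _ ≤ _ := mul_le_mul_of_nonneg_left h8 (by linarith)
    have h10 : C5 = Real.exp (Real.log C5) := (Real.exp_log (by linarith)).symm
    have h11 : Real.exp (-L) ≤ 1 / L := by
      rw [Real.exp_neg, ← one_div]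
      apply one_div_le_one_div_of_le (by linarith)
      have := Real.add_one_le_exp L
      linarith
    refine lt_of_lt_of_le ?_ h11
    calc (C4 / τ) ^ j * (C5 * Real.exp (-(c * Z ^ 2)) * Real.exp T)
        ≤ Real.exp (L * (Real.log C4 + 2 * a * r * Z)) *
          (C5 * Real.exp (-(c * Z ^ 2)) * Real.exp T) := by
          apply mul_le_mul_of_nonneg_right h5 (by positivity)
      _ = Real.exp (L * (Real.log C4 + 2 * a * r * Z) + Real.log C5 - c * Z ^ 2 + T) := by
          rw [h10, Real.log_exp, ← Real.exp_add, ← Real.exp_add, ← Real.exp_add]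
          congr 1
          ring
      _ < Real.exp (-L) := by
          apply Real.exp_lt_exp.2
          have hnum := numeric B L T c Z hB0 hL1 hT hc hZ1 (hLTA _ (by linarith))
          rw [hB] at hnum
          exact expo _ _ _ L T Z c hlogC4 hlogC5 (by positivity) hL1 hT hZ1 hnum
  -- a good point
  obtain ⟨x, hxG, hxb⟩ : ∃ x ∈ G, x ∉ badSeq (ball (0 : E n) 8) K X τ j := by
    by_contra hcon
    push Not at hcon
    have hsub : G ⊆ badSeq (ball (0 : E n) 8) K X τ j := hcon
    exact absurd (lt_of_le_of_lt (measure_mono hsub) hbad) (not_lt.2 hGvol)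
  obtain ⟨hcomp, k, hkL, hdeg⟩ := hG x hxG
  have hkj : k ≤ j := Nat.le_floor hkL
  have hxk : x ∉ badSeq (ball (0 : E n) 8) K X τ k := fun h =>
    hxb (Descend.badSeq_mono _ K X τ hkj h)
  have hx3 : dist x 0 < 3 := hG3 hxG
  have hx8 : x ∈ ball (0 : E n) 8 := by
    rw [mem_ball]; linarith
  set s : ℝ := Real.exp (-L) with hs
  have hs0 : 0 < s := Real.exp_pos _
  have hexp1 : 1 ≤ Real.exp (X ^ a) := Real.one_le_exp (by positivity)
  have hfin := hdesc X hXX₀ (ball 0 8) f Df K H x (by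
      intro y hy
      rw [mem_closedBall] at hy
      rw [mem_ball]
      have := dist_triangle y x 0
      linarith) k (le_trans hkL hXL) x s (1 / 16) hxk hs0 (by norm_num) (by norm_num)
    (mem_comp hx8 hs0) (hcomp.trans ball_subset_closedBall)
    (hcomp.trans (ball_subset_closedBall.trans (closedBall_subset_closedBall (by linarith))))
    (by
      have h1 : diam (f '' ball x (1 / 16)) ≤ M := by
        apply diam_le_of_forall_dist_le (by linarith)
        rintro _ ⟨y, hy, rfl⟩ _ ⟨z, hz, rfl⟩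
        have hb : ∀ y ∈ ball x (1 / 16 : ℝ), y ∈ ball (0 : E n) 8 := by
          intro y hy
          rw [mem_ball] at hy ⊢
          have := dist_triangle y x 0
          linarith
        exact hosc y (hb y hy) z (hb z hz)
      have h2 : M ≤ s * Real.exp (X ^ a) := by
        rw [hs, ← Real.exp_add]
        calc M = Real.exp (Real.log M) := (Real.exp_log (by linarith)).symm
          _ ≤ _ := Real.exp_le_exp.2 (by linarith)
      linarith) hdeg
  refine Bloch.mono hfin (Real.exp_pos _) ?_ H.cont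
  rw [hs, ← Real.exp_add]
  apply Real.exp_le_exp.2
  have g1 : 2 * (k : ℝ) * X ^ a ≤ 2 * L * X ^ a := by
    have : 2 * (k : ℝ) ≤ 2 * L := by linarith
    exact mul_le_mul_of_nonneg_right this (by positivity)
  have g2 : L ≤ L * X ^ a := le_mul_of_one_le_right (by linarith) hXa1
  have g3 : 3 * L * X ^ a = 3 * A ^ q * C6 ^ (q + 1) * T ^ (p * N2 * (q + 1) + q) := by
    have hXq : X ^ a = (A * (L * T)) ^ q := by
      rw [hX, hZ, hq, ← pow_mul]
    rw [hXq, hL', pow_add T, pow_mul T (p * N2) (q + 1)]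
    exact final_pow A C6 (T ^ (p * N2)) T q
  rw [← g3]
  linarith

end Pool.Agent.MP_dd09c0_an
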