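import Pool.Agent.MP_dd09c0_an.Growth
import Pool.Agent.MP_dd09c0_an.MainProp
import Pool.Agent.MP_dd09c0_an.CompDeg

open MeasureTheory Metric Set Filter Topology
open scoped ENNReal NNReal ContDiff RealInnerProductSpace Pointwise

namespace Pool.Agent.MP_dd09c0_an

variable {n : ℕ}

namespace FinalAux

lemma finrank_E (n : ℕ) : Module.finrank ℝ (E n) = n := by simp

lemma integrable_comp {F : Type*} [NormedAddCommGroup F] {g : E n → F} (hg : Integrable g)
    (z : E n) {ρ : ℝ} (hρ : ρ ≠ 0) : Integrable (fun v => g (z + ρ • v)) :=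
  (hg.comp_add_left z).comp_smul hρ

lemma integrableOn_comp {F : Type*} [NormedAddCommGroup F] {g : E n → F} {D D' : Set (E n)}
    (hD : MeasurableSet D) (hg : IntegrableOn g D) (z : E n) {ρ : ℝ} (hρ : ρ ≠ 0)
    (hsub : ∀ v ∈ D', z + ρ • v ∈ D) : IntegrableOn (fun v => g (z + ρ • v)) D' := by
  have h1 : Integrable (fun v => D.indicator g (z + ρ • v)) :=
    integrable_comp ((integrable_indicator_iff hD).2 hg) z hρ
  have hm : MeasurableSet ((fun v : E n => z + ρ • v) ⁻¹' D) :=
    hD.preimage (by fun_prop)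
  have h2 : (fun v => D.indicator g (z + ρ • v))
      = ((fun v : E n => z + ρ • v) ⁻¹' D).indicator (fun v => g (z + ρ • v)) := by
    funext v
    by_cases hv : z + ρ • v ∈ D
    · rw [indicator_of_mem hv, indicator_of_mem (show v ∈ (fun v : E n => z + ρ • v) ⁻¹' D from hv)]
    · rw [indicator_of_notMem hv,
        indicator_of_notMem (show v ∉ (fun v : E n => z + ρ • v) ⁻¹' D from hv)]
  rw [h2, integrable_indicator_iff hm] at h1
  exact h1.mono_set fun v hv => hsub v hv

lemma integral_comp {F : Type*} [NormedAddCommGroup F] [NormedSpace ℝ F] (g : E n → F)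
    (z : E n) {ρ : ℝ} (hρ : 0 < ρ) :
    ∫ v, g (z + ρ • v) = (ρ ^ n)⁻¹ • ∫ x, g x := by
  rw [Measure.integral_comp_smul_of_nonneg (volume : Measure (E n)) (fun x => g (z + x)) ρ
    (hR := hρ.le), finrank_E, integral_add_left_eq_self]

end FinalAux

open FinalAux

theorem GM.scale {D : Set (E n)} {f : E n → E n} {Df : E n → E n →L[ℝ] E n}
    {K : E n → ℝ} (hn : 1 ≤ n) (H : GM n D f Df K) (z : E n) {ρ b : ℝ} (hρ : 0 < ρ) (hb : 0 < b)
    {D' : Set (E n)} (hD' : IsOpen D') (hsub : ∀ v ∈ D', z + ρ • v ∈ D)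
    (hbd : Bornology.IsBounded D') :
    GM n D' (fun v => b • f (z + ρ • v)) (fun v => (b * ρ) • Df (z + ρ • v))
      (fun v => K (z + ρ • v)) := by
  have hdet : ∀ L : E n →L[ℝ] E n, ((b * ρ) • L).det = (b * ρ) ^ n * L.det := by
    intro L
    have h := LinearMap.det_smul (b * ρ) (L : E n →ₗ[ℝ] E n)
    rw [finrank_E] at h
    exact h
  have hbρ : 0 < b * ρ := by positivity
  refine ⟨hD', hbd, ?_, ?_, ?_, ?_, ?_, ?_, ?_, ?_⟩
  · have := H.cont
    fun_prop
  · have h1 := H.meas
    have h2 : Measurable (fun v : E n => z + ρ • v) := by fun_prop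
    exact (h1.comp h2).const_smul (b * ρ)
  · have h2 : Measurable (fun v : E n => z + ρ • v) := by fun_prop
    exact H.measK.comp h2
  · intro x
    exact H.one_le _
  · intro x
    have h := H.dist_le (z + ρ • x)
    simp only [hdet]
    rw [norm_smul, mul_pow, Real.norm_eq_abs, abs_of_pos hbρ]
    calc (b * ρ) ^ n * ‖Df (z + ρ • x)‖ ^ n
        ≤ (b * ρ) ^ n * (K (z + ρ • x) * (Df (z + ρ • x)).det) :=
          mul_le_mul_of_nonneg_left h (by positivity)
      _ = _ := by ring
  · simp only [hdet]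
    exact (integrableOn_comp H.isOpen.measurableSet H.intJ z hρ.ne' hsub).const_mul _
  · obtain ⟨m, hm, hi⟩ := H.intK
    exact ⟨m, hm, integrableOn_comp H.isOpen.measurableSet hi z hρ.ne' hsub⟩
  · intro φ hφ hφc hφs w
    set ψ : E n → ℝ := fun x => φ (ρ⁻¹ • (x - z)) with hψ
    have hψd : ContDiff ℝ ∞ ψ := hφ.comp (by fun_prop)
    set h : E n ≃ₜ E n := (Homeomorph.subRight z).trans
      (Homeomorph.smulOfNeZero ρ⁻¹ (inv_ne_zero hρ.ne')) with hh
    have hhx : ∀ x, h x = ρ⁻¹ • (x - z) := fun x => rfl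
    have hψh : ψ = φ ∘ h := rfl
    have hψc : HasCompactSupport ψ := by
      rw [hψh]
      exact hφc.comp_homeomorph h
    have hψs : tsupport ψ ⊆ D := by
      intro x hx
      have h1 : h x ∈ tsupport φ := by
        have h2 : tsupport ψ ⊆ h ⁻¹' tsupport φ := by
          rw [hψh]
          refine closure_minimal ?_ ((isClosed_tsupport φ).preimage h.continuous)
          intro y hy
          exact subset_tsupport φ hy
        exact h2 hx
      have h3 := hsub _ (hφs h1)
      rw [hhx, smul_inv_smul₀ hρ.ne', add_sub_cancel] at h3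
      exact h3
    have hw := H.weak ψ hψd hψc hψs w
    have hfd : ∀ v : E n, fderiv ℝ ψ (z + ρ • v) w = ρ⁻¹ * fderiv ℝ φ v w := by
      intro v
      have h1 : HasFDerivAt (fun x : E n => ρ⁻¹ • (x - z))
          (ρ⁻¹ • ContinuousLinearMap.id ℝ (E n)) (z + ρ • v) :=
        ((hasFDerivAt_id _).sub_const z).const_smul ρ⁻¹
      have h2 : ρ⁻¹ • (z + ρ • v - z) = v := by
        rw [add_sub_cancel_left, inv_smul_smul₀ hρ.ne']
      have h3 : HasFDerivAt φ (fderiv ℝ φ v) (ρ⁻¹ • (z + ρ • v - z)) := by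
        rw [h2]
        exact (hφ.differentiable (by simp) v).hasFDerivAt
      have h4 : HasFDerivAt ψ ((fderiv ℝ φ v).comp (ρ⁻¹ • ContinuousLinearMap.id ℝ (E n)))
          (z + ρ • v) := h3.comp (z + ρ • v) h1
      rw [h4.fderiv]
      simp
    have hψv : ∀ v : E n, ψ (z + ρ • v) = φ v := by
      intro v
      simp only [hψ]
      rw [add_sub_cancel_left, inv_smul_smul₀ hρ.ne']
    have e1 := integral_comp (fun x => fderiv ℝ ψ x w • f x) z hρ
    have e2 := integral_comp (fun x => ψ x • Df x w) z hρ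
    simp only [hfd, hψv] at e1 e2
    have e3 : ∫ v, (ρ⁻¹ * fderiv ℝ φ v w) • f (z + ρ • v)
        = - ∫ v, φ v • Df (z + ρ • v) w := by
      rw [e1, e2, hw, smul_neg]
    have e4 : ∫ v, fderiv ℝ φ v w • b • f (z + ρ • v)
        = (b * ρ) • ∫ v, (ρ⁻¹ * fderiv ℝ φ v w) • f (z + ρ • v) := by
      rw [← integral_smul]
      refine integral_congr_ae (Eventually.of_forall fun v => ?_)
      simp only [smul_smul]
      congr 1
      field_simp
    rw [e4, e3, smul_neg, ← integral_smul]
    congr 1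
    refine integral_congr_ae (Eventually.of_forall fun v => ?_)
    simp only [smul_apply, smul_smul]
    congr 1
    ring

namespace FinalAux

lemma det_zero (hn : 1 ≤ n) : (0 : E n →L[ℝ] E n).det = 0 := by
  have h := LinearMap.det_smul (0 : ℝ) (0 : E n →ₗ[ℝ] E n)
  rw [zero_smul, finrank_E, zero_pow (by omega), zero_mul] at h
  exact h

/-- the distortion of a linear map -/
noncomputable def dist' (n : ℕ) (L : E n →L[ℝ] E n) : ℝ :=
  if L.det = 0 then 1 else max 1 (‖L‖ ^ n / L.det)

lemma measurable_dist' : Measurable (dist' n) := by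
  unfold dist'
  have hd : Measurable (fun L : E n →L[ℝ] E n => L.det) :=
    ContinuousLinearMap.continuous_det.measurable
  refine Measurable.ite (measurableSet_eq_fun hd measurable_const) measurable_const ?_
  exact measurable_const.max ((measurable_norm.pow_const n).div hd)

lemma one_le_dist' (L : E n →L[ℝ] E n) : 1 ≤ dist' n L := by
  unfold dist'
  split_ifs
  · exact le_rfl
  · exact le_max_left _ _

/-- retraction onto a closed ball -/
noncomputable def retr (n : ℕ) (x : E n) : E n := (max 1 (‖x‖ / (7 / 8)))⁻¹ • x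

lemma continuous_retr : Continuous (retr n) := by
  unfold retr
  refine Continuous.smul (Continuous.inv₀
    (continuous_const.max (continuous_norm.div_const (7 / 8))) fun x => ?_) continuous_id
  have : (1 : ℝ) ≤ max 1 (‖x‖ / (7 / 8)) := le_max_left _ _
  linarith

lemma retr_mem (x : E n) : retr n x ∈ closedBall (0 : E n) (7 / 8) := by
  have h1 : (1 : ℝ) ≤ max 1 (‖x‖ / (7 / 8)) := le_max_left _ _
  have h2 : ‖x‖ / (7 / 8) ≤ max 1 (‖x‖ / (7 / 8)) := le_max_right _ _
  rw [mem_closedBall_zero_iff, retr, norm_smul, norm_inv, Real.norm_eq_abs,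
    abs_of_pos (by linarith), inv_mul_le_iff₀ (by linarith)]
  linarith

lemma retr_eq {x : E n} (hx : x ∈ closedBall (0 : E n) (7 / 8)) : retr n x = x := by
  rw [mem_closedBall_zero_iff] at hx
  have h1 : ‖x‖ / (7 / 8) ≤ 1 := by
    rw [div_le_one (by norm_num)]; exact hx
  rw [retr, max_eq_left h1, inv_one, one_smul]

/-- Construction of the working data from the hypotheses of the frozen statement. -/
lemma exists_GM (hn : 1 ≤ n) {lam A : ℝ} (hlam : 0 < lam) (f : E n → E n)
    (Df : E n → (E n →L[ℝ] E n)) (hf : ContinuousOn f (ball 0 1))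
    (hDf : LocallyIntegrableOn Df (ball 0 1))
    (hweak : ∀ φ : E n → ℝ, ContDiff ℝ ∞ φ → HasCompactSupport φ → tsupport φ ⊆ ball 0 1 →
      ∀ v : E n, ∫ x in ball (0 : E n) 1, (fderiv ℝ φ x v) • f x
        = - ∫ x in ball (0 : E n) 1, φ x • Df x v)
    (hJ : LocallyIntegrableOn (fun x => (Df x).det) (ball 0 1))
    (hpos : ∀ᵐ x ∂(volume.restrict (ball (0 : E n) 1)), 0 ≤ (Df x).det ∧
      ((Df x).det = 0 → Df x = 0))
    (hexp : ∫⁻ x in ball (0 : E n) 1, ENNReal.ofReal (Real.exp (lam *
      (if (Df x).det = 0 then 1 else ‖Df x‖ ^ n / (Df x).det))) ≤ ENNReal.ofReal A) :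
    ∃ (g : E n → E n) (Dg : E n → (E n →L[ℝ] E n)) (K : E n → ℝ),
      GM n (ball 0 (7 / 8)) g Dg K ∧ EqOn g f (closedBall 0 (7 / 8)) ∧
      ∫⁻ x in ball (0 : E n) (7 / 8), ENNReal.ofReal (Real.exp (lam * K x))
        ≤ ENNReal.ofReal (max A 0 + Real.exp lam * (volume (ball (0 : E n) 1)).toReal) := by
  have hsub : ball (0 : E n) (7 / 8) ⊆ ball 0 1 := ball_subset_ball (by norm_num)
  have hsubc : closedBall (0 : E n) (7 / 8) ⊆ ball 0 1 := closedBall_subset_ball (by norm_num)
  set g : E n → E n := fun x => f (retr n x) with hg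
  have hgc : Continuous g :=
    hf.comp_continuous continuous_retr fun x => hsubc (retr_mem x)
  have hgf : EqOn g f (closedBall 0 (7 / 8)) := fun x hx => by
    simp only [hg]; rw [retr_eq hx]
  -- Borel representative
  have hae : AEStronglyMeasurable Df (volume.restrict (ball (0 : E n) 1)) :=
    hDf.aestronglyMeasurable
  set D0 : E n → (E n →L[ℝ] E n) := hae.mk Df with hD0
  have hD0m : Measurable D0 := hae.stronglyMeasurable_mk.measurable
  have hD0e : Df =ᵐ[volume.restrict (ball (0 : E n) 1)] D0 := hae.ae_eq_mk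
  have hdetm : Measurable (fun L : E n →L[ℝ] E n => L.det) :=
    ContinuousLinearMap.continuous_det.measurable
  set Good : Set (E n) := {x | x ∈ ball (0 : E n) (7 / 8) ∧ (0 < (D0 x).det ∨ D0 x = 0)}
    with hGood
  have hGm : MeasurableSet Good := by
    refine measurableSet_ball.inter ?_
    refine (measurableSet_lt measurable_const (hdetm.comp hD0m)).union ?_
    exact hD0m (measurableSet_singleton 0)
  set Dg : E n → (E n →L[ℝ] E n) := Good.indicator D0 with hDg
  have hDgm : Measurable Dg := hD0m.indicator hGm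
  have hDge : ∀ᵐ x ∂(volume.restrict (ball (0 : E n) (7 / 8))), Dg x = Df x := by
    have h1 := ae_mono (Measure.restrict_mono_set volume hsub) hD0e
    have h2 := ae_mono (Measure.restrict_mono_set volume hsub) hpos
    filter_upwards [h1, h2, ae_restrict_mem measurableSet_ball] with x hx1 hx2 hx3
    have hx : x ∈ Good := by
      refine ⟨hx3, ?_⟩
      rw [← hx1]
      rcases hx2.1.lt_or_eq with h | h
      · exact Or.inl h
      · exact Or.inr (hx2.2 h.symm)
    simp only [hDg]
    rw [indicator_of_mem hx, hx1]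
  have hDgs : ∀ x, 0 < (Dg x).det ∨ Dg x = 0 := by
    intro x
    by_cases hx : x ∈ Good
    · simp only [hDg]
      rw [indicator_of_mem hx]
      exact hx.2
    · right
      simp only [hDg]
      exact indicator_of_notMem hx _
  have hdist : ∀ x, ‖Dg x‖ ^ n ≤ dist' n (Dg x) * (Dg x).det := by
    intro x
    rcases hDgs x with h | h
    · unfold dist'
      rw [if_neg h.ne']
      calc ‖Dg x‖ ^ n = ‖Dg x‖ ^ n / (Dg x).det * (Dg x).det := by field_simp
        _ ≤ _ := mul_le_mul_of_nonneg_right (le_max_right _ _) h.le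
    · rw [h, det_zero hn, mul_zero, norm_zero, zero_pow (by omega)]
  have hexpK : ∫⁻ x in ball (0 : E n) (7 / 8), ENNReal.ofReal (Real.exp (lam * dist' n (Dg x)))
      ≤ ENNReal.ofReal (max A 0 + Real.exp lam * (volume (ball (0 : E n) 1)).toReal) := by
    have hvol : volume (ball (0 : E n) 1) ≠ ⊤ := measure_ball_lt_top.ne
    calc ∫⁻ x in ball (0 : E n) (7 / 8), ENNReal.ofReal (Real.exp (lam * dist' n (Dg x)))
        ≤ ∫⁻ x in ball (0 : E n) (7 / 8), (ENNReal.ofReal (Real.exp (lam *
          (if (Df x).det = 0 then 1 else ‖Df x‖ ^ n / (Df x).det)))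
          + ENNReal.ofReal (Real.exp lam)) := by
          refine lintegral_mono_ae ?_
          filter_upwards [hDge] with x hx
          rw [hx, ← ENNReal.ofReal_add (Real.exp_pos _).le (Real.exp_pos _).le]
          refine ENNReal.ofReal_le_ofReal ?_
          unfold dist'
          split_ifs with h
          · rw [mul_one]
            have := Real.exp_pos lam
            linarith
          · rcases le_total 1 (‖Df x‖ ^ n / (Df x).det) with h1 | h1
            · rw [max_eq_right h1]
              have := Real.exp_pos lam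
              linarith
            · rw [max_eq_left h1, mul_one]
              have := Real.exp_pos (lam * (‖Df x‖ ^ n / (Df x).det))
              linarith
      _ = (∫⁻ x in ball (0 : E n) (7 / 8), ENNReal.ofReal (Real.exp (lam *
          (if (Df x).det = 0 then 1 else ‖Df x‖ ^ n / (Df x).det))))
          + ENNReal.ofReal (Real.exp lam) * volume (ball (0 : E n) (7 / 8)) := by
          rw [lintegral_add_right _ measurable_const, setLIntegral_const]
      _ ≤ ENNReal.ofReal A + ENNReal.ofReal (Real.exp lam) * volume (ball (0 : E n) 1) := by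
          gcongr
          exact (lintegral_mono_set hsub).trans hexp
      _ ≤ ENNReal.ofReal (max A 0) + ENNReal.ofReal (Real.exp lam)
          * ENNReal.ofReal ((volume (ball (0 : E n) 1)).toReal) := by
          rw [ENNReal.ofReal_toReal hvol]
          gcongr
          exact le_max_left _ _
      _ = _ := by
          rw [← ENNReal.ofReal_mul (Real.exp_pos _).le, ← ENNReal.ofReal_add (le_max_right _ _)
            (by positivity)]
  refine ⟨g, Dg, fun x => dist' n (Dg x), ⟨isOpen_ball, isBounded_ball, hgc, hDgm,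
    measurable_dist'.comp hDgm, fun x => one_le_dist' _, hdist, ?_, ⟨lam, hlam, ?_⟩, ?_⟩, hgf, hexpK⟩
  · have h1 : IntegrableOn (fun x => (Df x).det) (closedBall (0 : E n) (7 / 8)) :=
      hJ.integrableOn_compact_subset hsubc (isCompact_closedBall _ _)
    have h2 : IntegrableOn (fun x => (Df x).det) (ball (0 : E n) (7 / 8)) :=
      h1.mono_set ball_subset_closedBall
    refine h2.congr ?_
    filter_upwards [hDge] with x hx
    rw [hx]
  · have hm : Measurable (fun x => Real.exp (lam * dist' n (Dg x))) :=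
      Real.measurable_exp.comp ((measurable_dist'.comp hDgm).const_mul lam)
    refine ⟨hm.aestronglyMeasurable, ?_⟩
    rw [hasFiniteIntegral_iff_ofReal (Eventually.of_forall fun x => (Real.exp_pos _).le)]
    exact hexpK.trans_lt ENNReal.ofReal_lt_top
  · intro φ hφ hφc hφs v
    have h1 := hweak φ hφ hφc (hφs.trans hsub) v
    have hz : ∀ x, x ∉ ball (0 : E n) (7 / 8) → φ x = 0 ∧ fderiv ℝ φ x = 0 := by
      intro x hx
      have h2 : x ∉ tsupport φ := fun h => hx (hφs h)
      exact ⟨image_eq_zero_of_notMem_tsupport h2,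
        image_eq_zero_of_notMem_tsupport (fun h => h2 (tsupport_fderiv_subset ℝ h))⟩
    have e1 : ∫ x, fderiv ℝ φ x v • g x = ∫ x in ball (0 : E n) 1, (fderiv ℝ φ x v) • f x := by
      rw [← setIntegral_eq_integral_of_forall_compl_eq_zero (s := ball (0 : E n) 1)
        (fun x hx => by
          rw [(hz x fun h => hx (hsub h)).2]; simp)]
      refine setIntegral_congr_fun measurableSet_ball fun x _ => ?_
      by_cases hx : x ∈ ball (0 : E n) (7 / 8)
      · rw [hgf (ball_subset_closedBall hx)]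
      · rw [(hz x hx).2]
        simp
    have e2 : ∫ x, φ x • Dg x v = ∫ x in ball (0 : E n) 1, φ x • Df x v := by
      rw [← setIntegral_eq_integral_of_forall_compl_eq_zero (s := ball (0 : E n) (7 / 8))
        (fun x hx => by rw [(hz x hx).1, zero_smul])]
      have e3 : ∫ x in ball (0 : E n) 1, φ x • Df x v
          = ∫ x in ball (0 : E n) (7 / 8), φ x • Df x v := by
        refine setIntegral_eq_of_subset_of_forall_sdiff_eq_zero measurableSet_ball hsub ?_
        intro x hx
        rw [(hz x hx.2).1, zero_smul]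
      rw [e3]
      refine integral_congr_ae ?_
      filter_upwards [hDge] with x hx
      rw [hx]
    rw [e1, e2, h1]

/-- a polynomial in `a + b log (1 + u)` grows slower than `u` -/
lemma num_growth {C a b : ℝ} (hC : 0 < C) (ha : 0 ≤ a) (hb : 0 < b) (N : ℕ) :
    ∃ B : ℝ, 0 ≤ B ∧ ∀ u : ℝ, 0 ≤ u → C * (a + b * Real.log (1 + u)) ^ N ≤ u + B := by
  set κ : ℝ := Real.exp (-(a / b)) / (b ^ (N + 1) * (N + 1).factorial) with hκ
  have hκ0 : 0 < κ := by positivity
  refine ⟨C * (C / κ) ^ N + 1, by positivity, fun u hu => ?_⟩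
  set w : ℝ := a + b * Real.log (1 + u) with hw
  have hlog : 0 ≤ Real.log (1 + u) := Real.log_nonneg (by linarith)
  have hw0 : 0 ≤ w := by positivity
  have h1 : κ * w ^ (N + 1) ≤ 1 + u := by
    have h2 : (w / b) ^ (N + 1) / (N + 1).factorial ≤ Real.exp (w / b) :=
      Real.pow_div_factorial_le_exp _ (by positivity) _
    have h3 : 1 + u = Real.exp (-(a / b)) * Real.exp (w / b) := by
      rw [← Real.exp_add]
      have : -(a / b) + w / b = Real.log (1 + u) := by
        rw [hw]; field_simp; ring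
      rw [this, Real.exp_log (by linarith)]
    rw [h3]
    calc κ * w ^ (N + 1) = Real.exp (-(a / b)) * ((w / b) ^ (N + 1) / (N + 1).factorial) := by
          rw [hκ, div_pow]; field_simp
      _ ≤ _ := mul_le_mul_of_nonneg_left h2 (Real.exp_pos _).le
  rcases le_total w (C / κ) with h4 | h4
  · have h5 : w ^ N ≤ (C / κ) ^ N := by gcongr
    have h6 : C * w ^ N ≤ C * (C / κ) ^ N := by gcongr
    linarith
  · have h5 : C ≤ κ * w := by
      rwa [div_le_iff₀ hκ0, mul_comm] at h4
    have h6 : C * w ^ N ≤ κ * w ^ (N + 1) := by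
      calc C * w ^ N ≤ κ * w * w ^ N := by gcongr
        _ = κ * w ^ (N + 1) := by ring
    have h7 : 0 ≤ C * (C / κ) ^ N := by positivity
    linarith

lemma lintegral_scale {F : E n → ℝ≥0∞} (hF : Measurable F) {D D' : Set (E n)}
    (hD : MeasurableSet D) (z : E n) {ρ : ℝ} (hρ : 0 < ρ) (hsub : ∀ v ∈ D', z + ρ • v ∈ D) :
    ∫⁻ v in D', F (z + ρ • v) ≤ ENNReal.ofReal ((ρ ^ n)⁻¹) * ∫⁻ x in D, F x := by
  have hm : Measurable (fun v : E n => z + ρ • v) := by fun_prop
  have hpre : MeasurableSet ((fun v : E n => z + ρ • v) ⁻¹' D) := hD.preimage hm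
  have h1 : ∫⁻ v in D', F (z + ρ • v) ≤ ∫⁻ v, D.indicator F (z + ρ • v) := by
    calc ∫⁻ v in D', F (z + ρ • v)
        ≤ ∫⁻ v in (fun v : E n => z + ρ • v) ⁻¹' D, F (z + ρ • v) :=
          lintegral_mono_set fun v hv => hsub v hv
      _ = ∫⁻ v, D.indicator F (z + ρ • v) := by
          rw [← lintegral_indicator hpre]
          refine lintegral_congr fun v => ?_
          by_cases hv : z + ρ • v ∈ D
          · rw [indicator_of_mem hv,
              indicator_of_mem (show v ∈ (fun v : E n => z + ρ • v) ⁻¹' D from hv)]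
          · rw [indicator_of_notMem hv,
              indicator_of_notMem (show v ∉ (fun v : E n => z + ρ • v) ⁻¹' D from hv)]
  refine h1.trans (le_of_eq ?_)
  have hFD : Measurable (D.indicator F) := hF.indicator hD
  have h2 : ∫⁻ v, D.indicator F (z + ρ • v)
      = ∫⁻ x, D.indicator F (z + x) ∂(Measure.map (fun v : E n => ρ • v) volume) := by
    exact (lintegral_map (f := fun x => D.indicator F (z + x))
      (hFD.comp (measurable_const_add z)) (measurable_const_smul ρ)).symm
  rw [h2, Measure.map_addHaar_smul (volume : Measure (E n)) hρ.ne', lintegral_smul_measure,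
    lintegral_add_left_eq_self, lintegral_indicator hD, finrank_E,
    abs_of_pos (inv_pos.mpr (pow_pos hρ n)), smul_eq_mul]

/-- undoing the rescaling -/
lemma bloch_unscale {g : E n → E n} (z : E n) {ρ b r : ℝ} (hρ : 0 < ρ) (hb : 0 < b)
    {D D' : Set (E n)} (hsub : ∀ v ∈ D', z + ρ • v ∈ D)
    (h : Bloch (fun v => b • g (z + ρ • v)) D' r) : Bloch g D (b⁻¹ * r) := by
  obtain ⟨y, U, hU, hUo, e, he⟩ := h
  set Φ : E n ≃ₜ E n := (Homeomorph.smulOfNeZero ρ hρ.ne').trans (Homeomorph.addLeft z) with hΦ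
  have hΦv : ∀ v, Φ v = z + ρ • v := fun v => rfl
  set S : E n ≃ₜ E n := Homeomorph.smulOfNeZero b⁻¹ (inv_ne_zero hb.ne') with hS
  have hSv : ∀ v, S v = b⁻¹ • v := fun v => rfl
  have hSb : S '' ball y r = ball (b⁻¹ • y) (b⁻¹ * r) := by
    have h1 : S '' ball y r = b⁻¹ • ball y r := rfl
    rw [h1, _root_.smul_ball (inv_ne_zero hb.ne'), Real.norm_eq_abs,
      abs_of_pos (inv_pos.mpr hb)]
  refine ⟨b⁻¹ • y, Φ '' U, ?_, (Φ.isOpen_image).2 hUo,
    ((Φ.image U).symm.trans (e.trans (S.image (ball y r)))).trans (Homeomorph.setCongr hSb), ?_⟩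
  · rintro x ⟨v, hv, rfl⟩
    exact hsub v (hU hv)
  · rintro ⟨x, v, hv, rfl⟩
    have h1 : (Φ.image U).symm ⟨Φ v, v, hv, rfl⟩ = ⟨v, hv⟩ := by
      rw [Homeomorph.symm_apply_eq]
      rfl
    change ((S.image (ball y r)) (e ((Φ.image U).symm ⟨Φ v, v, hv, rfl⟩)) : E n) = g (Φ v)
    rw [h1]
    change S (e ⟨v, hv⟩ : E n) = g (Φ v)
    rw [he ⟨v, hv⟩, hSv, hΦv, inv_smul_smul₀ hb.ne']

/-- The theorem in working form. -/
theorem bloch_main (n : ℕ) (hn : 3 ≤ n) (lam : ℝ) (hlam : 0 < lam) (A : ℝ) : ∃ r : ℝ, 0 < r ∧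
    ∀ (f : E n → E n) (Df : E n → (E n →L[ℝ] E n)), ContinuousOn f (ball 0 1) →
    LocallyIntegrableOn Df (ball 0 1) →
    (∀ φ : E n → ℝ, ContDiff ℝ ∞ φ → HasCompactSupport φ → tsupport φ ⊆ ball 0 1 →
      ∀ v : E n, ∫ x in ball (0 : E n) 1, (fderiv ℝ φ x v) • f x
        = - ∫ x in ball (0 : E n) 1, φ x • Df x v) →
    LocallyIntegrableOn (fun x => (Df x).det) (ball 0 1) →
    (∀ᵐ x ∂(volume.restrict (ball (0 : E n) 1)), 0 ≤ (Df x).det ∧
      ((Df x).det = 0 → Df x = 0)) →
    (∫⁻ x in ball (0 : E n) 1, ENNReal.ofReal (Real.exp (lam *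
      (if (Df x).det = 0 then 1 else ‖Df x‖ ^ n / (Df x).det))) ≤ ENNReal.ofReal A) →
    diam (f '' ball 0 (1 / 2)) = 1 →
    ∃ y : E n, ∃ U ⊆ ball (0 : E n) 1, IsOpen U ∧ ∃ h : U ≃ₜ ball y r,
      ∀ x : U, ((h x : E n)) = f x := by
  have hn1 : 1 ≤ n := by omega
  obtain ⟨c, Cg, hc0, hc1, hCg, hgrow⟩ := growth
  obtain ⟨Cm, N, hCm, hmain⟩ := main_prop n hn lam hlam Cg hCg
  set A1 : ℝ := max A 0 + Real.exp lam * (volume (ball (0 : E n) 1)).toReal + 1 with hA1
  have hA10 : 1 ≤ A1 := by
    have h1 : 0 ≤ max A 0 := le_max_right _ _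
    have h2 : 0 ≤ Real.exp lam * (volume (ball (0 : E n) 1)).toReal := by positivity
    linarith
  have hlogA : 0 ≤ Real.log A1 := Real.log_nonneg hA10
  have hlogC : 0 ≤ Real.log Cg := Real.log_nonneg hCg
  obtain ⟨B, hB0, hB⟩ := num_growth (C := Cm) (a := 1 + Real.log A1 + n * Real.log Cg)
    (b := 2 * n) (by linarith) (by positivity) (by positivity) N
  refine ⟨c * Real.exp (-B), by positivity, ?_⟩
  intro f Df hf hDf hweak hJ hpos hexp hdiam
  obtain ⟨g, Dg, K, H, hgf, hKexp⟩ := exists_GM hn1 hlam f Df hf hDf hweak hJ hpos hexp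
  have hdg : diam (g '' ball 0 (1 / 2)) = 1 := by
    have h1 : g '' ball 0 (1 / 2) = f '' ball 0 (1 / 2) :=
      image_congr fun x hx => hgf (ball_subset_closedBall (ball_subset_ball (by norm_num) hx))
    rw [h1]
    exact hdiam
  obtain ⟨z, ρ, hρ, hsubz, hW, hWC, hρb⟩ := hgrow n hn1 g H.cont.continuousOn hdg
  set W : ℝ := diam (g '' ball z ρ) with hWdef
  have hW0 : 0 < W := lt_of_lt_of_le hc0 hW
  set u : ℝ := max 0 (Real.log W) with hu
  have hu0 : 0 ≤ u := le_max_left _ _
  have hWu : c * Real.exp u ≤ W := by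
    rcases le_total W 1 with h | h
    · have : u = 0 := by
        rw [hu]; exact max_eq_left (Real.log_nonpos hW0.le h)
      rw [this, Real.exp_zero, mul_one]
      exact hW
    · have : u = Real.log W := by
        rw [hu]; exact max_eq_right (Real.log_nonneg h)
      rw [this, Real.exp_log hW0]
      nlinarith
  -- rescaling
  have hsub : ∀ v ∈ ball (0 : E n) 8, z + ρ • v ∈ ball (0 : E n) (7 / 8) := by
    intro v hv
    rw [mem_ball_zero_iff] at hv
    have h1 : z + ρ • v ∈ closedBall z (8 * ρ) := by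
      rw [mem_closedBall, dist_eq_norm, add_sub_cancel_left, norm_smul, Real.norm_eq_abs,
        abs_of_pos hρ]
      nlinarith
    exact closedBall_subset_ball (by norm_num) (hsubz h1)
  have hb : 0 < W⁻¹ := inv_pos.mpr hW0
  have HS := H.scale hn1 z hρ hb isOpen_ball hsub isBounded_ball
  set T : ℝ := 1 + Real.log A1 + n * max 0 (Real.log (1 / ρ)) with hT
  have hT1 : 1 ≤ T := by
    have : 0 ≤ n * max 0 (Real.log (1 / ρ)) := by positivity
    linarith
  have hTle : T ≤ 1 + Real.log A1 + n * Real.log Cg + 2 * n * Real.log (1 + u) := by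
    have h1 : max 0 (Real.log (1 / ρ)) ≤ Real.log Cg + 2 * Real.log (1 + u) := by
      refine max_le ?_ ?_
      · have : 0 ≤ Real.log (1 + u) := Real.log_nonneg (by linarith)
        linarith
      · calc Real.log (1 / ρ) ≤ Real.log (Cg * (1 + u) ^ 2) :=
              Real.log_le_log (by positivity) hρb
          _ = Real.log Cg + 2 * Real.log (1 + u) := by
              rw [Real.log_mul (by positivity) (by positivity), Real.log_pow]
              push_cast
              ring
    have h2 : (n : ℝ) * max 0 (Real.log (1 / ρ)) ≤ n * (Real.log Cg + 2 * Real.log (1 + u)) :=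
      mul_le_mul_of_nonneg_left h1 (by positivity)
    rw [hT]
    linarith
  have hbddz : Bornology.IsBounded (g '' ball z (8 * ρ)) :=
    (((isCompact_closedBall z (8 * ρ)).image H.cont).isBounded).subset
      (image_mono ball_subset_closedBall)
  have hd1 : 1 ≤ diam ((fun v => W⁻¹ • g (z + ρ • v)) '' ball 0 1) := by
    have h1 : (fun v => W⁻¹ • g (z + ρ • v)) '' ball 0 1 = W⁻¹ • (g '' ball z ρ) := by
      ext x
      constructor
      · rintro ⟨v, hv, rfl⟩
        rw [mem_ball_zero_iff] at hv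
        refine smul_mem_smul_set ⟨z + ρ • v, ?_, rfl⟩
        rw [mem_ball, dist_eq_norm, add_sub_cancel_left, norm_smul, Real.norm_eq_abs,
          abs_of_pos hρ]
        nlinarith
      · rintro ⟨_, ⟨w, hw, rfl⟩, rfl⟩
        rw [mem_ball, dist_eq_norm] at hw
        refine ⟨ρ⁻¹ • (w - z), ?_, ?_⟩
        · rw [mem_ball_zero_iff, norm_smul, norm_inv, Real.norm_eq_abs, abs_of_pos hρ,
            inv_mul_lt_iff₀ hρ, mul_one]
          exact hw
        · simp only
          rw [smul_inv_smul₀ hρ.ne', add_sub_cancel]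
    rw [h1, diam_smul₀, norm_inv, Real.norm_eq_abs, abs_of_pos hW0, inv_mul_cancel₀ hW0.ne']
  have hM : ∀ x ∈ ball (0 : E n) 8, ∀ w ∈ ball (0 : E n) 8,
      dist (W⁻¹ • g (z + ρ • x)) (W⁻¹ • g (z + ρ • w)) ≤ Cg := by
    intro x hx w hw
    have hmem : ∀ v ∈ ball (0 : E n) 8, g (z + ρ • v) ∈ g '' ball z (8 * ρ) := by
      intro v hv
      rw [mem_ball_zero_iff] at hv
      refine mem_image_of_mem g ?_
      rw [mem_ball, dist_eq_norm, add_sub_cancel_left, norm_smul, Real.norm_eq_abs, abs_of_pos hρ]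
      nlinarith
    rw [dist_smul₀, norm_inv, Real.norm_eq_abs, abs_of_pos hW0, inv_mul_le_iff₀ hW0]
    calc dist (g (z + ρ • x)) (g (z + ρ • w)) ≤ diam (g '' ball z (8 * ρ)) :=
          dist_le_diam_of_mem hbddz (hmem x hx) (hmem w hw)
      _ ≤ Cg * W := hWC
      _ = W * Cg := mul_comm _ _
  have hKm : Measurable (fun x => ENNReal.ofReal (Real.exp (lam * K x))) :=
    (Real.measurable_exp.comp (H.measK.const_mul lam)).ennreal_ofReal
  have hTexp : ∫⁻ v in ball (0 : E n) 8, ENNReal.ofReal (Real.exp (lam * K (z + ρ • v)))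
      ≤ ENNReal.ofReal (Real.exp T) := by
    refine (lintegral_scale hKm measurableSet_ball z hρ hsub).trans ?_
    refine (mul_le_mul' le_rfl hKexp).trans ?_
    rw [← ENNReal.ofReal_mul (by positivity)]
    refine ENNReal.ofReal_le_ofReal ?_
    have h1 : (ρ ^ n)⁻¹ ≤ Real.exp (n * max 0 (Real.log (1 / ρ))) := by
      have h2 : (ρ ^ n)⁻¹ = Real.exp (n * Real.log (1 / ρ)) := by
        rw [← Real.log_pow, Real.exp_log (by positivity), one_div, inv_pow]
      rw [h2, Real.exp_le_exp]
      exact mul_le_mul_of_nonneg_left (le_max_right _ _) (by positivity)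
    have h3 : max A 0 + Real.exp lam * (volume (ball (0 : E n) 1)).toReal ≤ Real.exp (Real.log A1) := by
      rw [Real.exp_log (by linarith), hA1]
      linarith
    have h4 : 0 ≤ max A 0 + Real.exp lam * (volume (ball (0 : E n) 1)).toReal := by
      have h1 : 0 ≤ max A 0 := le_max_right _ _
      positivity
    calc (ρ ^ n)⁻¹ * (max A 0 + Real.exp lam * (volume (ball (0 : E n) 1)).toReal)
        ≤ Real.exp (n * max 0 (Real.log (1 / ρ))) * Real.exp (Real.log A1) := by
          gcongr
      _ ≤ Real.exp T := by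
          rw [← Real.exp_add, Real.exp_le_exp, hT]
          linarith
  have hbl := hmain T _ _ _ HS hT1 hd1 hM hTexp
  have hbl2 := bloch_unscale z hρ hb hsub hbl
  rw [inv_inv] at hbl2
  have hr : c * Real.exp (-B) ≤ W * Real.exp (-(Cm * T ^ N)) := by
    have h1 : Cm * T ^ N ≤ u + B := by
      refine le_trans ?_ (hB u hu0)
      have : T ^ N ≤ (1 + Real.log A1 + n * Real.log Cg + 2 * n * Real.log (1 + u)) ^ N :=
        pow_le_pow_left₀ (by linarith) hTle N
      exact mul_le_mul_of_nonneg_left this (by linarith)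
    calc c * Real.exp (-B) = c * Real.exp u * Real.exp (-(u + B)) := by
          rw [mul_assoc, ← Real.exp_add]
          congr 2
          ring
      _ ≤ W * Real.exp (-(Cm * T ^ N)) := by
          have h2 : Real.exp (-(u + B)) ≤ Real.exp (-(Cm * T ^ N)) :=
            Real.exp_le_exp.2 (by linarith)
          gcongr
  obtain ⟨y, U, hU, hUo, h, hh⟩ := hbl2.mono (r' := c * Real.exp (-B)) (by positivity) hr H.cont
  refine ⟨y, U, hU.trans (ball_subset_ball (by norm_num)), hUo, h, fun x => ?_⟩
  rw [hh x, hgf (ball_subset_closedBall (hU x.2))]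

end FinalAux

end Pool.Agent.MP_dd09c0_an
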