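import Pool.Agent.MP_dd09c0_an.Defs

/-! # Module V: growth -/

open MeasureTheory Metric Set Filter Topology
open scoped ENNReal NNReal ContDiff RealInnerProductSpace

namespace Pool.Agent.MP_dd09c0_an

namespace GrowthAux

variable {n : ℕ}

theorem near_max {α : Type*} {A : Set α} {Ψ : α → ℝ} (hb : BddAbove (Ψ '' A))
    (h : ∃ a ∈ A, 0 < Ψ a) : ∃ a ∈ A, 0 < Ψ a ∧ ∀ b ∈ A, Ψ b ≤ 2 * Ψ a := by
  obtain ⟨a₀, ha₀, hpos⟩ := h
  have hs : 0 < sSup (Ψ '' A) := lt_of_lt_of_le hpos (le_csSup hb ⟨a₀, ha₀, rfl⟩)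
  obtain ⟨_, ⟨a, ha, rfl⟩, h1⟩ := exists_lt_of_lt_csSup (⟨_, ⟨a₀, ha₀, rfl⟩⟩ : (Ψ '' A).Nonempty)
    (half_lt_self hs)
  refine ⟨a, ha, lt_trans (half_pos hs) h1, fun b hb' => ?_⟩
  have h2 : Ψ b ≤ sSup (Ψ '' A) := le_csSup hb ⟨b, hb', rfl⟩
  linarith

theorem subdiv {f : E n → E n} {x : E n} {R r m : ℝ} (hr : 0 < r) (hR : 0 < R)
    (hm : 0 ≤ m) (hbd : ∀ c ∈ ball x R, Bornology.IsBounded (f '' ball c r))
    (h : ∀ c ∈ ball x R, diam (f '' ball c r) ≤ m) :
    diam (f '' ball x R) ≤ (2 * R / r + 1) * m := by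
  have h0 : 0 ≤ (2 * R / r + 1) * m := by positivity
  apply diam_le_of_forall_dist_le h0
  rintro _ ⟨a, ha, rfl⟩ _ ⟨b, hb, rfl⟩
  set N : ℕ := ⌊2 * R / r⌋₊ + 1 with hN
  have hN0 : (0 : ℝ) < N := by positivity
  have hNle : (N : ℝ) ≤ 2 * R / r + 1 := by
    have := Nat.floor_le (show (0 : ℝ) ≤ 2 * R / r by positivity)
    rw [hN]; push_cast; linarith
  have hNlt : 2 * R / r < N := by
    have := Nat.lt_floor_add_one (2 * R / r)
    rw [hN]; push_cast; exact this
  set c : ℕ → E n := fun i => AffineMap.lineMap a b ((i : ℝ) / N) with hc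
  have hc0 : c 0 = a := by simp [hc]
  have hcN : c N = b := by simp [hc]
  have hmem : ∀ i ≤ N, c i ∈ ball x R := by
    intro i hi
    have hconv : Convex ℝ (ball x R) := convex_ball x R
    apply hconv.lineMap_mem ha hb
    have : (i : ℝ) ≤ N := by exact_mod_cast hi
    exact ⟨by positivity, (div_le_one hN0).mpr this⟩
  have hstep : ∀ i < N, dist (f (c i)) (f (c (i + 1))) ≤ m := by
    intro i hi
    refine le_trans ?_ (h (c i) (hmem i hi.le))
    apply dist_le_diam_of_mem (hbd (c i) (hmem i hi.le))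
    · exact ⟨c i, mem_ball_self hr, rfl⟩
    · refine ⟨c (i + 1), ?_, rfl⟩
      rw [mem_ball, hc]
      simp only
      rw [dist_lineMap_lineMap]
      have h1 : dist (((i + 1 : ℕ) : ℝ) / N) ((i : ℝ) / N) = 1 / N := by
        rw [Real.dist_eq]
        push_cast
        rw [← sub_div, add_sub_cancel_left, abs_of_pos (by positivity)]
      rw [h1]
      have h2 : dist a b < 2 * R := by
        calc dist a b ≤ dist a x + dist b x := dist_triangle_right a b x
          _ < R + R := add_lt_add ha hb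
          _ = 2 * R := by ring
      have h3 : 2 * R < r * N := by
        rw [div_lt_iff₀ hr] at hNlt
        linarith
      rw [one_div, inv_mul_lt_iff₀ hN0]
      linarith
  have hsum := dist_le_range_sum_dist (fun i => f (c i)) N
  rw [hc0, hcN] at hsum
  calc dist (f a) (f b) ≤ ∑ i ∈ Finset.range N, dist (f (c i)) (f (c (i + 1))) := hsum
    _ ≤ ∑ i ∈ Finset.range N, m := Finset.sum_le_sum fun i hi => hstep i (Finset.mem_range.mp hi)
    _ = N * m := by simp
    _ ≤ (2 * R / r + 1) * m := mul_le_mul_of_nonneg_right hNle hm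

theorem phase1 {f : E n → E n} (hbd : Bornology.IsBounded (f '' closedBall 0 (3 / 4)))
    (hdiam : diam (f '' ball 0 (1 / 2)) = 1) :
    ∃ (x : E n) (r : ℝ), 0 < r ∧ ‖x‖ + 16 * r ≤ 3 / 4 ∧
      diam (f '' ball x (8 * r)) ≤ 66 * Real.exp (1 / r) * diam (f '' ball x r) ∧
      Real.exp (-64) / 132 * Real.exp (1 / r) ≤ diam (f '' ball x r) := by
  have hsub : ∀ (x : E n) (r : ℝ), ‖x‖ + r ≤ 3 / 4 → ball x r ⊆ closedBall 0 (3 / 4) := by
    intro x r h z hz
    rw [mem_closedBall_zero_iff]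
    rw [mem_ball, dist_eq_norm] at hz
    calc ‖z‖ = ‖(z - x) + x‖ := by rw [sub_add_cancel]
      _ ≤ ‖z - x‖ + ‖x‖ := norm_add_le _ _
      _ ≤ 3 / 4 := by linarith
  have hb : ∀ (x : E n) (r : ℝ), ‖x‖ + r ≤ 3 / 4 → Bornology.IsBounded (f '' ball x r) :=
    fun x r h => hbd.subset (image_mono (hsub x r h))
  -- a point with large oscillation
  obtain ⟨c, hc, hcd⟩ : ∃ c ∈ ball (0 : E n) (1 / 2), 1 / 66 < diam (f '' ball c (1 / 64)) := by
    by_contra hcon
    push Not at hcon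
    have h1 := subdiv (f := f) (x := 0) (R := 1 / 2) (r := 1 / 64) (m := 1 / 66) (by norm_num)
      (by norm_num) (by norm_num) (fun c hc => hb c _ (by
        rw [mem_ball_zero_iff] at hc; linarith)) hcon
    rw [hdiam] at h1
    norm_num at h1
  rw [mem_ball_zero_iff] at hc
  obtain ⟨⟨x, r⟩, ⟨hr, hxr⟩, hpos, hmax⟩ := near_max
    (A := {p : E n × ℝ | 0 < p.2 ∧ ‖p.1‖ + 16 * p.2 ≤ 3 / 4})
    (Ψ := fun p => diam (f '' ball p.1 p.2) * Real.exp (-(1 / p.2)))
    (by
      refine ⟨diam (f '' closedBall 0 (3 / 4)), ?_⟩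
      rintro _ ⟨⟨y, s⟩, ⟨hs, hys⟩, rfl⟩
      simp only at hs hys ⊢
      have h1 : diam (f '' ball y s) ≤ diam (f '' closedBall 0 (3 / 4)) :=
        diam_mono (image_mono (hsub y s (by linarith))) hbd
      have h2 : Real.exp (-(1 / s)) ≤ 1 := Real.exp_le_one_iff.mpr (by
        have : 0 < 1 / s := by positivity
        linarith)
      calc diam (f '' ball y s) * Real.exp (-(1 / s)) ≤ diam (f '' ball y s) * 1 :=
            mul_le_mul_of_nonneg_left h2 diam_nonneg
        _ ≤ _ := by linarith)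
    ⟨(c, 1 / 64), ⟨by norm_num, by simp only; linarith⟩,
      mul_pos (lt_trans (by norm_num) hcd) (Real.exp_pos _)⟩
  simp only at hr hxr hpos hmax
  refine ⟨x, r, hr, hxr, ?_, ?_⟩
  · have hstep : ∀ x' ∈ ball x (8 * r), diam (f '' ball x' (r / 2)) ≤
        2 * Real.exp (1 / r) * diam (f '' ball x r) := by
      intro x' hx'
      have hx'n : ‖x'‖ ≤ ‖x‖ + 8 * r := by
        rw [mem_ball, dist_eq_norm] at hx'
        calc ‖x'‖ = ‖(x' - x) + x‖ := by rw [sub_add_cancel]
          _ ≤ ‖x' - x‖ + ‖x‖ := norm_add_le _ _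
          _ ≤ ‖x‖ + 8 * r := by linarith
      have h1 := hmax (x', r / 2) ⟨by simp only; linarith, by simp only; linarith⟩
      simp only at h1
      have e1 : -(1 / (r / 2)) = -(1 / r) + -(1 / r) := by field_simp; ring
      rw [e1, Real.exp_add, ← mul_assoc, ← mul_assoc] at h1
      have h2 := le_of_mul_le_mul_right h1 (Real.exp_pos _)
      rw [Real.exp_neg, ← div_eq_mul_inv, div_le_iff₀ (Real.exp_pos _)] at h2
      linarith
    have h3 := subdiv (f := f) (x := x) (R := 8 * r) (r := r / 2)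
      (m := 2 * Real.exp (1 / r) * diam (f '' ball x r)) (by linarith) (by linarith)
      (mul_nonneg (by positivity) diam_nonneg) (fun c hc => hb c _ (by
        rw [mem_ball, dist_eq_norm] at hc
        have : ‖c‖ ≤ ‖x‖ + 8 * r := by
          calc ‖c‖ = ‖(c - x) + x‖ := by rw [sub_add_cancel]
            _ ≤ ‖c - x‖ + ‖x‖ := norm_add_le _ _
            _ ≤ ‖x‖ + 8 * r := by linarith
        linarith)) hstep
    have e2 : 2 * (8 * r) / (r / 2) + 1 = 33 := by field_simp; ring
    rw [e2] at h3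
    linarith
  · have h1 := hmax (c, 1 / 64) ⟨by norm_num, by simp only; linarith⟩
    simp only at h1
    have e1 : -(1 / (1 / 64 : ℝ)) = -64 := by norm_num
    rw [e1] at h1
    have h2 : 1 / 66 * Real.exp (-64) ≤ 2 * (diam (f '' ball x r) * Real.exp (-(1 / r))) :=
      le_trans (mul_le_mul_of_nonneg_right hcd.le (Real.exp_pos _).le) h1
    rw [Real.exp_neg (1 / r)] at h2
    have h3 : 0 < Real.exp (1 / r) := Real.exp_pos _
    have h4 : 1 / 66 * Real.exp (-64) * Real.exp (1 / r) ≤ 2 * diam (f '' ball x r) := by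
      calc 1 / 66 * Real.exp (-64) * Real.exp (1 / r) ≤
          2 * (diam (f '' ball x r) * (Real.exp (1 / r))⁻¹) * Real.exp (1 / r) :=
            mul_le_mul_of_nonneg_right h2 h3.le
        _ = 2 * diam (f '' ball x r) := by field_simp
    linarith

theorem exp_six : (264 : ℝ) < Real.exp 6 := by
  have h := Real.exp_one_gt_d9
  have : Real.exp 6 = Real.exp 1 ^ 6 := by rw [← Real.exp_nat_mul]; norm_num
  rw [this]
  calc (264 : ℝ) < 2.7 ^ 6 := by norm_num
    _ ≤ Real.exp 1 ^ 6 := by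
      apply pow_le_pow_left₀ (by norm_num)
      linarith

theorem phase2 {f : E n → E n} (hbd : Bornology.IsBounded (f '' closedBall 0 (3 / 4)))
    {x : E n} {r : ℝ} (hr : 0 < r) (hxr : ‖x‖ + 16 * r ≤ 3 / 4)
    (h8 : diam (f '' ball x (8 * r)) ≤ 66 * Real.exp (1 / r) * diam (f '' ball x r))
    (hlow : Real.exp (-64) / 132 * Real.exp (1 / r) ≤ diam (f '' ball x r)) :
    ∃ (z : E n) (κ : ℝ), 8 ≤ κ ∧ 1 / r = 2 * κ - 6 ∧ dist z x < 5 * r ∧
      diam (f '' ball z (8 * (r / κ))) ≤ 34 * Real.exp 8 * diam (f '' ball z (r / κ)) ∧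
      Real.exp (-70) / 2112 * Real.exp (κ / 2) ≤ diam (f '' ball z (r / κ)) := by
  have hr64 : r ≤ 3 / 64 := by linarith [norm_nonneg x]
  set κ : ℝ := 1 / (2 * r) + 3 with hκ
  have hκr : 1 / r = 2 * κ - 6 := by rw [hκ]; field_simp; ring
  have hκ8 : 8 ≤ κ := by
    have : (64 / 3 : ℝ) ≤ 1 / r := by
      rw [le_div_iff₀ hr]; linarith
    linarith
  have hκ0 : 0 < κ := by linarith
  set ρ : ℝ := r / κ with hρ
  have hρ0 : 0 < ρ := div_pos hr hκ0
  have hρ8 : 8 * ρ ≤ r := by
    rw [hρ, mul_div_assoc', div_le_iff₀ hκ0]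
    nlinarith
  have hrρ : r / ρ = κ := by rw [hρ]; field_simp
  have hdist : ∀ (z : E n) (s t : ℝ), dist z x ≤ s → s + t ≤ 16 * r →
      ball z t ⊆ closedBall 0 (3 / 4) := by
    intro z s t hz hst w hw
    rw [mem_closedBall_zero_iff]
    rw [mem_ball, dist_eq_norm] at hw
    rw [dist_eq_norm] at hz
    calc ‖w‖ = ‖(w - z) + (z - x) + x‖ := by congr 1; abel
      _ ≤ ‖(w - z) + (z - x)‖ + ‖x‖ := norm_add_le _ _
      _ ≤ ‖w - z‖ + ‖z - x‖ + ‖x‖ := by gcongr; exact norm_add_le _ _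
      _ ≤ 3 / 4 := by linarith
  have hb : ∀ (z : E n) (s t : ℝ), dist z x ≤ s → s + t ≤ 16 * r →
      Bornology.IsBounded (f '' ball z t) :=
    fun z s t h1 h2 => hbd.subset (image_mono (hdist z s t h1 h2))
  have hOmpos : 0 < diam (f '' ball x r) := lt_of_lt_of_le (by positivity) hlow
  -- a point with large oscillation
  obtain ⟨c, hc, hcd⟩ : ∃ c ∈ ball x r,
      diam (f '' ball x r) / (2 * (2 * κ + 1)) < diam (f '' ball c ρ) := by
    by_contra hcon
    push Not at hcon
    have h1 := subdiv (f := f) (x := x) (R := r) (r := ρ)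
      (m := diam (f '' ball x r) / (2 * (2 * κ + 1))) hρ0 hr (by positivity)
      (fun c hc => hb c r ρ (mem_ball.mp hc).le (by linarith)) hcon
    rw [mul_div_assoc, hrρ] at h1
    have h2 : (2 * κ + 1) * (diam (f '' ball x r) / (2 * (2 * κ + 1))) =
        diam (f '' ball x r) / 2 := by field_simp
    rw [h2] at h1
    linarith
  obtain ⟨z, hz, hzpos, hmax⟩ := near_max (A := closedBall x (6 * r))
    (Ψ := fun y => diam (f '' ball y ρ) * Real.exp (-(dist y x / ρ)))
    (by
      refine ⟨diam (f '' closedBall 0 (3 / 4)), ?_⟩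
      rintro _ ⟨y, hy, rfl⟩
      simp only
      have h1 : diam (f '' ball y ρ) ≤ diam (f '' closedBall 0 (3 / 4)) :=
        diam_mono (image_mono (hdist y (6 * r) ρ hy (by linarith))) hbd
      have h2 : Real.exp (-(dist y x / ρ)) ≤ 1 := Real.exp_le_one_iff.mpr (by
        have : 0 ≤ dist y x / ρ := by positivity
        linarith)
      calc diam (f '' ball y ρ) * Real.exp (-(dist y x / ρ)) ≤ diam (f '' ball y ρ) * 1 :=
            mul_le_mul_of_nonneg_left h2 diam_nonneg
        _ ≤ _ := by linarith)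
    ⟨c, mem_closedBall.mpr (by rw [mem_ball] at hc; linarith),
      mul_pos (lt_trans (by positivity) hcd) (Real.exp_pos _)⟩
  have hcmax := hmax c (mem_closedBall.mpr (by rw [mem_ball] at hc; linarith))
  -- lower bound for the value at `c`
  have hclow : Real.exp (-κ) * (diam (f '' ball x r) / (2 * (2 * κ + 1))) ≤
      2 * (diam (f '' ball z ρ) * Real.exp (-(dist z x / ρ))) := by
    refine le_trans ?_ hcmax
    rw [mul_comm]
    apply mul_le_mul hcd.le _ (Real.exp_pos _).le diam_nonneg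
    apply Real.exp_le_exp.mpr
    apply neg_le_neg
    rw [← hrρ]
    exact div_le_div_of_nonneg_right (mem_ball.mp hc).le hρ0.le
  have hexp : 2 * κ + 1 ≤ Real.exp (2 * κ) := Real.add_one_le_exp _
  have hzlt : dist z x < 5 * r := by
    by_contra hge
    push Not at hge
    have h1 : diam (f '' ball z ρ) ≤ 66 * Real.exp (1 / r) * diam (f '' ball x r) := by
      refine le_trans (diam_mono (image_mono ?_) (hb x 0 (8 * r) (by simp) (by linarith))) h8
      apply ball_subset_ball'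
      have := mem_closedBall.mp hz
      linarith
    have h2 : Real.exp (-(dist z x / ρ)) ≤ Real.exp (-(5 * κ)) := by
      apply Real.exp_le_exp.mpr
      apply neg_le_neg
      rw [← hrρ, ← mul_div_assoc]
      exact div_le_div_of_nonneg_right hge hρ0.le
    have h3 : Real.exp (-κ) * (diam (f '' ball x r) / (2 * (2 * κ + 1))) ≤
        2 * (66 * Real.exp (1 / r) * diam (f '' ball x r) * Real.exp (-(5 * κ))) := by
      refine le_trans hclow ?_
      apply mul_le_mul_of_nonneg_left _ (by norm_num)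
      exact mul_le_mul h1 h2 (Real.exp_pos _).le (by positivity)
    rw [hκr] at h3
    have e1 : Real.exp (2 * κ - 6) * Real.exp (-(5 * κ)) =
        Real.exp (-κ) * (Real.exp (2 * κ) * Real.exp 6)⁻¹ := by
      rw [← Real.exp_add, ← Real.exp_add, ← Real.exp_neg, ← Real.exp_add]
      congr 1; ring
    have h4 : Real.exp (-κ) * diam (f '' ball x r) * (1 / (2 * (2 * κ + 1))) ≤
        Real.exp (-κ) * diam (f '' ball x r) * (132 * (Real.exp (2 * κ) * Real.exp 6)⁻¹) := by
      calc Real.exp (-κ) * diam (f '' ball x r) * (1 / (2 * (2 * κ + 1)))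
          = Real.exp (-κ) * (diam (f '' ball x r) / (2 * (2 * κ + 1))) := by ring
        _ ≤ 2 * (66 * Real.exp (2 * κ - 6) * diam (f '' ball x r) * Real.exp (-(5 * κ))) := h3
        _ = 132 * diam (f '' ball x r) * (Real.exp (2 * κ - 6) * Real.exp (-(5 * κ))) := by ring
        _ = _ := by rw [e1]; ring
    have h5 := le_of_mul_le_mul_left h4 (by positivity)
    rw [one_div, ← div_eq_mul_inv, inv_le_comm₀ (by positivity) (by positivity), inv_div,
      div_le_iff₀ (by norm_num)] at h5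
    have h6 := exp_six
    have h7 : 0 < Real.exp (2 * κ) := Real.exp_pos _
    nlinarith
  refine ⟨z, κ, hκ8, hκr, hzlt, ?_, ?_⟩
  · have hstep : ∀ y ∈ ball z (8 * ρ), diam (f '' ball y ρ) ≤
        2 * Real.exp 8 * diam (f '' ball z ρ) := by
      intro y hy
      rw [mem_ball] at hy
      have hyx : dist y x ≤ dist z x + 8 * ρ := by
        have := dist_triangle y z x
        linarith
      have h1 := hmax y (mem_closedBall.mpr (by linarith))
      have h2 : Real.exp (-(dist z x / ρ)) * Real.exp (-8) ≤ Real.exp (-(dist y x / ρ)) := by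
        rw [← Real.exp_add]
        apply Real.exp_le_exp.mpr
        have : dist y x / ρ ≤ dist z x / ρ + 8 := by
          rw [div_add' _ _ _ hρ0.ne']
          exact div_le_div_of_nonneg_right hyx hρ0.le
        linarith
      have h3 : diam (f '' ball y ρ) * (Real.exp (-(dist z x / ρ)) * Real.exp (-8)) ≤
          2 * (diam (f '' ball z ρ) * Real.exp (-(dist z x / ρ))) :=
        le_trans (mul_le_mul_of_nonneg_left h2 diam_nonneg) h1
      have h4 : diam (f '' ball y ρ) * Real.exp (-8) * Real.exp (-(dist z x / ρ)) ≤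
          2 * diam (f '' ball z ρ) * Real.exp (-(dist z x / ρ)) := by linarith
      have h5 := le_of_mul_le_mul_right h4 (Real.exp_pos _)
      rw [Real.exp_neg, ← div_eq_mul_inv, div_le_iff₀ (Real.exp_pos _)] at h5
      linarith
    have h3 := subdiv (f := f) (x := z) (R := 8 * ρ) (r := ρ)
      (m := 2 * Real.exp 8 * diam (f '' ball z ρ)) hρ0 (by linarith)
      (mul_nonneg (by positivity) diam_nonneg) (fun c hc => hb c (6 * r) ρ (by
        rw [mem_ball] at hc
        have := dist_triangle c z x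
        linarith) (by linarith)) hstep
    have e2 : 2 * (8 * ρ) / ρ + 1 = 17 := by field_simp; ring
    rw [e2] at h3
    linarith
  · have h1 : Real.exp (-(dist z x / ρ)) ≤ 1 := Real.exp_le_one_iff.mpr (by
      have : 0 ≤ dist z x / ρ := by positivity
      linarith)
    have h2 : Real.exp (-κ) * (diam (f '' ball x r) / (2 * (2 * κ + 1))) ≤
        2 * diam (f '' ball z ρ) := by
      refine le_trans hclow ?_
      apply mul_le_mul_of_nonneg_left _ (by norm_num)
      calc diam (f '' ball z ρ) * Real.exp (-(dist z x / ρ)) ≤ diam (f '' ball z ρ) * 1 :=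
            mul_le_mul_of_nonneg_left h1 diam_nonneg
        _ = _ := mul_one _
    have h3 : (2 * κ + 1) ≤ 4 * Real.exp (κ / 2) := by
      have := Real.add_one_le_exp (κ / 2)
      linarith
    rw [hκr] at hlow
    have h4 : Real.exp (-κ) * ((Real.exp (-64) / 132 * Real.exp (2 * κ - 6)) /
        (2 * (4 * Real.exp (κ / 2)))) ≤
        Real.exp (-κ) * (diam (f '' ball x r) / (2 * (2 * κ + 1))) := by
      apply mul_le_mul_of_nonneg_left _ (Real.exp_pos _).le
      apply div_le_div₀ diam_nonneg hlow (by positivity)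
      linarith
    have e3 : Real.exp (-κ) * ((Real.exp (-64) / 132 * Real.exp (2 * κ - 6)) /
        (2 * (4 * Real.exp (κ / 2)))) = 2 * (Real.exp (-70) / 2112 * Real.exp (κ / 2)) := by
      have e4 : Real.exp (-κ) * Real.exp (-64) * Real.exp (2 * κ - 6) =
          Real.exp (-70) * Real.exp (κ / 2) * Real.exp (κ / 2) := by
        rw [← Real.exp_add, ← Real.exp_add, ← Real.exp_add, ← Real.exp_add]
        congr 1; ring
      have h5 : Real.exp (κ / 2) ≠ 0 := (Real.exp_pos _).ne'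
      calc Real.exp (-κ) * ((Real.exp (-64) / 132 * Real.exp (2 * κ - 6)) /
        (2 * (4 * Real.exp (κ / 2)))) = (Real.exp (-κ) * Real.exp (-64) * Real.exp (2 * κ - 6)) /
          (1056 * Real.exp (κ / 2)) := by ring
        _ = _ := by rw [e4]; field_simp; ring
    rw [e3] at h4
    linarith

end GrowthAux

open GrowthAux in
theorem growth : ∃ c C : ℝ, 0 < c ∧ c ≤ 1 ∧ 1 ≤ C ∧ ∀ (n : ℕ) (_ : 1 ≤ n) (f : E n → E n),
    ContinuousOn f (closedBall 0 (3 / 4)) → diam (f '' ball 0 (1 / 2)) = 1 →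
    ∃ (z : E n) (ρ : ℝ), 0 < ρ ∧ closedBall z (8 * ρ) ⊆ closedBall 0 (3 / 4) ∧
      c ≤ diam (f '' ball z ρ) ∧ diam (f '' ball z (8 * ρ)) ≤ C * diam (f '' ball z ρ) ∧
      1 / ρ ≤ C * (1 + max 0 (Real.log (diam (f '' ball z ρ)))) ^ 2 := by
  set c₀ : ℝ := Real.exp (-70) / 2112 with hc₀
  have hc₀pos : 0 < c₀ := by positivity
  have hc₀le : c₀ ≤ Real.exp (-1) := by
    have h1 : Real.exp (-70) ≤ Real.exp (-1) := Real.exp_le_exp.mpr (by norm_num)
    have h2 : 0 < Real.exp (-70) := Real.exp_pos _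
    rw [hc₀]
    linarith [div_le_self h2.le (by norm_num : (1 : ℝ) ≤ 2112)]
  set L : ℝ := -Real.log c₀ with hL
  have hL1 : 1 ≤ L := by
    have : Real.log c₀ ≤ -1 := by
      rw [Real.log_le_iff_le_exp hc₀pos]
      exact hc₀le
    linarith
  refine ⟨c₀, 34 * Real.exp 8 + 8 * L ^ 2, hc₀pos, ?_, ?_, ?_⟩
  · exact le_trans hc₀le (Real.exp_le_one_iff.mpr (by norm_num))
  · nlinarith [Real.exp_pos 8]
  intro n _ f hf hdiam
  have hbd : Bornology.IsBounded (f '' closedBall 0 (3 / 4)) :=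
    ((isCompact_closedBall 0 (3 / 4)).image_of_continuousOn hf).isBounded
  obtain ⟨x, r, hr, hxr, h8, hlow⟩ := phase1 hbd hdiam
  obtain ⟨z, κ, hκ8, hκr, hzx, hz8, hzlow⟩ := phase2 hbd hr hxr h8 hlow
  have hκ0 : 0 < κ := by linarith
  have hρ0 : 0 < r / κ := div_pos hr hκ0
  have hρ8 : 8 * (r / κ) ≤ r := by
    rw [mul_div_assoc', div_le_iff₀ hκ0]
    nlinarith
  set W : ℝ := diam (f '' ball z (r / κ)) with hW
  have hWc : c₀ ≤ W := by
    refine le_trans ?_ hzlow
    have : 1 ≤ Real.exp (κ / 2) := Real.one_le_exp (by linarith)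
    nlinarith
  have hWpos : 0 < W := lt_of_lt_of_le hc₀pos hWc
  refine ⟨z, r / κ, hρ0, ?_, hWc, ?_, ?_⟩
  · intro w hw
    rw [mem_closedBall_zero_iff]
    rw [mem_closedBall, dist_eq_norm] at hw
    rw [dist_eq_norm] at hzx
    calc ‖w‖ = ‖(w - z) + (z - x) + x‖ := by congr 1; abel
      _ ≤ ‖(w - z) + (z - x)‖ + ‖x‖ := norm_add_le _ _
      _ ≤ ‖w - z‖ + ‖z - x‖ + ‖x‖ := by gcongr; exact norm_add_le _ _
      _ ≤ 3 / 4 := by linarith
  · refine le_trans hz8 ?_
    apply mul_le_mul_of_nonneg_right _ hWpos.le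
    nlinarith
  · have h1 : κ / 2 - L ≤ Real.log W := by
      have h2 := Real.log_le_log (by positivity) hzlow
      rw [Real.log_mul hc₀pos.ne' (Real.exp_pos _).ne', Real.log_exp] at h2
      linarith
    set ℓ : ℝ := max 0 (Real.log W) with hℓ
    have hℓ0 : 0 ≤ ℓ := le_max_left _ _
    have hℓ1 : Real.log W ≤ ℓ := le_max_right _ _
    have h3 : κ ≤ 2 * L * (1 + ℓ) := by nlinarith
    have h4 : 1 / (r / κ) = κ * (2 * κ - 6) := by
      rw [← hκr]; field_simp
    rw [h4]
    have h5 : κ * (2 * κ - 6) ≤ 2 * κ ^ 2 := by nlinarith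
    have h6 : κ ^ 2 ≤ (2 * L * (1 + ℓ)) ^ 2 := pow_le_pow_left₀ hκ0.le h3 2
    calc κ * (2 * κ - 6) ≤ 2 * κ ^ 2 := h5
      _ ≤ 2 * (2 * L * (1 + ℓ)) ^ 2 := by linarith
      _ = 8 * L ^ 2 * (1 + ℓ) ^ 2 := by ring
      _ ≤ (34 * Real.exp 8 + 8 * L ^ 2) * (1 + ℓ) ^ 2 := by
        apply mul_le_mul_of_nonneg_right _ (by positivity)
        linarith [Real.exp_pos 8]

end Pool.Agent.MP_dd09c0_an
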