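import Pool.Agent.MP_dd09c0_an.Defs

/-!
# A truncated radial kernel with explicit divergence
-/

open MeasureTheory Metric Set Filter Topology
open scoped ENNReal NNReal ContDiff RealInnerProductSpace

namespace Pool.Agent.MP_dd09c0_an

variable {n : ℕ}

namespace ImgAux

/-- transition function -/
noncomputable def tr (s : ℝ) : ℝ := Real.smoothTransition (2 * s - 1)

theorem tr_contDiff : ContDiff ℝ ∞ tr :=
  Real.smoothTransition.contDiff.comp (by fun_prop)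

theorem tr_zero {s : ℝ} (h : s ≤ 1 / 2) : tr s = 0 :=
  Real.smoothTransition.zero_of_nonpos (by linarith)

theorem tr_one {s : ℝ} (h : 1 ≤ s) : tr s = 1 :=
  Real.smoothTransition.one_of_one_le (by linarith)

theorem tr_mono : Monotone tr := fun a b h =>
  Real.smoothTransition.monotone (by linarith)

theorem tr_nonneg (s : ℝ) : 0 ≤ tr s := Real.smoothTransition.nonneg _

theorem tr_le_one (s : ℝ) : tr s ≤ 1 := Real.smoothTransition.le_one _

theorem deriv_tr_nonneg (s : ℝ) : 0 ≤ deriv tr s := tr_mono.deriv_nonneg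

theorem deriv_tr_left {s : ℝ} (h : s < 1 / 2) : deriv tr s = 0 := by
  have : tr =ᶠ[𝓝 s] fun _ => 0 := by
    filter_upwards [Iio_mem_nhds h] with x hx
    exact tr_zero (le_of_lt hx)
  rw [this.deriv_eq, deriv_const]

theorem deriv_tr_right {s : ℝ} (h : 1 < s) : deriv tr s = 0 := by
  have : tr =ᶠ[𝓝 s] fun _ => 1 := by
    filter_upwards [Ioi_mem_nhds h] with x hx
    exact tr_one (le_of_lt hx)
  rw [this.deriv_eq, deriv_const]

theorem deriv_tr_continuous : Continuous (deriv tr) :=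
  tr_contDiff.continuous_deriv (by simp)

theorem exists_deriv_bound : ∃ D : ℝ, 0 ≤ D ∧ ∀ s, deriv tr s ≤ D := by
  obtain ⟨D, hD⟩ := isCompact_Icc.exists_bound_of_continuousOn
    (f := deriv tr) (s := Icc 0 1) deriv_tr_continuous.continuousOn
  refine ⟨max D 0, le_max_right _ _, fun s => ?_⟩
  by_cases hs : s ∈ Icc (0 : ℝ) 1
  · exact (le_abs_self _).trans ((hD s hs).trans (le_max_left _ _))
  · have : deriv tr s = 0 := by
      rcases lt_or_ge s 0 with h | h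
      · exact deriv_tr_left (by linarith)
      · rcases lt_or_ge 1 s with h' | h'
        · exact deriv_tr_right h'
        · exact absurd ⟨h, h'⟩ hs
    rw [this]
    exact le_max_right _ _

/-- the radial profile -/
noncomputable def bk (n : ℕ) (t T ρ : ℝ) : ℝ :=
  (tr (ρ / t ^ 2) - tr (ρ / T ^ 2)) * ρ ^ (-(n / 2 : ℝ))

/-- the divergence profile -/
noncomputable def pk (n : ℕ) (t ρ : ℝ) : ℝ :=
  2 * ρ * (deriv tr (ρ / t ^ 2) / t ^ 2) * ρ ^ (-(n / 2 : ℝ))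

theorem bk_zero {t T ρ : ℝ} (ht : 0 < t) (hT : t ≤ T) (hρ : ρ ≤ t ^ 2 / 2) : bk n t T ρ = 0 := by
  have h1 : tr (ρ / t ^ 2) = 0 := tr_zero (by
    rw [div_le_iff₀ (by positivity)]; linarith)
  have hT0 : 0 < T := by linarith
  have h2 : tr (ρ / T ^ 2) = 0 := tr_zero (by
    have : t ^ 2 ≤ T ^ 2 := by gcongr
    rw [div_le_iff₀ (by positivity)]; linarith)
  rw [bk, h1, h2, sub_self, zero_mul]

theorem bk_zero' {t T ρ : ℝ} (ht : 0 < t) (hT : t ≤ T) (hρ : T ^ 2 ≤ ρ) : bk n t T ρ = 0 := by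
  have hT0 : 0 < T := by linarith
  have hle : t ^ 2 ≤ T ^ 2 := by gcongr
  have h1 : tr (ρ / t ^ 2) = 1 := tr_one (by
    rw [le_div_iff₀ (by positivity)]; linarith)
  have h2 : tr (ρ / T ^ 2) = 1 := tr_one (by
    rw [le_div_iff₀ (by positivity)]; linarith)
  rw [bk, h1, h2, sub_self, zero_mul]

theorem bk_contDiff {t T : ℝ} (ht : 0 < t) (hT : t ≤ T) : ContDiff ℝ ∞ (bk n t T) := by
  rw [contDiff_iff_contDiffAt]
  intro ρ
  rcases lt_or_ge ρ (t ^ 2 / 2) with h | h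
  · have : bk n t T =ᶠ[𝓝 ρ] fun _ => 0 := by
      filter_upwards [Iio_mem_nhds h] with x hx
      exact bk_zero ht hT (le_of_lt hx)
    exact contDiffAt_const.congr_of_eventuallyEq this
  · have hρ : 0 < ρ := lt_of_lt_of_le (by positivity) h
    apply ContDiffAt.mul
    · exact ((tr_contDiff.comp (contDiff_id.div_const _)).sub
        (tr_contDiff.comp (contDiff_id.div_const _))).contDiffAt
    · exact Real.contDiffAt_rpow_const_of_ne hρ.ne'

theorem pk_continuous {t : ℝ} (ht : 0 < t) : Continuous (pk n t) := by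
  rw [continuous_iff_continuousAt]
  intro ρ
  rcases lt_or_ge ρ (t ^ 2 / 2) with h | h
  · have : pk n t =ᶠ[𝓝 ρ] fun _ => 0 := by
      filter_upwards [Iio_mem_nhds h] with x hx
      rw [pk, deriv_tr_left (by rw [div_lt_iff₀ (by positivity)]; linarith [mem_Iio.mp hx])]
      ring
    exact continuousAt_const.congr this.symm
  · have hρ : 0 < ρ := lt_of_lt_of_le (by positivity) h
    apply ContinuousAt.mul
    · apply Continuous.continuousAt
      exact (continuous_const.mul continuous_id).mul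
        ((deriv_tr_continuous.comp (continuous_id.div_const _)).div_const _)
    · exact Real.continuousAt_rpow_const _ _ (Or.inl hρ.ne')

theorem pk_nonneg {t ρ : ℝ} (hρ : 0 ≤ ρ) : 0 ≤ pk n t ρ := by
  have := deriv_tr_nonneg (ρ / t ^ 2)
  rw [pk]
  positivity

theorem pk_zero {t ρ : ℝ} (ht : 0 < t) (h : t ^ 2 < ρ) : pk n t ρ = 0 := by
  rw [pk, deriv_tr_right (by rw [lt_div_iff₀ (by positivity)]; linarith)]
  ring

theorem bk_deriv {t T : ℝ} (ht : 0 < t) (hT : t ≤ T) (ρ : ℝ) :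
    n * bk n t T ρ + 2 * ρ * deriv (bk n t T) ρ = pk n t ρ - pk n T ρ := by
  have hT0 : 0 < T := by linarith
  rcases lt_or_ge ρ (t ^ 2 / 2) with h | h
  · have h0 : bk n t T =ᶠ[𝓝 ρ] fun _ => 0 := by
      filter_upwards [Iio_mem_nhds h] with x hx
      exact bk_zero ht hT (le_of_lt hx)
    have hle : t ^ 2 ≤ T ^ 2 := by gcongr
    rw [h0.deriv_eq, deriv_const, bk_zero ht hT h.le, pk, pk,
      deriv_tr_left (by rw [div_lt_iff₀ (by positivity)]; linarith),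
      deriv_tr_left (by rw [div_lt_iff₀ (by positivity)]; linarith)]
    ring
  · have hρ : 0 < ρ := lt_of_lt_of_le (by positivity) h
    have hd : ∀ s : ℝ, HasDerivAt tr (deriv tr s) s := fun s =>
      (tr_contDiff.differentiable (by simp) s).hasDerivAt
    have h1 : ∀ u : ℝ, HasDerivAt (fun x : ℝ => tr (x / u ^ 2)) (deriv tr (ρ / u ^ 2) / u ^ 2) ρ := by
      intro u
      have h2 : HasDerivAt (fun x : ℝ => x / u ^ 2) (1 / u ^ 2) ρ := (hasDerivAt_id ρ).div_const _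
      have h3 := (hd (ρ / u ^ 2)).comp ρ h2
      refine h3.congr_deriv ?_
      ring
    have h2 : HasDerivAt (fun x : ℝ => x ^ (-(n / 2 : ℝ))) (-(n / 2 : ℝ) * ρ ^ (-(n / 2 : ℝ) - 1)) ρ :=
      Real.hasDerivAt_rpow_const (Or.inl hρ.ne')
    have h3 : HasDerivAt (bk n t T) ((deriv tr (ρ / t ^ 2) / t ^ 2 - deriv tr (ρ / T ^ 2) / T ^ 2) *
        ρ ^ (-(n / 2 : ℝ)) + (tr (ρ / t ^ 2) - tr (ρ / T ^ 2)) *
        (-(n / 2 : ℝ) * ρ ^ (-(n / 2 : ℝ) - 1))) ρ := ((h1 t).sub (h1 T)).mul h2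
    have h4 : ρ ^ (-(n / 2 : ℝ)) = ρ ^ (-(n / 2 : ℝ) - 1) * ρ := by
      rw [Real.rpow_sub_one hρ.ne']
      field_simp
    rw [h3.deriv, bk, pk, pk, h4]
    ring

/-- bound for the divergence profile -/
theorem pk_le (hn : 2 ≤ n) {D : ℝ} (hD : ∀ s, deriv tr s ≤ D) {t ρ : ℝ} (ht : 0 < t) (hρ : 0 ≤ ρ) :
    pk n t ρ ≤ 2 * ((t ^ 2 / 2) ^ (1 - (n / 2 : ℝ))) * (D / t ^ 2) := by
  have hD0 : 0 ≤ D := (deriv_tr_nonneg 0).trans (hD 0)
  rcases lt_or_ge ρ (t ^ 2 / 2) with h | h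
  · have : pk n t ρ = 0 := by
      rw [pk, deriv_tr_left (by rw [div_lt_iff₀ (by positivity)]; linarith)]
      ring
    rw [this]
    positivity
  · have hρ : 0 < ρ := lt_of_lt_of_le (by positivity) h
    have h1 : ρ ^ (1 - (n / 2 : ℝ)) ≤ (t ^ 2 / 2) ^ (1 - (n / 2 : ℝ)) := by
      apply Real.rpow_le_rpow_of_nonpos (by positivity) h
      have : (2 : ℝ) ≤ n := by exact_mod_cast hn
      linarith
    have h2 : pk n t ρ = 2 * ρ ^ (1 - (n / 2 : ℝ)) * (deriv tr (ρ / t ^ 2) / t ^ 2) := by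
      rw [pk, sub_eq_add_neg, Real.rpow_add hρ, Real.rpow_one]
      ring
    rw [h2]
    have h3 := hD (ρ / t ^ 2)
    have h4 := deriv_tr_nonneg (ρ / t ^ 2)
    gcongr

/-- the vector kernel -/
noncomputable def kk (n : ℕ) (t T : ℝ) (i : Fin n) (z : E n) : ℝ := z i * bk n t T (‖z‖ ^ 2)

theorem kk_contDiff {t T : ℝ} (ht : 0 < t) (hT : t ≤ T) (i : Fin n) :
    ContDiff ℝ ∞ (kk n t T i) := by
  apply ContDiff.mul
  · exact (EuclideanSpace.proj i : E n →L[ℝ] ℝ).contDiff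
  · exact (bk_contDiff ht hT).comp (contDiff_norm_sq ℝ)

theorem kk_compact {t T : ℝ} (ht : 0 < t) (hT : t ≤ T) (i : Fin n) :
    HasCompactSupport (kk n t T i) := by
  apply HasCompactSupport.intro (isCompact_closedBall (0 : E n) T)
  intro z hz
  rw [mem_closedBall_zero_iff, not_le] at hz
  have hT0 : 0 ≤ T := by linarith
  rw [kk, bk_zero' ht hT (by gcongr), mul_zero]

theorem kk_div {t T : ℝ} (ht : 0 < t) (hT : t ≤ T) (z : E n) :
    ∑ i, fderiv ℝ (kk n t T i) z (EuclideanSpace.single i 1) =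
      pk n t (‖z‖ ^ 2) - pk n T (‖z‖ ^ 2) := by
  have h1 : ∀ i, fderiv ℝ (kk n t T i) z (EuclideanSpace.single i 1) =
      bk n t T (‖z‖ ^ 2) + 2 * (z i) ^ 2 * deriv (bk n t T) (‖z‖ ^ 2) := by
    intro i
    have f1 : HasFDerivAt (fun x : E n => x i) (EuclideanSpace.proj i : E n →L[ℝ] ℝ) z :=
      (EuclideanSpace.proj i : E n →L[ℝ] ℝ).hasFDerivAt
    have f2 : HasFDerivAt (fun x : E n => ‖x‖ ^ 2) (2 • innerSL ℝ z) z :=
      (hasStrictFDerivAt_norm_sq z).hasFDerivAt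
    have f3 : HasDerivAt (bk n t T) (deriv (bk n t T) (‖z‖ ^ 2)) (‖z‖ ^ 2) :=
      ((bk_contDiff ht hT).differentiable (by simp) _).hasDerivAt
    have f5 : HasFDerivAt (fun x : E n => bk n t T (‖x‖ ^ 2))
        (deriv (bk n t T) (‖z‖ ^ 2) • (2 • innerSL ℝ z)) z :=
      HasDerivAt.comp_hasFDerivAt (h₂ := bk n t T) (f := fun x : E n => ‖x‖ ^ 2) z f3 f2
    have f4 : HasFDerivAt (kk n t T i) _ z := f1.mul f5
    have f6 : ⟪z, EuclideanSpace.single i 1⟫ = z i := by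
      rw [EuclideanSpace.inner_single_right]
      simp
    rw [f4.fderiv]
    simp [f6]
    ring
  simp only [h1]
  rw [Finset.sum_add_distrib, ← Finset.sum_mul, ← Finset.mul_sum, ← EuclideanSpace.real_norm_sq_eq,
    ← bk_deriv ht hT]
  simp

theorem kk_abs_le (hn : 1 ≤ n) {t T : ℝ} (ht : 0 < t) (hT : t ≤ T) (i : Fin n) (z : E n) :
    |kk n t T i z| ≤ 1 / ‖z‖ ^ (n - 1) := by
  rcases eq_or_ne z 0 with rfl | hz
  · simp [kk]
  have hz' : 0 < ‖z‖ := norm_pos_iff.mpr hz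
  rw [kk, abs_mul, bk, abs_mul]
  have h1 : |z i| ≤ ‖z‖ := by
    have := EuclideanSpace.norm_eq z
    exact PiLp.norm_apply_le z i
  have h2 : |tr (‖z‖ ^ 2 / t ^ 2) - tr (‖z‖ ^ 2 / T ^ 2)| ≤ 1 := by
    rw [abs_le]
    constructor <;> linarith [tr_nonneg (‖z‖ ^ 2 / t ^ 2), tr_le_one (‖z‖ ^ 2 / t ^ 2),
      tr_nonneg (‖z‖ ^ 2 / T ^ 2), tr_le_one (‖z‖ ^ 2 / T ^ 2)]
  have h3 : (‖z‖ ^ 2) ^ (-(n / 2 : ℝ)) = 1 / ‖z‖ ^ n := by
    rw [← Real.rpow_natCast ‖z‖ 2, ← Real.rpow_mul hz'.le, one_div, ← Real.rpow_natCast,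
      ← Real.rpow_neg hz'.le]
    congr 1
    push_cast
    ring
  rw [h3, abs_of_nonneg (by positivity : (0 : ℝ) ≤ 1 / ‖z‖ ^ n)]
  calc |z i| * (|tr (‖z‖ ^ 2 / t ^ 2) - tr (‖z‖ ^ 2 / T ^ 2)| * (1 / ‖z‖ ^ n))
      ≤ ‖z‖ * (1 * (1 / ‖z‖ ^ n)) := by gcongr
    _ = 1 / ‖z‖ ^ (n - 1) := by
        obtain ⟨m, rfl⟩ : ∃ m, n = m + 1 := ⟨n - 1, by omega⟩
        rw [Nat.add_sub_cancel, pow_succ]
        field_simp

/-- total mass of the divergence kernel -/
theorem integral_pk (hn : 1 ≤ n) {t : ℝ} (ht : 0 < t) :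
    ∫ z : E n, pk n t (‖z‖ ^ 2) = n * volume.real (ball (0 : E n) 1) := by
  have : Nonempty (Fin n) := ⟨⟨0, by omega⟩⟩
  have : Nontrivial (E n) := inferInstance
  have hdim : Module.finrank ℝ (E n) = n := by simp
  have h0 : ∀ s ∈ Ioi (0 : ℝ), s ^ (Module.finrank ℝ (E n) - 1) • pk n t (s ^ 2) =
      deriv tr (s ^ 2 / t ^ 2) * (2 * s / t ^ 2) := by
    intro s hs
    have hs' : (0 : ℝ) < s := hs
    have h3 : (s ^ 2) ^ (-(n / 2 : ℝ)) = 1 / s ^ n := by
      rw [← Real.rpow_natCast s 2, ← Real.rpow_mul hs'.le, one_div, ← Real.rpow_natCast,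
        ← Real.rpow_neg hs'.le]
      congr 1
      push_cast
      ring
    rw [hdim, pk, h3, smul_eq_mul]
    obtain ⟨m, rfl⟩ : ∃ m, n = m + 1 := ⟨n - 1, by omega⟩
    rw [Nat.add_sub_cancel]
    field_simp
    ring
  rw [integral_fun_norm_addHaar volume (fun s : ℝ => pk n t (s ^ 2)),
    setIntegral_congr_fun measurableSet_Ioi h0, hdim, nsmul_eq_mul, smul_eq_mul]
  have hderiv : ∀ s : ℝ, HasDerivAt (fun s : ℝ => tr (s ^ 2 / t ^ 2))
      (deriv tr (s ^ 2 / t ^ 2) * (2 * s / t ^ 2)) s := by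
    intro s
    have h2 : HasDerivAt (fun x : ℝ => x ^ 2 / t ^ 2) (2 * s / t ^ 2) s := by
      have := (hasDerivAt_pow 2 s).div_const (t ^ 2)
      simpa using this
    exact ((tr_contDiff.differentiable (by simp) _).hasDerivAt).comp s h2
  have hlim : Tendsto (fun s : ℝ => tr (s ^ 2 / t ^ 2)) atTop (𝓝 1) := by
    apply tendsto_const_nhds.congr'
    filter_upwards [eventually_ge_atTop t] with s hs
    rw [tr_one]
    rw [le_div_iff₀ (by positivity), one_mul]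
    gcongr
  have h5 := integral_Ioi_of_hasDerivAt_of_nonneg' (a := 0) (fun s _ => hderiv s)
    (fun s hs => mul_nonneg (deriv_tr_nonneg _) (by
      have : (0 : ℝ) < s := hs
      positivity)) hlim
  rw [h5]
  have h6 : tr ((0 : ℝ) ^ 2 / t ^ 2) = 0 := tr_zero (by norm_num)
  rw [h6, sub_zero, mul_one]

end ImgAux

end Pool.Agent.MP_dd09c0_an
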