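import Pool.Agent.MP_dd09c0_an.Row
import Pool.Agent.MP_dd09c0_an.Identity

/-!
# MP_dd09c0_an, module Q1: energy of the push-forward of a smooth function
-/

open MeasureTheory Metric Set Filter Topology
open scoped ENNReal NNReal ContDiff RealInnerProductSpace

namespace Pool.Agent.MP_dd09c0_an

namespace Push

variable {n : ℕ}

/-- `T μ f g ρ y = ∫ g(x) ρ(y - f x) dμ(x)`. -/
noncomputable def T {F : Type*} [NormedAddCommGroup F] [NormedSpace ℝ F] (μ : Measure (E n))
    (f : E n → E n) (g : E n → ℝ) (ρ : E n → F) (y : E n) : F := ∫ x, g x • ρ (y - f x) ∂μ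

section T
variable {F : Type*} [NormedAddCommGroup F] [NormedSpace ℝ F] {μ : Measure (E n)}
  {f : E n → E n} {g : E n → ℝ} {ρ : E n → F}

omit [NormedSpace ℝ F] in
lemma exists_bound (hρ : Continuous ρ) (hρc : HasCompactSupport ρ) : ∃ C, 0 ≤ C ∧ ∀ z, ‖ρ z‖ ≤ C := by
  obtain ⟨C, hC⟩ := hρc.exists_bound_of_continuous hρ
  exact ⟨C, (norm_nonneg _).trans (hC 0), hC⟩

lemma integrable_T (hf : Measurable f) (hg : Integrable g μ) (hρ : Continuous ρ)
    (hρc : HasCompactSupport ρ) (y : E n) : Integrable (fun x => g x • ρ (y - f x)) μ := by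
  obtain ⟨C, hC0, hC⟩ := exists_bound hρ hρc
  refine (hg.norm.mul_const C).mono' ?_ ?_
  · exact hg.aestronglyMeasurable.smul
      (hρ.stronglyMeasurable.comp_measurable (measurable_const.sub hf)).aestronglyMeasurable
  · refine Eventually.of_forall fun x => ?_
    rw [norm_smul]
    exact mul_le_mul_of_nonneg_left (hC _) (norm_nonneg _)

lemma norm_T_le (hg : Integrable g μ) {C : ℝ} (hC : ∀ z, ‖ρ z‖ ≤ C) (y : E n) :
    ‖T μ f g ρ y‖ ≤ (∫ x, ‖g x‖ ∂μ) * C := by
  rw [T, ← integral_mul_const]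
  refine norm_integral_le_of_norm_le (hg.norm.mul_const C) (Eventually.of_forall fun x => ?_)
  rw [norm_smul]
  exact mul_le_mul_of_nonneg_left (hC _) (norm_nonneg _)

lemma hasFDerivAt_T (hf : Measurable f) (hg : Integrable g μ) (hρ : ContDiff ℝ 1 ρ)
    (hρc : HasCompactSupport ρ) (y : E n) :
    HasFDerivAt (T μ f g ρ) (T μ f g (fderiv ℝ ρ) y) y := by
  have hρ' : Continuous (fderiv ℝ ρ) := hρ.continuous_fderiv (by norm_num)
  have hρc' : HasCompactSupport (fderiv ℝ ρ) := hρc.fderiv ℝ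
  obtain ⟨C, hC0, hC⟩ := exists_bound hρ' hρc'
  refine hasFDerivAt_integral_of_dominated_of_fderiv_le (bound := fun x => ‖g x‖ * C)
    (F' := fun y x => g x • fderiv ℝ ρ (y - f x)) univ_mem
    (Eventually.of_forall fun y => (integrable_T hf hg hρ.continuous hρc y).aestronglyMeasurable)
    (integrable_T hf hg hρ.continuous hρc y)
    (integrable_T hf hg hρ' hρc' y).aestronglyMeasurable
    (Eventually.of_forall fun x y _ => ?_) (hg.norm.mul_const C)
    (Eventually.of_forall fun x y _ => ?_)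
  · rw [norm_smul]
    exact mul_le_mul_of_nonneg_left (hC _) (norm_nonneg _)
  · have h1 : HasFDerivAt ρ (fderiv ℝ ρ (y - f x)) (y - f x) :=
      (hρ.differentiable (by norm_num) _).hasFDerivAt
    have h2 : HasFDerivAt (fun y : E n => y - f x) (ContinuousLinearMap.id ℝ (E n)) y :=
      (hasFDerivAt_id y).sub_const _
    have h3 := (h1.comp y h2).const_smul (g x)
    rw [ContinuousLinearMap.comp_id] at h3
    exact h3

lemma fderiv_T (hf : Measurable f) (hg : Integrable g μ) (hρ : ContDiff ℝ 1 ρ)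
    (hρc : HasCompactSupport ρ) : fderiv ℝ (T μ f g ρ) = T μ f g (fderiv ℝ ρ) :=
  funext fun y => (hasFDerivAt_T hf hg hρ hρc y).fderiv

end T

lemma contDiff_T {μ : Measure (E n)} {f : E n → E n} {g : E n → ℝ} (hf : Measurable f)
    (hg : Integrable g μ) (m : ℕ) : ∀ {F : Type} [NormedAddCommGroup F] [NormedSpace ℝ F]
    {ρ : E n → F}, ContDiff ℝ ∞ ρ → HasCompactSupport ρ → ContDiff ℝ m (T μ f g ρ) := by
  induction m with
  | zero =>
    intro F _ _ ρ hρ hρc
    rw [Nat.cast_zero, contDiff_zero]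
    exact Differentiable.continuous (𝕜 := ℝ) fun y =>
      (hasFDerivAt_T hf hg (hρ.of_le (by exact_mod_cast le_top)) hρc y).differentiableAt
  | succ m ih =>
    intro F _ _ ρ hρ hρc
    have h1 : ContDiff ℝ 1 ρ := hρ.of_le (by exact_mod_cast le_top)
    push_cast
    rw [contDiff_succ_iff_fderiv]
    refine ⟨fun y => (hasFDerivAt_T hf hg h1 hρc y).differentiableAt, ?_, ?_⟩
    · intro h
      exact absurd h (by simp)
    · rw [fderiv_T hf hg h1 hρc]
      exact ih (hρ.fderiv_right (by exact_mod_cast le_top)) (hρc.fderiv ℝ)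

lemma contDiff_T_top {μ : Measure (E n)} {f : E n → E n} {g : E n → ℝ} (hf : Measurable f)
    (hg : Integrable g μ) {F : Type} [NormedAddCommGroup F] [NormedSpace ℝ F]
    {ρ : E n → F} (hρ : ContDiff ℝ ∞ ρ) (hρc : HasCompactSupport ρ) :
    ContDiff ℝ ∞ (T μ f g ρ) :=
  contDiff_infty.2 fun m => contDiff_T hf hg m hρ hρc

lemma T_apply {μ : Measure (E n)} {f : E n → E n} {g : E n → ℝ} (hf : Measurable f)
    (hg : Integrable g μ) {ρ : E n → (E n →L[ℝ] ℝ)} (hρ : Continuous ρ) (hρc : HasCompactSupport ρ)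
    (y v : E n) : T μ f g ρ y v = ∫ x, g x * ρ (y - f x) v ∂μ := by
  rw [T, ContinuousLinearMap.integral_apply (integrable_T hf hg hρ hρc y)]
  rfl

/-- the derivative of an even function is odd -/
lemma fderiv_neg_of_even {ρ : E n → ℝ} (hρ : Differentiable ℝ ρ) (he : ∀ z, ρ (-z) = ρ z) (z : E n) :
    fderiv ℝ ρ (-z) = -fderiv ℝ ρ z := by
  have h1 : HasFDerivAt (fun z => ρ (-z)) ((fderiv ℝ ρ (-z)).comp
      (-(ContinuousLinearMap.id ℝ (E n)))) z :=
    (hρ (-z)).hasFDerivAt.comp z (hasFDerivAt_id z).neg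
  have h2 : (fun z => ρ (-z)) = ρ := funext he
  rw [h2] at h1
  rw [h1.fderiv]
  ext v
  simp

/-- the duality formula -/
lemma duality {μ ν : Measure (E n)} [SFinite μ] [SFinite ν] {f : E n → E n} {g η : E n → ℝ}
    (hf : Measurable f) (hg : Integrable g μ) (hη : Integrable η ν) {ρ : E n → ℝ}
    (hρ : ContDiff ℝ ∞ ρ) (hρc : HasCompactSupport ρ) (he : ∀ z, ρ (-z) = ρ z) (v : E n) :
    ∫ y, fderiv ℝ (T μ f g ρ) y v * η y ∂ν =
      - ∫ x, g x * fderiv ℝ (T ν id η ρ) (f x) v ∂μ := by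
  have h1 : ContDiff ℝ 1 ρ := hρ.of_le (by exact_mod_cast le_top)
  have hρ' : Continuous (fderiv ℝ ρ) := h1.continuous_fderiv (by norm_num)
  have hρc' : HasCompactSupport (fderiv ℝ ρ) := hρc.fderiv ℝ
  obtain ⟨C, hC0, hC⟩ := exists_bound hρ' hρc'
  rw [fderiv_T hf hg h1 hρc, fderiv_T measurable_id hη h1 hρc]
  have e1 : ∀ y, T μ f g (fderiv ℝ ρ) y v * η y = ∫ x, g x * fderiv ℝ ρ (y - f x) v * η y ∂μ := by
    intro y
    rw [T_apply hf hg hρ' hρc', integral_mul_const]
  have e2 : ∀ x, g x * T ν id η (fderiv ℝ ρ) (f x) v =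
      - ∫ y, g x * fderiv ℝ ρ (y - f x) v * η y ∂ν := by
    intro x
    rw [T_apply measurable_id hη hρ' hρc', ← integral_neg, ← integral_const_mul]
    congr 1
    funext y
    have : fderiv ℝ ρ (f x - id y) = - fderiv ℝ ρ (y - f x) := by
      rw [← fderiv_neg_of_even (h1.differentiable (by norm_num)) he]
      congr 1
      simp
    rw [this]
    simp
    ring
  simp only [e1, e2]
  rw [integral_neg, neg_neg]
  refine integral_integral_swap ?_
  have hint : Integrable (fun p : E n × E n => η p.1 * g p.2) (ν.prod μ) := hη.mul_prod hg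
  have hmeas : StronglyMeasurable (fun p : E n × E n => fderiv ℝ ρ (p.1 - f p.2) v) := by
    have : Continuous (fun z => fderiv ℝ ρ z v) := by fun_prop
    exact this.stronglyMeasurable.comp_measurable
      (measurable_fst.sub (hf.comp measurable_snd))
  have := hint.mul_bdd (c := C * ‖v‖) hmeas.aestronglyMeasurable
    (Eventually.of_forall fun p => (ContinuousLinearMap.le_opNorm _ _).trans
      (mul_le_mul_of_nonneg_right (hC _) (norm_nonneg _)))
  refine this.congr (Eventually.of_forall fun p => ?_)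
  simp only [Function.uncurry]
  ring

/-- smooth cutoff functions -/
lemma exists_cutoff' {V Kc : Set (E n)} (hV : IsOpen V) (hVb : Bornology.IsBounded V)
    (hK : IsClosed Kc) (hKV : Kc ⊆ V) : ∃ χ : E n → ℝ, ContDiff ℝ ∞ χ ∧ HasCompactSupport χ ∧
      tsupport χ ⊆ V ∧ ∀ x ∈ Kc, ∀ᶠ z in 𝓝 x, χ z = 1 := by
  obtain ⟨χ, h0, h1, -⟩ := exists_contMDiffMap_zero_one_nhds_of_isClosed (n := ⊤)
    (modelWithCornersSelf ℝ (E n)) hV.isClosed_compl hK
    (disjoint_compl_left_iff_subset.2 hKV)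
  have hsub : tsupport χ ⊆ V := by
    intro x hx
    by_contra hxV
    rw [eventually_nhdsSet_iff_forall] at h0
    exact (notMem_tsupport_iff_eventuallyEq.2 (h0 x hxV)) hx
  refine ⟨χ, χ.contMDiff.contDiff, ?_, hsub, ?_⟩
  · exact Metric.isCompact_of_isClosed_isBounded (isClosed_tsupport _) (hVb.subset hsub)
  · rw [eventually_nhdsSet_iff_forall] at h1
    exact h1

lemma det_rowRepl_zero (i : Fin n) (L : E n →L[ℝ] E n) : (rowRepl i 0 L).det = 0 := by
  have := det_rowRepl_smul i 0 0 L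
  simpa using this

/-- The integration by parts formula on a domain whose boundary is mapped outside a ball. -/
lemma identity_V (hn : 2 ≤ n) {D : Set (E n)} {f : E n → E n} {Df : E n → E n →L[ℝ] E n}
    {K : E n → ℝ} (H : GM n D f Df K) {V : Set (E n)} (hV : IsOpen V) (hVD : closure V ⊆ D)
    {y₀ : E n} {s' s₅ : ℝ} (hs : s' < s₅) (hfr : ∀ x ∈ frontier V, f x ∉ ball y₀ s₅)
    {q h : E n → ℝ} (hq : ContDiff ℝ ∞ q) (hh : ContDiff ℝ ∞ h)
    (hsupp : ∀ z, z ∉ closedBall y₀ s' → h z = 0) (i : Fin n) :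
    ∫ x in V, q x * fderiv ℝ h (f x) (EuclideanSpace.single i 1) * (Df x).det =
      - ∫ x in V, h (f x) * (rowRepl i (fderiv ℝ q x) (Df x)).det := by
  have hVb : Bornology.IsBounded V := H.bdd.subset (subset_closure.trans hVD)
  set Kc : Set (E n) := closure V ∩ f ⁻¹' closedBall y₀ s' with hKc
  have hKcl : IsClosed Kc := isClosed_closure.inter (isClosed_closedBall.preimage H.cont)
  have hKV : Kc ⊆ V := by
    intro x hx
    by_contra hxV
    have hxf : x ∈ frontier V := ⟨hx.1, by rwa [hV.interior_eq]⟩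
    exact hfr x hxf (closedBall_subset_ball hs hx.2)
  obtain ⟨χ, hχ, hχc, hχV, hχ1⟩ := exists_cutoff' hV hVb hKcl hKV
  have hψ : ContDiff ℝ ∞ (fun x => q x * χ x) := hq.mul hχ
  have hψs : tsupport (fun x => q x * χ x) ⊆ V := (tsupport_mul_subset_right).trans hχV
  have hψc : HasCompactSupport (fun x => q x * χ x) := hχc.mul_left
  have key := H.identity hn i hψ hψc (hψs.trans (subset_closure.trans hVD)) hh
  have hh0 : ∀ z, z ∉ closedBall y₀ s' → fderiv ℝ h z = 0 := by
    intro z hz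
    have : h =ᶠ[𝓝 z] fun _ => 0 := by
      filter_upwards [isClosed_closedBall.isOpen_compl.mem_nhds hz] with w hw
      exact hsupp w hw
    rw [this.fderiv_eq]
    simp
  have hL : ∫ x, (q x * χ x) * fderiv ℝ h (f x) (EuclideanSpace.single i 1) * (Df x).det =
      ∫ x in V, q x * fderiv ℝ h (f x) (EuclideanSpace.single i 1) * (Df x).det := by
    rw [← setIntegral_eq_integral_of_forall_compl_eq_zero (s := V)]
    · refine setIntegral_congr_fun hV.measurableSet fun x hx => ?_
      by_cases hfx : f x ∈ closedBall y₀ s'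
      · have : χ x = 1 := (hχ1 x ⟨subset_closure hx, hfx⟩).self_of_nhds
        simp only [this, mul_one]
      · simp only [hh0 _ hfx]
        simp
    · intro x hx
      have : q x * χ x = 0 := by
        have hx' : x ∉ tsupport (fun x => q x * χ x) := fun h => hx (hψs h)
        exact image_eq_zero_of_notMem_tsupport (f := fun x => q x * χ x) hx'
      rw [this]
      simp
  have hR : ∫ x, h (f x) * (rowRepl i (fderiv ℝ (fun x => q x * χ x) x) (Df x)).det =
      ∫ x in V, h (f x) * (rowRepl i (fderiv ℝ q x) (Df x)).det := by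
    rw [← setIntegral_eq_integral_of_forall_compl_eq_zero (s := V)]
    · refine setIntegral_congr_fun hV.measurableSet fun x hx => ?_
      by_cases hfx : f x ∈ closedBall y₀ s'
      · have h1 : (fun x => q x * χ x) =ᶠ[𝓝 x] q := by
          filter_upwards [hχ1 x ⟨subset_closure hx, hfx⟩] with z hz
          rw [hz, mul_one]
        simp only [h1.fderiv_eq]
      · simp only [hsupp _ hfx, zero_mul]
    · intro x hx
      have hx' : x ∉ tsupport (fun x => q x * χ x) := fun h => hx (hψs h)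
      have : fderiv ℝ (fun x => q x * χ x) x = 0 := fderiv_of_notMem_tsupport (𝕜 := ℝ) hx'
      rw [this, det_rowRepl_zero, mul_zero]
  rw [← hL, ← hR]
  exact key

lemma holder_exp (hn : 2 ≤ n) : ((n : ℝ) / (n - 1)).HolderConjugate n := by
  have h1 : (1 : ℝ) < n := by exact_mod_cast (show 1 < n by omega)
  exact (Real.HolderConjugate.conjExponent h1).symm

/-- Jensen's inequality. -/
lemma jensen (hn : 2 ≤ n) {w F : E n → ℝ≥0∞} (hw : Measurable w) (hF : Measurable F)
    {B : Set (E n)} (hw1 : ∫⁻ y in B, w y ≤ 1) :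
    (∫⁻ y in B, w y * F y) ^ ((n : ℝ) / (n - 1)) ≤
      ∫⁻ y in B, w y * F y ^ ((n : ℝ) / (n - 1)) := by
  have hpq := holder_exp hn
  set p : ℝ := (n : ℝ) / (n - 1) with hp
  have hp0 : 0 < p := hpq.pos
  have hn0 : (0 : ℝ) < n := hpq.symm.pos
  have h1 : ∫⁻ y in B, w y * F y = ∫⁻ y in B, ((fun y => w y ^ (1 / p) * F y) *
      (fun y => w y ^ (1 / (n : ℝ)))) y := by
    refine lintegral_congr fun y => ?_
    rw [Pi.mul_apply]
    have : w y ^ (1 / p) * F y * w y ^ (1 / (n : ℝ)) =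
        (w y ^ (1 / p) * w y ^ (1 / (n : ℝ))) * F y := by ring
    rw [this, ← ENNReal.rpow_add_of_nonneg _ _ (by positivity) (by positivity)]
    have : 1 / p + 1 / (n : ℝ) = 1 := by
      have := hpq.inv_add_inv_eq_one
      simpa [one_div] using this
    rw [this, ENNReal.rpow_one]
  have h2 := ENNReal.lintegral_mul_le_Lp_mul_Lq (volume.restrict B) hpq
    (f := fun y => w y ^ (1 / p) * F y) (g := fun y => w y ^ (1 / (n : ℝ)))
    ((hw.pow_const _).mul hF).aemeasurable (hw.pow_const _).aemeasurable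
  have h3 : ∀ y, (w y ^ (1 / p) * F y) ^ p = w y * F y ^ p := by
    intro y
    rw [ENNReal.mul_rpow_of_nonneg _ _ hp0.le, ← ENNReal.rpow_mul, one_div,
      inv_mul_cancel₀ hp0.ne', ENNReal.rpow_one]
  have h4 : ∀ y, (w y ^ (1 / (n : ℝ))) ^ (n : ℝ) = w y := by
    intro y
    rw [← ENNReal.rpow_mul, one_div, inv_mul_cancel₀ hn0.ne', ENNReal.rpow_one]
  simp only [h3, h4] at h2
  rw [h1]
  calc _ ≤ ((∫⁻ y in B, w y * F y ^ p) ^ (1 / p) * (∫⁻ y in B, w y) ^ (1 / (n : ℝ))) ^ p :=
        ENNReal.rpow_le_rpow h2 hp0.le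
    _ ≤ ((∫⁻ y in B, w y * F y ^ p) ^ (1 / p) * 1) ^ p := by
        gcongr
        calc _ ≤ (1 : ℝ≥0∞) ^ (1 / (n : ℝ)) := ENNReal.rpow_le_rpow hw1 (by positivity)
          _ = 1 := ENNReal.one_rpow _
    _ = _ := by
        rw [mul_one, ← ENNReal.rpow_mul, one_div, inv_mul_cancel₀ hp0.ne', ENNReal.rpow_one]

/-- absorbing -/
lemma absorb (hn : 2 ≤ n) {N a : ℝ≥0∞} (hN : N ≠ ⊤)
    (h : N ≤ a * N ^ (((n : ℝ) - 1) / n)) : N ≤ a ^ n := by
  have hn0 : (0 : ℝ) < n := by exact_mod_cast (show 0 < n by omega)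
  rcases eq_or_ne N 0 with h0 | h0
  · rw [h0]; exact bot_le
  have h1 : N ^ (1 / (n : ℝ)) ≤ a := by
    have e : N = N ^ (1 / (n : ℝ)) * N ^ (((n : ℝ) - 1) / n) := by
      rw [← ENNReal.rpow_add _ _ h0 hN]
      have : 1 / (n : ℝ) + ((n : ℝ) - 1) / n = 1 := by field_simp; ring
      rw [this, ENNReal.rpow_one]
    nth_rewrite 1 [e] at h
    have h2 : N ^ (((n : ℝ) - 1) / n) ≠ 0 := by
      rw [Ne, ENNReal.rpow_eq_zero_iff]
      rintro (⟨h, -⟩ | ⟨h, -⟩)
      · exact h0 h
      · exact hN h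
    have h3 : N ^ (((n : ℝ) - 1) / n) ≠ ⊤ := by
      refine ENNReal.rpow_ne_top_of_nonneg ?_ hN
      have : (1 : ℝ) ≤ n := by exact_mod_cast (show 1 ≤ n by omega)
      exact div_nonneg (by linarith) hn0.le
    exact (ENNReal.mul_le_mul_iff_left h2 h3).1 h
  calc N = (N ^ (1 / (n : ℝ))) ^ (n : ℝ) := by
        rw [← ENNReal.rpow_mul, one_div, inv_mul_cancel₀ hn0.ne', ENNReal.rpow_one]
    _ ≤ a ^ (n : ℝ) := ENNReal.rpow_le_rpow h1 hn0.le
    _ = a ^ n := ENNReal.rpow_natCast _ _

lemma norm_sq_eq_sum (l : E n →L[ℝ] ℝ) :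
    ‖l‖ ^ 2 = ∑ i, (l (EuclideanSpace.single i 1)) ^ 2 := by
  set v := (InnerProductSpace.toDual ℝ (E n)).symm l with hv
  have h1 : ∀ x, l x = inner ℝ v x := fun x => by
    rw [hv, InnerProductSpace.toDual_symm_apply]
  have h2 : ‖l‖ = ‖v‖ := by rw [hv, LinearIsometryEquiv.norm_map]
  rw [h2, EuclideanSpace.norm_sq_eq]
  refine Finset.sum_congr rfl fun i _ => ?_
  rw [h1, EuclideanSpace.inner_single_right]
  simp

lemma abs_le_norm_single (l : E n →L[ℝ] ℝ) (i : Fin n) :
    |l (EuclideanSpace.single i 1)| ≤ ‖l‖ := by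
  have := l.le_opNorm (EuclideanSpace.single i 1)
  simpa using this

section main
variable (φ : ContDiffBump (0 : E n))

lemma rho_contDiff : ContDiff ℝ ∞ (φ.normed volume) := by
  have := φ.contDiff_normed (μ := volume) (n := ⊤)
  exact this

lemma rho_compact : HasCompactSupport (φ.normed (volume : Measure (E n))) :=
  φ.hasCompactSupport_normed

lemma rho_lintegral (z : E n) :
    ∫⁻ y, ENNReal.ofReal (φ.normed volume (z - y)) = 1 := by
  have h1 : ∫⁻ y, ENNReal.ofReal (φ.normed volume (z - y)) =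
      ∫⁻ y, ENNReal.ofReal (φ.normed volume y) :=
    lintegral_sub_left_eq_self (fun y => ENNReal.ofReal (φ.normed volume y)) z
  rw [h1, ← ofReal_integral_eq_lintegral_ofReal φ.integrable_normed
    (Eventually.of_forall fun y => φ.nonneg_normed y), φ.integral_normed, ENNReal.ofReal_one]

lemma rho_lintegral' (z : E n) :
    ∫⁻ y, ENNReal.ofReal (φ.normed volume (y - z)) = 1 := by
  rw [← rho_lintegral φ z]
  refine lintegral_congr fun y => ?_
  rw [← φ.normed_neg (z - y), neg_sub]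

lemma rho_eq_zero {z : E n} (h : φ.rOut ≤ ‖z‖) : φ.normed volume z = 0 := by
  have : z ∉ Function.support (φ.normed volume) := by
    rw [φ.support_normed_eq, mem_ball, dist_zero_right]
    exact not_lt.2 h
  exact Function.notMem_support.1 this

/-- the majorant of the `h_i` -/
noncomputable def hb (B : Set (E n)) (G : E n → ℝ≥0∞) (z : E n) : ℝ≥0∞ :=
  ∫⁻ y in B, ENNReal.ofReal (φ.normed volume (z - y)) * G y

lemma hb_zero {y₀ : E n} {s₄ : ℝ} {G : E n → ℝ≥0∞} {z : E n} (hz : s₄ + φ.rOut ≤ dist z y₀) :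
    hb φ (ball y₀ s₄) G z = 0 := by
  rw [hb]
  refine (setLIntegral_congr_fun measurableSet_ball fun y hy => ?_).trans
    (lintegral_zero (μ := volume.restrict (ball y₀ s₄)))
  have h1 : φ.rOut ≤ ‖z - y‖ := by
    rw [mem_ball] at hy
    have := dist_triangle z y y₀
    rw [← dist_eq_norm]
    linarith
  simp only [rho_eq_zero φ h1, ENNReal.ofReal_zero, zero_mul]

lemma hb_measurable {B : Set (E n)} {G : E n → ℝ≥0∞} (hG : Measurable G) :
    Measurable (hb φ B G) := by
  have h : Measurable (fun p : E n × E n =>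
      ENNReal.ofReal (φ.normed volume (p.1 - p.2)) * G p.2) :=
    ((φ.continuous_normed.measurable.comp (measurable_fst.sub measurable_snd)).ennreal_ofReal).mul
      (hG.comp measurable_snd)
  exact h.lintegral_prod_right'

lemma hb_lintegral (hn : 2 ≤ n) {B : Set (E n)} {G : E n → ℝ≥0∞} (hG : Measurable G) :
    ∫⁻ z, hb φ B G z ^ ((n : ℝ) / (n - 1)) ≤ ∫⁻ y in B, G y ^ ((n : ℝ) / (n - 1)) := by
  have h1 : ∀ z, hb φ B G z ^ ((n : ℝ) / (n - 1)) ≤
      ∫⁻ y in B, ENNReal.ofReal (φ.normed volume (z - y)) * G y ^ ((n : ℝ) / (n - 1)) := by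
    intro z
    refine jensen hn ?_ hG ?_
    · exact (φ.continuous_normed.measurable.comp (measurable_const.sub measurable_id)).ennreal_ofReal
    · exact (setLIntegral_le_lintegral _ _).trans (rho_lintegral φ z).le
  refine (lintegral_mono h1).trans ?_
  rw [lintegral_lintegral_swap]
  · refine le_of_eq (lintegral_congr fun y => ?_)
    have hm : Measurable (fun x : E n => ENNReal.ofReal (φ.normed volume (x - y))) :=
      (φ.continuous_normed.measurable.comp (measurable_id.sub measurable_const)).ennreal_ofReal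
    rw [lintegral_mul_const _ hm, rho_lintegral', one_mul]
  · exact (((φ.continuous_normed.measurable.comp
      (measurable_fst.sub measurable_snd)).ennreal_ofReal).mul
      ((hG.pow_const _).comp measurable_snd)).aemeasurable

lemma norm_h_le {B : Set (E n)} (hB : MeasurableSet B) {L : E n → (E n →L[ℝ] ℝ)}
    (hn : 2 ≤ n) (i : Fin n) (z : E n) :
    ‖T volume id (B.indicator fun y => ‖L y‖ ^ (n - 2) * L y (EuclideanSpace.single i 1))
      (φ.normed volume) z‖ₑ ≤ hb φ B (fun y => ‖L y‖ₑ ^ (n - 1)) z := by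
  rw [T, hb, ← lintegral_indicator hB]
  refine (enorm_integral_le_lintegral_enorm _).trans (lintegral_mono fun y => ?_)
  by_cases hy : y ∈ B
  · rw [indicator_of_mem hy, indicator_of_mem hy, enorm_smul, mul_comm, id]
    refine mul_le_mul' ?_ ?_
    · rw [Real.enorm_eq_ofReal (φ.nonneg_normed _)]
    · have e : n - 1 = (n - 2) + 1 := by omega
      rw [enorm_mul, enorm_pow, enorm_norm, e, pow_succ]
      refine mul_le_mul' le_rfl ?_
      rw [← enorm_norm (L y), enorm_le_iff_norm_le, norm_norm]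
      exact abs_le_norm_single (L y) i
  · rw [indicator_of_notMem hy, indicator_of_notMem hy, zero_smul, enorm_zero]

end main

end Push

open Push

theorem push_energy (n : ℕ) (hn : 2 ≤ n) : ∃ C : ℝ, 1 ≤ C ∧ ∀ (D : Set (E n)) (f : E n → E n)
    (Df : E n → E n →L[ℝ] E n) (K : E n → ℝ), GM n D f Df K → ∀ (V : Set (E n)) (y₀ : E n)
    (s₄ s₅ M : ℝ) (k : ℕ) (q : E n → ℝ) (φ : ContDiffBump (0 : E n)), IsOpen V → closure V ⊆ D →
    (∀ x ∈ frontier V, f x ∉ ball y₀ s₅) → HasDeg f Df V (ball y₀ s₅) k → s₄ + φ.rOut < s₅ →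
    ContDiff ℝ ∞ q → (∀ x ∈ V, ‖fderiv ℝ q x‖ ≤ M) →
    ∫⁻ y in ball y₀ s₄, ‖fderiv ℝ (fun y => ∫ x in V, q x * φ.normed volume (y - f x) *
        (Df x).det) y‖ₑ ^ n
      ≤ ENNReal.ofReal (C * M ^ n * k ^ (n - 1)) * ∫⁻ x in V, ENNReal.ofReal (K x) ^ (n - 1) := by
  obtain ⟨C₁, hC₁, hrow⟩ := abs_det_rowRepl_le n
  have hn0 : (0 : ℝ) < n := by exact_mod_cast (show 0 < n by omega)
  have hn1 : (1 : ℝ) ≤ n := by exact_mod_cast (show 1 ≤ n by omega)
  refine ⟨(n * (C₁ + 1)) ^ n, one_le_pow₀ (by nlinarith), ?_⟩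
  intro D f Df K H V y₀ s₄ s₅ M k q φ hV hVD hfr hdeg hs hq hM
  rcases V.eq_empty_or_nonempty with hVe | ⟨x₀, hx₀⟩
  · subst hVe
    simp [show n ≠ 0 by omega]
    exact Or.inl (by rw [← ofReal_norm, norm_zero, ENNReal.ofReal_zero])
  have hM0 : 0 ≤ M := (norm_nonneg _).trans (hM x₀ hx₀)
  have hVb : Bornology.IsBounded V := H.bdd.subset (subset_closure.trans hVD)
  have hcl : IsCompact (closure V) := hVb.isCompact_closure
  have hfm : Measurable f := H.cont.measurable
  have hdetm : Measurable (fun x => (Df x).det) :=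
    ContinuousLinearMap.continuous_det.measurable.comp H.meas
  have hdet0 : ∀ x, 0 ≤ (Df x).det := by
    intro x
    have h1 := H.dist_le x
    have h2 := H.one_le x
    have h3 : 0 ≤ ‖Df x‖ ^ n := by positivity
    by_contra h
    push Not at h
    nlinarith
  set ρ : E n → ℝ := φ.normed volume with hρdef
  have hρ : ContDiff ℝ ∞ ρ := rho_contDiff φ
  have hρc : HasCompactSupport ρ := rho_compact φ
  have hρ1 : ContDiff ℝ 1 ρ := hρ.of_le (by exact_mod_cast le_top)
  have hρe : ∀ z, ρ (-z) = ρ z := fun z => φ.normed_neg z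
  set g : E n → ℝ := fun x => q x * (Df x).det with hgdef
  have hJint : Integrable (fun x => (Df x).det) (volume.restrict V) :=
    H.intJ.mono_set (subset_closure.trans hVD)
  have hg : Integrable g (volume.restrict V) := by
    obtain ⟨c, hc⟩ := hcl.exists_bound_of_continuousOn hq.continuous.continuousOn
    refine hJint.bdd_mul (c := c) hq.continuous.aestronglyMeasurable ?_
    filter_upwards [ae_restrict_mem hV.measurableSet] with x hx
    exact hc x (subset_closure hx)
  have hQ : (fun y => ∫ x in V, q x * φ.normed volume (y - f x) * (Df x).det) =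
      T (volume.restrict V) f g ρ := by
    funext y
    rw [T]
    congr 1
    funext x
    simp only [hgdef, smul_eq_mul]
    ring
  rw [hQ]
  set L : E n → (E n →L[ℝ] ℝ) := fderiv ℝ (T (volume.restrict V) f g ρ) with hL
  have hLc : Continuous L :=
    (contDiff_T_top hfm hg hρ hρc).continuous_fderiv (by simp)
  set B : Set (E n) := ball y₀ s₄ with hB
  have hBm : MeasurableSet B := measurableSet_ball
  set e : Fin n → E n := fun i => EuclideanSpace.single i 1 with he
  set η : Fin n → E n → ℝ := fun i => B.indicator fun y => ‖L y‖ ^ (n - 2) * L y (e i) with hη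
  have hcont : ∀ i, Continuous (fun y => ‖L y‖ ^ (n - 2) * L y (e i)) := fun i => by fun_prop
  have hint : ∀ {u : E n → ℝ}, Continuous u → IntegrableOn u B := fun {u} hu =>
    (hu.continuousOn.integrableOn_compact (isCompact_closedBall y₀ s₄)).mono_set
      ball_subset_closedBall
  have hηint : ∀ i, Integrable (η i) := fun i => (integrable_indicator_iff hBm).2 (hint (hcont i))
  set h : Fin n → E n → ℝ := fun i => T volume id (η i) ρ with hh
  have hhs : ∀ i, ContDiff ℝ ∞ (h i) := fun i => contDiff_T_top measurable_id (hηint i) hρ hρc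
  set G : E n → ℝ≥0∞ := fun y => ‖L y‖ₑ ^ (n - 1) with hG
  have hGm : Measurable G := (hLc.enorm.measurable).pow_const _
  have hhle : ∀ i z, ‖h i z‖ₑ ≤ hb φ B G z := fun i z => norm_h_le φ hBm hn i z
  have hh0 : ∀ i z, z ∉ closedBall y₀ (s₄ + φ.rOut) → h i z = 0 := by
    intro i z hz
    rw [mem_closedBall, not_le] at hz
    have := hhle i z
    rw [hb_zero φ hz.le] at this
    simpa using this
  -- the key identity
  have hid : ∫ y in B, ‖L y‖ ^ n =
      ∑ i, ∫ x in V, h i (f x) * (rowRepl i (fderiv ℝ q x) (Df x)).det := by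
    have h1 : ∀ i, ∫ y in B, ‖L y‖ ^ (n - 2) * (L y (e i)) ^ 2 =
        ∫ x in V, h i (f x) * (rowRepl i (fderiv ℝ q x) (Df x)).det := by
      intro i
      have h2 := duality (μ := volume.restrict V) (ν := volume) hfm hg (hηint i) hρ hρc hρe (e i)
      have h3 := identity_V hn H hV hVD hs hfr hq (hhs i) (hh0 i) i
      have h4 : ∫ y, L y (e i) * η i y = ∫ y in B, ‖L y‖ ^ (n - 2) * (L y (e i)) ^ 2 := by
        rw [← integral_indicator hBm]
        congr 1
        funext y
        by_cases hy : y ∈ B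
        · simp only [hη, indicator_of_mem hy]; ring
        · simp only [hη, indicator_of_notMem hy, mul_zero]
      rw [← h4]
      refine h2.trans ?_
      rw [← neg_eq_iff_eq_neg.2 h3, neg_inj]
      refine setIntegral_congr_fun hV.measurableSet fun x _ => ?_
      simp only [hgdef]
      ring
    rw [← Finset.sum_congr rfl fun i _ => h1 i,
      ← integral_finsetSum _ fun i _ => hint (by fun_prop)]
    refine setIntegral_congr_fun hBm fun y _ => ?_
    rw [← Finset.mul_sum, ← norm_sq_eq_sum, ← pow_add]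
    congr 1
    omega
  set N : ℝ≥0∞ := ∫⁻ y in B, ‖L y‖ₑ ^ n with hN
  have hNe : N = ENNReal.ofReal (∫ y in B, ‖L y‖ ^ n) := by
    rw [ofReal_integral_eq_lintegral_ofReal (hint (by fun_prop))
      (Eventually.of_forall fun y => by positivity)]
    refine lintegral_congr fun y => ?_
    rw [ENNReal.ofReal_pow (norm_nonneg _), ofReal_norm]
  have hNfin : N ≠ ⊤ := by rw [hNe]; exact ENNReal.ofReal_ne_top
  have hpq := holder_exp hn
  set p : ℝ := (n : ℝ) / (n - 1) with hp
  have hp0 : 0 < p := hpq.pos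
  have hp1 : 1 / p = ((n : ℝ) - 1) / n := by rw [hp, one_div_div]
  have hn1' : (0 : ℝ) < n - 1 := by
    have : (2 : ℝ) ≤ n := by exact_mod_cast hn
    linarith
  -- first estimate
  have est1 : N ≤ n * (ENNReal.ofReal (C₁ * M) *
      ∫⁻ x in V, hb φ B G (f x) * ‖Df x‖ₑ ^ (n - 1)) := by
    rw [hNe, hid]
    calc ENNReal.ofReal (∑ i, ∫ x in V, h i (f x) * (rowRepl i (fderiv ℝ q x) (Df x)).det)
        ≤ ‖∑ i, ∫ x in V, h i (f x) * (rowRepl i (fderiv ℝ q x) (Df x)).det‖ₑ :=
          Real.ofReal_le_enorm _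
      _ ≤ ∑ i, ‖∫ x in V, h i (f x) * (rowRepl i (fderiv ℝ q x) (Df x)).det‖ₑ :=
          enorm_sum_le _ _
      _ ≤ ∑ _i : Fin n, (ENNReal.ofReal (C₁ * M) *
            ∫⁻ x in V, hb φ B G (f x) * ‖Df x‖ₑ ^ (n - 1)) := by
          refine Finset.sum_le_sum fun i _ => ?_
          refine (enorm_integral_le_lintegral_enorm _).trans ?_
          rw [← lintegral_const_mul' _ _ ENNReal.ofReal_ne_top]
          refine setLIntegral_mono' hV.measurableSet fun x hx => ?_
          rw [enorm_mul]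
          have r1 : ‖(rowRepl i (fderiv ℝ q x) (Df x)).det‖ₑ ≤
              ENNReal.ofReal (C₁ * M) * ‖Df x‖ₑ ^ (n - 1) := by
            rw [← ofReal_norm (Df x), ← ENNReal.ofReal_pow (norm_nonneg _),
              ← ENNReal.ofReal_mul (by positivity), ← ofReal_norm]
            refine ENNReal.ofReal_le_ofReal ?_
            rw [Real.norm_eq_abs]
            refine (hrow i _ _).trans ?_
            gcongr
            exact hM x hx
          calc _ ≤ hb φ B G (f x) * (ENNReal.ofReal (C₁ * M) * ‖Df x‖ₑ ^ (n - 1)) :=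
                mul_le_mul' (hhle i _) r1
            _ = _ := by ring
      _ = _ := by
          rw [Finset.sum_const, Finset.card_univ, Fintype.card_fin, nsmul_eq_mul]
  -- Hoelder
  have est2 : ∫⁻ x in V, hb φ B G (f x) * ‖Df x‖ₑ ^ (n - 1) ≤
      (∫⁻ x in V, hb φ B G (f x) ^ p * ENNReal.ofReal (Df x).det) ^ (1 / p) *
      (∫⁻ x in V, ENNReal.ofReal (K x) ^ (n - 1)) ^ (1 / (n : ℝ)) := by
    have h2 := ENNReal.lintegral_mul_le_Lp_mul_Lq (volume.restrict V) hpq
      (f := fun x => hb φ B G (f x) * ENNReal.ofReal (Df x).det ^ (1 / p))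
      (g := fun x => ENNReal.ofReal (K x) ^ (1 / p))
      (((hb_measurable φ hGm).comp hfm).mul
        (hdetm.ennreal_ofReal.pow_const _)).aemeasurable
      (H.measK.ennreal_ofReal.pow_const _).aemeasurable
    have h3 : ∀ x, (hb φ B G (f x) * ENNReal.ofReal (Df x).det ^ (1 / p)) ^ p =
        hb φ B G (f x) ^ p * ENNReal.ofReal (Df x).det := by
      intro x
      rw [ENNReal.mul_rpow_of_nonneg _ _ hp0.le, ← ENNReal.rpow_mul, one_div,
        inv_mul_cancel₀ hp0.ne', ENNReal.rpow_one]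
    have h4 : ∀ x, (ENNReal.ofReal (K x) ^ (1 / p)) ^ (n : ℝ) =
        ENNReal.ofReal (K x) ^ (n - 1) := by
      intro x
      rw [← ENNReal.rpow_mul, hp1, div_mul_cancel₀ _ hn0.ne', ← ENNReal.rpow_natCast,
        Nat.cast_sub (by omega), Nat.cast_one]
    simp only [h3, h4] at h2
    refine le_trans (lintegral_mono fun x => ?_) h2
    rw [Pi.mul_apply, mul_assoc]
    refine mul_le_mul' le_rfl ?_
    rw [← ENNReal.mul_rpow_of_nonneg _ _ (by positivity)]
    have h5 : ‖Df x‖ₑ ^ (n - 1) = (‖Df x‖ₑ ^ n) ^ (1 / p) := by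
      rw [← ENNReal.rpow_natCast, ← ENNReal.rpow_natCast, ← ENNReal.rpow_mul, hp1,
        mul_div_cancel₀ _ hn0.ne', Nat.cast_sub (by omega), Nat.cast_one]
    rw [h5]
    refine ENNReal.rpow_le_rpow ?_ (by positivity)
    rw [← ofReal_norm, ← ENNReal.ofReal_pow (norm_nonneg _),
      ← ENNReal.ofReal_mul (hdet0 x), mul_comm]
    exact ENNReal.ofReal_le_ofReal (H.dist_le x)
  -- degree
  have est3 : ∫⁻ x in V, hb φ B G (f x) ^ p * ENNReal.ofReal (Df x).det ≤ k * N := by
    have h1 : ∫⁻ x in V, hb φ B G (f x) ^ p * ENNReal.ofReal (Df x).det =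
        ∫⁻ x in V ∩ f ⁻¹' ball y₀ s₅, hb φ B G (f x) ^ p * ENNReal.ofReal (Df x).det := by
      have hms : MeasurableSet (f ⁻¹' ball y₀ s₅) := hfm measurableSet_ball
      rw [← lintegral_inter_add_sdiff _ V hms]
      rw [show ∫⁻ x in V \ f ⁻¹' ball y₀ s₅, hb φ B G (f x) ^ p * ENNReal.ofReal (Df x).det = 0
        from ?_, add_zero]
      refine (setLIntegral_congr_fun (hV.measurableSet.diff hms) fun x hx => ?_).trans
        (lintegral_zero (μ := volume.restrict _))
      have h2 : s₅ ≤ dist (f x) y₀ := not_lt.1 hx.2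
      have h3 : hb φ B G (f x) = 0 := hb_zero φ (hs.le.trans h2)
      show hb φ B G (f x) ^ p * _ = 0
      rw [h3, ENNReal.zero_rpow_of_pos hp0, zero_mul]
    rw [h1, hdeg (fun z => hb φ B G z ^ p) ((hb_measurable φ hGm).pow_const _)]
    refine mul_le_mul' le_rfl ((setLIntegral_le_lintegral _ _).trans
      ((hb_lintegral φ hn hGm).trans (le_of_eq ?_)))
    refine lintegral_congr fun y => ?_
    simp only [hG]
    rw [← ENNReal.rpow_natCast, ← ENNReal.rpow_natCast, ← ENNReal.rpow_mul,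
      Nat.cast_sub (by omega), Nat.cast_one, mul_div_cancel₀ _ hn1'.ne']
  set I : ℝ≥0∞ := ∫⁻ x in V, ENNReal.ofReal (K x) ^ (n - 1) with hI
  have est4 : N ≤ (n * ENNReal.ofReal (C₁ * M) * (k : ℝ≥0∞) ^ (((n : ℝ) - 1) / n) *
      I ^ (1 / (n : ℝ))) * N ^ (((n : ℝ) - 1) / n) := by
    calc N ≤ n * (ENNReal.ofReal (C₁ * M) * ((k * N) ^ (1 / p) * I ^ (1 / (n : ℝ)))) := by
          refine est1.trans ?_
          gcongr
          refine est2.trans ?_
          gcongr
      _ = _ := by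
          rw [hp1, ENNReal.mul_rpow_of_nonneg _ _ (by positivity)]
          ring
  refine (absorb hn hNfin est4).trans (le_of_eq_of_le ?_
    (mul_le_mul' (ENNReal.ofReal_le_ofReal (p := (n * C₁) ^ n * M ^ n * k ^ (n - 1)) ?_) le_rfl))
  · have e1 : ((k : ℝ≥0∞) ^ (((n : ℝ) - 1) / n)) ^ n = (k : ℝ≥0∞) ^ (n - 1) := by
      rw [← ENNReal.rpow_natCast, ← ENNReal.rpow_natCast, ← ENNReal.rpow_mul,
        div_mul_cancel₀ _ hn0.ne', Nat.cast_sub (by omega), Nat.cast_one]
    have e2 : (I ^ (1 / (n : ℝ))) ^ n = I := by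
      rw [← ENNReal.rpow_natCast, ← ENNReal.rpow_mul, one_div, inv_mul_cancel₀ hn0.ne',
        ENNReal.rpow_one]
    have e3 : ENNReal.ofReal ((n * C₁) ^ n * M ^ n * k ^ (n - 1)) =
        (n : ℝ≥0∞) ^ n * ENNReal.ofReal (C₁ * M) ^ n * (k : ℝ≥0∞) ^ (n - 1) := by
      rw [show ((n * C₁) ^ n * M ^ n * k ^ (n - 1) : ℝ) =
        (n : ℝ) ^ n * (C₁ * M) ^ n * (k : ℝ) ^ (n - 1) by ring,
        ENNReal.ofReal_mul (by positivity), ENNReal.ofReal_mul (by positivity),
        ENNReal.ofReal_pow (by positivity), ENNReal.ofReal_pow (by positivity),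
        ENNReal.ofReal_pow (by positivity), ENNReal.ofReal_natCast, ENNReal.ofReal_natCast]
    rw [mul_pow, mul_pow, mul_pow, e1, e2, e3]
  · gcongr
    linarith

end Pool.Agent.MP_dd09c0_an
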