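import Pool.Agent.MP_dd09c0_an.TopAux
import Pool.Agent.MP_dd09c0_an.DegSmooth
import Pool.Agent.MP_dd09c0_an.DegGM

/-!
# MP_dd09c0_an, module I: the topological lemma
-/

open MeasureTheory Metric Set Filter Topology
open scoped ENNReal NNReal ContDiff RealInnerProductSpace

namespace Pool.Agent.MP_dd09c0_an

variable {n : ℕ}

namespace TopAux

theorem GM_det_nonneg {D : Set (E n)} {f : E n → E n} {Df : E n → E n →L[ℝ] E n}
    {K : E n → ℝ} (H : GM n D f Df K) (x : E n) : 0 ≤ (Df x).det := by
  have h1 := H.dist_le x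
  have h2 := H.one_le x
  have h3 : 0 ≤ ‖Df x‖ ^ n := by positivity
  by_contra hcon
  push Not at hcon
  nlinarith [mul_neg_of_pos_of_neg (show 0 < K x by linarith) hcon]

theorem det_comp (L M : E n →L[ℝ] E n) : (L.comp M).det = L.det * M.det := by
  simp [ContinuousLinearMap.det]

end TopAux

open TopAux

/-- The topological lemma: clustered fibres over the image of a sphere force degree one. -/
theorem GM.top_lemma (hn : 2 ≤ n) {D : Set (E n)} {f : E n → E n} {Df : E n → E n →L[ℝ] E n}
    {K : E n → ℝ} (H : GM n D f Df K) {p : E n} {t ε : ℝ} (hε : 0 < ε) (ht : 8 * ε < t)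
    (hpD : closedBall p t ⊆ D)
    (hfib : ∀ x ∈ sphere p t, ∀ z ∈ closedBall p t, f z = f x → dist z x ≤ ε) :
    ∃ O : Set (E n), IsOpen O ∧ (∀ x ∈ ball p (t - ε), f x ∈ O) ∧ HasDeg f Df (ball p t) O 1 := by
  have ht0 : 0 < t := by linarith
  have hn1 : 1 ≤ n := by omega
  have : Nontrivial (E n) := by
    have : Nonempty (Fin n) := ⟨⟨0, by omega⟩⟩
    infer_instance
  have hf := H.cont
  obtain ⟨S, hS⟩ : ∃ S, S = sphere p t := ⟨_, rfl⟩
  have hSc : IsCompact S := hS ▸ isCompact_sphere p t
  obtain ⟨p0, hp0⟩ : (sphere p t).Nonempty := NormedSpace.sphere_nonempty.2 ht0.le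
  obtain ⟨U, hU⟩ : ∃ U, U = (f '' S)ᶜ := ⟨_, rfl⟩
  have hUo : IsOpen U := hU ▸ (hSc.image hf).isClosed.isOpen_compl
  obtain ⟨O, hO⟩ : ∃ O, O = connectedComponentIn U (f p) := ⟨_, rfl⟩
  have hOo : IsOpen O := hO ▸ hUo.connectedComponentIn
  have hOc : IsPreconnected O := hO ▸ isPreconnected_connectedComponentIn
  have hOU : O ⊆ U := hO ▸ connectedComponentIn_subset _ _
  have hmiss : ∀ x ∈ ball p (t - ε), f x ∈ U := by
    intro x hx
    rw [hU]
    rintro ⟨x', hx', heq⟩
    rw [hS] at hx'
    rw [mem_ball] at hx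
    have h1 := hfib x' hx' x (mem_closedBall.2 (by linarith)) heq.symm
    have h2 := dist_triangle x' x p
    rw [mem_sphere] at hx'
    rw [dist_comm] at h1
    linarith
  have hin : ∀ x ∈ ball p (t - ε), f x ∈ O := by
    have hpre : IsPreconnected (f '' ball p (t - ε)) :=
      (convex_ball _ _).isPreconnected.image f hf.continuousOn
    have hsub : f '' ball p (t - ε) ⊆ O := by
      rw [hO]
      refine hpre.subset_connectedComponentIn ⟨p, mem_ball_self (by linarith), rfl⟩ ?_
      rintro _ ⟨x, hx, rfl⟩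
      exact hmiss x hx
    exact fun x hx => hsub ⟨x, hx, rfl⟩
  have hfrO : frontier O ⊆ f '' S := by
    intro z hz
    rw [hO] at hz
    have h1 := frontier_component hUo _ _ hz
    rw [hU] at h1
    exact not_not.1 h1
  refine ⟨O, hOo, hin, ?_⟩
  have hfrb : ∀ x ∈ frontier (ball p t), f x ∉ O := by
    intro x hx hxO
    have h1 : x ∈ S := by
      rw [hS]
      exact frontier_ball_subset_sphere hx
    have h2 := hOU hxO
    rw [hU] at h2
    exact h2 ⟨x, h1, rfl⟩
  obtain ⟨N, hN⟩ := H.exists_deg hn isOpen_ball (closure_ball_subset_closedBall.trans hpD) hOo hOc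
    hfrb
  suffices hN1 : N = 1 by
    rw [hN1] at hN; exact hN
  obtain ⟨κ, hκ, hκS⟩ := exists_kappa hSc hf hε (fun x hx z hz h =>
    hfib x (by rw [hS] at hx; exact hx) z (by rw [hS] at hz; exact sphere_subset_closedBall hz) h)
  obtain ⟨G, hG, hG1, R, hR, hGR⟩ := exists_G (hSc.image hf).isBounded (p0 := p0) hκ hκS
  have h4 : 0 < t - 4 * ε := by linarith
  -- the test function
  let φ : ContDiffBump p := ⟨(t - 4 * ε) / 4, (t - 4 * ε) / 2, by positivity, by linarith⟩
  obtain ⟨ζ, hζ⟩ : ∃ ζ : E n → ℝ, ζ = φ.normed volume := ⟨_, rfl⟩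
  have hζs : ContDiff ℝ ∞ ζ := hζ ▸ φ.contDiff_normed
  have hζc : HasCompactSupport ζ := hζ ▸ φ.hasCompactSupport_normed
  have hζi : ∫ x, ζ x = 1 := by rw [hζ]; exact φ.integral_normed
  have hζt : tsupport ζ ⊆ ball p (t - 4 * ε) := by
    rw [hζ, φ.tsupport_normed_eq]
    refine closedBall_subset_ball ?_
    show (t - 4 * ε) / 2 < t - 4 * ε
    linarith
  have hζ0 : ∀ z, t - 4 * ε ≤ dist z p → ζ z = 0 := by
    intro z hz
    by_contra hne
    have h1 := hζt (subset_tsupport _ hne)
    rw [mem_ball] at h1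
    linarith
  have hfar : ∀ (z x : E n), x ∈ S → dist z x < 2 * ε → t - 4 * ε ≤ dist z p := by
    intro z x hx hzx
    rw [hS, mem_sphere] at hx
    have := dist_triangle_left x p z
    linarith
  have hp0' : t - 4 * ε ≤ dist p0 p := by
    rw [mem_sphere] at hp0; linarith
  obtain ⟨η, hη⟩ : ∃ η : E n → ℝ, η = fun y => ζ (G y) * (fderiv ℝ G y).det := ⟨_, rfl⟩
  have hηs : ContDiff ℝ ∞ η := by
    rw [hη]
    exact (hζs.comp hG).mul (contDiff_det_fderiv hG)
  obtain ⟨Nk, hNk⟩ : ∃ Nk : Set (E n), Nk = ⋃ x ∈ S, ball (f x) κ := ⟨_, rfl⟩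
  have hNo : IsOpen Nk := by
    rw [hNk]; exact isOpen_biUnion fun _ _ => isOpen_ball
  have hη0 : ∀ y ∈ Nk, η y = 0 := by
    intro y hy
    rw [hNk, mem_iUnion₂] at hy
    obtain ⟨x, hx, hyx⟩ := hy
    rw [hη]
    simp only
    rw [hζ0 _ (hfar _ x hx (hG1 y x hx hyx)), zero_mul]
  have hfrN : frontier O ⊆ Nk := by
    intro y hy
    obtain ⟨x, hx, rfl⟩ := hfrO hy
    rw [hNk, mem_iUnion₂]
    exact ⟨x, hx, mem_ball_self hκ⟩
  obtain ⟨hOs, hOt⟩ := contDiff_indicator hOo hNo hfrN hηs hη0
  have hηR : ∀ y, R ≤ ‖y‖ → η y = 0 := by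
    intro y hy
    rw [hη]
    simp only
    rw [hGR y hy, hζ0 p0 hp0', zero_mul]
  have hOcs : HasCompactSupport (O.indicator η) := by
    refine HasCompactSupport.of_support_subset_isCompact (isCompact_closedBall (0 : E n) R) ?_
    intro y hy
    rw [mem_closedBall_zero_iff]
    by_contra hcon
    push Not at hcon
    apply hy
    by_cases hyO : y ∈ O
    · rw [indicator_of_mem hyO, hηR y hcon.le]
    · rw [indicator_of_notMem hyO]
  obtain ⟨F, hF, hFu, hFt⟩ := H.exists_seq hn (isCompact_closedBall p t) hpD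
  have hlim := hFt (ball p t) O isOpen_ball closure_ball_subset_closedBall hOo hfrb
    (O.indicator η) hOs hOcs hOt
  have hev : ∀ᶠ m in atTop, ∫ x in ball p t, O.indicator η (F m x) * (fderiv ℝ (F m) x).det = 1 := by
    filter_upwards [hFu κ hκ] with m hm
    obtain ⟨A, hA⟩ : ∃ A, A = ball p t ∩ f ⁻¹' O := ⟨_, rfl⟩
    have hAo : IsOpen A := hA ▸ isOpen_ball.inter (hOo.preimage hf)
    have hAb : A ⊆ ball p t := by rw [hA]; exact inter_subset_left
    have hAbd : Bornology.IsBounded A := isBounded_ball.subset hAb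
    have hseg : ∀ x ∈ ball p t, ∀ q ∈ segment ℝ (f x) (F m x), q ∈ frontier O → F m x ∈ Nk := by
      intro x hx q hq hqO
      obtain ⟨x', hx', rfl⟩ := hfrO hqO
      rw [hNk, mem_iUnion₂]
      refine ⟨x', hx', ?_⟩
      rw [mem_ball]
      have h5 := hm x (ball_subset_closedBall hx)
      rw [← dist_eq_norm] at h5
      refine lt_of_le_of_lt ?_ h5
      have h6 := dist_add_dist_of_mem_segment hq
      have h7 := dist_comm (f x) (F m x)
      have h8 := dist_comm (f x') (F m x)
      have h9 := dist_nonneg (x := f x) (y := f x')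
      linarith
    have e1 : ∫ x in ball p t, O.indicator η (F m x) * (fderiv ℝ (F m) x).det =
        ∫ x in A, η (F m x) * (fderiv ℝ (F m) x).det := by
      rw [setIntegral_eq_of_subset_of_forall_sdiff_eq_zero measurableSet_ball hAb]
      · refine setIntegral_congr_fun hAo.measurableSet fun x hx => ?_
        by_cases hxO : F m x ∈ O
        · rw [indicator_of_mem hxO]
        · rw [indicator_of_notMem hxO]
          rw [hA] at hx
          obtain ⟨q, hq, hqO⟩ := exists_mem_frontier (convex_segment (𝕜 := ℝ) (f x) (F m x)).isPreconnected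
            hOo (left_mem_segment ℝ _ _) (right_mem_segment ℝ _ _) hx.2 hxO
          rw [hη0 _ (hseg x hx.1 q hq hqO)]
      · intro x hx
        have hxO : f x ∉ O := by
          intro h; exact hx.2 (by rw [hA]; exact ⟨hx.1, h⟩)
        by_cases hFx : F m x ∈ O
        · obtain ⟨q, hq, hqO⟩ := exists_mem_frontier (convex_segment (𝕜 := ℝ) (f x) (F m x)).isPreconnected
            hOo (right_mem_segment ℝ _ _) (left_mem_segment ℝ _ _) hFx hxO
          rw [indicator_of_mem hFx, hη0 _ (hseg x hx.1 q hq hqO), zero_mul]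
        · rw [indicator_of_notMem hFx, zero_mul]
    have e2 : ∫ x in A, η (F m x) * (fderiv ℝ (F m) x).det =
        ∫ x in A, ζ ((G ∘ F m) x) * (fderiv ℝ (G ∘ F m) x).det := by
      refine setIntegral_congr_fun hAo.measurableSet fun x _ => ?_
      rw [fderiv_comp x (hG.differentiable (by simp)).differentiableAt
        ((hF m).differentiable (by simp)).differentiableAt, det_comp, hη, Function.comp_apply]
      ring
    have hfrA : ∀ s ∈ Icc (0 : ℝ) 1, ∀ x ∈ frontier A,
        (1 - s) • (G ∘ F m) x + s • id x ∉ ball p (t - 4 * ε) := by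
      intro s hs x hx
      have hxc : x ∈ closedBall p t :=
        closure_ball_subset_closedBall (closure_mono hAb (frontier_subset_closure hx))
      have hfx : f x ∈ f '' S := by
        by_cases hxb : x ∈ ball p t
        · apply hfrO
          rw [hOo.frontier_eq]
          rw [hAo.frontier_eq] at hx
          refine ⟨?_, fun h => hx.2 (by rw [hA]; exact ⟨hxb, h⟩)⟩
          have h1 : A ⊆ f ⁻¹' O := by rw [hA]; exact inter_subset_right
          exact (closure_mono h1).trans (hf.closure_preimage_subset O) hx.1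
        · refine ⟨x, ?_, rfl⟩
          rw [hS, mem_sphere]
          rw [mem_ball, not_lt] at hxb
          exact le_antisymm hxc hxb
      obtain ⟨x', hx', heq⟩ := hfx
      have hx'' := hx'
      rw [hS] at hx''
      have h1 : dist x x' ≤ ε := hfib x' hx'' x hxc heq.symm
      have h5 := hm x hxc
      have h6 : dist (G (F m x)) x' < 2 * ε := by
        refine hG1 _ x' hx' ?_
        rw [heq, dist_eq_norm]; exact h5
      have h7 : dist (G (F m x)) x < 3 * ε := by
        have := dist_triangle_right (G (F m x)) x x'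
        linarith
      have h8 : t - ε ≤ dist x p := by
        rw [mem_sphere] at hx''
        have := dist_triangle_left x' p x
        linarith
      rw [mem_ball, not_lt]
      have h9 : dist ((1 - s) • (G ∘ F m) x + s • id x) x ≤ 3 * ε := by
        have e : (1 - s) • (G ∘ F m) x + s • id x - x = (1 - s) • (G (F m x) - x) := by
          simp only [Function.comp_apply, id]
          module
        rw [dist_eq_norm, e, norm_smul, Real.norm_of_nonneg (by linarith [hs.2]), ← dist_eq_norm]
        have h10 : 1 - s ≤ 1 := by linarith [hs.1]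
        have h11 : 0 ≤ 1 - s := by linarith [hs.2]
        nlinarith [dist_nonneg (x := G (F m x)) (y := x)]
      have h12 := dist_triangle_left x p ((1 - s) • (G ∘ F m) x + s • id x)
      linarith
    have e3 := smooth_deg_homotopy hn1 (hG.comp (hF m)) contDiff_id hAo hAbd h4 hfrA
      hζs.continuous hζc hζt
    have e4 : ∫ x in A, ζ (id x) * (fderiv ℝ (id : E n → E n) x).det = 1 := by
      have e5 : ∀ x : E n, ζ (id x) * (fderiv ℝ (id : E n → E n) x).det = ζ x := by
        intro x
        rw [fderiv_id]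
        simp [ContinuousLinearMap.det]
      simp only [e5]
      rw [← hζi]
      refine setIntegral_eq_integral_of_forall_compl_eq_zero fun x hx => ?_
      refine hζ0 x ?_
      by_contra hcon
      push Not at hcon
      apply hx
      rw [hA]
      exact ⟨mem_ball.2 (by linarith), hin x (mem_ball.2 (by linarith))⟩
    rw [e1, e2, e3, e4]
  have h1 : ∫ x in ball p t, O.indicator η (f x) * (Df x).det = 1 :=
    tendsto_nhds_unique hlim ((tendsto_congr' hev).2 tendsto_const_nhds)
  have h2 := hN.integral_eq hf H.meas (GM_det_nonneg H) isOpen_ball hOo hOs.continuous hOcs hOt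
  rw [h1] at h2
  -- the degree of `G`
  obtain ⟨d, hd⟩ := smooth_deg hn1 hG (A := O ∩ ball 0 (R + 1)) (hOo.inter isOpen_ball)
    (isBounded_ball.subset inter_subset_right) (y := p) h4 (by
      intro y hy
      have h3 := frontier_inter_subset _ _ hy
      rw [mem_ball, not_lt]
      rcases h3 with h3 | h3
      · obtain ⟨x, hx, rfl⟩ := hfrO h3.1
        exact hfar _ x hx (hG1 _ x hx (by rw [dist_self]; exact hκ))
      · have h5 := frontier_ball_subset_sphere h3.2
        rw [mem_sphere_zero_iff_norm] at h5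
        rw [hGR y (by linarith)]
        exact hp0')
  have h3 := hd ζ hζs.continuous hζc hζt
  rw [hζi, mul_one] at h3
  have h5 : ∫ z, O.indicator η z = d := by
    rw [integral_indicator hOo.measurableSet, ← h3, hη]
    refine setIntegral_eq_of_subset_of_forall_sdiff_eq_zero hOo.measurableSet inter_subset_left ?_
    intro y hy
    have h6 : R ≤ ‖y‖ := by
      by_contra hcon
      push Not at hcon
      exact hy.2 ⟨hy.1, by rw [mem_ball_zero_iff]; linarith⟩
    have h7 := hηR y h6
    rw [hη] at h7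
    exact h7
  rw [h5] at h2
  have h6 : (N : ℤ) * d = 1 := by
    have : ((N : ℤ) : ℝ) * (d : ℝ) = 1 := by
      rw [Int.cast_natCast]; exact h2.symm
    exact_mod_cast this
  have h7 : (N : ℤ) ∣ 1 := ⟨d, h6.symm⟩
  have h8 := Int.eq_one_of_dvd_one (by positivity) h7
  exact_mod_cast h8

end Pool.Agent.MP_dd09c0_an
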