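import Pool.Agent.MP_dd09c0_an.StepNum
import Pool.Agent.MP_dd09c0_an.Fiber
import Pool.Agent.MP_dd09c0_an.Top
import Pool.Agent.MP_dd09c0_an.Cap
import Pool.Agent.MP_dd09c0_an.WDug
import Pool.Agent.MP_dd09c0_an.WDcalc
import Pool.Agent.MP_dd09c0_an.CompDeg

/-!
# The descent step: the clustered case
-/

open MeasureTheory Metric Set Filter Topology
open scoped ENNReal NNReal ContDiff RealInnerProductSpace

namespace Pool.Agent.MP_dd09c0_an

namespace StepAux

/-- A smooth step. -/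
theorem exists_theta : ∃ (θ : ℝ → ℝ) (B : ℝ), ContDiff ℝ ∞ θ ∧ 1 ≤ B ∧
    (∀ v, 0 ≤ θ v ∧ θ v ≤ 1) ∧ (∀ v, v ≤ 1 → θ v = 0) ∧ (∀ v, 2 ≤ v → θ v = 1) ∧
    ∀ v, |deriv θ v| ≤ B := by
  set θ : ℝ → ℝ := fun v => Real.smoothTransition (v - 1) with hθ
  have hsm : ContDiff ℝ ∞ θ := Real.smoothTransition.contDiff.comp (contDiff_id.sub contDiff_const)
  have hcd : Continuous (deriv θ) := hsm.continuous_deriv (by simp)
  have h0 : ∀ v, v < 1 → deriv θ v = 0 := by
    intro v hv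
    have : θ =ᶠ[𝓝 v] fun _ => (0 : ℝ) := by
      filter_upwards [Iio_mem_nhds hv] with u hu
      exact Real.smoothTransition.zero_of_nonpos (by simp only [mem_Iio] at hu; linarith)
    rw [this.deriv_eq]; simp
  have h1 : ∀ v, 2 < v → deriv θ v = 0 := by
    intro v hv
    have : θ =ᶠ[𝓝 v] fun _ => (1 : ℝ) := by
      filter_upwards [Ioi_mem_nhds hv] with u hu
      exact Real.smoothTransition.one_of_one_le (by simp only [mem_Ioi] at hu; linarith)
    rw [this.deriv_eq]; simp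
  obtain ⟨B, hB⟩ := (isCompact_Icc (a := (1 : ℝ)) (b := 2)).bddAbove_image hcd.abs.continuousOn
  refine ⟨θ, max B 1, hsm, le_max_right _ _, ?_, ?_, ?_, ?_⟩
  · intro v
    exact ⟨Real.smoothTransition.nonneg _, Real.smoothTransition.le_one _⟩
  · intro v hv
    exact Real.smoothTransition.zero_of_nonpos (by linarith)
  · intro v hv
    exact Real.smoothTransition.one_of_one_le (by linarith)
  · intro v
    by_cases hv1 : v < 1
    · rw [h0 v hv1]; simp
    by_cases hv2 : 2 < v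
    · rw [h1 v hv2]; simp
    · refine le_trans ?_ (le_max_left _ _)
      exact hB ⟨v, ⟨not_lt.1 hv1, not_lt.1 hv2⟩, rfl⟩

/-- Components over concentric or smaller balls. -/
theorem comp_subset_of_dist {n : ℕ} {f : E n → E n} {D : Set (E n)} {x z : E n} {s s' : ℝ}
    (hz : z ∈ comp f D x s) (h : dist (f z) (f x) + s' ≤ s) :
    comp f D z s' ⊆ comp f D x s := by
  apply comp_mono_of hz
  intro y hy
  rw [mem_ball] at hy ⊢
  calc dist y (f x) ≤ dist y (f z) + dist (f z) (f x) := dist_triangle _ _ _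
    _ < s' + dist (f z) (f x) := by linarith
    _ ≤ s := by linarith

/-- Clustered points: all of `V` over the small ball lies in one component. -/
theorem clustered {n : ℕ} (hn : 2 ≤ n) {D : Set (E n)} {f : E n → E n}
    {Df : E n → E n →L[ℝ] E n} {K : E n → ℝ} (H : GM n D f Df K) {x x' : E n} {t5 s' : ℝ}
    (hVD : closure (comp f D x t5) ⊆ D) (hb : ball (f x') s' ⊆ ball (f x) t5)
    (hcl : ∀ x'' ∈ comp f D x t5, f x'' = f x' → x'' ∈ comp f D x' s') :
    ∀ z' ∈ comp f D x t5, dist (f z') (f x') < s' → z' ∈ comp f D x' s' := by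
  intro z' hz' hd
  have hz'D : z' ∈ D := hVD (subset_closure hz')
  set F : Set (E n) := D ∩ f ⁻¹' ball (f x') s' with hF
  have hz'F : z' ∈ F := ⟨hz'D, hd⟩
  have hsub : connectedComponentIn F z' ⊆ comp f D x t5 := by
    have e1 : comp f D x t5 = connectedComponentIn (D ∩ f ⁻¹' ball (f x) t5) z' :=
      connectedComponentIn_eq hz'
    rw [e1]
    exact isPreconnected_connectedComponentIn.subset_connectedComponentIn
      (mem_connectedComponentIn hz'F)
      ((connectedComponentIn_subset _ _).trans (inter_subset_inter_right _ (preimage_mono hb)))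
  obtain ⟨x'', hx''W, hfx⟩ := H.exists_preimage hn hz'D hd ((closure_mono hsub).trans hVD)
  have h1 := hcl x'' (hsub hx''W) hfx
  have e2 : connectedComponentIn F z' = connectedComponentIn F x'' := connectedComponentIn_eq hx''W
  have e3 : comp f D x' s' = connectedComponentIn F x'' := connectedComponentIn_eq h1
  rw [e3, ← e2]
  exact mem_connectedComponentIn hz'F

/-- The energy comparison. -/
theorem energy_compare {n : ℕ} (hn : 3 ≤ n) {B Cff X Q ρ1 R κ csp τ : ℝ} (hB : 1 ≤ B)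
    (hff : 1 ≤ Cff) (hX : 1 ≤ X) (hQ : 64 ≤ Q) (hρ : 0 < ρ1) (hR : R = Q * ρ1)
    (hκ : κ = 6400 / ρ1 ^ 2)
    (h : (6400 * B) ^ ((n : ℝ) - 1 / 2) * Cff * (2 ^ n * X) ^ (4 * n) * Q ^ (2 * n - 1 / 2 : ℝ)
        < csp * τ ^ (-(1 / (2 * n)) : ℝ)) :
    (B * κ) ^ pex n * (Cff * (2 ^ n * X) ^ (4 * n) * R ^ (2 * n - 1 / 2 : ℝ))
      < csp * ρ1 ^ (1 / 2 : ℝ) * τ ^ (-(1 / (2 * n)) : ℝ) := by
  have hn' : (3 : ℝ) ≤ n := by exact_mod_cast hn
  have hQ0 : 0 < Q := by linarith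
  have hρ2 : 0 < ρ1 ^ (1 / 2 : ℝ) := Real.rpow_pos_of_pos hρ _
  have e1 : (B * κ) ^ pex n = (6400 * B) ^ ((n : ℝ) - 1 / 2) * ρ1 ^ (-(2 * n - 1) : ℝ) := by
    have : B * κ = (6400 * B) * (ρ1 ^ (2 : ℝ))⁻¹ := by
      rw [hκ, Real.rpow_two]; field_simp
    rw [this, Real.mul_rpow (by positivity) (by positivity), pex, Real.inv_rpow (by positivity),
      ← Real.rpow_mul hρ.le, ← Real.rpow_neg hρ.le]
    congr 2
    ring
  have e2 : R ^ (2 * n - 1 / 2 : ℝ) = Q ^ (2 * n - 1 / 2 : ℝ) * ρ1 ^ (2 * n - 1 / 2 : ℝ) := by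
    rw [hR, Real.mul_rpow hQ0.le hρ.le]
  have e3 : ρ1 ^ (-(2 * n - 1) : ℝ) * ρ1 ^ (2 * n - 1 / 2 : ℝ) = ρ1 ^ (1 / 2 : ℝ) := by
    rw [← Real.rpow_add hρ]
    congr 1
    ring
  calc (B * κ) ^ pex n * (Cff * (2 ^ n * X) ^ (4 * n) * R ^ (2 * n - 1 / 2 : ℝ))
      = ((6400 * B) ^ ((n : ℝ) - 1 / 2) * Cff * (2 ^ n * X) ^ (4 * n) *
          Q ^ (2 * n - 1 / 2 : ℝ)) * (ρ1 ^ (-(2 * n - 1) : ℝ) * ρ1 ^ (2 * n - 1 / 2 : ℝ)) := by
        rw [e1, e2]; ring
    _ = ((6400 * B) ^ ((n : ℝ) - 1 / 2) * Cff * (2 ^ n * X) ^ (4 * n) *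
          Q ^ (2 * n - 1 / 2 : ℝ)) * ρ1 ^ (1 / 2 : ℝ) := by rw [e3]
    _ < (csp * τ ^ (-(1 / (2 * n)) : ℝ)) * ρ1 ^ (1 / 2 : ℝ) := by gcongr
    _ = _ := by ring

/-- The clustered case of the step. -/
theorem caseB (n : ℕ) (hn : 3 ≤ n) {B : ℝ} {θ : ℝ → ℝ} (hθs : ContDiff ℝ ∞ θ) (hB1 : 1 ≤ B)
    (hθ01 : ∀ v, 0 ≤ θ v ∧ θ v ≤ 1) (hθ0 : ∀ v, v ≤ 1 → θ v = 0) (hθ1 : ∀ v, 2 ≤ v → θ v = 1)
    (hθd : ∀ v, |deriv θ v| ≤ B)
    {D : Set (E n)} {f : E n → E n} {Df : E n → E n →L[ℝ] E n} {K : E n → ℝ}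
    (H : GM n D f Df K) {Z : Set (E n)} {x p : E n} {t4 t5 R X Q ρ1 ε δ s' τ₀ : ℝ} {kV : ℕ}
    (hX1 : 1 ≤ X) (hR0 : 0 < R) (hxD : closedBall x R ⊆ D) (hxin : x ∈ D)
    (ht40 : 0 < t4) (hs'0 : 0 < s') (ht45 : t4 + s' < t5)
    (hcR : comp f D x t5 ⊆ closedBall x R)
    (hdV : HasDeg f Df (comp f D x t5) (ball (f x) t5) kV) (hkVX : (kV : ℝ) ≤ X)
    (hT2R : ∫⁻ z in ball x (2 * R), ENNReal.ofReal (K z) ^ (2 * n - 1)
      ≤ ENNReal.ofReal (X * (2 * R) ^ n))
    (hp : ball p (4 * ρ1) ⊆ comp f D x t4) (hρ10 : 0 < ρ1) (hQ64 : 64 ≤ Q) (hRρ1 : R = Q * ρ1)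
    (hε : ε = ρ1 / 20) (hδ : δ = ε / (4 * √X)) (hτ₀ : 0 < τ₀)
    (hsub' : ∀ z ∈ comp f D x t5, dist (f z) (f x) < t4 → comp f D z s' ⊆ comp f D x t5)
    (hsm' : ∀ z ∈ comp f D x t5, dist (f z) (f x) < t4 →
      comp f D z s' ⊆ closedBall z (δ / 2))
    (hlight : ∀ z ∈ comp f D x t5, dist (f z) (f x) < t4 → ∀ δ' > 0, ∃ s'' > 0,
      comp f D z s'' ⊆ closedBall z δ')
    (hclust : ∀ x' ∈ ball p (2 * ρ1), x' ∉ Z → ∀ x'' ∈ comp f D x t5, f x'' = f x' →
      x'' ∈ comp f D x' s')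
    (hZ : volume (Z ∩ ball x (2 * R)) ≤ ENNReal.ofReal (τ₀ * (2 * R) ^ n))
    (hcd : τ₀ * (2 * Q) ^ n ≤ (cap_sphere n (by omega)).choose)
    (hce : (6400 * B) ^ ((n : ℝ) - 1 / 2) * (fiber_fun n hn).choose * (2 ^ n * X) ^ (4 * n) *
        Q ^ (2 * n - 1 / 2 : ℝ)
      < (cap_sphere n (by omega)).choose * (τ₀ * (2 * Q) ^ n) ^ (-(1 / (2 * n)) : ℝ)) :
    Bloch f D s' := by
  have hn2 : 2 ≤ n := by omega
  have hff1 := (fiber_fun n hn).choose_spec.1
  have hff := (fiber_fun n hn).choose_spec.2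
  set Cff := (fiber_fun n hn).choose with hCff
  have hsp0 := (cap_sphere n (by omega)).choose_spec.1
  have hsp := (cap_sphere n (by omega)).choose_spec.2
  set csp := (cap_sphere n (by omega : 2 ≤ n)).choose with hcsp
  have hX0 : 0 < X := by linarith only [hX1]
  have hQ0 : 0 < Q := by linarith only [hQ64]
  set V : Set (E n) := comp f D x t5 with hV
  have ht50 : 0 < t5 := by linarith only [ht45, ht40, hs'0]
  have hVcl : closure V ⊆ closedBall x R := closure_minimal hcR isClosed_closedBall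
  have hVD : closure V ⊆ D := hVcl.trans hxD
  have hVo : IsOpen V := isOpen_comp H.cont H.isOpen x t5
  have hVsub : V ⊆ D := subset_closure.trans hVD
  have hsX : 1 ≤ √X := by rw [Real.one_le_sqrt]; exact hX1
  have hsX0 : 0 < √X := by linarith only [hsX]
  have hε0 : 0 < ε := by rw [hε]; positivity
  have hδ0 : 0 < δ := by rw [hδ]; positivity
  have hδε : δ ≤ ε / 4 := by
    rw [hδ]
    gcongr
    linarith only [hsX]
  have hVball : V ⊆ ball x (2 * R) := by
    intro z hz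
    have := hcR hz
    rw [mem_closedBall] at this
    rw [mem_ball]; linarith only [this, hR0]
  have hU4V : comp f D x t4 ⊆ V := by
    apply comp_mono_of (mem_comp hxin ht50)
    apply ball_subset_ball
    linarith only [ht45, hs'0]
  -- the function u
  obtain ⟨u, l, hu, hl, hWD, hen, hu0, hua, hub⟩ := hff D f Df K H V x (f x) t4 t5 s' R
    (2 ^ n * X) kV hVo hVD hcR hR0
    (by
      have : (1 : ℝ) ≤ 2 ^ n := one_le_pow₀ (by norm_num)
      nlinarith only [this, hX1])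
    (by
      intro z hz
      rw [mem_ball, not_lt]
      exact (dist_of_mem_frontier_comp H.cont H.isOpen hVD hz).ge)
    hdV
    (by
      have : (1 : ℝ) ≤ 2 ^ n := one_le_pow₀ (by norm_num)
      nlinarith only [this, hkVX, hX1]) hs'0 ht45
    (by
      refine (lintegral_mono_set hVball).trans (hT2R.trans (le_of_eq ?_))
      congr 1
      rw [mul_pow]; ring)
  set D' : Set (E n) := V ∩ f ⁻¹' ball (f x) t4 with hD'
  have hD'o : IsOpen D' := hVo.inter (isOpen_ball.preimage H.cont)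
  have hpD' : ball p (4 * ρ1) ⊆ D' := fun z hz =>
    ⟨hU4V (hp hz), (comp_subset f D x t4 (hp hz)).2⟩
  obtain ⟨κ, hκ⟩ : ∃ κ : ℝ, κ = 6400 / ρ1 ^ 2 := ⟨_, rfl⟩
  have hκ0 : 0 < κ := by rw [hκ]; positivity
  have hκδ : κ * (X * δ ^ 2) = 1 := by
    rw [hκ, hδ, hε, div_pow, mul_pow, Real.sq_sqrt hX0.le]
    field_simp
    norm_num
  set θκ : ℝ → ℝ := fun v => θ (κ * v) with hθκ
  have hθκs : ContDiff ℝ ∞ θκ := hθs.comp (contDiff_const.mul contDiff_id)
  have hdθκ : ∀ v, deriv θκ v = κ * deriv θ (κ * v) := by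
    intro v
    have h1 : HasDerivAt θ (deriv θ (κ * v)) (κ * v) :=
      (hθs.differentiable (by simp)).differentiableAt.hasDerivAt
    have h2 : HasDerivAt (fun v : ℝ => κ * v) κ v := by
      simpa using (hasDerivAt_id v).const_mul κ
    have h3 := h1.comp v h2
    rw [show θκ = θ ∘ (fun v : ℝ => κ * v) from rfl, h3.deriv]
    ring
  have hW := hWD.comp_smooth hD'o hθκs
  have hUG := hW.ug hD'o
  set G : E n → ℝ≥0∞ := fun z => ‖deriv θκ (u z) • l z‖ₑ with hG
  have hGm : Measurable G := by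
    apply Measurable.enorm
    exact ((hθκs.continuous_deriv (by simp)).comp hu).measurable.smul hl
  have hGle : ∀ z, G z ≤ ENNReal.ofReal (B * κ) * ‖l z‖ₑ := by
    intro z
    rw [hG]
    simp only [enorm_smul]
    gcongr
    rw [← ofReal_norm, hdθκ]
    apply ENNReal.ofReal_le_ofReal
    rw [Real.norm_eq_abs, abs_mul, abs_of_pos hκ0, mul_comm]
    gcongr
    exact hθd _
  have h2ρ : closedBall p (2 * ρ1) ⊆ ball p (4 * ρ1) := closedBall_subset_ball (by linarith only [hρ10])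
  obtain ⟨τ, hτ⟩ : ∃ τ : ℝ, τ = τ₀ * (2 * Q) ^ n := ⟨_, rfl⟩
  rw [← hτ] at hcd hce
  have hτ0 : 0 < τ := by rw [hτ]; positivity
  have hu1 : ∀ x' ∈ ball p (2 * ρ1), x' ∉ Z → u x' ≤ X * δ ^ 2 := by
    intro x' hx' hx'Z
    have hx'4 : x' ∈ ball p (4 * ρ1) := ball_subset_ball (by linarith only [hρ10]) hx'
    have hx'D' := hpD' hx'4
    have hb : ball (f x') s' ⊆ ball (f x) t5 := by
      intro y hy
      have h1 : dist (f x') (f x) < t4 := hx'D'.2
      rw [mem_ball] at hy ⊢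
      calc dist y (f x) ≤ dist y (f x') + dist (f x') (f x) := dist_triangle _ _ _
        _ < t5 := by linarith only [hy, h1, ht45]
    have h1 : u x' ≤ kV * δ ^ 2 := by
      apply hua x' hx'D' δ
      intro z' hz' hd
      have h2 := clustered hn2 H hVD hb (hclust x' hx' hx'Z) z' hz' hd
      have h3 := hsm' x' hx'D'.1 hx'D'.2 h2
      rw [mem_closedBall] at h3
      linarith only [h3, hδ0]
    refine h1.trans ?_
    gcongr
  -- the good sphere
  have hsph : ∃ t0 ∈ Ioo (ρ1 / 2) ρ1, ∀ z, dist z p = t0 → u z < 2 * (X * δ ^ 2) := by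
    by_contra hcon
    push Not at hcon
    have h1 := hsp D' (fun z => θκ (u z)) G hUG hGm p ρ1 τ hρ10 hτ0 hcd
      (h2ρ.trans hpD') (fun z _ => hθ01 _) ?_ ?_
    · have h2 : ∫⁻ z in ball p (2 * ρ1), G z ^ pex n
          ≤ ENNReal.ofReal ((B * κ) ^ pex n *
            (Cff * (2 ^ n * X) ^ (4 * n) * R ^ (2 * n - 1 / 2 : ℝ))) := by
        have hp0 : 0 ≤ pex n := by
          have : (3 : ℝ) ≤ n := by exact_mod_cast hn
          rw [pex]; linarith only [this]
        calc ∫⁻ z in ball p (2 * ρ1), G z ^ pex n ≤ ∫⁻ z in D', G z ^ pex n :=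
              lintegral_mono_set ((ball_subset_closedBall.trans h2ρ).trans hpD')
          _ ≤ ∫⁻ z in D', ENNReal.ofReal ((B * κ) ^ pex n) * ‖l z‖ₑ ^ pex n := by
              apply lintegral_mono
              intro z
              show G z ^ pex n ≤ ENNReal.ofReal ((B * κ) ^ pex n) * ‖l z‖ₑ ^ pex n
              rw [← ENNReal.ofReal_rpow_of_nonneg (by positivity) hp0,
                ← ENNReal.mul_rpow_of_nonneg _ _ hp0]
              exact ENNReal.rpow_le_rpow (hGle z) hp0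
          _ = ENNReal.ofReal ((B * κ) ^ pex n) * ∫⁻ z in D', ‖l z‖ₑ ^ pex n := by
              rw [lintegral_const_mul' _ _ ENNReal.ofReal_ne_top]
          _ ≤ ENNReal.ofReal ((B * κ) ^ pex n) *
              ENNReal.ofReal (Cff * (2 ^ n * X) ^ (4 * n) * R ^ (2 * n - 1 / 2 : ℝ)) := by
              gcongr
          _ = _ := by rw [← ENNReal.ofReal_mul (by positivity)]
      have h3 := energy_compare (csp := csp) (τ := τ) hn hB1 hff1 hX1 hQ64 hρ10 hRρ1 hκ hce
      have h4 := h1.trans h2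
      rw [ENNReal.ofReal_le_ofReal_iff (by positivity)] at h4
      linarith only [h3, h4]
    · -- volume
      calc volume {z | z ∈ ball p (2 * ρ1) ∧ 0 < θκ (u z)} ≤ volume (Z ∩ ball x (2 * R)) := by
            apply measure_mono
            rintro z ⟨hz1, hz2⟩
            refine ⟨?_, hVball (hpD' (ball_subset_ball (by linarith only [hρ10]) hz1)).1⟩
            by_contra hzZ
            have h5 := hu1 z hz1 hzZ
            have h6 : θκ (u z) = 0 := by
              apply hθ0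
              calc κ * u z ≤ κ * (X * δ ^ 2) := by gcongr
                _ = 1 := hκδ
            linarith only [h6, hz2]
        _ ≤ ENNReal.ofReal (τ₀ * (2 * R) ^ n) := hZ
        _ = ENNReal.ofReal (τ * ρ1 ^ n) := by
            congr 1
            rw [hτ, hRρ1, ← mul_assoc, mul_pow]; ring
    · intro t ht
      obtain ⟨z, hz1, hz2⟩ := hcon t ht
      refine ⟨z, hz1, ?_⟩
      apply hθ1
      calc (2 : ℝ) = κ * (2 * (X * δ ^ 2)) := by linarith only [hκδ]
        _ ≤ κ * u z := by gcongr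
  obtain ⟨t0, ⟨ht0a, ht0b⟩, ht0u⟩ := hsph
  have ht0D : closedBall p t0 ⊆ ball p (4 * ρ1) := closedBall_subset_ball (by linarith only [ht0b, hρ10])
  have hXδ : 2 * (X * δ ^ 2) = ε ^ 2 / 8 := by
    rw [hδ, div_pow, mul_pow, Real.sq_sqrt hX0.le]
    field_simp
    norm_num
  obtain ⟨O, hO, hOsub, hdO⟩ := H.top_lemma hn2 (p := p) (t := t0) (ε := ε) hε0
    (by rw [hε]; linarith only [ht0a, hρ10]) ((ht0D.trans hpD').trans (inter_subset_left.trans hVsub))
    (by
      intro x' hx' z hz hfz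
      by_contra hcon
      push Not at hcon
      have hx'D' : x' ∈ D' := hpD' (ht0D (sphere_subset_closedBall hx'))
      have hzD' : z ∈ D' := hpD' (ht0D hz)
      have h1 := hub x' hx'D' z hzD'.1 hfz δ (hsub' z hzD'.1 hzD'.2)
        ((hsm' z hzD'.1 hzD'.2).trans (closedBall_subset_closedBall (by linarith only [hδ0])))
        (by linarith only [hcon, hδε, hε0])
      have h2 := ht0u x' hx'
      rw [hXδ] at h2
      have h3 : ε / 2 ≤ dist z x' - δ := by linarith only [hcon, hδε, hε0]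
      have h4 : (ε / 2) ^ 2 ≤ (dist z x' - δ) ^ 2 := by
        apply pow_le_pow_left₀ (by positivity) h3
      nlinarith only [h1, h2, h4, hε0])
  have hinj : InjOn f (ball p t0 ∩ f ⁻¹' O) := by
    apply H.injOn_of_deg_one hn2 isOpen_ball _ hO hdO
    · intro z hz δ' hδ'
      have hzD' : z ∈ D' := hpD' (ht0D (ball_subset_closedBall hz))
      exact hlight z hzD'.1 hzD'.2 δ' hδ'
    · exact fun z hz => hVsub (hpD' (ht0D (ball_subset_closedBall hz))).1
  have hpD'' : p ∈ D' := hpD' (mem_ball_self (by linarith only [hρ10]))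
  have hcp : comp f D p s' ⊆ ball p (t0 - ε) := by
    refine (hsm' p hpD''.1 hpD''.2).trans (closedBall_subset_ball ?_)
    rw [hε] at hδε ⊢
    linarith only [hδε, ht0a, hρ10]
  refine H.bloch_of_injOn hn2 (hVsub hpD''.1) hs'0
    ((closure_mono (hsub' p hpD''.1 hpD''.2)).trans hVD) (hinj.mono ?_)
  intro z hz
  exact ⟨ball_subset_ball (by linarith only [hε0]) (hcp hz), hOsub z (hcp hz)⟩

end StepAux

end Pool.Agent.MP_dd09c0_an
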