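import Mathlib

/-!
# Numerical constants for the descent step
-/

namespace Pool.Agent.MP_dd09c0_an.StepAux

/-- `K X^b ≤ X^a` for large `X`. -/
theorem mul_pow_le {K X : ℝ} {a b : ℕ} (hX : 1 ≤ X) (hK : K ≤ X) (hab : b + 1 ≤ a) :
    K * X ^ b ≤ X ^ a := by
  have h0 : (0 : ℝ) ≤ X ^ b := by positivity
  calc K * X ^ b ≤ X * X ^ b := by gcongr
    _ = X ^ (b + 1) := by ring
    _ ≤ X ^ a := pow_le_pow_right₀ hX hab

/-- All numerical requirements of the step. -/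
theorem constants (n : ℕ) (hn : 3 ≤ n) (Cgs cin Csm Cff csp B : ℝ) (hgs : 1 ≤ Cgs)
    (hin : 0 < cin) (hin' : cin ≤ 1 / 64) (_hsm : 1 ≤ Csm) (hff : 1 ≤ Cff) (hsp : 0 < csp)
    (hB : 1 ≤ B) :
    ∃ a : ℕ, 1 ≤ a ∧ ∃ X₀ : ℝ, 1 ≤ X₀ ∧ ∀ X : ℝ, X₀ ≤ X → ∀ P Q : ℝ, P = Cgs * X ^ 2 →
      Q = (X * P ^ n) ^ 4 / cin →
      1 ≤ P ∧ 64 ≤ Q ∧ Cgs ≤ X ^ a ∧
      (320 * Csm * X ^ 2 * Q + P + 2) + 3 ≤ X ^ a ∧ 2 * Q ≤ X ^ a ∧
      (X ^ a)⁻¹ * (2 * Q) ^ n ≤ csp ∧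
      (6400 * B) ^ ((n : ℝ) - 1 / 2) * Cff * (2 ^ n * X) ^ (4 * n) * Q ^ (2 * n - 1 / 2 : ℝ)
        < csp * ((X ^ a)⁻¹ * (2 * Q) ^ n) ^ (-(1 / (2 * n)) : ℝ) := by
  set q0 : ℝ := Cgs ^ (4 * n) / cin with hq0
  set K3 : ℝ := (6400 * B) ^ ((n : ℝ) - 1 / 2) * Cff * (2 ^ n) ^ (4 * n) with hK3
  set b4 : ℕ := (8 * n + 4) * n + (4 * n + (8 * n + 4) * (2 * n)) * (2 * n) with hb4
  set K4 : ℝ := (2 * q0) ^ n * (K3 * q0 ^ (2 * n) / csp) ^ (2 * n) with hK4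
  have hCgs0 : 0 < Cgs := by linarith
  have hq0p : 0 < q0 := by positivity
  have hK3p : 0 < K3 := by positivity
  have hK4p : 0 < K4 := by positivity
  refine ⟨b4 + 8 * n + 10, by omega, max (Cgs + 1) (max (320 * Csm * q0 + Cgs + 5)
    (max (2 * q0) (max ((2 * q0) ^ n / csp) (K4 + 1)))), ?_, ?_⟩
  · exact le_trans (by linarith) (le_max_left _ _)
  intro X hX P Q hP hQ
  have h1 : Cgs + 1 ≤ X := le_trans (le_max_left _ _) hX
  have h2' := le_trans (le_max_right _ _) hX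
  have h2 : 320 * Csm * q0 + Cgs + 5 ≤ X := le_trans (le_max_left _ _) h2'
  have h3' := le_trans (le_max_right _ _) h2'
  have h3 : 2 * q0 ≤ X := le_trans (le_max_left _ _) h3'
  have h4' := le_trans (le_max_right _ _) h3'
  have h4 : (2 * q0) ^ n / csp ≤ X := le_trans (le_max_left _ _) h4'
  have h5 : K4 + 1 ≤ X := le_trans (le_max_right _ _) h4'
  have hX1 : 1 ≤ X := by linarith
  have hX0 : 0 < X := by linarith
  have hQe : Q = q0 * X ^ (8 * n + 4) := by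
    rw [hQ, hP, hq0]
    rw [mul_pow, mul_pow, mul_pow, ← pow_mul, ← pow_mul, ← pow_mul]
    field_simp
    ring
  have hP1 : 1 ≤ P := by
    rw [hP]
    have : (1 : ℝ) ≤ X ^ 2 := one_le_pow₀ hX1
    nlinarith
  have hq64 : 64 ≤ q0 := by
    rw [hq0, le_div_iff₀ hin]
    have : (1 : ℝ) ≤ Cgs ^ (4 * n) := one_le_pow₀ hgs
    nlinarith
  have hXp : ∀ m : ℕ, (1 : ℝ) ≤ X ^ m := fun m => one_le_pow₀ hX1
  have hQ64 : 64 ≤ Q := by
    rw [hQe]
    nlinarith [hXp (8 * n + 4)]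
  have hQ0 : 0 < Q := by linarith
  refine ⟨hP1, hQ64, ?_, ?_, ?_, ?_, ?_⟩
  · calc Cgs ≤ X := by linarith
      _ = X ^ 1 := (pow_one X).symm
      _ ≤ X ^ (b4 + 8 * n + 10) := pow_le_pow_right₀ hX1 (by omega)
  · have e1 : 320 * Csm * X ^ 2 * Q + P + 2 + 3
        ≤ (320 * Csm * q0 + Cgs + 5) * X ^ (8 * n + 6) := by
      have e2 : 320 * Csm * X ^ 2 * Q = 320 * Csm * q0 * X ^ (8 * n + 6) := by
        rw [hQe]; ring
      have e3 : P ≤ Cgs * X ^ (8 * n + 6) := by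
        rw [hP]
        have : X ^ 2 ≤ X ^ (8 * n + 6) := pow_le_pow_right₀ hX1 (by omega)
        gcongr
      have := hXp (8 * n + 6)
      nlinarith
    exact e1.trans (mul_pow_le hX1 h2 (by omega))
  · rw [hQe, ← mul_assoc]
    exact mul_pow_le hX1 h3 (by omega)
  · rw [inv_mul_le_iff₀ (by positivity), hQe]
    have e1 : (2 * (q0 * X ^ (8 * n + 4))) ^ n = (2 * q0) ^ n * X ^ ((8 * n + 4) * n) := by
      rw [← mul_assoc, mul_pow _ (X ^ _), ← pow_mul]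
    rw [e1]
    have e2 : (2 * q0) ^ n * X ^ ((8 * n + 4) * n) / csp
        ≤ X ^ (b4 + 8 * n + 10) := by
      have := mul_pow_le (K := (2 * q0) ^ n / csp) (b := (8 * n + 4) * n)
        (a := b4 + 8 * n + 10) hX1 h4 (by
          have : (8 * n + 4) * n ≤ b4 := by rw [hb4]; exact Nat.le_add_right _ _
          omega)
      calc (2 * q0) ^ n * X ^ ((8 * n + 4) * n) / csp
          = (2 * q0) ^ n / csp * X ^ ((8 * n + 4) * n) := by ring
        _ ≤ _ := this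
    rwa [div_le_iff₀ hsp] at e2
  · set a := b4 + 8 * n + 10 with ha
    set τ : ℝ := (X ^ a)⁻¹ * (2 * Q) ^ n with hτ
    have hτ0 : 0 < τ := by positivity
    set M : ℝ := K3 * X ^ (4 * n) * Q ^ (2 * n) / csp with hM
    have hM0 : 0 < M := by positivity
    have hn0 : (0 : ℝ) < 2 * n := by positivity
    have hkey : M ^ (2 * n) < τ⁻¹ := by
      rw [hτ, mul_inv, inv_inv, ← div_eq_mul_inv, lt_div_iff₀ (by positivity)]
      have e1 : M ^ (2 * n) * (2 * Q) ^ n = K4 * X ^ b4 := by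
        rw [hM, hQe, hK4, hb4]
        rw [div_pow, div_pow, mul_pow, mul_pow, mul_pow, mul_pow, mul_pow, mul_pow, mul_pow,
          mul_pow]
        simp only [← pow_mul]
        rw [pow_add X]
        have : X ^ ((4 * n + (8 * n + 4) * (2 * n)) * (2 * n))
            = X ^ (4 * n * (2 * n)) * X ^ ((8 * n + 4) * (2 * n) * (2 * n)) := by
          rw [← pow_add]; congr 1; ring
        rw [this]
        ring
      rw [e1]
      calc K4 * X ^ b4 < (K4 + 1) * X ^ b4 := by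
            have := hXp b4
            nlinarith
        _ ≤ X ^ a := mul_pow_le hX1 h5 (by omega)
    have hM2 : M < τ ^ (-(1 / (2 * n)) : ℝ) := by
      have e1 : M = (M ^ (2 * n)) ^ (1 / (2 * n) : ℝ) := by
        rw [← Real.rpow_natCast M (2 * n), ← Real.rpow_mul hM0.le]
        push_cast
        rw [mul_one_div_cancel hn0.ne', Real.rpow_one]
      rw [Real.rpow_neg hτ0.le, ← Real.inv_rpow hτ0.le, e1]
      exact Real.rpow_lt_rpow (by positivity) hkey (by positivity)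
    have e5 : (6400 * B) ^ ((n : ℝ) - 1 / 2) * Cff * (2 ^ n * X) ^ (4 * n)
        * Q ^ (2 * n - 1 / 2 : ℝ) ≤ csp * M := by
      have e6 : Q ^ (2 * n - 1 / 2 : ℝ) ≤ Q ^ (2 * n) := by
        rw [← Real.rpow_natCast Q (2 * n)]
        apply Real.rpow_le_rpow_of_exponent_le (by linarith)
        push_cast
        linarith
      rw [hM, mul_div_cancel₀ _ hsp.ne', hK3, mul_pow (2 ^ n) X]
      calc (6400 * B) ^ ((n : ℝ) - 1 / 2) * Cff * ((2 ^ n) ^ (4 * n) * X ^ (4 * n))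
            * Q ^ (2 * n - 1 / 2 : ℝ)
          ≤ (6400 * B) ^ ((n : ℝ) - 1 / 2) * Cff * ((2 ^ n) ^ (4 * n) * X ^ (4 * n))
            * Q ^ (2 * n) := by gcongr
        _ = _ := by ring
    calc _ ≤ csp * M := e5
      _ < _ := by gcongr

end Pool.Agent.MP_dd09c0_an.StepAux
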