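import Pool.Agent.MP_dd09c0_an.Defs

/-!
# MP_dd09c0_an, module I: auxiliary results for the topological lemma
-/

open MeasureTheory Metric Set Filter Topology
open scoped ENNReal NNReal ContDiff RealInnerProductSpace Manifold

namespace Pool.Agent.MP_dd09c0_an

variable {n : ℕ}

namespace TopAux

/-- a smooth map close to the inverse correspondence of `f` on `S` -/
theorem exists_G {S : Set (E n)} {f : E n → E n} (hb : Bornology.IsBounded (f '' S))
    {p0 : E n} {κ ε : ℝ} (hκ : 0 < κ)
    (h : ∀ x ∈ S, ∀ x' ∈ S, dist (f x) (f x') < 4 * κ → dist x x' < 2 * ε) :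
    ∃ G : E n → E n, ContDiff ℝ ∞ G ∧
      (∀ y, ∀ x ∈ S, dist y (f x) < κ → dist (G y) x < 2 * ε) ∧
      ∃ R : ℝ, 0 < R ∧ ∀ y, R ≤ ‖y‖ → G y = p0 := by
  obtain ⟨R0, hR0pos, hR0⟩ := hb.exists_pos_norm_le
  set R := R0 + 4 * κ with hR
  have hconv : ∀ y : E n, Convex ℝ {v : E n | (∀ x ∈ S, dist y (f x) < κ → dist v x < 2 * ε) ∧
      (R ≤ ‖y‖ → v = p0)} := by
    intro y v hv w hw a b ha hb hab
    refine ⟨fun x hx hxy => ?_, fun hy => ?_⟩
    · exact convex_ball x (2 * ε) (hv.1 x hx hxy) (hw.1 x hx hxy) ha hb hab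
    · rw [hv.2 hy, hw.2 hy, ← add_smul, hab, one_smul]
  obtain ⟨g, hg⟩ := exists_contMDiffMap_forall_mem_convex_of_local_const (n := (⊤ : ℕ∞)) 𝓘(ℝ, E n)
    (t := fun y : E n => {v : E n | (∀ x ∈ S, dist y (f x) < κ → dist v x < 2 * ε) ∧
      (R ≤ ‖y‖ → v = p0)}) hconv (fun y₀ => by
        by_cases hc : ∃ x0 ∈ S, dist y₀ (f x0) < 2 * κ
        · obtain ⟨x0, hx0, hy0⟩ := hc
          refine ⟨x0, ?_⟩
          filter_upwards [ball_mem_nhds y₀ hκ] with y hy
          refine ⟨fun x hx hxy => ?_, fun hyR => ?_⟩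
          · refine h x0 hx0 x hx ?_
            have h1 := dist_triangle (f x0) y₀ (f x)
            have h2 := dist_triangle y₀ y (f x)
            rw [mem_ball, dist_comm] at hy
            rw [dist_comm] at hy0
            linarith
          · exfalso
            have h1 := hR0 _ (mem_image_of_mem f hx0)
            rw [mem_ball] at hy
            have h2 : ‖y‖ ≤ ‖f x0‖ + dist y (f x0) := by
              have := norm_le_norm_add_norm_sub' y (f x0)
              rw [dist_eq_norm]; exact this
            have h3 := dist_triangle y y₀ (f x0)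
            linarith
        · push Not at hc
          refine ⟨p0, ?_⟩
          filter_upwards [ball_mem_nhds y₀ hκ] with y hy
          refine ⟨fun x hx hxy => ?_, fun _ => rfl⟩
          exfalso
          have h1 := hc x hx
          rw [mem_ball, dist_comm] at hy
          linarith [dist_triangle y₀ y (f x)])
  refine ⟨g, g.contMDiff.contDiff, fun y x hx hxy => (hg y).1 x hx hxy, R, by positivity,
    fun y hy => (hg y).2 hy⟩

/-- the determinant is a smooth function -/
theorem contDiff_det : ContDiff ℝ ∞ (fun L : E n →L[ℝ] E n => L.det) := by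
  have e : (fun L : E n →L[ℝ] E n => L.det) = fun L : E n →L[ℝ] E n =>
      ∑ σ : Equiv.Perm (Fin n), ((Equiv.Perm.sign σ : ℤ) : ℝ) *
        ∏ i, (L (EuclideanSpace.single i 1)) (σ i) := by
    funext L
    have h1 : L.det = Matrix.det (LinearMap.toMatrix (EuclideanSpace.basisFun (Fin n) ℝ).toBasis
        (EuclideanSpace.basisFun (Fin n) ℝ).toBasis (L : E n →ₗ[ℝ] E n)) :=
      (LinearMap.det_toMatrix _ _).symm
    rw [h1, Matrix.det_apply]
    refine Finset.sum_congr rfl fun σ _ => ?_
    rw [Units.smul_def, zsmul_eq_mul]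
    congr 1
  rw [e]
  refine ContDiff.sum fun σ _ => contDiff_const.mul (contDiff_prod fun i _ => ?_)
  have h2 : ContDiff ℝ ∞ (fun L : E n →L[ℝ] E n => L (EuclideanSpace.single i 1)) :=
    contDiff_id.clm_apply contDiff_const
  exact (EuclideanSpace.proj (𝕜 := ℝ) (σ i)).contDiff.comp h2

theorem contDiff_det_fderiv {G : E n → E n} (hG : ContDiff ℝ ∞ G) :
    ContDiff ℝ ∞ (fun y => (fderiv ℝ G y).det) :=
  contDiff_det.comp (hG.fderiv_right (m := ∞) (by simp))

/-- the frontier of a component of an open set lies outside the open set -/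
theorem frontier_component {U : Set (E n)} (hU : IsOpen U) (x z : E n)
    (hz : z ∈ frontier (connectedComponentIn U x)) : z ∉ U := by
  intro hzU
  have ho : IsOpen (connectedComponentIn U x) := hU.connectedComponentIn
  have ho' : IsOpen (connectedComponentIn U z) := hU.connectedComponentIn
  have hzc : z ∈ closure (connectedComponentIn U x) := frontier_subset_closure hz
  have hzz : z ∈ connectedComponentIn U z := mem_connectedComponentIn hzU
  obtain ⟨y, hy1, hy2⟩ := mem_closure_iff.1 hzc _ ho' hzz
  have e1 := connectedComponentIn_eq hy1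
  have e2 := connectedComponentIn_eq hy2
  rw [ho.frontier_eq] at hz
  apply hz.2
  rw [e2, ← e1]
  exact hzz

/-- a preconnected set meeting an open set and its complement meets the frontier -/
theorem exists_mem_frontier {T O : Set (E n)} (hT : IsPreconnected T) (hO : IsOpen O)
    {a b : E n} (ha : a ∈ T) (hb : b ∈ T) (haO : a ∈ O) (hbO : b ∉ O) :
    ∃ q ∈ T, q ∈ frontier O := by
  by_contra hcon
  push Not at hcon
  have hsub : T ⊆ O ∪ (closure O)ᶜ := by
    intro q hq
    by_cases hqO : q ∈ O
    · exact Or.inl hqO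
    · right
      intro hqc
      apply hcon q hq
      rw [hO.frontier_eq]
      exact ⟨hqc, hqO⟩
  have hdis : Disjoint O (closure O)ᶜ :=
    disjoint_left.2 fun q h1 h2 => h2 (subset_closure h1)
  have h1 := hT.subset_left_of_subset_union hO isClosed_closure.isOpen_compl hdis hsub ⟨a, ha, haO⟩
  exact hbO (h1 hb)

/-- cutting off a smooth function that vanishes near the frontier -/
theorem contDiff_indicator {O N : Set (E n)} (hO : IsOpen O) (hN : IsOpen N)
    (hfr : frontier O ⊆ N) {η : E n → ℝ} (hη : ContDiff ℝ ∞ η) (h0 : ∀ y ∈ N, η y = 0) :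
    ContDiff ℝ ∞ (O.indicator η) ∧ tsupport (O.indicator η) ⊆ O := by
  constructor
  · rw [contDiff_iff_contDiffAt]
    intro y
    by_cases hy : y ∈ O
    · refine hη.contDiffAt.congr_of_eventuallyEq ?_
      filter_upwards [hO.mem_nhds hy] with z hz
      exact indicator_of_mem hz η
    by_cases hyN : y ∈ N
    · refine (contDiffAt_const (c := (0 : ℝ))).congr_of_eventuallyEq ?_
      filter_upwards [hN.mem_nhds hyN] with z hz
      by_cases hzO : z ∈ O
      · rw [indicator_of_mem hzO, h0 z hz]
      · rw [indicator_of_notMem hzO]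
    · have hyc : y ∉ closure O := by
        intro hc
        apply hyN
        apply hfr
        rw [hO.frontier_eq]
        exact ⟨hc, hy⟩
      refine (contDiffAt_const (c := (0 : ℝ))).congr_of_eventuallyEq ?_
      filter_upwards [isClosed_closure.isOpen_compl.mem_nhds hyc] with z hz
      exact indicator_of_notMem (fun h => hz (subset_closure h)) η
  · intro y hy
    by_contra hyO
    have hyc : y ∈ closure O := by
      refine closure_mono ?_ hy
      intro z hz
      by_contra hzO
      exact hz (indicator_of_notMem hzO η)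
    have hyN : y ∈ N := by
      apply hfr
      rw [hO.frontier_eq]
      exact ⟨hyc, hyO⟩
    obtain ⟨z, hz1, hz2⟩ := mem_closure_iff.1 hy N hN hyN
    apply hz2
    by_cases hzO : z ∈ O
    · rw [indicator_of_mem hzO, h0 z hz1]
    · rw [indicator_of_notMem hzO]

/-- uniform injectivity up to `ε` -/
theorem exists_kappa {S : Set (E n)} (hS : IsCompact S) {f : E n → E n} (hf : Continuous f)
    {ε : ℝ} (hε : 0 < ε) (h : ∀ x ∈ S, ∀ z ∈ S, f z = f x → dist z x ≤ ε) :
    ∃ κ > 0, ∀ x ∈ S, ∀ x' ∈ S, dist (f x) (f x') < 4 * κ → dist x x' < 2 * ε := by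
  set T : Set (E n × E n) := (S ×ˢ S) ∩ {q | 2 * ε ≤ dist q.1 q.2} with hT
  have hTc : IsCompact T := (hS.prod hS).inter_right
    (isClosed_le continuous_const (continuous_fst.dist continuous_snd))
  rcases T.eq_empty_or_nonempty with hE | hne
  · refine ⟨1, one_pos, fun x hx x' hx' _ => ?_⟩
    by_contra hcon
    push Not at hcon
    have : (x, x') ∈ T := ⟨⟨hx, hx'⟩, hcon⟩
    rw [hE] at this
    exact this
  · have hcq : ContinuousOn (fun q : E n × E n => dist (f q.1) (f q.2)) T :=
      ((hf.comp continuous_fst).dist (hf.comp continuous_snd)).continuousOn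
    obtain ⟨q, hq, hmin⟩ := hTc.exists_isMinOn hne hcq
    have hpos : 0 < dist (f q.1) (f q.2) := by
      rw [dist_pos]
      intro heq
      have h1 := h q.2 hq.1.2 q.1 hq.1.1 heq
      have h2 : 2 * ε ≤ dist q.1 q.2 := hq.2
      linarith
    refine ⟨dist (f q.1) (f q.2) / 4, by positivity, fun x hx x' hx' hxx => ?_⟩
    by_contra hcon
    push Not at hcon
    have h3 : (x, x') ∈ T := ⟨⟨hx, hx'⟩, hcon⟩
    have h4 := (isMinOn_iff.1 hmin) (x, x') h3
    dsimp only at h4
    linarith

end TopAux

end Pool.Agent.MP_dd09c0_an
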