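import Pool.Agent.MP_dd09c0_an.Cutoff
import Pool.Agent.MP_dd09c0_an.WDcalc
import Pool.Agent.MP_dd09c0_an.WDug
import Pool.Agent.MP_dd09c0_an.CompTop
import Pool.Agent.MP_dd09c0_an.Cap
import Pool.Agent.MP_dd09c0_an.Energy

/-! # Module P1: lower bound for the volume of components -/

open MeasureTheory Metric Set Filter Topology
open scoped ENNReal NNReal ContDiff RealInnerProductSpace

namespace Pool.Agent.MP_dd09c0_an

namespace VolLowerAux

variable {n : ℕ}

/-- the volume of the unit ball as a real number -/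
noncomputable def W (n : ℕ) : ℝ := (volume (ball (0 : E n) 1)).toReal

theorem W_pos (hn : 1 ≤ n) : 0 < W n := by
  haveI : Nonempty (Fin n) := ⟨⟨0, hn⟩⟩
  exact ENNReal.toReal_pos (measure_ball_pos volume _ one_pos).ne' measure_ball_lt_top.ne

theorem ofReal_W : ENNReal.ofReal (W n) = volume (ball (0 : E n) 1) :=
  ENNReal.ofReal_toReal measure_ball_lt_top.ne

theorem volume_ball_eq (x : E n) {r : ℝ} (hr : 0 < r) :
    volume (ball x r) = ENNReal.ofReal (r ^ n * W n) := by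
  rw [MeasureTheory.Measure.addHaar_ball_of_pos volume x hr, finrank_euclideanSpace_fin,
    ENNReal.ofReal_mul (by positivity), ofReal_W]

theorem real_bound {a P X R : ℝ} (hn : 1 ≤ n) (ha : 1 ≤ a) (hP : 1 ≤ P) (hX : 1 ≤ X)
    (hR : 0 < R) :
    (a * P ^ n * X) ^ (1 - 1 / (2 * n) : ℝ) * (X * (2 * R) ^ n) ^ (1 / (2 * n) : ℝ) ≤
      2 * a * (X * P ^ n) * R ^ (1 / 2 : ℝ) := by
  have hn0 : (0 : ℝ) < n := by exact_mod_cast hn
  have hn1 : (1 : ℝ) ≤ n := by exact_mod_cast hn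
  have haP : 1 ≤ a * P ^ n := by
    have : 1 ≤ P ^ n := one_le_pow₀ hP
    nlinarith
  have hX0 : 0 < X := by linarith
  have e1 : 0 ≤ (1 - 1 / (2 * n) : ℝ) := by
    have : 1 / (2 * n : ℝ) ≤ 1 := by
      rw [div_le_one (by positivity)]; linarith
    linarith
  have h1 : (a * P ^ n * X) ^ (1 - 1 / (2 * n) : ℝ) ≤ (a * P ^ n) * X ^ (1 - 1 / (2 * n) : ℝ) := by
    rw [Real.mul_rpow (by linarith) hX0.le]
    apply mul_le_mul_of_nonneg_right _ (Real.rpow_nonneg hX0.le _)
    calc (a * P ^ n) ^ (1 - 1 / (2 * n) : ℝ) ≤ (a * P ^ n) ^ (1 : ℝ) := by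
          apply Real.rpow_le_rpow_of_exponent_le haP
          have : 0 ≤ 1 / (2 * n : ℝ) := by positivity
          linarith
      _ = a * P ^ n := Real.rpow_one _
  have h2 : (X * (2 * R) ^ n) ^ (1 / (2 * n) : ℝ) = X ^ (1 / (2 * n) : ℝ) * (2 * R) ^ (1 / 2 : ℝ) := by
    rw [Real.mul_rpow hX0.le (by positivity), ← Real.rpow_natCast (2 * R) n, ← Real.rpow_mul
      (by positivity)]
    congr 2
    field_simp
  have h3 : (2 * R) ^ (1 / 2 : ℝ) ≤ 2 * R ^ (1 / 2 : ℝ) := by
    rw [Real.mul_rpow (by norm_num) hR.le]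
    apply mul_le_mul_of_nonneg_right _ (Real.rpow_nonneg hR.le _)
    calc (2 : ℝ) ^ (1 / 2 : ℝ) ≤ 2 ^ (1 : ℝ) :=
          Real.rpow_le_rpow_of_exponent_le (by norm_num) (by norm_num)
      _ = 2 := Real.rpow_one _
  rw [h2]
  calc (a * P ^ n * X) ^ (1 - 1 / (2 * n) : ℝ) * (X ^ (1 / (2 * n) : ℝ) * (2 * R) ^ (1 / 2 : ℝ))
      ≤ ((a * P ^ n) * X ^ (1 - 1 / (2 * n) : ℝ)) *
        (X ^ (1 / (2 * n) : ℝ) * (2 * R ^ (1 / 2 : ℝ))) := by
        apply mul_le_mul h1 _ (by positivity) (by positivity)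
        apply mul_le_mul_of_nonneg_left h3 (Real.rpow_nonneg hX0.le _)
    _ = 2 * a * P ^ n * R ^ (1 / 2 : ℝ) * (X ^ (1 - 1 / (2 * n) : ℝ) * X ^ (1 / (2 * n) : ℝ)) := by
        ring
    _ = 2 * a * (X * P ^ n) * R ^ (1 / 2 : ℝ) := by
        rw [← Real.rpow_add hX0, sub_add_cancel, Real.rpow_one]; ring

/-- The cut-off function of a component, with its energy. -/
theorem energy_cut (n : ℕ) (hn : 3 ≤ n) : ∃ C : ℝ, 1 ≤ C ∧ ∀ (D : Set (E n)) (f : E n → E n)
    (Df : E n → E n →L[ℝ] E n) (K : E n → ℝ), GM n D f Df K → ∀ (x : E n) (t P R X : ℝ) (k : ℕ),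
    0 < t → 1 ≤ P → 1 ≤ X → 0 < R → closedBall x (8 * R) ⊆ D →
    comp f D x (t * (1 + 1 / P)) ⊆ closedBall x R →
    HasDeg f Df (comp f D x (t * (1 + 1 / P))) (ball (f x) (t * (1 + 1 / P))) k → (k : ℝ) ≤ X →
    ∫⁻ z in ball x (2 * R), ENNReal.ofReal (K z) ^ (2 * n - 1) ≤ ENNReal.ofReal (X * (2 * R) ^ n) →
    ∃ (w : E n → ℝ) (G : E n → ℝ≥0∞), UG D w G ∧ Measurable G ∧ (∀ z, 0 ≤ w z ∧ w z ≤ 1) ∧
      (∀ z ∈ comp f D x (t * (1 + 1 / P)), dist (f z) (f x) ≤ t → w z = 1) ∧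
      (∀ z, z ∉ comp f D x (t * (1 + 1 / P)) → w z = 0) ∧
      ∫⁻ z, G z ^ pex n ≤ ENNReal.ofReal (C * (X * P ^ n) * R ^ (1 / 2 : ℝ)) := by
  obtain ⟨C₀, hC₀, hcut⟩ := exists_cutoff n
  have hn1 : 1 ≤ n := by omega
  have hn2 : 2 ≤ n := by omega
  have hWpos := W_pos hn1
  have h4C : 1 ≤ (4 * C₀) ^ n := one_le_pow₀ (by linarith)
  refine ⟨2 * ((4 * C₀) ^ n * (W n + 1)), by nlinarith, ?_⟩
  intro D f Df K H x t P R X k ht hP hX hR hD hU hdeg hk hK
  have hP0 : 0 < P := by linarith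
  have hX0 : 0 < X := by linarith
  set t₂ : ℝ := t * (1 + 1 / P) with ht₂
  have ht₂t : t₂ ≤ 2 * t := by
    have : 1 / P ≤ 1 := by rw [div_le_one hP0]; exact hP
    rw [ht₂]; nlinarith
  set U : Set (E n) := comp f D x t₂ with hUdef
  set b : ℝ := t * (1 + 1 / (2 * P)) with hb
  have htb : t < b := by
    have : 0 < 1 / (2 * P) := by positivity
    rw [hb]; nlinarith
  have hbt₂ : b < t₂ := by
    have : 1 / (2 * P) < 1 / P := by
      apply one_div_lt_one_div_of_lt hP0; linarith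
    rw [hb, ht₂]
    exact mul_lt_mul_of_pos_left (by linarith) ht
  have ht₂0 : 0 < t₂ := by linarith
  obtain ⟨Φ, hΦs, hΦ01, hΦ1, hΦ0, hΦd⟩ := hcut (f x) t b ht htb
  have hUopen : IsOpen U := isOpen_comp H.cont H.isOpen x t₂
  have hclU : closure U ⊆ D := by
    refine (closure_minimal hU isClosed_closedBall).trans (Subset.trans ?_ hD)
    exact closedBall_subset_closedBall (by linarith)
  -- the weak derivative
  have hwd := H.wd_comp' hn2 hΦs
  have hwdU := WD.indicator H.isOpen hwd hUopen (by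
    intro z hz hzf
    have h1 := dist_of_mem_frontier_comp H.cont H.isOpen hclU hzf
    have h2 : ∀ᶠ z' in 𝓝 z, b < dist (f z') (f x) := by
      have hc : Continuous fun z' => dist (f z') (f x) := H.cont.dist continuous_const
      exact hc.continuousAt.eventually (lt_mem_nhds (by simp only; rw [h1]; exact hbt₂))
    exact h2.mono fun z' hz' => hΦ0 _ hz'.le)
  have hug := WD.ug H.isOpen hwdU
  refine ⟨_, _, hug, ?_, ?_, ?_, ?_, ?_⟩
  · -- measurability
    apply Measurable.enorm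
    apply Measurable.indicator _ hUopen.measurableSet
    have hc : Continuous fun q : (E n →L[ℝ] ℝ) × (E n →L[ℝ] E n) => q.1.comp q.2 :=
      continuous_fst.clm_comp continuous_snd
    have h1 : Measurable fun z => fderiv ℝ Φ (f z) :=
      ((hΦs.continuous_fderiv (by simp)).comp H.cont).measurable
    exact hc.measurable.comp (h1.prodMk H.meas)
  · intro z
    by_cases hz : z ∈ U
    · rw [indicator_of_mem hz]; exact hΦ01 _
    · rw [indicator_of_notMem hz]; exact ⟨le_rfl, zero_le_one⟩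
  · intro z hz hd
    rw [indicator_of_mem hz]
    exact hΦ1 _ hd
  · intro z hz
    rw [indicator_of_notMem hz]
  · -- energy
    have hp : 0 < pex n := by
      have : (3 : ℝ) ≤ n := by exact_mod_cast hn
      rw [pex]; linarith
    set g : ℝ := C₀ / (b - t) with hg
    have hbt : b - t = t / (2 * P) := by rw [hb]; ring
    have hg' : g = 2 * C₀ * P / t := by
      rw [hg, hbt]; field_simp
    have hg0 : 0 ≤ g := by rw [hg']; positivity
    have h1 : ∫⁻ z, ‖U.indicator (fun z => (fderiv ℝ Φ (f z)).comp (Df z)) z‖ₑ ^ pex n ≤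
        ∫⁻ z in U, (ENNReal.ofReal g * ‖Df z‖ₑ) ^ pex n := by
      rw [← lintegral_indicator hUopen.measurableSet]
      apply lintegral_mono
      intro z
      by_cases hz : z ∈ U
      · simp only [indicator_of_mem hz]
        apply ENNReal.rpow_le_rpow _ hp.le
        have h2 : ‖(fderiv ℝ Φ (f z)).comp (Df z)‖ ≤ g * ‖Df z‖ :=
          (ContinuousLinearMap.opNorm_comp_le _ _).trans
            (mul_le_mul_of_nonneg_right (hΦd _) (norm_nonneg _))
        rw [← ofReal_norm, ← ofReal_norm, ← ENNReal.ofReal_mul hg0]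
        exact ENNReal.ofReal_le_ofReal h2
      · simp only [indicator_of_notMem hz]
        have h0 : ‖(0 : E n →L[ℝ] ℝ)‖ₑ = 0 := by
          rw [← ofReal_norm, norm_zero, ENNReal.ofReal_zero]
        exact le_of_eq ((congrArg (fun s : ℝ≥0∞ => s ^ pex n) h0).trans
          (ENNReal.zero_rpow_of_pos hp))
    have h2 := H.energy_le hn2 U (fun _ => ENNReal.ofReal g) measurable_const
    refine h1.trans (h2.trans ?_)
    have hA : ∫⁻ z in U, ENNReal.ofReal g ^ n * ENNReal.ofReal (Df z).det ≤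
        ENNReal.ofReal ((4 * C₀) ^ n * (W n + 1) * P ^ n * X) := by
      have hint : ∫⁻ z in U, ENNReal.ofReal (Df z).det = k * volume (ball (f x) t₂) := by
        have h3 := hdeg (fun _ => 1) measurable_const
        simp only [one_mul, lintegral_const, Measure.restrict_apply MeasurableSet.univ,
          univ_inter] at h3
        rw [inter_eq_self_of_subset_left] at h3
        · exact h3
        · exact (comp_subset f D x t₂).trans inter_subset_right
      rw [lintegral_const_mul' _ _ (ENNReal.pow_ne_top ENNReal.ofReal_ne_top), hint,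
        volume_ball_eq _ ht₂0, ← ENNReal.ofReal_pow hg0, ← ENNReal.ofReal_natCast,
        ← ENNReal.ofReal_mul (by positivity), ← ENNReal.ofReal_mul (by positivity)]
      apply ENNReal.ofReal_le_ofReal
      have h5 : t₂ ^ n ≤ (2 * t) ^ n := pow_le_pow_left₀ ht₂0.le ht₂t n
      calc g ^ n * (k * (t₂ ^ n * W n)) ≤ g ^ n * (X * ((2 * t) ^ n * (W n + 1))) := by
            apply mul_le_mul_of_nonneg_left _ (by positivity)
            apply mul_le_mul hk _ (by positivity) hX0.le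
            apply mul_le_mul h5 (by linarith) hWpos.le (by positivity)
        _ = (g * (2 * t)) ^ n * X * (W n + 1) := by rw [mul_pow g (2 * t)]; ring
        _ = (4 * C₀ * P) ^ n * X * (W n + 1) := by
            have e : g * (2 * t) = 4 * C₀ * P := by rw [hg']; field_simp; ring
            rw [e]
        _ = (4 * C₀) ^ n * (W n + 1) * P ^ n * X := by rw [mul_pow]; ring
    have hB : ∫⁻ z in U, ENNReal.ofReal (K z) ^ (2 * n - 1) ≤ ENNReal.ofReal (X * (2 * R) ^ n) := by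
      refine le_trans (lintegral_mono_set ?_) hK
      exact hU.trans (closedBall_subset_ball (by linarith))
    have hn0 : (0 : ℝ) < n := by exact_mod_cast hn1
    have he1 : 0 ≤ (1 - 1 / (2 * n) : ℝ) := by
      have h3 : (3 : ℝ) ≤ n := by exact_mod_cast hn
      have : 1 / (2 * n : ℝ) ≤ 1 := by
        rw [div_le_one (by positivity)]; linarith
      linarith
    have he2 : 0 ≤ (1 / (2 * n) : ℝ) := by positivity
    calc _ ≤ ENNReal.ofReal ((4 * C₀) ^ n * (W n + 1) * P ^ n * X) ^ (1 - 1 / (2 * n) : ℝ) *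
          ENNReal.ofReal (X * (2 * R) ^ n) ^ (1 / (2 * n) : ℝ) :=
          mul_le_mul' (ENNReal.rpow_le_rpow hA he1) (ENNReal.rpow_le_rpow hB he2)
      _ = ENNReal.ofReal (((4 * C₀) ^ n * (W n + 1) * P ^ n * X) ^ (1 - 1 / (2 * n) : ℝ) *
          (X * (2 * R) ^ n) ^ (1 / (2 * n) : ℝ)) := by
          rw [ENNReal.ofReal_rpow_of_nonneg (by positivity) he1,
            ENNReal.ofReal_rpow_of_nonneg (by positivity) he2, ← ENNReal.ofReal_mul (by positivity)]
      _ ≤ _ := ENNReal.ofReal_le_ofReal (real_bound hn1 (by nlinarith) hP hX hR)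

end VolLowerAux

open VolLowerAux in
theorem volume_lower (n : ℕ) (hn : 3 ≤ n) : ∃ c : ℝ, 0 < c ∧ ∀ (D : Set (E n)) (f : E n → E n)
    (Df : E n → E n →L[ℝ] E n) (K : E n → ℝ), GM n D f Df K → ∀ (x : E n) (t P R X : ℝ) (k : ℕ),
    0 < t → 1 ≤ P → 1 ≤ X → 0 < R → closedBall x (8 * R) ⊆ D →
    comp f D x (t * (1 + 1 / P)) ⊆ closedBall x R → ¬ comp f D x t ⊆ ball x (R / 2) →
    HasDeg f Df (comp f D x (t * (1 + 1 / P))) (ball (f x) (t * (1 + 1 / P))) k → (k : ℝ) ≤ X →
    ∫⁻ z in ball x (2 * R), ENNReal.ofReal (K z) ^ (2 * n - 1) ≤ ENNReal.ofReal (X * (2 * R) ^ n) →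
    ENNReal.ofReal ((c * R / (X * P ^ n) ^ 2) ^ n) ≤ volume (comp f D x (t * (1 + 1 / P))) := by
  obtain ⟨C, hC, hcut⟩ := energy_cut n hn
  have hn1 : 1 ≤ n := by omega
  have hn2 : 2 ≤ n := by omega
  obtain ⟨c, hc, hcap⟩ := cap_star n hn2
  have hWpos := W_pos hn1
  -- the constants
  set c₁ : ℝ := min 1 ((c / (4 * C)) ^ 2) with hc₁
  have hc₁0 : 0 < c₁ := by rw [hc₁]; positivity
  have hc₁1 : c₁ ≤ 1 := min_le_left _ _
  have hc₁2 : c₁ ≤ (c / (4 * C)) ^ 2 := min_le_right _ _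
  set θ : ℝ := min 1 (W n / 4) with hθ
  have hθ0 : 0 < θ := by rw [hθ]; positivity
  have hθ1 : θ ≤ 1 := min_le_left _ _
  have hθ2 : θ ≤ W n / 4 := min_le_right _ _
  refine ⟨c₁ * θ, by positivity, ?_⟩
  intro D f Df K H x t P R X k ht hP hX hR hD hU hU1 hdeg hk hK
  obtain ⟨w, G, hug, hGm, hw01, hw1, hw0, hE⟩ := hcut D f Df K H x t P R X k ht hP hX hR hD hU hdeg
    hk hK
  have hP0 : 0 < P := by linarith
  have hX0 : 0 < X := by linarith
  set Y : ℝ := X * P ^ n with hY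
  have hY1 : 1 ≤ Y := by
    have : 1 ≤ P ^ n := one_le_pow₀ hP
    rw [hY]; nlinarith
  have hY0 : 0 < Y := by linarith
  set t₂ : ℝ := t * (1 + 1 / P) with ht₂
  have htt₂ : t < t₂ := by
    have : 0 < 1 / P := by positivity
    rw [ht₂]; nlinarith
  set U : Set (E n) := comp f D x t₂ with hUdef
  set ρ : ℝ := c₁ * R / Y ^ 2 with hρ
  have hρ0 : 0 < ρ := by positivity
  have hρR : ρ ≤ R := by
    rw [hρ, div_le_iff₀ (by positivity)]
    have : 1 ≤ Y ^ 2 := one_le_pow₀ hY1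
    nlinarith
  have hxD : x ∈ D := hD (mem_closedBall_self (by positivity))
  have hUopen : IsOpen U := isOpen_comp H.cont H.isOpen x t₂
  have hU1U : comp f D x t ⊆ U :=
    comp_mono_of (mem_comp hxD (by linarith)) (ball_subset_ball htt₂.le)
  by_contra hcon
  rw [not_le] at hcon
  -- the volume of `U` is small
  have hvol : volume U ≤ ENNReal.ofReal (ρ ^ n * W n / 4) := by
    refine hcon.le.trans (ENNReal.ofReal_le_ofReal ?_)
    have e1 : c₁ * θ * R / Y ^ 2 = ρ * θ := by rw [hρ]; ring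
    rw [e1, mul_pow]
    have h1 : θ ^ n ≤ θ := by
      calc θ ^ n ≤ θ ^ 1 := pow_le_pow_of_le_one hθ0.le hθ1 hn1
        _ = θ := pow_one _
    calc ρ ^ n * θ ^ n ≤ ρ ^ n * (W n / 4) :=
          mul_le_mul_of_nonneg_left (h1.trans hθ2) (by positivity)
      _ = ρ ^ n * W n / 4 := by ring
  -- the averages are small
  have havg : ∀ z ∈ comp f D x t, 1 / 4 ≤ |w z - ⨍ y in ball z ρ, w y| := by
    intro z hz
    have hz1 : w z = 1 := by
      refine hw1 z (hU1U hz) ?_
      have h0 : dist (f z) (f x) < t := (comp_subset f D x t hz).2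
      exact h0.le
    have hbv : volume (ball z ρ) = ENNReal.ofReal (ρ ^ n * W n) := volume_ball_eq z hρ0
    have hbr : volume.real (ball z ρ) = ρ ^ n * W n := by
      rw [Measure.real, hbv, ENNReal.toReal_ofReal (by positivity)]
    have hint : ∫ y in ball z ρ, w y ≤ ρ ^ n * W n / 4 := by
      have hUfin : volume U ≠ ⊤ := (hvol.trans_lt ENNReal.ofReal_lt_top).ne
      have h1 : ∫ y in ball z ρ, w y ≤ ∫ y in ball z ρ, U.indicator (fun _ => (1 : ℝ)) y := by
        apply integral_mono_of_nonneg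
        · exact ae_of_all _ fun y => (hw01 y).1
        · exact (integrable_indicator_iff hUopen.measurableSet).mpr
            (integrableOn_const (by
              exact ((Measure.restrict_apply_le _ _).trans_lt
                (lt_top_iff_ne_top.mpr hUfin)).ne))
        · refine ae_of_all _ fun y => ?_
          by_cases hy : y ∈ U
          · simp only [indicator_of_mem hy]; exact (hw01 y).2
          · simp only [indicator_of_notMem hy]; rw [hw0 y hy]
      have h2 : ∫ y in ball z ρ, U.indicator (fun _ => (1 : ℝ)) y ≤ volume.real U := by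
        rw [integral_indicator hUopen.measurableSet, integral_const, smul_eq_mul, mul_one,
          measureReal_restrict_apply MeasurableSet.univ, univ_inter]
        rw [measureReal_restrict_apply hUopen.measurableSet]
        exact measureReal_mono inter_subset_left hUfin
      have h3 : volume.real U ≤ ρ ^ n * W n / 4 :=
        ENNReal.toReal_le_of_le_ofReal (by positivity) hvol
      linarith
    have havg' : ⨍ y in ball z ρ, w y ≤ 1 / 4 := by
      rw [setAverage_eq, hbr, smul_eq_mul, inv_mul_le_iff₀ (by positivity)]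
      linarith
    rw [hz1]
    have : 3 / 4 ≤ 1 - ⨍ y in ball z ρ, w y := by linarith
    exact (by linarith : (1 : ℝ) / 4 ≤ 1 - ⨍ y in ball z ρ, w y).trans (le_abs_self _)
  -- the projection
  have hproj : ENNReal.ofReal (R / 2) ≤ volume ((fun z => dist z x) '' comp f D x t) := by
    have h1 : Ico 0 (R / 2) ⊆ (fun z => dist z x) '' comp f D x t := by
      intro τ hτ
      obtain ⟨z, hz, hzd⟩ := exists_dist_eq (comp_preconn f D x t) (mem_comp hxD ht) hU1
        (by rw [dist_self]; exact hτ.1) hτ.2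
      exact ⟨z, hz, hzd⟩
    calc ENNReal.ofReal (R / 2) = volume (Ico 0 (R / 2)) := by rw [Real.volume_Ico, sub_zero]
      _ ≤ _ := measure_mono h1
  have hmain := hcap D w G hug hGm (comp f D x t) ρ hρ0 (by
    intro z hz
    refine Subset.trans ?_ hD
    have := mem_closedBall.mp (hU (hU1U hz))
    exact closedBall_subset_closedBall' (by linarith)) havg (fun z => dist z x)
    (LipschitzWith.dist_left x) univ (fun _ _ => subset_univ _)
  rw [Measure.restrict_univ] at hmain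
  have h1 : ENNReal.ofReal (c * ρ ^ (-(1 / 2) : ℝ) * (R / 2)) ≤
      ENNReal.ofReal (C * Y * R ^ (1 / 2 : ℝ)) := by
    rw [ENNReal.ofReal_mul (by positivity)]
    exact (mul_le_mul_right hproj _).trans (hmain.trans hE)
  rw [ENNReal.ofReal_le_ofReal_iff (by positivity)] at h1
  -- contradiction
  have hR2 : R = R ^ (1 / 2 : ℝ) * R ^ (1 / 2 : ℝ) := by
    rw [← Real.rpow_add hR]; norm_num
  have hRh : 0 < R ^ (1 / 2 : ℝ) := Real.rpow_pos_of_pos hR _
  have hρh : 0 < ρ ^ (1 / 2 : ℝ) := Real.rpow_pos_of_pos hρ0 _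
  have h2 : c * R ^ (1 / 2 : ℝ) ≤ 2 * C * Y * ρ ^ (1 / 2 : ℝ) := by
    rw [Real.rpow_neg hρ0.le] at h1
    have h3 : c * (R ^ (1 / 2 : ℝ) * R ^ (1 / 2 : ℝ)) ≤
        2 * C * Y * R ^ (1 / 2 : ℝ) * ρ ^ (1 / 2 : ℝ) := by
      rw [← hR2]
      have h4 := mul_le_mul_of_nonneg_right h1 (by positivity : 0 ≤ 2 * ρ ^ (1 / 2 : ℝ))
      have e1 : c * (ρ ^ (1 / 2 : ℝ))⁻¹ * (R / 2) * (2 * ρ ^ (1 / 2 : ℝ)) = c * R := by
        field_simp
      rw [e1] at h4
      linarith
    have h5 : R ^ (1 / 2 : ℝ) * (c * R ^ (1 / 2 : ℝ)) ≤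
        R ^ (1 / 2 : ℝ) * (2 * C * Y * ρ ^ (1 / 2 : ℝ)) := by linarith
    exact le_of_mul_le_mul_left h5 hRh
  have h6 : ρ ^ (1 / 2 : ℝ) ≤ (c / (4 * C)) * R ^ (1 / 2 : ℝ) / Y := by
    have h7 : ρ ≤ ((c / (4 * C)) * R ^ (1 / 2 : ℝ) / Y) ^ 2 := by
      have e2 : ((c / (4 * C)) * R ^ (1 / 2 : ℝ) / Y) ^ 2 = (c / (4 * C)) ^ 2 * R / Y ^ 2 := by
        rw [div_pow, mul_pow, sq (R ^ (1 / 2 : ℝ)), ← hR2]
      rw [e2, hρ]
      apply div_le_div_of_nonneg_right _ (by positivity)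
      exact mul_le_mul_of_nonneg_right hc₁2 hR.le
    calc ρ ^ (1 / 2 : ℝ) ≤ (((c / (4 * C)) * R ^ (1 / 2 : ℝ) / Y) ^ 2) ^ (1 / 2 : ℝ) :=
          Real.rpow_le_rpow hρ0.le h7 (by norm_num)
      _ = _ := by
        rw [← Real.sqrt_eq_rpow, Real.sqrt_sq (by positivity)]
  have h8 : 2 * C * Y * ρ ^ (1 / 2 : ℝ) ≤ c / 2 * R ^ (1 / 2 : ℝ) := by
    calc 2 * C * Y * ρ ^ (1 / 2 : ℝ) ≤ 2 * C * Y * ((c / (4 * C)) * R ^ (1 / 2 : ℝ) / Y) :=
          mul_le_mul_of_nonneg_left h6 (by positivity)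
      _ = c / 2 * R ^ (1 / 2 : ℝ) := by field_simp; ring
  nlinarith

end Pool.Agent.MP_dd09c0_an
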